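import Pool.Agent.Helper18.BFGroup

open scoped Real
open Finset

namespace Pool.Agent.Helper18.BF

section

variable {G V : Type*} [AddCommGroup G] [AddAction G V]

/-- Translate of a finitely supported row. -/
noncomputable def tr (g : G) (f : V →₀ ℝ) : V →₀ ℝ := f.mapDomain (fun v => g +ᵥ v)

lemma tr_apply (g : G) (f : V →₀ ℝ) (v : V) : tr g f (g +ᵥ v) = f v :=
  Finsupp.mapDomain_apply (AddAction.injective g) f v

lemma tr_apply' (g : G) (f : V →₀ ℝ) (v : V) : tr (-g) f v = f (g +ᵥ v) := by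
  have h := tr_apply (-g) f (g +ᵥ v)
  rwa [neg_vadd_vadd] at h

lemma tr_add (g h : G) (f : V →₀ ℝ) : tr g (tr h f) = tr (g + h) f := by
  unfold tr
  rw [← Finsupp.mapDomain_comp]
  congr 1
  ext v
  simp [add_vadd]

lemma tr_zero (f : V →₀ ℝ) : tr (0 : G) f = f := by
  unfold tr
  have : (fun v : V => (0 : G) +ᵥ v) = id := by
    ext v
    simp
  rw [this, Finsupp.mapDomain_id]

lemma tr_eq_iff (g : G) (f f' : V →₀ ℝ) : tr g f = f' ↔ f = tr (-g) f' := by
  constructor
  · rintro rfl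
    rw [tr_add, neg_add_cancel, tr_zero]
  · rintro rfl
    rw [tr_add, add_neg_cancel, tr_zero]

lemma vadd_inj (hfree : ∀ (g : G) (v : V), g +ᵥ v = v → g = 0) {g h : G} {v : V}
    (H : g +ᵥ v = h +ᵥ v) : g = h := by
  have h1 : (-h + g) +ᵥ v = v := by
    rw [add_vadd, H, neg_vadd_vadd]
  have h2 := hfree _ _ h1
  have h3 : g = h + (-h + g) := by abel
  rw [h3, h2, add_zero]

lemma tr_stab [IsAddTorsionFree G] (hfree : ∀ (g : G) (v : V), g +ᵥ v = v → g = 0)
    {f : V →₀ ℝ} (hf : f ≠ 0) {g : G} (h : tr g f = f) : g = 0 := by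
  obtain ⟨v, hv⟩ := Finsupp.support_nonempty_iff.2 hf
  have h1 : ∀ n : ℕ, n • g +ᵥ v ∈ f.support := by
    intro n
    induction n with
    | zero => simpa using hv
    | succ n ih =>
      rw [Finsupp.mem_support_iff] at ih ⊢
      rw [succ_nsmul', add_vadd, ← h, tr_apply]
      exact ih
  obtain ⟨n, m, hnm, heq⟩ := Finite.exists_ne_map_eq_of_infinite
    (fun n : ℕ => (⟨n • g +ᵥ v, h1 n⟩ : f.support))
  have h2 : n • g = m • g := vadd_inj hfree (Subtype.ext_iff.1 heq)
  have key : ∀ n m : ℕ, n < m → n • g = m • g → g = 0 := by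
    intro n m hlt h3
    obtain ⟨k, rfl⟩ : ∃ k, m = n + (k + 1) := ⟨m - n - 1, by omega⟩
    rw [add_nsmul] at h3
    have h4 : (k + 1) • g = 0 := by
      have := add_left_cancel (a := n • g) (b := 0) (c := (k + 1) • g) (by rw [add_zero]; exact h3)
      exact this.symm
    exact nsmul_right_injective (M := G) (n := k + 1) (by omega) (by
      simp only [nsmul_zero]
      exact h4)
  rcases Nat.lt_or_gt_of_ne hnm with h5 | h5
  · exact key n m h5 h2
  · exact key m n h5 h2.symm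

/-- Orbit representatives and group coordinates. -/
lemma exists_coords (hfree : ∀ (g : G) (v : V), g +ᵥ v = v → g = 0) (B : Finset V)
    (hB : ∀ v, ∃ b ∈ B, ∃ g : G, g +ᵥ b = v) :
    ∃ (rp : V → V) (gp : V → G), (∀ v, rp v ∈ B) ∧ (∀ v, gp v +ᵥ rp v = v) ∧
      (∀ (g : G) v, rp (g +ᵥ v) = rp v) ∧ (∀ (g : G) v, gp (g +ᵥ v) = g + gp v) := by
  have h1 : ∀ c : AddAction.orbitRel.Quotient G V, ∃ b ∈ B, ∃ g : G, g +ᵥ b = c.out :=
    fun c => hB c.out
  choose bc hbc1 hbc2 using h1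
  have h2 : ∀ v : V, ∃ g : G, g +ᵥ bc (Quotient.mk _ v) = v := by
    intro v
    obtain ⟨g1, hg1⟩ := hbc2 (Quotient.mk _ v)
    have h3 : (AddAction.orbitRel G V).r (Quotient.mk (AddAction.orbitRel G V) v).out v :=
      Quotient.exact (Quotient.out_eq _)
    have h4 : (Quotient.mk (AddAction.orbitRel G V) v).out ∈ AddAction.orbit G v := h3
    obtain ⟨g2, hg2⟩ := h4
    refine ⟨-g2 + g1, ?_⟩
    rw [add_vadd, hg1, ← hg2]
    exact neg_vadd_vadd g2 v
  choose gp hgp using h2
  have h3 : ∀ (g : G) (v : V), (Quotient.mk (AddAction.orbitRel G V) (g +ᵥ v)) =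
      Quotient.mk (AddAction.orbitRel G V) v := by
    intro g v
    apply Quotient.sound
    show g +ᵥ v ∈ AddAction.orbit G v
    exact ⟨g, rfl⟩
  refine ⟨fun v => bc (Quotient.mk _ v), gp, fun v => hbc1 _, hgp, ?_, ?_⟩
  · intro g v
    simp only
    rw [h3]
  · intro g v
    have h4 := hgp (g +ᵥ v)
    rw [h3] at h4
    have h5 : (g + gp v) +ᵥ bc (Quotient.mk _ v) = g +ᵥ v := by
      rw [add_vadd, hgp]
    exact vadd_inj hfree (h4.trans h5.symm)

end

section

variable {G : Type*} {V : Type*} [AddCommGroup G] [IsAddTorsionFree G] [AddAction G V]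

/-- Finitely many rows with all their translates. -/
theorem rows_finite {ι : Type*} [Fintype ι] (hfree : ∀ (g : G) (v : V), g +ᵥ v = v → g = 0)
    (B : Finset V) (hB : ∀ v, ∃ b ∈ B, ∃ g : G, g +ᵥ b = v) (f : ι → V →₀ ℝ) :
    ∃ χ : V → ℝ, (∀ v, χ v = 1 ∨ χ v = -1) ∧ ∀ i (g : G),
      (∑ v ∈ (f i).support, f i v * χ (g +ᵥ v)) ^ 2 ≤
        CC * ∑ i, ∑ v ∈ (f i).support, f i v ^ 2 := by
  classical
  obtain ⟨rp, gp, h1, h2, h3, h4⟩ := exists_coords hfree B hB
  let em : V → G × (V → ℤ) := fun v => (gp v, Pi.single (rp v) 1)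
  have hinj : Function.Injective em := by
    intro v w hvw
    simp only [em, Prod.mk.injEq] at hvw
    have h5 : rp v = rp w := by
      by_contra hne
      have h6 := congrFun hvw.2 (rp v)
      rw [Pi.single_eq_same, Pi.single_eq_of_ne hne] at h6
      exact one_ne_zero h6
    rw [← h2 v, ← h2 w, hvw.1, h5]
  have hadd : ∀ (g : G) v, em (g +ᵥ v) = (g, 0) + em v := by
    intro g v
    simp only [em, h3, h4, Prod.mk_add_mk, zero_add]
  obtain ⟨χ, c1, c2⟩ := main_group (G := G × (V → ℤ))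
    (fun i => ((f i).support).map ⟨em, hinj⟩) (fun i => Function.extend em (f i) 0)
  refine ⟨fun v => χ (em v), fun v => c1 _, ?_⟩
  intro i g
  have h5 := c2 i (g, 0)
  simp only [Finset.sum_map, Function.Embedding.coeFn_mk] at h5
  simp only [hinj.extend_apply, ← hadd] at h5
  exact h5

/-- Total weight of rows from distinct orbits. -/
lemma total_le {ι : Type*} [Fintype ι] (hfree : ∀ (g : G) (v : V), g +ᵥ v = v → g = 0)
    (B : Finset V) (hB : ∀ v, ∃ b ∈ B, ∃ g : G, g +ᵥ b = v) (f : ι → V →₀ ℝ)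
    (hf0 : ∀ i, f i ≠ 0) (hf : ∀ i j (g : G), tr g (f i) = f j → i = j)
    (T : ℝ) (E : Set (V →₀ ℝ)) (hE : ∀ g : G, ∀ f ∈ E, tr g f ∈ E)
    (hcol : ∀ v, ∀ F : Finset (V →₀ ℝ), (∀ f ∈ F, f ∈ E) → ∑ f ∈ F, f v ^ 2 ≤ T)
    (hfE : ∀ i, f i ∈ E) :
    ∑ i, ∑ v ∈ (f i).support, f i v ^ 2 ≤ #B * T := by
  classical
  obtain ⟨rp, gp, h1, h2, h3, h4⟩ := exists_coords hfree B hB
  set P : Finset (Σ _ : ι, V) := Finset.univ.sigma (fun i => (f i).support) with hP
  have e1 : ∑ i, ∑ v ∈ (f i).support, f i v ^ 2 = ∑ p ∈ P, f p.1 p.2 ^ 2 := by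
    rw [hP, Finset.sum_sigma]
  have e2 : ∑ p ∈ P, f p.1 p.2 ^ 2 = ∑ b ∈ B, ∑ p ∈ P.filter (fun p => rp p.2 = b),
      f p.1 p.2 ^ 2 :=
    (Finset.sum_fiberwise_of_maps_to (fun p _ => h1 p.2) _).symm
  rw [e1, e2, ← nsmul_eq_mul, ← Finset.sum_const]
  apply Finset.sum_le_sum
  intro b _
  have e3 : ∀ p ∈ P.filter (fun p => rp p.2 = b), f p.1 p.2 ^ 2 =
      (tr (-(gp p.2)) (f p.1)) b ^ 2 := by
    intro p hp
    rw [mem_filter] at hp
    rw [tr_apply', ← hp.2, h2]
  rw [Finset.sum_congr rfl e3]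
  have hinj : Set.InjOn (fun p : Σ _ : ι, V => tr (-(gp p.2)) (f p.1))
      (P.filter (fun p => rp p.2 = b) : Finset (Σ _ : ι, V)) := by
    intro p hp p' hp' heq
    rw [mem_coe, mem_filter] at hp hp'
    simp only at heq
    have e4 : tr (gp p'.2 + -(gp p.2)) (f p.1) = f p'.1 := by
      rw [← tr_add, heq, tr_add, add_neg_cancel, tr_zero]
    have e5 := hf _ _ _ e4
    obtain ⟨i, v⟩ := p
    obtain ⟨j, w⟩ := p'
    simp only at e5
    subst e5
    simp only at e4 hp hp'
    have e6 := tr_stab hfree (hf0 i) e4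
    have e7 : gp v = gp w := by
      have : gp v = gp w - (gp w + -(gp v)) := by abel
      rw [this, e6, sub_zero]
    have e8 : v = w := by
      rw [← h2 v, ← h2 w, e7, hp.2, hp'.2]
    rw [e8]
  rw [← Finset.sum_image (f := fun h : V →₀ ℝ => h b ^ 2)
    (g := fun p : Σ _ : ι, V => tr (-(gp p.2)) (f p.1)) hinj]
  apply hcol
  intro h hh
  rw [Finset.mem_image] at hh
  obtain ⟨p, _, rfl⟩ := hh
  exact hE _ _ (hfE _)

/-- Translation setoid on rows. -/
def trRel (G : Type*) (V : Type*) [AddCommGroup G] [AddAction G V] : Setoid (V →₀ ℝ) where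
  r f f' := ∃ g : G, tr g f = f'
  iseqv :=
    { refl := fun f => ⟨0, tr_zero f⟩
      symm := by
        rintro f f' ⟨g, hg⟩
        exact ⟨-g, ((tr_eq_iff g f f').1 hg).symm⟩
      trans := by
        rintro f f' f'' ⟨g, hg⟩ ⟨h, hh⟩
        exact ⟨h + g, by rw [← tr_add, hg, hh]⟩ }

/-- The Komlos-type theorem for free actions of torsion-free abelian groups. -/
theorem komlos_free (hfree : ∀ (g : G) (v : V), g +ᵥ v = v → g = 0)
    (B : Finset V) (hB : ∀ v, ∃ b ∈ B, ∃ g : G, g +ᵥ b = v)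
    (T : ℝ) (E : Set (V →₀ ℝ)) (hE : ∀ g : G, ∀ f ∈ E, tr g f ∈ E)
    (hcol : ∀ v, ∀ F : Finset (V →₀ ℝ), (∀ f ∈ F, f ∈ E) → ∑ f ∈ F, f v ^ 2 ≤ T) :
    ∃ χ : V → ℝ, (∀ v, χ v = 1 ∨ χ v = -1) ∧
      ∀ f ∈ E, (∑ v ∈ f.support, f v * χ v) ^ 2 ≤ CC * (#B * T) := by
  classical
  have hbase : 0 ≤ (#B : ℝ) * T := by
    rcases B.eq_empty_or_nonempty with h | ⟨b, _⟩
    · simp [h]
    · have h1 := hcol b ∅ (by simp)
      rw [Finset.sum_empty] at h1
      positivity
  set K : Set (V → ℝ) := Set.pi Set.univ (fun _ => ({1, -1} : Set ℝ)) with hK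
  have hKc : IsCompact K := isCompact_univ_pi (fun _ => (Set.toFinite _).isCompact)
  set C : E → Set (V → ℝ) := fun f => {χ | (∑ v ∈ (f : V →₀ ℝ).support,
    (f : V →₀ ℝ) v * χ v) ^ 2 ≤ CC * (#B * T)} with hC
  have hCc : ∀ f, IsClosed (C f) := by
    intro f
    apply isClosed_le _ continuous_const
    fun_prop
  obtain ⟨χ, hχ1, hχ2⟩ := hKc.inter_iInter_nonempty C hCc (by
    intro u
    -- representatives of the orbits
    set ρ : (V →₀ ℝ) → (V →₀ ℝ) := fun f => (Quotient.mk (trRel G V) f).out with hρ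
    have hρ1 : ∀ f, ∃ g : G, tr g (ρ f) = f := by
      intro f
      have h1 : (trRel G V).r (Quotient.mk (trRel G V) f).out f :=
        Quotient.exact (Quotient.out_eq _)
      exact h1
    have hρE : ∀ f ∈ E, ρ f ∈ E := by
      intro f hf
      obtain ⟨g, hg⟩ := hρ1 f
      rw [(tr_eq_iff g _ _).1 hg]
      exact hE _ _ hf
    set F' : Finset (V →₀ ℝ) := ((u.image (fun f : E => ρ f)).filter (fun f => f ≠ 0)) with hF'
    have hF'mem : ∀ f ∈ F', f ∈ E ∧ f ≠ 0 ∧ ρ f = f := by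
      intro f hf
      rw [hF', mem_filter, mem_image] at hf
      obtain ⟨⟨f0, _, rfl⟩, hf2⟩ := hf
      refine ⟨hρE _ f0.2, hf2, ?_⟩
      rw [hρ]
      simp only [Quotient.out_eq]
    obtain ⟨χ, c1, c2⟩ := rows_finite (ι := F') hfree B hB (fun i => (i : V →₀ ℝ))
    have htot := total_le (ι := F') hfree B hB (fun i => (i : V →₀ ℝ))
      (fun i => (hF'mem i i.2).2.1) (by
        intro i j g hij
        apply Subtype.ext
        rw [← (hF'mem i i.2).2.2, ← (hF'mem j j.2).2.2]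
        rw [hρ]
        simp only
        congr 1
        exact Quotient.sound ⟨g, hij⟩) T E hE hcol (fun i => (hF'mem i i.2).1)
    refine ⟨χ, ?_, ?_⟩
    · rw [hK, Set.mem_univ_pi]
      intro v
      rcases c1 v with h | h
      · left; exact h
      · right; exact h
    · rw [Set.mem_iInter₂]
      intro f hf
      show (∑ v ∈ (f : V →₀ ℝ).support, (f : V →₀ ℝ) v * χ v) ^ 2 ≤ CC * (#B * T)
      obtain ⟨g, hg⟩ := hρ1 (f : V →₀ ℝ)
      by_cases hz : ρ f = 0
      · have : (f : V →₀ ℝ) = 0 := by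
          rw [← hg, hz]
          unfold tr
          exact Finsupp.mapDomain_zero
        rw [this]
        simp only [Finsupp.support_zero, Finset.sum_empty]
        have h0 := mul_nonneg CC_pos.le hbase
        rw [zero_pow two_ne_zero]
        exact h0
      · have hmem : ρ f ∈ F' := by
          rw [hF', mem_filter, mem_image]
          exact ⟨⟨f, hf, rfl⟩, hz⟩
        have h1 := c2 ⟨ρ f, hmem⟩ g
        simp only at h1
        have h2 : (f : V →₀ ℝ).support = (ρ f).support.map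
            ⟨fun v => g +ᵥ v, AddAction.injective g⟩ := by
          ext v
          rw [Finset.mem_map]
          simp only [Function.Embedding.coeFn_mk, Finsupp.mem_support_iff]
          constructor
          · intro hv
            refine ⟨-g +ᵥ v, ?_, vadd_neg_vadd g v⟩
            have h3 := tr_apply g (ρ f) (-g +ᵥ v)
            rw [vadd_neg_vadd, hg] at h3
            rw [← h3]
            exact hv
          · rintro ⟨w, hw, rfl⟩
            have h3 := tr_apply g (ρ f) w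
            rw [hg] at h3
            rw [h3]
            exact hw
        have h3 : ∑ v ∈ (f : V →₀ ℝ).support, (f : V →₀ ℝ) v * χ v =
            ∑ v ∈ (ρ f).support, ρ f v * χ (g +ᵥ v) := by
          rw [h2, Finset.sum_map]
          apply Finset.sum_congr rfl
          intro v _
          simp only [Function.Embedding.coeFn_mk]
          have h4 := tr_apply g (ρ f) v
          rw [hg] at h4
          rw [h4]
        rw [h3]
        refine h1.trans ?_
        have := CC_pos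
        exact mul_le_mul_of_nonneg_left htot this.le)
  refine ⟨χ, ?_, ?_⟩
  · intro v
    have := hχ1 v (Set.mem_univ v)
    exact this
  · intro f hf
    have := Set.mem_iInter.1 hχ2 ⟨f, hf⟩
    exact this

end

end Pool.Agent.Helper18.BF
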