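import Pool.Agent.Helper18.BFSkew

open scoped Real
open Finset

namespace Pool.Agent.Helper18.BF

/-- The coefficients of the level functions at `v = 1/2`. -/
noncomputable def cf (J : ℕ) (m : Fin (J + 1) → ℤ) : ℂ :=
  2 * (aa J K0 m * (1 - e (-(m 0 * (1 / 2)))))

lemma norm_cf_le (J : ℕ) (m : Fin (J + 1) → ℤ) : ‖cf J m‖ ≤ 4 * ‖aa J K0 m‖ := by
  unfold cf
  rw [norm_mul, norm_mul]
  have h1 := norm_one_sub_e_le (-(m 0 * (1 / 2)))
  have h2 : ‖(2:ℂ)‖ = 2 := by simp
  rw [h2]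
  nlinarith [norm_nonneg (aa J K0 m)]

lemma cf_zero (J : ℕ) : cf J 0 = 0 := by
  unfold cf
  simp [e_zero]

/-- The box without the origin. -/
noncomputable def Lcut (J R : ℕ) : Finset (Fin (J + 1) → ℤ) :=
  (Fintype.piFinset (fun _ => Finset.Icc (-(R : ℤ)) R)).erase 0

lemma mem_Lcut {J R : ℕ} {m : Fin (J + 1) → ℤ} :
    m ∈ Lcut J R ↔ m ≠ 0 ∧ ∀ l, |m l| ≤ R := by
  unfold Lcut
  rw [mem_erase, Fintype.mem_piFinset]
  simp only [Finset.mem_Icc, abs_le]

open Classical in
theorem block_bound {L d q J : ℕ} (hq : 0 < q) (hJ : J + 1 ≤ L) (s : Finset (Fin d → ℤ))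
    (f : (Fin d → ℤ) → ℝ) (R Dm : ℕ)
    (hDm : ∀ m : Fin (J + 1) → ℤ, (∀ l, |m l| ≤ R) → ∀ ε l,
      Nat.log 2 (Lsk J K0 ε m l).natAbs ≤ Dm)
    (A : ℤ) (hA : ∀ a ∈ s, ∀ i, |a i| ≤ A)
    (hAB : 4 * ((R:ℤ) * A) < q) (S2 θ : ℝ) (hθ0 : 0 ≤ θ) (hS : ∑ a ∈ s, f a ^ 2 ≤ S2)
    (hθ : √(∑ a ∈ s, f a ^ 4) ≤ θ * S2) :
    ∃ X : ZZ L d q → ℝ, (∀ Z, 0 ≤ X Z) ∧
      (∀ Z (y : ℕ → ℝ), ‖∑ m ∈ Lcut J R, cf J m * hh s f m Z * e (dotu m y)‖ ^ 2 ≤ X Z) ∧
      avR X ≤ S2 * ((2 ^ (J + 1) * ((Dm + 1 : ℕ) : ℝ) ^ (J + 1)) ^ 2 *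
        ((4 * 12 ^ (J + 1)) ^ 2 * (2 ^ (J + 2) * (gam J + θ)))) := by
  choose ε hε using (fun m => skew_bound J K0 K0_pos m)
  set φ : (Fin (J + 1) → ℤ) → (Fin (J + 1) → Bool) × (Fin (J + 1) → Fin (Dm + 1)) :=
    fun m => (ε m, fun l => ⟨min Dm (Nat.log 2 (Lsk J K0 (ε m) m l).natAbs), by omega⟩) with hφ
  set Λ : (Fin (J + 1) → Bool) × (Fin (J + 1) → Fin (Dm + 1)) → Finset (Fin (J + 1) → ℤ) :=
    fun j => (Lcut J R).filter (fun m => φ m = j) with hΛ
  set N : ℕ := Fintype.card ((Fin (J + 1) → Bool) × (Fin (J + 1) → Fin (Dm + 1))) with hN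
  have hNval : (N:ℝ) = 2 ^ (J + 1) * ((Dm + 1 : ℕ) : ℝ) ^ (J + 1) := by
    rw [hN]
    simp
  refine ⟨fun Z => N * ∑ j, XL s f (Λ j) (cf J) Z, ?_, ?_, ?_⟩
  · intro Z
    apply mul_nonneg (Nat.cast_nonneg _)
    exact Finset.sum_nonneg (fun j _ => XL_nonneg _ _ _ _ _)
  · intro Z y
    have h1 : ∑ m ∈ Lcut J R, cf J m * hh s f m Z * e (dotu m y) =
        ∑ j, ∑ m ∈ Λ j, cf J m * hh s f m Z * e (dotu m y) := by
      rw [hΛ]
      exact (Finset.sum_fiberwise (Lcut J R) φ _).symm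
    rw [h1]
    have h2 : ‖∑ j, ∑ m ∈ Λ j, cf J m * hh s f m Z * e (dotu m y)‖ ^ 2 ≤
        (∑ j, ‖∑ m ∈ Λ j, cf J m * hh s f m Z * e (dotu m y)‖) ^ 2 :=
      pow_le_pow_left₀ (norm_nonneg _) (norm_sum_le _ _) 2
    refine h2.trans ?_
    refine (sq_sum_le_card_mul_sum_sq).trans ?_
    rw [Finset.card_univ]
    apply mul_le_mul_of_nonneg_left _ (Nat.cast_nonneg _)
    exact Finset.sum_le_sum (fun j _ => sup_le_XL s f (Λ j) (cf J) Z y)
  · rw [avR_mul_left, avR_sum]
    have hone : ∀ j : (Fin (J + 1) → Bool) × (Fin (J + 1) → Fin (Dm + 1)),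
        avR (fun Z : ZZ L d q => XL s f (Λ j) (cf J) Z) ≤
          S2 * ((4 * 12 ^ (J + 1)) ^ 2 * (2 ^ (J + 2) * (gam J + θ))) := by
      intro j
      obtain ⟨ε₀, r⟩ := j
      set X : Fin (J + 1) → ℕ := fun l => max (ww J l) (2 ^ ((r l : ℕ) + 1)) with hX
      have hXpos : ∀ l, 0 < X l := fun l => lt_of_lt_of_le (ww_pos J l) (le_max_left _ _)
      have hmemΛ : ∀ m ∈ Λ (ε₀, r), (m ≠ 0 ∧ ∀ l, |m l| ≤ R) ∧ ε m = ε₀ ∧
          ∀ l, Nat.log 2 (Lsk J K0 ε₀ m l).natAbs = (r l : ℕ) := by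
        intro m hm
        rw [hΛ] at hm
        simp only [mem_filter] at hm
        rw [mem_Lcut] at hm
        obtain ⟨hm1, hm2⟩ := hm
        rw [hφ] at hm2
        simp only [Prod.mk.injEq] at hm2
        obtain ⟨hm3, hm4⟩ := hm2
        refine ⟨hm1, hm3, ?_⟩
        intro l
        have h5 := congrArg Fin.val (congrFun hm4 l)
        simp only at h5
        rw [hm3] at h5
        rw [min_eq_right (hDm m hm1.2 ε₀ l)] at h5
        exact h5
      refine flat_bound hq hJ s f (LskL J K0 ε₀) (LskL_injective J K0 ε₀) (Λ (ε₀, r)) X ?_ ?_ ?_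
        (cf J) (4 * ∏ l, (4 / (X l : ℝ))) (4 * 12 ^ (J + 1)) (by positivity) ?_ ?_ A R hA ?_ hAB
        S2 θ hθ0 hS hθ
      · intro l
        have : ww J l ≤ X l := le_max_left _ _
        omega
      · intro m hm l
        obtain ⟨h1, h2, h3⟩ := hmemΛ m hm
        have h4 : (Lsk J K0 ε₀ m l).natAbs < 2 ^ ((r l : ℕ) + 1) := by
          rw [← h3 l]
          exact Nat.lt_pow_succ_log_self (by norm_num) _
        have h5 : (Lsk J K0 ε₀ m l).natAbs ≤ X l := h4.le.trans (le_max_right _ _)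
        show |Lsk J K0 ε₀ m l| ≤ X l
        rw [Int.abs_eq_natAbs]
        exact_mod_cast h5
      · intro h0
        exact (hmemΛ 0 h0).1.1 rfl
      · intro m hm
        obtain ⟨h1, h2, h3⟩ := hmemΛ m hm
        refine (norm_cf_le J m).trans ?_
        apply mul_le_mul_of_nonneg_left _ (by norm_num)
        refine (hε m).trans ?_
        apply Finset.prod_le_prod
        · intro l _
          positivity
        · intro l _
          rw [h2, kap_K0]
          have hX' : (0:ℝ) < X l := by exact_mod_cast hXpos l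
          have hw' : (0:ℝ) < ww J l := by exact_mod_cast ww_pos J l
          have hmx : (0:ℝ) < max (ww J l : ℝ) |((Lsk J K0 ε₀ m l : ℤ) : ℝ)| :=
            lt_of_lt_of_le hw' (le_max_left _ _)
          rw [div_le_div_iff₀ hmx hX']
          have hXle : (X l : ℝ) ≤ 2 * max (ww J l : ℝ) |((Lsk J K0 ε₀ m l : ℤ) : ℝ)| := by
            have hXe : (X l : ℝ) = max (ww J l : ℝ) (2 ^ ((r l : ℕ) + 1)) := by
              rw [hX]
              push_cast
              rfl
            rw [hXe]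
            apply max_le
            · have := le_max_left (ww J l : ℝ) |((Lsk J K0 ε₀ m l : ℤ) : ℝ)|
              linarith
            · rcases Nat.eq_zero_or_pos (Lsk J K0 ε₀ m l).natAbs with h0 | h0
              · have hr0 : (r l : ℕ) = 0 := by
                  rw [← h3 l, h0]
                  simp
                rw [hr0]
                have hw1 : (1:ℝ) ≤ ww J l := by exact_mod_cast ww_pos J l
                have := le_max_left (ww J l : ℝ) |((Lsk J K0 ε₀ m l : ℤ) : ℝ)|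
                have h22 : (2:ℝ) ^ (0 + 1) = 2 := by norm_num
                rw [h22]
                linarith
              · have h5 : 2 ^ (r l : ℕ) ≤ (Lsk J K0 ε₀ m l).natAbs := by
                  rw [← h3 l]
                  exact Nat.pow_log_le_self 2 (by omega)
                have h6 : (2:ℝ) ^ (r l : ℕ) ≤ |((Lsk J K0 ε₀ m l : ℤ) : ℝ)| := by
                  have h7 : ((2 ^ (r l : ℕ) : ℕ) : ℝ) ≤ ((Lsk J K0 ε₀ m l).natAbs : ℝ) := by
                    exact_mod_cast h5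
                  rw [Nat.cast_natAbs] at h7
                  push_cast at h7
                  exact h7
                have := le_max_right (ww J l : ℝ) |((Lsk J K0 ε₀ m l : ℤ) : ℝ)|
                rw [pow_succ]
                linarith
          linarith
      · have h1 : (4 * ∏ l, (4 / (X l : ℝ))) * ((∏ l, (2 * X l + 1) : ℕ) : ℝ) =
            4 * ∏ l : Fin (J + 1), ((4 / (X l : ℝ)) * (2 * X l + 1)) := by
          rw [Finset.prod_mul_distrib]
          push_cast
          ring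
        rw [h1]
        apply mul_le_mul_of_nonneg_left _ (by norm_num)
        calc ∏ l : Fin (J + 1), ((4 / (X l : ℝ)) * (2 * X l + 1)) ≤
            ∏ _l : Fin (J + 1), (12:ℝ) := by
              apply Finset.prod_le_prod
              · intro l _
                positivity
              · intro l _
                have hX' : (1:ℝ) ≤ X l := by exact_mod_cast hXpos l
                have hX0 : (0:ℝ) < X l := by linarith
                rw [div_mul_eq_mul_div, div_le_iff₀ hX0]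
                linarith
          _ = 12 ^ (J + 1) := by
              rw [Finset.prod_const, Finset.card_univ, Fintype.card_fin]
      · intro m hm l
        exact (hmemΛ m hm).1.2 l
    calc _ ≤ (N:ℝ) * ∑ _j : (Fin (J + 1) → Bool) × (Fin (J + 1) → Fin (Dm + 1)),
          S2 * ((4 * 12 ^ (J + 1)) ^ 2 * (2 ^ (J + 2) * (gam J + θ))) := by
          apply mul_le_mul_of_nonneg_left _ (Nat.cast_nonneg _)
          exact Finset.sum_le_sum (fun j _ => hone j)
      _ = _ := by
          rw [Finset.sum_const, Finset.card_univ, nsmul_eq_mul, ← hN, ← hNval]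
          ring

end Pool.Agent.Helper18.BF
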