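import Pool.Agent.Helper18.BFMoment2

open scoped Real ComplexConjugate
open Finset

namespace Pool.Agent.Helper18.BF

section

variable {L d q D : ℕ}

open Classical in
/-- Index set of the nonparallel pairs with difference `n`. -/
noncomputable def Pn (Λ : Finset (Fin D → ℤ)) (n : Fin D → ℤ) : Finset (Fin D → ℤ) :=
  Λ.filter (fun m => m + n ∈ Λ ∧ ¬ Dep2 m (m + n))

/-- The nonparallel part with difference `n`. -/
noncomputable def Tn (s : Finset (Fin d → ℤ)) (f : (Fin d → ℤ) → ℝ) (Λ : Finset (Fin D → ℤ))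
    (c : (Fin D → ℤ) → ℂ) (n : Fin D → ℤ) (Z : ZZ L d q) : ℂ :=
  ∑ m ∈ Pn Λ n, c (m + n) * conj (c m) * (hh s f (m + n) Z * conj (hh s f m Z))

open Classical in
/-- Set of differences. -/
noncomputable def Diff (Λ : Finset (Fin D → ℤ)) : Finset (Fin D → ℤ) :=
  (Λ ×ˢ Λ).image (fun p => p.1 - p.2)

open Classical in
/-- The sup bound. -/
noncomputable def XL (s : Finset (Fin d → ℤ)) (f : (Fin d → ℤ) → ℝ) (Λ : Finset (Fin D → ℤ))
    (c : (Fin D → ℤ) → ℂ) (Z : ZZ L d q) : ℝ :=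
  (∑ p ∈ (Λ ×ˢ Λ).filter (fun p => Dep2 p.2 p.1), ‖c p.1‖ * ‖c p.2‖ *
    (‖hh s f p.1 Z‖ * ‖hh s f p.2 Z‖)) + ∑ n ∈ Diff Λ, ‖Tn s f Λ c n Z‖

lemma XL_nonneg (s : Finset (Fin d → ℤ)) (f : (Fin d → ℤ) → ℝ) (Λ : Finset (Fin D → ℤ))
    (c : (Fin D → ℤ) → ℂ) (Z : ZZ L d q) : 0 ≤ XL s f Λ c Z := by
  unfold XL
  apply add_nonneg
  · apply Finset.sum_nonneg
    intro p _
    positivity
  · exact Finset.sum_nonneg (fun n _ => norm_nonneg _)

open Classical in
theorem sup_le_XL (s : Finset (Fin d → ℤ)) (f : (Fin d → ℤ) → ℝ) (Λ : Finset (Fin D → ℤ))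
    (c : (Fin D → ℤ) → ℂ) (Z : ZZ L d q) (y : ℕ → ℝ) :
    ‖∑ m ∈ Λ, c m * hh s f m Z * e (dotu m y)‖ ^ 2 ≤ XL s f Λ c Z := by
  set F : (Fin D → ℤ) → ℂ := fun m => c m * hh s f m Z * e (dotu m y) with hF
  have h1 : ‖∑ m ∈ Λ, F m‖ ^ 2 = ‖∑ p ∈ Λ ×ˢ Λ, F p.1 * conj (F p.2)‖ := by
    rw [Finset.sum_product]
    simp only
    rw [← Finset.sum_mul_sum, ← map_sum, norm_mul, RCLike.norm_conj, sq]
  rw [h1, ← Finset.sum_filter_add_sum_filter_not (Λ ×ˢ Λ) (fun p => Dep2 p.2 p.1)]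
  refine (norm_add_le _ _).trans ?_
  unfold XL
  apply add_le_add
  · refine (norm_sum_le _ _).trans (le_of_eq ?_)
    apply Finset.sum_congr rfl
    intro p _
    rw [norm_mul, RCLike.norm_conj, hF]
    simp only [norm_mul, norm_e, mul_one]
    ring
  · have h2 : ∑ p ∈ (Λ ×ˢ Λ).filter (fun p => ¬ Dep2 p.2 p.1), F p.1 * conj (F p.2) =
        ∑ n ∈ Diff Λ, Tn s f Λ c n Z * e (dotu n y) := by
      rw [← Finset.sum_fiberwise_of_maps_to (t := Diff Λ) (g := fun p => p.1 - p.2)]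
      · apply Finset.sum_congr rfl
        intro n _
        unfold Tn
        rw [Finset.sum_mul]
        apply Finset.sum_bij (fun p _ => p.2)
        · intro p hp
          simp only [mem_filter, mem_product] at hp
          unfold Pn
          rw [mem_filter]
          have h3 : p.2 + n = p.1 := by rw [← hp.2]; abel
          rw [h3]
          exact ⟨hp.1.1.2, hp.1.1.1, hp.1.2⟩
        · intro p hp p' hp' heq
          simp only [mem_filter, mem_product] at hp hp'
          have h3 : p.2 + n = p.1 := by rw [← hp.2]; abel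
          have h4 : p'.2 + n = p'.1 := by rw [← hp'.2]; abel
          ext1
          · rw [← h3, ← h4, heq]
          · exact heq
        · intro m hm
          unfold Pn at hm
          rw [mem_filter] at hm
          refine ⟨(m + n, m), ?_, rfl⟩
          simp only [mem_filter, mem_product]
          exact ⟨⟨⟨hm.2.1, hm.1⟩, hm.2.2⟩, by abel⟩
        · intro p hp
          simp only [mem_filter, mem_product] at hp
          have h3 : p.2 + n = p.1 := by rw [← hp.2]; abel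
          rw [h3, hF]
          simp only [map_mul]
          have h5 : dotu n y = dotu p.1 y - dotu p.2 y := by
            rw [← h3]
            unfold dotu
            rw [← Finset.sum_sub_distrib]
            apply Finset.sum_congr rfl
            intro l _
            simp only [Pi.add_apply]
            push_cast
            ring
          rw [h5, e_sub]
          ring
      · intro p hp
        simp only [mem_filter, mem_product] at hp
        unfold Diff
        rw [mem_image]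
        exact ⟨p, by rw [mem_product]; exact hp.1, rfl⟩
    rw [h2]
    refine (norm_sum_le _ _).trans (le_of_eq ?_)
    apply Finset.sum_congr rfl
    intro n _
    rw [norm_mul, norm_e, mul_one]

lemma norm_av_four_le (hq : 0 < q) (hD : D ≤ L) (s : Finset (Fin d → ℤ)) (f : (Fin d → ℤ) → ℝ)
    (m n k : Fin D → ℤ) (A B : ℤ) (hA : ∀ a ∈ s, ∀ i, |a i| ≤ A)
    (h1 : ∀ l, |(m + n) l| ≤ B) (h2 : ∀ l, |m l| ≤ B) (h3 : ∀ l, |(k + n) l| ≤ B)
    (h4 : ∀ l, |k l| ≤ B) (hAB : 4 * (B * A) < q) (hi1 : ¬ Dep2 m (m + n))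
    (hi2 : ¬ Dep2 k (k + n)) :
    ‖av (fun Z : ZZ L d q => hh s f (m + n) Z * conj (hh s f m Z) * conj (hh s f (k + n) Z) *
      hh s f k Z)‖ ≤ (∑ a ∈ s, f a ^ 2) ^ 2 := by
  refine (norm_av_le _).trans ?_
  have e1 := moment_two hq hD s f m (m + n) A B hA h2 h1 hAB hi1
  have e2 := moment_two hq hD s f k (k + n) A B hA h4 h3 hAB hi2
  have e3 : ∀ Z : ZZ L d q, ‖hh s f (m + n) Z * conj (hh s f m Z) * conj (hh s f (k + n) Z) *
      hh s f k Z‖ ≤ 1 / 2 * (‖hh s f m Z‖ ^ 2 * ‖hh s f (m + n) Z‖ ^ 2) +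
        1 / 2 * (‖hh s f k Z‖ ^ 2 * ‖hh s f (k + n) Z‖ ^ 2) := by
    intro Z
    rw [norm_mul, norm_mul, norm_mul, RCLike.norm_conj, RCLike.norm_conj]
    nlinarith [sq_nonneg (‖hh s f (m + n) Z‖ * ‖hh s f m Z‖ -
      ‖hh s f (k + n) Z‖ * ‖hh s f k Z‖)]
  refine (avR_mono e3).trans ?_
  rw [avR_add, avR_mul_left, avR_mul_left, e1, e2]
  linarith

open Classical in
/-- The averaged bound. -/
theorem avR_XL_le (hq : 0 < q) (hD : D ≤ L) (s : Finset (Fin d → ℤ)) (f : (Fin d → ℤ) → ℝ)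
    (Λ : Finset (Fin D → ℤ)) (c : (Fin D → ℤ) → ℂ) (g : ℝ) (hg : 0 ≤ g)
    (hc : ∀ m ∈ Λ, ‖c m‖ ≤ g)
    (A B : ℤ) (hA : ∀ a ∈ s, ∀ i, |a i| ≤ A) (hB : ∀ m ∈ Λ, ∀ l, |m l| ≤ B)
    (hAB : 4 * (B * A) < q) (h0 : (0 : Fin D → ℤ) ∉ Λ) (L1 L2 M : ℕ)
    (H1 : ∀ m ∈ Λ, #(Λ.filter (fun k => Dep2 k m)) ≤ L1)
    (H2 : ∀ m ∈ Λ, ∀ n, m + n ∈ Λ → ¬ Dep2 m (m + n) →
      #(Λ.filter (fun k => Dep3 m n k)) ≤ L2)
    (H3 : #(Diff Λ) ≤ M) :
    avR (fun Z : ZZ L d q => XL s f Λ c Z) ≤ g ^ 2 * ((∑ a ∈ s, f a ^ 2) * (#Λ * L1) +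
      M * √(#Λ * L2 * (∑ a ∈ s, f a ^ 2) ^ 2 + (#Λ) ^ 2 * ∑ a ∈ s, f a ^ 4)) := by
  set S2 := ∑ a ∈ s, f a ^ 2 with hS2
  set S4 := ∑ a ∈ s, f a ^ 4 with hS4
  have hS2n : 0 ≤ S2 := Finset.sum_nonneg (fun a _ => sq_nonneg _)
  have hS4n : 0 ≤ S4 := Finset.sum_nonneg (fun a _ => by positivity)
  unfold XL
  rw [avR_add, avR_sum, avR_sum, mul_add]
  apply add_le_add
  · -- parallel part
    have t1 : ∀ p ∈ (Λ ×ˢ Λ).filter (fun p => Dep2 p.2 p.1),
        avR (fun Z : ZZ L d q => ‖c p.1‖ * ‖c p.2‖ * (‖hh s f p.1 Z‖ * ‖hh s f p.2 Z‖)) ≤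
          g ^ 2 * S2 := by
      intro p hp
      simp only [mem_filter, mem_product] at hp
      have hp1 : p.1 ≠ 0 := fun h => h0 (h ▸ hp.1.1)
      have hp2 : p.2 ≠ 0 := fun h => h0 (h ▸ hp.1.2)
      have e1 := moment_one hq hD s f p.1 A B hA (hB _ hp.1.1) hAB hp1
      have e2 := moment_one hq hD s f p.2 A B hA (hB _ hp.1.2) hAB hp2
      rw [avR_mul_left]
      have e3 : avR (fun Z : ZZ L d q => ‖hh s f p.1 Z‖ * ‖hh s f p.2 Z‖) ≤ S2 := by
        have e4 : ∀ Z : ZZ L d q, ‖hh s f p.1 Z‖ * ‖hh s f p.2 Z‖ ≤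
            1 / 2 * ‖hh s f p.1 Z‖ ^ 2 + 1 / 2 * ‖hh s f p.2 Z‖ ^ 2 := by
          intro Z
          nlinarith [sq_nonneg (‖hh s f p.1 Z‖ - ‖hh s f p.2 Z‖)]
        refine (avR_mono e4).trans ?_
        rw [avR_add, avR_mul_left, avR_mul_left, e1, e2]
        linarith
      have e5 : 0 ≤ avR (fun Z : ZZ L d q => ‖hh s f p.1 Z‖ * ‖hh s f p.2 Z‖) :=
        avR_nonneg (fun Z => by positivity)
      rw [sq]
      exact mul_le_mul (mul_le_mul (hc _ hp.1.1) (hc _ hp.1.2) (norm_nonneg _) hg) e3 e5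
        (by positivity)
    refine (Finset.sum_le_sum t1).trans ?_
    rw [Finset.sum_const, nsmul_eq_mul]
    have t2 : #((Λ ×ˢ Λ).filter (fun p => Dep2 p.2 p.1)) ≤ #Λ * L1 := by
      have : (Λ ×ˢ Λ).filter (fun p => Dep2 p.2 p.1) =
          Λ.biUnion (fun m => (Λ.filter (fun k => Dep2 k m)).image (fun k => (m, k))) := by
        ext ⟨a, b⟩
        simp only [mem_filter, mem_product, mem_biUnion, mem_image, Prod.mk.injEq]
        constructor
        · rintro ⟨⟨h1, h2⟩, h3⟩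
          exact ⟨a, h1, b, ⟨h2, h3⟩, rfl, rfl⟩
        · rintro ⟨m, hm, k, ⟨hk, hk2⟩, rfl, rfl⟩
          exact ⟨⟨hm, hk⟩, hk2⟩
      rw [this]
      refine Finset.card_biUnion_le.trans ?_
      calc _ ≤ ∑ m ∈ Λ, L1 := Finset.sum_le_sum (fun m hm =>
            Finset.card_image_le.trans (H1 m hm))
        _ = #Λ * L1 := by rw [Finset.sum_const, smul_eq_mul]
    have t3 : (#((Λ ×ˢ Λ).filter (fun p => Dep2 p.2 p.1)) : ℝ) ≤ #Λ * L1 := by exact_mod_cast t2
    calc _ ≤ ((#Λ : ℝ) * L1) * (g ^ 2 * S2) := mul_le_mul_of_nonneg_right t3 (by positivity)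
      _ = _ := by ring
  · -- generic part
    have t1 : ∀ n ∈ Diff Λ, avR (fun Z : ZZ L d q => ‖Tn s f Λ c n Z‖) ≤
        g ^ 2 * √(#Λ * L2 * S2 ^ 2 + (#Λ) ^ 2 * S4) := by
      intro n _
      refine (avR_le_sqrt _).trans ?_
      have hg2 : g ^ 2 = √((g ^ 2) ^ 2) := (Real.sqrt_sq (by positivity)).symm
      rw [hg2, ← Real.sqrt_mul (by positivity)]
      apply Real.sqrt_le_sqrt
      -- expand
      have e1 : ((avR (fun Z : ZZ L d q => ‖Tn s f Λ c n Z‖ ^ 2) : ℝ) : ℂ) =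
          ∑ m ∈ Pn Λ n, ∑ k ∈ Pn Λ n, (c (m + n) * conj (c m) * (conj (c (k + n)) * c k)) *
            av (fun Z : ZZ L d q => hh s f (m + n) Z * conj (hh s f m Z) *
              conj (hh s f (k + n) Z) * hh s f k Z) := by
        rw [ofReal_avR]
        have e2 : (fun Z : ZZ L d q => ((‖Tn s f Λ c n Z‖ ^ 2 : ℝ) : ℂ)) =
            fun Z => ∑ m ∈ Pn Λ n, ∑ k ∈ Pn Λ n,
              (c (m + n) * conj (c m) * (conj (c (k + n)) * c k)) *
              (hh s f (m + n) Z * conj (hh s f m Z) * conj (hh s f (k + n) Z) * hh s f k Z) := by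
          ext Z
          rw [norm_sq_eq_mul_conj]
          unfold Tn
          rw [map_sum, Finset.sum_mul_sum]
          apply Finset.sum_congr rfl
          intro m _
          apply Finset.sum_congr rfl
          intro k _
          simp only [map_mul, Complex.conj_conj]
          ring
        rw [e2, av_sum]
        apply Finset.sum_congr rfl
        intro m _
        rw [av_sum]
        apply Finset.sum_congr rfl
        intro k _
        rw [av_mul_left]
      have e3 : avR (fun Z : ZZ L d q => ‖Tn s f Λ c n Z‖ ^ 2) =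
          ‖((avR (fun Z : ZZ L d q => ‖Tn s f Λ c n Z‖ ^ 2) : ℝ) : ℂ)‖ := by
        rw [Complex.norm_real, Real.norm_eq_abs, abs_of_nonneg]
        exact avR_nonneg (fun Z => by positivity)
      rw [e3, e1]
      have hmem : ∀ m ∈ Pn Λ n, m ∈ Λ ∧ m + n ∈ Λ ∧ ¬ Dep2 m (m + n) := by
        intro m hm
        unfold Pn at hm
        rw [mem_filter] at hm
        exact hm
      have e4 : ∀ m ∈ Pn Λ n, ∀ k ∈ Pn Λ n,
          ‖(c (m + n) * conj (c m) * (conj (c (k + n)) * c k)) *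
            av (fun Z : ZZ L d q => hh s f (m + n) Z * conj (hh s f m Z) *
              conj (hh s f (k + n) Z) * hh s f k Z)‖ ≤
          (g ^ 2) ^ 2 * ((if Dep3 m n k then S2 ^ 2 else 0) + S4) := by
        intro m hm k hk
        obtain ⟨m1, m2, m3⟩ := hmem m hm
        obtain ⟨k1, k2, k3⟩ := hmem k hk
        rw [norm_mul]
        have e5 : ‖c (m + n) * conj (c m) * (conj (c (k + n)) * c k)‖ ≤ (g ^ 2) ^ 2 := by
          rw [norm_mul, norm_mul, norm_mul, RCLike.norm_conj, RCLike.norm_conj]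
          calc _ ≤ g * g * (g * g) := by
                gcongr
                · exact hc _ m2
                · exact hc _ m1
                · exact hc _ k2
                · exact hc _ k1
            _ = _ := by ring
        apply mul_le_mul e5 _ (norm_nonneg _) (by positivity)
        by_cases hdep : Dep3 m n k
        · rw [if_pos hdep]
          have := norm_av_four_le hq hD s f m n k A B hA (hB _ m2) (hB _ m1) (hB _ k2) (hB _ k1)
            hAB m3 k3
          linarith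
        · rw [if_neg hdep, zero_add]
          rw [moment_four hq hD s f m n k A B hA (hB _ m2) (hB _ m1) (hB _ k2) (hB _ k1) hAB hdep]
          rw [Complex.norm_real, Real.norm_eq_abs, abs_of_nonneg hS4n]
      have e6 : ∀ m ∈ Pn Λ n, ∑ k ∈ Pn Λ n, (if Dep3 m n k then S2 ^ 2 else 0) ≤ L2 * S2 ^ 2 := by
        intro m hm
        obtain ⟨m1, m2, m3⟩ := hmem m hm
        rw [← Finset.sum_filter, Finset.sum_const, nsmul_eq_mul]
        have e7 : #((Pn Λ n).filter (fun k => Dep3 m n k)) ≤ L2 := by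
          refine (Finset.card_le_card ?_).trans (H2 m m1 n m2 m3)
          intro k hk
          rw [mem_filter] at hk ⊢
          exact ⟨(hmem k hk.1).1, hk.2⟩
        have e8 : (#((Pn Λ n).filter (fun k => Dep3 m n k)) : ℝ) ≤ L2 := by exact_mod_cast e7
        exact mul_le_mul_of_nonneg_right e8 (by positivity)
      have hcard : (#(Pn Λ n) : ℝ) ≤ #Λ := by
        have : #(Pn Λ n) ≤ #Λ := Finset.card_le_card (Finset.filter_subset _ _)
        exact_mod_cast this
      calc _ ≤ ∑ m ∈ Pn Λ n, ∑ k ∈ Pn Λ n,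
            (g ^ 2) ^ 2 * ((if Dep3 m n k then S2 ^ 2 else 0) + S4) := by
            refine (norm_sum_le _ _).trans (Finset.sum_le_sum (fun m hm => ?_))
            exact (norm_sum_le _ _).trans (Finset.sum_le_sum (fun k hk => e4 m hm k hk))
        _ ≤ ∑ m ∈ Pn Λ n, (g ^ 2) ^ 2 * (L2 * S2 ^ 2 + #Λ * S4) := by
            apply Finset.sum_le_sum
            intro m hm
            rw [← Finset.mul_sum]
            apply mul_le_mul_of_nonneg_left _ (by positivity)
            rw [Finset.sum_add_distrib, Finset.sum_const, nsmul_eq_mul]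
            exact add_le_add (e6 m hm) (mul_le_mul_of_nonneg_right hcard hS4n)
        _ ≤ _ := by
            rw [Finset.sum_const, nsmul_eq_mul]
            have : 0 ≤ (g ^ 2) ^ 2 * (L2 * S2 ^ 2 + #Λ * S4) :=
              mul_nonneg (sq_nonneg _) (add_nonneg (mul_nonneg (Nat.cast_nonneg _) (sq_nonneg _))
                (mul_nonneg (Nat.cast_nonneg _) hS4n))
            calc _ ≤ (#Λ : ℝ) * ((g ^ 2) ^ 2 * (L2 * S2 ^ 2 + #Λ * S4)) :=
                  mul_le_mul_of_nonneg_right hcard this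
              _ = _ := by ring
    refine (Finset.sum_le_sum t1).trans ?_
    rw [Finset.sum_const, nsmul_eq_mul]
    have t2 : (#(Diff Λ) : ℝ) ≤ M := by exact_mod_cast H3
    calc _ ≤ (M:ℝ) * (g ^ 2 * √(#Λ * L2 * S2 ^ 2 + (#Λ) ^ 2 * S4)) :=
          mul_le_mul_of_nonneg_right t2 (by positivity)
      _ = _ := by ring

end

end Pool.Agent.Helper18.BF
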