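import Pool.Agent.Helper18.BFNest

open scoped Real
open Finset

namespace Pool.Agent.Helper18.BF

/-- Fejer-type kernel. -/
noncomputable def Fej (H : ℕ) (x : ℝ) : ℝ := ‖∑ i ∈ range H, e (i * x)‖ ^ 2 / (H:ℝ) ^ 2

lemma Fej_nonneg (H : ℕ) (x : ℝ) : 0 ≤ Fej H x := by
  unfold Fej; positivity

lemma Fej_add_int (H : ℕ) (x : ℝ) (n : ℤ) : Fej H (x + n) = Fej H x := by
  unfold Fej
  congr 3
  apply Finset.sum_congr rfl
  intro i _
  rw [mul_add]
  have : ((i:ℝ) * (n:ℝ)) = (((i:ℤ) * n : ℤ) : ℝ) := by push_cast; ring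
  rw [this, e_add_int]

/-- Multiplicity function of the kernel. -/
noncomputable def psi (H : ℕ) (n : ℤ) : ℝ :=
  (#{p ∈ range H ×ˢ range H | (p.1 : ℤ) - p.2 = n} : ℝ) / (H:ℝ) ^ 2

lemma psi_nonneg (H : ℕ) (n : ℤ) : 0 ≤ psi H n := by unfold psi; positivity

lemma psi_le {H : ℕ} (hH : 0 < H) (n : ℤ) : psi H n ≤ 1 / H := by
  unfold psi
  have h1 : #{p ∈ range H ×ˢ range H | (p.1 : ℤ) - p.2 = n} ≤ H := by
    calc _ ≤ #(range H) := by
          apply Finset.card_le_card_of_injOn (fun p => p.1)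
          · intro p hp
            simp only [coe_filter, mem_product, mem_range, Set.mem_ofPred_eq] at hp
            simpa using hp.1.1
          · intro p hp q hq hpq
            simp only [coe_filter, mem_product, mem_range, Set.mem_ofPred_eq] at hp hq
            simp only at hpq
            ext
            · exact hpq
            · have := hp.2
              have := hq.2
              omega
      _ = H := card_range H
  have hH' : (0:ℝ) < H := by exact_mod_cast hH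
  rw [div_le_div_iff₀ (by positivity) hH']
  have h2 : (#{p ∈ range H ×ˢ range H | (p.1 : ℤ) - p.2 = n} : ℝ) ≤ H := by exact_mod_cast h1
  nlinarith

lemma psi_eq_zero {H : ℕ} {n : ℤ} (hn : (H:ℤ) ≤ |n|) : psi H n = 0 := by
  unfold psi
  rw [Finset.filter_eq_empty_iff.2]
  · simp
  · rintro ⟨i, j⟩ hp
    simp only [mem_product, mem_range] at hp
    intro h
    simp only at h
    have h1 : |n| < H := by
      rw [abs_lt]
      omega
    omega

lemma hasSum_Fej (H : ℕ) (x : ℝ) :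
    HasSum (fun n : ℤ => (psi H n : ℂ) * e (n * x)) ((Fej H x : ℝ) : ℂ) := by
  have h1 : ((Fej H x : ℝ) : ℂ) = ∑ p ∈ range H ×ˢ range H,
      (1 / (H:ℂ) ^ 2) * e (((p.1 : ℤ) - p.2 : ℤ) * x) := by
    unfold Fej
    push_cast
    rw [← Complex.mul_conj', map_sum, Finset.sum_mul_sum, ← Finset.sum_product', Finset.sum_div]
    apply Finset.sum_congr rfl
    intro p _
    rw [← e_sub, ← sub_mul]
    push_cast
    ring
  have h2 : (fun n : ℤ => (psi H n : ℂ) * e (n * x)) = fun n : ℤ =>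
      ∑ p ∈ range H ×ˢ range H, if (p.1 : ℤ) - p.2 = n then
        (1 / (H:ℂ) ^ 2) * e (((p.1 : ℤ) - p.2 : ℤ) * x) else 0 := by
    ext n
    rw [← Finset.sum_filter]
    have : ∀ p ∈ ({p ∈ range H ×ˢ range H | (p.1 : ℤ) - p.2 = n} : Finset (ℕ × ℕ)),
        (1 / (H:ℂ) ^ 2) * e (((p.1 : ℤ) - p.2 : ℤ) * x) = (1 / (H:ℂ) ^ 2) * e (n * x) := by
      intro p hp
      rw [(mem_filter.1 hp).2]
    rw [Finset.sum_congr rfl this, Finset.sum_const, nsmul_eq_mul]
    unfold psi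
    push_cast
    ring
  rw [h1, h2]
  apply hasSum_sum
  intro p _
  have h3 := hasSum_ite_eq ((p.1 : ℤ) - p.2)
    ((1 / (H:ℂ) ^ 2) * e (((p.1 : ℤ) - p.2 : ℤ) * x))
  convert h3 using 1
  ext n
  by_cases h : (p.1 : ℤ) - p.2 = n
  · rw [if_pos h, if_pos h.symm]
  · rw [if_neg h, if_neg (fun h' => h h'.symm)]

lemma half_le_Fej {H : ℕ} (hH : 0 < H) {w : ℝ} (hw : ((2 * H : ℕ) : ℝ) * Int.fract w < 1) :
    1 / 2 ≤ Fej H (w - 1 / (2 * ((2 * H : ℕ) : ℝ))) := by
  have hH' : (0:ℝ) < H := by exact_mod_cast hH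
  set δ : ℝ := Int.fract w - 1 / (2 * ((2 * H : ℕ) : ℝ)) with hδ
  have h0 : w - 1 / (2 * ((2 * H : ℕ) : ℝ)) = δ + (⌊w⌋ : ℤ) := by
    rw [hδ]
    have := Int.floor_add_fract w
    linarith
  rw [h0, Fej_add_int]
  have hδ1 : |δ| ≤ 1 / (4 * H) := by
    push_cast at hw hδ ⊢
    rw [abs_le]
    have hf := Int.fract_nonneg w
    have h2 : Int.fract w < 1 / (2 * H) := by
      rw [lt_div_iff₀ (by positivity)]
      linarith
    have h3 : (1:ℝ) / (2 * (2 * H)) = 1 / (4 * H) := by ring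
    have h4 : (1:ℝ) / (2 * H) = 1 / (4 * H) + 1 / (4 * H) := by field_simp; ring
    constructor
    · rw [hδ, h3]; linarith
    · rw [hδ, h3]; linarith
  have h1 : (H:ℝ) / √2 ≤ ‖∑ i ∈ range H, e (i * δ)‖ := by
    have h2 : ‖∑ i ∈ range H, e (i * δ)‖ =
        ‖e (-((H - 1) / 2 * δ)) * ∑ i ∈ range H, e (i * δ)‖ := by
      rw [norm_mul, norm_e, one_mul]
    rw [h2, Finset.mul_sum]
    refine le_trans ?_ (Complex.re_le_norm _)
    rw [Complex.re_sum]
    have h3 : ∀ i ∈ range H, 1 / √2 ≤ (e (-((H - 1) / 2 * δ)) * e (i * δ)).re := by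
      intro i hi
      rw [mem_range] at hi
      rw [← e_add]
      unfold e
      rw [show (2 * π * Complex.I * ((-((H - 1) / 2 * δ) + i * δ : ℝ) : ℂ) : ℂ) =
        ((2 * π * (-((H - 1) / 2 * δ) + i * δ) : ℝ) : ℂ) * Complex.I by push_cast; ring]
      rw [Complex.exp_ofReal_mul_I_re]
      have h4 : |2 * π * (-(((H:ℝ) - 1) / 2 * δ) + i * δ)| ≤ π / 4 := by
        have h5 : -(((H:ℝ) - 1) / 2 * δ) + i * δ = (i - (H - 1) / 2) * δ := by ring
        rw [h5, abs_mul (2 * π) _, abs_mul _ δ, abs_of_pos (by positivity : (0:ℝ) < 2 * π)]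
        have hi' : (i:ℝ) + 1 ≤ H := by exact_mod_cast hi
        have hi0 : (0:ℝ) ≤ i := Nat.cast_nonneg i
        have h6 : |(i:ℝ) - (H - 1) / 2| ≤ H / 2 := by
          rw [abs_le]
          constructor <;> linarith
        calc 2 * π * (|(i:ℝ) - (H - 1) / 2| * |δ|) ≤ 2 * π * (H / 2 * (1 / (4 * H))) := by
              gcongr
          _ = π / 4 := by field_simp
      have h7 : Real.cos (π / 4) ≤ Real.cos (2 * π * (-(((H:ℝ) - 1) / 2 * δ) + i * δ)) := by
        rw [← Real.cos_abs (2 * π * (-(((H:ℝ) - 1) / 2 * δ) + i * δ))]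
        apply Real.cos_le_cos_of_nonneg_of_le_pi (abs_nonneg _) _ h4
        linarith [Real.pi_pos]
      rw [Real.cos_pi_div_four] at h7
      refine le_trans (le_of_eq ?_) h7
      rw [div_eq_div_iff (by positivity) (by norm_num)]
      rw [one_mul]
      have : √2 * √2 = (2:ℝ) := Real.mul_self_sqrt (by norm_num)
      linarith
    calc (H:ℝ) / √2 = ∑ i ∈ range H, 1 / √2 := by
          rw [Finset.sum_const, card_range, nsmul_eq_mul, mul_one_div]
      _ ≤ _ := Finset.sum_le_sum h3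
  unfold Fej
  rw [div_le_div_iff₀ (by norm_num) (by positivity)]
  have h8 : ((H:ℝ) / √2) ^ 2 ≤ ‖∑ i ∈ range H, e (i * δ)‖ ^ 2 := by gcongr
  rw [div_pow, Real.sq_sqrt (by norm_num)] at h8
  linarith

/-- The skew linear map. -/
def Lsk : (D : ℕ) → (ℕ → ℕ) → (Fin (D + 1) → Bool) → (Fin (D + 1) → ℤ) → (Fin (D + 1) → ℤ)
  | 0, _, _, m => m
  | D + 1, K, ε, m => Fin.cons (m 0 + (if Fin.tail ε 0 then (K 0 : ℤ) * Fin.tail m 0 else 0))
      (Lsk D (fun i => K (i + 1)) (Fin.tail ε) (Fin.tail m))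

/-- Branch majorants of the undecided indicator (`D + 1` windows). -/
noncomputable def GG : (D : ℕ) → (ℕ → ℕ) → (Fin (D + 1) → Bool) → ℝ → (ℕ → ℝ) → ℝ
  | 0, K, ε, v, u => 2 * Fej (K 0 / 2) (u 0 - (if ε 0 then v else 0) - 1 / (2 * (K 0 : ℝ)))
  | D + 1, K, ε, v, u => 2 * Fej (K 0 / 2) (u 0 - (if ε 0 then v else 0) - 1 / (2 * (K 0 : ℝ))) *
      GG D (fun i => K (i + 1)) (Fin.tail ε) (K 0 * (u 0 - (if ε 0 then v else 0)))
        (fun i => u (i + 1))

/-- Fourier coefficients of the branch majorants. -/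
noncomputable def bb : (D : ℕ) → (ℕ → ℕ) → (Fin (D + 1) → Bool) → (Fin (D + 1) → ℤ) → ℂ
  | 0, K, _, m => 2 * psi (K 0 / 2) (m 0) * e (-(m 0 / (2 * (K 0 : ℝ))))
  | D + 1, K, ε, m =>
      (2 * psi (K 0 / 2) (Lsk (D + 1) K ε m 0) *
        e (-((Lsk (D + 1) K ε m 0 : ℤ) / (2 * (K 0 : ℝ))))) *
      bb D (fun i => K (i + 1)) (Fin.tail ε) (Fin.tail m)

lemma GG_nonneg (D : ℕ) : ∀ (K : ℕ → ℕ) (ε : Fin (D + 1) → Bool) (v : ℝ) (u : ℕ → ℝ),
    0 ≤ GG D K ε v u := by
  induction D with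
  | zero =>
    intro K ε v u
    simp only [GG]
    have h1 := Fej_nonneg (K 0 / 2) (u 0 - (if ε 0 then v else 0) - 1 / (2 * (K 0 : ℝ)))
    positivity
  | succ D ih =>
    intro K ε v u
    simp only [GG]
    have h1 := Fej_nonneg (K 0 / 2) (u 0 - (if ε 0 then v else 0) - 1 / (2 * (K 0 : ℝ)))
    have h2 := ih (fun i => K (i + 1)) (Fin.tail ε) (K 0 * (u 0 - (if ε 0 then v else 0)))
        (fun i => u (i + 1))
    positivity

lemma GG_add_int (D : ℕ) : ∀ (K : ℕ → ℕ) (ε : Fin (D + 1) → Bool) (v : ℝ) (n : ℤ) (u : ℕ → ℝ),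
    GG D K ε (v + n) u = GG D K ε v u := by
  induction D with
  | zero =>
    intro K ε v n u
    simp only [GG]
    by_cases h : ε 0
    · simp only [h, if_true]
      have : u 0 - (v + n) - 1 / (2 * (K 0 : ℝ)) = u 0 - v - 1 / (2 * (K 0 : ℝ)) + ((-n : ℤ) : ℝ) := by
        push_cast; ring
      rw [this, Fej_add_int]
    · simp [h]
  | succ D ih =>
    intro K ε v n u
    simp only [GG]
    by_cases h : ε 0
    · simp only [h, if_true]
      have h1 : u 0 - (v + n) - 1 / (2 * (K 0 : ℝ)) = u 0 - v - 1 / (2 * (K 0 : ℝ)) + ((-n : ℤ) : ℝ) := by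
        push_cast; ring
      have h2 : K 0 * (u 0 - (v + n)) = K 0 * (u 0 - v) + (((K 0 : ℤ) * (-n) : ℤ) : ℝ) := by
        push_cast; ring
      rw [h1, Fej_add_int, h2, ih]
    · simp [h]

lemma Lsk_zero_succ (D : ℕ) (K : ℕ → ℕ) (ε : Fin (D + 2) → Bool) (m : Fin (D + 2) → ℤ) :
    Lsk (D + 1) K ε m 0 = m 0 + (if Fin.tail ε 0 then (K 0 : ℤ) * Fin.tail m 0 else 0) := rfl

lemma Lsk_tail (D : ℕ) (K : ℕ → ℕ) (ε : Fin (D + 2) → Bool) (m : Fin (D + 2) → ℤ) :
    Fin.tail (Lsk (D + 1) K ε m) = Lsk D (fun i => K (i + 1)) (Fin.tail ε) (Fin.tail m) := by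
  simp only [Lsk]
  rw [Fin.tail_cons]

lemma HasSum.congr_aux {ι : Type*} {f g : ι → ℂ} {A : ℂ} (h : f = g) (hg : HasSum g A) :
    HasSum f A := by
  rw [h]; exact hg

lemma hasSum_mul_prod {ι κ : Type*} {f : ι → ℂ} {g : κ → ℂ} {A B : ℂ} (hf : HasSum f A)
    (hg : HasSum g B) (hs : Summable fun x => ‖g x‖) :
    HasSum (fun x : ι × κ => f x.1 * g x.2) (B * A) := by
  rw [mul_comm]
  exact hf.mul hg (summable_mul_of_summable_norm hf.summable.norm hs)

lemma hasSum_shear {ι : Type*} {f : ι → ℂ} {g : ℤ → ℂ} {A B : ℂ} (hf : HasSum f A)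
    (hg : HasSum g B) (hs : Summable fun x => ‖g x‖) (c : ι → ℤ) :
    HasSum (fun x : ι × ℤ => f x.1 * g (x.2 + c x.1)) (B * A) :=
  (Equiv.prodShear (Equiv.refl ι) (fun m' => Equiv.addRight (c m'))).hasSum_iff.2
    (hasSum_mul_prod hf hg hs)

/-- The Fourier expansion of the branch majorants. -/
theorem hasSum_GG (D : ℕ) : ∀ (K : ℕ → ℕ) (ε : Fin (D + 1) → Bool) (v : ℝ) (u : ℕ → ℝ),
    HasSum (fun m : Fin (D + 1) → ℤ => bb D K ε m * e (-(if ε 0 then m 0 * v else 0)) *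
      e (dotu m u)) ((GG D K ε v u : ℝ) : ℂ) := by
  induction D with
  | zero =>
    intro K ε v u
    set w : ℝ := u 0 - (if ε 0 then v else 0) with hw
    have h1 := (hasSum_Fej (K 0 / 2) (w - 1 / (2 * (K 0 : ℝ)))).mul_left 2
    have h2 := ((Equiv.funUnique (Fin 1) ℤ).hasSum_iff (f := fun n : ℤ =>
      2 * ((psi (K 0 / 2) n : ℂ) * e (n * (w - 1 / (2 * (K 0 : ℝ))))))).2 h1
    have h3 : ((GG 0 K ε v u : ℝ) : ℂ) = 2 * ((Fej (K 0 / 2) (w - 1 / (2 * (K 0 : ℝ))) : ℝ) : ℂ) := by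
      simp only [GG]
      push_cast
      rfl
    rw [h3]
    have h4 : (fun m : Fin 1 → ℤ => bb 0 K ε m * e (-(if ε 0 then m 0 * v else 0)) *
        e (dotu m u)) = (fun n : ℤ =>
        2 * ((psi (K 0 / 2) n : ℂ) * e (n * (w - 1 / (2 * (K 0 : ℝ)))))) ∘
          (Equiv.funUnique (Fin 1) ℤ) := by
      ext m
      have h6 : (default : Fin 1) = 0 := rfl
      simp only [Function.comp, Equiv.funUnique_apply, bb, dotu, h6, Finset.univ_unique,
        Finset.sum_singleton]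
      have h5 : (m 0 : ℝ) * (w - 1 / (2 * (K 0 : ℝ))) = -(m 0 / (2 * (K 0 : ℝ))) +
          (-(if ε 0 then m 0 * v else 0)) + (m 0 : ℝ) * u ((0 : Fin 1) : ℕ) := by
        rw [hw]
        split_ifs <;> simp <;> ring
      rw [h5, e_add, e_add]
      ring
    show HasSum (fun m : Fin 1 → ℤ => bb 0 K ε m * e (-(if ε 0 then m 0 * v else 0)) *
        e (dotu m u)) _
    rw [h4]
    exact h2
  | succ D ih =>
    intro K ε v u
    set w : ℝ := u 0 - (if ε 0 then v else 0) with hw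
    have h1 := (hasSum_Fej (K 0 / 2) (w - 1 / (2 * (K 0 : ℝ)))).mul_left 2
    have h2 := ih (fun i => K (i + 1)) (Fin.tail ε) (K 0 * w) (fun i => u (i + 1))
    have h3 : ((GG (D + 1) K ε v u : ℝ) : ℂ) =
        2 * ((Fej (K 0 / 2) (w - 1 / (2 * (K 0 : ℝ))) : ℝ) : ℂ) *
        ((GG D (fun i => K (i + 1)) (Fin.tail ε) (K 0 * w) (fun i => u (i + 1)) : ℝ) : ℂ) := by
      simp only [GG]
      push_cast
      rfl
    rw [h3]
    have hs1 : Summable (fun n : ℤ => ‖(2:ℂ) * ((psi (K 0 / 2) n : ℂ) *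
        e (n * (w - 1 / (2 * (K 0 : ℝ)))))‖) := by
      apply summable_of_ne_finset_zero (s := Finset.Icc (-((K 0 / 2 : ℕ) : ℤ)) ((K 0 / 2 : ℕ) : ℤ))
      intro n hn
      rw [psi_eq_zero]
      · simp
      · by_contra hcon
        push Not at hcon
        exact hn (Finset.mem_Icc.2 (abs_le.1 hcon.le))
    have hs2 := h2.summable.norm
    have h5 := hasSum_shear h2 h1 hs1
      (fun m' => if Fin.tail ε 0 then (K 0 : ℤ) * m' 0 else 0)
    rw [← ((Equiv.prodComm _ _).trans (Fin.consEquiv (fun _ : Fin (D + 2) => ℤ))).hasSum_iff]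
    refine HasSum.congr_aux ?_ h5
    ext ⟨m', x⟩
    have h7 : ((Equiv.prodComm (Fin (D + 1) → ℤ) ℤ).trans
        (Fin.consEquiv (fun _ : Fin (D + 2) => ℤ))) (m', x) = Fin.cons x m' := rfl
    rw [Function.comp_apply, h7]
    have h8 : Lsk (D + 1) K ε (Fin.cons x m') 0 =
        x + (if Fin.tail ε 0 then (K 0 : ℤ) * m' 0 else 0) := by
      rw [Lsk_zero_succ, Fin.cons_zero, Fin.tail_cons]
    simp only [bb]
    rw [h8, Fin.tail_cons, dotu_cons, Fin.cons_zero]
    set z := x + (if Fin.tail ε 0 then (K 0 : ℤ) * m' 0 else 0) with hz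
    have h9 : e (-((z : ℤ) / (2 * (K 0 : ℝ)))) * e (-(if ε 0 then (x:ℝ) * v else 0)) *
        e (x * u 0 + dotu m' (fun i => u (i + 1))) =
        e (-(if Fin.tail ε 0 then (m' 0 : ℝ) * (K 0 * w) else 0)) *
        e (dotu m' (fun i => u (i + 1))) * e (z * (w - 1 / (2 * (K 0 : ℝ)))) := by
      rw [← e_add, ← e_add, ← e_add, ← e_add]
      congr 1
      rw [hz, hw]
      by_cases h10 : Fin.tail ε 0 <;> by_cases h11 : ε 0 <;> simp [h10, h11] <;> ring
    linear_combination (2 * (psi (K 0 / 2) z : ℂ) *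
      bb D (fun i => K (i + 1)) (Fin.tail ε) m') * h9

lemma sum_cons_bool {D : ℕ} (f : (Fin (D + 1) → Bool) → ℝ) :
    ∑ ε, f ε = ∑ ε' : Fin D → Bool, f (Fin.cons false ε') + ∑ ε' : Fin D → Bool,
      f (Fin.cons true ε') := by
  rw [← (Fin.consEquiv (fun _ : Fin (D + 1) => Bool)).sum_comp f, Fintype.sum_prod_type,
    Fintype.sum_bool, add_comm]
  rfl

lemma ind_le_Fej {K : ℕ} (hK : 0 < K) (hev : 2 * (K / 2) = K) (w : ℝ) :
    (if K * Int.fract w < 1 then (1:ℝ) else 0) ≤ 2 * Fej (K / 2) (w - 1 / (2 * (K : ℝ))) := by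
  split_ifs with h
  · have h2 : 0 < K / 2 := by omega
    have := half_le_Fej h2 (w := w) (by rw [hev]; exact h)
    rw [hev] at this
    linarith
  · have := Fej_nonneg (K / 2) (w - 1 / (2 * (K : ℝ)))
    linarith

theorem NN_le (D : ℕ) : ∀ (K : ℕ → ℕ), (∀ i, 0 < K i) → (∀ i, 2 * (K i / 2) = K i) →
    ∀ (v : ℝ) (u : ℕ → ℝ), NN (D + 1) K v u ≤ ∑ ε : Fin (D + 1) → Bool, GG D K ε v u := by
  induction D with
  | zero =>
    intro K hK hev v u
    rw [sum_cons_bool]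
    simp only [NN, GG, Fin.cons_zero, Finset.univ_unique, Finset.sum_singleton]
    have h1 := ind_le_Fej (hK 0) (hev 0) (u 0)
    have h2 := ind_le_Fej (hK 0) (hev 0) (u 0 - v)
    simp only [Bool.false_eq_true, if_false, if_true, sub_zero]
    exact add_le_add h1 h2
  | succ D ih =>
    intro K hK hev v u
    rw [sum_cons_bool]
    have key : ∀ w : ℝ, (if K 0 * Int.fract w < 1 then
        NN (D + 1) (fun i => K (i + 1)) (mu (K 0) w) (fun i => u (i + 1)) else 0) ≤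
        ∑ ε' : Fin (D + 1) → Bool, 2 * Fej (K 0 / 2) (w - 1 / (2 * (K 0 : ℝ))) *
          GG D (fun i => K (i + 1)) ε' (K 0 * w) (fun i => u (i + 1)) := by
      intro w
      rw [← Finset.mul_sum]
      have hS : 0 ≤ ∑ ε' : Fin (D + 1) → Bool,
          GG D (fun i => K (i + 1)) ε' (K 0 * w) (fun i => u (i + 1)) :=
        Finset.sum_nonneg (fun ε' _ => GG_nonneg D _ _ _ _)
      have h1 := ind_le_Fej (hK 0) (hev 0) w
      split_ifs with h
      · rw [if_pos h] at h1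
        have h2 := ih (fun i => K (i + 1)) (fun i => hK _) (fun i => hev _) (mu (K 0) w)
          (fun i => u (i + 1))
        have h3 : mu (K 0) w = K 0 * w + ((-((K 0 : ℤ) * ⌊w⌋) : ℤ) : ℝ) := by
          unfold mu
          rw [min_eq_right h.le]
          push_cast
          have := Int.floor_add_fract w
          have h4 : Int.fract w = w - ⌊w⌋ := rfl
          rw [h4]
          ring
        have h5 : ∀ ε' : Fin (D + 1) → Bool,
            GG D (fun i => K (i + 1)) ε' (mu (K 0) w) (fun i => u (i + 1)) =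
            GG D (fun i => K (i + 1)) ε' (K 0 * w) (fun i => u (i + 1)) := by
          intro ε'
          rw [h3, GG_add_int]
        simp_rw [h5] at h2
        calc _ ≤ _ := h2
          _ ≤ _ := le_mul_of_one_le_left hS h1
      · rw [if_neg h] at h1
        exact mul_nonneg h1 hS
    have h1 := key (u 0)
    have h2 := key (u 0 - v)
    rw [NN]
    refine (add_le_add h1 h2).trans (le_of_eq ?_)
    refine congrArg₂ (· + ·) ?_ ?_
    · apply Finset.sum_congr rfl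
      intro ε' _
      simp only [GG, Fin.cons_zero, Bool.false_eq_true, if_false, sub_zero]
      rw [Fin.tail_cons]
    · apply Finset.sum_congr rfl
      intro ε' _
      simp only [GG, Fin.cons_zero, if_true]
      rw [Fin.tail_cons]

end Pool.Agent.Helper18.BF
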