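import Pool.Agent.Helper18.BFBox
import Pool.Agent.Helper18.BFMajor

open scoped Real
open Finset

namespace Pool.Agent.Helper18.BF

section

variable {D : ℕ}

lemma card_le_prod (T : (Fin D → ℤ) →ₗ[ℤ] (Fin D → ℤ)) (hT : Function.Injective T)
    (Λ : Finset (Fin D → ℤ)) (X : Fin D → ℕ) (hΛ : ∀ m ∈ Λ, ∀ l, |T m l| ≤ X l) :
    #Λ ≤ ∏ l, (2 * X l + 1) := by
  have h1 : #Λ ≤ #(Fintype.piFinset (fun l => Finset.Icc (-(X l : ℤ)) (X l))) := by
    apply Finset.card_le_card_of_injOn T
    · intro m hm
      rw [mem_coe] at hm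
      rw [mem_coe, Fintype.mem_piFinset]
      intro l
      rw [Finset.mem_Icc]
      exact abs_le.1 (hΛ m hm l)
    · intro m _ m' _ h
      exact hT h
  refine h1.trans (le_of_eq ?_)
  rw [Fintype.card_piFinset]
  apply Finset.prod_congr rfl
  intro l _
  rw [Int.card_Icc]
  omega

lemma card_Diff_le (T : (Fin D → ℤ) →ₗ[ℤ] (Fin D → ℤ)) (hT : Function.Injective T)
    (Λ : Finset (Fin D → ℤ)) (X : Fin D → ℕ) (hΛ : ∀ m ∈ Λ, ∀ l, |T m l| ≤ X l) :
    #(Diff Λ) ≤ ∏ l, (4 * X l + 1) := by
  have h1 := card_le_prod T hT (Diff Λ) (fun l => 2 * X l) (by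
    intro n hn l
    unfold Diff at hn
    rw [mem_image] at hn
    obtain ⟨p, hp, rfl⟩ := hn
    rw [mem_product] at hp
    have h1 := hΛ _ hp.1 l
    have h2 := hΛ _ hp.2 l
    rw [map_sub]
    simp only [Pi.sub_apply]
    push_cast
    rw [abs_le] at h1 h2 ⊢
    constructor <;> linarith)
  refine h1.trans (le_of_eq ?_)
  apply Finset.prod_congr rfl
  intro l _
  ring

lemma lin_comb_zero (T : (Fin D → ℤ) →ₗ[ℤ] (Fin D → ℤ)) (hT : Function.Injective T)
    (m n : Fin D → ℤ) (x y : ℤ) (h : ∀ l, x * T m l + y * T n l = 0) :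
    ∀ l, x * m l + y * n l = 0 := by
  have h1 : T (x • m + y • n) = T 0 := by
    rw [map_add, map_smul, map_smul, map_zero]
    ext l
    simp only [Pi.add_apply, Pi.smul_apply, smul_eq_mul, Pi.zero_apply]
    exact h l
  have h2 := hT h1
  intro l
  have := congrFun h2 l
  simpa using this

lemma T_lin (T : (Fin D → ℤ) →ₗ[ℤ] (Fin D → ℤ)) (m n : Fin D → ℤ) (x y : ℤ)
    (h : ∀ l, x * m l + y * n l = 0) : ∀ l, x * T m l + y * T n l = 0 := by
  have h0 : x • m + y • n = 0 := by
    ext l
    simpa using h l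
  have h1 : T (x • m + y • n) = 0 := by rw [h0, map_zero]
  rw [map_add, map_smul, map_smul] at h1
  intro l
  have := congrFun h1 l
  simpa using this

open Classical in
lemma card_dep2_le (T : (Fin D → ℤ) →ₗ[ℤ] (Fin D → ℤ)) (hT : Function.Injective T)
    (Λ : Finset (Fin D → ℤ)) (X : Fin D → ℕ) (hΛ : ∀ m ∈ Λ, ∀ l, |T m l| ≤ X l)
    (h0 : (0 : Fin D → ℤ) ∉ Λ) (L1 : ℕ) (hL : ∀ p, 2 * X p + 1 ≤ L1) :
    ∀ m ∈ Λ, #(Λ.filter (fun k => Dep2 k m)) ≤ L1 := by
  intro m hm
  have hm0 : m ≠ 0 := fun h => h0 (h ▸ hm)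
  have hTm : T m ≠ 0 := fun h => hm0 (hT (by rw [h, map_zero]))
  obtain ⟨p, hp⟩ : ∃ p, T m p ≠ 0 := by
    by_contra hcon
    push Not at hcon
    exact hTm (funext hcon)
  have h1 : #(Λ.filter (fun k => Dep2 k m)) ≤ #(Finset.Icc (-(X p : ℤ)) (X p)) := by
    apply Finset.card_le_card_of_injOn (fun k => T k p)
    · intro k hk
      rw [mem_coe, mem_filter] at hk
      rw [Finset.coe_Icc, Set.mem_Icc]
      exact abs_le.1 (hΛ k hk.1 p)
    · intro k hk k' hk' heq
      rw [mem_coe, mem_filter] at hk hk'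
      simp only at heq
      obtain ⟨x, y, hxy, hx⟩ := hk.2
      obtain ⟨x', y', hxy', hx'⟩ := hk'.2
      have hne : ∀ (x y : ℤ) (k : Fin D → ℤ), (x ≠ 0 ∨ y ≠ 0) → (∀ l, x * k l + y * m l = 0) →
          x ≠ 0 := by
        intro x y k h1 h2 h3
        subst h3
        have hy : y ≠ 0 := by tauto
        apply hm0
        ext l
        have := h2 l
        simp only [zero_mul, zero_add, mul_eq_zero] at this
        rcases this with h | h
        · exact absurd h hy
        · exact h
      have hx0 := hne x y k hxy hx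
      have hx0' := hne x' y' k' hxy' hx'
      have e1 := T_lin T k m x y hx p
      have e2 := T_lin T k' m x' y' hx' p
      rw [heq] at e1
      have e3 : (x * y' - x' * y) * T m p = 0 := by linear_combination x * e2 - x' * e1
      have e4 : x * y' - x' * y = 0 := by
        rcases mul_eq_zero.1 e3 with h | h
        · exact h
        · exact absurd h hp
      ext l
      have e5 : x * x' * (k l - k' l) = 0 := by
        linear_combination x' * hx l - x * hx' l + (m l) * e4
      rcases mul_eq_zero.1 e5 with h | h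
      · exact absurd h (mul_ne_zero hx0 hx0')
      · linarith
  refine h1.trans ?_
  rw [Int.card_Icc]
  have := hL p
  omega

open Classical in
lemma card_dep3_le (T : (Fin D → ℤ) →ₗ[ℤ] (Fin D → ℤ)) (hT : Function.Injective T)
    (Λ : Finset (Fin D → ℤ)) (X : Fin D → ℕ) (hΛ : ∀ m ∈ Λ, ∀ l, |T m l| ≤ X l)
    (L2 : ℕ) (hL : ∀ p r, p ≠ r → (2 * X p + 1) * (2 * X r + 1) ≤ L2) :
    ∀ m ∈ Λ, ∀ n, m + n ∈ Λ → ¬ Dep2 m (m + n) → #(Λ.filter (fun k => Dep3 m n k)) ≤ L2 := by
  intro m _ n _ hdep
  have hdep' : ¬ Dep2 m n := by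
    rintro ⟨x, y, hxy, h⟩
    apply hdep
    refine ⟨x - y, y, ?_, ?_⟩
    · by_contra hcon
      push Not at hcon
      rcases hxy with h1 | h1
      · exact h1 (by omega)
      · exact h1 hcon.2
    · intro l
      simp only [Pi.add_apply]
      linear_combination h l
  have hm0 : m ≠ 0 := by
    rintro rfl
    exact hdep' ⟨1, 0, Or.inl one_ne_zero, fun l => by simp⟩
  have hTm : T m ≠ 0 := fun h => hm0 (hT (by rw [h, map_zero]))
  obtain ⟨p, hp⟩ : ∃ p, T m p ≠ 0 := by
    by_contra hcon
    push Not at hcon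
    exact hTm (funext hcon)
  obtain ⟨r, hr⟩ : ∃ r, T m p * T n r - T m r * T n p ≠ 0 := by
    by_contra hcon
    push Not at hcon
    apply hdep'
    refine ⟨T n p, -(T m p), Or.inr (neg_ne_zero.2 hp), ?_⟩
    apply lin_comb_zero T hT
    intro l
    linear_combination -(hcon l)
  have hpr : p ≠ r := by
    rintro rfl
    apply hr
    ring
  have h1 : #(Λ.filter (fun k => Dep3 m n k)) ≤
      #((Finset.Icc (-(X p : ℤ)) (X p)) ×ˢ (Finset.Icc (-(X r : ℤ)) (X r))) := by
    apply Finset.card_le_card_of_injOn (fun k => (T k p, T k r))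
    · intro k hk
      rw [mem_coe, mem_filter] at hk
      rw [mem_coe, mem_product, Finset.mem_Icc, Finset.mem_Icc]
      exact ⟨abs_le.1 (hΛ k hk.1 p), abs_le.1 (hΛ k hk.1 r)⟩
    · intro k hk k' hk' heq
      rw [mem_coe, mem_filter] at hk hk'
      simp only [Prod.mk.injEq] at heq
      obtain ⟨x, y, z, hxyz, hx⟩ := hk.2
      obtain ⟨x', y', z', hxyz', hx'⟩ := hk'.2
      have hne : ∀ (x y z : ℤ) (k : Fin D → ℤ), (x ≠ 0 ∨ y ≠ 0 ∨ z ≠ 0) →
          (∀ l, x * m l + y * n l + z * k l = 0) → z ≠ 0 := by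
        intro x y z k h1 h2 h3
        subst h3
        apply hdep'
        refine ⟨x, y, by tauto, ?_⟩
        intro l
        have := h2 l
        linarith
      have hz0 := hne x y z k hxyz hx
      have hz0' := hne x' y' z' k' hxyz' hx'
      set α := z * x' - z' * x with hα
      set β := z * y' - z' * y with hβ
      have e1 : ∀ l, z * z' * (k l - k' l) = α * m l + β * n l := by
        intro l
        rw [hα, hβ]
        linear_combination z' * hx l - z * hx' l
      have e2 : ∀ l, z * z' * (T k l - T k' l) = α * T m l + β * T n l := by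
        have : T ((z * z') • (k - k')) = T (α • m + β • n) := by
          congr 1
          ext l
          simpa using e1 l
        rw [map_smul, map_sub, map_add, map_smul, map_smul] at this
        intro l
        have := congrFun this l
        simpa using this
      have e3 := e2 p
      have e4 := e2 r
      rw [heq.1, sub_self, mul_zero] at e3
      rw [heq.2, sub_self, mul_zero] at e4
      have e5 : α * (T m p * T n r - T m r * T n p) = 0 := by
        linear_combination -(T n r) * e3 + (T n p) * e4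
      have e6 : β * (T m p * T n r - T m r * T n p) = 0 := by
        linear_combination -(T m p) * e4 + (T m r) * e3
      have hα0 : α = 0 := (mul_eq_zero.1 e5).resolve_right hr
      have hβ0 : β = 0 := (mul_eq_zero.1 e6).resolve_right hr
      ext l
      have e7 := e1 l
      rw [hα0, hβ0, zero_mul, zero_mul, zero_add] at e7
      rcases mul_eq_zero.1 e7 with h | h
      · exact absurd h (mul_ne_zero hz0 hz0')
      · linarith
  refine h1.trans ?_
  rw [card_product, Int.card_Icc, Int.card_Icc]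
  have := hL p r hpr
  have e1 : ((X p : ℤ) + 1 - -(X p : ℤ)).toNat = 2 * X p + 1 := by omega
  have e2 : ((X r : ℤ) + 1 - -(X r : ℤ)).toNat = 2 * X r + 1 := by omega
  rw [e1, e2]
  exact this

end

lemma Lsk_add (D : ℕ) : ∀ (K : ℕ → ℕ) (ε : Fin (D + 1) → Bool) (m n : Fin (D + 1) → ℤ),
    Lsk D K ε (m + n) = Lsk D K ε m + Lsk D K ε n := by
  induction D with
  | zero => intro K ε m n; rfl
  | succ D ih =>
    intro K ε m n
    ext l
    refine Fin.cases ?_ (fun l' => ?_) l
    · simp only [Pi.add_apply, Lsk_zero_succ]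
      have : Fin.tail (m + n) 0 = Fin.tail m 0 + Fin.tail n 0 := rfl
      rw [this]
      split_ifs <;> ring
    · have h1 := congrFun (Lsk_tail D K ε (m + n)) l'
      have h2 := congrFun (Lsk_tail D K ε m) l'
      have h3 := congrFun (Lsk_tail D K ε n) l'
      have h4 : Fin.tail (m + n) = Fin.tail m + Fin.tail n := rfl
      rw [h4, ih] at h1
      unfold Fin.tail at h1 h2 h3
      simp only [Pi.add_apply]
      rw [h2, h3]
      exact h1

lemma Lsk_smul (D : ℕ) : ∀ (K : ℕ → ℕ) (ε : Fin (D + 1) → Bool) (x : ℤ) (m : Fin (D + 1) → ℤ),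
    Lsk D K ε (x • m) = x • Lsk D K ε m := by
  induction D with
  | zero => intro K ε x m; rfl
  | succ D ih =>
    intro K ε x m
    ext l
    refine Fin.cases ?_ (fun l' => ?_) l
    · simp only [Pi.smul_apply, Lsk_zero_succ]
      have : Fin.tail (x • m) 0 = x • Fin.tail m 0 := rfl
      rw [this]
      simp only [smul_eq_mul]
      split_ifs <;> ring
    · have h1 := congrFun (Lsk_tail D K ε (x • m)) l'
      have h2 := congrFun (Lsk_tail D K ε m) l'
      have h4 : Fin.tail (x • m) = x • Fin.tail m := rfl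
      rw [h4, ih] at h1
      unfold Fin.tail at h1 h2
      simp only [Pi.smul_apply]
      rw [h2]
      exact h1

/-- The skew map as a linear map. -/
def LskL (D : ℕ) (K : ℕ → ℕ) (ε : Fin (D + 1) → Bool) :
    (Fin (D + 1) → ℤ) →ₗ[ℤ] (Fin (D + 1) → ℤ) where
  toFun := Lsk D K ε
  map_add' := Lsk_add D K ε
  map_smul' := Lsk_smul D K ε

lemma LskL_injective (D : ℕ) : ∀ (K : ℕ → ℕ) (ε : Fin (D + 1) → Bool),
    Function.Injective (LskL D K ε) := by
  induction D with
  | zero => intro K ε m n h; exact h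
  | succ D ih =>
    intro K ε
    rw [injective_iff_map_eq_zero]
    intro m hm
    have h0 : Lsk (D + 1) K ε m = 0 := hm
    have h1 : Fin.tail m = 0 := by
      have h2 := Lsk_tail D K ε m
      rw [h0] at h2
      have h3 : (LskL D (fun i => K (i + 1)) (Fin.tail ε)) (Fin.tail m) = 0 := h2.symm
      have h4 := (injective_iff_map_eq_zero _).1 (ih (fun i => K (i + 1)) (Fin.tail ε)) (Fin.tail m)
      exact h4 h3
    have h5 := congrFun h0 0
    rw [Lsk_zero_succ, h1] at h5
    simp only [Pi.zero_apply, mul_zero, ite_self, add_zero] at h5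
    ext l
    refine Fin.cases ?_ (fun l' => ?_) l
    · exact h5
    · exact congrFun h1 l'

end Pool.Agent.Helper18.BF
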