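import Pool.Agent.Helper18.BFWeights

open scoped ENNReal Real
open Finset

namespace Pool.Agent.Helper18.BF

/-- The Fourier coefficients of the nested functions. -/
noncomputable def aa : (J : ℕ) → (ℕ → ℕ) → (Fin (J + 1) → ℤ) → ℂ
  | 0, K, m => rhoHat (K 0) (m 0)
  | J + 1, K, m => tauHat (K 0) (Fin.tail m 0) (m 0) * aa J (fun i => K (i + 1)) (Fin.tail m)

/-- The nested level functions. -/
noncomputable def del : (J : ℕ) → (ℕ → ℕ) → ℝ → (ℕ → ℝ) → ℝ
  | 0, K, v, u => rho (K 0) (u 0) - rho (K 0) (u 0 - v)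
  | J + 1, K, v, u =>
      del J (fun i => K (i + 1)) (mu (K 0) (u 0)) (fun i => u (i + 1)) -
      del J (fun i => K (i + 1)) (mu (K 0) (u 0 - v)) (fun i => u (i + 1))

/-- Pairing of an integer vector with a real sequence. -/
noncomputable def dotu {J : ℕ} (m : Fin J → ℤ) (u : ℕ → ℝ) : ℝ := ∑ l, (m l : ℝ) * u l

lemma dotu_cons {J : ℕ} (x : ℤ) (m : Fin J → ℤ) (u : ℕ → ℝ) :
    dotu (Fin.cons x m : Fin (J + 1) → ℤ) u = x * u 0 + dotu m (fun i => u (i + 1)) := by
  unfold dotu
  rw [Fin.sum_univ_succ]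
  simp

lemma tsum_cons {J : ℕ} (f : (Fin (J + 1) → ℤ) → ℝ≥0∞) :
    ∑' m, f m = ∑' m' : Fin J → ℤ, ∑' x : ℤ, f (Fin.cons x m') := by
  rw [← (Fin.consEquiv (fun _ : Fin (J + 1) => ℤ)).tsum_eq f]
  rw [ENNReal.tsum_prod' (f := fun p : ℤ × (Fin J → ℤ) =>
    f ((Fin.consEquiv (fun _ : Fin (J + 1) => ℤ)) p))]
  rw [ENNReal.tsum_comm]
  rfl

lemma mass_zero {K : ℕ} (hK : 0 < K) {γ : ℝ} (hγ : γ ≤ 1 / 2) :
    ∑' x : ℤ, ENNReal.ofReal (‖rhoHat K x‖ * om x ^ γ) ≤ ENNReal.ofReal (8 * K) := by
  have hK' : (0:ℝ) < K := by exact_mod_cast hK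
  have hK1 : (1:ℝ) ≤ K := by exact_mod_cast hK
  have h1 := tsum_even_le (fun x : ℤ => ENNReal.ofReal (‖rhoHat K x‖ * om x ^ γ))
    (fun x : ℕ => (if x = 0 then (1:ℝ≥0∞) else 0) + (if x = 1 then ENNReal.ofReal K else 0) +
      ENNReal.ofReal K * (if 1 < x then ENNReal.ofReal ((x:ℝ) ^ (γ - 2)) else 0)) (by
      intro m
      have hmabs : ((m.natAbs : ℕ) : ℝ) = |(m:ℝ)| := by
        rw [Nat.cast_natAbs]
        push_cast
        rfl
      rcases Nat.lt_trichotomy m.natAbs 1 with h | h | h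
      · have hm : m = 0 := by
          have : m.natAbs = 0 := by omega
          exact Int.natAbs_eq_zero.1 this
        subst hm
        have h0 := norm_rhoHat_le_one K hK 0
        have : om 0 = 1 := by simp [om]
        rw [this, Real.one_rpow, mul_one]
        refine le_trans ?_ (le_add_right (le_add_right (le_of_eq (if_pos (by simp)).symm)))
        exact ENNReal.ofReal_le_one.2 h0
      · have hm : m ≠ 0 := by
          rintro rfl
          simp at h
        have habs : |(m:ℝ)| = 1 := by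
          rw [← hmabs, h]
          simp
        have hom : om m = 1 := by
          unfold om
          rw [habs, max_self]
        rw [hom, Real.one_rpow, mul_one]
        refine le_trans ?_ (le_add_right (le_add_left (le_of_eq (if_pos h).symm)))
        apply ENNReal.ofReal_le_ofReal
        have := norm_rhoHat_le_sq hK hm
        rwa [← sq_abs, habs, one_pow, div_one] at this
      · have hm : m ≠ 0 := by
          rintro rfl
          simp at h
        have habs : 1 < |(m:ℝ)| := by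
          rw [← hmabs]
          exact_mod_cast h
        have hom : om m = |(m:ℝ)| := by
          unfold om
          rw [max_eq_right habs.le]
        refine le_trans ?_ le_add_self
        rw [if_pos h, ← ENNReal.ofReal_mul hK'.le]
        apply ENNReal.ofReal_le_ofReal
        rw [hom, hmabs]
        have h1 := norm_rhoHat_le_sq hK hm
        have h2 : 0 < |(m:ℝ)| := by linarith
        calc ‖rhoHat K m‖ * |(m:ℝ)| ^ γ ≤ (K / (m:ℝ)^2) * |(m:ℝ)| ^ γ :=
              mul_le_mul_of_nonneg_right h1 (by positivity)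
          _ = K * |(m:ℝ)| ^ (γ - 2) := by
              rw [Real.rpow_sub h2]
              have : |(m:ℝ)| ^ (2:ℝ) = (m:ℝ)^2 := by
                rw [Real.rpow_two, sq_abs]
              rw [this]
              ring)
  refine h1.trans ?_
  rw [ENNReal.tsum_add, ENNReal.tsum_add, ENNReal.tsum_mul_left, tsum_ite_eq, tsum_ite_eq]
  have h2 := tsum_tail_le (M := 1) one_pos hγ
  have h2' : ∑' x : ℕ, (if 1 < x then ENNReal.ofReal ((x:ℝ) ^ (γ - 2)) else 0) ≤
      ENNReal.ofReal 2 := by
    refine h2.trans (le_of_eq ?_)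
    simp
  calc 2 * (1 + ENNReal.ofReal K + ENNReal.ofReal K *
        ∑' x : ℕ, (if 1 < x then ENNReal.ofReal ((x:ℝ) ^ (γ - 2)) else 0)) ≤
        2 * (1 + ENNReal.ofReal K + ENNReal.ofReal K * ENNReal.ofReal 2) := by gcongr
    _ = ENNReal.ofReal (2 * (1 + K + K * 2)) := by
        rw [ENNReal.ofReal_mul (by norm_num), ENNReal.ofReal_add (by positivity) (by positivity),
          ENNReal.ofReal_add (by positivity) (by positivity), ENNReal.ofReal_mul hK'.le]
        simp
    _ ≤ ENNReal.ofReal (8 * K) := by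
        apply ENNReal.ofReal_le_ofReal
        linarith

/-- The weighted mass bound. -/
theorem mass_le (J : ℕ) : ∀ (K : ℕ → ℕ), (∀ i, 0 < K i) → ∀ (α β ε : ℝ) (l : Fin (J + 1)),
    0 ≤ α → 0 ≤ β → 0 < ε → ε ≤ 1 → α + β + J * ε ≤ 1 / 2 →
    ∑' m : Fin (J + 1) → ℤ, ENNReal.ofReal (‖aa J K m‖ * (om (m 0) ^ α * om (m l) ^ β)) ≤
      ENNReal.ofReal ((50 / ε) ^ J * (∏ i ∈ range J, √(K i)) * (8 * K J)) := by
  induction J with
  | zero =>
    intro K hK α β ε l hα hβ hε hε1 hsum
    have hl : l = 0 := Fin.ext (by omega)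
    subst hl
    rw [tsum_cons]
    have h1 : ∑' m' : Fin 0 → ℤ, ∑' x : ℤ, ENNReal.ofReal (‖aa 0 K (Fin.cons x m')‖ *
        (om ((Fin.cons x m' : Fin 1 → ℤ) 0) ^ α * om ((Fin.cons x m' : Fin 1 → ℤ) 0) ^ β)) =
        ∑' x : ℤ, ENNReal.ofReal (‖rhoHat (K 0) x‖ * om x ^ (α + β)) := by
      rw [tsum_eq_single (default : Fin 0 → ℤ) (fun b hb => absurd (Subsingleton.elim _ _) hb)]
      apply tsum_congr
      intro x
      simp only [aa, Fin.cons_zero]
      rw [Real.rpow_add (om_pos x)]
    rw [h1]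
    have h2 := mass_zero (hK 0) (γ := α + β) (by
      simp at hsum
      linarith)
    simpa using h2
  | succ J ih =>
    intro K hK α β ε l hα hβ hε hε1 hsum
    have hK' : ∀ i, 0 < (fun i => K (i + 1)) i := fun i => hK (i + 1)
    have hJε : 0 ≤ (J:ℝ) * ε := by positivity
    push_cast at hsum
    rw [tsum_cons]
    -- exponents
    have hstep : ∀ (α' : ℝ) (W : (Fin (J + 1) → ℤ) → ℝ), 0 ≤ α' → α' ≤ 1 / 2 → (∀ m, 0 ≤ W m) →
        ∑' m' : Fin (J + 1) → ℤ, ∑' x : ℤ, ENNReal.ofReal
          (‖aa (J + 1) K (Fin.cons x m')‖ * (om x ^ α' * W m')) ≤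
        ENNReal.ofReal (50 / ε * √(K 0)) * ∑' m' : Fin (J + 1) → ℤ, ENNReal.ofReal
          (‖aa J (fun i => K (i + 1)) m'‖ * (om (m' 0) ^ (α' + ε) * W m')) := by
      intro α' W hα'0 hα' hW
      rw [← ENNReal.tsum_mul_left]
      apply ENNReal.tsum_le_tsum
      intro m'
      have h1 : ∀ x : ℤ, ENNReal.ofReal
          (‖aa (J + 1) K (Fin.cons x m')‖ * (om x ^ α' * W m')) =
          ENNReal.ofReal (‖aa J (fun i => K (i + 1)) m'‖ * W m') *
          ENNReal.ofReal (‖tauHat (K 0) (m' 0) x‖ * om x ^ α') := by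
        intro x
        rw [← ENNReal.ofReal_mul (mul_nonneg (norm_nonneg _) (hW _))]
        congr 1
        simp only [aa, Fin.tail_cons, Fin.cons_zero, norm_mul]
        ring
      simp_rw [h1]
      rw [ENNReal.tsum_mul_left]
      by_cases hm0 : m' 0 = 0
      · rw [hm0]
        simp [tauHat_zero]
      · have h2 := tsum_tauHat_le (hK 0) hm0 hα'0 hα' hε hε1
        have h3 : ENNReal.ofReal (50 / ε * (K 0:ℝ) ^ α' * |((m' 0 : ℤ):ℝ)| ^ (α' + ε)) ≤
            ENNReal.ofReal (50 / ε * √(K 0) * om (m' 0) ^ (α' + ε)) := by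
          apply ENNReal.ofReal_le_ofReal
          have hK1 : (1:ℝ) ≤ K 0 := by exact_mod_cast hK 0
          have h4 : (K 0:ℝ) ^ α' ≤ √(K 0) := by
            rw [Real.sqrt_eq_rpow]
            exact Real.rpow_le_rpow_of_exponent_le hK1 hα'
          have h5 : |((m' 0 : ℤ):ℝ)| ^ (α' + ε) ≤ om (m' 0) ^ (α' + ε) :=
            Real.rpow_le_rpow (abs_nonneg _) (le_max_right _ _) (by linarith)
          gcongr
        calc _ ≤ ENNReal.ofReal (‖aa J (fun i => K (i + 1)) m'‖ * W m') *
              ENNReal.ofReal (50 / ε * √(K 0) * om (m' 0) ^ (α' + ε)) := by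
              gcongr
              exact h2.trans h3
          _ = _ := by
              rw [← ENNReal.ofReal_mul (mul_nonneg (norm_nonneg _) (hW _)),
                ← ENNReal.ofReal_mul (by positivity)]
              congr 1
              ring
    have hfin : ENNReal.ofReal ((50 / ε) ^ (J + 1) * (∏ i ∈ range (J + 1), √(K i)) *
        (8 * K (J + 1))) = ENNReal.ofReal (50 / ε * √(K 0)) *
        ENNReal.ofReal ((50 / ε) ^ J * (∏ i ∈ range J, √(K (i + 1))) * (8 * K (J + 1))) := by
      rw [← ENNReal.ofReal_mul (by positivity)]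
      congr 1
      rw [Finset.prod_range_succ']
      ring
    rw [hfin]
    refine Fin.cases ?_ (fun l' => ?_) l
    · -- l = 0
      have h1 : ∀ (m' : Fin (J + 1) → ℤ) (x : ℤ), ENNReal.ofReal (‖aa (J + 1) K (Fin.cons x m')‖ *
          (om ((Fin.cons x m' : Fin (J + 2) → ℤ) 0) ^ α *
            om ((Fin.cons x m' : Fin (J + 2) → ℤ) 0) ^ β)) =
          ENNReal.ofReal (‖aa (J + 1) K (Fin.cons x m')‖ * (om x ^ (α + β) * 1)) := by
        intro m' x
        rw [Fin.cons_zero, Real.rpow_add (om_pos x), mul_one]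
      simp_rw [h1]
      refine (hstep (α + β) (fun _ => 1) (by linarith) (by linarith) (fun _ => zero_le_one)).trans
        ?_
      gcongr
      have h2 := ih (fun i => K (i + 1)) hK' (α + β + ε) 0 ε 0 (by linarith) le_rfl hε hε1
        (by linarith)
      simpa using h2
    · have h1 : ∀ (m' : Fin (J + 1) → ℤ) (x : ℤ), ENNReal.ofReal (‖aa (J + 1) K (Fin.cons x m')‖ *
          (om ((Fin.cons x m' : Fin (J + 2) → ℤ) 0) ^ α *
            om ((Fin.cons x m' : Fin (J + 2) → ℤ) (Fin.succ l')) ^ β)) =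
          ENNReal.ofReal (‖aa (J + 1) K (Fin.cons x m')‖ * (om x ^ α * om (m' l') ^ β)) := by
        intro m' x
        rw [Fin.cons_zero, Fin.cons_succ]
      simp_rw [h1]
      refine (hstep α (fun m' => om (m' l') ^ β) hα (by linarith)
        (fun m' => by have := om_pos (m' l'); positivity)).trans ?_
      gcongr
      exact ih (fun i => K (i + 1)) hK' (α + ε) β ε l' (by linarith) hβ hε hε1 (by linarith)

lemma summable_norm_aa (J : ℕ) (K : ℕ → ℕ) (hK : ∀ i, 0 < K i) :
    Summable (fun m : Fin (J + 1) → ℤ => ‖aa J K m‖) := by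
  have hε : (0:ℝ) < 1 / (2 * (J + 1)) := by positivity
  have h := mass_le J K hK 0 0 (1 / (2 * (J + 1))) 0 le_rfl le_rfl hε (by
    rw [div_le_one (by positivity)]
    have : (0:ℝ) ≤ J := Nat.cast_nonneg J
    linarith) (by
    rw [zero_add, zero_add, mul_one_div, div_le_div_iff₀ (by positivity) (by norm_num)]
    have : (0:ℝ) ≤ J := Nat.cast_nonneg J
    linarith)
  have h2 : ∑' m : Fin (J + 1) → ℤ, ENNReal.ofReal
      (‖aa J K m‖ * (om (m 0) ^ (0:ℝ) * om (m 0) ^ (0:ℝ))) ≠ ⊤ :=
    ne_top_of_le_ne_top ENNReal.ofReal_ne_top h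
  have h3 := ENNReal.summable_toReal h2
  refine h3.congr ?_
  intro m
  rw [ENNReal.toReal_ofReal (by positivity)]
  simp

/-- The Fourier expansion of the nested level functions. -/
theorem hasSum_del (J : ℕ) : ∀ (K : ℕ → ℕ), (∀ i, 0 < K i) → ∀ (v : ℝ) (u : ℕ → ℝ),
    HasSum (fun m : Fin (J + 1) → ℤ => aa J K m * (1 - e (-(m 0 * v))) * e (dotu m u))
      ((del J K v u : ℝ) : ℂ) := by
  induction J with
  | zero =>
    intro K hK v u
    have h1 := hasSum_rho (hK 0) (u 0)
    have h2 := hasSum_rho (hK 0) (u 0 - v)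
    have h3 := h1.sub h2
    have h4 : ((del 0 K v u : ℝ) : ℂ) = ((rho (K 0) (u 0) : ℝ) : ℂ) -
        ((rho (K 0) (u 0 - v) : ℝ) : ℂ) := by
      simp [del]
    rw [h4]
    have h5 := ((Equiv.funUnique (Fin 1) ℤ).hasSum_iff (f := fun x : ℤ =>
      rhoHat (K 0) x * e (x * u 0) - rhoHat (K 0) x * e (x * (u 0 - v)))).2 h3
    have h7 : (fun m : Fin 1 → ℤ => aa 0 K m * (1 - e (-(m 0 * v))) * e (dotu m u)) =
        (fun x : ℤ => rhoHat (K 0) x * e (x * u 0) - rhoHat (K 0) x * e (x * (u 0 - v))) ∘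
          (Equiv.funUnique (Fin 1) ℤ) := ?_
    · show HasSum (fun m : Fin 1 → ℤ => aa 0 K m * (1 - e (-(m 0 * v))) * e (dotu m u)) _
      rw [h7]
      exact h5
    ext m
    simp only [Function.comp, Equiv.funUnique_apply, aa, dotu]
    have h6 : (default : Fin 1) = 0 := rfl
    simp only [Finset.univ_unique, Finset.sum_singleton, h6]
    rw [mul_assoc, ← mul_sub]
    congr 1
    rw [sub_mul, one_mul, ← e_add]
    have h8 : -((m 0 : ℤ) * v) + (m 0 : ℤ) * u ((0 : Fin 1) : ℕ) = (m 0 : ℤ) * (u 0 - v) := by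
      simp
      ring
    rw [h8]
    simp
  | succ J ih =>
    intro K hK v u
    have hK' : ∀ i, 0 < (fun i => K (i + 1)) i := fun i => hK (i + 1)
    have key : ∀ w : ℝ, HasSum (fun m : Fin (J + 2) → ℤ => aa (J + 1) K m *
        (e (m 0 * w) * e (dotu (Fin.tail m) (fun i => u (i + 1)))))
        ((del J (fun i => K (i + 1)) (mu (K 0) w) (fun i => u (i + 1)) : ℝ) : ℂ) := by
      intro w
      have hF : Summable (fun p : (Fin (J + 1) → ℤ) × ℤ => aa (J + 1) K (Fin.cons p.2 p.1) *
          (e (p.2 * w) * e (dotu p.1 (fun i => u (i + 1))))) := by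
        apply Summable.of_norm
        have h1 : ∀ p : (Fin (J + 1) → ℤ) × ℤ, ‖aa (J + 1) K (Fin.cons p.2 p.1) *
          (e (p.2 * w) * e (dotu p.1 (fun i => u (i + 1))))‖ =
            ‖aa (J + 1) K (Fin.cons p.2 p.1)‖ := by
          intro p
          rw [norm_mul, norm_mul, norm_e, norm_e, mul_one, mul_one]
        simp_rw [h1]
        have h2 := summable_norm_aa (J + 1) K hK
        have h3 := (((Equiv.prodComm _ _).trans
          (Fin.consEquiv (fun _ : Fin (J + 2) => ℤ))).summable_iff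
          (f := fun m : Fin (J + 2) → ℤ => ‖aa (J + 1) K m‖)).2 h2
        exact h3
      have hfib : ∀ m' : Fin (J + 1) → ℤ, HasSum (fun x : ℤ => aa (J + 1) K (Fin.cons x m') *
          (e (x * w) * e (dotu m' (fun i => u (i + 1)))))
          (aa J (fun i => K (i + 1)) m' * (1 - e (-(m' 0 * mu (K 0) w))) *
            e (dotu m' (fun i => u (i + 1)))) := by
        intro m'
        have h1 := (hasSum_tau (hK 0) (m' 0) w).mul_left
          (aa J (fun i => K (i + 1)) m' * e (dotu m' (fun i => u (i + 1))))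
        have h8 : (fun x : ℤ => aa (J + 1) K (Fin.cons x m') *
          (e (x * w) * e (dotu m' (fun i => u (i + 1))))) = (fun x : ℤ =>
          aa J (fun i => K (i + 1)) m' * e (dotu m' fun i => u (i + 1)) *
            (tauHat (K 0) (m' 0) x * e (x * w))) := by
          ext x
          simp only [aa, Fin.tail_cons, Fin.cons_zero]
          ring
        have h9 : aa J (fun i => K (i + 1)) m' * (1 - e (-(m' 0 * mu (K 0) w))) *
            e (dotu m' (fun i => u (i + 1))) =
            aa J (fun i => K (i + 1)) m' * e (dotu m' fun i => u (i + 1)) *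
              tau (K 0) (m' 0) w := by
          unfold tau
          ring
        rw [h8, h9]
        exact h1
      have h3 := hF.hasSum.prod_fiberwise hfib
      have h4 := ih (fun i => K (i + 1)) hK' (mu (K 0) w) (fun i => u (i + 1))
      have h5 := h3.unique h4
      have h6 := hF.hasSum
      rw [h5] at h6
      rw [← (((Equiv.prodComm _ _).trans
          (Fin.consEquiv (fun _ : Fin (J + 2) => ℤ))).hasSum_iff
          (f := fun m : Fin (J + 2) → ℤ => aa (J + 1) K m *
        (e (m 0 * w) * e (dotu (Fin.tail m) (fun i => u (i + 1))))))]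
      exact h6
    have h1 := (key (u 0)).sub (key (u 0 - v))
    have h2 : ((del (J + 1) K v u : ℝ) : ℂ) =
        ((del J (fun i => K (i + 1)) (mu (K 0) (u 0)) (fun i => u (i + 1)) : ℝ) : ℂ) -
        ((del J (fun i => K (i + 1)) (mu (K 0) (u 0 - v)) (fun i => u (i + 1)) : ℝ) : ℂ) := by
      simp [del]
    rw [h2]
    have h10 : (fun m : Fin (J + 1 + 1) → ℤ => aa (J + 1) K m * (1 - e (-(m 0 * v))) *
        e (dotu m u)) = (fun m : Fin (J + 2) → ℤ => aa (J + 1) K m *
        (e (m 0 * u 0) * e (dotu (Fin.tail m) (fun i => u (i + 1)))) - aa (J + 1) K m *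
        (e (m 0 * (u 0 - v)) * e (dotu (Fin.tail m) (fun i => u (i + 1))))) := by
      ext m
      have h3 : dotu m u = m 0 * u 0 + dotu (Fin.tail m) (fun i => u (i + 1)) := by
        conv_lhs => rw [← Fin.cons_self_tail m]
        rw [dotu_cons]
      rw [h3, ← mul_sub, ← sub_mul, mul_assoc]
      congr 1
      rw [e_add, ← mul_assoc]
      congr 1
      rw [sub_mul, one_mul, ← e_add]
      congr 2
      ring
    rw [h10]
    exact h1

end Pool.Agent.Helper18.BF
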