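import Pool.Agent.Helper18.BFCount

open scoped Real
open Finset

namespace Pool.Agent.Helper18.BF

/-- Window weights. -/
def ww (J : ℕ) (l : ℕ) : ℕ := if l < J then 16 ^ (l + 1) else 1

lemma prod_ww (J : ℕ) : ∏ l : Fin (J + 1), ww J l = 4 ^ (J * (J + 1)) := by
  rw [Fin.prod_univ_castSucc]
  have h1 : ww J ((Fin.last J : Fin (J + 1)) : ℕ) = 1 := by simp [ww]
  rw [h1, mul_one]
  have h2 : ∀ l : Fin J, ww J ((Fin.castSucc l : Fin (J + 1)) : ℕ) = 16 ^ ((l : ℕ) + 1) := by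
    intro l
    simp [ww]
  rw [Finset.prod_congr rfl (fun l _ => h2 l), Fin.prod_univ_eq_prod_range (fun l => 16 ^ (l + 1))]
  induction J with
  | zero => simp
  | succ J ih =>
    rw [Finset.prod_range_succ, ih]
    · rw [show (16:ℕ) = 4 ^ 2 by norm_num, ← pow_mul, ← pow_add]
      congr 1
      ring
    · simp [ww]
    · intro l
      simp [ww]

lemma ww_le (J l : ℕ) : ww J l ≤ 4 ^ (2 * J) := by
  unfold ww
  split_ifs with h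
  · rw [show (16:ℕ) = 4 ^ 2 by norm_num, ← pow_mul]
    exact Nat.pow_le_pow_right (by norm_num) (by omega)
  · exact Nat.one_le_pow _ _ (by norm_num)

lemma ww_pos (J l : ℕ) : 0 < ww J l := by
  unfold ww
  split_ifs <;> positivity

/-- The gain. -/
noncomputable def gam (J : ℕ) : ℝ := 8 ^ J / 2 ^ (J ^ 2)

lemma gam_pos (J : ℕ) : 0 < gam J := by unfold gam; positivity

section

variable {J : ℕ} (Y : Fin (J + 1) → ℕ) (hY : ∀ l : Fin (J + 1), ww J l ≤ Y l)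

include hY

lemma two_le_gam (p r : Fin (J + 1)) (hpr : p ≠ r) :
    ((Y p * Y r : ℕ) : ℝ) ≤ gam J ^ 2 * (∏ l, Y l : ℕ) := by
  classical
  have h1 : ∏ l, Y l = Y p * (Y r * ∏ l ∈ (univ.erase p).erase r, Y l) := by
    rw [Finset.mul_prod_erase _ _ (by simp [Ne.symm hpr]), Finset.mul_prod_erase _ _ (by simp)]
  have h2 : ∏ l : Fin (J + 1), ww J l =
      ww J p * (ww J r * ∏ l ∈ (univ.erase p).erase r, ww J l) := by
    rw [Finset.mul_prod_erase _ (fun l : Fin (J + 1) => ww J l) (by simp [Ne.symm hpr]),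
      Finset.mul_prod_erase _ (fun l : Fin (J + 1) => ww J l) (by simp)]
  have h3 : ∏ l ∈ (univ.erase p).erase r, ww J (l : Fin (J + 1)) ≤
      ∏ l ∈ (univ.erase p).erase r, Y l := Finset.prod_le_prod' (fun l _ => hY l)
  rw [prod_ww] at h2
  have h4 : 4 ^ (J * (J + 1)) ≤ 4 ^ (4 * J) * ∏ l ∈ (univ.erase p).erase r, Y l := by
    rw [h2]
    calc ww J p * (ww J r * ∏ l ∈ (univ.erase p).erase r, ww J (l : Fin (J + 1))) ≤
        4 ^ (2 * J) * (4 ^ (2 * J) * ∏ l ∈ (univ.erase p).erase r, Y l) := by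
          gcongr
          · exact ww_le J p
          · exact ww_le J r
      _ = _ := by
          rw [← mul_assoc, ← pow_add]
          congr 2
          ring
  have h5 : ((4:ℝ) ^ (J * (J + 1))) ≤ 4 ^ (4 * J) *
      ((∏ l ∈ (univ.erase p).erase r, Y l : ℕ) : ℝ) := by exact_mod_cast h4
  rw [h1]
  push_cast
  have h6 : (1:ℝ) ≤ gam J ^ 2 * ((∏ l ∈ (univ.erase p).erase r, Y l : ℕ) : ℝ) := by
    unfold gam
    rw [div_pow, ← pow_mul, ← pow_mul, div_mul_eq_mul_div, le_div_iff₀ (by positivity), one_mul]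
    have e1 : (8:ℝ) ^ (J * 2) = 4 ^ (3 * J) := by
      rw [show (8:ℝ) = 2 ^ 3 by norm_num, show (4:ℝ) = 2 ^ 2 by norm_num, ← pow_mul, ← pow_mul]
      congr 1
      ring
    have e2 : (2:ℝ) ^ (J ^ 2 * 2) = 4 ^ (J ^ 2) := by
      rw [show (4:ℝ) = 2 ^ 2 by norm_num, ← pow_mul]
      congr 1
      ring
    rw [e1, e2]
    have e3 : (4:ℝ) ^ (J * (J + 1)) = 4 ^ (J ^ 2) * 4 ^ J := by
      rw [← pow_add]
      congr 1
      ring
    have e4 : (4:ℝ) ^ (4 * J) = 4 ^ (3 * J) * 4 ^ J := by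
      rw [← pow_add]
      congr 1
      ring
    rw [e3, e4] at h5
    have e5 : (0:ℝ) < 4 ^ J := by positivity
    nlinarith
  push_cast at h6
  have h7 : (0:ℝ) ≤ (Y p : ℝ) * Y r := by positivity
  calc (Y p : ℝ) * Y r = Y p * Y r * 1 := by ring
    _ ≤ Y p * Y r * (gam J ^ 2 * ∏ l ∈ (univ.erase p).erase r, (Y l : ℝ)) :=
        mul_le_mul_of_nonneg_left h6 h7
    _ = _ := by ring

lemma one_le_gam (p : Fin (J + 1)) :
    ((Y p : ℕ) : ℝ) ≤ gam J * (∏ l, Y l : ℕ) := by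
  classical
  have h1 : ∏ l, Y l = Y p * ∏ l ∈ univ.erase p, Y l := by
    rw [Finset.mul_prod_erase _ _ (by simp)]
  have h2 : ∏ l : Fin (J + 1), ww J l = ww J p * ∏ l ∈ univ.erase p, ww J l := by
    rw [Finset.mul_prod_erase _ (fun l : Fin (J + 1) => ww J l) (by simp)]
  have h3 : ∏ l ∈ univ.erase p, ww J (l : Fin (J + 1)) ≤
      ∏ l ∈ univ.erase p, Y l := Finset.prod_le_prod' (fun l _ => hY l)
  rw [prod_ww] at h2
  have h4 : 4 ^ (J * (J + 1)) ≤ 4 ^ (2 * J) * ∏ l ∈ univ.erase p, Y l := by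
    rw [h2]
    exact Nat.mul_le_mul (ww_le J p) h3
  have h5 : ((4:ℝ) ^ (J * (J + 1))) ≤ 4 ^ (2 * J) *
      ((∏ l ∈ univ.erase p, Y l : ℕ) : ℝ) := by exact_mod_cast h4
  rw [h1]
  push_cast
  have h6 : (1:ℝ) ≤ gam J * ((∏ l ∈ univ.erase p, Y l : ℕ) : ℝ) := by
    unfold gam
    rw [div_mul_eq_mul_div, le_div_iff₀ (by positivity), one_mul]
    have e1 : (4:ℝ) ^ (J * (J + 1)) = 2 ^ (J ^ 2) * 2 ^ (J ^ 2 + 2 * J) := by
      rw [← pow_add, show (4:ℝ) = 2 ^ 2 by norm_num, ← pow_mul]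
      congr 1
      ring
    have e2 : (4:ℝ) ^ (2 * J) ≤ 8 ^ J * 2 ^ (J ^ 2 + 2 * J) := by
      have : (4:ℝ) ^ (2 * J) = 8 ^ J * 2 ^ J := by
        rw [pow_mul, ← mul_pow]; norm_num
      rw [this]
      gcongr
      · norm_num
      · nlinarith
    set P := ((∏ l ∈ univ.erase p, Y l : ℕ) : ℝ) with hP
    have hP0 : 0 ≤ P := Nat.cast_nonneg _
    rw [e1] at h5
    have e3 : (0:ℝ) < 2 ^ (J ^ 2 + 2 * J) := by positivity
    have e4 : 2 ^ (J ^ 2) * 2 ^ (J ^ 2 + 2 * J) ≤ 8 ^ J * 2 ^ (J ^ 2 + 2 * J) * P :=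
      h5.trans (mul_le_mul_of_nonneg_right e2 hP0)
    have e5 : 2 ^ (J ^ 2) * 2 ^ (J ^ 2 + 2 * J) ≤ (8 ^ J * P) * 2 ^ (J ^ 2 + 2 * J) := by
      calc _ ≤ _ := e4
        _ = _ := by ring
    exact le_of_mul_le_mul_right e5 e3
  push_cast at h6
  calc (Y p : ℝ) = Y p * 1 := by ring
    _ ≤ Y p * (gam J * ∏ l ∈ univ.erase p, (Y l : ℝ)) :=
        mul_le_mul_of_nonneg_left h6 (Nat.cast_nonneg _)
    _ = _ := by ring

end

open Classical in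
theorem flat_bound {L d q J : ℕ} (hq : 0 < q) (hJ : J + 1 ≤ L) (s : Finset (Fin d → ℤ))
    (f : (Fin d → ℤ) → ℝ) (T : (Fin (J + 1) → ℤ) →ₗ[ℤ] (Fin (J + 1) → ℤ))
    (hT : Function.Injective T) (Λ : Finset (Fin (J + 1) → ℤ)) (X : Fin (J + 1) → ℕ)
    (hX : ∀ l : Fin (J + 1), ww J l ≤ 2 * X l + 1)
    (hΛ : ∀ m ∈ Λ, ∀ l, |T m l| ≤ X l) (h0 : (0 : Fin (J + 1) → ℤ) ∉ Λ)
    (c : (Fin (J + 1) → ℤ) → ℂ) (g G : ℝ) (hg : 0 ≤ g)
    (hc : ∀ m ∈ Λ, ‖c m‖ ≤ g) (hG : g * (∏ l, (2 * X l + 1) : ℕ) ≤ G)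
    (A B : ℤ) (hA : ∀ a ∈ s, ∀ i, |a i| ≤ A) (hB : ∀ m ∈ Λ, ∀ l, |m l| ≤ B)
    (hAB : 4 * (B * A) < q) (S2 θ : ℝ) (hθ0 : 0 ≤ θ) (hS : ∑ a ∈ s, f a ^ 2 ≤ S2)
    (hθ : √(∑ a ∈ s, f a ^ 4) ≤ θ * S2) :
    avR (fun Z : ZZ L d q => XL s f Λ c Z) ≤
      S2 * (G ^ 2 * (2 ^ (J + 2) * (gam J + θ))) := by
  set S4 := ∑ a ∈ s, f a ^ 4 with hS4
  have hS2n : 0 ≤ S2 := (Finset.sum_nonneg (fun a _ => sq_nonneg _)).trans hS
  have hS1n : 0 ≤ ∑ a ∈ s, f a ^ 2 := Finset.sum_nonneg (fun a _ => sq_nonneg _)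
  have hS4n : 0 ≤ S4 := Finset.sum_nonneg (fun a _ => by positivity)
  set N : ℕ := ∏ l, (2 * X l + 1) with hN
  have hγ := gam_pos J
  have hN1 : 0 < N := Finset.prod_pos (fun l _ => by omega)
  have hcard : #Λ ≤ N := card_le_prod T hT Λ X hΛ
  have hcardR : (#Λ : ℝ) ≤ N := by exact_mod_cast hcard
  have hM : #(Diff Λ) ≤ 2 ^ (J + 1) * N := by
    refine (card_Diff_le T hT Λ X hΛ).trans ?_
    have h1 : (2:ℕ) ^ (J + 1) * N = ∏ l : Fin (J + 1), (2 * (2 * X l + 1)) := by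
      rw [Finset.prod_mul_distrib, Finset.prod_const, Finset.card_univ, Fintype.card_fin]
    rw [h1]
    exact Finset.prod_le_prod' (fun l _ => by omega)
  have key := avR_XL_le hq hJ s f Λ c g hg hc A B hA hB hAB h0 ⌊gam J * N⌋₊ ⌊gam J ^ 2 * N⌋₊
    (2 ^ (J + 1) * N)
    (card_dep2_le T hT Λ X hΛ h0 _ (fun p => by
      apply Nat.le_floor
      exact one_le_gam (fun l => 2 * X l + 1) hX p))
    (card_dep3_le T hT Λ X hΛ _ (fun p r hpr => by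
      apply Nat.le_floor
      exact two_le_gam (fun l => 2 * X l + 1) hX p r hpr))
    hM
  have key2 : g ^ 2 * ((∑ a ∈ s, f a ^ 2) * (#Λ * ((⌊gam J * N⌋₊ : ℕ) : ℝ)) +
      ((2 ^ (J + 1) * N : ℕ) : ℝ) * √(#Λ * ((⌊gam J ^ 2 * N⌋₊ : ℕ) : ℝ) *
        (∑ a ∈ s, f a ^ 2) ^ 2 + (#Λ) ^ 2 * S4)) ≤
      g ^ 2 * (S2 * (#Λ * ((⌊gam J * N⌋₊ : ℕ) : ℝ)) +
      ((2 ^ (J + 1) * N : ℕ) : ℝ) * √(#Λ * ((⌊gam J ^ 2 * N⌋₊ : ℕ) : ℝ) *
        S2 ^ 2 + (#Λ) ^ 2 * S4)) := by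
    gcongr
  refine (key.trans key2).trans ?_
  have hf1 : ((⌊gam J * N⌋₊ : ℕ) : ℝ) ≤ gam J * N := Nat.floor_le (by positivity)
  have hf2 : ((⌊gam J ^ 2 * N⌋₊ : ℕ) : ℝ) ≤ gam J ^ 2 * N := Nat.floor_le (by positivity)
  have hsq : √(#Λ * ((⌊gam J ^ 2 * N⌋₊ : ℕ) : ℝ) * S2 ^ 2 + (#Λ) ^ 2 * S4) ≤
      N * ((gam J + θ) * S2) := by
    have h1 : #Λ * ((⌊gam J ^ 2 * N⌋₊ : ℕ) : ℝ) * S2 ^ 2 + (#Λ : ℝ) ^ 2 * S4 ≤
        (N * (gam J * S2)) ^ 2 + (N * √S4) ^ 2 := by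
      have e1 : (#Λ : ℝ) * ((⌊gam J ^ 2 * N⌋₊ : ℕ) : ℝ) ≤ N * (gam J ^ 2 * N) :=
        mul_le_mul hcardR hf2 (Nat.cast_nonneg _) (Nat.cast_nonneg _)
      have e2 : (N * √S4) ^ 2 = (N:ℝ) ^ 2 * S4 := by
        rw [mul_pow, Real.sq_sqrt hS4n]
      have e3 : (#Λ : ℝ) ^ 2 ≤ (N:ℝ) ^ 2 := pow_le_pow_left₀ (Nat.cast_nonneg _) hcardR 2
      rw [e2]
      have e4 := mul_le_mul_of_nonneg_right e1 (sq_nonneg S2)
      have e5 := mul_le_mul_of_nonneg_right e3 hS4n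
      nlinarith
    calc _ ≤ √((N * (gam J * S2)) ^ 2 + (N * √S4) ^ 2) := Real.sqrt_le_sqrt h1
      _ ≤ √((N * (gam J * S2) + N * √S4) ^ 2) := by
          apply Real.sqrt_le_sqrt
          have : 0 ≤ N * (gam J * S2) * (N * √S4) := by positivity
          nlinarith
      _ = N * (gam J * S2) + N * √S4 := Real.sqrt_sq (by positivity)
      _ ≤ N * (gam J * S2) + N * (θ * S2) := by gcongr
      _ = _ := by ring
  have hNr : (0:ℝ) < N := by exact_mod_cast hN1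
  have hgn : 0 ≤ gam J + θ := by positivity
  have hgN : g * N ≤ G := hG
  have hgN0 : 0 ≤ g * N := by positivity
  have e1 : (#Λ : ℝ) * ((⌊gam J * N⌋₊ : ℕ) : ℝ) ≤ N * (gam J * N) :=
    mul_le_mul hcardR hf1 (Nat.cast_nonneg _) (Nat.cast_nonneg _)
  have e2 : (((2 ^ (J + 1) * N : ℕ) : ℝ)) = 2 ^ (J + 1) * N := by push_cast; rfl
  rw [e2]
  calc g ^ 2 * (S2 * (#Λ * ((⌊gam J * N⌋₊ : ℕ) : ℝ)) + 2 ^ (J + 1) * N *
        √(#Λ * ((⌊gam J ^ 2 * N⌋₊ : ℕ) : ℝ) * S2 ^ 2 + (#Λ) ^ 2 * S4)) ≤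
      g ^ 2 * (S2 * (N * (gam J * N)) + 2 ^ (J + 1) * N * (N * ((gam J + θ) * S2))) := by
        gcongr
    _ = (g * N) ^ 2 * (S2 * (gam J + 2 ^ (J + 1) * (gam J + θ))) := by ring
    _ ≤ G ^ 2 * (S2 * (2 ^ (J + 2) * (gam J + θ))) := by
        have h1 : (g * N) ^ 2 ≤ G ^ 2 := pow_le_pow_left₀ hgN0 hgN 2
        have h2 : gam J + 2 ^ (J + 1) * (gam J + θ) ≤ 2 ^ (J + 2) * (gam J + θ) := by
          have h3 : (2:ℝ) ^ (J + 2) = 2 ^ (J + 1) + 2 ^ (J + 1) := by ring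
          have h4 : (1:ℝ) ≤ 2 ^ (J + 1) := one_le_pow₀ (by norm_num)
          have h5 : gam J + θ ≤ 2 ^ (J + 1) * (gam J + θ) := le_mul_of_one_le_left hgn h4
          rw [h3]
          linarith
        have h6 : 0 ≤ S2 * (gam J + 2 ^ (J + 1) * (gam J + θ)) := by positivity
        exact mul_le_mul h1 (mul_le_mul_of_nonneg_left h2 hS2n) h6 (sq_nonneg _)
    _ = _ := by ring

end Pool.Agent.Helper18.BF
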