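import Mathlib

open Complex MeasureTheory Set Filter
open scoped Real

namespace Pool.Agent.Helper18.BF

/-- `e x = exp (2 π i x)`. -/
noncomputable def e (x : ℝ) : ℂ := Complex.exp (2 * π * I * x)

lemma e_add (x y : ℝ) : e (x + y) = e x * e y := by
  unfold e
  rw [← Complex.exp_add]
  congr 1
  push_cast
  ring

lemma e_zero : e 0 = 1 := by simp [e]

lemma norm_e (x : ℝ) : ‖e x‖ = 1 := by
  unfold e
  rw [show (2 * π * I * x : ℂ) = ((2 * π * x : ℝ) : ℂ) * I by push_cast; ring]
  exact Complex.norm_exp_ofReal_mul_I _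

lemma e_int (n : ℤ) : e n = 1 := by
  unfold e
  rw [show (2 * π * I * ((n : ℝ) : ℂ) : ℂ) = n * (2 * π * I) by push_cast; ring]
  exact Complex.exp_int_mul_two_pi_mul_I n

lemma e_add_int (x : ℝ) (n : ℤ) : e (x + n) = e x := by
  rw [e_add, e_int, mul_one]

lemma e_neg (x : ℝ) : e (-x) = (starRingEnd ℂ) (e x) := by
  unfold e
  rw [← Complex.exp_conj]
  congr 1
  have h2 : (starRingEnd ℂ) 2 = 2 := Complex.conj_ofNat 2
  simp [Complex.conj_ofReal, h2]

lemma e_mul_neg (x : ℝ) : e x * e (-x) = 1 := by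
  rw [← e_add]; simp [e_zero]

lemma e_ne_zero (x : ℝ) : e x ≠ 0 := Complex.exp_ne_zero _

lemma e_sub (x y : ℝ) : e (x - y) = e x * (starRingEnd ℂ) (e y) := by
  rw [sub_eq_add_neg, e_add, e_neg]

lemma continuous_e : Continuous e := by
  unfold e
  fun_prop

lemma e_mul_fract (m : ℤ) (w : ℝ) : e (m * Int.fract w) = e (m * w) := by
  have : (m : ℝ) * w = m * Int.fract w + ((m * ⌊w⌋ : ℤ) : ℝ) := by
    conv_lhs => rw [← Int.fract_add_floor w]
    push_cast
    ring
  rw [this, e_add_int]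

lemma fourier_one_eq (m : ℤ) (x : ℝ) : fourier m (x : AddCircle (1:ℝ)) = e (m * x) := by
  rw [fourier_coe_apply]
  unfold e
  congr 1
  push_cast
  ring

/-- Pointwise Fourier series of a continuous function with summable coefficients. -/
theorem hasSum_fourier_pt (f : ℝ → ℂ) (hf : ContinuousOn f (Icc 0 1)) (h01 : f 0 = f 1)
    (hs : Summable (fun m : ℤ => ∫ x in (0:ℝ)..1, e (-(m * x)) * f x)) (w : ℝ) :
    HasSum (fun m : ℤ => (∫ x in (0:ℝ)..1, e (-(m * x)) * f x) * e (m * w))
      (f (Int.fract w)) := by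
  have : Fact (0 < (1:ℝ)) := ⟨one_pos⟩
  have hcont : Continuous (AddCircle.liftIco (1:ℝ) 0 f) := by
    apply AddCircle.liftIco_continuous
    · simpa using h01
    · simpa using hf
  let F : C(AddCircle (1:ℝ), ℂ) := ⟨AddCircle.liftIco (1:ℝ) 0 f, hcont⟩
  have hcoef : ∀ m : ℤ, fourierCoeff F m = ∫ x in (0:ℝ)..1, e (-(m * x)) * f x := by
    intro m
    have h1 : fourierCoeff F m = fourierCoeff (AddCircle.liftIco (1:ℝ) 0 f) m := rfl
    rw [h1, fourierCoeff_liftIco_eq, fourierCoeffOn_eq_integral]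
    simp only [zero_add, sub_zero, div_one, one_smul, smul_eq_mul]
    apply intervalIntegral.integral_congr
    intro x _
    simp only
    congr 1
    rw [fourier_coe_apply]
    unfold e
    congr 1
    push_cast
    ring
  have hsum : Summable (fourierCoeff F) := by
    refine hs.congr ?_
    intro m
    rw [hcoef]
  have key := has_pointwise_sum_fourier_series_of_summable hsum
    ((Int.fract w : ℝ) : AddCircle (1:ℝ))
  have hF : F ((Int.fract w : ℝ) : AddCircle (1:ℝ)) = f (Int.fract w) := by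
    show AddCircle.liftIco (1:ℝ) 0 f _ = _
    rw [AddCircle.liftIco_coe_apply]
    exact ⟨Int.fract_nonneg w, by simpa using Int.fract_lt_one w⟩
  rw [hF] at key
  convert key using 1
  ext m
  rw [hcoef, fourier_one_eq, e_mul_fract, smul_eq_mul]

/-- The basic integral over the window `[0, 1/K]`. -/
noncomputable def II (K : ℕ) (c : ℝ) : ℂ := ∫ x in (0:ℝ)..(1 / K), e (-(c * x))

lemma norm_II_le (K : ℕ) (c : ℝ) : ‖II K c‖ ≤ 1 / K := by
  unfold II
  have h := intervalIntegral.norm_integral_le_of_norm_le_const (a := (0:ℝ)) (b := 1 / K)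
    (C := 1) (f := fun x => e (-(c * x))) (fun x _ => (norm_e _).le)
  have h2 : |(1:ℝ) / K - 0| = 1 / K := by
    rw [sub_zero, abs_of_nonneg (by positivity)]
  rw [h2, one_mul] at h
  exact h

lemma II_eq (K : ℕ) {c : ℝ} (hc : c ≠ 0) :
    II K c = (1 - e (-(c / K))) / (2 * π * I * c) := by
  unfold II
  have hc2 : (-(2 * π * I * c) : ℂ) ≠ 0 := by
    simp [hc, Real.pi_ne_zero, I_ne_zero]
  have h1 : ∀ x : ℝ, e (-(c * x)) = Complex.exp ((-(2 * π * I * c)) * x) := by
    intro x
    unfold e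
    congr 1
    push_cast
    ring
  simp_rw [h1]
  rw [integral_exp_mul_complex hc2]
  have h3 : Complex.exp (-(2 * π * I * c) * ((1 / K : ℝ) : ℂ)) = e (-(c / K)) := by
    unfold e
    congr 1
    push_cast
    ring
  rw [h3]
  have hc3 : (2 * π * I * c : ℂ) ≠ 0 := by simpa using hc2
  simp only [ofReal_zero, mul_zero, Complex.exp_zero]
  rw [div_neg, ← neg_div]
  congr 1
  ring

lemma norm_one_sub_e_le (x : ℝ) : ‖1 - e x‖ ≤ 2 := by
  calc ‖1 - e x‖ ≤ ‖(1:ℂ)‖ + ‖e x‖ := norm_sub_le _ _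
    _ = 2 := by rw [norm_e, norm_one]; norm_num

lemma norm_two_pi_I (c : ℝ) : ‖(2 * π * I * c : ℂ)‖ = 2 * π * |c| := by
  rw [norm_mul, norm_mul, norm_mul]
  simp [abs_of_pos Real.pi_pos]

lemma norm_II_le' (K : ℕ) {c : ℝ} (hc : c ≠ 0) : ‖II K c‖ ≤ 1 / (π * |c|) := by
  rw [II_eq K hc, norm_div, norm_two_pi_I]
  have hc' : 0 < |c| := abs_pos.2 hc
  rw [div_le_div_iff₀ (by positivity) (by positivity)]
  have := norm_one_sub_e_le (-(c / K))
  nlinarith [Real.pi_pos, mul_pos Real.pi_pos hc']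

/-- Fourier coefficient of the window function. -/
noncomputable def tauHat (K : ℕ) (n m : ℤ) : ℂ := II K m - II K (m + n * K)

lemma tauHat_zero (K : ℕ) (m : ℤ) : tauHat K 0 m = 0 := by
  simp [tauHat]

lemma norm_tauHat_le (K : ℕ) (n m : ℤ) : ‖tauHat K n m‖ ≤ 2 / K := by
  unfold tauHat
  calc _ ≤ ‖II K m‖ + ‖II K (m + n * K)‖ := norm_sub_le _ _
    _ ≤ 1 / K + 1 / K := add_le_add (norm_II_le _ _) (norm_II_le _ _)
    _ = 2 / K := by ring

lemma tauHat_eq {K : ℕ} (hK : 0 < K) {n m : ℤ} (hm : m ≠ 0) (hmn : m + n * K ≠ 0) :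
    tauHat K n m = (1 - e (-(m / K))) / (2 * π * I) * ((n * K) / (m * (m + n * K))) := by
  unfold tauHat
  have hm' : (m : ℝ) ≠ 0 := by exact_mod_cast hm
  have hmn' : (m + n * K : ℝ) ≠ 0 := by exact_mod_cast hmn
  have hmc : (m : ℂ) ≠ 0 := by exact_mod_cast hm
  have hmnc : (m + n * K : ℂ) ≠ 0 := by exact_mod_cast hmn
  have hKr : (K : ℝ) ≠ 0 := by positivity
  rw [II_eq K hm', II_eq K hmn']
  have h1 : e (-((m + n * K : ℝ) / K)) = e (-((m:ℝ) / K)) := by
    have : -((m + n * K : ℝ) / K) = -((m:ℝ) / K) + ((-n : ℤ) : ℝ) := by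
      push_cast
      field_simp
      ring
    rw [this, e_add_int]
  rw [h1]
  have hpi : (π : ℂ) ≠ 0 := by exact_mod_cast Real.pi_ne_zero
  push_cast
  field_simp
  ring

lemma norm_tauHat_le' {K : ℕ} (hK : 0 < K) {n m : ℤ} (hm : m ≠ 0) (hmn : m + n * K ≠ 0) :
    ‖tauHat K n m‖ ≤ |(n : ℝ)| * K / (π * (|(m : ℝ)| * |(m + n * K : ℝ)|)) := by
  rw [tauHat_eq hK hm hmn]
  have hm' : 0 < |(m : ℝ)| := abs_pos.2 (by exact_mod_cast hm)
  have hmn' : 0 < |(m + n * K : ℝ)| := abs_pos.2 (by exact_mod_cast hmn)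
  have h1 : ‖(2 * π * I : ℂ)‖ = 2 * π := by
    have := norm_two_pi_I 1
    simpa using this
  rw [norm_mul, norm_div, norm_div, h1, norm_mul (n : ℂ), norm_mul (m : ℂ)]
  have h2 : ‖(n : ℂ)‖ = |(n : ℝ)| := by
    rw [← Complex.ofReal_intCast, Complex.norm_real, Real.norm_eq_abs]
  have h3 : ‖(m : ℂ)‖ = |(m : ℝ)| := by
    rw [← Complex.ofReal_intCast, Complex.norm_real, Real.norm_eq_abs]
  have h4 : ‖(m + n * K : ℂ)‖ = |(m + n * K : ℝ)| := by
    rw [← Real.norm_eq_abs, ← Complex.norm_real]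
    push_cast
    rfl
  have h5 : ‖(K : ℂ)‖ = K := by simp
  rw [h2, h3, h4, h5]
  have h6 := norm_one_sub_e_le (-((m:ℝ) / K))
  have h6' : ‖1 - e (-((m:ℝ) / K))‖ / (2 * π) ≤ 1 / π := by
    rw [div_le_div_iff₀ (by positivity) Real.pi_pos]
    nlinarith [Real.pi_pos]
  calc _ ≤ 1 / π * (|(n:ℝ)| * K / (|(m : ℝ)| * |(m + n * K : ℝ)|)) :=
        mul_le_mul_of_nonneg_right h6' (by positivity)
    _ = _ := by
      field_simp

/-- Truncated sawtooth. -/
noncomputable def mu (K : ℕ) (w : ℝ) : ℝ := min 1 (K * Int.fract w)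

lemma mu_le_one (K : ℕ) (w : ℝ) : mu K w ≤ 1 := min_le_left _ _

lemma mu_nonneg (K : ℕ) (w : ℝ) : 0 ≤ mu K w :=
  le_min zero_le_one (mul_nonneg (Nat.cast_nonneg _) (Int.fract_nonneg w))

/-- The window function. -/
noncomputable def tau (K : ℕ) (n : ℤ) (w : ℝ) : ℂ := 1 - e (-(n * mu K w))

lemma integral_window (K : ℕ) (hK : 0 < K) (n m : ℤ) :
    ∫ x in (0:ℝ)..1, e (-(m * x)) * (1 - e (-(n * min 1 (K * x)))) = tauHat K n m := by
  have hK' : (0:ℝ) < K := by exact_mod_cast hK
  have hK1 : (1:ℝ) ≤ K := by exact_mod_cast hK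
  have hle : (1:ℝ) / K ≤ 1 := by rw [div_le_one hK']; exact hK1
  have hcont : Continuous (fun x : ℝ => e (-(m * x)) * (1 - e (-(n * min 1 (K * x))))) := by
    have := continuous_e
    fun_prop
  rw [← intervalIntegral.integral_add_adjacent_intervals (b := (1:ℝ)/K)
    (hcont.intervalIntegrable _ _) (hcont.intervalIntegrable _ _)]
  have h2 : ∫ x in ((1:ℝ)/K)..1, e (-(m * x)) * (1 - e (-(n * min 1 (K * x)))) = 0 := by
    rw [intervalIntegral.integral_congr (g := fun _ => (0:ℂ))]
    · simp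
    · intro x hx
      rw [uIcc_of_le hle] at hx
      have : (1:ℝ) ≤ K * x := by
        have := hx.1
        rw [div_le_iff₀ hK'] at this
        linarith
      simp only
      rw [min_eq_left this]
      have : e (-((n:ℝ) * 1)) = 1 := by
        have := e_int (-n)
        push_cast at this
        rw [mul_one]
        exact this
      rw [this]
      simp
  rw [h2, add_zero]
  have h1 : ∫ x in (0:ℝ)..(1/K), e (-(m * x)) * (1 - e (-(n * min 1 (K * x)))) =
      ∫ x in (0:ℝ)..(1/K), (e (-(m * x)) - e (-((m + n * K) * x))) := by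
    apply intervalIntegral.integral_congr
    intro x hx
    rw [uIcc_of_le (by positivity)] at hx
    have : (K * x : ℝ) ≤ 1 := by
      have := hx.2
      rw [le_div_iff₀ hK'] at this
      linarith
    simp only
    rw [min_eq_right this, mul_sub, mul_one, ← e_add]
    congr 2
    ring
  rw [h1, intervalIntegral.integral_sub]
  · unfold tauHat II
    congr 1
  · apply Continuous.intervalIntegrable
    have := continuous_e
    fun_prop
  · apply Continuous.intervalIntegrable
    have := continuous_e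
    fun_prop

/-- A lemma for summability: away from the resonance the coefficient is `O(1/m^2)`. -/
lemma norm_tauHat_far {K : ℕ} (hK : 0 < K) {n m : ℤ} (hm : m ≠ 0)
    (h : 2 * (|(n:ℝ)| * K) ≤ |(m:ℝ)|) :
    ‖tauHat K n m‖ ≤ |(n : ℝ)| * K / (m : ℝ) ^ 2 := by
  have hm' : 0 < |(m : ℝ)| := abs_pos.2 (by exact_mod_cast hm)
  have h1 : |(m:ℝ)| / 2 ≤ |(m + n * K : ℝ)| := by
    have h2 : |(m:ℝ)| ≤ |(m + n * K : ℝ)| + |(n * K : ℝ)| := by
      have := abs_sub (m + n * K : ℝ) (n * K)
      simpa using this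
    have h3 : |(n * K : ℝ)| = |(n:ℝ)| * K := by
      rw [abs_mul]
      simp
    rw [h3] at h2
    linarith
  have hmn : m + n * K ≠ 0 := by
    intro h0
    have : (m + n * K : ℝ) = 0 := by exact_mod_cast h0
    rw [this, abs_zero] at h1
    linarith
  refine (norm_tauHat_le' hK hm hmn).trans ?_
  have hmn' : 0 < |(m + n * K : ℝ)| := abs_pos.2 (by exact_mod_cast hmn)
  rw [div_le_div_iff₀ (by positivity) (by positivity)]
  rw [← sq_abs (m:ℝ)]
  have h4 : |(m:ℝ)| ^ 2 ≤ π * (|(m : ℝ)| * |(m + n * K : ℝ)|) := by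
    have : |(m:ℝ)| ^ 2 ≤ 2 * (|(m : ℝ)| * |(m + n * K : ℝ)|) := by nlinarith
    have h5 : 2 ≤ π := Real.two_le_pi
    have h6 : 0 < |(m : ℝ)| * |(m + n * K : ℝ)| := by positivity
    nlinarith
  exact mul_le_mul_of_nonneg_left h4 (by positivity)

/-- The uniform bound through the skew coordinate. -/
lemma norm_tauHat_skew {K : ℕ} (hK : 0 < K) (n m : ℤ) :
    ‖tauHat K n m‖ ≤ 2 / max (K : ℝ) (min |(m : ℝ)| |(m + n * K : ℝ)|) := by
  have hK' : (0:ℝ) < K := by exact_mod_cast hK
  rcases le_total (min |(m : ℝ)| |(m + n * K : ℝ)|) (K:ℝ) with h | h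
  · rw [max_eq_left h]
    exact norm_tauHat_le K n m
  · rw [max_eq_right h]
    have hpos : 0 < min |(m : ℝ)| |(m + n * K : ℝ)| := lt_of_lt_of_le hK' h
    have hm' : 0 < |(m : ℝ)| := lt_of_lt_of_le hpos (min_le_left _ _)
    have hmn' : 0 < |(m + n * K : ℝ)| := lt_of_lt_of_le hpos (min_le_right _ _)
    have hm : m ≠ 0 := by
      intro h0
      rw [h0] at hm'
      simp at hm'
    have hmn : m + n * K ≠ 0 := by
      intro h0
      have : (m + n * K : ℝ) = 0 := by exact_mod_cast h0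
      rw [this] at hmn'
      simp at hmn'
    refine (norm_tauHat_le' hK hm hmn).trans ?_
    have h3 : |(n:ℝ)| * K ≤ |(m:ℝ)| + |(m + n * K : ℝ)| := by
      have h4 : |(n * K : ℝ)| = |(n:ℝ)| * K := by
        rw [abs_mul]
        simp
      rw [← h4]
      have := abs_sub (m + n * K : ℝ) (m : ℝ)
      rw [add_sub_cancel_left] at this
      linarith
    set x := |(m : ℝ)| with hx
    set y := |(m + n * K : ℝ)| with hy
    have h5 : x + y ≤ 2 * max x y := by
      have := le_max_left x y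
      have := le_max_right x y
      linarith
    have h6 : max x y * min x y = x * y := max_mul_min x y
    rw [div_le_div_iff₀ (by positivity) hpos]
    have h7 : |(n:ℝ)| * K * min x y ≤ 2 * (x * y) := by
      calc |(n:ℝ)| * K * min x y ≤ (2 * max x y) * min x y :=
            mul_le_mul_of_nonneg_right (h3.trans h5) hpos.le
        _ = 2 * (x * y) := by rw [mul_assoc, h6]
    have h8 : 1 ≤ π := by linarith [Real.two_le_pi]
    have h9 : 0 < x * y := by positivity
    nlinarith

lemma summable_tauHat {K : ℕ} (hK : 0 < K) (n : ℤ) : Summable (tauHat K n) := by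
  have hs : Summable (fun m : ℤ => |(n:ℝ)| * K * (1 / (m:ℝ) ^ 2)) :=
    (Real.summable_one_div_int_pow.2 (by norm_num)).mul_left _
  refine Summable.of_norm_bounded_eventually hs ?_
  have hfin : (Set.Icc (-(2 * |n| * K)) (2 * |n| * K) : Set ℤ).Finite := Set.finite_Icc _ _
  filter_upwards [hfin.compl_mem_cofinite] with m hm
  have hm2 : 2 * |n| * K < |m| := by
    by_contra hcon
    push Not at hcon
    exact hm (abs_le.1 hcon)
  have hm0 : m ≠ 0 := by
    rintro rfl
    have : (0:ℤ) ≤ 2 * |n| * K := by positivity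
    simp at hm2
    omega
  have hm3 : 2 * (|(n:ℝ)| * K) ≤ |(m:ℝ)| := by
    have : ((2 * |n| * K : ℤ) : ℝ) ≤ ((|m| : ℤ) : ℝ) := by exact_mod_cast hm2.le
    push_cast at this
    linarith
  have := norm_tauHat_far hK hm0 hm3
  rw [mul_one_div]
  exact this

theorem hasSum_tau {K : ℕ} (hK : 0 < K) (n : ℤ) (w : ℝ) :
    HasSum (fun m : ℤ => tauHat K n m * e (m * w)) (tau K n w) := by
  have hK' : (0:ℝ) < K := by exact_mod_cast hK
  have hK1 : (1:ℝ) ≤ K := by exact_mod_cast hK
  have hcont : Continuous (fun x : ℝ => 1 - e (-(n * min 1 (K * x)))) := by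
    have := continuous_e
    fun_prop
  have h := hasSum_fourier_pt (fun x : ℝ => 1 - e (-(n * min 1 (K * x)))) hcont.continuousOn
    (by
      rw [mul_zero, mul_one, min_eq_left hK1, min_eq_right zero_le_one, mul_zero, mul_one]
      have := e_int (-n)
      push_cast at this
      rw [this, neg_zero, e_zero])
    (by
      simp_rw [integral_window K hK]
      exact summable_tauHat hK n) w
  simp_rw [integral_window K hK] at h
  exact h

/-- Fourier coefficients of `min 1 (K x) - x`. -/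
noncomputable def rhoHat (K : ℕ) (m : ℤ) : ℂ :=
  ∫ x in (0:ℝ)..1, e (-(m * x)) * ((min 1 (K * x) - x : ℝ) : ℂ)

noncomputable def rho (K : ℕ) (w : ℝ) : ℝ := mu K w - Int.fract w

lemma rhoHat_eq {K : ℕ} (hK : 0 < K) {m : ℤ} (hm : m ≠ 0) :
    rhoHat K m = K / (2 * π * I * m) * II K m := by
  have hK' : (0:ℝ) < K := by exact_mod_cast hK
  have hK1 : (1:ℝ) ≤ K := by exact_mod_cast hK
  have hle : (1:ℝ) / K ≤ 1 := by rw [div_le_one hK']; exact hK1
  set f : ℝ → ℂ := fun x => ((min 1 (K * x) - x : ℝ) : ℂ) with hf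
  set f' : ℝ → ℂ := fun x => if x < 1 / K then (K - 1 : ℂ) else (-1 : ℂ) with hf'
  have hf0 : f 0 = 0 := by simp [hf]
  have hf1 : f 1 = 0 := by
    simp only [hf, mul_one]
    rw [min_eq_left hK1]
    simp
  have hcont : Continuous f := by
    simp only [hf]
    fun_prop
  have hint1 : IntervalIntegrable f' volume 0 (1/K) := by
    have h1 : IntervalIntegrable (fun _ : ℝ => (K - 1 : ℂ)) volume 0 (1/K) :=
      intervalIntegrable_const
    refine h1.congr_ae ?_
    rw [uIoc_of_le (by positivity)]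
    rw [← MeasureTheory.restrict_Ioo_eq_restrict_Ioc]
    filter_upwards [self_mem_ae_restrict measurableSet_Ioo] with x hx
    simp only [hf']
    rw [if_pos hx.2]
  have hint2 : IntervalIntegrable f' volume (1/K) 1 := by
    have h1 : IntervalIntegrable (fun _ : ℝ => (-1 : ℂ)) volume (1/K) 1 :=
      intervalIntegrable_const
    refine h1.congr_ae ?_
    rw [uIoc_of_le hle]
    filter_upwards [self_mem_ae_restrict measurableSet_Ioc] with x hx
    simp only [hf']
    rw [if_neg (not_lt.2 hx.1.le)]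
  have hint : IntervalIntegrable f' volume 0 1 := hint1.trans hint2
  have key := fourierCoeffOn_of_hasDeriv_right (a := 0) (b := 1) one_pos (f := f) (f' := f')
    hm hcont.continuousOn (by
      intro x hx
      rw [min_eq_left zero_le_one, max_eq_right zero_le_one] at hx
      by_cases hxK : x < 1 / K
      · have h1 : HasDerivAt (fun y : ℝ => ((K * y - y : ℝ) : ℂ)) (K - 1 : ℂ) x := by
          have : HasDerivAt (fun y : ℝ => (K * y - y : ℝ)) (K * 1 - 1) x :=
            ((hasDerivAt_id x).const_mul (K:ℝ)).sub (hasDerivAt_id x)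
          have h2 := this.ofReal_comp
          simpa using h2
        simp only [hf', if_pos hxK]
        apply HasDerivAt.hasDerivWithinAt
        refine h1.congr_of_eventuallyEq ?_
        have : Set.Iio ((1:ℝ)/K) ∈ nhds x := Iio_mem_nhds hxK
        filter_upwards [this] with y hy
        simp only [hf]
        rw [min_eq_right]
        have := (lt_div_iff₀ hK').1 hy
        linarith
      · have h1 : HasDerivAt (fun y : ℝ => ((1 - y : ℝ) : ℂ)) (-1 : ℂ) x := by
          have : HasDerivAt (fun y : ℝ => (1 - y : ℝ)) (-1) x := by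
            simpa using (hasDerivAt_id x).const_sub 1
          have h2 := this.ofReal_comp
          simpa using h2
        simp only [hf', if_neg hxK]
        refine h1.hasDerivWithinAt.congr (f := fun y : ℝ => ((1 - y : ℝ) : ℂ)) ?_ ?_
        · intro y hy
          simp only [hf]
          rw [min_eq_left]
          have hy' : (1:ℝ)/K ≤ y := (not_lt.1 hxK).trans (le_of_lt hy)
          have := (div_le_iff₀ hK').1 hy'
          linarith
        · simp only [hf]
          rw [min_eq_left]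
          have := (div_le_iff₀ hK').1 (not_lt.1 hxK)
          linarith)
    hint
  have hconv : ∀ g : ℝ → ℂ, fourierCoeffOn (a := 0) (b := 1) one_pos g m =
      ∫ x in (0:ℝ)..1, e (-(m * x)) * g x := by
    intro g
    rw [fourierCoeffOn_eq_integral]
    simp only [sub_zero, div_one, one_smul, smul_eq_mul]
    apply intervalIntegral.integral_congr
    intro x _
    simp only
    congr 1
    rw [fourier_coe_apply]
    unfold e
    congr 1
    push_cast
    ring
  rw [hconv, hconv, hf0, hf1] at key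
  have hR : rhoHat K m = ∫ x in (0:ℝ)..1, e (-(m * x)) * f x := rfl
  rw [hR, key]
  have he : Continuous (fun x : ℝ => e (-(m * x))) := by
    have := continuous_e
    fun_prop
  have h3 : ∫ x in (0:ℝ)..1, e (-(m * x)) * f' x = K * II K m := by
    rw [← intervalIntegral.integral_add_adjacent_intervals (b := (1:ℝ)/K)
      (hint1.continuousOn_mul he.continuousOn) (hint2.continuousOn_mul he.continuousOn)]
    have h4 : ∫ x in (0:ℝ)..(1/K), e (-(m * x)) * f' x =
        ∫ x in (0:ℝ)..(1/K), e (-(m * x)) * (K - 1) := by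
      apply intervalIntegral.integral_congr_Ioo_of_le (by positivity)
      intro x hx
      simp only [hf']
      rw [if_pos hx.2]
    have h5 : ∫ x in ((1:ℝ)/K)..1, e (-(m * x)) * f' x =
        ∫ x in ((1:ℝ)/K)..1, e (-(m * x)) * (-1) := by
      apply intervalIntegral.integral_congr
      intro x hx
      rw [uIcc_of_le hle] at hx
      simp only [hf']
      rw [if_neg (not_lt.2 hx.1)]
    rw [h4, h5, intervalIntegral.integral_mul_const, intervalIntegral.integral_mul_const]
    have h6 : (∫ x in (0:ℝ)..(1/K), e (-(m * x))) + ∫ x in ((1:ℝ)/K)..1, e (-(m * x)) = 0 := by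
      rw [intervalIntegral.integral_add_adjacent_intervals
        (he.intervalIntegrable _ _) (he.intervalIntegrable _ _)]
      have h7 : (∫ x in (0:ℝ)..1, e (-(m * x))) = II 1 m := by
        unfold II; simp
      rw [h7, II_eq 1 (by exact_mod_cast hm)]
      have := e_int (-m)
      push_cast at this
      simp [this]
    have h8 : (∫ x in (0:ℝ)..(1/K), e (-(m * x))) = II K m := rfl
    rw [h8] at h6 ⊢
    linear_combination (-1 : ℂ) * h6
  rw [h3]
  have hmc : (m : ℂ) ≠ 0 := by exact_mod_cast hm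
  have hpi : (π : ℂ) ≠ 0 := by exact_mod_cast Real.pi_ne_zero
  field_simp
  simp

lemma norm_rhoHat_le_one_div {K : ℕ} (hK : 0 < K) {m : ℤ} (hm : m ≠ 0) :
    ‖rhoHat K m‖ ≤ 1 / |(m:ℝ)| := by
  have hK' : (0:ℝ) < K := by exact_mod_cast hK
  have hm' : 0 < |(m : ℝ)| := abs_pos.2 (by exact_mod_cast hm)
  rw [rhoHat_eq hK hm, norm_mul, norm_div]
  have h1 : ‖(2 * π * I * m : ℂ)‖ = 2 * π * |(m:ℝ)| := by
    have := norm_two_pi_I (m:ℝ)
    push_cast at this
    exact this
  have h2 : ‖(K : ℂ)‖ = K := by simp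
  rw [h1, h2]
  have h3 := norm_II_le K m
  calc _ ≤ (K:ℝ) / (2 * π * |(m:ℝ)|) * (1 / K) := mul_le_mul_of_nonneg_left h3 (by positivity)
    _ = 1 / (2 * π * |(m:ℝ)|) := by field_simp
    _ ≤ 1 / |(m:ℝ)| := by
      apply one_div_le_one_div_of_le hm'
      have := Real.two_le_pi
      nlinarith

lemma norm_rhoHat_le_sq {K : ℕ} (hK : 0 < K) {m : ℤ} (hm : m ≠ 0) :
    ‖rhoHat K m‖ ≤ K / (m:ℝ) ^ 2 := by
  have hK' : (0:ℝ) < K := by exact_mod_cast hK
  have hm' : 0 < |(m : ℝ)| := abs_pos.2 (by exact_mod_cast hm)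
  rw [rhoHat_eq hK hm, norm_mul, norm_div]
  have h1 : ‖(2 * π * I * m : ℂ)‖ = 2 * π * |(m:ℝ)| := by
    have := norm_two_pi_I (m:ℝ)
    push_cast at this
    exact this
  have h2 : ‖(K : ℂ)‖ = K := by simp
  rw [h1, h2]
  have h3 := norm_II_le' K (c := m) (by exact_mod_cast hm)
  calc _ ≤ (K:ℝ) / (2 * π * |(m:ℝ)|) * (1 / (π * |(m:ℝ)|)) :=
        mul_le_mul_of_nonneg_left h3 (by positivity)
    _ = K / (2 * π ^ 2 * |(m:ℝ)| ^ 2) := by field_simp
    _ ≤ K / (m:ℝ) ^ 2 := by
      rw [sq_abs]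
      have hm2 : 0 < (m:ℝ) ^ 2 := by
        rw [← sq_abs]; positivity
      apply div_le_div_of_nonneg_left hK'.le hm2
      have := Real.two_le_pi
      nlinarith [sq_nonneg (π - 1)]

lemma norm_rhoHat_le_one (K : ℕ) (hK : 0 < K) (m : ℤ) : ‖rhoHat K m‖ ≤ 1 := by
  have hK1 : (1:ℝ) ≤ K := by exact_mod_cast hK
  unfold rhoHat
  have h := intervalIntegral.norm_integral_le_of_norm_le_const (a := (0:ℝ)) (b := 1)
    (C := 1) (f := fun x : ℝ => e (-(m * x)) * ((min 1 (K * x) - x : ℝ) : ℂ)) (by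
      intro x hx
      rw [uIoc_of_le zero_le_one] at hx
      rw [norm_mul, norm_e, one_mul, Complex.norm_real, Real.norm_eq_abs, abs_le]
      have h1 : min 1 (K * x) ≤ 1 := min_le_left _ _
      have h2 : 0 ≤ min 1 (K * x) := le_min zero_le_one (by nlinarith [hx.1])
      constructor <;> linarith [hx.1, hx.2])
  simpa using h

lemma summable_rhoHat {K : ℕ} (hK : 0 < K) : Summable (rhoHat K) := by
  have hs : Summable (fun m : ℤ => (K:ℝ) * (1 / (m:ℝ) ^ 2)) :=
    (Real.summable_one_div_int_pow.2 (by norm_num)).mul_left _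
  refine Summable.of_norm_bounded_eventually hs ?_
  have hfin : ({0} : Set ℤ).Finite := Set.finite_singleton _
  filter_upwards [hfin.compl_mem_cofinite] with m hm
  rw [mul_one_div]
  exact norm_rhoHat_le_sq hK hm

theorem hasSum_rho {K : ℕ} (hK : 0 < K) (w : ℝ) :
    HasSum (fun m : ℤ => rhoHat K m * e (m * w)) ((rho K w : ℝ) : ℂ) := by
  have hK' : (0:ℝ) < K := by exact_mod_cast hK
  have hK1 : (1:ℝ) ≤ K := by exact_mod_cast hK
  have hcont : Continuous (fun x : ℝ => ((min 1 (K * x) - x : ℝ) : ℂ)) := by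
    fun_prop
  exact hasSum_fourier_pt (fun x : ℝ => ((min 1 (K * x) - x : ℝ) : ℂ)) hcont.continuousOn
    (by
      rw [mul_zero, mul_one, min_eq_left hK1, min_eq_right zero_le_one]
      simp)
    (summable_rhoHat hK) w

end Pool.Agent.Helper18.BF
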