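import Pool.Agent.Helper18.BFSingle

open scoped Real
open Finset

namespace Pool.Agent.Helper18.BF

lemma exists_le_avR {L d q : ℕ} (hq : 0 < q) (F : ZZ L d q → ℝ) : ∃ Z, F Z ≤ avR F := by
  by_contra hcon
  push Not at hcon
  have hne : Nonempty (Fin q) := ⟨⟨0, hq⟩⟩
  have h1 : ∑ _Z : ZZ L d q, avR F < ∑ Z, F Z :=
    Finset.sum_lt_sum_of_nonempty Finset.univ_nonempty (fun Z _ => hcon Z)
  rw [Finset.sum_const, Finset.card_univ, nsmul_eq_mul] at h1
  have hc : (0:ℝ) < Fintype.card (ZZ L d q) := by exact_mod_cast Fintype.card_pos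
  have h2 : (Fintype.card (ZZ L d q) : ℝ) * avR F = ∑ Z, F Z := by
    unfold avR
    field_simp
  rw [h2] at h1
  exact lt_irrefl _ h1

/-- The result for the integer lattices. -/
theorem main_Zd {ι : Type*} [Fintype ι] (d : ℕ) (s : ι → Finset (Fin d → ℤ))
    (f : ι → (Fin d → ℤ) → ℝ) : ∃ χ : (Fin d → ℤ) → ℝ, (∀ x, χ x = 1 ∨ χ x = -1) ∧
      ∀ i x, (∑ a ∈ s i, f i a * χ (x + a)) ^ 2 ≤ CC * ∑ i, ∑ a ∈ s i, f i a ^ 2 := by
  choose J0 hJ0 using (fun i => single_bound d (s i) (f i))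
  have hle : ∀ (φ : ι → ℕ) (i : ι), φ i ≤ ∑ i, φ i := fun φ i =>
    Finset.single_le_sum (f := φ) (fun _ _ => Nat.zero_le _) (Finset.mem_univ i)
  set Jm : ℕ := ∑ i, J0 i with hJm
  choose q0 hq0 using (fun i => hJ0 i Jm (hle J0 i) Jm le_rfl)
  set q : ℕ := ∑ i, q0 i + 1 with hq
  have hqpos : 0 < q := by omega
  choose X hX0 hX hXa using (fun i => hq0 i q (by have := hle q0 i; omega) hqpos)
  obtain ⟨Z, hZ⟩ := exists_le_avR hqpos (fun Z => ∑ i, X i Z)
  rw [avR_sum] at hZ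
  refine ⟨fun x => 2 * cc Jm K0 (1 / 2) (uu Z x) - 1, ?_, ?_⟩
  · intro x
    rcases (cc_props Jm K0 (uu Z x)).1 (1 / 2) (by norm_num) (by norm_num) with h | h
    · right
      simp only
      rw [h]
      norm_num
    · left
      simp only
      rw [h]
      norm_num
  · intro i x
    have h1 := hX i Z (uu Z x)
    have h2 : ∀ a, uu Z (x + a) = fun l => uu Z x l + uu Z a l := by
      intro a
      ext l
      exact uu_add Z x a l
    simp only
    simp_rw [h2]
    refine h1.trans ?_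
    calc X i Z ≤ ∑ i, X i Z :=
          Finset.single_le_sum (f := fun i => X i Z) (fun i _ => hX0 i Z) (Finset.mem_univ i)
      _ ≤ ∑ i, avR (X i) := hZ
      _ ≤ ∑ i, CC * ∑ a ∈ s i, f i a ^ 2 := Finset.sum_le_sum (fun i _ => hXa i)
      _ = _ := by rw [Finset.mul_sum]

/-- The result for finitely generated torsion-free groups. -/
theorem main_fg {ι : Type*} [Fintype ι] {H : Type*} [AddCommGroup H] [IsAddTorsionFree H]
    [Module.Finite ℤ H] (s : ι → Finset H)
    (f : ι → H → ℝ) : ∃ χ : H → ℝ, (∀ x, χ x = 1 ∨ χ x = -1) ∧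
      ∀ i x, (∑ a ∈ s i, f i a * χ (x + a)) ^ 2 ≤ CC * ∑ i, ∑ a ∈ s i, f i a ^ 2 := by
  classical
  have : Module.Free ℤ H := inferInstance
  let b := Module.finBasis ℤ H
  let φ : H ≃ₗ[ℤ] (Fin (Module.finrank ℤ H) → ℤ) := b.equivFun
  obtain ⟨χ, h1, h2⟩ := main_Zd (Module.finrank ℤ H) (fun i => (s i).map φ.toEquiv.toEmbedding)
    (fun i y => f i (φ.symm y))
  refine ⟨fun x => χ (φ x), fun x => h1 _, ?_⟩
  intro i x
  have h3 := h2 i (φ x)
  simp only [Finset.sum_map] at h3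
  have h4 : ∀ a : H, φ.symm (φ.toEquiv.toEmbedding a) = a := fun a => φ.symm_apply_apply a
  simp_rw [h4] at h3
  have h5 : ∀ a : H, φ x + φ.toEquiv.toEmbedding a = φ (x + a) := fun a => (map_add φ x a).symm
  simp_rw [h5] at h3
  exact h3

/-- The result for torsion-free abelian groups. -/
theorem main_group {ι : Type*} [Fintype ι] {G : Type*} [AddCommGroup G] [IsAddTorsionFree G]
    (s : ι → Finset G) (f : ι → G → ℝ) : ∃ χ : G → ℝ, (∀ x, χ x = 1 ∨ χ x = -1) ∧
      ∀ i x, (∑ a ∈ s i, f i a * χ (x + a)) ^ 2 ≤ CC * ∑ i, ∑ a ∈ s i, f i a ^ 2 := by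
  classical
  set A : Finset G := Finset.univ.biUnion s with hA
  set H : AddSubgroup G := AddSubgroup.closure (A : Set G) with hH
  have hfin : AddGroup.FG H := (AddGroup.fg_iff_addSubgroup_fg H).2 ⟨A, hH.symm⟩
  have hmod : Module.Finite ℤ H := Module.Finite.iff_addGroup_fg.2 hfin
  have hmem : ∀ i, ∀ a ∈ s i, a ∈ H := by
    intro i a ha
    apply AddSubgroup.subset_closure
    rw [mem_coe, hA, Finset.mem_biUnion]
    exact ⟨i, Finset.mem_univ i, ha⟩
  obtain ⟨χ, h1, h2⟩ := main_fg (H := H) (fun i => (s i).subtype (· ∈ H))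
    (fun i (y : H) => f i (y : G))
  -- coset representatives
  have hrep : ∀ x : G, x - (QuotientAddGroup.mk (s := H) x).out ∈ H := by
    intro x
    have h3 := QuotientAddGroup.out_eq' (QuotientAddGroup.mk (s := H) x)
    have h4 := (QuotientAddGroup.eq (s := H)).1 h3
    have h5 : x - (QuotientAddGroup.mk (s := H) x).out =
      -(QuotientAddGroup.mk (s := H) x).out + x := by abel
    rw [h5]
    exact h4
  refine ⟨fun x => χ ⟨x - (QuotientAddGroup.mk (s := H) x).out, hrep x⟩, fun x => h1 _, ?_⟩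
  intro i x
  have h3 := h2 i ⟨x - (QuotientAddGroup.mk (s := H) x).out, hrep x⟩
  have hsum : ∀ (i : ι) (g : G → ℝ), ∑ a ∈ (s i).subtype (· ∈ H), g (a : G) =
      ∑ a ∈ s i, g a := by
    intro i g
    rw [Finset.sum_subtype_of_mem g (hmem i)]
  have h4 : ∀ a ∈ s i, (QuotientAddGroup.mk (s := H) (x + a)) = QuotientAddGroup.mk (s := H) x := by
    intro a ha
    rw [QuotientAddGroup.eq]
    have : -(x + a) + x = -a := by abel
    rw [this]
    exact H.neg_mem (hmem i a ha)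
  have h5 : ∑ a ∈ s i, f i a * χ ⟨(x + a) - (QuotientAddGroup.mk (s := H) (x + a)).out,
      hrep (x + a)⟩ = ∑ a ∈ (s i).subtype (· ∈ H), f i (a : G) *
        χ (⟨x - (QuotientAddGroup.mk (s := H) x).out, hrep x⟩ + a) := by
    rw [← hsum i (fun a => f i a * χ ⟨(x + a) - (QuotientAddGroup.mk (s := H) (x + a)).out,
      hrep (x + a)⟩)]
    apply Finset.sum_congr rfl
    intro a ha
    rw [Finset.mem_subtype] at ha
    congr 2
    apply Subtype.ext
    simp only [AddSubgroup.coe_add]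
    rw [h4 _ ha]
    abel
  rw [h5]
  refine h3.trans (le_of_eq ?_)
  congr 1
  apply Finset.sum_congr rfl
  intro j _
  exact hsum j (fun a => f j a ^ 2)

end Pool.Agent.Helper18.BF
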