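import Pool.Agent.Helper18.BFTail

open scoped Real ENNReal
open Finset

namespace Pool.Agent.Helper18.BF

/-- Range of the dyadic sizes. -/
def DmJ (J : ℕ) : ℕ := 4 * kR J + 4 * J + 1

lemma log_le_DmJ (J : ℕ) (m : Fin (J + 1) → ℤ) (hm : ∀ l, |m l| ≤ ((2 ^ (4 * kR J) : ℕ) : ℤ))
    (ε : Fin (J + 1) → Bool) (l : Fin (J + 1)) :
    Nat.log 2 (Lsk J K0 ε m l).natAbs ≤ DmJ J := by
  have h1 := Lsk_abs_le J K0 (2 ^ (4 * J)) (by
    intro i hi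
    unfold K0
    rw [show (16:ℕ) = 2 ^ 4 by norm_num, ← pow_mul]
    exact Nat.pow_le_pow_right (by norm_num) (by omega)) ε m (2 ^ (4 * kR J)) hm l
  have h2 : (Lsk J K0 ε m l).natAbs ≤ (1 + 2 ^ (4 * J)) * 2 ^ (4 * kR J) := by
    rw [Int.abs_eq_natAbs] at h1
    exact_mod_cast h1
  have h3 : (1 + 2 ^ (4 * J)) * 2 ^ (4 * kR J) ≤ 2 ^ DmJ J := by
    have e1 : 1 ≤ 2 ^ (4 * J) := Nat.one_le_two_pow
    calc (1 + 2 ^ (4 * J)) * 2 ^ (4 * kR J) ≤ (2 * 2 ^ (4 * J)) * 2 ^ (4 * kR J) :=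
          Nat.mul_le_mul_right _ (by omega)
      _ = 2 ^ DmJ J := by
          unfold DmJ
          rw [pow_add, pow_add, pow_one]
          ring
  calc Nat.log 2 (Lsk J K0 ε m l).natAbs ≤ Nat.log 2 (2 ^ DmJ J) :=
        Nat.log_mono_right (h2.trans h3)
    _ = DmJ J := Nat.log_pow (by norm_num) _

/-- Threshold. -/
noncomputable def thr (J : ℕ) : ℝ := 1 / 2 ^ ((J + 1) ^ 2)

lemma thr_pos (J : ℕ) : 0 < thr J := by unfold thr; positivity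

/-- Final constant of a level. -/
noncomputable def Gam (J : ℕ) : ℝ :=
  3 * ((2 ^ (J + 1) * ((DmJ J + 1 : ℕ) : ℝ) ^ (J + 1)) ^ 2 *
        ((4 * 12 ^ (J + 1)) ^ 2 * (2 ^ (J + 2) * (gam J + thr J)))) + 6 * (1 / 4) ^ J

lemma four_le {d : ℕ} (s : Finset (Fin d → ℤ)) (f : (Fin d → ℤ) → ℝ) {S2 θ : ℝ} (hS2 : 0 ≤ S2)
    (hθ : 0 ≤ θ) (hS : ∑ a ∈ s, f a ^ 2 ≤ S2) (hf : ∀ a ∈ s, |f a| ≤ θ * √S2) :
    √(∑ a ∈ s, f a ^ 4) ≤ θ * S2 := by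
  rw [show θ * S2 = √((θ * S2) ^ 2) from (Real.sqrt_sq (by positivity)).symm]
  apply Real.sqrt_le_sqrt
  calc ∑ a ∈ s, f a ^ 4 ≤ ∑ a ∈ s, (θ ^ 2 * S2) * f a ^ 2 := by
        apply Finset.sum_le_sum
        intro a ha
        have h1 : f a ^ 2 ≤ (θ * √S2) ^ 2 := by
          rw [← sq_abs]
          exact pow_le_pow_left₀ (abs_nonneg _) (hf a ha) 2
        rw [mul_pow, Real.sq_sqrt hS2] at h1
        have h2 := sq_nonneg (f a)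
        nlinarith
    _ = (θ ^ 2 * S2) * ∑ a ∈ s, f a ^ 2 := by rw [Finset.mul_sum]
    _ ≤ (θ ^ 2 * S2) * S2 := by gcongr
    _ = _ := by ring

lemma norm_hh_le {L d q D : ℕ} (s : Finset (Fin d → ℤ)) (f : (Fin d → ℤ) → ℝ)
    (m : Fin D → ℤ) (Z : ZZ L d q) : ‖hh s f m Z‖ ≤ ∑ a ∈ s, |f a| := by
  unfold hh
  refine (norm_sum_le _ _).trans (le_of_eq ?_)
  apply Finset.sum_congr rfl
  intro a _
  rw [norm_mul, norm_e, mul_one, Complex.norm_real, Real.norm_eq_abs]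

lemma hasSum_level {L d q : ℕ} (J : ℕ) (s : Finset (Fin d → ℤ)) (f : (Fin d → ℤ) → ℝ)
    (Z : ZZ L d q) (y : ℕ → ℝ) :
    HasSum (fun m : Fin (J + 1) → ℤ => cf J m * hh s f m Z * e (dotu m y))
      ((∑ a ∈ s, f a * (2 * del J K0 (1 / 2) (fun l => y l + uu Z a l)) : ℝ) : ℂ) := by
  have h1 : HasSum (fun m : Fin (J + 1) → ℤ => ∑ a ∈ s, (f a : ℂ) * (2 *
      (aa J K0 m * (1 - e (-(m 0 * (1 / 2)))) * e (dotu m (fun l => y l + uu Z a l)))))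
      (∑ a ∈ s, (f a : ℂ) * (2 * ((del J K0 (1 / 2) (fun l => y l + uu Z a l) : ℝ) : ℂ))) := by
    apply hasSum_sum
    intro a _
    exact ((hasSum_del J K0 K0_pos (1 / 2) (fun l => y l + uu Z a l)).mul_left 2).mul_left _
  have h2 : (fun m : Fin (J + 1) → ℤ => cf J m * hh s f m Z * e (dotu m y)) =
      (fun m : Fin (J + 1) → ℤ => ∑ a ∈ s, (f a : ℂ) * (2 *
      (aa J K0 m * (1 - e (-(m 0 * (1 / 2)))) * e (dotu m (fun l => y l + uu Z a l))))) := by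
    ext m
    unfold hh cf
    rw [Finset.mul_sum, Finset.sum_mul]
    apply Finset.sum_congr rfl
    intro a _
    rw [dotu_add, e_add]
    ring
  rw [h2]
  push_cast
  exact h1

lemma q_arith (R : ℕ) (A B : ℤ) (hA0 : 0 ≤ A) (hB0 : 0 ≤ B) (q : ℕ)
    (hq : (4 * (((R:ℤ) + B) * A)).toNat + 1 ≤ q) :
    4 * ((R:ℤ) * A) < q ∧ 4 * (B * A) < q := by
  have h1 : (4 * (((R:ℤ) + B) * A)) ≤ ((4 * (((R:ℤ) + B) * A)).toNat : ℤ) :=
    Int.self_le_toNat _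
  have h2 : (((4 * (((R:ℤ) + B) * A)).toNat + 1 : ℕ) : ℤ) ≤ q := by exact_mod_cast hq
  push_cast at h2
  have hRA : 0 ≤ (R:ℤ) * A := mul_nonneg (Int.natCast_nonneg R) hA0
  have hBA : 0 ≤ B * A := mul_nonneg hB0 hA0
  have h3 : 4 * (((R:ℤ) + B) * A) = 4 * ((R:ℤ) * A) + 4 * (B * A) := by ring
  constructor <;> linarith

/-- The bound for one level, with an abstract cutoff. -/
theorem level_bound_aux {d : ℕ} (J : ℕ) (R : ℕ)
    (hR1 : ∀ m : Fin (J + 1) → ℤ, (∀ l, |m l| ≤ (R:ℤ)) → ∀ (ε : Fin (J + 1) → Bool) l,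
      Nat.log 2 (Lsk J K0 ε m l).natAbs ≤ DmJ J)
    (hR2 : ∀ F : Finset (Fin (J + 1) → ℤ), (∀ m ∈ F, ∃ l, (R:ℤ) < |m l|) →
      ∑ m ∈ F, ‖cf J m‖ ≤ (1 / 2) ^ J) (s : Finset (Fin d → ℤ)) (f : (Fin d → ℤ) → ℝ) (S2 : ℝ)
    (hS2 : 0 < S2) (hS : ∑ a ∈ s, f a ^ 2 ≤ S2) (hf : ∀ a ∈ s, |f a| ≤ thr J * √S2)
    (L : ℕ) (hL : J + 1 ≤ L) :
    ∃ q0 : ℕ, ∀ q, q0 ≤ q → 0 < q → ∃ X : ZZ L d q → ℝ, (∀ Z, 0 ≤ X Z) ∧
      (∀ Z (y : ℕ → ℝ), (∑ a ∈ s, f a * (2 * del J K0 (1 / 2)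
        (fun l => y l + uu Z a l))) ^ 2 ≤ X Z) ∧ avR X ≤ S2 * Gam J := by
  classical
  set S1 : ℝ := ∑ a ∈ s, |f a| with hS1
  have hS1n : 0 ≤ S1 := Finset.sum_nonneg (fun a _ => abs_nonneg _)
  have hδ : 0 < (1 / 2) ^ J * √S2 / (S1 + 1) := by
    have := Real.sqrt_pos.2 hS2
    positivity
  obtain ⟨F, hF1, hF⟩ := exists_fin_tail J hδ (Lcut J R)
  obtain ⟨A, hA0, hA⟩ := exists_bd s
  obtain ⟨B, hB0, hB⟩ := exists_bd F
  refine ⟨(4 * (((R:ℤ) + B) * A)).toNat + 1, ?_⟩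
  intro q hq hq0
  obtain ⟨hq1, hq2⟩ := q_arith R A B hA0 hB0 q hq
  obtain ⟨X1, hX1n, hX1, hX1a⟩ := block_bound hq0 hL s f R (DmJ J)
    hR1 A hA hq1 S2 (thr J) (thr_pos J).le hS
    (four_le s f hS2.le (thr_pos J).le hS hf)
  set F' : Finset (Fin (J + 1) → ℤ) := (F \ Lcut J R).erase 0 with hF'
  have hF'mem : ∀ m ∈ F', m ∈ F ∧ m ≠ 0 ∧ ∃ l, (R : ℤ) < |m l| := by
    intro m hm
    rw [hF', mem_erase, mem_sdiff] at hm
    refine ⟨hm.2.1, hm.1, ?_⟩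
    by_contra hcon
    push Not at hcon
    exact hm.2.2 (mem_Lcut.2 ⟨hm.1, hcon⟩)
  have hmass : ∑ m ∈ F', ‖cf J m‖ ≤ (1 / 2) ^ J := hR2 F' (fun m hm => (hF'mem m hm).2.2)
  have hmass0 : 0 ≤ ∑ m ∈ F', ‖cf J m‖ := Finset.sum_nonneg (fun m _ => norm_nonneg _)
  refine ⟨fun Z => 3 * X1 Z + 3 * ((∑ m ∈ F', ‖cf J m‖) * ∑ m ∈ F', ‖cf J m‖ *
    ‖hh s f m Z‖ ^ 2) + 3 * ((1 / 4) ^ J * S2), ?_, ?_, ?_⟩
  · intro Z
    have := hX1n Z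
    positivity
  · intro Z y
    set T : ℝ := ∑ a ∈ s, f a * (2 * del J K0 (1 / 2) (fun l => y l + uu Z a l)) with hT
    set g : (Fin (J + 1) → ℤ) → ℂ := fun m => cf J m * hh s f m Z * e (dotu m y) with hg
    have hsum : HasSum g ((T:ℝ) : ℂ) := hasSum_level J s f Z y
    have h1 := hF g T S1 hS1n (by
      intro m
      rw [hg]
      simp only [norm_mul, norm_e, mul_one]
      rw [mul_comm]
      exact mul_le_mul_of_nonneg_right (norm_hh_le s f m Z) (norm_nonneg _)) hsum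
    have h2 : S1 * ((1 / 2) ^ J * √S2 / (S1 + 1)) ≤ (1 / 2) ^ J * √S2 := by
      rw [mul_div_assoc', div_le_iff₀ (by linarith)]
      have : 0 ≤ (1 / 2) ^ J * √S2 := by positivity
      nlinarith
    have h3 := h1.trans h2
    have h4 : ∑ m ∈ F, g m = ∑ m ∈ Lcut J R, g m + ∑ m ∈ F', g m := by
      rw [← Finset.sum_sdiff hF1, add_comm]
      congr 1
      rw [hF']
      by_cases h0 : (0 : Fin (J + 1) → ℤ) ∈ F \ Lcut J R
      · rw [← Finset.add_sum_erase _ _ h0]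
        have : g 0 = 0 := by
          rw [hg]
          simp only
          rw [cf_zero, zero_mul, zero_mul]
        rw [this, zero_add]
      · rw [Finset.erase_eq_of_notMem h0]
    rw [h4] at h3
    have h5 : ‖∑ m ∈ F', g m‖ ^ 2 ≤ (∑ m ∈ F', ‖cf J m‖) * ∑ m ∈ F', ‖cf J m‖ *
        ‖hh s f m Z‖ ^ 2 := by
      have e1 : ‖∑ m ∈ F', g m‖ ≤ ∑ m ∈ F', √‖cf J m‖ * (√‖cf J m‖ * ‖hh s f m Z‖) := by
        refine (norm_sum_le _ _).trans (le_of_eq ?_)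
        apply Finset.sum_congr rfl
        intro m _
        rw [hg]
        simp only [norm_mul, norm_e, mul_one]
        rw [← mul_assoc, Real.mul_self_sqrt (norm_nonneg _)]
      have e2 := Finset.sum_mul_sq_le_sq_mul_sq F' (fun m => √‖cf J m‖)
        (fun m => √‖cf J m‖ * ‖hh s f m Z‖)
      refine (pow_le_pow_left₀ (norm_nonneg _) e1 2).trans (e2.trans (le_of_eq ?_))
      congr 1
      · apply Finset.sum_congr rfl
        intro m _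
        rw [Real.sq_sqrt (norm_nonneg _)]
      · apply Finset.sum_congr rfl
        intro m _
        rw [mul_pow, Real.sq_sqrt (norm_nonneg _)]
    have h6 := hX1 Z y
    have h7 : |T| ≤ ‖∑ m ∈ Lcut J R, g m‖ + ‖∑ m ∈ F', g m‖ + (1 / 2) ^ J * √S2 := by
      have e1 : |T| = ‖((T:ℝ):ℂ)‖ := by rw [Complex.norm_real, Real.norm_eq_abs]
      have e2 : ((T:ℝ):ℂ) = ∑ m ∈ Lcut J R, g m + ∑ m ∈ F', g m + (((T:ℝ):ℂ) -
          (∑ m ∈ Lcut J R, g m + ∑ m ∈ F', g m)) := by ring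
      rw [e1]
      calc ‖((T:ℝ):ℂ)‖ = ‖∑ m ∈ Lcut J R, g m + ∑ m ∈ F', g m + (((T:ℝ):ℂ) -
          (∑ m ∈ Lcut J R, g m + ∑ m ∈ F', g m))‖ := congrArg _ e2
        _ ≤ ‖∑ m ∈ Lcut J R, g m + ∑ m ∈ F', g m‖ + ‖(((T:ℝ):ℂ) -
          (∑ m ∈ Lcut J R, g m + ∑ m ∈ F', g m))‖ := norm_add_le _ _
        _ ≤ _ := by
          have := norm_add_le (∑ m ∈ Lcut J R, g m) (∑ m ∈ F', g m)
          linarith
    have h8 : T ^ 2 ≤ (‖∑ m ∈ Lcut J R, g m‖ + ‖∑ m ∈ F', g m‖ + (1 / 2) ^ J * √S2) ^ 2 := by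
      rw [← sq_abs]
      exact pow_le_pow_left₀ (abs_nonneg _) h7 2
    have h9 : ((1 / 2) ^ J * √S2) ^ 2 = (1 / 4) ^ J * S2 := by
      rw [mul_pow, Real.sq_sqrt hS2.le, ← pow_mul, mul_comm J 2, pow_mul]
      norm_num
    have h10 : ∀ a b c : ℝ, (a + b + c) ^ 2 ≤ 3 * a ^ 2 + 3 * b ^ 2 + 3 * c ^ 2 := by
      intro a b c
      nlinarith [sq_nonneg (a - b), sq_nonneg (b - c), sq_nonneg (a - c)]
    have h11 := h10 ‖∑ m ∈ Lcut J R, g m‖ ‖∑ m ∈ F', g m‖ ((1 / 2) ^ J * √S2)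
    rw [h9] at h11
    have h12 : ‖∑ m ∈ Lcut J R, g m‖ ^ 2 ≤ X1 Z := h6
    linarith
  · rw [avR_add, avR_add, avR_mul_left, avR_mul_left, avR_mul_left, avR_sum, avR_const hq0]
    have h1 : ∑ m ∈ F', avR (fun Z : ZZ L d q => ‖cf J m‖ * ‖hh s f m Z‖ ^ 2) ≤
        (1 / 2) ^ J * S2 := by
      calc _ ≤ ∑ m ∈ F', ‖cf J m‖ * S2 := by
            apply Finset.sum_le_sum
            intro m hm
            obtain ⟨m1, m2, _⟩ := hF'mem m hm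
            rw [avR_mul_left, moment_one hq0 hL s f m A B hA (hB m m1) hq2 m2]
            exact mul_le_mul_of_nonneg_left hS (norm_nonneg _)
        _ ≤ _ := by
            rw [← Finset.sum_mul]
            exact mul_le_mul_of_nonneg_right hmass hS2.le
    have h2 : (∑ m ∈ F', ‖cf J m‖) * ∑ m ∈ F', avR (fun Z : ZZ L d q => ‖cf J m‖ *
        ‖hh s f m Z‖ ^ 2) ≤ (1 / 4) ^ J * S2 := by
      have h3 : 0 ≤ ∑ m ∈ F', avR (fun Z : ZZ L d q => ‖cf J m‖ * ‖hh s f m Z‖ ^ 2) :=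
        Finset.sum_nonneg (fun m _ => avR_nonneg (fun Z => by positivity))
      calc _ ≤ (1 / 2) ^ J * ((1 / 2) ^ J * S2) := mul_le_mul hmass h1 h3 (by positivity)
        _ = _ := by
            rw [← mul_assoc, ← mul_pow]
            norm_num
    unfold Gam
    have h4 : (3:ℝ) * avR X1 ≤ 3 * (S2 * ((2 ^ (J + 1) * ((DmJ J + 1 : ℕ) : ℝ) ^ (J + 1)) ^ 2 *
        ((4 * 12 ^ (J + 1)) ^ 2 * (2 ^ (J + 2) * (gam J + thr J))))) := by linarith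
    linarith

/-- The bound for one level. -/
theorem level_bound {d : ℕ} (J : ℕ) (s : Finset (Fin d → ℤ)) (f : (Fin d → ℤ) → ℝ) (S2 : ℝ)
    (hS2 : 0 < S2) (hS : ∑ a ∈ s, f a ^ 2 ≤ S2) (hf : ∀ a ∈ s, |f a| ≤ thr J * √S2)
    (L : ℕ) (hL : J + 1 ≤ L) :
    ∃ q0 : ℕ, ∀ q, q0 ≤ q → 0 < q → ∃ X : ZZ L d q → ℝ, (∀ Z, 0 ≤ X Z) ∧
      (∀ Z (y : ℕ → ℝ), (∑ a ∈ s, f a * (2 * del J K0 (1 / 2)
        (fun l => y l + uu Z a l))) ^ 2 ≤ X Z) ∧ avR X ≤ S2 * Gam J := by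
  exact level_bound_aux J (2 ^ (4 * kR J)) (fun m hm ε l => log_le_DmJ J m hm ε l)
    (fun F hF => tail_mass J F hF) s f S2 hS2 hS hf L hL

end Pool.Agent.Helper18.BF
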