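import Pool.Agent.Helper18.BFFourier

open scoped Real ComplexConjugate
open Finset

namespace Pool.Agent.Helper18.BF

section

variable {L d q : ℕ}

/-- Parameter space of the random characters. -/
abbrev ZZ (L d q : ℕ) : Type := Fin L → Fin d → Fin q

/-- Average of a complex function. -/
noncomputable def av (F : ZZ L d q → ℂ) : ℂ := (∑ Z, F Z) / (Fintype.card (ZZ L d q) : ℂ)

/-- Average of a real function. -/
noncomputable def avR (F : ZZ L d q → ℝ) : ℝ := (∑ Z, F Z) / (Fintype.card (ZZ L d q) : ℝ)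

/-- Phase. -/
noncomputable def phase (Z : ZZ L d q) (V : Fin L → Fin d → ℤ) : ℝ :=
  (∑ l, ∑ i, ((Z l i : ℕ) : ℝ) * (V l i : ℝ)) / q

lemma phase_add (Z : ZZ L d q) (V W : Fin L → Fin d → ℤ) :
    phase Z (V + W) = phase Z V + phase Z W := by
  unfold phase
  rw [← add_div, ← Finset.sum_add_distrib]
  congr 1
  apply Finset.sum_congr rfl
  intro l _
  rw [← Finset.sum_add_distrib]
  apply Finset.sum_congr rfl
  intro i _
  simp only [Pi.add_apply]
  push_cast
  ring

lemma phase_neg (Z : ZZ L d q) (V : Fin L → Fin d → ℤ) :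
    phase Z (-V) = - phase Z V := by
  unfold phase
  rw [← neg_div, ← Finset.sum_neg_distrib]
  congr 1
  apply Finset.sum_congr rfl
  intro l _
  rw [← Finset.sum_neg_distrib]
  apply Finset.sum_congr rfl
  intro i _
  simp only [Pi.neg_apply]
  push_cast
  ring

lemma sum_fin_e (hq : 0 < q) (v : ℤ) :
    ∑ z : Fin q, e (((z : ℕ) : ℝ) * v / q) = if (q:ℤ) ∣ v then (q:ℂ) else 0 := by
  have hq' : (q:ℝ) ≠ 0 := by positivity
  split_ifs with h
  · obtain ⟨k, rfl⟩ := h
    have : ∀ z : Fin q, e (((z : ℕ) : ℝ) * ((q * k : ℤ) : ℝ) / q) = 1 := by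
      intro z
      have h1 : ((z : ℕ) : ℝ) * ((q * k : ℤ) : ℝ) / q = (((z : ℕ) * k : ℤ) : ℝ) := by
        push_cast
        field_simp
      rw [h1, e_int]
    rw [Finset.sum_congr rfl (fun z _ => this z)]
    simp
  · set ζ : ℂ := e ((v:ℝ) / q) with hζ
    have h1 : ∀ z : Fin q, e (((z : ℕ) : ℝ) * v / q) = ζ ^ (z : ℕ) := by
      intro z
      rw [hζ]
      unfold e
      rw [← Complex.exp_nat_mul]
      congr 1
      push_cast
      ring
    rw [Finset.sum_congr rfl (fun z _ => h1 z), Fin.sum_univ_eq_sum_range (fun i => ζ ^ i)]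
    have hζ1 : ζ ≠ 1 := by
      intro h2
      rw [hζ] at h2
      unfold e at h2
      rw [Complex.exp_eq_one_iff] at h2
      obtain ⟨n, hn⟩ := h2
      apply h
      have h3 : ((v:ℝ) / q : ℝ) = n := by
        have h4 : (2 * π * Complex.I : ℂ) ≠ 0 := Complex.two_pi_I_ne_zero
        have h5 : (2 * π * Complex.I : ℂ) * (((v:ℝ) / q : ℝ) : ℂ) = (2 * π * Complex.I) * n := by
          rw [hn]; ring
        have h6 := mul_left_cancel₀ h4 h5
        exact_mod_cast h6
      have h7 : (v:ℝ) = n * q := by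
        field_simp at h3
        linarith
      refine ⟨n, ?_⟩
      have h8 : v = n * q := by exact_mod_cast h7
      rw [h8]; ring
    rw [geom_sum_eq hζ1]
    have hpow : ζ ^ q = 1 := by
      rw [hζ]
      unfold e
      rw [← Complex.exp_nat_mul]
      have : (q : ℂ) * (2 * π * Complex.I * (((v:ℝ) / q : ℝ) : ℂ)) = v * (2 * π * Complex.I) := by
        have hqc : (q:ℂ) ≠ 0 := by exact_mod_cast hq.ne'
        push_cast
        field_simp
      rw [this, Complex.exp_int_mul_two_pi_mul_I]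
    rw [hpow, sub_self, zero_div]

theorem av_phase (hq : 0 < q) (V : Fin L → Fin d → ℤ) :
    av (fun Z : ZZ L d q => e (phase Z V)) = if ∀ l i, (q:ℤ) ∣ V l i then 1 else 0 := by
  unfold av
  have h1 : ∀ Z : ZZ L d q, e (phase Z V) = ∏ l, ∏ i, e (((Z l i : ℕ) : ℝ) * V l i / q) := by
    intro Z
    unfold phase
    have hsum : ∀ (n : ℕ) (g : Fin n → ℝ), e (∑ i, g i) = ∏ i, e (g i) := by
      intro n g
      induction n with
      | zero => simp [e_zero]
      | succ n ih => rw [Fin.sum_univ_succ, Fin.prod_univ_succ, e_add, ih]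
    rw [Finset.sum_div, hsum]
    apply Finset.prod_congr rfl
    intro l _
    rw [Finset.sum_div, hsum]
  rw [Finset.sum_congr rfl (fun Z _ => h1 Z)]
  have h2 : ∑ Z : ZZ L d q, ∏ l, ∏ i, e (((Z l i : ℕ) : ℝ) * V l i / q) =
      ∏ l, ∏ i, ∑ z : Fin q, e (((z : ℕ) : ℝ) * V l i / q) := by
    have h3 : ∀ l, ∏ i, ∑ z : Fin q, e (((z : ℕ) : ℝ) * V l i / q) =
        ∑ Zl : Fin d → Fin q, ∏ i, e (((Zl i : ℕ) : ℝ) * V l i / q) := by
      intro l
      exact Fintype.prod_sum (fun (i : Fin d) (z : Fin q) => e (((z : ℕ) : ℝ) * V l i / q))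
    rw [Finset.prod_congr rfl (fun l _ => h3 l)]
    exact (Fintype.prod_sum (fun (l : Fin L) (Zl : Fin d → Fin q) =>
      ∏ i, e (((Zl i : ℕ) : ℝ) * V l i / q))).symm
  rw [h2]
  simp_rw [sum_fin_e hq]
  have hqc : (q:ℂ) ≠ 0 := by exact_mod_cast hq.ne'
  have hcard : (Fintype.card (ZZ L d q) : ℂ) = ∏ _l : Fin L, ∏ _i : Fin d, (q:ℂ) := by
    simp
  rw [hcard]
  split_ifs with h
  · rw [div_eq_one_iff_eq]
    · apply Finset.prod_congr rfl
      intro l _
      apply Finset.prod_congr rfl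
      intro i _
      rw [if_pos (h l i)]
    · exact Finset.prod_ne_zero_iff.2 (fun l _ => Finset.prod_ne_zero_iff.2 (fun i _ => hqc))
  · push Not at h
    obtain ⟨l, i, hli⟩ := h
    rw [div_eq_zero_iff]
    left
    apply Finset.prod_eq_zero (Finset.mem_univ l)
    apply Finset.prod_eq_zero (Finset.mem_univ i)
    rw [if_neg hli]

lemma av_sum {ι : Type*} (s : Finset ι) (F : ι → ZZ L d q → ℂ) :
    av (fun Z => ∑ i ∈ s, F i Z) = ∑ i ∈ s, av (F i) := by
  unfold av
  rw [Finset.sum_comm, Finset.sum_div]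

lemma av_mul_left (c : ℂ) (F : ZZ L d q → ℂ) : av (fun Z => c * F Z) = c * av F := by
  unfold av
  rw [← Finset.mul_sum, mul_div_assoc]

lemma avR_sum {ι : Type*} (s : Finset ι) (F : ι → ZZ L d q → ℝ) :
    avR (fun Z => ∑ i ∈ s, F i Z) = ∑ i ∈ s, avR (F i) := by
  unfold avR
  rw [Finset.sum_comm, Finset.sum_div]

lemma avR_mul_left (c : ℝ) (F : ZZ L d q → ℝ) : avR (fun Z => c * F Z) = c * avR F := by
  unfold avR
  rw [← Finset.mul_sum, mul_div_assoc]

lemma avR_add (F G : ZZ L d q → ℝ) : avR (fun Z => F Z + G Z) = avR F + avR G := by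
  unfold avR
  rw [Finset.sum_add_distrib, add_div]

lemma avR_mono {F G : ZZ L d q → ℝ} (h : ∀ Z, F Z ≤ G Z) : avR F ≤ avR G := by
  unfold avR
  exact div_le_div_of_nonneg_right (Finset.sum_le_sum (fun Z _ => h Z)) (Nat.cast_nonneg _)

lemma avR_nonneg {F : ZZ L d q → ℝ} (h : ∀ Z, 0 ≤ F Z) : 0 ≤ avR F := by
  unfold avR
  exact div_nonneg (Finset.sum_nonneg (fun Z _ => h Z)) (Nat.cast_nonneg _)

lemma ofReal_avR (F : ZZ L d q → ℝ) : ((avR F : ℝ) : ℂ) = av (fun Z => ((F Z : ℝ) : ℂ)) := by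
  unfold avR av
  push_cast
  rfl

lemma avR_const (hq : 0 < q) (c : ℝ) : avR (fun _ : ZZ L d q => c) = c := by
  unfold avR
  have : Nonempty (Fin q) := ⟨⟨0, hq⟩⟩
  have h2 : (Fintype.card (ZZ L d q) : ℝ) ≠ 0 := by
    have : 0 < Fintype.card (ZZ L d q) := Fintype.card_pos
    positivity
  rw [Finset.sum_const, Finset.card_univ, nsmul_eq_mul]
  field_simp

/-- Jensen for averages. -/
lemma avR_le_sqrt (F : ZZ L d q → ℝ) : avR F ≤ √(avR (fun Z => F Z ^ 2)) := by
  apply Real.le_sqrt_of_sq_le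
  unfold avR
  rcases Nat.eq_zero_or_pos (Fintype.card (ZZ L d q)) with h | h
  · simp [h]
  · have hc : (0:ℝ) < Fintype.card (ZZ L d q) := by exact_mod_cast h
    rw [div_pow, div_le_div_iff₀ (by positivity) hc]
    have := sq_sum_le_card_mul_sum_sq (s := (Finset.univ : Finset (ZZ L d q))) (f := F)
    rw [Finset.card_univ] at this
    nlinarith

lemma norm_av_le (F : ZZ L d q → ℂ) : ‖av F‖ ≤ avR (fun Z => ‖F Z‖) := by
  unfold av avR
  rw [norm_div]
  have : ‖(Fintype.card (ZZ L d q) : ℂ)‖ = (Fintype.card (ZZ L d q) : ℝ) := by simp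
  rw [this]
  exact div_le_div_of_nonneg_right (norm_sum_le _ _) (Nat.cast_nonneg _)

end

end Pool.Agent.Helper18.BF
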