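import Pool.Agent.Helper18.BFMoment
import Pool.Agent.Helper18.BFExpand

open scoped Real ComplexConjugate
open Finset

namespace Pool.Agent.Helper18.BF

section

variable {L d q D : ℕ}

/-- Values of the random characters. -/
noncomputable def uu (Z : ZZ L d q) (x : Fin d → ℤ) : ℕ → ℝ := fun l =>
  if h : l < L then (∑ i, ((Z ⟨l, h⟩ i : ℕ) : ℝ) * (x i : ℝ)) / q else 0

lemma uu_add (Z : ZZ L d q) (x y : Fin d → ℤ) (l : ℕ) :
    uu Z (x + y) l = uu Z x l + uu Z y l := by
  unfold uu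
  split_ifs with h
  · rw [← add_div, ← Finset.sum_add_distrib]
    congr 1
    apply Finset.sum_congr rfl
    intro i _
    simp only [Pi.add_apply]
    push_cast
    ring
  · simp

lemma dotu_add (m : Fin D → ℤ) (u w : ℕ → ℝ) :
    dotu m (fun l => u l + w l) = dotu m u + dotu m w := by
  unfold dotu
  rw [← Finset.sum_add_distrib]
  apply Finset.sum_congr rfl
  intro l _
  ring

/-- Coefficient matrix of a character. -/
def vec (L : ℕ) (m : Fin D → ℤ) (x : Fin d → ℤ) : Fin L → Fin d → ℤ := fun l i =>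
  if h : (l : ℕ) < D then m ⟨l, h⟩ * x i else 0

lemma dotu_uu (hD : D ≤ L) (m : Fin D → ℤ) (Z : ZZ L d q) (x : Fin d → ℤ) :
    dotu m (uu Z x) = phase Z (vec L m x) := by
  unfold dotu phase
  rw [Finset.sum_div]
  obtain ⟨E, rfl⟩ : ∃ E, L = D + E := ⟨L - D, by omega⟩
  rw [Fin.sum_univ_add]
  have h2 : ∑ l : Fin E, (∑ i, ((Z (Fin.natAdd D l) i : ℕ) : ℝ) *
      (vec (D + E) m x (Fin.natAdd D l) i : ℝ)) / (q:ℝ) = 0 := by
    apply Finset.sum_eq_zero
    intro l _
    rw [Finset.sum_eq_zero, zero_div]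
    intro i _
    unfold vec
    simp
  rw [h2, add_zero]
  apply Finset.sum_congr rfl
  intro l _
  unfold uu
  rw [dif_pos (by omega), mul_div_assoc', Finset.mul_sum]
  congr 1
  apply Finset.sum_congr rfl
  intro i _
  unfold vec
  simp only [Fin.val_castAdd, Fin.is_lt, dif_pos]
  have : (⟨(l:ℕ), by omega⟩ : Fin (D + E)) = Fin.castAdd E l := rfl
  rw [this]
  push_cast
  ring

/-- The exponential sum attached to a frequency. -/
noncomputable def hh (s : Finset (Fin d → ℤ)) (f : (Fin d → ℤ) → ℝ) (m : Fin D → ℤ)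
    (Z : ZZ L d q) : ℂ := ∑ a ∈ s, (f a : ℂ) * e (dotu m (uu Z a))

lemma conj_hh (s : Finset (Fin d → ℤ)) (f : (Fin d → ℤ) → ℝ) (m : Fin D → ℤ) (Z : ZZ L d q) :
    conj (hh s f m Z) = ∑ a ∈ s, (f a : ℂ) * e (-(dotu m (uu Z a))) := by
  unfold hh
  rw [map_sum]
  apply Finset.sum_congr rfl
  intro a _
  rw [map_mul, Complex.conj_ofReal, ← e_neg]

lemma av_four (hq : 0 < q) (hD : D ≤ L) (s : Finset (Fin d → ℤ)) (f : (Fin d → ℤ) → ℝ)
    (m1 m2 m3 m4 : Fin D → ℤ) (A B : ℤ) (hA : ∀ a ∈ s, ∀ i, |a i| ≤ A)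
    (h1 : ∀ l, |m1 l| ≤ B) (h2 : ∀ l, |m2 l| ≤ B) (h3 : ∀ l, |m3 l| ≤ B) (h4 : ∀ l, |m4 l| ≤ B)
    (hAB : 4 * (B * A) < q) :
    av (fun Z : ZZ L d q => hh s f m1 Z * conj (hh s f m2 Z) * conj (hh s f m3 Z) *
      hh s f m4 Z) = ∑ a ∈ s, ∑ b ∈ s, ∑ c ∈ s, ∑ c' ∈ s, ((f a * f b * f c * f c' : ℝ) : ℂ) *
      (if ∀ (l : Fin D) (i : Fin d), m1 l * a i - m2 l * b i - m3 l * c i + m4 l * c' i = 0
        then 1 else 0) := by
  have e1 : ∀ Z : ZZ L d q, hh s f m1 Z * conj (hh s f m2 Z) * conj (hh s f m3 Z) *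
      hh s f m4 Z = ∑ a ∈ s, ∑ b ∈ s, ∑ c ∈ s, ∑ c' ∈ s,
        ((f a * f b * f c * f c' : ℝ) : ℂ) *
        e (phase Z (vec L m1 a + -(vec L m2 b) + -(vec L m3 c) + vec L m4 c')) := by
    intro Z
    rw [conj_hh, conj_hh]
    unfold hh
    rw [Finset.sum_mul_sum, Finset.sum_mul, Finset.sum_mul]
    apply Finset.sum_congr rfl
    intro a _
    rw [Finset.sum_mul, Finset.sum_mul]
    apply Finset.sum_congr rfl
    intro b _
    rw [mul_assoc, Finset.sum_mul_sum, Finset.mul_sum]
    apply Finset.sum_congr rfl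
    intro c _
    rw [Finset.mul_sum]
    apply Finset.sum_congr rfl
    intro c' _
    rw [phase_add, phase_add, phase_add, phase_neg, phase_neg, e_add, e_add, e_add,
      dotu_uu hD, dotu_uu hD, dotu_uu hD, dotu_uu hD]
    push_cast
    ring
  rw [show (fun Z : ZZ L d q => hh s f m1 Z * conj (hh s f m2 Z) * conj (hh s f m3 Z) *
      hh s f m4 Z) = _ from funext e1]
  rw [av_sum]
  apply Finset.sum_congr rfl
  intro a ha
  rw [av_sum]
  apply Finset.sum_congr rfl
  intro b hb
  rw [av_sum]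
  apply Finset.sum_congr rfl
  intro c hc
  rw [av_sum]
  apply Finset.sum_congr rfl
  intro c' hc'
  rw [av_mul_left, av_phase hq]
  congr 1
  apply if_congr _ rfl rfl
  have hval : ∀ (l : Fin L) (i : Fin d),
      (vec L m1 a + -(vec L m2 b) + -(vec L m3 c) + vec L m4 c') l i =
      if h : (l:ℕ) < D then
        m1 ⟨l, h⟩ * a i - m2 ⟨l, h⟩ * b i - m3 ⟨l, h⟩ * c i + m4 ⟨l, h⟩ * c' i else 0 := by
    intro l i
    simp only [Pi.add_apply, Pi.neg_apply, vec]
    split_ifs <;> ring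
  have hbd : ∀ (x : Fin D → ℤ) (y : Fin d → ℤ), (∀ l, |x l| ≤ B) → (∀ i, |y i| ≤ A) →
      ∀ l i, |x l * y i| ≤ B * A := by
    intro x y hx hy l i
    rw [abs_mul]
    exact mul_le_mul (hx l) (hy i) (abs_nonneg _) ((abs_nonneg _).trans (hx l))
  constructor
  · intro h l i
    have h5 := h ⟨l, by omega⟩ i
    rw [hval, dif_pos l.2] at h5
    by_contra hne
    have h6 : (q:ℤ) ≤ |m1 l * a i - m2 l * b i - m3 l * c i + m4 l * c' i| :=
      Int.le_of_dvd (abs_pos.2 hne) ((dvd_abs _ _).2 h5)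
    have t1 := hbd m1 a h1 (hA a ha) l i
    have t2 := hbd m2 b h2 (hA b hb) l i
    have t3 := hbd m3 c h3 (hA c hc) l i
    have t4 := hbd m4 c' h4 (hA c' hc') l i
    rw [abs_le] at t1 t2 t3 t4
    have h7 : |m1 l * a i - m2 l * b i - m3 l * c i + m4 l * c' i| ≤ 4 * (B * A) := by
      rw [abs_le]
      constructor <;> linarith
    linarith
  · intro h l i
    rw [hval]
    split_ifs with hl
    · rw [h ⟨l, hl⟩ i]
      exact dvd_zero _
    · exact dvd_zero _

/-- Linear dependence of two integer vectors. -/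
def Dep2 (m n : Fin D → ℤ) : Prop := ∃ x y : ℤ, (x ≠ 0 ∨ y ≠ 0) ∧ ∀ l, x * m l + y * n l = 0

/-- Linear dependence of three integer vectors. -/
def Dep3 (m n k : Fin D → ℤ) : Prop :=
  ∃ x y z : ℤ, (x ≠ 0 ∨ y ≠ 0 ∨ z ≠ 0) ∧ ∀ l, x * m l + y * n l + z * k l = 0

lemma norm_sq_eq_mul_conj (z : ℂ) : (((‖z‖ : ℝ) ^ 2 : ℝ) : ℂ) = z * conj z := by
  rw [Complex.mul_conj']
  push_cast
  rfl

/-- Mixed second moment for independent frequencies. -/
theorem moment_two (hq : 0 < q) (hD : D ≤ L) (s : Finset (Fin d → ℤ)) (f : (Fin d → ℤ) → ℝ)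
    (m n : Fin D → ℤ) (A B : ℤ) (hA : ∀ a ∈ s, ∀ i, |a i| ≤ A)
    (h1 : ∀ l, |m l| ≤ B) (h2 : ∀ l, |n l| ≤ B) (hAB : 4 * (B * A) < q) (hind : ¬ Dep2 m n) :
    avR (fun Z : ZZ L d q => ‖hh s f m Z‖ ^ 2 * ‖hh s f n Z‖ ^ 2) = (∑ a ∈ s, f a ^ 2) ^ 2 := by
  have h3 : ((avR (fun Z : ZZ L d q => ‖hh s f m Z‖ ^ 2 * ‖hh s f n Z‖ ^ 2) : ℝ) : ℂ) =
      (((∑ a ∈ s, f a ^ 2) ^ 2 : ℝ) : ℂ) := by
    rw [ofReal_avR]
    have h4 : (fun Z : ZZ L d q => ((‖hh s f m Z‖ ^ 2 * ‖hh s f n Z‖ ^ 2 : ℝ) : ℂ)) =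
        fun Z => hh s f m Z * conj (hh s f m Z) * conj (hh s f n Z) * hh s f n Z := by
      ext Z
      rw [Complex.ofReal_mul, norm_sq_eq_mul_conj, norm_sq_eq_mul_conj]
      ring
    rw [h4, av_four hq hD s f m m n n A B hA h1 h1 h2 h2 hAB]
    have h5 : ∀ a ∈ s, ∑ b ∈ s, ∑ c ∈ s, ∑ c' ∈ s, ((f a * f b * f c * f c' : ℝ) : ℂ) *
        (if ∀ (l : Fin D) (i : Fin d), m l * a i - m l * b i - n l * c i + n l * c' i = 0
          then (1:ℂ) else 0) = ∑ c ∈ s, ((f a ^ 2 * f c ^ 2 : ℝ) : ℂ) := by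
      intro a ha
      have hcond : ∀ b c c' : Fin d → ℤ, (∀ (l : Fin D) (i : Fin d),
          m l * a i - m l * b i - n l * c i + n l * c' i = 0) ↔ (b = a ∧ c' = c) := by
        intro b c c'
        constructor
        · intro h
          have h6 : ∀ i, a i - b i = 0 ∧ c' i - c i = 0 := by
            intro i
            by_contra hcon
            apply hind
            refine ⟨a i - b i, c' i - c i, ?_, ?_⟩
            · by_contra h7
              push Not at h7
              exact hcon h7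
            · intro l
              have := h l i
              linarith
          constructor
          · ext i; have := (h6 i).1; omega
          · ext i; have := (h6 i).2; omega
        · rintro ⟨rfl, rfl⟩ l i
          ring
      simp_rw [hcond]
      rw [Finset.sum_eq_single a]
      · apply Finset.sum_congr rfl
        intro c hc
        rw [Finset.sum_eq_single c]
        · rw [if_pos ⟨rfl, rfl⟩, mul_one]
          congr 1
          ring
        · intro c' _ hne
          rw [if_neg (fun h => hne h.2), mul_zero]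
        · intro h; exact absurd hc h
      · intro b _ hne
        apply Finset.sum_eq_zero
        intro c _
        apply Finset.sum_eq_zero
        intro c' _
        rw [if_neg (fun h => hne h.1), mul_zero]
      · intro h; exact absurd ha h
    rw [Finset.sum_congr rfl h5]
    push_cast
    rw [sq (∑ a ∈ s, (f a : ℂ) ^ 2), Finset.sum_mul_sum]
  exact_mod_cast h3

/-- Fourth moment for independent triples. -/
theorem moment_four (hq : 0 < q) (hD : D ≤ L) (s : Finset (Fin d → ℤ)) (f : (Fin d → ℤ) → ℝ)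
    (m n k : Fin D → ℤ) (A B : ℤ) (hA : ∀ a ∈ s, ∀ i, |a i| ≤ A)
    (h1 : ∀ l, |(m + n) l| ≤ B) (h2 : ∀ l, |m l| ≤ B) (h3 : ∀ l, |(k + n) l| ≤ B)
    (h4 : ∀ l, |k l| ≤ B) (hAB : 4 * (B * A) < q) (hind : ¬ Dep3 m n k) :
    av (fun Z : ZZ L d q => hh s f (m + n) Z * conj (hh s f m Z) * conj (hh s f (k + n) Z) *
      hh s f k Z) = ((∑ a ∈ s, f a ^ 4 : ℝ) : ℂ) := by
  rw [av_four hq hD s f (m + n) m (k + n) k A B hA h1 h2 h3 h4 hAB]
  have h5 : ∀ a ∈ s, ∑ b ∈ s, ∑ c ∈ s, ∑ c' ∈ s, ((f a * f b * f c * f c' : ℝ) : ℂ) *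
      (if ∀ (l : Fin D) (i : Fin d), (m + n) l * a i - m l * b i - (k + n) l * c i +
        k l * c' i = 0 then (1:ℂ) else 0) = ((f a ^ 4 : ℝ) : ℂ) := by
    intro a ha
    have hcond : ∀ b c c' : Fin d → ℤ, (∀ (l : Fin D) (i : Fin d),
        (m + n) l * a i - m l * b i - (k + n) l * c i + k l * c' i = 0) ↔
        (b = a ∧ c = a ∧ c' = a) := by
      intro b c c'
      constructor
      · intro h
        have h6 : ∀ i, a i - b i = 0 ∧ a i - c i = 0 ∧ c' i - c i = 0 := by
          intro i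
          by_contra hcon
          apply hind
          refine ⟨a i - b i, a i - c i, c' i - c i, ?_, ?_⟩
          · by_contra h7
            push Not at h7
            exact hcon h7
          · intro l
            have := h l i
            simp only [Pi.add_apply] at this
            linarith
        refine ⟨?_, ?_, ?_⟩
        · ext i; have := h6 i; omega
        · ext i; have := h6 i; omega
        · ext i; have := h6 i; omega
      · rintro ⟨rfl, rfl, rfl⟩ l i
        simp only [Pi.add_apply]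
        ring
    simp_rw [hcond]
    rw [Finset.sum_eq_single a]
    · rw [Finset.sum_eq_single a]
      · rw [Finset.sum_eq_single a]
        · rw [if_pos ⟨rfl, rfl, rfl⟩, mul_one]
          congr 1
          ring
        · intro c' _ hne
          rw [if_neg (fun h => hne h.2.2), mul_zero]
        · intro h; exact absurd ha h
      · intro c _ hne
        apply Finset.sum_eq_zero
        intro c' _
        rw [if_neg (fun h => hne h.2.1), mul_zero]
      · intro h; exact absurd ha h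
    · intro b _ hne
      apply Finset.sum_eq_zero
      intro c _
      apply Finset.sum_eq_zero
      intro c' _
      rw [if_neg (fun h => hne h.1), mul_zero]
    · intro h; exact absurd ha h
  rw [Finset.sum_congr rfl h5]
  push_cast
  rfl

/-- Second moment of a nonzero frequency. -/
theorem moment_one (hq : 0 < q) (hD : D ≤ L) (s : Finset (Fin d → ℤ)) (f : (Fin d → ℤ) → ℝ)
    (m : Fin D → ℤ) (A B : ℤ) (hA : ∀ a ∈ s, ∀ i, |a i| ≤ A)
    (h1 : ∀ l, |m l| ≤ B) (hAB : 4 * (B * A) < q) (hm : m ≠ 0) :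
    avR (fun Z : ZZ L d q => ‖hh s f m Z‖ ^ 2) = ∑ a ∈ s, f a ^ 2 := by
  obtain ⟨l0, hl0⟩ : ∃ l, m l ≠ 0 := by
    by_contra hcon
    push Not at hcon
    exact hm (funext hcon)
  have h3 : ((avR (fun Z : ZZ L d q => ‖hh s f m Z‖ ^ 2) : ℝ) : ℂ) =
      ((∑ a ∈ s, f a ^ 2 : ℝ) : ℂ) := by
    rw [ofReal_avR]
    have h4 : (fun Z : ZZ L d q => ((‖hh s f m Z‖ ^ 2 : ℝ) : ℂ)) =
        fun Z => ∑ a ∈ s, ∑ b ∈ s, ((f a * f b : ℝ) : ℂ) *
          e (phase Z (vec L m a + -(vec L m b))) := by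
      ext Z
      rw [norm_sq_eq_mul_conj, conj_hh]
      unfold hh
      rw [Finset.sum_mul_sum]
      apply Finset.sum_congr rfl
      intro a _
      apply Finset.sum_congr rfl
      intro b _
      rw [phase_add, phase_neg, e_add, dotu_uu hD, dotu_uu hD]
      push_cast
      ring
    rw [h4, av_sum]
    have h5 : ∀ a ∈ s, av (fun Z : ZZ L d q => ∑ b ∈ s, ((f a * f b : ℝ) : ℂ) *
          e (phase Z (vec L m a + -(vec L m b)))) = ((f a ^ 2 : ℝ) : ℂ) := by
      intro a ha
      rw [av_sum, Finset.sum_eq_single a]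
      · have : vec L m a + -(vec L m a) = 0 := by simp
        rw [av_mul_left, this, av_phase hq, if_pos (by simp), mul_one]
        congr 1
        ring
      · intro b hb hne
        rw [av_mul_left, av_phase hq, if_neg, mul_zero]
        intro h
        apply hne
        ext i
        have h6 := h ⟨l0, by omega⟩ i
        have h7 : (vec L m a + -(vec L m b)) ⟨l0, by omega⟩ i = m l0 * (a i - b i) := by
          simp only [Pi.add_apply, Pi.neg_apply, vec, Fin.is_lt, dif_pos]
          ring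
        rw [h7] at h6
        by_contra hne2
        have hne3 : m l0 * (a i - b i) ≠ 0 := mul_ne_zero hl0 (by omega)
        have h8 : (q:ℤ) ≤ |m l0 * (a i - b i)| :=
          Int.le_of_dvd (abs_pos.2 hne3) ((dvd_abs _ _).2 h6)
        rw [abs_mul] at h8
        have h9 : |a i - b i| ≤ 2 * A := by
          have t1 := hA a ha i
          have t2 := hA b hb i
          rw [abs_le] at t1 t2 ⊢
          constructor <;> linarith
        have h10 : |m l0| * |a i - b i| ≤ B * (2 * A) :=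
          mul_le_mul (h1 l0) h9 (abs_nonneg _) ((abs_nonneg _).trans (h1 l0))
        have h11 : 0 ≤ B * A := mul_nonneg ((abs_nonneg _).trans (h1 l0))
          ((abs_nonneg _).trans (hA a ha i))
        linarith
      · intro h; exact absurd ha h
    rw [Finset.sum_congr rfl h5]
    push_cast
    rfl
  exact_mod_cast h3

end

end Pool.Agent.Helper18.BF
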