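import Pool.Agent.Helper18.BFExpand

open scoped Real
open Finset

namespace Pool.Agent.Helper18.BF

/-- Nested colour function (values 0 and 1). -/
noncomputable def cc : (J : ℕ) → (ℕ → ℕ) → ℝ → (ℕ → ℝ) → ℝ
  | 0, _, v, _ => if 1 ≤ v then 1 else 0
  | J + 1, K, v, u =>
      (⌊u 0⌋ + cc J (fun i => K (i + 1)) (mu (K 0) (u 0)) (fun i => u (i + 1))) -
      (⌊u 0 - v⌋ + cc J (fun i => K (i + 1)) (mu (K 0) (u 0 - v)) (fun i => u (i + 1)))

/-- Nested probabilities. -/
noncomputable def pp : (J : ℕ) → (ℕ → ℕ) → ℝ → (ℕ → ℝ) → ℝ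
  | 0, _, v, _ => v
  | J + 1, K, v, u =>
      (⌊u 0⌋ + pp J (fun i => K (i + 1)) (mu (K 0) (u 0)) (fun i => u (i + 1))) -
      (⌊u 0 - v⌋ + pp J (fun i => K (i + 1)) (mu (K 0) (u 0 - v)) (fun i => u (i + 1)))

/-- Undecided indicator (an upper bound). -/
noncomputable def NN : (D : ℕ) → (ℕ → ℕ) → ℝ → (ℕ → ℝ) → ℝ
  | 0, _, _, _ => 1
  | D + 1, K, v, u =>
      (if K 0 * Int.fract (u 0) < 1 then
        NN D (fun i => K (i + 1)) (mu (K 0) (u 0)) (fun i => u (i + 1)) else 0) +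
      (if K 0 * Int.fract (u 0 - v) < 1 then
        NN D (fun i => K (i + 1)) (mu (K 0) (u 0 - v)) (fun i => u (i + 1)) else 0)

lemma mu_sub_one (K : ℕ) (w : ℝ) : mu K (w - 1) = mu K w := by
  unfold mu
  rw [Int.fract_sub_one]

lemma mu_mono_fract (K : ℕ) {w w' : ℝ} (h : Int.fract w ≤ Int.fract w') : mu K w ≤ mu K w' := by
  unfold mu
  exact min_le_min_left _ (mul_le_mul_of_nonneg_left h (Nat.cast_nonneg K))

lemma step_props (φ : ℝ → ℝ) (K : ℕ) (h0 : ∀ v, 0 ≤ v → v ≤ 1 → φ v = 0 ∨ φ v = 1)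
    (hm : ∀ v v', 0 ≤ v → v ≤ v' → v' ≤ 1 → φ v ≤ φ v') :
    (∀ w w' : ℝ, w ≤ w' → (⌊w⌋ : ℝ) + φ (mu K w) ≤ ⌊w'⌋ + φ (mu K w')) ∧
    (∀ w : ℝ, ∃ z : ℤ, (⌊w⌋ : ℝ) + φ (mu K w) = z) := by
  have hb : ∀ w, 0 ≤ φ (mu K w) ∧ φ (mu K w) ≤ 1 := by
    intro w
    rcases h0 (mu K w) (mu_nonneg K w) (mu_le_one K w) with h | h <;> rw [h] <;> norm_num
  constructor
  · intro w w' hw
    rcases eq_or_lt_of_le (Int.floor_le_floor hw) with h | h
    · rw [h]
      have hf : Int.fract w ≤ Int.fract w' := by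
        unfold Int.fract
        rw [h]
        linarith
      have := hm _ _ (mu_nonneg K w) (mu_mono_fract K hf) (mu_le_one K w')
      linarith
    · have h1 : (⌊w⌋ : ℝ) + 1 ≤ ⌊w'⌋ := by exact_mod_cast h
      have := (hb w).2
      have := (hb w').1
      linarith
  · intro w
    rcases h0 (mu K w) (mu_nonneg K w) (mu_le_one K w) with h | h
    · exact ⟨⌊w⌋, by rw [h, add_zero]⟩
    · exact ⟨⌊w⌋ + 1, by rw [h]; push_cast; ring⟩

theorem cc_props (J : ℕ) : ∀ (K : ℕ → ℕ) (u : ℕ → ℝ),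
    (∀ v, 0 ≤ v → v ≤ 1 → cc J K v u = 0 ∨ cc J K v u = 1) ∧
    (∀ v v', 0 ≤ v → v ≤ v' → v' ≤ 1 → cc J K v u ≤ cc J K v' u) ∧
    cc J K 0 u = 0 ∧ cc J K 1 u = 1 := by
  induction J with
  | zero =>
    intro K u
    refine ⟨?_, ?_, ?_, ?_⟩
    · intro v _ _
      simp only [cc]
      split_ifs
      · right; rfl
      · left; rfl
    · intro v v' _ h _
      simp only [cc]
      split_ifs with h1 h2
      · exact le_rfl
      · exact absurd (h1.trans h) h2
      · exact zero_le_one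
      · exact le_rfl
    · simp [cc]
    · simp [cc]
  | succ J ih =>
    intro K u
    obtain ⟨i1, i2, i3, i4⟩ := ih (fun i => K (i + 1)) (fun i => u (i + 1))
    obtain ⟨m1, m2⟩ := step_props
      (fun v => cc J (fun i => K (i + 1)) v (fun i => u (i + 1))) (K 0) i1 i2
    have hone : ∀ w : ℝ, ((⌊w - 1⌋ : ℤ) : ℝ) + cc J (fun i => K (i + 1)) (mu (K 0) (w - 1))
        (fun i => u (i + 1)) = (⌊w⌋ : ℝ) + cc J (fun i => K (i + 1)) (mu (K 0) w)
        (fun i => u (i + 1)) - 1 := by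
      intro w
      rw [mu_sub_one, Int.floor_sub_one]
      push_cast
      ring
    have hle : ∀ v, v ≤ 1 → cc (J + 1) K v u ≤ 1 := by
      intro v hv1
      have h1 := m1 (u 0 - 1) (u 0 - v) (by linarith)
      rw [hone] at h1
      simp only [cc]
      linarith
    have hge : ∀ v, 0 ≤ v → 0 ≤ cc (J + 1) K v u := by
      intro v hv0
      have h1 := m1 (u 0 - v) (u 0) (by linarith)
      simp only [cc]
      linarith
    refine ⟨?_, ?_, ?_, ?_⟩
    · intro v hv0 hv1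
      obtain ⟨z1, hz1⟩ := m2 (u 0)
      obtain ⟨z2, hz2⟩ := m2 (u 0 - v)
      have h1 : cc (J + 1) K v u = ((z1 - z2 : ℤ) : ℝ) := by
        simp only [cc]
        rw [hz1, hz2]
        push_cast
        ring
      have h2 := hle v hv1
      have h3 := hge v hv0
      rw [h1] at h2 h3 ⊢
      have h4 : z1 - z2 ≤ 1 := by exact_mod_cast h2
      have h5 : 0 ≤ z1 - z2 := by exact_mod_cast h3
      have h6 : z1 - z2 = 0 ∨ z1 - z2 = 1 := by omega
      rcases h6 with h | h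
      · left; rw [h]; simp
      · right; rw [h]; simp
    · intro v v' _ hvv _
      have h1 := m1 (u 0 - v') (u 0 - v) (by linarith)
      simp only [cc]
      linarith
    · simp [cc]
    · have h1 := hone (u 0)
      simp only [cc]
      linarith

lemma pp_one (J : ℕ) : ∀ (K : ℕ → ℕ) (u : ℕ → ℝ), pp J K 1 u = 1 := by
  cases J with
  | zero => intro K u; rfl
  | succ J =>
    intro K u
    simp only [pp]
    rw [mu_sub_one, Int.floor_sub_one]
    push_cast
    ring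

lemma pp_succ (J : ℕ) (K : ℕ → ℕ) (v : ℝ) (u : ℕ → ℝ) : pp (J + 1) K v u =
    (⌊u 0⌋ + pp J (fun i => K (i + 1)) (mu (K 0) (u 0)) (fun i => u (i + 1))) -
      (⌊u 0 - v⌋ + pp J (fun i => K (i + 1)) (mu (K 0) (u 0 - v)) (fun i => u (i + 1))) := rfl

lemma del_succ (J : ℕ) (K : ℕ → ℕ) (v : ℝ) (u : ℕ → ℝ) : del (J + 1) K v u =
    del J (fun i => K (i + 1)) (mu (K 0) (u 0)) (fun i => u (i + 1)) -
      del J (fun i => K (i + 1)) (mu (K 0) (u 0 - v)) (fun i => u (i + 1)) := rfl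

lemma pp_step (J : ℕ) : ∀ (K : ℕ → ℕ) (v : ℝ) (u : ℕ → ℝ),
    pp (J + 1) K v u - pp J K v u = del J K v u := by
  induction J with
  | zero =>
    intro K v u
    simp only [pp, del, rho]
    have h1 := Int.floor_add_fract (u 0)
    have h2 := Int.floor_add_fract (u 0 - v)
    linarith
  | succ J ih =>
    intro K v u
    have h1 := ih (fun i => K (i + 1)) (mu (K 0) (u 0)) (fun i => u (i + 1))
    have h2 := ih (fun i => K (i + 1)) (mu (K 0) (u 0 - v)) (fun i => u (i + 1))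
    rw [del_succ, pp_succ (J + 1) K v u, pp_succ J K v u]
    linarith

lemma pp_eq_sum (D : ℕ) (K : ℕ → ℕ) (v : ℝ) (u : ℕ → ℝ) :
    pp D K v u = v + ∑ j ∈ range D, del j K v u := by
  induction D with
  | zero => simp [pp]
  | succ D ih =>
    rw [Finset.sum_range_succ, ← add_assoc, ← ih, ← pp_step]
    ring

lemma NN_nonneg (D : ℕ) : ∀ (K : ℕ → ℕ) (v : ℝ) (u : ℕ → ℝ), 0 ≤ NN D K v u := by
  induction D with
  | zero => intro K v u; simp [NN]
  | succ D ih =>
    intro K v u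
    simp only [NN]
    apply add_nonneg
    · split_ifs
      · exact ih _ _ _
      · exact le_rfl
    · split_ifs
      · exact ih _ _ _
      · exact le_rfl

lemma cc_sub_pp (D : ℕ) : ∀ (J : ℕ), D ≤ J → ∀ (K : ℕ → ℕ) (v : ℝ) (u : ℕ → ℝ), 0 ≤ v → v ≤ 1 →
    |cc J K v u - pp D K v u| ≤ NN D K v u := by
  induction D with
  | zero =>
    intro J _ K v u hv0 hv1
    simp only [pp, NN]
    obtain ⟨h1, _⟩ := cc_props J K u
    rw [abs_le]
    rcases h1 v hv0 hv1 with h | h <;> rw [h] <;> constructor <;> linarith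
  | succ D ih =>
    intro J hDJ K v u hv0 hv1
    obtain ⟨J, rfl⟩ : ∃ J', J = J' + 1 := ⟨J - 1, by omega⟩
    have hDJ' : D ≤ J := by omega
    simp only [cc, pp, NN]
    have hone : ∀ w : ℝ, |cc J (fun i => K (i + 1)) (mu (K 0) w) (fun i => u (i + 1)) -
        pp D (fun i => K (i + 1)) (mu (K 0) w) (fun i => u (i + 1))| ≤
        (if K 0 * Int.fract w < 1 then
          NN D (fun i => K (i + 1)) (mu (K 0) w) (fun i => u (i + 1)) else 0) := by
      intro w
      split_ifs with h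
      · exact ih J hDJ' _ _ _ (mu_nonneg _ _) (mu_le_one _ _)
      · have : mu (K 0) w = 1 := by
          unfold mu
          exact min_eq_left (not_lt.1 h)
        rw [this, pp_one, (cc_props J _ _).2.2.2, sub_self, abs_zero]
    have h1 := hone (u 0)
    have h2 := hone (u 0 - v)
    calc _ = |(cc J (fun i => K (i + 1)) (mu (K 0) (u 0)) (fun i => u (i + 1)) -
        pp D (fun i => K (i + 1)) (mu (K 0) (u 0)) (fun i => u (i + 1))) -
        (cc J (fun i => K (i + 1)) (mu (K 0) (u 0 - v)) (fun i => u (i + 1)) -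
        pp D (fun i => K (i + 1)) (mu (K 0) (u 0 - v)) (fun i => u (i + 1)))| := by
          congr 1
          ring
      _ ≤ _ := (abs_sub _ _).trans (add_le_add h1 h2)

end Pool.Agent.Helper18.BF
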