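import Pool.Agent.Helper18.BFUndecSum

open scoped Real
open Finset

namespace Pool.Agent.Helper18.BF

lemma succ_pow_four_le (J : ℕ) : (J + 1) ^ 4 ≤ 2 ^ (12 + J / 2) := by
  have h1 : J + 1 ≤ 8 * 2 ^ (J / 8) := by
    have h2 : J / 8 + 1 ≤ 2 ^ (J / 8) := Nat.lt_two_pow_self
    omega
  calc (J + 1) ^ 4 ≤ (8 * 2 ^ (J / 8)) ^ 4 := Nat.pow_le_pow_left h1 4
    _ = 2 ^ (12 + 4 * (J / 8)) := by
        rw [mul_pow, pow_add, mul_comm 4 (J / 8), pow_mul]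
        norm_num
    _ ≤ 2 ^ (12 + J / 2) := Nat.pow_le_pow_right (by norm_num) (by omega)

lemma DmJ_le (J : ℕ) : DmJ J + 1 ≤ 64 * (J + 1) ^ 2 := by
  unfold DmJ kR
  nlinarith

lemma DmJ_pow_le (J : ℕ) :
    (DmJ J + 1) ^ (2 * (J + 1)) ≤ 2 ^ (12 * (J + 1) + (12 + J / 2) * (J + 1)) := by
  calc (DmJ J + 1) ^ (2 * (J + 1)) ≤ (64 * (J + 1) ^ 2) ^ (2 * (J + 1)) :=
        Nat.pow_le_pow_left (DmJ_le J) _
    _ = 2 ^ (12 * (J + 1)) * ((J + 1) ^ 4) ^ (J + 1) := by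
        rw [pow_mul, mul_pow, ← pow_mul, mul_pow, show (64:ℕ) ^ 2 = 2 ^ 12 by norm_num, ← pow_mul]
    _ ≤ 2 ^ (12 * (J + 1)) * (2 ^ (12 + J / 2)) ^ (J + 1) :=
        Nat.mul_le_mul_left _ (Nat.pow_le_pow_left (succ_pow_four_le J) _)
    _ = _ := by rw [← pow_mul, ← pow_add]

lemma gam_thr_le (J : ℕ) : gam J + thr J ≤ 2 ^ (3 * J + 1) / 2 ^ (J ^ 2) := by
  have h1 : thr J ≤ gam J := by
    unfold thr gam
    rw [div_le_div_iff₀ (by positivity) (by positivity), one_mul]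
    calc (2:ℝ) ^ (J ^ 2) ≤ 2 ^ ((J + 1) ^ 2) :=
          pow_le_pow_right₀ (by norm_num) (Nat.pow_le_pow_left (by omega) 2)
      _ ≤ 8 ^ J * 2 ^ ((J + 1) ^ 2) :=
          le_mul_of_one_le_left (by positivity) (one_le_pow₀ (by norm_num))
  have h2 : (2:ℝ) ^ (3 * J + 1) / 2 ^ (J ^ 2) = gam J + gam J := by
    unfold gam
    rw [show (8:ℝ) = 2 ^ 3 by norm_num, ← pow_mul, pow_add]
    ring
  rw [h2]
  linarith

lemma half_pow_aux (c J E : ℕ) (h : E + J ≤ c + J ^ 2) :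
    (2:ℝ) ^ E / 2 ^ (J ^ 2) ≤ 2 ^ c * (1 / 2) ^ J := by
  rw [one_div, inv_pow, ← div_eq_mul_inv, div_le_div_iff₀ (by positivity) (by positivity),
    ← pow_add, ← pow_add]
  exact pow_le_pow_right₀ (by norm_num) h

lemma Gam_le (J : ℕ) : 2 ^ J * Gam J ≤ (2 ^ 864 + 6) * (1 / 2) ^ J := by
  unfold Gam
  have h1 : (2 ^ (J + 1) * ((DmJ J + 1 : ℕ) : ℝ) ^ (J + 1)) ^ 2 ≤
      2 ^ (2 * (J + 1) + (12 * (J + 1) + (12 + J / 2) * (J + 1))) := by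
    have h2 : ((DmJ J + 1 : ℕ) : ℝ) ^ (2 * (J + 1)) ≤
        2 ^ (12 * (J + 1) + (12 + J / 2) * (J + 1)) := by exact_mod_cast DmJ_pow_le J
    calc (2 ^ (J + 1) * ((DmJ J + 1 : ℕ) : ℝ) ^ (J + 1)) ^ 2 =
        2 ^ (2 * (J + 1)) * ((DmJ J + 1 : ℕ) : ℝ) ^ (2 * (J + 1)) := by
          rw [mul_pow, ← pow_mul, ← pow_mul, mul_comm (J + 1) 2]
      _ ≤ 2 ^ (2 * (J + 1)) * 2 ^ (12 * (J + 1) + (12 + J / 2) * (J + 1)) := by gcongr
      _ = _ := by rw [← pow_add]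
  have h3 : ((4:ℝ) * 12 ^ (J + 1)) ^ 2 ≤ 2 ^ (4 + 8 * (J + 1)) := by
    calc ((4:ℝ) * 12 ^ (J + 1)) ^ 2 = 2 ^ 4 * 144 ^ (J + 1) := by
          rw [mul_pow, ← pow_mul, mul_comm (J + 1) 2, pow_mul]
          norm_num
      _ ≤ 2 ^ 4 * 256 ^ (J + 1) := by gcongr; norm_num
      _ = _ := by
          rw [pow_add 2 4, pow_mul 2 8]
          norm_num
  have h4 := gam_thr_le J
  have hg := gam_pos J
  have ht := thr_pos J
  have h5 : 2 ^ J * (3 * ((2 ^ (J + 1) * ((DmJ J + 1 : ℕ) : ℝ) ^ (J + 1)) ^ 2 *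
      ((4 * 12 ^ (J + 1)) ^ 2 * (2 ^ (J + 2) * (gam J + thr J))))) ≤
      2 ^ 864 * (1 / 2) ^ J := by
    calc 2 ^ J * (3 * ((2 ^ (J + 1) * ((DmJ J + 1 : ℕ) : ℝ) ^ (J + 1)) ^ 2 *
      ((4 * 12 ^ (J + 1)) ^ 2 * (2 ^ (J + 2) * (gam J + thr J))))) ≤
        2 ^ J * (2 ^ 2 * (2 ^ (2 * (J + 1) + (12 * (J + 1) + (12 + J / 2) * (J + 1))) *
      (2 ^ (4 + 8 * (J + 1)) * (2 ^ (J + 2) * (2 ^ (3 * J + 1) / 2 ^ (J ^ 2)))))) := by
          gcongr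
          norm_num
      _ = 2 ^ (J + (2 + ((2 * (J + 1) + (12 * (J + 1) + (12 + J / 2) * (J + 1))) +
          ((4 + 8 * (J + 1)) + ((J + 2) + (3 * J + 1)))))) / 2 ^ (J ^ 2) := by
          simp only [mul_div_assoc', ← pow_add]
      _ ≤ 2 ^ 864 * (1 / 2) ^ J := by
          apply half_pow_aux
          have e1 : J / 2 * 2 ≤ J := Nat.div_mul_le_self J 2
          have e2 : 2 * (J / 2 * (J + 1)) ≤ J * (J + 1) := by
            calc 2 * (J / 2 * (J + 1)) = (J / 2 * 2) * (J + 1) := by ring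
              _ ≤ _ := Nat.mul_le_mul_right _ e1
          have e3 : 81 * J ≤ 1641 + J ^ 2 := by
            rcases Nat.lt_or_ge J 81 with h | h
            · have h9 : J ≤ 80 := by omega
              have h10 : (81 * (J:ℤ)) ≤ 1641 + (J:ℤ) ^ 2 := by nlinarith [sq_nonneg (2 * (J:ℤ) - 81)]
              exact_mod_cast h10
            · nlinarith
          have e4 : (12 + J / 2) * (J + 1) = 12 * (J + 1) + J / 2 * (J + 1) := by ring
          rw [e4]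
          have e5 : J * (J + 1) = J ^ 2 + J := by ring
          omega
  have h6 : 2 ^ J * (6 * (1 / 4) ^ J) = 6 * (1 / 2 : ℝ) ^ J := by
    have : (2:ℝ) ^ J * (1 / 4) ^ J = (1 / 2) ^ J := by
      rw [← mul_pow]
      norm_num
    calc _ = 6 * ((2:ℝ) ^ J * (1 / 4) ^ J) := by ring
      _ = _ := by rw [this]
  rw [mul_add, h6, add_mul]
  exact add_le_add h5 le_rfl

lemma GamU_le (D : ℕ) : 2 ^ D * GamU D ≤ (2 ^ 864 + 6) * (1 / 2) ^ D := by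
  unfold GamU
  have h4 := gam_thr_le D
  have hg := gam_pos D
  have ht := thr_pos D
  have h1 : (2:ℝ) ^ D * (4 ^ (D + 1) * (32 * (1 / 4) ^ (D ^ 2))) ≤ 2 ^ 61 * (1 / 2) ^ D := by
    calc (2:ℝ) ^ D * (4 ^ (D + 1) * (32 * (1 / 4) ^ (D ^ 2))) ≤
        2 ^ D * (2 ^ (2 * (D + 1)) * (2 ^ 5 * (1 / 2 ^ (D ^ 2)))) := by
          have e1 : (4:ℝ) ^ (D + 1) = 2 ^ (2 * (D + 1)) := by
            rw [pow_mul]
            norm_num
          have e2 : ((1:ℝ) / 4) ^ (D ^ 2) ≤ 1 / 2 ^ (D ^ 2) := by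
            rw [one_div, inv_pow, one_div]
            apply inv_anti₀ (by positivity)
            exact pow_le_pow_left₀ (by norm_num) (by norm_num) _
          rw [e1, show (32:ℝ) = 2 ^ 5 by norm_num]
          gcongr
      _ = 2 ^ (D + (2 * (D + 1) + 5)) / 2 ^ (D ^ 2) := by
          simp only [mul_div_assoc', mul_one, ← pow_add]
      _ ≤ _ := by
          apply half_pow_aux
          nlinarith [sq_nonneg ((D:ℤ) - 2)]
  have h2 : (2:ℝ) ^ D * (4 ^ (D + 1) * (2 * ((8 ^ (D + 1)) ^ 2 *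
      (2 ^ (D + 2) * (gam D + thr D))))) ≤ 2 ^ 61 * (1 / 2) ^ D := by
    calc (2:ℝ) ^ D * (4 ^ (D + 1) * (2 * ((8 ^ (D + 1)) ^ 2 *
      (2 ^ (D + 2) * (gam D + thr D))))) ≤ 2 ^ D * (2 ^ (2 * (D + 1)) * (2 ^ 1 *
        (2 ^ (6 * (D + 1)) * (2 ^ (D + 2) * (2 ^ (3 * D + 1) / 2 ^ (D ^ 2)))))) := by
          have e1 : (4:ℝ) ^ (D + 1) = 2 ^ (2 * (D + 1)) := by
            rw [pow_mul]
            norm_num
          have e2 : ((8:ℝ) ^ (D + 1)) ^ 2 = 2 ^ (6 * (D + 1)) := by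
            rw [← pow_mul, mul_comm (D + 1) 2, pow_mul, pow_mul]
            norm_num
          rw [e1, e2, pow_one]
          gcongr
      _ = 2 ^ (D + (2 * (D + 1) + (1 + (6 * (D + 1) + ((D + 2) + (3 * D + 1)))))) /
          2 ^ (D ^ 2) := by
          simp only [mul_div_assoc', ← pow_add]
      _ ≤ _ := by
          apply half_pow_aux
          have e3 : 14 * D ≤ 49 + D ^ 2 := by
            have h10 : (14 * (D:ℤ)) ≤ 49 + (D:ℤ) ^ 2 := by nlinarith [sq_nonneg ((D:ℤ) - 7)]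
            exact_mod_cast h10
          omega
  have h3 : (2:ℝ) ^ D * (4 ^ (D + 1) * (32 * (1 / 4) ^ (D ^ 2) + 2 * ((8 ^ (D + 1)) ^ 2 *
      (2 ^ (D + 2) * (gam D + thr D))))) = (2:ℝ) ^ D * (4 ^ (D + 1) * (32 * (1 / 4) ^ (D ^ 2))) +
      (2:ℝ) ^ D * (4 ^ (D + 1) * (2 * ((8 ^ (D + 1)) ^ 2 *
      (2 ^ (D + 2) * (gam D + thr D))))) := by ring
  rw [h3]
  have h5 : (2:ℝ) ^ 61 + 2 ^ 61 ≤ 2 ^ 864 + 6 := by
    have : (2:ℝ) ^ 61 + 2 ^ 61 = 2 ^ 62 := by norm_num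
    rw [this]
    have h6 : (2:ℝ) ^ 62 ≤ 2 ^ 864 := pow_le_pow_right₀ (by norm_num) (by norm_num)
    exact h6.trans (le_add_of_nonneg_right (by norm_num))
  have h6 : (0:ℝ) ≤ (1 / 2) ^ D := by positivity
  have h7 := mul_le_mul_of_nonneg_right h5 h6
  rw [add_mul] at h7
  exact (add_le_add h1 h2).trans h7

lemma sum_half_le (n : ℕ) : ∑ J : Fin n, ((1:ℝ) / 2) ^ (J : ℕ) ≤ 2 := by
  rw [Fin.sum_univ_eq_sum_range (fun i => ((1:ℝ) / 2) ^ i)]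
  have h := geom_sum_eq (x := (1:ℝ) / 2) (by norm_num) n
  rw [h]
  have : (0:ℝ) ≤ (1 / 2) ^ n := by positivity
  rw [div_le_iff_of_neg (by norm_num)]
  linarith

end Pool.Agent.Helper18.BF
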