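import Pool.Agent.Helper18.BFSeries

open scoped Real
open Finset

namespace Pool.Agent.Helper18.BF

/-- Final constant. -/
noncomputable def CC : ℝ := 32 + 80 * (2 ^ 864 + 6)

lemma CC_pos : 0 < CC := by unfold CC; positivity

lemma exists_thr {x : ℝ} (hx : 0 < x) (S : ℝ) (hS : 0 ≤ S) : ∃ J, thr J * S ≤ x := by
  have h1 : Filter.Tendsto (fun n : ℕ => ((1:ℝ) / 2) ^ n * S) Filter.atTop (nhds (0 * S)) :=
    (tendsto_pow_atTop_nhds_zero_of_lt_one (by norm_num) (by norm_num)).mul_const S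
  rw [zero_mul] at h1
  obtain ⟨n, hn⟩ := ((h1.eventually (gt_mem_nhds hx)).exists)
  refine ⟨n, ?_⟩
  refine le_trans ?_ hn.le
  apply mul_le_mul_of_nonneg_right _ hS
  unfold thr
  rw [one_div, one_div, inv_pow]
  apply inv_anti₀ (by positivity)
  apply pow_le_pow_right₀ (by norm_num)
  nlinarith

open Classical in
/-- The depth of an element. -/
noncomputable def dep (x S : ℝ) : ℕ := if h : ∃ J, thr J * S ≤ x then Nat.find h else 0

lemma dep_spec {x S : ℝ} (hx : 0 < x) (hS : 0 ≤ S) : thr (dep x S) * S ≤ x := by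
  classical
  have h := exists_thr hx S hS
  unfold dep
  rw [dif_pos h]
  exact Nat.find_spec h

lemma dep_min {x S : ℝ} {J : ℕ} (h : J < dep x S) : x < thr J * S := by
  classical
  unfold dep at h
  split_ifs at h with h1
  · have := Nat.find_min h1 h
    push Not at this
    exact this
  · omega

/-- Splitting of the colour sum for one element. -/
lemma two_cc_split {Jm D : ℕ} (hD : D ≤ Jm) (u : ℕ → ℝ) :
    |(2 * cc Jm K0 (1 / 2) u - 1) - ∑ J : Fin Jm, (if (J : ℕ) < D then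
      2 * del J K0 (1 / 2) u else 0)| ≤ 2 * NN D K0 (1 / 2) u := by
  have h1 := cc_sub_pp D Jm hD K0 (1 / 2) u (by norm_num) (by norm_num)
  have h2 := pp_eq_sum D K0 (1 / 2) u
  have h3 : ∑ J : Fin Jm, (if (J : ℕ) < D then 2 * del J K0 (1 / 2) u else 0) =
      2 * ∑ j ∈ range D, del j K0 (1 / 2) u := by
    rw [Fin.sum_univ_eq_sum_range (fun j => if j < D then 2 * del j K0 (1 / 2) u else 0),
      Finset.mul_sum, ← Finset.sum_filter]
    apply Finset.sum_congr _ (fun _ _ => rfl)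
    ext j
    simp only [mem_filter, mem_range]
    omega
  rw [h3]
  have h4 : (2 * cc Jm K0 (1 / 2) u - 1) - 2 * ∑ j ∈ range D, del j K0 (1 / 2) u =
      2 * (cc Jm K0 (1 / 2) u - pp D K0 (1 / 2) u) := by
    rw [h2]
    ring
  rw [h4, abs_mul, abs_two]
  linarith

/-- The main estimate for one function. -/
theorem single_bound (d : ℕ) (s : Finset (Fin d → ℤ)) (f : (Fin d → ℤ) → ℝ) :
    ∃ J0 : ℕ, ∀ Jm, J0 ≤ Jm → ∀ L, Jm ≤ L → ∃ q0 : ℕ, ∀ q, q0 ≤ q → 0 < q →
      ∃ X : ZZ L d q → ℝ, (∀ Z, 0 ≤ X Z) ∧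
        (∀ Z (y : ℕ → ℝ), (∑ a ∈ s, f a * (2 * cc Jm K0 (1 / 2)
          (fun l => y l + uu Z a l) - 1)) ^ 2 ≤ X Z) ∧ avR X ≤ CC * ∑ a ∈ s, f a ^ 2 := by
  classical
  set S2 : ℝ := ∑ a ∈ s, f a ^ 2 with hS2
  have hS2n : 0 ≤ S2 := Finset.sum_nonneg (fun a _ => sq_nonneg _)
  rcases eq_or_lt_of_le hS2n with h0 | hpos
  · refine ⟨0, fun Jm _ L _ => ⟨0, fun q _ hq => ⟨fun _ => 0, fun _ => le_rfl, ?_, ?_⟩⟩⟩
    · intro Z y
      have h1 : ∀ a ∈ s, f a = 0 := by
        intro a ha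
        have h2 := (Finset.sum_eq_zero_iff_of_nonneg (fun a _ => sq_nonneg (f a))).1 h0.symm a ha
        exact pow_eq_zero_iff (two_ne_zero) |>.1 h2
      rw [Finset.sum_eq_zero]
      · simp
      · intro a ha
        rw [h1 a ha, zero_mul]
    · rw [avR_const hq, ← h0, mul_zero]
  have hsq : 0 < √S2 := Real.sqrt_pos.2 hpos
  set s' : Finset (Fin d → ℤ) := s.filter (fun a => f a ≠ 0) with hs'
  have hs'S : ∀ t ⊆ s', ∑ a ∈ t, f a ^ 2 ≤ S2 := by
    intro t ht
    apply Finset.sum_le_sum_of_subset_of_nonneg (ht.trans (Finset.filter_subset _ _))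
    intro a _ _
    exact sq_nonneg _
  set dp : (Fin d → ℤ) → ℕ := fun a => dep |f a| √S2 with hdp
  have hf0 : ∀ a ∈ s', 0 < |f a| := by
    intro a ha
    rw [hs', mem_filter] at ha
    exact abs_pos.2 ha.2
  refine ⟨∑ a ∈ s', dp a, ?_⟩
  intro Jm hJm L hL
  have hdpJm : ∀ a ∈ s', dp a ≤ Jm := by
    intro a ha
    refine le_trans ?_ hJm
    exact Finset.single_le_sum (f := dp) (fun _ _ => Nat.zero_le _) ha
  have hT : ∀ J : Fin Jm, ∃ q0 : ℕ, ∀ q, q0 ≤ q → 0 < q → ∃ X : ZZ L d q → ℝ,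
      (∀ Z, 0 ≤ X Z) ∧ (∀ Z (y : ℕ → ℝ), (∑ a ∈ s'.filter (fun a => (J : ℕ) < dp a),
        f a * (2 * del J K0 (1 / 2) (fun l => y l + uu Z a l))) ^ 2 ≤ X Z) ∧
      avR X ≤ S2 * Gam J := by
    intro J
    apply level_bound J _ f S2 hpos (hs'S _ (Finset.filter_subset _ _)) _ L (by omega)
    intro a ha
    rw [mem_filter] at ha
    exact (dep_min ha.2).le
  have hU : ∀ J : Fin Jm, ∃ q0 : ℕ, ∀ q, q0 ≤ q → 0 < q → ∃ X : ZZ L d q → ℝ,
      (∀ Z, 0 ≤ X Z) ∧ (∀ Z (y : ℕ → ℝ), (∑ a ∈ s'.filter (fun a => dp a = J + 1),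
        |f a| * NN (J + 1) K0 (1 / 2) (fun l => y l + uu Z a l)) ^ 2 ≤ X Z) ∧
      avR X ≤ S2 * GamU J := by
    intro J
    apply undec_bound J _ f S2 hpos (hs'S _ (Finset.filter_subset _ _)) _ _ L (by omega)
    · intro a ha
      rw [mem_filter] at ha
      exact (dep_min (J := J) (by
        have h1 : dep |f a| √S2 = J + 1 := ha.2
        rw [h1]
        exact Nat.lt_succ_self _)).le
    · intro a ha
      rw [mem_filter] at ha
      have h1 := dep_spec (hf0 a ha.1) hsq.le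
      have h2 : dep |f a| √S2 = J + 1 := ha.2
      rw [h2] at h1
      exact h1
  choose q1 hq1 using hT
  choose q2 hq2 using hU
  refine ⟨∑ J, q1 J + ∑ J, q2 J, ?_⟩
  intro q hq hq0
  have hle1 : ∀ J, q1 J ≤ q := by
    intro J
    have := Finset.single_le_sum (f := q1) (fun _ _ => Nat.zero_le _) (Finset.mem_univ J)
    omega
  have hle2 : ∀ J, q2 J ≤ q := by
    intro J
    have := Finset.single_le_sum (f := q2) (fun _ _ => Nat.zero_le _) (Finset.mem_univ J)
    omega
  choose XT hXT0 hXT hXTa using (fun J => hq1 J q (hle1 J) hq0)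
  choose XU hXU0 hXU hXUa using (fun J => hq2 J q (hle2 J) hq0)
  refine ⟨fun Z => 32 * S2 + 4 * ∑ J : Fin Jm, 2 ^ (J : ℕ) * (2 * XT J Z + 8 * XU J Z),
    ?_, ?_, ?_⟩
  · intro Z
    have : 0 ≤ ∑ J : Fin Jm, (2:ℝ) ^ (J : ℕ) * (2 * XT J Z + 8 * XU J Z) := by
      apply Finset.sum_nonneg
      intro J _
      have h1 := hXT0 J Z
      have h2 := hXU0 J Z
      positivity
    positivity
  · intro Z y
    set T : Fin Jm → ℝ := fun J => ∑ a ∈ s'.filter (fun a => (J : ℕ) < dp a),
        f a * (2 * del J K0 (1 / 2) (fun l => y l + uu Z a l)) with hTdef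
    set U : Fin Jm → ℝ := fun J => ∑ a ∈ s'.filter (fun a => dp a = J + 1),
        |f a| * NN (J + 1) K0 (1 / 2) (fun l => y l + uu Z a l) with hUdef
    have hUn : ∀ J, 0 ≤ U J := by
      intro J
      exact Finset.sum_nonneg (fun a _ => mul_nonneg (abs_nonneg _) (NN_nonneg _ _ _ _))
    have e1 : ∑ a ∈ s, f a * (2 * cc Jm K0 (1 / 2) (fun l => y l + uu Z a l) - 1) =
        ∑ a ∈ s', f a * (2 * cc Jm K0 (1 / 2) (fun l => y l + uu Z a l) - 1) := by
      rw [hs', Finset.sum_filter]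
      apply Finset.sum_congr rfl
      intro a _
      by_cases h : f a = 0
      · rw [if_neg (by simp [h]), h, zero_mul]
      · rw [if_pos h]
    have e2 : ∑ J, T J = ∑ a ∈ s', f a * ∑ J : Fin Jm, (if (J : ℕ) < dp a then
        2 * del J K0 (1 / 2) (fun l => y l + uu Z a l) else 0) := by
      rw [hTdef]
      simp only
      have h1 : ∀ J : Fin Jm, ∑ a ∈ s'.filter (fun a => (J : ℕ) < dp a),
          f a * (2 * del J K0 (1 / 2) (fun l => y l + uu Z a l)) =
          ∑ a ∈ s', f a * (if (J : ℕ) < dp a then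
            2 * del J K0 (1 / 2) (fun l => y l + uu Z a l) else 0) := by
        intro J
        rw [Finset.sum_filter]
        apply Finset.sum_congr rfl
        intro a _
        split_ifs <;> simp
      rw [Finset.sum_congr rfl (fun J _ => h1 J), Finset.sum_comm]
      apply Finset.sum_congr rfl
      intro a _
      rw [Finset.mul_sum]
    have e3 : |∑ a ∈ s', f a * (2 * cc Jm K0 (1 / 2) (fun l => y l + uu Z a l) - 1) - ∑ J, T J| ≤
        2 * ∑ a ∈ s', |f a| * NN (dp a) K0 (1 / 2) (fun l => y l + uu Z a l) := by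
      rw [e2, ← Finset.sum_sub_distrib]
      refine (Finset.abs_sum_le_sum_abs _ _).trans ?_
      rw [Finset.mul_sum]
      apply Finset.sum_le_sum
      intro a ha
      rw [← mul_sub, abs_mul]
      have h1 := two_cc_split (hdpJm a ha) (fun l => y l + uu Z a l)
      have h2 := mul_le_mul_of_nonneg_left h1 (abs_nonneg (f a))
      linarith
    have e4 : ∑ a ∈ s', |f a| * NN (dp a) K0 (1 / 2) (fun l => y l + uu Z a l) =
        ∑ a ∈ s'.filter (fun a => dp a = 0), |f a| + ∑ J, U J := by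
      have h1 : ∑ J, U J = ∑ a ∈ s'.filter (fun a => ¬ dp a = 0),
          |f a| * NN (dp a) K0 (1 / 2) (fun l => y l + uu Z a l) := by
        have h2 : ∀ J : Fin Jm, U J = ∑ a ∈ s', if dp a = J + 1 then
            |f a| * NN (dp a) K0 (1 / 2) (fun l => y l + uu Z a l) else 0 := by
          intro J
          rw [hUdef]
          simp only
          rw [Finset.sum_filter]
          apply Finset.sum_congr rfl
          intro a _
          by_cases h : dp a = J + 1
          · rw [if_pos h, if_pos h, h]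
          · rw [if_neg h, if_neg h]
        rw [Finset.sum_congr rfl (fun J _ => h2 J), Finset.sum_comm,
          Finset.sum_filter (s := s') (p := fun a => ¬ dp a = 0)]
        apply Finset.sum_congr rfl
        intro a ha
        by_cases h : dp a = 0
        · rw [if_neg (by simp [h])]
          apply Finset.sum_eq_zero
          intro J _
          rw [if_neg (by omega)]
        · rw [if_pos h]
          have h3 := hdpJm a ha
          rw [Finset.sum_eq_single (⟨dp a - 1, by omega⟩ : Fin Jm)]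
          · rw [if_pos (by simp only; omega)]
          · intro J _ hJ
            rw [if_neg]
            intro h4
            apply hJ
            ext
            simp only
            omega
          · intro h4
            exact absurd (Finset.mem_univ _) h4
      rw [h1, ← Finset.sum_filter_add_sum_filter_not s' (fun a => dp a = 0)]
      congr 1
      apply Finset.sum_congr rfl
      intro a ha
      rw [mem_filter] at ha
      rw [ha.2]
      simp [NN]
    have e5 : ∑ a ∈ s'.filter (fun a => dp a = 0), |f a| ≤ 2 * √S2 := by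
      have h1 : ∀ a ∈ s'.filter (fun a => dp a = 0), |f a| ≤ 2 / √S2 * f a ^ 2 := by
        intro a ha
        rw [mem_filter] at ha
        have h2 := dep_spec (hf0 a ha.1) hsq.le
        have h3 : dep |f a| √S2 = 0 := ha.2
        rw [h3] at h2
        unfold thr at h2
        norm_num at h2
        rw [div_mul_eq_mul_div, le_div_iff₀ hsq, ← sq_abs (f a)]
        have h4 := hf0 a ha.1
        nlinarith
      calc _ ≤ ∑ a ∈ s'.filter (fun a => dp a = 0), 2 / √S2 * f a ^ 2 := Finset.sum_le_sum h1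
        _ = 2 / √S2 * ∑ a ∈ s'.filter (fun a => dp a = 0), f a ^ 2 := by rw [Finset.mul_sum]
        _ ≤ 2 / √S2 * S2 := by
            have := hs'S _ (Finset.filter_subset (fun a => dp a = 0) s')
            gcongr
        _ = 2 * √S2 := by
            rw [div_mul_eq_mul_div, mul_div_assoc, Real.div_sqrt]
    rw [e1]
    set W : ℝ := ∑ a ∈ s', f a * (2 * cc Jm K0 (1 / 2) (fun l => y l + uu Z a l) - 1) with hW
    have e6 : |W| ≤ 4 * √S2 + ∑ J, (|T J| + 2 * U J) := by
      have h1 : |W| ≤ |∑ J, T J| + |W - ∑ J, T J| := by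
        have := abs_add_le (∑ J, T J) (W - ∑ J, T J)
        simpa using this
      have h2 := Finset.abs_sum_le_sum_abs T Finset.univ
      rw [e4] at e3
      rw [Finset.sum_add_distrib, ← Finset.mul_sum]
      linarith
    have e7 : (∑ J, (|T J| + 2 * U J)) ^ 2 ≤ 2 * ∑ J : Fin Jm, 2 ^ (J : ℕ) *
        (|T J| + 2 * U J) ^ 2 := by
      have h1 := Finset.sum_sq_le_sum_mul_sum_of_sq_le_mul Finset.univ
        (r := fun J => |T J| + 2 * U J) (f := fun J : Fin Jm => ((1:ℝ) / 2) ^ (J : ℕ))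
        (g := fun J : Fin Jm => 2 ^ (J : ℕ) * (|T J| + 2 * U J) ^ 2)
        (fun J _ => by positivity) (fun J _ => by positivity) (fun J _ => by
          rw [← mul_assoc, ← mul_pow]
          norm_num)
      refine h1.trans ?_
      apply mul_le_mul_of_nonneg_right (sum_half_le Jm)
      apply Finset.sum_nonneg
      intro J _
      positivity
    have e8 : ∑ J : Fin Jm, (2:ℝ) ^ (J : ℕ) * (|T J| + 2 * U J) ^ 2 ≤
        ∑ J : Fin Jm, (2:ℝ) ^ (J : ℕ) * (2 * XT J Z + 8 * XU J Z) := by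
      apply Finset.sum_le_sum
      intro J _
      apply mul_le_mul_of_nonneg_left _ (by positivity)
      have h1 := hXT J Z y
      have h2 := hXU J Z y
      have h3 : T J ^ 2 ≤ XT J Z := h1
      have h4 : U J ^ 2 ≤ XU J Z := h2
      rw [← sq_abs (T J)] at h3
      nlinarith [sq_nonneg (|T J| - 2 * U J)]
    have e9 : W ^ 2 ≤ (4 * √S2 + ∑ J, (|T J| + 2 * U J)) ^ 2 := by
      rw [← sq_abs]
      exact pow_le_pow_left₀ (abs_nonneg _) e6 2
    have e10 : (4 * √S2) ^ 2 = 16 * S2 := by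
      rw [mul_pow, Real.sq_sqrt hpos.le]
      norm_num
    have e11 : ∀ a b : ℝ, (a + b) ^ 2 ≤ 2 * a ^ 2 + 2 * b ^ 2 := by
      intro a b
      nlinarith [sq_nonneg (a - b)]
    have e12 := e11 (4 * √S2) (∑ J, (|T J| + 2 * U J))
    rw [e10] at e12
    linarith
  · rw [avR_add, avR_const hq0, avR_mul_left, avR_sum]
    have h1 : ∀ J : Fin Jm, avR (fun Z => 2 ^ (J : ℕ) * (2 * XT J Z + 8 * XU J Z)) ≤
        10 * (S2 * ((2 ^ 864 + 6) * (1 / 2) ^ (J : ℕ))) := by
      intro J
      rw [avR_mul_left, avR_add, avR_mul_left, avR_mul_left]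
      have h2 := hXTa J
      have h3 := hXUa J
      have h4 := Gam_le J
      have h5 := GamU_le J
      have h6 : (0:ℝ) < 2 ^ (J : ℕ) := by positivity
      have h7 : (2:ℝ) ^ (J : ℕ) * avR (XT J) ≤ S2 * ((2 ^ 864 + 6) * (1 / 2) ^ (J : ℕ)) := by
        calc _ ≤ (2:ℝ) ^ (J : ℕ) * (S2 * Gam J) := mul_le_mul_of_nonneg_left h2 h6.le
          _ = S2 * (2 ^ (J : ℕ) * Gam J) := by ring
          _ ≤ _ := mul_le_mul_of_nonneg_left h4 hpos.le
      have h8 : (2:ℝ) ^ (J : ℕ) * avR (XU J) ≤ S2 * ((2 ^ 864 + 6) * (1 / 2) ^ (J : ℕ)) := by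
        calc _ ≤ (2:ℝ) ^ (J : ℕ) * (S2 * GamU J) := mul_le_mul_of_nonneg_left h3 h6.le
          _ = S2 * (2 ^ (J : ℕ) * GamU J) := by ring
          _ ≤ _ := mul_le_mul_of_nonneg_left h5 hpos.le
      calc _ = 2 * ((2:ℝ) ^ (J : ℕ) * avR (XT J)) + 8 * ((2:ℝ) ^ (J : ℕ) * avR (XU J)) := by ring
        _ ≤ 2 * (S2 * ((2 ^ 864 + 6) * (1 / 2) ^ (J : ℕ))) +
            8 * (S2 * ((2 ^ 864 + 6) * (1 / 2) ^ (J : ℕ))) :=
            add_le_add (mul_le_mul_of_nonneg_left h7 (by norm_num))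
              (mul_le_mul_of_nonneg_left h8 (by norm_num))
        _ = _ := by ring
    have h2 := Finset.sum_le_sum (fun J (_ : J ∈ (Finset.univ : Finset (Fin Jm))) => h1 J)
    have h3 : ∑ J : Fin Jm, 10 * (S2 * ((2 ^ 864 + 6) * ((1:ℝ) / 2) ^ (J : ℕ))) ≤
        20 * (S2 * (2 ^ 864 + 6)) := by
      have h4 : ∑ J : Fin Jm, 10 * (S2 * ((2 ^ 864 + 6) * ((1:ℝ) / 2) ^ (J : ℕ))) =
          (10 * (S2 * (2 ^ 864 + 6))) * ∑ J : Fin Jm, ((1:ℝ) / 2) ^ (J : ℕ) := by
        rw [Finset.mul_sum]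
        apply Finset.sum_congr rfl
        intro J _
        ring
      rw [h4]
      calc _ ≤ (10 * (S2 * (2 ^ 864 + 6))) * 2 :=
            mul_le_mul_of_nonneg_left (sum_half_le Jm) (by positivity)
        _ = _ := by ring
    have h5 := h2.trans h3
    unfold CC
    calc _ ≤ 32 * S2 + 4 * (20 * (S2 * (2 ^ 864 + 6))) :=
          add_le_add le_rfl (mul_le_mul_of_nonneg_left h5 (by norm_num))
      _ = _ := by ring

end Pool.Agent.Helper18.BF
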