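import Pool.Agent.Helper18.BFFlat

open scoped Real
open Finset

namespace Pool.Agent.Helper18.BF

/-- Floor weights. -/
def kap (J : ℕ) (K : ℕ → ℕ) (l : ℕ) : ℕ := if l < J then K l else 1

lemma Lsk_cons_tail (J : ℕ) (K : ℕ → ℕ) (b : Bool) (ε : Fin (J + 1) → Bool)
    (m : Fin (J + 1) → ℤ) : Lsk J K (Fin.cons b (Fin.tail ε)) m = Lsk J K ε m := by
  cases J with
  | zero => rfl
  | succ J =>
    simp only [Lsk]
    rw [Fin.tail_cons]

/-- The uniform bound of the coefficients through one of the skew maps. -/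
theorem skew_bound (J : ℕ) : ∀ (K : ℕ → ℕ), (∀ i, 0 < K i) → ∀ m : Fin (J + 1) → ℤ,
    ∃ ε : Fin (J + 1) → Bool, ‖aa J K m‖ ≤
      ∏ l : Fin (J + 1), 2 / max (kap J K l : ℝ) |((Lsk J K ε m l : ℤ) : ℝ)| := by
  induction J with
  | zero =>
    intro K hK m
    refine ⟨fun _ => false, ?_⟩
    have h1 : ∏ l : Fin (0 + 1), 2 / max (kap 0 K l : ℝ)
        |((Lsk 0 K (fun _ => false) m l : ℤ) : ℝ)| = 2 / max 1 |((m 0 : ℤ) : ℝ)| := by
      simp [kap, Lsk]
    rw [h1]
    simp only [aa]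
    rcases eq_or_ne (m 0) 0 with h | h
    · rw [h]
      have := norm_rhoHat_le_one (K 0) (hK 0) 0
      simp
      linarith
    · have h2 := norm_rhoHat_le_one_div (hK 0) h
      have h3 : (1:ℝ) ≤ |((m 0 : ℤ) : ℝ)| := by
        have : 1 ≤ |m 0| := Int.one_le_abs h
        exact_mod_cast this
      rw [max_eq_right h3]
      refine h2.trans ?_
      exact div_le_div_of_nonneg_right (by norm_num) (abs_nonneg _)
  | succ J ih =>
    intro K hK m
    obtain ⟨ε', hε'⟩ := ih (fun i => K (i + 1)) (fun i => hK _) (Fin.tail m)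
    have hkey : ∃ b : Bool, ‖tauHat (K 0) (Fin.tail m 0) (m 0)‖ ≤ 2 / max (K 0 : ℝ)
        |((m 0 + (if b then (K 0 : ℤ) * Fin.tail m 0 else 0) : ℤ) : ℝ)| := by
      have h1 := norm_tauHat_skew (hK 0) (Fin.tail m 0) (m 0)
      rcases le_total |((m 0 : ℤ) : ℝ)| |((m 0 : ℤ) + (Fin.tail m 0 : ℤ) * K 0 : ℝ)| with h | h
      · refine ⟨false, ?_⟩
        rw [min_eq_left h] at h1
        simpa using h1
      · refine ⟨true, ?_⟩
        rw [min_eq_right h] at h1
        have h2 : ((m 0 + (if true = true then (K 0 : ℤ) * Fin.tail m 0 else 0) : ℤ) : ℝ) =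
            ((m 0 : ℤ) + (Fin.tail m 0 : ℤ) * K 0 : ℝ) := by
          rw [if_pos rfl]
          push_cast
          ring
        rw [h2]
        exact h1
    obtain ⟨b, hb⟩ := hkey
    refine ⟨Fin.cons false (Fin.cons b (Fin.tail ε')), ?_⟩
    simp only [aa]
    rw [norm_mul, Fin.prod_univ_succ]
    have hk0 : (kap (J + 1) K ((0 : Fin (J + 2)) : ℕ) : ℝ) = K 0 := by
      simp [kap]
    have hks : ∀ l : Fin (J + 1), kap (J + 1) K ((Fin.succ l : Fin (J + 2)) : ℕ) =
        kap J (fun i => K (i + 1)) l := by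
      intro l
      simp [kap]
    have hL : ∀ l : Fin (J + 1),
        Lsk (J + 1) K (Fin.cons false (Fin.cons b (Fin.tail ε'))) m (Fin.succ l) =
        Lsk J (fun i => K (i + 1)) ε' (Fin.tail m) l := by
      intro l
      have h1 := congrFun (Lsk_tail J K (Fin.cons false (Fin.cons b (Fin.tail ε'))) m) l
      rw [Fin.tail_cons, Lsk_cons_tail] at h1
      exact h1
    rw [hk0, Lsk_zero_succ, Fin.tail_cons, Fin.cons_zero]
    apply mul_le_mul hb _ (norm_nonneg _) (by positivity)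
    refine hε'.trans (le_of_eq ?_)
    apply Finset.prod_congr rfl
    intro l _
    rw [hks, hL]

/-- The window sizes. -/
def K0 (l : ℕ) : ℕ := 16 ^ (l + 1)

lemma K0_pos (l : ℕ) : 0 < K0 l := by unfold K0; positivity

lemma K0_even (l : ℕ) : 2 * (K0 l / 2) = K0 l := by
  unfold K0
  rw [pow_succ]
  omega

lemma kap_K0 (J l : ℕ) : kap J K0 l = ww J l := rfl

/-- Size of the skew coordinates on a box. -/
lemma Lsk_abs_le (J : ℕ) : ∀ (K : ℕ → ℕ) (M : ℕ), (∀ i < J, K i ≤ M) →
    ∀ (ε : Fin (J + 1) → Bool) (m : Fin (J + 1) → ℤ) (R : ℕ), (∀ l, |m l| ≤ R) →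
    ∀ l, |Lsk J K ε m l| ≤ (1 + M) * R := by
  induction J with
  | zero =>
    intro K M hM ε m R hm l
    have h := hm l
    have h2 : (0:ℤ) ≤ (M:ℤ) * R := by positivity
    simp only [Lsk]
    linarith
  | succ J ih =>
    intro K M hM ε m R hm l
    refine Fin.cases ?_ (fun l' => ?_) l
    · rw [Lsk_zero_succ]
      have h0 := hm 0
      have h1 : |Fin.tail m 0| ≤ R := hm (Fin.succ 0)
      have hK : ((K 0 : ℕ) : ℤ) ≤ M := by exact_mod_cast hM 0 (by omega)
      split_ifs with h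
      · have h2 : |(K 0 : ℤ) * Fin.tail m 0| ≤ (M:ℤ) * R := by
          rw [abs_mul]
          have h3 : |(K 0 : ℤ)| = (K 0 : ℤ) := abs_of_nonneg (by positivity)
          rw [h3]
          exact mul_le_mul hK h1 (abs_nonneg _) (by positivity)
        have h4 := abs_add_le (m 0) ((K 0 : ℤ) * Fin.tail m 0)
        linarith
      · rw [add_zero]
        have h2 : (0:ℤ) ≤ (M:ℤ) * R := by positivity
        linarith
    · have h1 := congrFun (Lsk_tail J K ε m) l'
      have h2 : Lsk (J + 1) K ε m (Fin.succ l') =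
          Lsk J (fun i => K (i + 1)) (Fin.tail ε) (Fin.tail m) l' := h1
      rw [h2]
      exact ih (fun i => K (i + 1)) M (fun i hi => hM (i + 1) (by omega)) (Fin.tail ε)
        (Fin.tail m) R (fun l => hm (Fin.succ l)) l'

end Pool.Agent.Helper18.BF
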