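import Pool.Agent.Helper18.BFBlock

open scoped Real ENNReal
open Finset

namespace Pool.Agent.Helper18.BF

lemma sum_le_of_tsum_le {ι : Type*} (g : ι → ℝ) (hg : ∀ i, 0 ≤ g i) (Q : ℝ) (hQ : 0 ≤ Q)
    (h : ∑' i, ENNReal.ofReal (g i) ≤ ENNReal.ofReal Q) (F : Finset ι) : ∑ i ∈ F, g i ≤ Q := by
  rw [← ENNReal.ofReal_le_ofReal_iff hQ, ENNReal.ofReal_sum_of_nonneg (fun i _ => hg i)]
  exact (ENNReal.sum_le_tsum F).trans h

/-- Exponent of the cutoff. -/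
def kR (J : ℕ) : ℕ := 2 * J ^ 2 + 15 * J + 9

lemma prod_sqrt_K0 (J : ℕ) : ∏ i ∈ range J, √(K0 i : ℝ) = 2 ^ (J ^ 2 + J) := by
  induction J with
  | zero => simp
  | succ J ih =>
    rw [Finset.prod_range_succ, ih]
    have h1 : √(K0 J : ℝ) = 4 ^ (J + 1) := by
      unfold K0
      push_cast
      rw [show (16:ℝ) = 4 ^ 2 by norm_num, ← pow_mul, mul_comm 2 (J + 1), pow_mul]
      exact Real.sqrt_sq (by positivity)
    rw [h1, show (4:ℝ) = 2 ^ 2 by norm_num, ← pow_mul, ← pow_add]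
    congr 1
    ring

lemma rpow_quarter (k : ℕ) : ((2:ℝ) ^ (4 * k)) ^ ((1:ℝ) / 4) = 2 ^ k := by
  rw [mul_comm 4 k, pow_mul, show (1:ℝ) / 4 = ((4:ℕ):ℝ)⁻¹ by norm_num]
  exact Real.pow_rpow_inv_natCast (by positivity) (by norm_num)

lemma Q_le (J : ℕ) : 4 * (((J:ℝ) + 1) * ((50 / (1 / (4 * ((J:ℝ) + 1)))) ^ J *
    (∏ i ∈ range J, √(K0 i : ℝ)) * (8 * (K0 J : ℝ)))) * 2 ^ J ≤ 2 ^ (kR J) := by
  rw [prod_sqrt_K0]
  have h1 : (J:ℝ) + 1 ≤ 2 ^ J := by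
    have : J + 1 ≤ 2 ^ J := Nat.lt_two_pow_self
    exact_mod_cast this
  have h2 : (50:ℝ) / (1 / (4 * ((J:ℝ) + 1))) ≤ 2 ^ (8 + J) := by
    rw [div_div_eq_mul_div, div_one, pow_add]
    have : (0:ℝ) ≤ J := Nat.cast_nonneg J
    norm_num
    nlinarith
  have h3 : (K0 J : ℝ) = 2 ^ (4 * J + 4) := by
    unfold K0
    push_cast
    rw [show (16:ℝ) = 2 ^ 4 by norm_num, ← pow_mul]
    congr 1
  rw [h3]
  calc _ ≤ 4 * ((2:ℝ) ^ J * ((2 ^ (8 + J)) ^ J * 2 ^ (J ^ 2 + J) * (8 * 2 ^ (4 * J + 4)))) *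
        2 ^ J := by gcongr
    _ = 2 ^ 2 * ((2:ℝ) ^ J * ((2 ^ (8 + J)) ^ J * 2 ^ (J ^ 2 + J) *
        (2 ^ 3 * 2 ^ (4 * J + 4)))) * 2 ^ J := by norm_num
    _ = 2 ^ (kR J) := by
        simp only [← pow_mul, ← pow_add]
        congr 1
        unfold kR
        ring

/-- The mass of the coefficients outside the box. -/
theorem tail_mass (J : ℕ) (F : Finset (Fin (J + 1) → ℤ))
    (hF : ∀ m ∈ F, ∃ l, ((2 ^ (4 * kR J) : ℕ) : ℤ) < |m l|) :
    ∑ m ∈ F, ‖cf J m‖ ≤ (1 / 2) ^ J := by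
  set Q : ℝ := (50 / (1 / (4 * ((J:ℝ) + 1)))) ^ J *
    (∏ i ∈ range J, √(K0 i : ℝ)) * (8 * (K0 J : ℝ)) with hQ
  have hQ0 : 0 ≤ Q := by positivity
  have hJ : (0:ℝ) ≤ J := Nat.cast_nonneg J
  have hl : ∀ l : Fin (J + 1), ∑ m ∈ F, ‖aa J K0 m‖ * om (m l) ^ ((1:ℝ) / 4) ≤ Q := by
    intro l
    have h1 := mass_le J K0 K0_pos 0 (1 / 4) (1 / (4 * ((J:ℝ) + 1))) l le_rfl (by norm_num)
      (by positivity) (by
        rw [div_le_one (by positivity)]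
        linarith) (by
        rw [zero_add]
        have : (J:ℝ) * (1 / (4 * ((J:ℝ) + 1))) ≤ 1 / 4 := by
          rw [mul_one_div, div_le_div_iff₀ (by positivity) (by norm_num)]
          linarith
        linarith)
    have h2 := sum_le_of_tsum_le _ (fun m => by
      have := om_pos (m 0)
      have := om_pos (m l)
      positivity) Q hQ0 h1 F
    refine le_trans (le_of_eq ?_) h2
    apply Finset.sum_congr rfl
    intro m _
    rw [Real.rpow_zero, one_mul]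
  have h1 : ∀ m ∈ F, ‖cf J m‖ ≤ ∑ l : Fin (J + 1),
      4 / 2 ^ (kR J) * (‖aa J K0 m‖ * om (m l) ^ ((1:ℝ) / 4)) := by
    intro m hm
    obtain ⟨l, hl⟩ := hF m hm
    have h2 : 4 / 2 ^ (kR J) * (‖aa J K0 m‖ * om (m l) ^ ((1:ℝ) / 4)) ≤ ∑ l : Fin (J + 1),
        4 / 2 ^ (kR J) * (‖aa J K0 m‖ * om (m l) ^ ((1:ℝ) / 4)) := by
      apply Finset.single_le_sum (f := fun l : Fin (J + 1) =>
        4 / 2 ^ (kR J) * (‖aa J K0 m‖ * om (m l) ^ ((1:ℝ) / 4))) _ (Finset.mem_univ l)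
      intro l' _
      have := om_pos (m l')
      positivity
    refine le_trans ?_ h2
    have h3 : (2:ℝ) ^ kR J ≤ om (m l) ^ ((1:ℝ) / 4) := by
      rw [← rpow_quarter]
      apply Real.rpow_le_rpow (by positivity) _ (by norm_num)
      have h4 : (((2 ^ (4 * kR J) : ℕ) : ℤ) : ℝ) < ((|m l| : ℤ) : ℝ) := by exact_mod_cast hl
      push_cast at h4
      exact h4.le.trans (le_max_right _ _)
    have h5 := norm_cf_le J m
    refine h5.trans ?_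
    rw [div_mul_eq_mul_div, le_div_iff₀ (by positivity)]
    have h6 : ‖aa J K0 m‖ * 2 ^ kR J ≤ ‖aa J K0 m‖ * om (m l) ^ ((1:ℝ) / 4) :=
      mul_le_mul_of_nonneg_left h3 (norm_nonneg _)
    linarith
  refine (Finset.sum_le_sum h1).trans ?_
  rw [Finset.sum_comm]
  have h2 : ∑ l : Fin (J + 1), ∑ m ∈ F, 4 / 2 ^ (kR J) *
      (‖aa J K0 m‖ * om (m l) ^ ((1:ℝ) / 4)) ≤ ∑ _l : Fin (J + 1), 4 / 2 ^ (kR J) * Q := by
    apply Finset.sum_le_sum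
    intro l _
    rw [← Finset.mul_sum]
    exact mul_le_mul_of_nonneg_left (hl l) (by positivity)
  refine h2.trans ?_
  rw [Finset.sum_const, Finset.card_univ, Fintype.card_fin, nsmul_eq_mul]
  push_cast
  have h3 := Q_le J
  rw [← hQ] at h3
  rw [one_div, inv_pow, ← one_div, le_div_iff₀ (by positivity)]
  have h4 : ((J:ℝ) + 1) * (4 / 2 ^ kR J * Q) * 2 ^ J = (4 * (((J:ℝ) + 1) * Q) * 2 ^ J) / 2 ^ kR J := by
    ring
  rw [h4, div_le_one (by positivity)]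
  exact h3

lemma exists_bd {D : ℕ} (s : Finset (Fin D → ℤ)) :
    ∃ A : ℤ, 0 ≤ A ∧ ∀ a ∈ s, ∀ i, |a i| ≤ A := by
  refine ⟨∑ a ∈ s, ∑ i, |a i|, ?_, ?_⟩
  · exact Finset.sum_nonneg (fun a _ => Finset.sum_nonneg (fun i _ => abs_nonneg _))
  · intro a ha i
    calc |a i| ≤ ∑ i, |a i| :=
          Finset.single_le_sum (f := fun i => |a i|) (fun i _ => abs_nonneg _) (Finset.mem_univ i)
      _ ≤ _ := Finset.single_le_sum (f := fun a => ∑ i, |a i|)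
          (fun a _ => Finset.sum_nonneg (fun i _ => abs_nonneg _)) ha

lemma summable_norm_cf (J : ℕ) : Summable (fun m => ‖cf J m‖) := by
  refine Summable.of_nonneg_of_le (fun m => norm_nonneg _) (norm_cf_le J) ?_
  exact (summable_norm_aa J K0 K0_pos).mul_left 4

/-- Choice of the finite set of frequencies. -/
lemma exists_fin_tail (J : ℕ) {δ : ℝ} (hδ : 0 < δ) (F1 : Finset (Fin (J + 1) → ℤ)) :
    ∃ F : Finset (Fin (J + 1) → ℤ), F1 ⊆ F ∧ ∀ (g : (Fin (J + 1) → ℤ) → ℂ) (A : ℂ) (M : ℝ),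
      0 ≤ M → (∀ m, ‖g m‖ ≤ M * ‖cf J m‖) → HasSum g A → ‖A - ∑ m ∈ F, g m‖ ≤ M * δ := by
  classical
  have hs := summable_norm_cf J
  obtain ⟨F0, hF0⟩ := (summable_iff_vanishing_norm.1 hs) δ hδ
  refine ⟨F0 ∪ F1, subset_union_right, ?_⟩
  intro g A M hM hg hA
  have h1 : Filter.Tendsto (fun F : Finset (Fin (J + 1) → ℤ) => ‖∑ m ∈ F, g m -
      ∑ m ∈ F0 ∪ F1, g m‖) Filter.atTop (nhds ‖A - ∑ m ∈ F0 ∪ F1, g m‖) := by
    apply Filter.Tendsto.norm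
    exact Filter.Tendsto.sub_const hA _
  refine le_of_tendsto h1 ?_
  filter_upwards [Filter.eventually_ge_atTop (F0 ∪ F1)] with F hF
  have h2 : ∑ m ∈ F, g m - ∑ m ∈ F0 ∪ F1, g m = ∑ m ∈ F \ (F0 ∪ F1), g m := by
    rw [← Finset.sum_sdiff hF]
    ring
  rw [h2]
  refine (norm_sum_le _ _).trans ?_
  refine (Finset.sum_le_sum (fun m _ => hg m)).trans ?_
  rw [← Finset.mul_sum]
  apply mul_le_mul_of_nonneg_left _ hM
  have h3 := hF0 (F \ (F0 ∪ F1)) (by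
    rw [Finset.disjoint_left]
    intro m hm hm2
    rw [mem_sdiff, mem_union] at hm
    exact hm.2 (Or.inl hm2))
  rw [Real.norm_eq_abs] at h3
  exact (le_abs_self _).trans h3.le

end Pool.Agent.Helper18.BF
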