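import Pool.Agent.Helper18.BFLevel

open scoped Real
open Finset

namespace Pool.Agent.Helper18.BF

lemma norm_bb_le (D : ℕ) : ∀ (K : ℕ → ℕ) (ε : Fin (D + 1) → Bool) (m : Fin (D + 1) → ℤ),
    ‖bb D K ε m‖ ≤ ∏ l : Fin (D + 1), (2 * psi (K l / 2) (Lsk D K ε m l)) := by
  induction D with
  | zero =>
    intro K ε m
    simp only [bb, Lsk]
    rw [norm_mul, norm_e, mul_one, norm_mul, Complex.norm_real, Real.norm_eq_abs,
      abs_of_nonneg (psi_nonneg _ _)]
    simp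
  | succ D ih =>
    intro K ε m
    simp only [bb]
    rw [norm_mul, norm_mul, norm_e, mul_one, norm_mul, Complex.norm_real, Real.norm_eq_abs,
      abs_of_nonneg (psi_nonneg _ _), Fin.prod_univ_succ]
    have h1 := ih (fun i => K (i + 1)) (Fin.tail ε) (Fin.tail m)
    have h2 : ∏ l : Fin (D + 1), (2 * psi (K (l + 1) / 2)
        (Lsk D (fun i => K (i + 1)) (Fin.tail ε) (Fin.tail m) l)) =
        ∏ l : Fin (D + 1), (2 * psi (K ((Fin.succ l : Fin (D + 2)) : ℕ) / 2)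
          (Lsk (D + 1) K ε m (Fin.succ l))) := by
      apply Finset.prod_congr rfl
      intro l _
      have h3 := congrFun (Lsk_tail D K ε m) l
      have h4 : Lsk (D + 1) K ε m (Fin.succ l) =
          Lsk D (fun i => K (i + 1)) (Fin.tail ε) (Fin.tail m) l := h3
      rw [h4, Fin.val_succ]
    rw [← h2]
    have h5 : ‖(2:ℂ)‖ = 2 := by simp
    rw [h5]
    have h6 := psi_nonneg (K 0 / 2) (Lsk (D + 1) K ε m 0)
    apply mul_le_mul _ h1 (norm_nonneg _) (by positivity)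
    simp

lemma K0_half_pos (l : ℕ) : 0 < K0 l / 2 := by
  have h1 := K0_even l
  have h2 := K0_pos l
  omega

lemma norm_bb_le' (D : ℕ) (ε : Fin (D + 1) → Bool) (m : Fin (D + 1) → ℤ) :
    ‖bb D K0 ε m‖ ≤ ∏ l : Fin (D + 1), (4 / (K0 l : ℝ)) := by
  refine (norm_bb_le D K0 ε m).trans ?_
  apply Finset.prod_le_prod
  · intro l _
    have := psi_nonneg (K0 l / 2) (Lsk D K0 ε m l)
    positivity
  · intro l _
    have h1 := psi_le (K0_half_pos l) (Lsk D K0 ε m l)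
    have h2 : ((K0 l / 2 : ℕ) : ℝ) = (K0 l : ℝ) / 2 := by
      have h3 : ((2 * (K0 l / 2) : ℕ) : ℝ) = (K0 l : ℝ) := by exact_mod_cast K0_even l
      push_cast at h3
      linarith
    rw [h2] at h1
    have h4 : (0:ℝ) < K0 l := by exact_mod_cast K0_pos l
    calc 2 * psi (K0 l / 2) (Lsk D K0 ε m l) ≤ 2 * (1 / ((K0 l : ℝ) / 2)) := by linarith
      _ = 4 / (K0 l : ℝ) := by field_simp; norm_num

lemma bb_eq_zero (D : ℕ) (ε : Fin (D + 1) → Bool) (m : Fin (D + 1) → ℤ) (l : Fin (D + 1))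
    (h : ((K0 l / 2 : ℕ) : ℤ) ≤ |Lsk D K0 ε m l|) : bb D K0 ε m = 0 := by
  have h1 := norm_bb_le D K0 ε m
  have h2 : ∏ l : Fin (D + 1), (2 * psi (K0 l / 2) (Lsk D K0 ε m l)) = 0 := by
    apply Finset.prod_eq_zero (Finset.mem_univ l)
    rw [psi_eq_zero h, mul_zero]
  rw [h2] at h1
  exact norm_le_zero_iff.1 h1

lemma prod_K0 (D : ℕ) : ∏ l : Fin (D + 1), (4 / (K0 l : ℝ)) =
    2 ^ (2 * D + 2) / 2 ^ (2 * (D + 1) * (D + 2)) := by
  rw [Finset.prod_div_distrib, Finset.prod_const, Finset.card_univ, Fintype.card_fin]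
  congr 1
  · rw [show (4:ℝ) = 2 ^ 2 by norm_num, ← pow_mul]
    congr 1
  · rw [Fin.prod_univ_eq_prod_range (fun l => (K0 l : ℝ))]
    induction D with
    | zero => simp [K0]; norm_num
    | succ D ih =>
      rw [Finset.prod_range_succ, ih]
      unfold K0
      push_cast
      rw [show (16:ℝ) = 2 ^ 4 by norm_num, ← pow_mul, ← pow_add]
      congr 1
      ring

/-- Constant of the undecided part. -/
noncomputable def GamU (D : ℕ) : ℝ :=
  4 ^ (D + 1) * (32 * (1 / 4) ^ (D ^ 2) + 2 * ((8 ^ (D + 1)) ^ 2 *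
    (2 ^ (D + 2) * (gam D + thr D))))

open Classical in
/-- One branch of the undecided count. -/
theorem branch_bound {L d q D : ℕ} (hq : 0 < q) (hL : D + 1 ≤ L) (s : Finset (Fin d → ℤ))
    (f : (Fin d → ℤ) → ℝ) (hf0 : ∀ a, 0 ≤ f a) (S2 : ℝ)
    (hS2 : 0 < S2) (hS : ∑ a ∈ s, f a ^ 2 ≤ S2) (hf1 : ∀ a ∈ s, |f a| ≤ thr D * √S2)
    (hf2 : ∀ a ∈ s, thr (D + 1) * √S2 ≤ f a) (ε : Fin (D + 1) → Bool)
    (Λ : Finset (Fin (D + 1) → ℤ)) (hΛ : ∀ m, m ∈ Λ ↔ m ≠ 0 ∧
      ∀ l : Fin (D + 1), |Lsk D K0 ε m l| ≤ ((K0 l / 2 : ℕ) : ℤ))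
    (A : ℤ) (hA : ∀ a ∈ s, ∀ i, |a i| ≤ A)
    (B : ℤ) (hB : ∀ m ∈ Λ, ∀ l, |m l| ≤ B) (hAB : 4 * (B * A) < q) :
    ∃ X : ZZ L d q → ℝ, (∀ Z, 0 ≤ X Z) ∧
      (∀ Z (y : ℕ → ℝ), (∑ a ∈ s, f a * GG D K0 ε (1 / 2) (fun l => y l + uu Z a l)) ^ 2 ≤ X Z) ∧
      avR X ≤ S2 * (32 * (1 / 4) ^ (D ^ 2) + 2 * ((8 ^ (D + 1)) ^ 2 *
        (2 ^ (D + 2) * (gam D + thr D)))) := by
  set c : (Fin (D + 1) → ℤ) → ℂ := fun m =>
    bb D K0 ε m * e (-(if ε 0 then m 0 * (1 / 2 : ℝ) else 0)) with hc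
  have hcn : ∀ m, ‖c m‖ = ‖bb D K0 ε m‖ := by
    intro m
    rw [hc]
    simp only [norm_mul, norm_e, mul_one]
  refine ⟨fun Z => 32 * (1 / 4) ^ (D ^ 2) * S2 + 2 * XL s f Λ c Z, ?_, ?_, ?_⟩
  · intro Z
    have := XL_nonneg s f Λ c Z
    positivity
  · intro Z y
    set T : ℝ := ∑ a ∈ s, f a * GG D K0 ε (1 / 2) (fun l => y l + uu Z a l) with hT
    have hsum : HasSum (fun m => c m * hh s f m Z * e (dotu m y)) ((T : ℝ) : ℂ) := by
      have h1 : HasSum (fun m : Fin (D + 1) → ℤ => ∑ a ∈ s, (f a : ℂ) *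
          (bb D K0 ε m * e (-(if ε 0 then m 0 * (1 / 2 : ℝ) else 0)) *
            e (dotu m (fun l => y l + uu Z a l))))
          (∑ a ∈ s, (f a : ℂ) * ((GG D K0 ε (1 / 2) (fun l => y l + uu Z a l) : ℝ) : ℂ)) := by
        apply hasSum_sum
        intro a _
        exact (hasSum_GG D K0 ε (1 / 2) (fun l => y l + uu Z a l)).mul_left _
      have h2 : (fun m : Fin (D + 1) → ℤ => c m * hh s f m Z * e (dotu m y)) =
          (fun m : Fin (D + 1) → ℤ => ∑ a ∈ s, (f a : ℂ) *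
          (bb D K0 ε m * e (-(if ε 0 then m 0 * (1 / 2 : ℝ) else 0)) *
            e (dotu m (fun l => y l + uu Z a l)))) := by
        ext m
        rw [hc]
        unfold hh
        simp only
        rw [Finset.mul_sum, Finset.sum_mul]
        apply Finset.sum_congr rfl
        intro a _
        rw [dotu_add, e_add]
        ring
      rw [h2, hT]
      push_cast
      exact h1
    have h0Λ : (0 : Fin (D + 1) → ℤ) ∉ Λ := fun h => ((hΛ 0).1 h).1 rfl
    have hfin : ((T:ℝ):ℂ) = ∑ m ∈ insert 0 Λ, c m * hh s f m Z * e (dotu m y) := by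
      refine hsum.unique (hasSum_sum_of_ne_finset_zero ?_)
      intro m hm
      rw [mem_insert, not_or] at hm
      have h1 : ∃ l : Fin (D + 1), ((K0 l / 2 : ℕ) : ℤ) < |Lsk D K0 ε m l| := by
        by_contra hcon
        push Not at hcon
        exact hm.2 ((hΛ m).2 ⟨hm.1, hcon⟩)
      obtain ⟨l, hl⟩ := h1
      rw [hc]
      simp only
      rw [bb_eq_zero D ε m l hl.le]
      simp
    rw [Finset.sum_insert h0Λ] at hfin
    have hS1 : ∑ a ∈ s, f a ≤ 2 ^ ((D + 2) ^ 2) * √S2 := by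
      have hsq := Real.sqrt_pos.2 hS2
      have h1 : ∀ a ∈ s, f a ≤ 2 ^ ((D + 2) ^ 2) / √S2 * f a ^ 2 := by
        intro a ha
        have h2 := hf2 a ha
        unfold thr at h2
        have h3 : √S2 ≤ 2 ^ ((D + 2) ^ 2) * f a := by
          have h4 : (0:ℝ) < 2 ^ ((D + 2) ^ 2) := by positivity
          have h5 : (1:ℝ) / 2 ^ ((D + 1 + 1) ^ 2) * √S2 = √S2 / 2 ^ ((D + 2) ^ 2) := by ring
          rw [h5, div_le_iff₀ h4] at h2
          linarith
        rw [div_mul_eq_mul_div, le_div_iff₀ hsq]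
        have h6 := hf0 a
        nlinarith
      calc ∑ a ∈ s, f a ≤ ∑ a ∈ s, 2 ^ ((D + 2) ^ 2) / √S2 * f a ^ 2 := Finset.sum_le_sum h1
        _ = 2 ^ ((D + 2) ^ 2) / √S2 * ∑ a ∈ s, f a ^ 2 := by rw [Finset.mul_sum]
        _ ≤ 2 ^ ((D + 2) ^ 2) / √S2 * S2 := by gcongr
        _ = 2 ^ ((D + 2) ^ 2) * √S2 := by
            rw [div_mul_eq_mul_div, mul_div_assoc]
            congr 1
            exact Real.div_sqrt
    have hz : ‖c 0 * hh s f (0 : Fin (D + 1) → ℤ) Z * e (dotu (0 : Fin (D + 1) → ℤ) y)‖ ≤ 4 * (1 / 2) ^ (D ^ 2) * √S2 := by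
      rw [norm_mul, norm_mul, norm_e, mul_one, hcn]
      have h1 := norm_bb_le' D ε 0
      rw [prod_K0] at h1
      have h2 := norm_hh_le s f (0 : Fin (D + 1) → ℤ) Z
      have h3 : ∑ a ∈ s, |f a| = ∑ a ∈ s, f a :=
        Finset.sum_congr rfl (fun a _ => abs_of_nonneg (hf0 a))
      rw [h3] at h2
      calc _ ≤ (2 ^ (2 * D + 2) / 2 ^ (2 * (D + 1) * (D + 2))) * (2 ^ ((D + 2) ^ 2) * √S2) :=
            mul_le_mul h1 (h2.trans hS1) (norm_nonneg _) (by positivity)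
        _ = 4 * (1 / 2) ^ (D ^ 2) * √S2 := by
            have h5 : (2:ℝ) ^ (2 * D + 2) * 2 ^ ((D + 2) ^ 2) * 2 ^ (D ^ 2) =
                4 * 2 ^ (2 * (D + 1) * (D + 2)) := by
              rw [show (4:ℝ) = 2 ^ 2 by norm_num, ← pow_add, ← pow_add, ← pow_add]
              congr 1
              ring
            rw [one_div, inv_pow]
            field_simp
            linarith
    have h1 : |T| ≤ 4 * (1 / 2) ^ (D ^ 2) * √S2 +
        ‖∑ m ∈ Λ, c m * hh s f m Z * e (dotu m y)‖ := by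
      have e1 : |T| = ‖((T:ℝ):ℂ)‖ := by rw [Complex.norm_real, Real.norm_eq_abs]
      rw [e1, hfin]
      refine (norm_add_le _ _).trans ?_
      linarith
    have h2 := sup_le_XL s f Λ c Z y
    have h3 : T ^ 2 ≤ (4 * (1 / 2) ^ (D ^ 2) * √S2 +
        ‖∑ m ∈ Λ, c m * hh s f m Z * e (dotu m y)‖) ^ 2 := by
      rw [← sq_abs]
      exact pow_le_pow_left₀ (abs_nonneg _) h1 2
    have h4 : (4 * (1 / 2) ^ (D ^ 2) * √S2) ^ 2 = 16 * (1 / 4) ^ (D ^ 2) * S2 := by
      rw [mul_pow, Real.sq_sqrt hS2.le, mul_pow, ← pow_mul, mul_comm (D ^ 2) 2, pow_mul]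
      norm_num
    have h5 : ∀ a b : ℝ, (a + b) ^ 2 ≤ 2 * a ^ 2 + 2 * b ^ 2 := by
      intro a b
      nlinarith [sq_nonneg (a - b)]
    have h6 := h5 (4 * (1 / 2) ^ (D ^ 2) * √S2) ‖∑ m ∈ Λ, c m * hh s f m Z * e (dotu m y)‖
    rw [h4] at h6
    linarith
  · rw [avR_add, avR_const hq, avR_mul_left]
    have h1 := flat_bound hq hL s f (LskL D K0 ε) (LskL_injective D K0 ε) Λ
      (fun l : Fin (D + 1) => K0 l / 2) (by
        intro l
        have h2 := K0_even l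
        have h3 : ww D l ≤ K0 l := by
          unfold ww K0
          split_ifs
          · exact le_rfl
          · exact Nat.one_le_pow _ _ (by norm_num)
        show ww D l ≤ 2 * (K0 l / 2) + 1
        omega)
      (fun m hm l => ((hΛ m).1 hm).2 l) (fun h => ((hΛ 0).1 h).1 rfl) c
      (∏ l : Fin (D + 1), (4 / (K0 l : ℝ))) (8 ^ (D + 1))
      (Finset.prod_nonneg (fun l _ => by positivity))
      (fun m _ => by rw [hcn]; exact norm_bb_le' D ε m)
      (by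
        push_cast
        rw [← Finset.prod_mul_distrib]
        calc ∏ l : Fin (D + 1), ((4 / (K0 l : ℝ)) * (2 * ((K0 l / 2 : ℕ) : ℝ) + 1)) ≤
            ∏ _l : Fin (D + 1), (8:ℝ) := by
              apply Finset.prod_le_prod
              · intro l _
                positivity
              · intro l _
                have h2 : (2 * ((K0 l / 2 : ℕ) : ℝ)) = K0 l := by exact_mod_cast K0_even l
                have h3 : (1:ℝ) ≤ K0 l := by exact_mod_cast K0_pos l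
                rw [h2, div_mul_eq_mul_div, div_le_iff₀ (by linarith)]
                linarith
          _ = 8 ^ (D + 1) := by
              rw [Finset.prod_const, Finset.card_univ, Fintype.card_fin])
      A B hA hB hAB S2 (thr D) (thr_pos D).le hS
      (four_le s f hS2.le (thr_pos D).le hS hf1)
    linarith

end Pool.Agent.Helper18.BF
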