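import Pool.Agent.Helper18.BFUndec

open scoped Real
open Finset

namespace Pool.Agent.Helper18.BF

/-- The support of a branch majorant. -/
noncomputable def LamU (D : ℕ) (ε : Fin (D + 1) → Bool) : Finset (Fin (D + 1) → ℤ) :=
  ((Fintype.piFinset (fun l : Fin (D + 1) => Finset.Icc (-((K0 l / 2 : ℕ) : ℤ))
    ((K0 l / 2 : ℕ) : ℤ))).preimage (LskL D K0 ε)
      ((LskL_injective D K0 ε).injOn)).erase 0

lemma mem_LamU (D : ℕ) (ε : Fin (D + 1) → Bool) (m : Fin (D + 1) → ℤ) :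
    m ∈ LamU D ε ↔ m ≠ 0 ∧ ∀ l : Fin (D + 1), |Lsk D K0 ε m l| ≤ ((K0 l / 2 : ℕ) : ℤ) := by
  unfold LamU
  rw [mem_erase, mem_preimage, Fintype.mem_piFinset]
  simp only [Finset.mem_Icc, abs_le]
  rfl

/-- The undecided part of one depth. -/
theorem undec_bound {d : ℕ} (D : ℕ) (s : Finset (Fin d → ℤ)) (f : (Fin d → ℤ) → ℝ) (S2 : ℝ)
    (hS2 : 0 < S2) (hS : ∑ a ∈ s, f a ^ 2 ≤ S2) (hf1 : ∀ a ∈ s, |f a| ≤ thr D * √S2)
    (hf2 : ∀ a ∈ s, thr (D + 1) * √S2 ≤ |f a|) (L : ℕ) (hL : D + 1 ≤ L) :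
    ∃ q0 : ℕ, ∀ q, q0 ≤ q → 0 < q → ∃ X : ZZ L d q → ℝ, (∀ Z, 0 ≤ X Z) ∧
      (∀ Z (y : ℕ → ℝ), (∑ a ∈ s, |f a| * NN (D + 1) K0 (1 / 2)
        (fun l => y l + uu Z a l)) ^ 2 ≤ X Z) ∧ avR X ≤ S2 * GamU D := by
  classical
  obtain ⟨A, hA0, hA⟩ := exists_bd s
  obtain ⟨B, hB0, hB⟩ := exists_bd (Finset.univ.biUnion (fun ε => LamU D ε))
  refine ⟨(4 * ((((0 : ℕ) : ℤ) + B) * A)).toNat + 1, ?_⟩
  intro q hq hq0
  obtain ⟨_, hq2⟩ := q_arith 0 A B hA0 hB0 q hq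
  have h1 : ∀ ε : Fin (D + 1) → Bool, ∃ X : ZZ L d q → ℝ, (∀ Z, 0 ≤ X Z) ∧
      (∀ Z (y : ℕ → ℝ), (∑ a ∈ s, |f a| * GG D K0 ε (1 / 2) (fun l => y l + uu Z a l)) ^ 2 ≤
        X Z) ∧ avR X ≤ S2 * (32 * (1 / 4) ^ (D ^ 2) + 2 * ((8 ^ (D + 1)) ^ 2 *
        (2 ^ (D + 2) * (gam D + thr D)))) := by
    intro ε
    refine branch_bound hq0 hL s (fun a => |f a|) (fun a => abs_nonneg _) S2 hS2 ?_ ?_ hf2 ε
      (LamU D ε) (mem_LamU D ε) A hA B ?_ hq2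
    · simp only [sq_abs]
      exact hS
    · intro a ha
      rw [abs_abs]
      exact hf1 a ha
    · intro m hm
      exact hB m (Finset.mem_biUnion.2 ⟨ε, Finset.mem_univ _, hm⟩)
  choose X hX0 hX hXa using h1
  refine ⟨fun Z => 2 ^ (D + 1) * ∑ ε, X ε Z, ?_, ?_, ?_⟩
  · intro Z
    exact mul_nonneg (by positivity) (Finset.sum_nonneg (fun ε _ => hX0 ε Z))
  · intro Z y
    have h2 : ∑ a ∈ s, |f a| * NN (D + 1) K0 (1 / 2) (fun l => y l + uu Z a l) ≤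
        ∑ ε, ∑ a ∈ s, |f a| * GG D K0 ε (1 / 2) (fun l => y l + uu Z a l) := by
      rw [Finset.sum_comm]
      apply Finset.sum_le_sum
      intro a _
      rw [← Finset.mul_sum]
      exact mul_le_mul_of_nonneg_left (NN_le D K0 K0_pos K0_even _ _) (abs_nonneg _)
    have h3 : 0 ≤ ∑ a ∈ s, |f a| * NN (D + 1) K0 (1 / 2) (fun l => y l + uu Z a l) :=
      Finset.sum_nonneg (fun a _ => mul_nonneg (abs_nonneg _) (NN_nonneg _ _ _ _))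
    refine (pow_le_pow_left₀ h3 h2 2).trans ?_
    refine (sq_sum_le_card_mul_sum_sq).trans ?_
    have h4 : ((#(Finset.univ : Finset (Fin (D + 1) → Bool)) : ℕ) : ℝ) = 2 ^ (D + 1) := by
      rw [Finset.card_univ]
      simp
    rw [h4]
    exact mul_le_mul_of_nonneg_left (Finset.sum_le_sum (fun ε _ => hX ε Z y)) (by positivity)
  · rw [avR_mul_left, avR_sum]
    have h2 : ∑ ε, avR (X ε) ≤ ∑ _ε : Fin (D + 1) → Bool, S2 * (32 * (1 / 4) ^ (D ^ 2) +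
        2 * ((8 ^ (D + 1)) ^ 2 * (2 ^ (D + 2) * (gam D + thr D)))) :=
      Finset.sum_le_sum (fun ε _ => hXa ε)
    rw [Finset.sum_const, Finset.card_univ, nsmul_eq_mul] at h2
    have h3 : ((Fintype.card (Fin (D + 1) → Bool) : ℕ) : ℝ) = 2 ^ (D + 1) := by simp
    rw [h3] at h2
    unfold GamU
    have h4 : (4:ℝ) ^ (D + 1) = 2 ^ (D + 1) * 2 ^ (D + 1) := by
      rw [← mul_pow]
      norm_num
    rw [h4]
    have h5 : (0:ℝ) < 2 ^ (D + 1) := by positivity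
    have h6 := mul_le_mul_of_nonneg_left h2 h5.le
    linarith

end Pool.Agent.Helper18.BF
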