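import Pool.Agent.Helper18.BFFourier

open scoped ENNReal Real
open Finset

namespace Pool.Agent.Helper18.BF

/-- The weight `max 1 |m|`. -/
noncomputable def om (m : ℤ) : ℝ := max 1 |(m:ℝ)|

lemma one_le_om (m : ℤ) : 1 ≤ om m := le_max_left _ _

lemma om_pos (m : ℤ) : 0 < om m := lt_of_lt_of_le one_pos (one_le_om m)

lemma tsum_even_le (φ : ℤ → ℝ≥0∞) (ψ : ℕ → ℝ≥0∞) (h : ∀ m, φ m ≤ ψ m.natAbs) :
    ∑' m, φ m ≤ 2 * ∑' n, ψ n := by
  have h1 : ∑' m, φ m ≤ ∑' m : ℤ, ψ m.natAbs := ENNReal.tsum_le_tsum h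
  have h2 : ∑' m : ℤ, ψ m.natAbs = ∑' n : ℕ, ψ n + ∑' n : ℕ, ψ (n + 1) := by
    rw [tsum_of_nat_of_neg_add_one ENNReal.summable ENNReal.summable]
    congr 1
  have h3 : ∑' n : ℕ, ψ (n + 1) ≤ ∑' n : ℕ, ψ n :=
    ENNReal.tsum_comp_le_tsum_of_injective (f := fun n : ℕ => n + 1) (add_left_injective 1) ψ
  calc _ ≤ _ := h1
    _ = _ := h2
    _ ≤ ∑' n : ℕ, ψ n + ∑' n : ℕ, ψ n := by gcongr
    _ = _ := by rw [two_mul]

lemma sum_Ioc_inv_le_log {K : ℕ} (hK : 0 < K) (M : ℕ) (h : K ≤ M) :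
    ∑ x ∈ Ioc K M, (1 / (x:ℝ)) ≤ Real.log (M / K) := by
  induction M, h using Nat.le_induction with
  | base =>
    have : (K:ℝ) ≠ 0 := by positivity
    simp [this]
  | succ M hM ih =>
    rw [← Finset.insert_Ioc_right_eq_Ioc_add_one (by omega : K ≤ M),
      Finset.sum_insert (by simp)]
    have hMpos : 0 < M := by omega
    have h1 : (1:ℝ) / ((M + 1 : ℕ) : ℝ) ≤ Real.log (((M + 1 : ℕ) : ℝ) / M) := by
      have := Real.one_sub_inv_le_log_of_pos (x := ((M + 1 : ℕ) : ℝ) / M) (by positivity)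
      refine le_trans (le_of_eq ?_) this
      push_cast
      field_simp
      ring
    have h2 : Real.log (((M + 1 : ℕ) : ℝ) / K) =
        Real.log (((M + 1 : ℕ) : ℝ) / M) + Real.log (M / K) := by
      rw [← Real.log_mul (by positivity) (by positivity)]
      congr 1
      field_simp
    rw [h2]
    linarith

lemma sum_range_inv_max_le {K : ℕ} (hK : 0 < K) (N : ℕ) (h : K ≤ N) :
    ∑ x ∈ range (N + 1), (1 / max (K:ℝ) x) ≤ 2 + Real.log (N / K) := by
  have h1 : range (N + 1) = range (K + 1) ∪ Ioc K N := by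
    ext x
    simp
    omega
  rw [h1, Finset.sum_union (by
    rw [Finset.disjoint_left]
    intro x hx hx'
    simp at hx hx'
    omega)]
  have hK' : (0:ℝ) < K := by exact_mod_cast hK
  have h2 : ∑ x ∈ range (K + 1), (1 / max (K:ℝ) x) ≤ 2 := by
    calc ∑ x ∈ range (K + 1), (1 / max (K:ℝ) x) ≤ ∑ x ∈ range (K + 1), (1 / (K:ℝ)) := by
          apply Finset.sum_le_sum
          intro x _
          exact one_div_le_one_div_of_le hK' (le_max_left _ _)
      _ = (K + 1) / K := by
          rw [Finset.sum_const, card_range, nsmul_eq_mul]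
          push_cast
          ring
      _ ≤ 2 := by
          rw [div_le_iff₀ hK']
          have : (1:ℝ) ≤ K := by exact_mod_cast hK
          linarith
  have h3 : ∑ x ∈ Ioc K N, (1 / max (K:ℝ) x) ≤ Real.log (N / K) := by
    refine le_trans (Finset.sum_le_sum ?_) (sum_Ioc_inv_le_log hK N h)
    intro x hx
    have hx1 : 0 < x := by
      simp at hx
      omega
    exact one_div_le_one_div_of_le (by exact_mod_cast hx1) (le_max_right _ _)
  linarith

lemma inv_sqrt_tele {x : ℝ} (hx : 1 < x) :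
    1 / (x * √x) ≤ 2 * (1 / √(x - 1) - 1 / √x) := by
  have h1 : 0 < √x := Real.sqrt_pos.2 (by linarith)
  have h2 : 0 < √(x-1) := Real.sqrt_pos.2 (by linarith)
  have h3 : √x ^ 2 = x := Real.sq_sqrt (by linarith)
  have h4 : √(x-1) ^ 2 = x - 1 := Real.sq_sqrt (by linarith)
  set s := √x with hs
  set r := √(x-1) with hr
  have hrs : r ≤ s := Real.sqrt_le_sqrt (by linarith)
  have h5 : 1 / r - 1 / s = 1 / (r * s * (s + r)) := by
    have : (s - r) * (s + r) = 1 := by nlinarith
    field_simp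
    nlinarith
  rw [h5, ← h3]
  rw [mul_one_div, div_le_div_iff₀ (by positivity) (by positivity)]
  have h6 : r * s * (s + r) ≤ s * s * (s + s) := by gcongr
  nlinarith

lemma sum_range_tail_le {M : ℕ} (hM : 0 < M) (N : ℕ) :
    ∑ x ∈ range N, (if M < x then 1 / ((x:ℝ) * √x) else 0) ≤ 2 * (1 / √(M:ℝ)) := by
  have key : ∀ N : ℕ, M + 1 ≤ N → ∑ x ∈ range N, (if M < x then 1 / ((x:ℝ) * √x) else 0) ≤
      2 * (1 / √(M:ℝ) - 1 / √((N:ℝ) - 1)) := by
    intro N hN
    induction N, hN using Nat.le_induction with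
    | base =>
      have h0 : ∑ x ∈ range (M + 1), (if M < x then 1 / ((x:ℝ) * √x) else 0) = 0 := by
        apply Finset.sum_eq_zero
        intro x hx
        rw [mem_range] at hx
        rw [if_neg (by omega)]
      rw [h0]
      simp
    | succ N hN ih =>
      rw [Finset.sum_range_succ, if_pos (by omega)]
      have hN1 : (1:ℝ) < N := by
        have : 1 < N := by omega
        exact_mod_cast this
      have := inv_sqrt_tele hN1
      have h2 : (((N + 1 : ℕ) : ℝ) - 1) = N := by push_cast; ring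
      rw [h2]
      linarith
  rcases Nat.lt_or_ge N (M + 1) with h | h
  · have h0 : ∑ x ∈ range N, (if M < x then 1 / ((x:ℝ) * √x) else 0) = 0 := by
      apply Finset.sum_eq_zero
      intro x hx
      rw [mem_range] at hx
      rw [if_neg (by omega)]
    rw [h0]
    positivity
  · refine (key N h).trans ?_
    have : 0 ≤ 1 / √((N:ℝ) - 1) := by positivity
    linarith

lemma tsum_tail_le {M : ℕ} (hM : 0 < M) {α : ℝ} (hα : α ≤ 1 / 2) :
    ∑' x : ℕ, (if M < x then ENNReal.ofReal ((x:ℝ) ^ (α - 2)) else 0) ≤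
      ENNReal.ofReal (2 * (M:ℝ) ^ (α - 1)) := by
  have hM' : (0:ℝ) < M := by exact_mod_cast hM
  apply ENNReal.tsum_le_of_sum_range_le
  intro N
  have h1 : ∀ x ∈ range N, (if M < x then ENNReal.ofReal ((x:ℝ) ^ (α - 2)) else 0) ≤
      ENNReal.ofReal ((M:ℝ) ^ (α - 1/2) * (if M < x then 1 / ((x:ℝ) * √x) else 0)) := by
    intro x _
    by_cases hx : M < x
    · rw [if_pos hx, if_pos hx]
      apply ENNReal.ofReal_le_ofReal
      have hx0 : (0:ℝ) < x := by
        have : 0 < x := by omega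
        exact_mod_cast this
      have h2 : (x:ℝ) ^ (α - 2) = (x:ℝ) ^ (α - 1/2) * (1 / ((x:ℝ) * √x)) := by
        rw [show α - 2 = (α - 1/2) + (-(3/2)) by ring, Real.rpow_add hx0]
        congr 1
        rw [Real.rpow_neg hx0.le, show (3/2 : ℝ) = 1 + 1/2 by norm_num, Real.rpow_add hx0,
          Real.rpow_one, ← Real.sqrt_eq_rpow, one_div]
      rw [h2]
      apply mul_le_mul_of_nonneg_right _ (by positivity)
      apply Real.rpow_le_rpow_of_nonpos hM' _ (by linarith)
      exact_mod_cast hx.le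
    · rw [if_neg hx]
      exact zero_le
  refine (Finset.sum_le_sum h1).trans ?_
  rw [← ENNReal.ofReal_sum_of_nonneg]
  · apply ENNReal.ofReal_le_ofReal
    rw [← Finset.mul_sum]
    have h3 := sum_range_tail_le hM N
    have h4 : (M:ℝ) ^ (α - 1) = (M:ℝ) ^ (α - 1/2) * (1 / √(M:ℝ)) := by
      have hh : (M:ℝ) ^ (-(1/2:ℝ)) = 1 / √(M:ℝ) := by
        rw [Real.rpow_neg hM'.le, ← Real.sqrt_eq_rpow, one_div]
      rw [show α - 1 = (α - 1/2) + (-(1/2)) by ring, Real.rpow_add hM', hh]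
    rw [h4]
    have h5 : 0 ≤ (M:ℝ) ^ (α - 1/2) := by positivity
    nlinarith [mul_le_mul_of_nonneg_left h3 h5]
  · intro x _
    split_ifs <;> positivity

lemma tsum_low_le {K : ℕ} (hK : 0 < K) (N : ℕ) (h : K ≤ N) {c : ℝ} (hc : 0 ≤ c) :
    ∑' m : ℤ, (if m.natAbs ≤ N then ENNReal.ofReal (c * (2 / max (K:ℝ) |(m:ℝ)|)) else 0) ≤
      ENNReal.ofReal (c * (4 * (2 + Real.log (N / K)))) := by
  have h1 := tsum_even_le
    (fun m : ℤ => if m.natAbs ≤ N then ENNReal.ofReal (c * (2 / max (K:ℝ) |(m:ℝ)|)) else 0)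
    (fun x : ℕ => if x ≤ N then ENNReal.ofReal (c * (2 / max (K:ℝ) x)) else 0)
    (by
      intro m
      have : ((m.natAbs : ℕ) : ℝ) = |(m:ℝ)| := by
        rw [Nat.cast_natAbs]
        push_cast
        rfl
      rw [this])
  refine h1.trans ?_
  have h2 : ∑' x : ℕ, (if x ≤ N then ENNReal.ofReal (c * (2 / max (K:ℝ) x)) else 0) =
      ∑ x ∈ range (N + 1), ENNReal.ofReal (c * (2 / max (K:ℝ) x)) := by
    rw [tsum_eq_sum (s := range (N + 1))]
    · apply Finset.sum_congr rfl
      intro x hx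
      rw [mem_range] at hx
      rw [if_pos (by omega)]
    · intro x hx
      rw [mem_range] at hx
      rw [if_neg (by omega)]
  rw [h2, ← ENNReal.ofReal_sum_of_nonneg]
  · rw [show (2 : ℝ≥0∞) = ENNReal.ofReal 2 by simp, ← ENNReal.ofReal_mul (by norm_num)]
    apply ENNReal.ofReal_le_ofReal
    have h3 := sum_range_inv_max_le hK N h
    have h4 : ∑ x ∈ range (N + 1), c * (2 / max (K:ℝ) x) =
        c * 2 * ∑ x ∈ range (N + 1), (1 / max (K:ℝ) x) := by
      rw [Finset.mul_sum]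
      apply Finset.sum_congr rfl
      intro x _
      ring
    rw [h4]
    nlinarith [mul_le_mul_of_nonneg_left h3 hc]
  · intro x _
    have : 0 ≤ 2 / max (K:ℝ) x := by positivity
    positivity

/-- The key one-step weighted bound. -/
theorem tsum_tauHat_le {K : ℕ} (hK : 0 < K) {n : ℤ} (hn : n ≠ 0) {α ε : ℝ} (hα0 : 0 ≤ α)
    (hα : α ≤ 1 / 2) (hε0 : 0 < ε) (hε : ε ≤ 1) :
    ∑' m : ℤ, ENNReal.ofReal (‖tauHat K n m‖ * om m ^ α) ≤
      ENNReal.ofReal (50 / ε * (K:ℝ) ^ α * |(n:ℝ)| ^ (α + ε)) := by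
  set P : ℕ := K * n.natAbs with hP
  have hn' : 0 < n.natAbs := Int.natAbs_pos.2 hn
  have hPpos : 0 < P := Nat.mul_pos hK hn'
  have hK' : (0:ℝ) < K := by exact_mod_cast hK
  have hP' : (0:ℝ) < P := by exact_mod_cast hPpos
  have hP1 : (1:ℝ) ≤ P := by exact_mod_cast hPpos
  have hnabs : ((n.natAbs : ℕ) : ℝ) = |(n:ℝ)| := by
    rw [Nat.cast_natAbs]
    push_cast
    rfl
  have hn1 : (1:ℝ) ≤ |(n:ℝ)| := by
    rw [← hnabs]
    exact_mod_cast hn'
  have hPn : (P:ℝ) = |(n:ℝ)| * K := by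
    rw [hP]
    push_cast
    rw [← hnabs]
    push_cast
    ring
  have hmabs : ∀ m : ℤ, ((m.natAbs : ℕ) : ℝ) = |(m:ℝ)| := by
    intro m
    rw [Nat.cast_natAbs]
    push_cast
    rfl
  set c : ℝ := (2 * P : ℝ) ^ α with hc
  have hc0 : 0 ≤ c := by positivity
  have hpt : ∀ m : ℤ, ENNReal.ofReal (‖tauHat K n m‖ * om m ^ α) ≤
      (if m.natAbs ≤ 3 * P then ENNReal.ofReal (c * (2 / max (K:ℝ) |(m:ℝ)|)) else 0) +
      (if (m + n * K).natAbs ≤ 3 * P then
        ENNReal.ofReal (c * (2 / max (K:ℝ) |((m + n * K : ℤ) : ℝ)|)) else 0) +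
      (if 2 * P < m.natAbs then ENNReal.ofReal (P * ((m.natAbs : ℕ) : ℝ) ^ (α - 2)) else 0) := by
    intro m
    rcases Nat.lt_or_ge (2 * P) m.natAbs with hlt | hge
    · rw [if_pos hlt]
      refine le_trans ?_ (le_add_left le_rfl)
      apply ENNReal.ofReal_le_ofReal
      have hm0 : m ≠ 0 := by
        rintro rfl
        simp at hlt
      have hm1 : (2 * P : ℝ) < |(m:ℝ)| := by
        rw [← hmabs]
        exact_mod_cast hlt
      have hm2 : 0 < |(m:ℝ)| := by linarith
      have hom : om m = |(m:ℝ)| := by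
        unfold om
        rw [max_eq_right]
        linarith
      have h1 := norm_tauHat_far hK hm0 (n := n) (by rw [← hPn]; linarith)
      rw [hom, hmabs]
      calc ‖tauHat K n m‖ * |(m:ℝ)| ^ α ≤ (|(n:ℝ)| * K / (m:ℝ)^2) * |(m:ℝ)| ^ α :=
            mul_le_mul_of_nonneg_right h1 (by positivity)
        _ = P * |(m:ℝ)| ^ (α - 2) := by
            rw [Real.rpow_sub hm2, ← hPn]
            have : |(m:ℝ)| ^ (2:ℝ) = (m:ℝ)^2 := by
              rw [Real.rpow_two, sq_abs]
            rw [this]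
            ring
    · rw [if_pos (show m.natAbs ≤ 3 * P by omega)]
      have hmn : (m + n * K).natAbs ≤ 3 * P := by
        have h1 : (m + n * K).natAbs ≤ m.natAbs + (n * K).natAbs := Int.natAbs_add_le _ _
        have h2 : (n * K).natAbs = P := by
          rw [Int.natAbs_mul, Int.natAbs_natCast, hP]
          ring
        omega
      rw [if_pos hmn, ← ENNReal.ofReal_add (by positivity) (by positivity)]
      refine le_trans ?_ (le_add_right le_rfl)
      apply ENNReal.ofReal_le_ofReal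
      have hom : om m ≤ 2 * P := by
        unfold om
        apply max_le (by linarith)
        rw [← hmabs]
        exact_mod_cast hge
      have h1 : om m ^ α ≤ c := Real.rpow_le_rpow (om_pos m).le hom hα0
      have h2 := norm_tauHat_skew hK n m
      push_cast
      have h3 : 2 / max (K : ℝ) (min |(m : ℝ)| |(m + n * K : ℝ)|) ≤
          2 / max (K:ℝ) |(m:ℝ)| + 2 / max (K:ℝ) |(m + n * K : ℝ)| := by
        have ha : 0 ≤ 2 / max (K:ℝ) |(m:ℝ)| := by positivity
        have hb : 0 ≤ 2 / max (K:ℝ) |(m + n * K : ℝ)| := by positivity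
        rcases le_total |(m:ℝ)| |(m + n * K : ℝ)| with h | h
        · rw [min_eq_left h]; linarith
        · rw [min_eq_right h]; linarith
      calc ‖tauHat K n m‖ * om m ^ α ≤
            (2 / max (K:ℝ) |(m:ℝ)| + 2 / max (K:ℝ) |(m + n * K : ℝ)|) * c :=
            mul_le_mul (h2.trans h3) h1 (by have := om_pos m; positivity) (by positivity)
        _ = _ := by ring
  refine (ENNReal.tsum_le_tsum hpt).trans ?_
  rw [ENNReal.tsum_add, ENNReal.tsum_add]
  have hKP : K ≤ 3 * P := by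
    have : K ≤ K * n.natAbs := Nat.le_mul_of_pos_right K hn'
    omega
  have hlow := tsum_low_le hK (3 * P) hKP hc0
  have hshift : ∑' m : ℤ, (if (m + n * K).natAbs ≤ 3 * P then
        ENNReal.ofReal (c * (2 / max (K:ℝ) |((m + n * K : ℤ) : ℝ)|)) else 0) =
      ∑' m : ℤ, (if m.natAbs ≤ 3 * P then
        ENNReal.ofReal (c * (2 / max (K:ℝ) |(m : ℝ)|)) else 0) :=
    (Equiv.addRight (n * K : ℤ)).tsum_eq (fun m : ℤ => (if m.natAbs ≤ 3 * P then
        ENNReal.ofReal (c * (2 / max (K:ℝ) |(m : ℝ)|)) else 0))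
  rw [hshift]
  have htail : ∑' m : ℤ, (if 2 * P < m.natAbs then
      ENNReal.ofReal (P * ((m.natAbs : ℕ) : ℝ) ^ (α - 2)) else 0) ≤
      ENNReal.ofReal (2 * c) := by
    refine (tsum_even_le _ (fun x : ℕ => if 2 * P < x then
      ENNReal.ofReal (P * (x : ℝ) ^ (α - 2)) else 0) (fun m => le_rfl)).trans ?_
    have h1 : ∀ x : ℕ, (if 2 * P < x then ENNReal.ofReal (P * (x : ℝ) ^ (α - 2)) else 0) =
        ENNReal.ofReal P * (if 2 * P < x then ENNReal.ofReal ((x : ℝ) ^ (α - 2)) else 0) := by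
      intro x
      split_ifs
      · rw [ENNReal.ofReal_mul hP'.le]
      · simp
    simp_rw [h1]
    rw [ENNReal.tsum_mul_left]
    have h2 := tsum_tail_le (M := 2 * P) (by omega) hα
    calc 2 * (ENNReal.ofReal P * _) ≤
          2 * (ENNReal.ofReal P * ENNReal.ofReal (2 * ((2 * P : ℕ):ℝ) ^ (α - 1))) := by gcongr
      _ = ENNReal.ofReal (2 * c) := by
        rw [show (2 : ℝ≥0∞) = ENNReal.ofReal 2 by simp, ← ENNReal.ofReal_mul hP'.le,
          ← ENNReal.ofReal_mul (by norm_num)]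
        congr 1
        rw [hc]
        push_cast
        rw [Real.rpow_sub (by positivity), Real.rpow_one]
        field_simp
  calc _ ≤ ENNReal.ofReal (c * (4 * (2 + Real.log (((3 * P : ℕ) : ℝ) / K)))) +
        ENNReal.ofReal (c * (4 * (2 + Real.log (((3 * P : ℕ) : ℝ) / K)))) +
        ENNReal.ofReal (2 * c) := by gcongr
    _ ≤ _ := by
      have hlog : Real.log (((3 * P : ℕ) : ℝ) / K) = Real.log 3 + Real.log |(n:ℝ)| := by
        rw [← Real.log_mul (by norm_num) (by linarith)]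
        congr 1
        push_cast
        rw [hPn]
        field_simp
      have hlogn : 0 ≤ Real.log |(n:ℝ)| := Real.log_nonneg hn1
      have hlog3 : Real.log 3 ≤ 1.1 := by
        rw [Real.log_le_iff_le_exp (by norm_num)]
        have h1 : (3:ℝ) ≤ 2.7182818283 * 1.105 := by norm_num
        have h2 : Real.exp 1.1 = Real.exp 1 * Real.exp 0.1 := by
          rw [← Real.exp_add]; norm_num
        rw [h2]
        have h3 : 2.7182818283 < Real.exp 1 := Real.exp_one_gt_d9
        have h4 : 1.105 ≤ Real.exp 0.1 := by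
          have := Real.quadratic_le_exp_of_nonneg (x := 0.1) (by norm_num)
          refine le_trans ?_ this
          norm_num
        calc (3:ℝ) ≤ 2.7182818283 * 1.105 := h1
          _ ≤ _ := mul_le_mul h3.le h4 (by norm_num) (Real.exp_pos _).le
      have hlog30 : 0 ≤ Real.log 3 := Real.log_nonneg (by norm_num)
      rw [hlog, ← ENNReal.ofReal_add (by positivity) (by positivity),
        ← ENNReal.ofReal_add (by positivity) (by positivity)]
      apply ENNReal.ofReal_le_ofReal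
      have h5 : 1 + Real.log |(n:ℝ)| ≤ |(n:ℝ)| ^ ε / ε := by
        have h6 : Real.log |(n:ℝ)| ≤ |(n:ℝ)| ^ ε / ε - 1 / ε := by
          have h7 : Real.log (|(n:ℝ)| ^ ε) ≤ |(n:ℝ)| ^ ε - 1 :=
            Real.log_le_sub_one_of_pos (by positivity)
          rw [Real.log_rpow (by linarith)] at h7
          rw [← sub_div, le_div_iff₀ hε0]
          linarith
        have h8 : 1 ≤ 1 / ε := by
          rw [le_div_iff₀ hε0]
          linarith
        linarith
      have h9 : c ≤ 1.5 * ((K:ℝ) ^ α * |(n:ℝ)| ^ α) := by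
        rw [hc, hPn, Real.mul_rpow (by norm_num) (by positivity),
          Real.mul_rpow (by positivity) (by positivity)]
        have h10 : (2:ℝ) ^ α ≤ 1.5 := by
          calc (2:ℝ) ^ α ≤ 2 ^ (1/2 : ℝ) := Real.rpow_le_rpow_of_exponent_le (by norm_num) hα
            _ = √2 := by rw [Real.sqrt_eq_rpow]
            _ ≤ 1.5 := by
              rw [Real.sqrt_le_left (by norm_num)]
              norm_num
        have h11 : 0 ≤ |(n:ℝ)| ^ α * (K:ℝ) ^ α := by positivity
        nlinarith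
      have h12 : |(n:ℝ)| ^ (α + ε) = |(n:ℝ)| ^ α * |(n:ℝ)| ^ ε :=
        Real.rpow_add (by linarith) _ _
      have h13 : c * (4 * (2 + (Real.log 3 + Real.log |(n:ℝ)|))) +
          c * (4 * (2 + (Real.log 3 + Real.log |(n:ℝ)|))) + 2 * c ≤
          c * (27 * (1 + Real.log |(n:ℝ)|)) := by
        nlinarith [mul_nonneg hc0 hlogn, mul_nonneg hc0 hlog30,
          mul_le_mul_of_nonneg_left hlog3 hc0]
      refine h13.trans ?_
      rw [h12]
      set X := (K:ℝ) ^ α * |(n:ℝ)| ^ α with hX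
      have hX0 : 0 ≤ X := by positivity
      set Y := |(n:ℝ)| ^ ε with hY
      have hY0 : 0 ≤ Y := by positivity
      calc c * (27 * (1 + Real.log |(n:ℝ)|)) ≤ (1.5 * X) * (27 * (Y / ε)) := by gcongr
        _ ≤ 50 / ε * (K:ℝ) ^ α * (|(n:ℝ)| ^ α * Y) := by
          have : 50 / ε * (K:ℝ) ^ α * (|(n:ℝ)| ^ α * Y) = 50 * (X * (Y / ε)) := by
            rw [hX]; ring
          rw [this]
          have : 0 ≤ X * (Y / ε) := by positivity
          nlinarith

end Pool.Agent.Helper18.BF
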