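import Pool.Agent.Helper18.BGGroup
import Pool.Agent.Helper18.BFAction

open scoped Real
open Finset

namespace Pool.Agent.Helper18.BG

open Pool.Agent.Helper18.BF

/-- All abelian groups. -/
theorem main_group {ι : Type*} [Fintype ι] {G : Type*} [AddCommGroup G]
    (s : ι → Finset G) (f : ι → G → ℝ) (μ : ℕ)
    (hmin : ∀ i, ∀ a ∈ s i, √(∑ a ∈ s i, f i a ^ 2) ≤ 2 ^ μ * |f i a|)
    (N : ℤ) (hN : ((2 ^ (38 * μ + 4162) : ℕ) : ℤ) ≤ N) (hs : ∀ i, Sep (s i) N) :
    ∃ χ : G → ℝ, (∀ x, χ x = 1 ∨ χ x = -1) ∧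
      ∀ i x, (∑ a ∈ s i, f i a * χ (x + a)) ^ 2 ≤ CC * ∑ i, ∑ a ∈ s i, f i a ^ 2 := by
  classical
  set A : Finset G := Finset.univ.biUnion s with hA
  set H : AddSubgroup G := AddSubgroup.closure (A : Set G) with hH
  have hfin : AddGroup.FG H := (AddGroup.fg_iff_addSubgroup_fg H).2 ⟨A, hH.symm⟩
  have hmem : ∀ i, ∀ a ∈ s i, a ∈ H := by
    intro i a ha
    apply AddSubgroup.subset_closure
    rw [mem_coe, hA, Finset.mem_biUnion]
    exact ⟨i, Finset.mem_univ i, ha⟩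
  have hsum : ∀ (i : ι) (g : G → ℝ), ∑ a ∈ (s i).subtype (· ∈ H), g (a : G) =
      ∑ a ∈ s i, g a := by
    intro i g
    rw [Finset.sum_subtype_of_mem g (hmem i)]
  obtain ⟨χ, h1, h2⟩ := main_fg (H := H) (fun i => (s i).subtype (· ∈ H))
    (fun i (y : H) => f i (y : G)) μ (by
    intro i a ha
    rw [Finset.mem_subtype] at ha
    rw [hsum i (fun a => f i a ^ 2)]
    exact hmin i a ha) N hN (by
    intro i a ha b hb k hk hkN h0
    rw [Finset.mem_subtype] at ha hb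
    apply Subtype.ext
    apply hs i a ha b hb k hk hkN
    have := congrArg (Subtype.val) h0
    simpa using this)
  -- coset representatives
  have hrep : ∀ x : G, x - (QuotientAddGroup.mk (s := H) x).out ∈ H := by
    intro x
    have h3 := QuotientAddGroup.out_eq' (QuotientAddGroup.mk (s := H) x)
    have h4 := (QuotientAddGroup.eq (s := H)).1 h3
    have h5 : x - (QuotientAddGroup.mk (s := H) x).out =
      -(QuotientAddGroup.mk (s := H) x).out + x := by abel
    rw [h5]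
    exact h4
  refine ⟨fun x => χ ⟨x - (QuotientAddGroup.mk (s := H) x).out, hrep x⟩, fun x => h1 _, ?_⟩
  intro i x
  have h3 := h2 i ⟨x - (QuotientAddGroup.mk (s := H) x).out, hrep x⟩
  have h4 : ∀ a ∈ s i, (QuotientAddGroup.mk (s := H) (x + a)) = QuotientAddGroup.mk (s := H) x := by
    intro a ha
    rw [QuotientAddGroup.eq]
    have : -(x + a) + x = -a := by abel
    rw [this]
    exact H.neg_mem (hmem i a ha)
  have h5 : ∑ a ∈ s i, f i a * χ ⟨(x + a) - (QuotientAddGroup.mk (s := H) (x + a)).out,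
      hrep (x + a)⟩ = ∑ a ∈ (s i).subtype (· ∈ H), f i (a : G) *
        χ (⟨x - (QuotientAddGroup.mk (s := H) x).out, hrep x⟩ + a) := by
    rw [← hsum i (fun a => f i a * χ ⟨(x + a) - (QuotientAddGroup.mk (s := H) (x + a)).out,
      hrep (x + a)⟩)]
    apply Finset.sum_congr rfl
    intro a ha
    rw [Finset.mem_subtype] at ha
    congr 2
    apply Subtype.ext
    simp only [AddSubgroup.coe_add]
    rw [h4 _ ha]
    abel
  rw [h5]
  refine h3.trans (le_of_eq ?_)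
  congr 1
  apply Finset.sum_congr rfl
  intro j _
  exact hsum j (fun a => f j a ^ 2)

section

variable {G V : Type*} [AddCommGroup G] [AddAction G V]

/-- Orbit representatives and group coordinates. -/
lemma exists_coords' (hfree : ∀ (g : G) (v : V), g +ᵥ v = v → g = 0) :
    ∃ (rp : V → V) (gp : V → G), (∀ v, gp v +ᵥ rp v = v) ∧
      (∀ (g : G) v, rp (g +ᵥ v) = rp v) ∧ (∀ (g : G) v, gp (g +ᵥ v) = g + gp v) := by
  have h2 : ∀ v : V, ∃ g : G, g +ᵥ (Quotient.mk (AddAction.orbitRel G V) v).out = v := by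
    intro v
    have h3 : (AddAction.orbitRel G V).r (Quotient.mk (AddAction.orbitRel G V) v).out v :=
      Quotient.exact (Quotient.out_eq _)
    have h4 : (Quotient.mk (AddAction.orbitRel G V) v).out ∈ AddAction.orbit G v := h3
    obtain ⟨g2, hg2⟩ := h4
    refine ⟨-g2, ?_⟩
    rw [← hg2]
    exact neg_vadd_vadd g2 v
  choose gp hgp using h2
  have h3 : ∀ (g : G) (v : V), (Quotient.mk (AddAction.orbitRel G V) (g +ᵥ v)) =
      Quotient.mk (AddAction.orbitRel G V) v := by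
    intro g v
    apply Quotient.sound
    show g +ᵥ v ∈ AddAction.orbit G v
    exact ⟨g, rfl⟩
  refine ⟨fun v => (Quotient.mk (AddAction.orbitRel G V) v).out, gp, hgp, ?_, ?_⟩
  · intro g v
    simp only
    rw [h3]
  · intro g v
    have h4 := hgp (g +ᵥ v)
    rw [h3] at h4
    have h5 : (g + gp v) +ᵥ (Quotient.mk (AddAction.orbitRel G V) v).out = g +ᵥ v := by
      rw [add_vadd, hgp]
    exact vadd_inj hfree (h4.trans h5.symm)

/-- Finitely many rows with all their translates. -/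
theorem rows_finite {ι : Type*} [Fintype ι] (hfree : ∀ (g : G) (v : V), g +ᵥ v = v → g = 0)
    (f : ι → V →₀ ℝ) (μ : ℕ)
    (hmin : ∀ i, ∀ v ∈ (f i).support, √(∑ v ∈ (f i).support, f i v ^ 2) ≤ 2 ^ μ * |f i v|)
    (N : ℤ) (hN : ((2 ^ (38 * μ + 4162) : ℕ) : ℤ) ≤ N)
    (hs : ∀ i, ∀ v ∈ (f i).support, ∀ g : G, g +ᵥ v ∈ (f i).support → ∀ k : ℤ, k ≠ 0 → |k| < N →
      k • g = 0 → g = 0) :
    ∃ χ : V → ℝ, (∀ v, χ v = 1 ∨ χ v = -1) ∧ ∀ i (g : G),
      (∑ v ∈ (f i).support, f i v * χ (g +ᵥ v)) ^ 2 ≤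
        CC * ∑ i, ∑ v ∈ (f i).support, f i v ^ 2 := by
  classical
  obtain ⟨rp, gp, h2, h3, h4⟩ := exists_coords' hfree
  let em : V → G × (V → ℤ) := fun v => (gp v, Pi.single (rp v) 1)
  have hinj : Function.Injective em := by
    intro v w hvw
    simp only [em, Prod.mk.injEq] at hvw
    have h5 : rp v = rp w := by
      by_contra hne
      have h6 := congrFun hvw.2 (rp v)
      rw [Pi.single_eq_same, Pi.single_eq_of_ne hne] at h6
      exact one_ne_zero h6
    rw [← h2 v, ← h2 w, hvw.1, h5]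
  have hadd : ∀ (g : G) v, em (g +ᵥ v) = (g, 0) + em v := by
    intro g v
    simp only [em, h3, h4, Prod.mk_add_mk, zero_add]
  obtain ⟨χ, c1, c2⟩ := main_group (G := G × (V → ℤ))
    (fun i => ((f i).support).map ⟨em, hinj⟩) (fun i => Function.extend em (f i) 0) μ (by
    intro i a ha
    rw [Finset.mem_map] at ha
    obtain ⟨v, hv, rfl⟩ := ha
    simp only [Finset.sum_map, Function.Embedding.coeFn_mk]
    simp only [hinj.extend_apply]
    exact hmin i v hv) N hN (by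
    intro i a ha b hb k hk hkN h0
    rw [Finset.mem_map] at ha hb
    obtain ⟨v, hv, rfl⟩ := ha
    obtain ⟨w, hw, rfl⟩ := hb
    simp only [Function.Embedding.coeFn_mk] at h0 ⊢
    have h5 : k • (gp v - gp w) = 0 := congrArg Prod.fst h0
    have h6 : k • ((Pi.single (rp v) 1 : V → ℤ) - Pi.single (rp w) 1) = 0 := congrArg Prod.snd h0
    have h7 : rp v = rp w := by
      by_contra hne
      have h8 := congrFun h6 (rp v)
      rw [Pi.smul_apply, Pi.sub_apply, Pi.single_eq_same, Pi.single_eq_of_ne hne, sub_zero,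
        Pi.zero_apply, smul_eq_mul, mul_one] at h8
      exact hk h8
    have h8 : (gp v - gp w) +ᵥ w = v := by
      calc (gp v - gp w) +ᵥ w = (gp v - gp w) +ᵥ (gp w +ᵥ rp w) := by rw [h2 w]
        _ = gp v +ᵥ rp v := by rw [← add_vadd, sub_add_cancel, h7]
        _ = v := h2 v
    have h9 := hs i w hw (gp v - gp w) (by rw [h8]; exact hv) k hk hkN h5
    rw [h9, zero_vadd] at h8
    rw [h8])
  refine ⟨fun v => χ (em v), fun v => c1 _, ?_⟩
  intro i g
  have h5 := c2 i (g, 0)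
  simp only [Finset.sum_map, Function.Embedding.coeFn_mk] at h5
  simp only [hinj.extend_apply, ← hadd] at h5
  exact h5

/-- The theorem with a polynomial bound on the order of the differences. -/
theorem rows_order {ι : Type*} [Fintype ι] (hfree : ∀ (g : G) (v : V), g +ᵥ v = v → g = 0)
    (f : ι → V →₀ ℝ) (hone : ∀ i, ∀ v ∈ (f i).support, 1 ≤ |f i v|) (W : ℝ)
    (hW : ∑ i, ∑ v ∈ (f i).support, f i v ^ 2 ≤ W)
    (hs : ∀ i, ∀ v ∈ (f i).support, ∀ g : G, g +ᵥ v ∈ (f i).support → g ≠ 0 →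
      ∀ k : ℕ, 0 < k → (k : ℝ) < 2 ^ 4200 * W ^ 19 → k • g ≠ 0) :
    ∃ χ : V → ℝ, (∀ v, χ v = 1 ∨ χ v = -1) ∧ ∀ i (g : G),
      (∑ v ∈ (f i).support, f i v * χ (g +ᵥ v)) ^ 2 ≤ CC * W := by
  classical
  have hW0 : 0 ≤ ∑ i, ∑ v ∈ (f i).support, f i v ^ 2 :=
    Finset.sum_nonneg (fun i _ => Finset.sum_nonneg (fun v _ => sq_nonneg _))
  by_cases hall : ∀ i, f i = 0
  · refine ⟨fun _ => 1, fun _ => Or.inl rfl, ?_⟩
    intro i g
    rw [hall i, Finsupp.support_zero, Finset.sum_empty, zero_pow two_ne_zero]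
    exact mul_nonneg CC_pos.le (hW0.trans hW)
  push Not at hall
  obtain ⟨i0, hi0⟩ := hall
  obtain ⟨v0, hv0⟩ := Finsupp.support_nonempty_iff.2 hi0
  have hrow : ∀ i, ∑ v ∈ (f i).support, f i v ^ 2 ≤ W := fun i =>
    (Finset.single_le_sum (f := fun i => ∑ v ∈ (f i).support, f i v ^ 2)
      (fun i _ => Finset.sum_nonneg (fun v _ => sq_nonneg _)) (Finset.mem_univ i)).trans hW
  have hW1 : 1 ≤ W := by
    have h1 := hone i0 v0 hv0
    have h2 : f i0 v0 ^ 2 ≤ ∑ v ∈ (f i0).support, f i0 v ^ 2 :=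
      Finset.single_le_sum (f := fun v => f i0 v ^ 2) (fun v _ => sq_nonneg _) hv0
    have h3 : 1 ≤ f i0 v0 ^ 2 := by
      rw [← sq_abs]
      exact one_le_pow₀ h1
    linarith [hrow i0]
  obtain ⟨μ, hμ1, hμ2⟩ : ∃ μ : ℕ, W ≤ 4 ^ μ ∧ (4 : ℝ) ^ μ ≤ 4 * W := by
    have hex : ∃ μ : ℕ, W ≤ 4 ^ μ := by
      obtain ⟨n, hn⟩ := pow_unbounded_of_one_lt W (show (1:ℝ) < 4 by norm_num)
      exact ⟨n, hn.le⟩
    refine ⟨Nat.find hex, Nat.find_spec hex, ?_⟩
    rcases Nat.eq_zero_or_pos (Nat.find hex) with h | h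
    · rw [h, pow_zero]
      linarith
    · have h1 := Nat.find_min hex (m := Nat.find hex - 1) (by omega)
      push Not at h1
      have h2 : (4:ℝ) ^ (Nat.find hex) = 4 * 4 ^ (Nat.find hex - 1) := by
        rw [← pow_succ']
        congr 1
        omega
      rw [h2]
      linarith
  obtain ⟨N, hN⟩ : ∃ N : ℤ, N = ((2 ^ (38 * μ + 4162) : ℕ) : ℤ) := ⟨_, rfl⟩
  have hNW : (N : ℝ) ≤ 2 ^ 4200 * W ^ 19 := by
    rw [hN]
    push_cast
    have h1 : (2:ℝ) ^ (38 * μ + 4162) = 2 ^ 4162 * (4 ^ μ) ^ 19 := by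
      rw [show (4:ℝ) = 2 ^ 2 by norm_num, ← pow_mul, ← pow_mul, ← pow_add]
      congr 1
      ring
    have h2 : (2:ℝ) ^ 4200 * W ^ 19 = 2 ^ 4162 * (4 * W) ^ 19 := by
      rw [mul_pow, ← mul_assoc, show (4:ℝ) = 2 ^ 2 by norm_num, ← pow_mul, ← pow_add]
    rw [h1, h2]
    gcongr
  obtain ⟨χ, c1, c2⟩ := rows_finite hfree f μ (by
    intro i v hv
    have h1 := hone i v hv
    have h2 : √(∑ v ∈ (f i).support, f i v ^ 2) ≤ 2 ^ μ := by
      rw [Real.sqrt_le_left (by positivity)]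
      refine (hrow i).trans (hμ1.trans (le_of_eq ?_))
      rw [show (4:ℝ) = 2 ^ 2 by norm_num, ← pow_mul, ← pow_mul, mul_comm]
    refine h2.trans ?_
    have : (0:ℝ) < 2 ^ μ := by positivity
    nlinarith) N hN.ge (by
    intro i v hv g hgv k hk hkN h0
    by_contra hg
    refine hs i v hv g hgv hg k.natAbs (Int.natAbs_pos.2 hk) ?_ ?_
    · refine lt_of_lt_of_le ?_ hNW
      have h1 : (k.natAbs : ℤ) < N := by
        rw [Int.natCast_natAbs]
        exact hkN
      have h2 : ((k.natAbs : ℤ) : ℝ) < (N : ℝ) := Int.cast_lt.2 h1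
      rwa [Int.cast_natCast] at h2
    · rw [← natCast_zsmul, Int.natCast_natAbs]
      rcases abs_choice k with h | h
      · rw [h, h0]
      · rw [h, neg_smul, h0, neg_zero])
  refine ⟨χ, c1, ?_⟩
  intro i g
  exact (c2 i g).trans (mul_le_mul_of_nonneg_left hW CC_pos.le)

end

end Pool.Agent.Helper18.BG
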