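import Pool.Agent.Helper18.BGBox

open scoped Real
open Finset

namespace Pool.Agent.Helper18.BG

open Pool.Agent.Helper18.BF

open Classical in
theorem flat_bound {G : Type*} [AddCommGroup G] [Fintype G] {L J : ℕ} (hJ : J + 1 ≤ L)
    (s : Finset G) (f : G → ℝ) (T : (Fin (J + 1) → ℤ) →ₗ[ℤ] (Fin (J + 1) → ℤ))
    (hT : Function.Injective T) (Λ : Finset (Fin (J + 1) → ℤ)) (X : Fin (J + 1) → ℕ)
    (hX : ∀ l : Fin (J + 1), ww J l ≤ 2 * X l + 1)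
    (hΛ : ∀ m ∈ Λ, ∀ l, |T m l| ≤ X l) (h0 : (0 : Fin (J + 1) → ℤ) ∉ Λ)
    (c : (Fin (J + 1) → ℤ) → ℂ) (g Gc : ℝ) (hg : 0 ≤ g)
    (hc : ∀ m ∈ Λ, ‖c m‖ ≤ g) (hG : g * (∏ l, (2 * X l + 1) : ℕ) ≤ Gc)
    (B N' : ℤ) (hB1 : 1 ≤ B) (hs : Sep s N') (hB : ∀ m ∈ Λ, ∀ l, |m l| ≤ B)
    (hN : 12 * (B * (B * B)) < N') (S2 θ : ℝ) (hθ0 : 0 ≤ θ) (hS : ∑ a ∈ s, f a ^ 2 ≤ S2)
    (hθ : √(∑ a ∈ s, f a ^ 4) ≤ θ * S2) :
    avR (fun Z : XX L G => XL s f Λ c Z) ≤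
      S2 * (Gc ^ 2 * (2 ^ (J + 2) * (gam J + θ))) := by
  set S4 := ∑ a ∈ s, f a ^ 4 with hS4
  have hS2n : 0 ≤ S2 := (Finset.sum_nonneg (fun a _ => sq_nonneg _)).trans hS
  have hS1n : 0 ≤ ∑ a ∈ s, f a ^ 2 := Finset.sum_nonneg (fun a _ => sq_nonneg _)
  have hS4n : 0 ≤ S4 := Finset.sum_nonneg (fun a _ => by positivity)
  set N : ℕ := ∏ l, (2 * X l + 1) with hNdef
  have hγ := gam_pos J
  have hN1 : 0 < N := Finset.prod_pos (fun l _ => by omega)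
  have hcard : #Λ ≤ N := card_le_prod T hT Λ X hΛ
  have hcardR : (#Λ : ℝ) ≤ N := by exact_mod_cast hcard
  have hM : #(Diff Λ) ≤ 2 ^ (J + 1) * N := by
    refine (card_Diff_le T hT Λ X hΛ).trans ?_
    have h1 : (2:ℕ) ^ (J + 1) * N = ∏ l : Fin (J + 1), (2 * (2 * X l + 1)) := by
      rw [Finset.prod_mul_distrib, Finset.prod_const, Finset.card_univ, Fintype.card_fin]
    rw [h1]
    exact Finset.prod_le_prod' (fun l _ => by omega)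
  have key := avR_XL_le hJ s f Λ c g hg hc B N' hB1 hs hB hN h0 ⌊gam J * N⌋₊ ⌊gam J ^ 2 * N⌋₊
    (2 ^ (J + 1) * N)
    (card_dep2_le T hT Λ X hΛ h0 _ (fun p => by
      apply Nat.le_floor
      exact one_le_gam (fun l => 2 * X l + 1) hX p))
    (card_dep3_le T hT Λ X hΛ _ (fun p r hpr => by
      apply Nat.le_floor
      exact two_le_gam (fun l => 2 * X l + 1) hX p r hpr))
    hM
  have key2 : g ^ 2 * ((∑ a ∈ s, f a ^ 2) * (#Λ * ((⌊gam J * N⌋₊ : ℕ) : ℝ)) +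
      ((2 ^ (J + 1) * N : ℕ) : ℝ) * √(#Λ * ((⌊gam J ^ 2 * N⌋₊ : ℕ) : ℝ) *
        (∑ a ∈ s, f a ^ 2) ^ 2 + (#Λ) ^ 2 * S4)) ≤
      g ^ 2 * (S2 * (#Λ * ((⌊gam J * N⌋₊ : ℕ) : ℝ)) +
      ((2 ^ (J + 1) * N : ℕ) : ℝ) * √(#Λ * ((⌊gam J ^ 2 * N⌋₊ : ℕ) : ℝ) *
        S2 ^ 2 + (#Λ) ^ 2 * S4)) := by
    gcongr
  refine (key.trans key2).trans ?_
  have hf1 : ((⌊gam J * N⌋₊ : ℕ) : ℝ) ≤ gam J * N := Nat.floor_le (by positivity)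
  have hf2 : ((⌊gam J ^ 2 * N⌋₊ : ℕ) : ℝ) ≤ gam J ^ 2 * N := Nat.floor_le (by positivity)
  have hsq : √(#Λ * ((⌊gam J ^ 2 * N⌋₊ : ℕ) : ℝ) * S2 ^ 2 + (#Λ) ^ 2 * S4) ≤
      N * ((gam J + θ) * S2) := by
    have h1 : #Λ * ((⌊gam J ^ 2 * N⌋₊ : ℕ) : ℝ) * S2 ^ 2 + (#Λ : ℝ) ^ 2 * S4 ≤
        (N * (gam J * S2)) ^ 2 + (N * √S4) ^ 2 := by
      have e1 : (#Λ : ℝ) * ((⌊gam J ^ 2 * N⌋₊ : ℕ) : ℝ) ≤ N * (gam J ^ 2 * N) :=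
        mul_le_mul hcardR hf2 (Nat.cast_nonneg _) (Nat.cast_nonneg _)
      have e2 : (N * √S4) ^ 2 = (N:ℝ) ^ 2 * S4 := by
        rw [mul_pow, Real.sq_sqrt hS4n]
      have e3 : (#Λ : ℝ) ^ 2 ≤ (N:ℝ) ^ 2 := pow_le_pow_left₀ (Nat.cast_nonneg _) hcardR 2
      rw [e2]
      have e4 := mul_le_mul_of_nonneg_right e1 (sq_nonneg S2)
      have e5 := mul_le_mul_of_nonneg_right e3 hS4n
      nlinarith
    calc _ ≤ √((N * (gam J * S2)) ^ 2 + (N * √S4) ^ 2) := Real.sqrt_le_sqrt h1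
      _ ≤ √((N * (gam J * S2) + N * √S4) ^ 2) := by
          apply Real.sqrt_le_sqrt
          have : 0 ≤ N * (gam J * S2) * (N * √S4) := by positivity
          nlinarith
      _ = N * (gam J * S2) + N * √S4 := Real.sqrt_sq (by positivity)
      _ ≤ N * (gam J * S2) + N * (θ * S2) := by gcongr
      _ = _ := by ring
  have hNr : (0:ℝ) < N := by exact_mod_cast hN1
  have hgn : 0 ≤ gam J + θ := by positivity
  have hgN : g * N ≤ Gc := hG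
  have hgN0 : 0 ≤ g * N := by positivity
  have e1 : (#Λ : ℝ) * ((⌊gam J * N⌋₊ : ℕ) : ℝ) ≤ N * (gam J * N) :=
    mul_le_mul hcardR hf1 (Nat.cast_nonneg _) (Nat.cast_nonneg _)
  have e2 : (((2 ^ (J + 1) * N : ℕ) : ℝ)) = 2 ^ (J + 1) * N := by push_cast; rfl
  rw [e2]
  calc g ^ 2 * (S2 * (#Λ * ((⌊gam J * N⌋₊ : ℕ) : ℝ)) + 2 ^ (J + 1) * N *
        √(#Λ * ((⌊gam J ^ 2 * N⌋₊ : ℕ) : ℝ) * S2 ^ 2 + (#Λ) ^ 2 * S4)) ≤
      g ^ 2 * (S2 * (N * (gam J * N)) + 2 ^ (J + 1) * N * (N * ((gam J + θ) * S2))) := by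
        gcongr
    _ = (g * N) ^ 2 * (S2 * (gam J + 2 ^ (J + 1) * (gam J + θ))) := by ring
    _ ≤ Gc ^ 2 * (S2 * (2 ^ (J + 2) * (gam J + θ))) := by
        have h1 : (g * N) ^ 2 ≤ Gc ^ 2 := pow_le_pow_left₀ hgN0 hgN 2
        have h2 : gam J + 2 ^ (J + 1) * (gam J + θ) ≤ 2 ^ (J + 2) * (gam J + θ) := by
          have h3 : (2:ℝ) ^ (J + 2) = 2 ^ (J + 1) + 2 ^ (J + 1) := by ring
          have h4 : (1:ℝ) ≤ 2 ^ (J + 1) := one_le_pow₀ (by norm_num)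
          have h5 : gam J + θ ≤ 2 ^ (J + 1) * (gam J + θ) := le_mul_of_one_le_left hgn h4
          rw [h3]
          linarith
        have h6 : 0 ≤ S2 * (gam J + 2 ^ (J + 1) * (gam J + θ)) := by positivity
        exact mul_le_mul h1 (mul_le_mul_of_nonneg_left h2 hS2n) h6 (sq_nonneg _)
    _ = _ := by ring

end Pool.Agent.Helper18.BG
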