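import Pool.Agent.Helper18.BGSingle
import Pool.Agent.Helper18.BFGroup

open scoped Real DirectSum
open Finset

namespace Pool.Agent.Helper18.BG

open Pool.Agent.Helper18.BF

lemma expo_le (μ : ℕ) : 4 + 12 * (kR (Nat.sqrt μ) + μ) ≤ 38 * μ + 4162 := by
  have h1 : Nat.sqrt μ * Nat.sqrt μ ≤ μ := Nat.sqrt_le μ
  unfold kR
  generalize Nat.sqrt μ = r at *
  have h2 : 180 * r ≤ 2 * (r * r) + 4050 := by
    zify
    nlinarith [sq_nonneg ((r : ℤ) - 45)]
  have h3 : r ^ 2 = r * r := sq r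
  rw [h3]
  omega

lemma cube_lt (k : ℕ) : 12 * (((2 ^ (4 * k) : ℕ) : ℤ) * (((2 ^ (4 * k) : ℕ) : ℤ) *
    ((2 ^ (4 * k) : ℕ) : ℤ))) < ((2 ^ (4 + 12 * k) : ℕ) : ℤ) := by
  have h1 : (2 : ℕ) ^ (4 + 12 * k) = 16 * (2 ^ (4 * k) * (2 ^ (4 * k) * 2 ^ (4 * k))) := by
    rw [← pow_add, ← pow_add, show (16 : ℕ) = 2 ^ 4 by norm_num, ← pow_add]
    congr 1
    ring
  rw [h1]
  have h2 : 0 < (2 : ℕ) ^ (4 * k) := by positivity
  generalize (2 : ℕ) ^ (4 * k) = x at *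
  have h3 : 0 < (x : ℤ) * ((x : ℤ) * (x : ℤ)) := by positivity
  push_cast
  linarith

/-- Finite groups. -/
theorem main_finite {ι : Type*} [Fintype ι] {G : Type*} [AddCommGroup G] [Fintype G]
    (s : ι → Finset G) (f : ι → G → ℝ) (μ : ℕ)
    (hmin : ∀ i, ∀ a ∈ s i, √(∑ a ∈ s i, f i a ^ 2) ≤ 2 ^ μ * |f i a|)
    (N : ℤ) (hN : ((2 ^ (38 * μ + 4162) : ℕ) : ℤ) ≤ N) (hs : ∀ i, Sep (s i) N) :
    ∃ χ : G → ℝ, (∀ x, χ x = 1 ∨ χ x = -1) ∧
      ∀ i x, (∑ a ∈ s i, f i a * χ (x + a)) ^ 2 ≤ CC * ∑ i, ∑ a ∈ s i, f i a ^ 2 := by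
  classical
  set Jm : ℕ := Nat.sqrt μ with hJm
  have h1 : μ ≤ (Jm + 1) ^ 2 := by
    have := Nat.lt_succ_sqrt μ
    rw [sq]
    exact this.le
  have h2 := expo_le μ
  rw [← hJm] at h2
  have h3 := cube_lt (kR Jm + μ)
  have h4 : ((2 ^ (4 + 12 * (kR Jm + μ)) : ℕ) : ℤ) ≤ ((2 ^ (38 * μ + 4162) : ℕ) : ℤ) := by
    exact_mod_cast Nat.pow_le_pow_right (by norm_num) h2
  obtain ⟨B, hB⟩ : ∃ B : ℤ, B = ((2 ^ (4 * (kR Jm + μ)) : ℕ) : ℤ) := ⟨_, rfl⟩
  rw [← hB] at h3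
  have hNB : 12 * (B * (B * B)) < N := lt_of_lt_of_le h3 (h4.trans hN)
  choose X hX0 hX hXa using (fun i => single_bound (s i) (f i) μ Jm (hmin i) h1 Jm le_rfl B N
    hB.ge (hs i) hNB)
  obtain ⟨Z, hZ⟩ := exists_le_avR (fun Z => ∑ i, X i Z)
  rw [avR_sum] at hZ
  refine ⟨fun x => 2 * cc Jm K0 (1 / 2) (ua Z x) - 1, ?_, ?_⟩
  · intro x
    rcases (cc_props Jm K0 (ua Z x)).1 (1 / 2) (by norm_num) (by norm_num) with h | h
    · right
      simp only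
      rw [h]
      norm_num
    · left
      simp only
      rw [h]
      norm_num
  · intro i x
    have h1 := hX i Z x
    simp only
    refine h1.trans ?_
    calc X i Z ≤ ∑ i, X i Z :=
          Finset.single_le_sum (f := fun i => X i Z) (fun i _ => hX0 i Z) (Finset.mem_univ i)
      _ ≤ ∑ i, avR (X i) := hZ
      _ ≤ ∑ i, CC * ∑ a ∈ s i, f i a ^ 2 := Finset.sum_le_sum (fun i _ => hXa i)
      _ = _ := by rw [Finset.mul_sum]

/-- Finitely generated abelian groups are residually finite. -/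
lemma exists_finite_hom {H : Type*} [AddCommGroup H] [AddGroup.FG H] (S : Finset H) :
    ∃ (Q : Type) (_ : AddCommGroup Q) (_ : Fintype Q) (pr : H →+ Q), ∀ z ∈ S, z ≠ 0 → pr z ≠ 0 := by
  classical
  obtain ⟨n, ι, fι, p, hp, e, ⟨φ⟩⟩ := AddCommGroup.equiv_free_prod_directSum_zmod H
  have hne : ∀ i : ι, NeZero (p i ^ e i) := fun i => ⟨pow_ne_zero _ (hp i).ne_zero⟩
  set P : ℕ := 1 + ∑ z ∈ S, ∑ i : Fin n, ((φ z).1 i).natAbs with hP
  have hPne : NeZero P := ⟨by omega⟩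
  have hfin : Finite (⨁ i : ι, ZMod (p i ^ e i)) :=
    Finite.of_equiv _ DFinsupp.equivFunOnFintype.symm
  let Q := (Fin n → ZMod P) × (⨁ i : ι, ZMod (p i ^ e i))
  have hQ : Fintype Q := Fintype.ofFinite Q
  let r : (Fin n →₀ ℤ) →+ (Fin n → ZMod P) :=
    { toFun := fun v i => ((v i : ℤ) : ZMod P)
      map_zero' := by ext i; simp
      map_add' := by intro v w; ext i; simp }
  refine ⟨Q, inferInstance, hQ, (r.prodMap (AddMonoidHom.id _)).comp φ.toAddMonoidHom, ?_⟩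
  intro z hz hz0 hcon
  apply hz0
  have h1 : r (φ z).1 = 0 := congrArg Prod.fst hcon
  have h2 : (φ z).2 = 0 := congrArg Prod.snd hcon
  have h3 : (φ z).1 = 0 := by
    ext i
    have h4 : (((φ z).1 i : ℤ) : ZMod P) = 0 := congrFun h1 i
    rw [ZMod.intCast_zmod_eq_zero_iff_dvd] at h4
    have h5 : ((φ z).1 i).natAbs < P := by
      have h6 : ((φ z).1 i).natAbs ≤ ∑ i : Fin n, ((φ z).1 i).natAbs :=
        Finset.single_le_sum (f := fun i => ((φ z).1 i).natAbs) (fun _ _ => Nat.zero_le _)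
          (Finset.mem_univ i)
      have h7 : ∑ i : Fin n, ((φ z).1 i).natAbs ≤ ∑ z ∈ S, ∑ i : Fin n, ((φ z).1 i).natAbs :=
        Finset.single_le_sum (f := fun z => ∑ i : Fin n, ((φ z).1 i).natAbs)
          (fun _ _ => Nat.zero_le _) hz
      omega
    rw [Finsupp.zero_apply]
    by_contra hne0
    have h8 := Int.natAbs_dvd_natAbs.2 h4
    have h9 := Nat.le_of_dvd (Int.natAbs_pos.2 hne0) h8
    simp only [Int.natAbs_natCast] at h9
    omega
  have h4 : φ z = 0 := Prod.ext h3 h2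
  exact (AddEquiv.map_eq_zero_iff φ).1 h4

/-- Finitely generated abelian groups. -/
theorem main_fg {ι : Type*} [Fintype ι] {H : Type*} [AddCommGroup H] [AddGroup.FG H]
    (s : ι → Finset H) (f : ι → H → ℝ) (μ : ℕ)
    (hmin : ∀ i, ∀ a ∈ s i, √(∑ a ∈ s i, f i a ^ 2) ≤ 2 ^ μ * |f i a|)
    (N : ℤ) (hN : ((2 ^ (38 * μ + 4162) : ℕ) : ℤ) ≤ N) (hs : ∀ i, Sep (s i) N) :
    ∃ χ : H → ℝ, (∀ x, χ x = 1 ∨ χ x = -1) ∧
      ∀ i x, (∑ a ∈ s i, f i a * χ (x + a)) ^ 2 ≤ CC * ∑ i, ∑ a ∈ s i, f i a ^ 2 := by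
  classical
  set U : Finset H := Finset.univ.biUnion s with hU
  set S : Finset H := ((U ×ˢ U) ×ˢ Finset.Ioo (-N) N).image (fun p => p.2 • (p.1.1 - p.1.2))
    with hS
  obtain ⟨Q, hQ1, hQ2, pr, hpr⟩ := exists_finite_hom S
  have hN1 : (1 : ℤ) < N := by
    have h1 : 1 < (2 : ℕ) ^ (38 * μ + 4162) := Nat.one_lt_pow (by omega) (by norm_num)
    have h2 : (1 : ℤ) < ((2 ^ (38 * μ + 4162) : ℕ) : ℤ) := by exact_mod_cast h1
    exact lt_of_lt_of_le h2 hN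
  have hmemU : ∀ i, ∀ a ∈ s i, a ∈ U := fun i a ha =>
    Finset.mem_biUnion.2 ⟨i, Finset.mem_univ i, ha⟩
  have hker : ∀ i, ∀ a ∈ s i, ∀ b ∈ s i, ∀ k : ℤ, |k| < N → k • (pr a - pr b) = 0 →
      k • (a - b) = 0 := by
    intro i a ha b hb k hk h0
    by_contra hne
    refine hpr (k • (a - b)) ?_ hne ?_
    · rw [hS, Finset.mem_image]
      refine ⟨((a, b), k), ?_, rfl⟩
      rw [Finset.mem_product, Finset.mem_product, Finset.mem_Ioo]
      exact ⟨⟨hmemU i a ha, hmemU i b hb⟩, abs_lt.1 hk⟩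
    · rw [map_zsmul, map_sub]
      exact h0
  have hinj : ∀ i, Set.InjOn pr (s i : Set H) := by
    intro i a ha b hb hab
    have h1 := hker i a ha b hb 1 (by rw [abs_one]; exact hN1) (by rw [hab, sub_self, smul_zero])
    rw [one_smul] at h1
    exact sub_eq_zero.1 h1
  -- weights on Q
  set g : ι → Q → ℝ := fun i y => ∑ a ∈ (s i).filter (fun a => pr a = y), f i a with hg
  have hga : ∀ i, ∀ a ∈ s i, g i (pr a) = f i a := by
    intro i a ha
    simp only [hg]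
    rw [Finset.sum_eq_single_of_mem a (by rw [mem_filter]; exact ⟨ha, rfl⟩)]
    intro b hb hba
    rw [mem_filter] at hb
    exact absurd (hinj i hb.1 ha hb.2) hba
  have hsum : ∀ i (F : Q → ℝ), ∑ y ∈ (s i).image pr, F y = ∑ a ∈ s i, F (pr a) := fun i F =>
    Finset.sum_image (hinj i)
  obtain ⟨χ, c1, c2⟩ := main_finite (fun i => (s i).image pr) g μ (by
    intro i y hy
    rw [Finset.mem_image] at hy
    obtain ⟨a, ha, rfl⟩ := hy
    rw [hsum, hga i a ha]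
    rw [Finset.sum_congr rfl (fun b hb => by rw [hga i b hb])]
    exact hmin i a ha) N hN (by
    intro i y hy z hz k hk hkN h0
    rw [Finset.mem_image] at hy hz
    obtain ⟨a, ha, rfl⟩ := hy
    obtain ⟨b, hb, rfl⟩ := hz
    have h1 := hker i a ha b hb k hkN h0
    rw [hs i a ha b hb k hk hkN h1])
  refine ⟨fun x => χ (pr x), fun x => c1 _, ?_⟩
  intro i x
  have h1 := c2 i (pr x)
  rw [hsum] at h1
  rw [Finset.sum_congr rfl (fun a ha => by rw [hga i a ha, ← map_add])] at h1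
  refine h1.trans (le_of_eq ?_)
  congr 1
  apply Finset.sum_congr rfl
  intro j _
  rw [hsum]
  apply Finset.sum_congr rfl
  intro a ha
  rw [hga j a ha]

end Pool.Agent.Helper18.BG
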