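import Pool.Agent.Helper18.BGBlock

open scoped Real ENNReal
open Finset

namespace Pool.Agent.Helper18.BG

open Pool.Agent.Helper18.BF

/-- The mass of the coefficients outside a large box. -/
theorem tail_mass' (J k : ℕ) (F : Finset (Fin (J + 1) → ℤ))
    (hF : ∀ m ∈ F, ∃ l, ((2 ^ (4 * k) : ℕ) : ℤ) < |m l|) :
    ∑ m ∈ F, ‖cf J m‖ ≤ 2 ^ kR J / 2 ^ k * (1 / 2) ^ J := by
  set Q : ℝ := (50 / (1 / (4 * ((J:ℝ) + 1)))) ^ J *
    (∏ i ∈ range J, √(K0 i : ℝ)) * (8 * (K0 J : ℝ)) with hQ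
  have hQ0 : 0 ≤ Q := by positivity
  have hJ : (0:ℝ) ≤ J := Nat.cast_nonneg J
  have hl : ∀ l : Fin (J + 1), ∑ m ∈ F, ‖aa J K0 m‖ * om (m l) ^ ((1:ℝ) / 4) ≤ Q := by
    intro l
    have h1 := mass_le J K0 K0_pos 0 (1 / 4) (1 / (4 * ((J:ℝ) + 1))) l le_rfl (by norm_num)
      (by positivity) (by
        rw [div_le_one (by positivity)]
        linarith) (by
        rw [zero_add]
        have : (J:ℝ) * (1 / (4 * ((J:ℝ) + 1))) ≤ 1 / 4 := by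
          rw [mul_one_div, div_le_div_iff₀ (by positivity) (by norm_num)]
          linarith
        linarith)
    have h2 := sum_le_of_tsum_le _ (fun m => by
      have := om_pos (m 0)
      have := om_pos (m l)
      positivity) Q hQ0 h1 F
    refine le_trans (le_of_eq ?_) h2
    apply Finset.sum_congr rfl
    intro m _
    rw [Real.rpow_zero, one_mul]
  have h1 : ∀ m ∈ F, ‖cf J m‖ ≤ ∑ l : Fin (J + 1),
      4 / 2 ^ k * (‖aa J K0 m‖ * om (m l) ^ ((1:ℝ) / 4)) := by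
    intro m hm
    obtain ⟨l, hl⟩ := hF m hm
    have h2 : 4 / 2 ^ k * (‖aa J K0 m‖ * om (m l) ^ ((1:ℝ) / 4)) ≤ ∑ l : Fin (J + 1),
        4 / 2 ^ k * (‖aa J K0 m‖ * om (m l) ^ ((1:ℝ) / 4)) := by
      apply Finset.single_le_sum (f := fun l : Fin (J + 1) =>
        4 / 2 ^ k * (‖aa J K0 m‖ * om (m l) ^ ((1:ℝ) / 4))) _ (Finset.mem_univ l)
      intro l' _
      have := om_pos (m l')
      positivity
    refine le_trans ?_ h2
    have h3 : (2:ℝ) ^ k ≤ om (m l) ^ ((1:ℝ) / 4) := by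
      rw [← rpow_quarter]
      apply Real.rpow_le_rpow (by positivity) _ (by norm_num)
      have h4 : (((2 ^ (4 * k) : ℕ) : ℤ) : ℝ) < ((|m l| : ℤ) : ℝ) := by exact_mod_cast hl
      push_cast at h4
      exact h4.le.trans (le_max_right _ _)
    have h5 := norm_cf_le J m
    refine h5.trans ?_
    rw [div_mul_eq_mul_div, le_div_iff₀ (by positivity)]
    have h6 : ‖aa J K0 m‖ * 2 ^ k ≤ ‖aa J K0 m‖ * om (m l) ^ ((1:ℝ) / 4) :=
      mul_le_mul_of_nonneg_left h3 (norm_nonneg _)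
    linarith
  refine (Finset.sum_le_sum h1).trans ?_
  rw [Finset.sum_comm]
  have h2 : ∑ l : Fin (J + 1), ∑ m ∈ F, 4 / 2 ^ k *
      (‖aa J K0 m‖ * om (m l) ^ ((1:ℝ) / 4)) ≤ ∑ _l : Fin (J + 1), 4 / 2 ^ k * Q := by
    apply Finset.sum_le_sum
    intro l _
    rw [← Finset.mul_sum]
    exact mul_le_mul_of_nonneg_left (hl l) (by positivity)
  refine h2.trans ?_
  rw [Finset.sum_const, Finset.card_univ, Fintype.card_fin, nsmul_eq_mul]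
  push_cast
  have h3 := Q_le J
  rw [← hQ] at h3
  have h4 : ((J:ℝ) + 1) * (4 / 2 ^ k * Q) = (4 * (((J:ℝ) + 1) * Q) * 2 ^ J) / (2 ^ k * 2 ^ J) := by
    field_simp
  have h5 : (2:ℝ) ^ kR J / 2 ^ k * (1 / 2) ^ J = 2 ^ kR J / (2 ^ k * 2 ^ J) := by
    rw [one_div, inv_pow]
    field_simp
  rw [h4, h5]
  exact div_le_div_of_nonneg_right h3 (by positivity)

/-- Full box. -/
noncomputable def Fbox (J R : ℕ) : Finset (Fin (J + 1) → ℤ) :=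
  Fintype.piFinset (fun _ => Finset.Icc (-(R : ℤ)) R)

lemma mem_Fbox {J R : ℕ} {m : Fin (J + 1) → ℤ} :
    m ∈ Fbox J R ↔ ∀ l, |m l| ≤ R := by
  unfold Fbox
  rw [Fintype.mem_piFinset]
  simp only [Finset.mem_Icc, abs_le]

lemma inf_tail (J R : ℕ) (δ : ℝ)
    (hR : ∀ F : Finset (Fin (J + 1) → ℤ), (∀ m ∈ F, ∃ l, (R:ℤ) < |m l|) →
      ∑ m ∈ F, ‖cf J m‖ ≤ δ) (g : (Fin (J + 1) → ℤ) → ℂ) (A : ℂ) (M : ℝ)
    (hM : 0 ≤ M) (hg : ∀ m, ‖g m‖ ≤ M * ‖cf J m‖) (hA : HasSum g A) :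
    ‖A - ∑ m ∈ Fbox J R, g m‖ ≤ M * δ := by
  classical
  have h1 : Filter.Tendsto (fun F : Finset (Fin (J + 1) → ℤ) => ‖∑ m ∈ F, g m -
      ∑ m ∈ Fbox J R, g m‖) Filter.atTop (nhds ‖A - ∑ m ∈ Fbox J R, g m‖) := by
    apply Filter.Tendsto.norm
    exact Filter.Tendsto.sub_const hA _
  refine le_of_tendsto h1 ?_
  filter_upwards [Filter.eventually_ge_atTop (Fbox J R)] with F hF
  have h2 : ∑ m ∈ F, g m - ∑ m ∈ Fbox J R, g m = ∑ m ∈ F \ Fbox J R, g m := by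
    rw [← Finset.sum_sdiff hF]
    ring
  rw [h2]
  refine (norm_sum_le _ _).trans ?_
  refine (Finset.sum_le_sum (fun m _ => hg m)).trans ?_
  rw [← Finset.mul_sum]
  apply mul_le_mul_of_nonneg_left _ hM
  apply hR
  intro m hm
  rw [mem_sdiff, mem_Fbox] at hm
  by_contra hcon
  push Not at hcon
  exact hm.2 hcon

lemma norm_hh_le {G : Type*} [AddCommGroup G] {L D : ℕ} (s : Finset G) (f : G → ℝ)
    (m : Fin D → ℤ) (Z : XX L G) : ‖hh s f m Z‖ ≤ ∑ a ∈ s, |f a| := by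
  unfold hh
  refine (norm_sum_le _ _).trans (le_of_eq ?_)
  apply Finset.sum_congr rfl
  intro a _
  rw [norm_mul, norm_e, mul_one, Complex.norm_real, Real.norm_eq_abs]

lemma four_le {G : Type*} (s : Finset G) (f : G → ℝ) {S2 θ : ℝ} (hS2 : 0 ≤ S2)
    (hθ : 0 ≤ θ) (hS : ∑ a ∈ s, f a ^ 2 ≤ S2) (hf : ∀ a ∈ s, |f a| ≤ θ * √S2) :
    √(∑ a ∈ s, f a ^ 4) ≤ θ * S2 := by
  rw [show θ * S2 = √((θ * S2) ^ 2) from (Real.sqrt_sq (by positivity)).symm]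
  apply Real.sqrt_le_sqrt
  calc ∑ a ∈ s, f a ^ 4 ≤ ∑ a ∈ s, (θ ^ 2 * S2) * f a ^ 2 := by
        apply Finset.sum_le_sum
        intro a ha
        have h1 : f a ^ 2 ≤ (θ * √S2) ^ 2 := by
          rw [← sq_abs]
          exact pow_le_pow_left₀ (abs_nonneg _) (hf a ha) 2
        rw [mul_pow, Real.sq_sqrt hS2] at h1
        have h2 := sq_nonneg (f a)
        nlinarith
    _ = (θ ^ 2 * S2) * ∑ a ∈ s, f a ^ 2 := by rw [Finset.mul_sum]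
    _ ≤ (θ ^ 2 * S2) * S2 := by gcongr
    _ = _ := by ring

lemma hasSum_level {G : Type*} [AddCommGroup G] [Fintype G] {L : ℕ} (J : ℕ) (hJ : J + 1 ≤ L)
    (s : Finset G) (f : G → ℝ) (Z : XX L G) (x : G) :
    HasSum (fun m : Fin (J + 1) → ℤ => cf J m * hh s f m Z * e (dotu m (ua Z x)))
      ((∑ a ∈ s, f a * (2 * del J K0 (1 / 2) (ua Z (x + a))) : ℝ) : ℂ) := by
  have h1 : HasSum (fun m : Fin (J + 1) → ℤ => ∑ a ∈ s, (f a : ℂ) * (2 *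
      (aa J K0 m * (1 - e (-(m 0 * (1 / 2)))) * e (dotu m (ua Z (x + a))))))
      (∑ a ∈ s, (f a : ℂ) * (2 * ((del J K0 (1 / 2) (ua Z (x + a)) : ℝ) : ℂ))) := by
    apply hasSum_sum
    intro a _
    exact ((hasSum_del J K0 K0_pos (1 / 2) (ua Z (x + a))).mul_left 2).mul_left _
  have h2 : (fun m : Fin (J + 1) → ℤ => cf J m * hh s f m Z * e (dotu m (ua Z x))) =
      (fun m : Fin (J + 1) → ℤ => ∑ a ∈ s, (f a : ℂ) * (2 *
      (aa J K0 m * (1 - e (-(m 0 * (1 / 2)))) * e (dotu m (ua Z (x + a)))))) := by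
    ext m
    unfold hh cf
    rw [Finset.mul_sum, Finset.sum_mul]
    apply Finset.sum_congr rfl
    intro a _
    rw [ch_add hJ]
    ring
  rw [h2]
  push_cast
  exact h1

/-- The bound for one level, with abstract cutoffs. -/
theorem level_bound_aux {G : Type*} [AddCommGroup G] [Fintype G] (J R R' μ : ℕ) (hR0 : 1 ≤ R)
    (hRR : R ≤ R')
    (hR1 : ∀ m : Fin (J + 1) → ℤ, (∀ l, |m l| ≤ (R:ℤ)) → ∀ (ε : Fin (J + 1) → Bool) l,
      Nat.log 2 (Lsk J K0 ε m l).natAbs ≤ DmJ J)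
    (hR2 : ∀ F : Finset (Fin (J + 1) → ℤ), (∀ m ∈ F, ∃ l, (R:ℤ) < |m l|) →
      ∑ m ∈ F, ‖cf J m‖ ≤ (1 / 2) ^ J)
    (hR3 : ∀ F : Finset (Fin (J + 1) → ℤ), (∀ m ∈ F, ∃ l, (R':ℤ) < |m l|) →
      ∑ m ∈ F, ‖cf J m‖ ≤ (1 / 2) ^ μ * (1 / 2) ^ J)
    (s : Finset G) (f : G → ℝ) (S2 : ℝ)
    (hS2 : 0 < S2) (hS : ∑ a ∈ s, f a ^ 2 ≤ S2) (hf : ∀ a ∈ s, |f a| ≤ thr J * √S2)
    (hmin : ∀ a ∈ s, √S2 ≤ 2 ^ μ * |f a|)
    (L : ℕ) (hL : J + 1 ≤ L) (N : ℤ) (hs : Sep s N)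
    (hN : 12 * ((R':ℤ) * ((R':ℤ) * (R':ℤ))) < N) :
    ∃ X : XX L G → ℝ, (∀ Z, 0 ≤ X Z) ∧
      (∀ Z (x : G), (∑ a ∈ s, f a * (2 * del J K0 (1 / 2) (ua Z (x + a)))) ^ 2 ≤ X Z) ∧
      avR X ≤ S2 * Gam J := by
  classical
  have hRi : (1:ℤ) ≤ R := by exact_mod_cast hR0
  have hRRi : (R:ℤ) ≤ R' := by exact_mod_cast hRR
  have hN' : 12 * ((R:ℤ) * ((R:ℤ) * (R:ℤ))) < N := by
    have h1 : (R:ℤ) * R ≤ R' * R' := mul_le_mul hRRi hRRi (by linarith) (by linarith)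
    have h2 : (R:ℤ) * ((R:ℤ) * R) ≤ R' * (R' * R') :=
      mul_le_mul hRRi h1 (by positivity) (by linarith)
    linarith
  have hN1 : (R':ℤ) < N := by
    have h1 : (1:ℤ) ≤ R' := by linarith
    have h2 : (R':ℤ) ≤ R' * R' := by nlinarith
    have h3 : (R':ℤ) * R' ≤ R' * (R' * R') := by nlinarith
    nlinarith
  have hsq := Real.sqrt_pos.2 hS2
  set S1 : ℝ := ∑ a ∈ s, |f a| with hS1
  have hS1n : 0 ≤ S1 := Finset.sum_nonneg (fun a _ => abs_nonneg _)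
  have hS1le : S1 ≤ 2 ^ μ * √S2 := by
    have h1 : ∀ a ∈ s, |f a| ≤ 2 ^ μ / √S2 * f a ^ 2 := by
      intro a ha
      rw [div_mul_eq_mul_div, le_div_iff₀ hsq, ← sq_abs (f a)]
      have h2 := hmin a ha
      have h3 := abs_nonneg (f a)
      nlinarith
    calc S1 ≤ ∑ a ∈ s, 2 ^ μ / √S2 * f a ^ 2 := Finset.sum_le_sum h1
      _ = 2 ^ μ / √S2 * ∑ a ∈ s, f a ^ 2 := by rw [Finset.mul_sum]
      _ ≤ 2 ^ μ / √S2 * S2 := by gcongr
      _ = 2 ^ μ * √S2 := by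
          rw [div_mul_eq_mul_div, mul_div_assoc, Real.div_sqrt]
  obtain ⟨X1, hX1n, hX1, hX1a⟩ := block_bound hL s f R (DmJ J) hR0
    hR1 N hs hN' S2 (thr J) (thr_pos J).le hS
    (four_le s f hS2.le (thr_pos J).le hS hf)
  have hF1 : Lcut J R ⊆ Fbox J R' := by
    intro m hm
    rw [mem_Fbox]
    intro l
    exact ((mem_Lcut.1 hm).2 l).trans hRRi
  set F' : Finset (Fin (J + 1) → ℤ) := (Fbox J R' \ Lcut J R).erase 0 with hF'
  have hF'mem : ∀ m ∈ F', (∀ l, |m l| ≤ (R':ℤ)) ∧ m ≠ 0 ∧ ∃ l, (R : ℤ) < |m l| := by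
    intro m hm
    rw [hF', mem_erase, mem_sdiff] at hm
    refine ⟨mem_Fbox.1 hm.2.1, hm.1, ?_⟩
    by_contra hcon
    push Not at hcon
    exact hm.2.2 (mem_Lcut.2 ⟨hm.1, hcon⟩)
  have hmass : ∑ m ∈ F', ‖cf J m‖ ≤ (1 / 2) ^ J := hR2 F' (fun m hm => (hF'mem m hm).2.2)
  have hmass0 : 0 ≤ ∑ m ∈ F', ‖cf J m‖ := Finset.sum_nonneg (fun m _ => norm_nonneg _)
  refine ⟨fun Z => 3 * X1 Z + 3 * ((∑ m ∈ F', ‖cf J m‖) * ∑ m ∈ F', ‖cf J m‖ *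
    ‖hh s f m Z‖ ^ 2) + 3 * ((1 / 4) ^ J * S2), ?_, ?_, ?_⟩
  · intro Z
    have := hX1n Z
    positivity
  · intro Z x
    set T : ℝ := ∑ a ∈ s, f a * (2 * del J K0 (1 / 2) (ua Z (x + a))) with hT
    set g : (Fin (J + 1) → ℤ) → ℂ := fun m => cf J m * hh s f m Z * e (dotu m (ua Z x)) with hg
    have hsum : HasSum g ((T:ℝ) : ℂ) := hasSum_level J hL s f Z x
    have h1 := inf_tail J R' _ hR3 g T S1 hS1n (by
      intro m
      rw [hg]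
      simp only [norm_mul, norm_e, mul_one]
      rw [mul_comm]
      exact mul_le_mul_of_nonneg_right (norm_hh_le s f m Z) (norm_nonneg _)) hsum
    have h2 : S1 * ((1 / 2) ^ μ * (1 / 2) ^ J) ≤ (1 / 2) ^ J * √S2 := by
      calc S1 * ((1 / 2) ^ μ * (1 / 2) ^ J) ≤ (2 ^ μ * √S2) * ((1 / 2) ^ μ * (1 / 2) ^ J) := by
            gcongr
        _ = (2 ^ μ * (1 / 2) ^ μ) * ((1 / 2) ^ J * √S2) := by ring
        _ = (1 / 2) ^ J * √S2 := by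
            rw [← mul_pow]
            norm_num
    have h3 := h1.trans h2
    have h4 : ∑ m ∈ Fbox J R', g m = ∑ m ∈ Lcut J R, g m + ∑ m ∈ F', g m := by
      rw [← Finset.sum_sdiff hF1, add_comm]
      congr 1
      rw [hF']
      by_cases h0 : (0 : Fin (J + 1) → ℤ) ∈ Fbox J R' \ Lcut J R
      · rw [← Finset.add_sum_erase _ _ h0]
        have : g 0 = 0 := by
          rw [hg]
          simp only
          rw [cf_zero, zero_mul, zero_mul]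
        rw [this, zero_add]
      · rw [Finset.erase_eq_of_notMem h0]
    rw [h4] at h3
    have h5 : ‖∑ m ∈ F', g m‖ ^ 2 ≤ (∑ m ∈ F', ‖cf J m‖) * ∑ m ∈ F', ‖cf J m‖ *
        ‖hh s f m Z‖ ^ 2 := by
      have e1 : ‖∑ m ∈ F', g m‖ ≤ ∑ m ∈ F', √‖cf J m‖ * (√‖cf J m‖ * ‖hh s f m Z‖) := by
        refine (norm_sum_le _ _).trans (le_of_eq ?_)
        apply Finset.sum_congr rfl
        intro m _
        rw [hg]
        simp only [norm_mul, norm_e, mul_one]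
        rw [← mul_assoc, Real.mul_self_sqrt (norm_nonneg _)]
      have e2 := Finset.sum_mul_sq_le_sq_mul_sq F' (fun m => √‖cf J m‖)
        (fun m => √‖cf J m‖ * ‖hh s f m Z‖)
      refine (pow_le_pow_left₀ (norm_nonneg _) e1 2).trans (e2.trans (le_of_eq ?_))
      congr 1
      · apply Finset.sum_congr rfl
        intro m _
        rw [Real.sq_sqrt (norm_nonneg _)]
      · apply Finset.sum_congr rfl
        intro m _
        rw [mul_pow, Real.sq_sqrt (norm_nonneg _)]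
    have h6 := hX1 Z (ua Z x)
    have h7 : |T| ≤ ‖∑ m ∈ Lcut J R, g m‖ + ‖∑ m ∈ F', g m‖ + (1 / 2) ^ J * √S2 := by
      have e1 : |T| = ‖((T:ℝ):ℂ)‖ := by rw [Complex.norm_real, Real.norm_eq_abs]
      have e2 : ((T:ℝ):ℂ) = ∑ m ∈ Lcut J R, g m + ∑ m ∈ F', g m + (((T:ℝ):ℂ) -
          (∑ m ∈ Lcut J R, g m + ∑ m ∈ F', g m)) := by ring
      rw [e1]
      calc ‖((T:ℝ):ℂ)‖ = ‖∑ m ∈ Lcut J R, g m + ∑ m ∈ F', g m + (((T:ℝ):ℂ) -
          (∑ m ∈ Lcut J R, g m + ∑ m ∈ F', g m))‖ := congrArg _ e2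
        _ ≤ ‖∑ m ∈ Lcut J R, g m + ∑ m ∈ F', g m‖ + ‖(((T:ℝ):ℂ) -
          (∑ m ∈ Lcut J R, g m + ∑ m ∈ F', g m))‖ := norm_add_le _ _
        _ ≤ _ := by
          have := norm_add_le (∑ m ∈ Lcut J R, g m) (∑ m ∈ F', g m)
          linarith
    have h8 : T ^ 2 ≤ (‖∑ m ∈ Lcut J R, g m‖ + ‖∑ m ∈ F', g m‖ + (1 / 2) ^ J * √S2) ^ 2 := by
      rw [← sq_abs]
      exact pow_le_pow_left₀ (abs_nonneg _) h7 2
    have h9 : ((1 / 2) ^ J * √S2) ^ 2 = (1 / 4) ^ J * S2 := by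
      rw [mul_pow, Real.sq_sqrt hS2.le, ← pow_mul, mul_comm J 2, pow_mul]
      norm_num
    have h10 : ∀ a b c : ℝ, (a + b + c) ^ 2 ≤ 3 * a ^ 2 + 3 * b ^ 2 + 3 * c ^ 2 := by
      intro a b c
      nlinarith [sq_nonneg (a - b), sq_nonneg (b - c), sq_nonneg (a - c)]
    have h11 := h10 ‖∑ m ∈ Lcut J R, g m‖ ‖∑ m ∈ F', g m‖ ((1 / 2) ^ J * √S2)
    rw [h9] at h11
    have h12 : ‖∑ m ∈ Lcut J R, g m‖ ^ 2 ≤ X1 Z := h6
    linarith
  · rw [avR_add, avR_add, avR_mul_left, avR_mul_left, avR_mul_left, avR_sum, avR_const]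
    have h1 : ∑ m ∈ F', avR (fun Z : XX L G => ‖cf J m‖ * ‖hh s f m Z‖ ^ 2) ≤
        (1 / 2) ^ J * S2 := by
      calc _ ≤ ∑ m ∈ F', ‖cf J m‖ * S2 := by
            apply Finset.sum_le_sum
            intro m hm
            obtain ⟨m1, m2, _⟩ := hF'mem m hm
            rw [avR_mul_left, moment_one hL s f m R' N hs m1 hN1 m2]
            exact mul_le_mul_of_nonneg_left hS (norm_nonneg _)
        _ ≤ _ := by
            rw [← Finset.sum_mul]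
            exact mul_le_mul_of_nonneg_right hmass hS2.le
    have h2 : (∑ m ∈ F', ‖cf J m‖) * ∑ m ∈ F', avR (fun Z : XX L G => ‖cf J m‖ *
        ‖hh s f m Z‖ ^ 2) ≤ (1 / 4) ^ J * S2 := by
      have h3 : 0 ≤ ∑ m ∈ F', avR (fun Z : XX L G => ‖cf J m‖ * ‖hh s f m Z‖ ^ 2) :=
        Finset.sum_nonneg (fun m _ => avR_nonneg (fun Z => by positivity))
      calc _ ≤ (1 / 2) ^ J * ((1 / 2) ^ J * S2) := mul_le_mul hmass h1 h3 (by positivity)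
        _ = _ := by
            rw [← mul_assoc, ← mul_pow]
            norm_num
    unfold Gam
    have h4 : (3:ℝ) * avR X1 ≤ 3 * (S2 * ((2 ^ (J + 1) * ((DmJ J + 1 : ℕ) : ℝ) ^ (J + 1)) ^ 2 *
        ((4 * 12 ^ (J + 1)) ^ 2 * (2 ^ (J + 2) * (gam J + thr J))))) := by linarith
    linarith

/-- The bound for one level. -/
theorem level_bound {G : Type*} [AddCommGroup G] [Fintype G] (J μ : ℕ)
    (s : Finset G) (f : G → ℝ) (S2 : ℝ)
    (hS2 : 0 < S2) (hS : ∑ a ∈ s, f a ^ 2 ≤ S2) (hf : ∀ a ∈ s, |f a| ≤ thr J * √S2)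
    (hmin : ∀ a ∈ s, √S2 ≤ 2 ^ μ * |f a|)
    (L : ℕ) (hL : J + 1 ≤ L) (N : ℤ) (hs : Sep s N)
    (hN : 12 * (((2 ^ (4 * (kR J + μ)) : ℕ) : ℤ) * (((2 ^ (4 * (kR J + μ)) : ℕ) : ℤ) *
      ((2 ^ (4 * (kR J + μ)) : ℕ) : ℤ))) < N) :
    ∃ X : XX L G → ℝ, (∀ Z, 0 ≤ X Z) ∧
      (∀ Z (x : G), (∑ a ∈ s, f a * (2 * del J K0 (1 / 2) (ua Z (x + a)))) ^ 2 ≤ X Z) ∧
      avR X ≤ S2 * Gam J := by
  refine level_bound_aux J (2 ^ (4 * kR J)) (2 ^ (4 * (kR J + μ))) μ Nat.one_le_two_pow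
    (Nat.pow_le_pow_right (by norm_num) (by omega)) (fun m hm ε l => log_le_DmJ J m hm ε l)
    (fun F hF => tail_mass J F hF) (fun F hF => ?_) s f S2 hS2 hS hf hmin L hL N hs hN
  have h := tail_mass' J (kR J + μ) F hF
  have h2 : (2:ℝ) ^ kR J / 2 ^ (kR J + μ) = (1 / 2) ^ μ := by
    rw [pow_add, one_div, inv_pow]
    field_simp
  rw [h2] at h
  exact h

end Pool.Agent.Helper18.BG
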