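import Pool.Agent.Helper18.BFSeries

open scoped Real ComplexConjugate
open Finset

namespace Pool.Agent.Helper18.BG

open Pool.Agent.Helper18.BF

section avg

variable {Ω : Type*} [Fintype Ω]

/-- Average of a complex function. -/
noncomputable def av (F : Ω → ℂ) : ℂ := (∑ Z, F Z) / (Fintype.card Ω : ℂ)

/-- Average of a real function. -/
noncomputable def avR (F : Ω → ℝ) : ℝ := (∑ Z, F Z) / (Fintype.card Ω : ℝ)

lemma av_sum {ι : Type*} (s : Finset ι) (F : ι → Ω → ℂ) :
    av (fun Z => ∑ i ∈ s, F i Z) = ∑ i ∈ s, av (F i) := by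
  unfold av
  rw [Finset.sum_comm, Finset.sum_div]

lemma av_mul_left (c : ℂ) (F : Ω → ℂ) : av (fun Z => c * F Z) = c * av F := by
  unfold av
  rw [← Finset.mul_sum, mul_div_assoc]

lemma avR_sum {ι : Type*} (s : Finset ι) (F : ι → Ω → ℝ) :
    avR (fun Z => ∑ i ∈ s, F i Z) = ∑ i ∈ s, avR (F i) := by
  unfold avR
  rw [Finset.sum_comm, Finset.sum_div]

lemma avR_mul_left (c : ℝ) (F : Ω → ℝ) : avR (fun Z => c * F Z) = c * avR F := by
  unfold avR
  rw [← Finset.mul_sum, mul_div_assoc]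

lemma avR_add (F G : Ω → ℝ) : avR (fun Z => F Z + G Z) = avR F + avR G := by
  unfold avR
  rw [Finset.sum_add_distrib, add_div]

lemma avR_mono {F G : Ω → ℝ} (h : ∀ Z, F Z ≤ G Z) : avR F ≤ avR G := by
  unfold avR
  exact div_le_div_of_nonneg_right (Finset.sum_le_sum (fun Z _ => h Z)) (Nat.cast_nonneg _)

lemma avR_nonneg {F : Ω → ℝ} (h : ∀ Z, 0 ≤ F Z) : 0 ≤ avR F := by
  unfold avR
  exact div_nonneg (Finset.sum_nonneg (fun Z _ => h Z)) (Nat.cast_nonneg _)

lemma ofReal_avR (F : Ω → ℝ) : ((avR F : ℝ) : ℂ) = av (fun Z => ((F Z : ℝ) : ℂ)) := by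
  unfold avR av
  push_cast
  rfl

lemma avR_const [Nonempty Ω] (c : ℝ) : avR (fun _ : Ω => c) = c := by
  unfold avR
  have h2 : (Fintype.card Ω : ℝ) ≠ 0 := by
    have : 0 < Fintype.card Ω := Fintype.card_pos
    positivity
  rw [Finset.sum_const, Finset.card_univ, nsmul_eq_mul]
  field_simp

/-- Jensen for averages. -/
lemma avR_le_sqrt (F : Ω → ℝ) : avR F ≤ √(avR (fun Z => F Z ^ 2)) := by
  apply Real.le_sqrt_of_sq_le
  unfold avR
  rcases Nat.eq_zero_or_pos (Fintype.card Ω) with h | h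
  · simp [h]
  · have hc : (0:ℝ) < Fintype.card Ω := by exact_mod_cast h
    rw [div_pow, div_le_div_iff₀ (by positivity) hc]
    have := sq_sum_le_card_mul_sum_sq (s := (Finset.univ : Finset Ω)) (f := F)
    rw [Finset.card_univ] at this
    nlinarith

lemma norm_av_le (F : Ω → ℂ) : ‖av F‖ ≤ avR (fun Z => ‖F Z‖) := by
  unfold av avR
  rw [norm_div]
  have : ‖(Fintype.card Ω : ℂ)‖ = (Fintype.card Ω : ℝ) := by simp
  rw [this]
  exact div_le_div_of_nonneg_right (norm_sum_le _ _) (Nat.cast_nonneg _)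

lemma exists_le_avR [Nonempty Ω] (F : Ω → ℝ) : ∃ Z, F Z ≤ avR F := by
  by_contra hcon
  push Not at hcon
  have h1 : ∑ _Z : Ω, avR F < ∑ Z, F Z :=
    Finset.sum_lt_sum_of_nonempty Finset.univ_nonempty (fun Z _ => hcon Z)
  rw [Finset.sum_const, Finset.card_univ, nsmul_eq_mul] at h1
  have hc : (0:ℝ) < Fintype.card Ω := by exact_mod_cast Fintype.card_pos
  have h2 : (Fintype.card Ω : ℝ) * avR F = ∑ Z, F Z := by
    unfold avR
    field_simp
  rw [h2] at h1
  exact lt_irrefl _ h1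

end avg

section chars

variable {G : Type*} [AddCommGroup G] [Fintype G] {L D : ℕ}

/-- Tuples of characters. -/
abbrev XX (L : ℕ) (G : Type*) [AddCommGroup G] : Type _ := Fin L → AddChar G ℂ

/-- Arguments of the random characters. -/
noncomputable def ua (Z : XX L G) (x : G) : ℕ → ℝ := fun l =>
  if h : l < L then Complex.arg (Z ⟨l, h⟩ x) / (2 * π) else 0

lemma e_ua (Z : XX L G) (x : G) (l : Fin L) : e (ua Z x l) = Z l x := by
  unfold ua e
  rw [dif_pos l.2]
  have h1 : ‖Z l x‖ = 1 := AddChar.norm_apply _ _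
  have h2 := Complex.norm_mul_exp_arg_mul_I (Z l x)
  rw [h1] at h2
  have h3 : (2 * π * Complex.I * ((Complex.arg (Z ⟨(l : ℕ), l.2⟩ x) / (2 * π) : ℝ) : ℂ)) =
      (Complex.arg (Z l x)) * Complex.I := by
    push_cast
    field_simp
  rw [h3]
  simpa using h2

lemma e_zmul (m : ℤ) (x : ℝ) : e (m * x) = e x ^ m := by
  unfold e
  rw [← Complex.exp_int_mul]
  congr 1
  push_cast
  ring

lemma e_sum (n : ℕ) (g : Fin n → ℝ) : e (∑ i, g i) = ∏ i, e (g i) := by
  induction n with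
  | zero => simp [e_zero]
  | succ n ih => rw [Fin.sum_univ_succ, Fin.prod_univ_succ, e_add, ih]

lemma ch_eq (hD : D ≤ L) (m : Fin D → ℤ) (Z : XX L G) (x : G) :
    e (dotu m (ua Z x)) = ∏ l : Fin D, Z (Fin.castLE hD l) (m l • x) := by
  unfold dotu
  rw [e_sum]
  apply Finset.prod_congr rfl
  intro l _
  rw [e_zmul, AddChar.map_zsmul_eq_zpow]
  congr 1
  exact e_ua Z x (Fin.castLE hD l)

lemma ch_add (hD : D ≤ L) (m : Fin D → ℤ) (Z : XX L G) (x y : G) :
    e (dotu m (ua Z (x + y))) = e (dotu m (ua Z x)) * e (dotu m (ua Z y)) := by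
  rw [ch_eq hD, ch_eq hD, ch_eq hD, ← Finset.prod_mul_distrib]
  apply Finset.prod_congr rfl
  intro l _
  rw [smul_add, AddChar.map_add_eq_mul]

open Classical in
/-- Orthogonality. -/
lemma av_prod (hD : D ≤ L) (V : Fin D → G) :
    av (fun Z : XX L G => ∏ l : Fin D, Z (Fin.castLE hD l) (V l)) =
      if ∀ l, V l = 0 then 1 else 0 := by
  obtain ⟨E, rfl⟩ : ∃ E, L = D + E := ⟨L - D, by omega⟩
  set W : Fin (D + E) → G := Fin.append V (fun _ => 0) with hW
  have h1 : ∀ Z : XX (D + E) G, ∏ l : Fin D, Z (Fin.castLE hD l) (V l) =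
      ∏ l : Fin (D + E), Z l (W l) := by
    intro Z
    rw [Fin.prod_univ_add]
    have h2 : ∏ l : Fin E, Z (Fin.natAdd D l) (W (Fin.natAdd D l)) = 1 := by
      apply Finset.prod_eq_one
      intro l _
      rw [hW, Fin.append_right, AddChar.map_zero_eq_one]
    rw [h2, mul_one]
    apply Finset.prod_congr rfl
    intro l _
    rw [hW, Fin.append_left]
    rfl
  simp_rw [h1]
  unfold av
  rw [← Fintype.prod_sum (fun (l : Fin (D + E)) (ψ : AddChar G ℂ) => ψ (W l))]
  simp_rw [AddChar.sum_apply_eq_ite]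
  have hc : (Fintype.card (XX (D + E) G) : ℂ) = ∏ _l : Fin (D + E), (Fintype.card G : ℂ) := by
    simp [AddChar.card_eq]
  rw [hc]
  have hG : (Fintype.card G : ℂ) ≠ 0 := by
    exact_mod_cast Fintype.card_ne_zero
  split_ifs with h
  · rw [div_eq_one_iff_eq]
    · apply Finset.prod_congr rfl
      intro l _
      rw [if_pos]
      rw [hW]
      refine Fin.addCases (fun i => ?_) (fun i => ?_) l
      · rw [Fin.append_left, h]
      · rw [Fin.append_right]
    · exact Finset.prod_ne_zero_iff.2 (fun l _ => hG)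
  · push Not at h
    obtain ⟨l, hl⟩ := h
    rw [div_eq_zero_iff]
    left
    apply Finset.prod_eq_zero (Finset.mem_univ (Fin.castAdd E l))
    rw [if_neg]
    rw [hW, Fin.append_left]
    exact hl

end chars

end Pool.Agent.Helper18.BG
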