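import Pool.Agent.Helper18.BGMoment

open scoped Real ComplexConjugate
open Finset

namespace Pool.Agent.Helper18.BG

open Pool.Agent.Helper18.BF

section

variable {D : ℕ}

lemma exists_minor2 {m n : Fin D → ℤ} (h : ¬ Dep2 m n) :
    ∃ l k, m l * n k - m k * n l ≠ 0 := by
  by_contra hcon
  push Not at hcon
  apply h
  by_cases hm : ∃ l, m l ≠ 0
  · obtain ⟨l, hl⟩ := hm
    refine ⟨n l, -m l, Or.inr (neg_ne_zero.2 hl), ?_⟩
    intro k
    have := hcon l k
    linarith
  · push Not at hm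
    refine ⟨1, 0, Or.inl one_ne_zero, ?_⟩
    intro k
    rw [hm k]
    ring

/-- Three by three determinant. -/
def det3 (m n k : Fin D → ℤ) (a b c : Fin D) : ℤ :=
  m a * (n b * k c - n c * k b) - m b * (n a * k c - n c * k a) + m c * (n a * k b - n b * k a)

lemma exists_minor3 {m n k : Fin D → ℤ} (h : ¬ Dep3 m n k) :
    ∃ a b c, det3 m n k a b c ≠ 0 := by
  by_contra hcon
  push Not at hcon
  apply h
  by_cases hd : Dep2 m n
  · obtain ⟨x, y, hxy, hx⟩ := hd
    refine ⟨x, y, 0, by tauto, ?_⟩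
    intro l
    rw [hx l]
    ring
  · obtain ⟨a, b, hab⟩ := exists_minor2 hd
    refine ⟨n a * k b - n b * k a, -(m a * k b - m b * k a), m a * n b - m b * n a,
      Or.inr (Or.inr hab), ?_⟩
    intro c
    have := hcon a b c
    unfold det3 at this
    linarith

end

section

variable {G : Type*} [AddCommGroup G]

/-- Separation: differences have large order. -/
def Sep (s : Finset G) (N : ℤ) : Prop :=
  ∀ a ∈ s, ∀ b ∈ s, ∀ k : ℤ, k ≠ 0 → |k| < N → k • (a - b) = 0 → a = b

lemma abs_mul_le {a b A B : ℤ} (ha : |a| ≤ A) (hb : |b| ≤ B) : |a * b| ≤ A * B := by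
  rw [abs_mul]
  exact mul_le_mul ha hb (abs_nonneg _) ((abs_nonneg _).trans ha)

lemma sol_two {D : ℕ} {m n : Fin D → ℤ} {B N : ℤ} (hm : ∀ l, |m l| ≤ B)
    (hn : ∀ l, |n l| ≤ B) (hN : 2 * (B * B) < N) (h : ¬ Dep2 m n) {s : Finset G} (hs : Sep s N)
    {a b c c' : G} (ha : a ∈ s) (hb : b ∈ s) (hc : c ∈ s) (hc' : c' ∈ s)
    (hsol : ∀ l, m l • (a - b) + n l • (c' - c) = 0) : a = b ∧ c' = c := by
  obtain ⟨l, k, hlk⟩ := exists_minor2 h
  have hbd : |m l * n k - m k * n l| < N := by
    have h1 := abs_mul_le (hm l) (hn k)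
    have h2 := abs_mul_le (hm k) (hn l)
    rw [abs_le] at h1 h2
    rw [abs_lt]
    constructor <;> linarith
  have e1 : (m l * n k - m k * n l) • (a - b) = 0 := by
    have : (m l * n k - m k * n l) • (a - b) = n k • (m l • (a - b) + n l • (c' - c)) -
        n l • (m k • (a - b) + n k • (c' - c)) := by module
    rw [this, hsol l, hsol k]
    simp
  have e2 : (m l * n k - m k * n l) • (c' - c) = 0 := by
    have : (m l * n k - m k * n l) • (c' - c) = m l • (m k • (a - b) + n k • (c' - c)) -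
        m k • (m l • (a - b) + n l • (c' - c)) := by module
    rw [this, hsol l, hsol k]
    simp
  exact ⟨hs a ha b hb _ hlk hbd e1, hs c' hc' c hc _ hlk hbd e2⟩

lemma sol_three {D : ℕ} {m n k : Fin D → ℤ} {B N : ℤ} (hm : ∀ l, |m l| ≤ B)
    (hn : ∀ l, |n l| ≤ 2 * B) (hk : ∀ l, |k l| ≤ B) (hN : 12 * (B * (B * B)) < N)
    (h : ¬ Dep3 m n k) {s : Finset G} (hs : Sep s N)
    {a b c c' : G} (ha : a ∈ s) (hb : b ∈ s) (hc : c ∈ s) (hc' : c' ∈ s)
    (hsol : ∀ l, m l • (a - b) + n l • (a - c) + k l • (c' - c) = 0) :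
    b = a ∧ c = a ∧ c' = a := by
  obtain ⟨l1, l2, l3, hdet⟩ := exists_minor3 h
  have hprod : ∀ x y z : Fin D, |m x * (n y * k z)| ≤ B * (2 * B * B) := fun x y z =>
    abs_mul_le (hm x) (abs_mul_le (hn y) (hk z))
  have hbd : |det3 m n k l1 l2 l3| < N := by
    have h1 := hprod l1 l2 l3
    have h2 := hprod l1 l3 l2
    have h3 := hprod l2 l1 l3
    have h4 := hprod l2 l3 l1
    have h5 := hprod l3 l1 l2
    have h6 := hprod l3 l2 l1
    unfold det3
    rw [abs_le] at h1 h2 h3 h4 h5 h6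
    rw [abs_lt]
    constructor <;> nlinarith
  have e1 : det3 m n k l1 l2 l3 • (a - b) = 0 := by
    have : det3 m n k l1 l2 l3 • (a - b) =
        (n l2 * k l3 - n l3 * k l2) • (m l1 • (a - b) + n l1 • (a - c) + k l1 • (c' - c)) -
        (n l1 * k l3 - n l3 * k l1) • (m l2 • (a - b) + n l2 • (a - c) + k l2 • (c' - c)) +
        (n l1 * k l2 - n l2 * k l1) • (m l3 • (a - b) + n l3 • (a - c) + k l3 • (c' - c)) := by
      unfold det3
      module
    rw [this, hsol l1, hsol l2, hsol l3]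
    simp
  have e2 : det3 m n k l1 l2 l3 • (a - c) = 0 := by
    have : det3 m n k l1 l2 l3 • (a - c) =
        -(m l2 * k l3 - m l3 * k l2) • (m l1 • (a - b) + n l1 • (a - c) + k l1 • (c' - c)) +
        (m l1 * k l3 - m l3 * k l1) • (m l2 • (a - b) + n l2 • (a - c) + k l2 • (c' - c)) -
        (m l1 * k l2 - m l2 * k l1) • (m l3 • (a - b) + n l3 • (a - c) + k l3 • (c' - c)) := by
      unfold det3
      module
    rw [this, hsol l1, hsol l2, hsol l3]
    simp
  have e3 : det3 m n k l1 l2 l3 • (c' - c) = 0 := by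
    have : det3 m n k l1 l2 l3 • (c' - c) =
        (m l2 * n l3 - m l3 * n l2) • (m l1 • (a - b) + n l1 • (a - c) + k l1 • (c' - c)) -
        (m l1 * n l3 - m l3 * n l1) • (m l2 • (a - b) + n l2 • (a - c) + k l2 • (c' - c)) +
        (m l1 * n l2 - m l2 * n l1) • (m l3 • (a - b) + n l3 • (a - c) + k l3 • (c' - c)) := by
      unfold det3
      module
    rw [this, hsol l1, hsol l2, hsol l3]
    simp
  have r1 := hs a ha b hb _ hdet hbd e1
  have r2 := hs a ha c hc _ hdet hbd e2
  have r3 := hs c' hc' c hc _ hdet hbd e3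
  exact ⟨r1.symm, r2.symm, r3.trans r2.symm⟩

end

section

variable {G : Type*} [AddCommGroup G] [Fintype G] {L D : ℕ}

/-- The exponential sum attached to a frequency. -/
noncomputable def hh (s : Finset G) (f : G → ℝ) (m : Fin D → ℤ)
    (Z : XX L G) : ℂ := ∑ a ∈ s, (f a : ℂ) * e (dotu m (ua Z a))

lemma conj_ch (hD : D ≤ L) (m : Fin D → ℤ) (Z : XX L G) (a : G) :
    conj (e (dotu m (ua Z a))) = ∏ l : Fin D, Z (Fin.castLE hD l) (-(m l • a)) := by
  rw [ch_eq hD, map_prod]
  apply Finset.prod_congr rfl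
  intro l _
  rw [AddChar.map_neg_eq_conj]

lemma conj_hh (s : Finset G) (f : G → ℝ) (m : Fin D → ℤ) (Z : XX L G) :
    conj (hh s f m Z) = ∑ a ∈ s, (f a : ℂ) * conj (e (dotu m (ua Z a))) := by
  unfold hh
  rw [map_sum]
  apply Finset.sum_congr rfl
  intro a _
  rw [map_mul, Complex.conj_ofReal]

open Classical in
lemma av_four (hD : D ≤ L) (s : Finset G) (f : G → ℝ) (m1 m2 m3 m4 : Fin D → ℤ) :
    av (fun Z : XX L G => hh s f m1 Z * conj (hh s f m2 Z) * conj (hh s f m3 Z) *
      hh s f m4 Z) = ∑ a ∈ s, ∑ b ∈ s, ∑ c ∈ s, ∑ c' ∈ s, ((f a * f b * f c * f c' : ℝ) : ℂ) *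
      (if ∀ l : Fin D, m1 l • a - m2 l • b - m3 l • c + m4 l • c' = 0 then 1 else 0) := by
  have e1 : ∀ Z : XX L G, hh s f m1 Z * conj (hh s f m2 Z) * conj (hh s f m3 Z) *
      hh s f m4 Z = ∑ a ∈ s, ∑ b ∈ s, ∑ c ∈ s, ∑ c' ∈ s,
        ((f a * f b * f c * f c' : ℝ) : ℂ) * ∏ l : Fin D, Z (Fin.castLE hD l)
          (m1 l • a - m2 l • b - m3 l • c + m4 l • c') := by
    intro Z
    rw [conj_hh, conj_hh]
    unfold hh
    rw [Finset.sum_mul_sum, Finset.sum_mul, Finset.sum_mul]
    apply Finset.sum_congr rfl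
    intro a _
    rw [Finset.sum_mul, Finset.sum_mul]
    apply Finset.sum_congr rfl
    intro b _
    rw [mul_assoc, Finset.sum_mul_sum, Finset.mul_sum]
    apply Finset.sum_congr rfl
    intro c _
    rw [Finset.mul_sum]
    apply Finset.sum_congr rfl
    intro c' _
    rw [ch_eq hD, conj_ch hD, conj_ch hD, ch_eq hD]
    have e2 : ∏ l : Fin D, Z (Fin.castLE hD l) (m1 l • a - m2 l • b - m3 l • c + m4 l • c') =
        (∏ l : Fin D, Z (Fin.castLE hD l) (m1 l • a)) *
        (∏ l : Fin D, Z (Fin.castLE hD l) (-(m2 l • b))) *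
        (∏ l : Fin D, Z (Fin.castLE hD l) (-(m3 l • c))) *
        (∏ l : Fin D, Z (Fin.castLE hD l) (m4 l • c')) := by
      rw [← Finset.prod_mul_distrib, ← Finset.prod_mul_distrib, ← Finset.prod_mul_distrib]
      apply Finset.prod_congr rfl
      intro l _
      rw [sub_eq_add_neg, sub_eq_add_neg, AddChar.map_add_eq_mul, AddChar.map_add_eq_mul,
        AddChar.map_add_eq_mul]
    rw [e2]
    push_cast
    ring
  rw [show (fun Z : XX L G => hh s f m1 Z * conj (hh s f m2 Z) * conj (hh s f m3 Z) *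
      hh s f m4 Z) = _ from funext e1]
  rw [av_sum]
  apply Finset.sum_congr rfl
  intro a _
  rw [av_sum]
  apply Finset.sum_congr rfl
  intro b _
  rw [av_sum]
  apply Finset.sum_congr rfl
  intro c _
  rw [av_sum]
  apply Finset.sum_congr rfl
  intro c' _
  rw [av_mul_left, av_prod hD]

/-- Mixed second moment for independent frequencies. -/
theorem moment_two (hD : D ≤ L) (s : Finset G) (f : G → ℝ)
    (m n : Fin D → ℤ) (B N : ℤ) (hs : Sep s N) (h1 : ∀ l, |m l| ≤ B) (h2 : ∀ l, |n l| ≤ B)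
    (hN : 2 * (B * B) < N) (hind : ¬ Dep2 m n) :
    avR (fun Z : XX L G => ‖hh s f m Z‖ ^ 2 * ‖hh s f n Z‖ ^ 2) = (∑ a ∈ s, f a ^ 2) ^ 2 := by
  classical
  have h3 : ((avR (fun Z : XX L G => ‖hh s f m Z‖ ^ 2 * ‖hh s f n Z‖ ^ 2) : ℝ) : ℂ) =
      (((∑ a ∈ s, f a ^ 2) ^ 2 : ℝ) : ℂ) := by
    rw [ofReal_avR]
    have h4 : (fun Z : XX L G => ((‖hh s f m Z‖ ^ 2 * ‖hh s f n Z‖ ^ 2 : ℝ) : ℂ)) =
        fun Z => hh s f m Z * conj (hh s f m Z) * conj (hh s f n Z) * hh s f n Z := by
      ext Z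
      rw [Complex.ofReal_mul, norm_sq_eq_mul_conj, norm_sq_eq_mul_conj]
      ring
    rw [h4, av_four hD s f m m n n]
    have h5 : ∀ a ∈ s, ∑ b ∈ s, ∑ c ∈ s, ∑ c' ∈ s, ((f a * f b * f c * f c' : ℝ) : ℂ) *
        (if ∀ l : Fin D, m l • a - m l • b - n l • c + n l • c' = 0
          then (1:ℂ) else 0) = ∑ c ∈ s, ((f a ^ 2 * f c ^ 2 : ℝ) : ℂ) := by
      intro a ha
      have hcond : ∀ b ∈ s, ∀ c ∈ s, ∀ c' ∈ s, (∀ l : Fin D,
          m l • a - m l • b - n l • c + n l • c' = 0) ↔ (b = a ∧ c' = c) := by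
        intro b hb c hc c' hc'
        constructor
        · intro h
          have h6 := sol_two h1 h2 hN hind hs ha hb hc hc' (by
            intro l
            have := h l
            rw [← this]
            module)
          exact ⟨h6.1.symm, h6.2⟩
        · rintro ⟨rfl, rfl⟩ l
          module
      rw [Finset.sum_eq_single a]
      · apply Finset.sum_congr rfl
        intro c hc
        rw [Finset.sum_eq_single c]
        · rw [if_pos ((hcond a ha c hc c hc).2 ⟨rfl, rfl⟩), mul_one]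
          congr 1
          ring
        · intro c' hc' hne
          rw [if_neg (fun h => hne ((hcond a ha c hc c' hc').1 h).2), mul_zero]
        · intro h; exact absurd hc h
      · intro b hb hne
        apply Finset.sum_eq_zero
        intro c hc
        apply Finset.sum_eq_zero
        intro c' hc'
        rw [if_neg (fun h => hne ((hcond b hb c hc c' hc').1 h).1), mul_zero]
      · intro h; exact absurd ha h
    rw [Finset.sum_congr rfl h5]
    push_cast
    rw [sq (∑ a ∈ s, (f a : ℂ) ^ 2), Finset.sum_mul_sum]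
  exact_mod_cast h3

/-- Fourth moment for independent triples. -/
theorem moment_four (hD : D ≤ L) (s : Finset G) (f : G → ℝ)
    (m n k : Fin D → ℤ) (B N : ℤ) (hs : Sep s N)
    (h1 : ∀ l, |(m + n) l| ≤ B) (h2 : ∀ l, |m l| ≤ B)
    (h4 : ∀ l, |k l| ≤ B) (hN : 12 * (B * (B * B)) < N) (hind : ¬ Dep3 m n k) :
    av (fun Z : XX L G => hh s f (m + n) Z * conj (hh s f m Z) * conj (hh s f (k + n) Z) *
      hh s f k Z) = ((∑ a ∈ s, f a ^ 4 : ℝ) : ℂ) := by
  classical
  rw [av_four hD s f (m + n) m (k + n) k]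
  have hn : ∀ l, |n l| ≤ 2 * B := by
    intro l
    have t1 := h1 l
    have t2 := h2 l
    simp only [Pi.add_apply] at t1
    rw [abs_le] at t1 t2 ⊢
    constructor <;> linarith
  have h5 : ∀ a ∈ s, ∑ b ∈ s, ∑ c ∈ s, ∑ c' ∈ s, ((f a * f b * f c * f c' : ℝ) : ℂ) *
      (if ∀ l : Fin D, (m + n) l • a - m l • b - (k + n) l • c +
        k l • c' = 0 then (1:ℂ) else 0) = ((f a ^ 4 : ℝ) : ℂ) := by
    intro a ha
    have hcond : ∀ b ∈ s, ∀ c ∈ s, ∀ c' ∈ s, (∀ l : Fin D,
        (m + n) l • a - m l • b - (k + n) l • c + k l • c' = 0) ↔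
        (b = a ∧ c = a ∧ c' = a) := by
      intro b hb c hc c' hc'
      constructor
      · intro h
        exact sol_three h2 hn h4 hN hind hs ha hb hc hc' (by
          intro l
          have := h l
          rw [← this]
          simp only [Pi.add_apply]
          module)
      · rintro ⟨rfl, rfl, rfl⟩ l
        simp only [Pi.add_apply]
        module
    rw [Finset.sum_eq_single a]
    · rw [Finset.sum_eq_single a]
      · rw [Finset.sum_eq_single a]
        · rw [if_pos ((hcond a ha a ha a ha).2 ⟨rfl, rfl, rfl⟩), mul_one]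
          congr 1
          ring
        · intro c' hc' hne
          rw [if_neg (fun h => hne ((hcond a ha a ha c' hc').1 h).2.2), mul_zero]
        · intro h; exact absurd ha h
      · intro c hc hne
        apply Finset.sum_eq_zero
        intro c' hc'
        rw [if_neg (fun h => hne ((hcond a ha c hc c' hc').1 h).2.1), mul_zero]
      · intro h; exact absurd ha h
    · intro b hb hne
      apply Finset.sum_eq_zero
      intro c hc
      apply Finset.sum_eq_zero
      intro c' hc'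
      rw [if_neg (fun h => hne ((hcond b hb c hc c' hc').1 h).1), mul_zero]
    · intro h; exact absurd ha h
  rw [Finset.sum_congr rfl h5]
  push_cast
  rfl

/-- Second moment of a nonzero frequency. -/
theorem moment_one (hD : D ≤ L) (s : Finset G) (f : G → ℝ)
    (m : Fin D → ℤ) (B N : ℤ) (hs : Sep s N)
    (h1 : ∀ l, |m l| ≤ B) (hN : B < N) (hm : m ≠ 0) :
    avR (fun Z : XX L G => ‖hh s f m Z‖ ^ 2) = ∑ a ∈ s, f a ^ 2 := by
  classical
  obtain ⟨l0, hl0⟩ : ∃ l, m l ≠ 0 := by
    by_contra hcon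
    push Not at hcon
    exact hm (funext hcon)
  have h3 : ((avR (fun Z : XX L G => ‖hh s f m Z‖ ^ 2) : ℝ) : ℂ) =
      ((∑ a ∈ s, f a ^ 2 : ℝ) : ℂ) := by
    rw [ofReal_avR]
    have h4 : (fun Z : XX L G => ((‖hh s f m Z‖ ^ 2 : ℝ) : ℂ)) =
        fun Z => ∑ a ∈ s, ∑ b ∈ s, ((f a * f b : ℝ) : ℂ) *
          ∏ l : Fin D, Z (Fin.castLE hD l) (m l • a - m l • b) := by
      ext Z
      rw [norm_sq_eq_mul_conj, conj_hh]
      unfold hh
      rw [Finset.sum_mul_sum]
      apply Finset.sum_congr rfl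
      intro a _
      apply Finset.sum_congr rfl
      intro b _
      rw [ch_eq hD, conj_ch hD]
      have e2 : ∏ l : Fin D, Z (Fin.castLE hD l) (m l • a - m l • b) =
          (∏ l : Fin D, Z (Fin.castLE hD l) (m l • a)) *
          (∏ l : Fin D, Z (Fin.castLE hD l) (-(m l • b))) := by
        rw [← Finset.prod_mul_distrib]
        apply Finset.prod_congr rfl
        intro l _
        rw [sub_eq_add_neg, AddChar.map_add_eq_mul]
      rw [e2]
      push_cast
      ring
    rw [h4, av_sum]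
    have h5 : ∀ a ∈ s, av (fun Z : XX L G => ∑ b ∈ s, ((f a * f b : ℝ) : ℂ) *
          ∏ l : Fin D, Z (Fin.castLE hD l) (m l • a - m l • b)) = ((f a ^ 2 : ℝ) : ℂ) := by
      intro a ha
      rw [av_sum, Finset.sum_eq_single a]
      · rw [av_mul_left, av_prod hD, if_pos (by intro l; rw [sub_self]), mul_one]
        congr 1
        ring
      · intro b hb hne
        rw [av_mul_left, av_prod hD, if_neg, mul_zero]
        intro h
        have h6 := h l0
        rw [← smul_sub] at h6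
        exact hne (hs a ha b hb _ hl0 (lt_of_le_of_lt (h1 l0) hN) h6).symm
      · intro h; exact absurd ha h
    rw [Finset.sum_congr rfl h5]
    push_cast
    rfl
  exact_mod_cast h3

end

end Pool.Agent.Helper18.BG
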