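import Pool.Agent.Helper18.BGUndec
import Pool.Agent.Helper18.BFSingle

open scoped Real
open Finset

namespace Pool.Agent.Helper18.BG

open Pool.Agent.Helper18.BF

lemma dep_le {x S : ℝ} {Jm : ℕ} (h : thr Jm * S ≤ x) : dep x S ≤ Jm := by
  classical
  unfold dep
  rw [dif_pos ⟨Jm, h⟩]
  exact Nat.find_min' _ h

lemma cube_mono {a b : ℤ} (ha : 0 ≤ a) (h : a ≤ b) : 12 * (a * (a * a)) ≤ 12 * (b * (b * b)) := by
  have h1 : a * a ≤ b * b := mul_le_mul h h ha (ha.trans h)
  have h2 : a * (a * a) ≤ b * (b * b) := mul_le_mul h h1 (mul_nonneg ha ha) (ha.trans h)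
  linarith

/-- The main estimate for one function. -/
theorem single_bound {G : Type*} [AddCommGroup G] [Fintype G] (s : Finset G) (f : G → ℝ)
    (μ Jm : ℕ) (hmin : ∀ a ∈ s, √(∑ a ∈ s, f a ^ 2) ≤ 2 ^ μ * |f a|) (hJm : μ ≤ (Jm + 1) ^ 2)
    (L : ℕ) (hL : Jm ≤ L) (B N : ℤ) (hB : ((2 ^ (4 * (kR Jm + μ)) : ℕ) : ℤ) ≤ B)
    (hs : Sep s N) (hN : 12 * (B * (B * B)) < N) :
      ∃ X : XX L G → ℝ, (∀ Z, 0 ≤ X Z) ∧
        (∀ Z (x : G), (∑ a ∈ s, f a * (2 * cc Jm K0 (1 / 2) (ua Z (x + a)) - 1)) ^ 2 ≤ X Z) ∧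
        avR X ≤ CC * ∑ a ∈ s, f a ^ 2 := by
  classical
  set S2 : ℝ := ∑ a ∈ s, f a ^ 2 with hS2
  have hS2n : 0 ≤ S2 := Finset.sum_nonneg (fun a _ => sq_nonneg _)
  rcases eq_or_lt_of_le hS2n with h0 | hpos
  · refine ⟨fun _ => 0, fun _ => le_rfl, ?_, ?_⟩
    · intro Z y
      have h1 : ∀ a ∈ s, f a = 0 := by
        intro a ha
        have h2 := (Finset.sum_eq_zero_iff_of_nonneg (fun a _ => sq_nonneg (f a))).1 h0.symm a ha
        exact pow_eq_zero_iff (two_ne_zero) |>.1 h2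
      rw [Finset.sum_eq_zero]
      · simp
      · intro a ha
        rw [h1 a ha, zero_mul]
    · rw [avR_const, ← h0, mul_zero]
  have hsq : 0 < √S2 := Real.sqrt_pos.2 hpos
  have hs'S : ∀ t ⊆ s, ∑ a ∈ t, f a ^ 2 ≤ S2 := by
    intro t ht
    apply Finset.sum_le_sum_of_subset_of_nonneg ht
    intro a _ _
    exact sq_nonneg _
  have hsub : ∀ t ⊆ s, Sep t N := fun t ht a ha b hb => hs a (ht ha) b (ht hb)
  set dp : G → ℕ := fun a => dep |f a| √S2 with hdp
  have hf0 : ∀ a ∈ s, 0 < |f a| := by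
    intro a ha
    have h1 := hmin a ha
    by_contra hcon
    have h2 : |f a| = 0 := le_antisymm (not_lt.1 hcon) (abs_nonneg _)
    rw [h2, mul_zero] at h1
    linarith
  have hdpJm : ∀ a ∈ s, dp a ≤ Jm := by
    intro a ha
    apply dep_le
    have h1 := hmin a ha
    have h2 : (2:ℝ) ^ μ ≤ 2 ^ ((Jm + 1) ^ 2) := pow_le_pow_right₀ (by norm_num) hJm
    unfold thr
    rw [div_mul_eq_mul_div, one_mul, div_le_iff₀ (by positivity)]
    have h3 := hf0 a ha
    nlinarith
  have hkR : ∀ J : Fin Jm, kR J ≤ kR Jm := by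
    intro J
    unfold kR
    have : (J : ℕ) ^ 2 ≤ Jm ^ 2 := Nat.pow_le_pow_left J.2.le 2
    have := J.2.le
    omega
  have hT : ∀ J : Fin Jm, ∃ X : XX L G → ℝ,
      (∀ Z, 0 ≤ X Z) ∧ (∀ Z (x : G), (∑ a ∈ s.filter (fun a => (J : ℕ) < dp a),
        f a * (2 * del J K0 (1 / 2) (ua Z (x + a)))) ^ 2 ≤ X Z) ∧
      avR X ≤ S2 * Gam J := by
    intro J
    refine level_bound J μ _ f S2 hpos (hs'S _ (Finset.filter_subset _ _)) ?_ ?_ L (by omega) N
      (hsub _ (Finset.filter_subset _ _)) ?_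
    · intro a ha
      rw [mem_filter] at ha
      exact (dep_min ha.2).le
    · intro a ha
      rw [mem_filter] at ha
      exact hmin a ha.1
    · refine lt_of_le_of_lt (cube_mono (Int.natCast_nonneg _) (le_trans ?_ hB)) hN
      have h1 := hkR J
      exact_mod_cast Nat.pow_le_pow_right (by norm_num) (by omega)
  have hU : ∀ J : Fin Jm, ∃ X : XX L G → ℝ,
      (∀ Z, 0 ≤ X Z) ∧ (∀ Z (x : G), (∑ a ∈ s.filter (fun a => dp a = J + 1),
        |f a| * NN (J + 1) K0 (1 / 2) (ua Z (x + a))) ^ 2 ≤ X Z) ∧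
      avR X ≤ S2 * GamU J := by
    intro J
    refine undec_bound J _ f S2 hpos (hs'S _ (Finset.filter_subset _ _)) ?_ ?_ L (by omega) B N
      ?_ (hsub _ (Finset.filter_subset _ _)) hN
    · intro a ha
      rw [mem_filter] at ha
      exact (dep_min (J := J) (by
        have h1 : dep |f a| √S2 = J + 1 := ha.2
        rw [h1]
        exact Nat.lt_succ_self _)).le
    · intro a ha
      rw [mem_filter] at ha
      have h1 := dep_spec (hf0 a ha.1) hsq.le
      have h2 : dep |f a| √S2 = J + 1 := ha.2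
      rw [h2] at h1
      exact h1
    · refine le_trans ?_ hB
      have h1 := hkR J
      exact_mod_cast Nat.pow_le_pow_right (by norm_num) (by omega)
  choose XT hXT0 hXT hXTa using hT
  choose XU hXU0 hXU hXUa using hU
  refine ⟨fun Z => 32 * S2 + 4 * ∑ J : Fin Jm, 2 ^ (J : ℕ) * (2 * XT J Z + 8 * XU J Z),
    ?_, ?_, ?_⟩
  · intro Z
    have : 0 ≤ ∑ J : Fin Jm, (2:ℝ) ^ (J : ℕ) * (2 * XT J Z + 8 * XU J Z) := by
      apply Finset.sum_nonneg
      intro J _
      have h1 := hXT0 J Z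
      have h2 := hXU0 J Z
      positivity
    positivity
  · intro Z x
    set T : Fin Jm → ℝ := fun J => ∑ a ∈ s.filter (fun a => (J : ℕ) < dp a),
        f a * (2 * del J K0 (1 / 2) (ua Z (x + a))) with hTdef
    set U : Fin Jm → ℝ := fun J => ∑ a ∈ s.filter (fun a => dp a = J + 1),
        |f a| * NN (J + 1) K0 (1 / 2) (ua Z (x + a)) with hUdef
    have hUn : ∀ J, 0 ≤ U J := by
      intro J
      exact Finset.sum_nonneg (fun a _ => mul_nonneg (abs_nonneg _) (NN_nonneg _ _ _ _))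
    have e2 : ∑ J, T J = ∑ a ∈ s, f a * ∑ J : Fin Jm, (if (J : ℕ) < dp a then
        2 * del J K0 (1 / 2) (ua Z (x + a)) else 0) := by
      rw [hTdef]
      simp only
      have h1 : ∀ J : Fin Jm, ∑ a ∈ s.filter (fun a => (J : ℕ) < dp a),
          f a * (2 * del J K0 (1 / 2) (ua Z (x + a))) =
          ∑ a ∈ s, f a * (if (J : ℕ) < dp a then
            2 * del J K0 (1 / 2) (ua Z (x + a)) else 0) := by
        intro J
        rw [Finset.sum_filter]
        apply Finset.sum_congr rfl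
        intro a _
        split_ifs <;> simp
      rw [Finset.sum_congr rfl (fun J _ => h1 J), Finset.sum_comm]
      apply Finset.sum_congr rfl
      intro a _
      rw [Finset.mul_sum]
    have e3 : |∑ a ∈ s, f a * (2 * cc Jm K0 (1 / 2) (ua Z (x + a)) - 1) - ∑ J, T J| ≤
        2 * ∑ a ∈ s, |f a| * NN (dp a) K0 (1 / 2) (ua Z (x + a)) := by
      rw [e2, ← Finset.sum_sub_distrib]
      refine (Finset.abs_sum_le_sum_abs _ _).trans ?_
      rw [Finset.mul_sum]
      apply Finset.sum_le_sum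
      intro a ha
      rw [← mul_sub, abs_mul]
      have h1 := two_cc_split (hdpJm a ha) (ua Z (x + a))
      have h2 := mul_le_mul_of_nonneg_left h1 (abs_nonneg (f a))
      linarith
    have e4 : ∑ a ∈ s, |f a| * NN (dp a) K0 (1 / 2) (ua Z (x + a)) =
        ∑ a ∈ s.filter (fun a => dp a = 0), |f a| + ∑ J, U J := by
      have h1 : ∑ J, U J = ∑ a ∈ s.filter (fun a => ¬ dp a = 0),
          |f a| * NN (dp a) K0 (1 / 2) (ua Z (x + a)) := by
        have h2 : ∀ J : Fin Jm, U J = ∑ a ∈ s, if dp a = J + 1 then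
            |f a| * NN (dp a) K0 (1 / 2) (ua Z (x + a)) else 0 := by
          intro J
          rw [hUdef]
          simp only
          rw [Finset.sum_filter]
          apply Finset.sum_congr rfl
          intro a _
          by_cases h : dp a = J + 1
          · rw [if_pos h, if_pos h, h]
          · rw [if_neg h, if_neg h]
        rw [Finset.sum_congr rfl (fun J _ => h2 J), Finset.sum_comm,
          Finset.sum_filter (s := s) (p := fun a => ¬ dp a = 0)]
        apply Finset.sum_congr rfl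
        intro a ha
        by_cases h : dp a = 0
        · rw [if_neg (by simp [h])]
          apply Finset.sum_eq_zero
          intro J _
          rw [if_neg (by omega)]
        · rw [if_pos h]
          have h3 := hdpJm a ha
          rw [Finset.sum_eq_single (⟨dp a - 1, by omega⟩ : Fin Jm)]
          · rw [if_pos (by simp only; omega)]
          · intro J _ hJ
            rw [if_neg]
            intro h4
            apply hJ
            ext
            simp only
            omega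
          · intro h4
            exact absurd (Finset.mem_univ _) h4
      rw [h1, ← Finset.sum_filter_add_sum_filter_not s (fun a => dp a = 0)]
      congr 1
      apply Finset.sum_congr rfl
      intro a ha
      rw [mem_filter] at ha
      rw [ha.2]
      simp [NN]
    have e5 : ∑ a ∈ s.filter (fun a => dp a = 0), |f a| ≤ 2 * √S2 := by
      have h1 : ∀ a ∈ s.filter (fun a => dp a = 0), |f a| ≤ 2 / √S2 * f a ^ 2 := by
        intro a ha
        rw [mem_filter] at ha
        have h2 := dep_spec (hf0 a ha.1) hsq.le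
        have h3 : dep |f a| √S2 = 0 := ha.2
        rw [h3] at h2
        unfold thr at h2
        norm_num at h2
        rw [div_mul_eq_mul_div, le_div_iff₀ hsq, ← sq_abs (f a)]
        have h4 := hf0 a ha.1
        nlinarith
      calc _ ≤ ∑ a ∈ s.filter (fun a => dp a = 0), 2 / √S2 * f a ^ 2 := Finset.sum_le_sum h1
        _ = 2 / √S2 * ∑ a ∈ s.filter (fun a => dp a = 0), f a ^ 2 := by rw [Finset.mul_sum]
        _ ≤ 2 / √S2 * S2 := by
            have := hs'S _ (Finset.filter_subset (fun a => dp a = 0) s)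
            gcongr
        _ = 2 * √S2 := by
            rw [div_mul_eq_mul_div, mul_div_assoc, Real.div_sqrt]
    set W : ℝ := ∑ a ∈ s, f a * (2 * cc Jm K0 (1 / 2) (ua Z (x + a)) - 1) with hW
    have e6 : |W| ≤ 4 * √S2 + ∑ J, (|T J| + 2 * U J) := by
      have h1 : |W| ≤ |∑ J, T J| + |W - ∑ J, T J| := by
        have := abs_add_le (∑ J, T J) (W - ∑ J, T J)
        simpa using this
      have h2 := Finset.abs_sum_le_sum_abs T Finset.univ
      rw [e4] at e3
      rw [Finset.sum_add_distrib, ← Finset.mul_sum]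
      linarith
    have e7 : (∑ J, (|T J| + 2 * U J)) ^ 2 ≤ 2 * ∑ J : Fin Jm, 2 ^ (J : ℕ) *
        (|T J| + 2 * U J) ^ 2 := by
      have h1 := Finset.sum_sq_le_sum_mul_sum_of_sq_le_mul Finset.univ
        (r := fun J => |T J| + 2 * U J) (f := fun J : Fin Jm => ((1:ℝ) / 2) ^ (J : ℕ))
        (g := fun J : Fin Jm => 2 ^ (J : ℕ) * (|T J| + 2 * U J) ^ 2)
        (fun J _ => by positivity) (fun J _ => by positivity) (fun J _ => by
          rw [← mul_assoc, ← mul_pow]
          norm_num)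
      refine h1.trans ?_
      apply mul_le_mul_of_nonneg_right (sum_half_le Jm)
      apply Finset.sum_nonneg
      intro J _
      positivity
    have e8 : ∑ J : Fin Jm, (2:ℝ) ^ (J : ℕ) * (|T J| + 2 * U J) ^ 2 ≤
        ∑ J : Fin Jm, (2:ℝ) ^ (J : ℕ) * (2 * XT J Z + 8 * XU J Z) := by
      apply Finset.sum_le_sum
      intro J _
      apply mul_le_mul_of_nonneg_left _ (by positivity)
      have h1 := hXT J Z x
      have h2 := hXU J Z x
      have h3 : T J ^ 2 ≤ XT J Z := h1
      have h4 : U J ^ 2 ≤ XU J Z := h2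
      rw [← sq_abs (T J)] at h3
      nlinarith [sq_nonneg (|T J| - 2 * U J)]
    have e9 : W ^ 2 ≤ (4 * √S2 + ∑ J, (|T J| + 2 * U J)) ^ 2 := by
      rw [← sq_abs]
      exact pow_le_pow_left₀ (abs_nonneg _) e6 2
    have e10 : (4 * √S2) ^ 2 = 16 * S2 := by
      rw [mul_pow, Real.sq_sqrt hpos.le]
      norm_num
    have e11 : ∀ a b : ℝ, (a + b) ^ 2 ≤ 2 * a ^ 2 + 2 * b ^ 2 := by
      intro a b
      nlinarith [sq_nonneg (a - b)]
    have e12 := e11 (4 * √S2) (∑ J, (|T J| + 2 * U J))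
    rw [e10] at e12
    linarith
  · rw [avR_add, avR_const, avR_mul_left, avR_sum]
    have h1 : ∀ J : Fin Jm, avR (fun Z => 2 ^ (J : ℕ) * (2 * XT J Z + 8 * XU J Z)) ≤
        10 * (S2 * ((2 ^ 864 + 6) * (1 / 2) ^ (J : ℕ))) := by
      intro J
      rw [avR_mul_left, avR_add, avR_mul_left, avR_mul_left]
      have h2 := hXTa J
      have h3 := hXUa J
      have h4 := Gam_le J
      have h5 := GamU_le J
      have h6 : (0:ℝ) < 2 ^ (J : ℕ) := by positivity
      have h7 : (2:ℝ) ^ (J : ℕ) * avR (XT J) ≤ S2 * ((2 ^ 864 + 6) * (1 / 2) ^ (J : ℕ)) := by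
        calc _ ≤ (2:ℝ) ^ (J : ℕ) * (S2 * Gam J) := mul_le_mul_of_nonneg_left h2 h6.le
          _ = S2 * (2 ^ (J : ℕ) * Gam J) := by ring
          _ ≤ _ := mul_le_mul_of_nonneg_left h4 hpos.le
      have h8 : (2:ℝ) ^ (J : ℕ) * avR (XU J) ≤ S2 * ((2 ^ 864 + 6) * (1 / 2) ^ (J : ℕ)) := by
        calc _ ≤ (2:ℝ) ^ (J : ℕ) * (S2 * GamU J) := mul_le_mul_of_nonneg_left h3 h6.le
          _ = S2 * (2 ^ (J : ℕ) * GamU J) := by ring
          _ ≤ _ := mul_le_mul_of_nonneg_left h5 hpos.le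
      calc _ = 2 * ((2:ℝ) ^ (J : ℕ) * avR (XT J)) + 8 * ((2:ℝ) ^ (J : ℕ) * avR (XU J)) := by ring
        _ ≤ 2 * (S2 * ((2 ^ 864 + 6) * (1 / 2) ^ (J : ℕ))) +
            8 * (S2 * ((2 ^ 864 + 6) * (1 / 2) ^ (J : ℕ))) :=
            add_le_add (mul_le_mul_of_nonneg_left h7 (by norm_num))
              (mul_le_mul_of_nonneg_left h8 (by norm_num))
        _ = _ := by ring
    have h2 := Finset.sum_le_sum (fun J (_ : J ∈ (Finset.univ : Finset (Fin Jm))) => h1 J)
    have h3 : ∑ J : Fin Jm, 10 * (S2 * ((2 ^ 864 + 6) * ((1:ℝ) / 2) ^ (J : ℕ))) ≤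
        20 * (S2 * (2 ^ 864 + 6)) := by
      have h4 : ∑ J : Fin Jm, 10 * (S2 * ((2 ^ 864 + 6) * ((1:ℝ) / 2) ^ (J : ℕ))) =
          (10 * (S2 * (2 ^ 864 + 6))) * ∑ J : Fin Jm, ((1:ℝ) / 2) ^ (J : ℕ) := by
        rw [Finset.mul_sum]
        apply Finset.sum_congr rfl
        intro J _
        ring
      rw [h4]
      calc _ ≤ (10 * (S2 * (2 ^ 864 + 6))) * 2 :=
            mul_le_mul_of_nonneg_left (sum_half_le Jm) (by positivity)
        _ = _ := by ring
    have h5 := h2.trans h3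
    unfold CC
    calc _ ≤ 32 * S2 + 4 * (20 * (S2 * (2 ^ 864 + 6))) :=
          add_le_add le_rfl (mul_le_mul_of_nonneg_left h5 (by norm_num))
      _ = _ := by ring

end Pool.Agent.Helper18.BG
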