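import Pool.Agent.Helper18.BGLevel

open scoped Real
open Finset

namespace Pool.Agent.Helper18.BG

open Pool.Agent.Helper18.BF

/-- Bound of the frequencies through the skew coordinates. -/
lemma Lsk_inv_bound (D : ℕ) : ∀ (K : ℕ → ℕ), (∀ i, 0 < K i) → ∀ (ε : Fin (D + 1) → Bool)
    (m : Fin (D + 1) → ℤ), (∀ l : Fin (D + 1), |Lsk D K ε m l| ≤ (K l : ℤ)) →
    ∀ l, |m l| ≤ ((∏ i ∈ range (D + 1), (2 * K i) : ℕ) : ℤ) := by
  induction D with
  | zero =>
    intro K hK ε m hm l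
    have h := hm l
    have hl : l = 0 := Fin.ext (by omega)
    subst hl
    simp only [Lsk] at h
    rw [Finset.prod_range_one]
    push_cast
    have h1 : (0:ℤ) ≤ K 0 := Int.natCast_nonneg _
    have h2 : ((0 : Fin (0 + 1)) : ℕ) = 0 := rfl
    rw [h2] at h
    linarith
  | succ D ih =>
    intro K hK ε m hm l
    have h1 : ∀ l, |Fin.tail m l| ≤ ((∏ i ∈ range (D + 1), (2 * K (i + 1)) : ℕ) : ℤ) := by
      apply ih (fun i => K (i + 1)) (fun i => hK _) (Fin.tail ε) (Fin.tail m)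
      intro l'
      have h2 := congrFun (Lsk_tail D K ε m) l'
      have h3 := hm (Fin.succ l')
      have h4 : Lsk (D + 1) K ε m (Fin.succ l') =
          Lsk D (fun i => K (i + 1)) (Fin.tail ε) (Fin.tail m) l' := h2
      rw [h4] at h3
      exact h3
    have hP : 0 < ∏ i ∈ range (D + 1), (2 * K (i + 1)) :=
      Finset.prod_pos (fun i _ => by have := hK (i + 1); omega)
    have hP' : (1:ℤ) ≤ ((∏ i ∈ range (D + 1), (2 * K (i + 1)) : ℕ) : ℤ) := by exact_mod_cast hP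
    have hK0 : (1:ℤ) ≤ K 0 := by exact_mod_cast hK 0
    rw [Finset.prod_range_succ' (fun i => 2 * K i) (D + 1)]
    set P : ℤ := ((∏ i ∈ range (D + 1), (2 * K (i + 1)) : ℕ) : ℤ) with hPdef
    have hgoal : ((((∏ i ∈ range (D + 1), (2 * K (i + 1))) * (2 * K 0)) : ℕ) : ℤ) =
        P * (2 * K 0) := by
      rw [hPdef]
      push_cast
      ring
    rw [hgoal]
    refine Fin.cases ?_ (fun l' => ?_) l
    · have h5 := hm 0
      rw [Lsk_zero_succ] at h5
      have h6 := h1 0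
      have h7 : |(if Fin.tail ε 0 then (K 0 : ℤ) * Fin.tail m 0 else 0)| ≤ K 0 * P := by
        split_ifs
        · rw [abs_mul, abs_of_nonneg (by linarith : (0:ℤ) ≤ (K 0 : ℤ))]
          exact mul_le_mul_of_nonneg_left h6 (by linarith)
        · rw [abs_zero]
          positivity
      have h8 : |m 0| ≤ |m 0 + (if Fin.tail ε 0 then (K 0 : ℤ) * Fin.tail m 0 else 0)| +
          |(if Fin.tail ε 0 then (K 0 : ℤ) * Fin.tail m 0 else 0)| := by
        have := abs_sub (m 0 + (if Fin.tail ε 0 then (K 0 : ℤ) * Fin.tail m 0 else 0))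
          (if Fin.tail ε 0 then (K 0 : ℤ) * Fin.tail m 0 else 0)
        simpa using this
      have h9 : (((0 : Fin (D + 1 + 1)) : ℕ)) = 0 := rfl
      rw [h9] at h5
      nlinarith
    · have h5 : |m (Fin.succ l')| ≤ P := h1 l'
      nlinarith

lemma prod_two_K0 (D : ℕ) : ∏ i ∈ range (D + 1), (2 * K0 i) ≤ 2 ^ (4 * kR D) := by
  have h1 : ∏ i ∈ range (D + 1), (2 * K0 i) = 2 ^ (2 * D ^ 2 + 7 * D + 5) := by
    induction D with
    | zero => simp [K0]
    | succ D ih =>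
      rw [Finset.prod_range_succ, ih]
      unfold K0
      rw [show (16:ℕ) = 2 ^ 4 by norm_num, ← pow_mul, ← pow_succ', ← pow_add]
      congr 1
      ring
  rw [h1]
  apply Nat.pow_le_pow_right (by norm_num)
  unfold kR
  nlinarith

open Classical in
/-- One branch of the undecided count. -/
theorem branch_bound {G : Type*} [AddCommGroup G] [Fintype G] {L D : ℕ} (hL : D + 1 ≤ L)
    (s : Finset G) (f : G → ℝ) (hf0 : ∀ a, 0 ≤ f a) (S2 : ℝ)
    (hS2 : 0 < S2) (hS : ∑ a ∈ s, f a ^ 2 ≤ S2) (hf1 : ∀ a ∈ s, |f a| ≤ thr D * √S2)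
    (hf2 : ∀ a ∈ s, thr (D + 1) * √S2 ≤ f a) (ε : Fin (D + 1) → Bool)
    (Λ : Finset (Fin (D + 1) → ℤ)) (hΛ : ∀ m, m ∈ Λ ↔ m ≠ 0 ∧
      ∀ l : Fin (D + 1), |Lsk D K0 ε m l| ≤ ((K0 l / 2 : ℕ) : ℤ))
    (B N : ℤ) (hB1 : 1 ≤ B) (hs : Sep s N) (hB : ∀ m ∈ Λ, ∀ l, |m l| ≤ B)
    (hN : 12 * (B * (B * B)) < N) :
    ∃ X : XX L G → ℝ, (∀ Z, 0 ≤ X Z) ∧
      (∀ Z (x : G), (∑ a ∈ s, f a * GG D K0 ε (1 / 2) (ua Z (x + a))) ^ 2 ≤ X Z) ∧
      avR X ≤ S2 * (32 * (1 / 4) ^ (D ^ 2) + 2 * ((8 ^ (D + 1)) ^ 2 *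
        (2 ^ (D + 2) * (gam D + thr D)))) := by
  set c : (Fin (D + 1) → ℤ) → ℂ := fun m =>
    bb D K0 ε m * e (-(if ε 0 then m 0 * (1 / 2 : ℝ) else 0)) with hc
  have hcn : ∀ m, ‖c m‖ = ‖bb D K0 ε m‖ := by
    intro m
    rw [hc]
    simp only [norm_mul, norm_e, mul_one]
  refine ⟨fun Z => 32 * (1 / 4) ^ (D ^ 2) * S2 + 2 * XL s f Λ c Z, ?_, ?_, ?_⟩
  · intro Z
    have := XL_nonneg s f Λ c Z
    positivity
  · intro Z x
    set T : ℝ := ∑ a ∈ s, f a * GG D K0 ε (1 / 2) (ua Z (x + a)) with hT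
    set y : ℕ → ℝ := ua Z x with hy
    have hsum : HasSum (fun m => c m * hh s f m Z * e (dotu m y)) ((T : ℝ) : ℂ) := by
      have h1 : HasSum (fun m : Fin (D + 1) → ℤ => ∑ a ∈ s, (f a : ℂ) *
          (bb D K0 ε m * e (-(if ε 0 then m 0 * (1 / 2 : ℝ) else 0)) *
            e (dotu m (ua Z (x + a)))))
          (∑ a ∈ s, (f a : ℂ) * ((GG D K0 ε (1 / 2) (ua Z (x + a)) : ℝ) : ℂ)) := by
        apply hasSum_sum
        intro a _
        exact (hasSum_GG D K0 ε (1 / 2) (ua Z (x + a))).mul_left _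
      have h2 : (fun m : Fin (D + 1) → ℤ => c m * hh s f m Z * e (dotu m y)) =
          (fun m : Fin (D + 1) → ℤ => ∑ a ∈ s, (f a : ℂ) *
          (bb D K0 ε m * e (-(if ε 0 then m 0 * (1 / 2 : ℝ) else 0)) *
            e (dotu m (ua Z (x + a))))) := by
        ext m
        rw [hc]
        unfold hh
        simp only
        rw [Finset.mul_sum, Finset.sum_mul]
        apply Finset.sum_congr rfl
        intro a _
        rw [ch_add hL, hy]
        ring
      rw [h2, hT]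
      push_cast
      exact h1
    have h0Λ : (0 : Fin (D + 1) → ℤ) ∉ Λ := fun h => ((hΛ 0).1 h).1 rfl
    have hfin : ((T:ℝ):ℂ) = ∑ m ∈ insert 0 Λ, c m * hh s f m Z * e (dotu m y) := by
      refine hsum.unique (hasSum_sum_of_ne_finset_zero ?_)
      intro m hm
      rw [mem_insert, not_or] at hm
      have h1 : ∃ l : Fin (D + 1), ((K0 l / 2 : ℕ) : ℤ) < |Lsk D K0 ε m l| := by
        by_contra hcon
        push Not at hcon
        exact hm.2 ((hΛ m).2 ⟨hm.1, hcon⟩)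
      obtain ⟨l, hl⟩ := h1
      rw [hc]
      simp only
      rw [bb_eq_zero D ε m l hl.le]
      simp
    rw [Finset.sum_insert h0Λ] at hfin
    have hS1 : ∑ a ∈ s, f a ≤ 2 ^ ((D + 2) ^ 2) * √S2 := by
      have hsq := Real.sqrt_pos.2 hS2
      have h1 : ∀ a ∈ s, f a ≤ 2 ^ ((D + 2) ^ 2) / √S2 * f a ^ 2 := by
        intro a ha
        have h2 := hf2 a ha
        unfold thr at h2
        have h3 : √S2 ≤ 2 ^ ((D + 2) ^ 2) * f a := by
          have h4 : (0:ℝ) < 2 ^ ((D + 2) ^ 2) := by positivity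
          have h5 : (1:ℝ) / 2 ^ ((D + 1 + 1) ^ 2) * √S2 = √S2 / 2 ^ ((D + 2) ^ 2) := by ring
          rw [h5, div_le_iff₀ h4] at h2
          linarith
        rw [div_mul_eq_mul_div, le_div_iff₀ hsq]
        have h6 := hf0 a
        nlinarith
      calc ∑ a ∈ s, f a ≤ ∑ a ∈ s, 2 ^ ((D + 2) ^ 2) / √S2 * f a ^ 2 := Finset.sum_le_sum h1
        _ = 2 ^ ((D + 2) ^ 2) / √S2 * ∑ a ∈ s, f a ^ 2 := by rw [Finset.mul_sum]
        _ ≤ 2 ^ ((D + 2) ^ 2) / √S2 * S2 := by gcongr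
        _ = 2 ^ ((D + 2) ^ 2) * √S2 := by
            rw [div_mul_eq_mul_div, mul_div_assoc]
            congr 1
            exact Real.div_sqrt
    have hz : ‖c 0 * hh s f (0 : Fin (D + 1) → ℤ) Z * e (dotu (0 : Fin (D + 1) → ℤ) y)‖ ≤ 4 * (1 / 2) ^ (D ^ 2) * √S2 := by
      rw [norm_mul, norm_mul, norm_e, mul_one, hcn]
      have h1 := norm_bb_le' D ε 0
      rw [prod_K0] at h1
      have h2 := norm_hh_le s f (0 : Fin (D + 1) → ℤ) Z
      have h3 : ∑ a ∈ s, |f a| = ∑ a ∈ s, f a :=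
        Finset.sum_congr rfl (fun a _ => abs_of_nonneg (hf0 a))
      rw [h3] at h2
      calc _ ≤ (2 ^ (2 * D + 2) / 2 ^ (2 * (D + 1) * (D + 2))) * (2 ^ ((D + 2) ^ 2) * √S2) :=
            mul_le_mul h1 (h2.trans hS1) (norm_nonneg _) (by positivity)
        _ = 4 * (1 / 2) ^ (D ^ 2) * √S2 := by
            have h5 : (2:ℝ) ^ (2 * D + 2) * 2 ^ ((D + 2) ^ 2) * 2 ^ (D ^ 2) =
                4 * 2 ^ (2 * (D + 1) * (D + 2)) := by
              rw [show (4:ℝ) = 2 ^ 2 by norm_num, ← pow_add, ← pow_add, ← pow_add]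
              congr 1
              ring
            rw [one_div, inv_pow]
            field_simp
            linarith
    have h1 : |T| ≤ 4 * (1 / 2) ^ (D ^ 2) * √S2 +
        ‖∑ m ∈ Λ, c m * hh s f m Z * e (dotu m y)‖ := by
      have e1 : |T| = ‖((T:ℝ):ℂ)‖ := by rw [Complex.norm_real, Real.norm_eq_abs]
      rw [e1, hfin]
      refine (norm_add_le _ _).trans ?_
      linarith
    have h2 := sup_le_XL s f Λ c Z y
    have h3 : T ^ 2 ≤ (4 * (1 / 2) ^ (D ^ 2) * √S2 +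
        ‖∑ m ∈ Λ, c m * hh s f m Z * e (dotu m y)‖) ^ 2 := by
      rw [← sq_abs]
      exact pow_le_pow_left₀ (abs_nonneg _) h1 2
    have h4 : (4 * (1 / 2) ^ (D ^ 2) * √S2) ^ 2 = 16 * (1 / 4) ^ (D ^ 2) * S2 := by
      rw [mul_pow, Real.sq_sqrt hS2.le, mul_pow, ← pow_mul, mul_comm (D ^ 2) 2, pow_mul]
      norm_num
    have h5 : ∀ a b : ℝ, (a + b) ^ 2 ≤ 2 * a ^ 2 + 2 * b ^ 2 := by
      intro a b
      nlinarith [sq_nonneg (a - b)]
    have h6 := h5 (4 * (1 / 2) ^ (D ^ 2) * √S2) ‖∑ m ∈ Λ, c m * hh s f m Z * e (dotu m y)‖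
    rw [h4] at h6
    linarith
  · rw [avR_add, avR_const, avR_mul_left]
    have h1 := flat_bound hL s f (LskL D K0 ε) (LskL_injective D K0 ε) Λ
      (fun l : Fin (D + 1) => K0 l / 2) (by
        intro l
        have h2 := K0_even l
        have h3 : ww D l ≤ K0 l := by
          unfold ww K0
          split_ifs
          · exact le_rfl
          · exact Nat.one_le_pow _ _ (by norm_num)
        show ww D l ≤ 2 * (K0 l / 2) + 1
        omega)
      (fun m hm l => ((hΛ m).1 hm).2 l) (fun h => ((hΛ 0).1 h).1 rfl) c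
      (∏ l : Fin (D + 1), (4 / (K0 l : ℝ))) (8 ^ (D + 1))
      (Finset.prod_nonneg (fun l _ => by positivity))
      (fun m _ => by rw [hcn]; exact norm_bb_le' D ε m)
      (by
        push_cast
        rw [← Finset.prod_mul_distrib]
        calc ∏ l : Fin (D + 1), ((4 / (K0 l : ℝ)) * (2 * ((K0 l / 2 : ℕ) : ℝ) + 1)) ≤
            ∏ _l : Fin (D + 1), (8:ℝ) := by
              apply Finset.prod_le_prod
              · intro l _
                positivity
              · intro l _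
                have h2 : (2 * ((K0 l / 2 : ℕ) : ℝ)) = K0 l := by exact_mod_cast K0_even l
                have h3 : (1:ℝ) ≤ K0 l := by exact_mod_cast K0_pos l
                rw [h2, div_mul_eq_mul_div, div_le_iff₀ (by linarith)]
                linarith
          _ = 8 ^ (D + 1) := by
              rw [Finset.prod_const, Finset.card_univ, Fintype.card_fin])
      B N hB1 hs hB hN S2 (thr D) (thr_pos D).le hS
      (four_le s f hS2.le (thr_pos D).le hS hf1)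
    linarith


/-- The undecided part of one depth. -/
theorem undec_bound {G : Type*} [AddCommGroup G] [Fintype G] (D : ℕ) (s : Finset G) (f : G → ℝ)
    (S2 : ℝ) (hS2 : 0 < S2) (hS : ∑ a ∈ s, f a ^ 2 ≤ S2) (hf1 : ∀ a ∈ s, |f a| ≤ thr D * √S2)
    (hf2 : ∀ a ∈ s, thr (D + 1) * √S2 ≤ |f a|) (L : ℕ) (hL : D + 1 ≤ L) (B N : ℤ)
    (hB : ((2 ^ (4 * kR D) : ℕ) : ℤ) ≤ B) (hs : Sep s N) (hN : 12 * (B * (B * B)) < N) :
    ∃ X : XX L G → ℝ, (∀ Z, 0 ≤ X Z) ∧
      (∀ Z (x : G), (∑ a ∈ s, |f a| * NN (D + 1) K0 (1 / 2) (ua Z (x + a))) ^ 2 ≤ X Z) ∧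
      avR X ≤ S2 * GamU D := by
  classical
  have h1 : ∀ ε : Fin (D + 1) → Bool, ∃ X : XX L G → ℝ, (∀ Z, 0 ≤ X Z) ∧
      (∀ Z (x : G), (∑ a ∈ s, |f a| * GG D K0 ε (1 / 2) (ua Z (x + a))) ^ 2 ≤
        X Z) ∧ avR X ≤ S2 * (32 * (1 / 4) ^ (D ^ 2) + 2 * ((8 ^ (D + 1)) ^ 2 *
        (2 ^ (D + 2) * (gam D + thr D)))) := by
    intro ε
    refine branch_bound hL s (fun a => |f a|) (fun a => abs_nonneg _) S2 hS2 ?_ ?_ hf2 ε
      (LamU D ε) (mem_LamU D ε) B N ?_ hs ?_ hN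
    · simp only [sq_abs]
      exact hS
    · intro a ha
      rw [abs_abs]
      exact hf1 a ha
    · refine le_trans ?_ hB
      exact_mod_cast Nat.one_le_two_pow
    · intro m hm l
      have h2 := ((mem_LamU D ε m).1 hm).2
      have h3 := Lsk_inv_bound D K0 K0_pos ε m (fun l => (h2 l).trans (by
        exact_mod_cast Nat.div_le_self _ _)) l
      refine h3.trans (le_trans ?_ hB)
      exact_mod_cast prod_two_K0 D
  choose X hX0 hX hXa using h1
  refine ⟨fun Z => 2 ^ (D + 1) * ∑ ε, X ε Z, ?_, ?_, ?_⟩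
  · intro Z
    exact mul_nonneg (by positivity) (Finset.sum_nonneg (fun ε _ => hX0 ε Z))
  · intro Z x
    have h2 : ∑ a ∈ s, |f a| * NN (D + 1) K0 (1 / 2) (ua Z (x + a)) ≤
        ∑ ε, ∑ a ∈ s, |f a| * GG D K0 ε (1 / 2) (ua Z (x + a)) := by
      rw [Finset.sum_comm]
      apply Finset.sum_le_sum
      intro a _
      rw [← Finset.mul_sum]
      exact mul_le_mul_of_nonneg_left (NN_le D K0 K0_pos K0_even _ _) (abs_nonneg _)
    have h3 : 0 ≤ ∑ a ∈ s, |f a| * NN (D + 1) K0 (1 / 2) (ua Z (x + a)) :=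
      Finset.sum_nonneg (fun a _ => mul_nonneg (abs_nonneg _) (NN_nonneg _ _ _ _))
    refine (pow_le_pow_left₀ h3 h2 2).trans ?_
    refine (sq_sum_le_card_mul_sum_sq).trans ?_
    have h4 : ((#(Finset.univ : Finset (Fin (D + 1) → Bool)) : ℕ) : ℝ) = 2 ^ (D + 1) := by
      rw [Finset.card_univ]
      simp
    rw [h4]
    exact mul_le_mul_of_nonneg_left (Finset.sum_le_sum (fun ε _ => hX ε Z x)) (by positivity)
  · rw [avR_mul_left, avR_sum]
    have h2 : ∑ ε, avR (X ε) ≤ ∑ _ε : Fin (D + 1) → Bool, S2 * (32 * (1 / 4) ^ (D ^ 2) +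
        2 * ((8 ^ (D + 1)) ^ 2 * (2 ^ (D + 2) * (gam D + thr D)))) :=
      Finset.sum_le_sum (fun ε _ => hXa ε)
    rw [Finset.sum_const, Finset.card_univ, nsmul_eq_mul] at h2
    have h3 : ((Fintype.card (Fin (D + 1) → Bool) : ℕ) : ℝ) = 2 ^ (D + 1) := by simp
    rw [h3] at h2
    unfold GamU
    have h4 : (4:ℝ) ^ (D + 1) = 2 ^ (D + 1) * 2 ^ (D + 1) := by
      rw [← mul_pow]
      norm_num
    rw [h4]
    have h5 : (0:ℝ) < 2 ^ (D + 1) := by positivity
    have h6 := mul_le_mul_of_nonneg_left h2 h5.le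
    linarith

end Pool.Agent.Helper18.BG
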