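import Pool.Agent.Helper18.DiagPoly

namespace Pool.Agent.Helper18.Diag

open Classical

variable {ι : Type} {P : ι → ℝ × ℝ} {T : ι → ι → Prop}

lemma Pl.right_nbr [Fintype ι] (h : Pl P T) (hX : ∀ i j, (P i).1 = (P j).1 → i = j) {u : ι}
    (hr : ∃ k, (P u).1 < (P k).1) : ∃ x, T u x ∧ (P u).1 < (P x).1 := by
  by_cases hup : Up P u
  · obtain ⟨c, c1, c2, -⟩ := h.upH hX hup hr
    exact ⟨c, c2, c1⟩
  · obtain ⟨x, y, -, y1, -, y2, -⟩ := h.top hX (h.above hX hup hr)
    exact ⟨y, y1, y2⟩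

lemma Pl.base [Fintype ι] (h : Pl P T) (hX : ∀ i j, (P i).1 = (P j).1 → i = j) {u : ι}
    (hr : ∃ k, (P u).1 < (P k).1) :
    ∃ m, T u m ∧ (P u).1 < (P m).1 ∧
      ∀ x, T u x → (P u).1 < (P x).1 → 0 ≤ cr (P u) (P m) (P x) := by
  obtain ⟨x0, hx0, hx0'⟩ := h.right_nbr hX hr
  set S : Finset ι := Finset.univ.filter (fun k => T u k ∧ (P u).1 < (P k).1) with hS
  have hSne : S.Nonempty := ⟨x0, by simp [hS, hx0, hx0']⟩
  obtain ⟨m, hmS, hmin⟩ := S.exists_min_image
    (fun k => ((P k).2 - (P u).2) / ((P k).1 - (P u).1)) hSne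
  simp only [hS, Finset.mem_filter, Finset.mem_univ, true_and] at hmS hmin
  refine ⟨m, hmS.1, hmS.2, ?_⟩
  intro x hx hx'
  have := hmin x ⟨hx, hx'⟩
  rw [div_le_div_iff₀ (by linarith [hmS.2]) (by linarith)] at this
  unfold cr; linarith

lemma Pl.top_tri [Fintype ι] (h : Pl P T) (hX : ∀ i j, (P i).1 = (P j).1 → i = j) {v : ι}
    (hup : ¬ Up P v) (hr : ∃ k, (P v).1 < (P k).1) :
    ∃ x y, (P x).1 < (P v).1 ∧ (P v).1 < (P y).1 ∧ Tri P T v y x := by
  obtain ⟨x0, y0, x1, y1, x2, y2, hc⟩ := h.top hX (h.above hX hup hr)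
  set S : Finset ι := Finset.univ.filter (fun k => T v k ∧ (P v).1 < (P k).1) with hS
  have hSne : S.Nonempty := ⟨y0, by simp [hS, y1, y2]⟩
  obtain ⟨m, hmS, hmax⟩ := S.exists_max_image
    (fun k => ((P k).2 - (P v).2) / ((P k).1 - (P v).1)) hSne
  simp only [hS, Finset.mem_filter, Finset.mem_univ, true_and] at hmS hmax
  have hle : ∀ k, T v k → (P v).1 < (P k).1 → cr (P v) (P m) (P k) ≤ 0 := by
    intro k hk hk'
    have := hmax k ⟨hk, hk'⟩
    rw [div_le_div_iff₀ (by linarith) (by linarith [hmS.2])] at this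
    unfold cr; linarith
  have hx0 : 0 < cr (P v) (P m) (P x0) := by
    have h1 := hle y0 y1 y2
    unfold cr at h1 hc ⊢
    set a1 := (P m).1 - (P v).1 with ha1
    set b1 := (P y0).1 - (P v).1 with hb1
    set c1 := (P v).1 - (P x0).1 with hc1
    have e : (P x0).1 - (P v).1 = - c1 := by rw [hc1]; ring
    rw [e] at hc ⊢
    have a1p : 0 < a1 := by linarith [hmS.2]
    have b1p : 0 < b1 := by linarith
    have c1p : 0 < c1 := by linarith
    have m1 := mul_pos a1p hc
    have m2 := mul_nonneg c1p.le (neg_nonneg.2 h1)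
    by_contra hcon
    push Not at hcon
    have m3 := mul_nonneg b1p.le (neg_nonneg.2 hcon)
    nlinarith
  obtain ⟨c, hc'⟩ := h.edge_tri hX hmS.1 ⟨x0, hx0⟩
  refine ⟨c, m, ?_, hmS.2, hc'⟩
  rcases lt_trichotomy (P v).1 (P c).1 with hlt | heq | hgt
  · have := hle c (h.symm _ _ hc'.ca) hlt
    linarith [hc'.pos]
  · exact absurd (hX _ _ heq) (h.ne _ _ hc'.ca).symm
  · exact hgt

/-- `v` is on the lower hull -/
def Dn (P : ι → ℝ × ℝ) (v : ι) : Prop :=
  ∃ s : ℝ, ∀ k, (P v).2 + s * ((P k).1 - (P v).1) ≤ (P k).2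

lemma Pl.bot_tri [Fintype ι] (h : Pl P T) (hX : ∀ i j, (P i).1 = (P j).1 → i = j) {v : ι}
    (hdn : ¬ Dn P v) (hr : ∃ k, (P v).1 < (P k).1) :
    ∃ x y, (P x).1 < (P v).1 ∧ (P v).1 < (P y).1 ∧ Tri P T v x y := by
  have hD : (1 : ℝ) * (-1) - 0 * 0 ≠ 0 := by norm_num
  have A1 : ∀ z, (aff 1 0 0 0 (-1) 0 z).1 = z.1 := by intro z; simp [aff]
  have A2 : ∀ z, (aff 1 0 0 0 (-1) 0 z).2 = -z.2 := by intro z; simp [aff]
  have Ac : ∀ x y z, cr (aff 1 0 0 0 (-1) 0 x) (aff 1 0 0 0 (-1) 0 y) (aff 1 0 0 0 (-1) 0 z) =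
      - cr x y z := by intro x y z; rw [cr_aff]; ring
  obtain ⟨x, y, hx, hy, ht⟩ := (h.map (e := 0) (f := 0) hD).top_tri (v := v)
    (by
      intro i j hij
      simp only [A1] at hij
      exact hX i j hij)
    (by
      rintro ⟨s, hs⟩
      apply hdn
      refine ⟨-s, fun k => ?_⟩
      have := hs k
      simp only [A1, A2] at this
      linarith)
    (by simp only [A1]; exact hr)
  simp only [A1] at hx hy
  refine ⟨x, y, hx, hy, ⟨h.symm _ _ ht.ca, h.symm _ _ ht.bc, h.symm _ _ ht.ab, ?_, ?_⟩⟩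
  · have := ht.pos
    rw [Ac] at this
    rw [cr_swap']; exact this
  · intro k h1 h2 h3
    have := ht.empty k (by rw [Ac, ← cr_swap]; exact h3) (by rw [Ac, ← cr_swap]; exact h2)
      (by rw [Ac, ← cr_swap]; exact h1)
    tauto

/-- edges of the graph, from left to right -/
noncomputable def ET [Fintype ι] (P : ι → ℝ × ℝ) (T : ι → ι → Prop) : Finset (ι × ι) :=
  Finset.univ.filter (fun e => (P e.1).1 < (P e.2).1 ∧ T e.1 e.2)

lemma mem_ET [Fintype ι] (e : ι × ι) : e ∈ ET P T ↔ (P e.1).1 < (P e.2).1 ∧ T e.1 e.2 := by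
  simp [ET]

theorem Pl.count [Fintype ι] (h : Pl P T) (hX : ∀ i j, (P i).1 = (P j).1 → i = j)
    (hcol : ∃ i j k, cr (P i) (P j) (P k) ≠ 0) {L R : ι} (hL : ∀ k, k ≠ L → (P L).1 < (P k).1)
    (hR : ∀ k, k ≠ R → (P k).1 < (P R).1) (hLR : L ≠ R) :
    3 * Fintype.card ι ≤ (ET P T).card + (Finset.univ.filter (Hull P)).card + 3 := by
  have hr : ∀ u, u ≠ R → ∃ k, (P u).1 < (P k).1 := fun u hu => ⟨R, hR u hu⟩
  have hbase : ∀ u, ∃ m, u ≠ R → T u m ∧ (P u).1 < (P m).1 ∧
      ∀ x, T u x → (P u).1 < (P x).1 → 0 ≤ cr (P u) (P m) (P x) := by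
    intro u
    by_cases hu : u = R
    · exact ⟨u, fun h' => absurd hu h'⟩
    · obtain ⟨m, hm⟩ := h.base hX (hr u hu)
      exact ⟨m, fun _ => hm⟩
  choose b hb using hbase
  have htop : ∀ v, ∃ xy : ι × ι, (v ≠ R ∧ ¬ Up P v) →
      (P xy.1).1 < (P v).1 ∧ (P v).1 < (P xy.2).1 ∧ Tri P T v xy.2 xy.1 := by
    intro v
    by_cases hv : v ≠ R ∧ ¬ Up P v
    · obtain ⟨x, y, hxy⟩ := h.top_tri hX hv.2 (hr v hv.1)
      exact ⟨(x, y), fun _ => hxy⟩
    · exact ⟨(v, v), fun h' => absurd h' hv⟩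
  choose t ht using htop
  have hbot : ∀ v, ∃ xy : ι × ι, (v ≠ R ∧ ¬ Dn P v) →
      (P xy.1).1 < (P v).1 ∧ (P v).1 < (P xy.2).1 ∧ Tri P T v xy.1 xy.2 := by
    intro v
    by_cases hv : v ≠ R ∧ ¬ Dn P v
    · obtain ⟨x, y, hxy⟩ := h.bot_tri hX hv.2 (hr v hv.1)
      exact ⟨(x, y), fun _ => hxy⟩
    · exact ⟨(v, v), fun h' => absurd h' hv⟩
  choose d hd using hbot
  set SB : Finset ι := Finset.univ.filter (fun u => u ≠ R) with hSB
  set ST : Finset ι := Finset.univ.filter (fun v => v ≠ L ∧ v ≠ R ∧ ¬ Up P v) with hST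
  set SD : Finset ι := Finset.univ.filter (fun v => v ≠ L ∧ v ≠ R ∧ ¬ Dn P v) with hSD
  set A1 : Finset (ι × ι) := SB.image (fun u => (u, b u)) with hA1
  set A2 : Finset (ι × ι) := ST.image (fun v => t v) with hA2
  set A3 : Finset (ι × ι) := SD.image (fun v => ((d v).1, v)) with hA3
  have hw2 : ∀ v ∈ ST, Tri P T (t v).1 v (t v).2 ∧ (P (t v).1).1 < (P v).1 ∧
      (P v).1 < (P (t v).2).1 := by
    intro v hv
    simp only [hST, Finset.mem_filter, Finset.mem_univ, true_and] at hv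
    obtain ⟨h1, h2, h3⟩ := ht v ⟨hv.2.1, hv.2.2⟩
    exact ⟨h3.rot.rot, h1, h2⟩
  have hw3 : ∀ v ∈ SD, Tri P T (d v).1 (d v).2 v ∧ (P (d v).1).1 < (P v).1 ∧
      (P v).1 < (P (d v).2).1 := by
    intro v hv
    simp only [hSD, Finset.mem_filter, Finset.mem_univ, true_and] at hv
    obtain ⟨h1, h2, h3⟩ := hd v ⟨hv.2.1, hv.2.2⟩
    exact ⟨h3.rot, h1, h2⟩
  have uniq : ∀ u l l' m, Tri P T u l m → Tri P T u l' m → l = l' := by
    intro u l l' m h1 h2
    exact h.tri_unique h1.rot.rot h2.rot.rot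
  have c1 : A1.card = SB.card := by
    apply Finset.card_image_of_injective
    intro u u' e
    exact (Prod.mk.inj e).1
  have c2 : A2.card = ST.card := by
    apply Finset.card_image_of_injOn
    intro v hv v' hv' e
    have e' : t v = t v' := e
    have h1 := (hw2 v hv).1
    have h2 := (hw2 v' hv').1
    rw [e'] at h1
    exact uniq _ _ _ _ h1 h2
  have c3 : A3.card = SD.card := by
    apply Finset.card_image_of_injective
    intro v v' e
    exact (Prod.mk.inj e).2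
  have nob : ∀ u l m, Tri P T u l m → (P u).1 < (P l).1 → (P u).1 < (P m).1 → u ≠ R →
      m ≠ b u := by
    rintro u l m h1 h2 h3 h4 rfl
    have := (hb u h4).2.2 l h1.ab h2
    rw [cr_swap'] at this
    linarith [h1.pos]
  have d12 : Disjoint A1 A2 := by
    rw [Finset.disjoint_left]
    intro e he1 he2
    simp only [hA1, hA2, Finset.mem_image] at he1 he2
    obtain ⟨u, hu, rfl⟩ := he1
    obtain ⟨v, hv, e⟩ := he2
    obtain ⟨g1, g2, g3⟩ := hw2 v hv
    have hu' : u ≠ R := by simpa [hSB] using hu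
    rw [e] at g1 g2 g3
    exact nob _ _ _ g1 g2 (lt_trans g2 g3) hu' rfl
  have d13 : Disjoint A1 A3 := by
    rw [Finset.disjoint_left]
    intro e he1 he2
    simp only [hA1, hA3, Finset.mem_image] at he1 he2
    obtain ⟨u, hu, rfl⟩ := he1
    obtain ⟨v, hv, e⟩ := he2
    obtain ⟨g1, g2, g3⟩ := hw3 v hv
    have hu' : u ≠ R := by simpa [hSB] using hu
    obtain ⟨e1, e2⟩ := Prod.mk.inj e
    rw [e1] at g1 g2
    exact nob _ _ _ g1 (lt_trans g2 g3) g2 hu' e2
  have d23 : Disjoint A2 A3 := by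
    rw [Finset.disjoint_left]
    intro e he1 he2
    simp only [hA2, hA3, Finset.mem_image] at he1 he2
    obtain ⟨v, hv, rfl⟩ := he1
    obtain ⟨v', hv', e⟩ := he2
    obtain ⟨g1, g2, g3⟩ := hw2 v hv
    obtain ⟨k1, k2, k3⟩ := hw3 v' hv'
    have e1 : (t v).1 = (d v').1 := by rw [← e]
    have e2 : (t v).2 = v' := by rw [← e]
    rw [e1, e2] at g1
    have := uniq _ _ _ _ g1 k1
    rw [e2, this] at g3
    linarith
  have hsub : A1 ∪ A2 ∪ A3 ⊆ ET P T := by
    intro e he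
    rw [Finset.mem_union, Finset.mem_union] at he
    rw [mem_ET]
    rcases he with (he | he) | he
    · simp only [hA1, Finset.mem_image] at he
      obtain ⟨u, hu, rfl⟩ := he
      have hu' : u ≠ R := by simpa [hSB] using hu
      exact ⟨(hb u hu').2.1, (hb u hu').1⟩
    · simp only [hA2, Finset.mem_image] at he
      obtain ⟨v, hv, rfl⟩ := he
      obtain ⟨g1, g2, g3⟩ := hw2 v hv
      exact ⟨lt_trans g2 g3, h.symm _ _ g1.ca⟩
    · simp only [hA3, Finset.mem_image] at he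
      obtain ⟨v, hv, rfl⟩ := he
      obtain ⟨g1, g2, g3⟩ := hw3 v hv
      exact ⟨g2, h.symm _ _ g1.ca⟩
  have hcard : SB.card + ST.card + SD.card ≤ (ET P T).card := by
    rw [← c1, ← c2, ← c3, ← Finset.card_union_of_disjoint d12,
      ← Finset.card_union_of_disjoint (Finset.disjoint_union_left.2 ⟨d13, d23⟩)]
    exact Finset.card_le_card hsub
  -- cardinalities of the index sets
  have hSBc : SB.card + 1 = Fintype.card ι := by
    have : SB = Finset.univ.erase R := by ext x; simp [hSB]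
    rw [this, Finset.card_erase_of_mem (Finset.mem_univ _), Finset.card_univ]
    have : 0 < Fintype.card ι := Fintype.card_pos_iff.2 ⟨R⟩
    omega
  have hUL : ∀ v, Up P v → Hull P v := by
    rintro v ⟨s, hs⟩
    refine ⟨-s, 1, Or.inr one_ne_zero, fun k => ?_⟩
    linarith [hs k]
  have hDL : ∀ v, Dn P v → Hull P v := by
    rintro v ⟨s, hs⟩
    refine ⟨s, -1, Or.inr (by norm_num), fun k => ?_⟩
    linarith [hs k]
  have hLH : Hull P L := by
    refine ⟨-1, 0, Or.inl (by norm_num), fun k => ?_⟩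
    by_cases hk : k = L
    · subst hk; simp
    · linarith [hL k hk]
  have hRH : Hull P R := by
    refine ⟨1, 0, Or.inl (by norm_num), fun k => ?_⟩
    by_cases hk : k = R
    · subst hk; simp
    · linarith [hR k hk]
  have hun : (Finset.univ.erase L).erase R ⊆ ST ∪ SD := by
    intro v hv
    simp only [Finset.mem_erase, Finset.mem_univ, and_true] at hv
    simp only [hST, hSD, Finset.mem_union, Finset.mem_filter, Finset.mem_univ, true_and]
    by_contra hcon
    push Not at hcon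
    obtain ⟨s, hs⟩ := hcon.1 hv.2 hv.1
    obtain ⟨s', hs'⟩ := hcon.2 hv.2 hv.1
    have h1 := hs L
    have h2 := hs' L
    have h3 := hs R
    have h4 := hs' R
    have hLv := hL v hv.2
    have hRv := hR v hv.1
    have s1 : s ≤ s' := by
      by_contra hc; push Not at hc; nlinarith
    have s2 : s' ≤ s := by
      by_contra hc; push Not at hc; nlinarith
    have se : s = s' := le_antisymm s1 s2
    subst se
    have hall : ∀ k, (P k).2 = (P v).2 + s * ((P k).1 - (P v).1) :=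
      fun k => le_antisymm (hs k) (hs' k)
    obtain ⟨i, j, k, hijk⟩ := hcol
    apply hijk
    unfold cr
    rw [hall i, hall j, hall k]; ring
  have hin : Finset.univ.filter (fun v => ¬ Hull P v) ⊆ ST ∩ SD := by
    intro v hv
    simp only [Finset.mem_filter, Finset.mem_univ, true_and] at hv
    simp only [hST, hSD, Finset.mem_inter, Finset.mem_filter, Finset.mem_univ, true_and]
    have hvL : v ≠ L := by rintro rfl; exact hv hLH
    have hvR : v ≠ R := by rintro rfl; exact hv hRH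
    exact ⟨⟨hvL, hvR, fun h' => hv (hUL v h')⟩, ⟨hvL, hvR, fun h' => hv (hDL v h')⟩⟩
  have hU := Finset.card_le_card hun
  have hI := Finset.card_le_card hin
  have hUI := Finset.card_union_add_card_inter ST SD
  have e1 : ((Finset.univ.erase L).erase R).card + 2 = Fintype.card ι := by
    rw [Finset.card_erase_of_mem (by simp [hLR.symm]), Finset.card_erase_of_mem (by simp),
      Finset.card_univ]
    have : 1 < Fintype.card ι := Fintype.one_lt_card_iff.2 ⟨L, R, hLR⟩
    omega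
  have e2 : (Finset.univ.filter (Hull P)).card + (Finset.univ.filter (fun v => ¬ Hull P v)).card
      = Fintype.card ι := by
    rw [Finset.card_filter_add_card_filter_not, Finset.card_univ]
  omega

end Pool.Agent.Helper18.Diag
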