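import Mathlib

namespace Pool.Agent.Helper18.DiagDefs

/-- The Euclidean plane. -/
abbrev Plane := EuclideanSpace ℝ (Fin 2)

/-- The cyclic successor on the index set of the vertices of an `n`-gon. -/
def nxt {n : ℕ} (i : Fin n) : Fin n := ⟨(i.1 + 1) % n, Nat.mod_lt _ (Fin.pos i)⟩

/-- The boundary curve: the union of the closed edges. -/
def bdry {n : ℕ} (v : Fin n → Plane) : Set Plane := ⋃ i, segment ℝ (v i) (v (nxt i))

/-- A simple `n`-gon (given by its vertices in cyclic order): the vertices are distinct, two
consecutive edges meet exactly in their common vertex and two other edges are disjoint. -/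
structure IsSimplePolygon {n : ℕ} (v : Fin n → Plane) : Prop where
  distinct : Function.Injective v
  consecutive : ∀ i, segment ℝ (v i) (v (nxt i)) ∩ segment ℝ (v (nxt i)) (v (nxt (nxt i))) =
    {v (nxt i)}
  disjoint : ∀ i j, j ≠ i → j ≠ nxt i → i ≠ nxt j →
    Disjoint (segment ℝ (v i) (v (nxt i))) (segment ℝ (v j) (v (nxt j)))

/-- Every vertex is a genuine corner: no angle of the polygon is straight. -/
def GenuineCorners {n : ℕ} (v : Fin n → Plane) : Prop :=
  ∀ i, ¬ Collinear ℝ {v i, v (nxt i), v (nxt (nxt i))}

/-- The interior of the polygon: the points of the bounded components of the complement of the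
boundary curve. -/
def inside {n : ℕ} (v : Fin n → Plane) : Set Plane :=
  {x | x ∉ bdry v ∧ Bornology.IsBounded (connectedComponentIn (bdry v)ᶜ x)}

/-- The exterior of the polygon: the points of the unbounded components of the complement of the
boundary curve. -/
def outside {n : ℕ} (v : Fin n → Plane) : Set Plane :=
  {x | x ∉ bdry v ∧ ¬ Bornology.IsBounded (connectedComponentIn (bdry v)ᶜ x)}

/-- The mixed diagonals, as pairs `(j, k)` with `j < k`: the two vertices are not adjacent and
the open segment joining them is neither contained in the interior nor contained in the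
exterior. -/
def mixedDiagonals {n : ℕ} (v : Fin n → Plane) : Set (Fin n × Fin n) :=
  {p | p.1 < p.2 ∧ p.2 ≠ nxt p.1 ∧ p.1 ≠ nxt p.2 ∧
    ¬ openSegment ℝ (v p.1) (v p.2) ⊆ inside v ∧ ¬ openSegment ℝ (v p.1) (v p.2) ⊆ outside v}

/-- The number `D_m` of mixed diagonals. -/
noncomputable def mixedCount {n : ℕ} (v : Fin n → Plane) : ℕ := (mixedDiagonals v).ncard

end Pool.Agent.Helper18.DiagDefs
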