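import Pool.Agent.Helper18.DiagTransfer

namespace Pool.Agent.Helper18.Diag

open Classical DiagDefs

/-- closed segments in coordinates -/
def Seg (a b z : ℝ × ℝ) : Prop :=
  ∃ t : ℝ, 0 ≤ t ∧ t ≤ 1 ∧ z.1 = a.1 + t * (b.1 - a.1) ∧ z.2 = a.2 + t * (b.2 - a.2)

/-- the plane polygon with given coordinates -/
noncomputable def toV (n : ℕ) (q : ℕ → ℝ × ℝ) : Fin n → Plane := fun i => !₂[(q i).1, (q i).2]

lemma pt_toV {n : ℕ} (q : ℕ → ℝ × ℝ) (i : Fin n) : pt (toV n q i) = q i := by
  simp [pt, toV]

lemma mk_simple {n : ℕ} (q : ℕ → ℝ × ℝ)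
    (D : ∀ i j, i < n → j < n → q i = q j → i = j)
    (N : ∀ i j z, i < j → j < n → j ≠ i + 1 → ¬ (i = 0 ∧ j + 1 = n) →
      Seg (q i) (q ((i + 1) % n)) z → Seg (q j) (q ((j + 1) % n)) z → False)
    (C : ∀ i z, i < n → Seg (q i) (q ((i + 1) % n)) z →
      Seg (q ((i + 1) % n)) (q (((i + 1) % n + 1) % n)) z → z = q ((i + 1) % n)) :
    IsSimplePolygon (toV n q) := by
  have hseg : ∀ (i j : Fin n) (z : Plane), z ∈ segment ℝ (toV n q i) (toV n q j) ↔
      Seg (q i) (q j) (pt z) := by
    intro i j z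
    rw [mem_segment_iff, pt_toV, pt_toV]; rfl
  refine ⟨?_, ?_, ?_⟩
  · intro i j hij
    apply Fin.ext
    apply D i j i.2 j.2
    rw [← pt_toV q i, ← pt_toV q j, hij]
  · intro i
    apply Set.Subset.antisymm
    · rintro z ⟨h1, h2⟩
      rw [hseg] at h1 h2
      rw [Set.mem_singleton_iff]
      apply pt_inj
      rw [pt_toV]
      exact C i (pt z) i.2 h1 h2
    · intro z hz
      rw [Set.mem_singleton_iff] at hz
      subst hz
      exact ⟨right_mem_segment ℝ _ _, left_mem_segment ℝ _ _⟩
  · intro i j h1 h2 h3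
    rw [Set.disjoint_left]
    intro z hz1 hz2
    rw [hseg] at hz1 hz2
    have hi := i.2
    have hj := j.2
    have h2' : j.1 ≠ (i.1 + 1) % n := fun e => h2 (Fin.ext e)
    have h3' : i.1 ≠ (j.1 + 1) % n := fun e => h3 (Fin.ext e)
    have h1' : j.1 ≠ i.1 := fun e => h1 (Fin.ext e)
    rcases Nat.lt_or_ge i.1 j.1 with hlt | hge
    · refine N i j (pt z) hlt hj ?_ ?_ hz1 hz2
      · intro e
        rw [Nat.mod_eq_of_lt (by omega)] at h2'
        exact h2' e
      · rintro ⟨e1, e2⟩
        rw [e2, Nat.mod_self] at h3'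
        exact h3' e1
    · refine N j i (pt z) (by omega) hi ?_ ?_ hz2 hz1
      · intro e
        rw [Nat.mod_eq_of_lt (by omega)] at h3'
        exact h3' e
      · rintro ⟨e1, e2⟩
        rw [e2, Nat.mod_self] at h2'
        exact h2' e1

lemma mk_genuine {n : ℕ} (q : ℕ → ℝ × ℝ)
    (G : ∀ i, i < n → cr (q i) (q ((i + 1) % n)) (q (((i + 1) % n + 1) % n)) ≠ 0) :
    GenuineCorners (toV n q) := by
  intro i h
  have := cr_of_collinear h
  rw [pt_toV, pt_toV, pt_toV] at this
  exact G i i.2 this

/-- the extremal polygon with genuine corners -/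
noncomputable def qq (m : ℕ) : ℝ × ℝ :=
  if m = 0 then (0, -1) else if m % 2 = 1 then (((m : ℝ) - 1) / 2, 0) else ((m : ℝ) + 1, 1)

lemma qq_zero : qq 0 = (0, -1) := by simp [qq]

lemma qq_odd {m : ℕ} (h : m % 2 = 1) : qq m = (((m : ℝ) - 1) / 2, 0) := by
  have : m ≠ 0 := by omega
  simp [qq, this, h]

lemma qq_even {m : ℕ} (h0 : m ≠ 0) (h : m % 2 = 0) : qq m = ((m : ℝ) + 1, 1) := by
  simp [qq, h0, h]

/-- abscissa at height `0` and `1` of the `m`-th edge -/
noncomputable def aa (m : ℕ) : ℝ := if m % 2 = 1 then ((m : ℝ) - 1) / 2 else (m : ℝ) / 2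

noncomputable def cc (m : ℕ) : ℝ := if m % 2 = 1 then (m : ℝ) + 2 else (m : ℝ) + 1

lemma aa_bd (m : ℕ) : ((m : ℝ) - 1) / 2 ≤ aa m ∧ aa m ≤ (m : ℝ) / 2 := by
  unfold aa; split_ifs <;> constructor <;> linarith

lemma cc_bd (m : ℕ) : (m : ℝ) + 1 ≤ cc m ∧ cc m ≤ (m : ℝ) + 2 := by
  unfold cc; split_ifs <;> constructor <;> linarith

lemma zig {m : ℕ} (hm : m ≠ 0) {z : ℝ × ℝ} (hz : Seg (qq m) (qq (m + 1)) z) :
    0 ≤ z.2 ∧ z.2 ≤ 1 ∧ z.1 = aa m + z.2 * (cc m - aa m) := by
  obtain ⟨t, t0, t1, tx, ty⟩ := hz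
  rcases Nat.mod_two_eq_zero_or_one m with h | h
  · rw [qq_even hm h, qq_odd (show (m + 1) % 2 = 1 by omega)] at tx ty
    simp only [Nat.cast_add, Nat.cast_one] at tx ty
    have e : z.2 = 1 - t := by rw [ty]; ring
    have ha : aa m = (m : ℝ) / 2 := by simp [aa, h]
    have hc : cc m = (m : ℝ) + 1 := by simp [cc, h]
    refine ⟨by rw [e]; linarith, by rw [e]; linarith, ?_⟩
    rw [tx, e, ha, hc]; ring
  · rw [qq_odd h, qq_even (by omega) (show (m + 1) % 2 = 0 by omega)] at tx ty
    simp only [Nat.cast_add, Nat.cast_one] at tx ty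
    have e : z.2 = t := by rw [ty]; ring
    have ha : aa m = ((m : ℝ) - 1) / 2 := by simp [aa, h]
    have hc : cc m = (m : ℝ) + 2 := by simp [cc, h]
    refine ⟨by rw [e]; linarith, by rw [e]; linarith, ?_⟩
    rw [tx, e, ha, hc]; ring

lemma first {z : ℝ × ℝ} (hz : Seg (qq 0) (qq 1) z) : z.1 = 0 ∧ -1 ≤ z.2 ∧ z.2 ≤ 0 := by
  obtain ⟨t, t0, t1, tx, ty⟩ := hz
  rw [qq_zero, qq_odd (show 1 % 2 = 1 by norm_num)] at tx ty
  norm_num at tx ty
  exact ⟨tx, by rw [ty]; linarith, by rw [ty]; linarith⟩

lemma last_odd {m : ℕ} (hm : m % 2 = 1) {z : ℝ × ℝ} (hz : Seg (qq m) (qq 0) z) :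
    z.1 = (z.2 + 1) * (((m : ℝ) - 1) / 2) ∧ -1 ≤ z.2 ∧ z.2 ≤ 0 := by
  obtain ⟨t, t0, t1, tx, ty⟩ := hz
  rw [qq_zero, qq_odd hm] at tx ty
  simp only at tx ty
  have e : z.2 = -t := by rw [ty]; ring
  refine ⟨by rw [tx, e]; ring, by rw [e]; linarith, by rw [e]; linarith⟩

lemma last_even {m : ℕ} (h0 : m ≠ 0) (hm : m % 2 = 0) {z : ℝ × ℝ} (hz : Seg (qq m) (qq 0) z) :
    z.1 = (z.2 + 1) / 2 * ((m : ℝ) + 1) ∧ -1 ≤ z.2 ∧ z.2 ≤ 1 := by
  obtain ⟨t, t0, t1, tx, ty⟩ := hz
  rw [qq_zero, qq_even h0 hm] at tx ty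
  simp only at tx ty
  have e : z.2 = 1 - 2 * t := by rw [ty]; ring
  refine ⟨by rw [tx, e]; ring, by rw [e]; linarith, by rw [e]; linarith⟩

lemma qq_simple {n : ℕ} (hn : 4 ≤ n) : IsSimplePolygon (toV n qq) := by
  apply mk_simple
  · intro i j hi hj h
    rcases Nat.eq_zero_or_pos i with i0 | i0 <;> rcases Nat.eq_zero_or_pos j with j0 | j0
    · omega
    · exfalso
      subst i0
      rw [qq_zero] at h
      rcases Nat.mod_two_eq_zero_or_one j with hj2 | hj2
      · rw [qq_even (by omega) hj2] at h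
        have := (Prod.mk.inj h).2
        norm_num at this
      · rw [qq_odd hj2] at h
        have := (Prod.mk.inj h).2
        norm_num at this
    · exfalso
      subst j0
      rw [qq_zero] at h
      rcases Nat.mod_two_eq_zero_or_one i with hj2 | hj2
      · rw [qq_even (by omega) hj2] at h
        have := (Prod.mk.inj h).2
        norm_num at this
      · rw [qq_odd hj2] at h
        have := (Prod.mk.inj h).2
        norm_num at this
    · rcases Nat.mod_two_eq_zero_or_one i with hi2 | hi2 <;>
        rcases Nat.mod_two_eq_zero_or_one j with hj2 | hj2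
      · rw [qq_even (by omega) hi2, qq_even (by omega) hj2] at h
        have := (Prod.mk.inj h).1
        have h2 : (i : ℝ) = j := by linarith
        exact_mod_cast h2
      · rw [qq_even (by omega) hi2, qq_odd hj2] at h
        have := (Prod.mk.inj h).2
        norm_num at this
      · rw [qq_odd hi2, qq_even (by omega) hj2] at h
        have := (Prod.mk.inj h).2
        norm_num at this
      · rw [qq_odd hi2, qq_odd hj2] at h
        have := (Prod.mk.inj h).1
        have h2 : (i : ℝ) = j := by linarith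
        exact_mod_cast h2
  · intro i j z hij hj hne hcl h1 h2
    rw [Nat.mod_eq_of_lt (show i + 1 < n by omega)] at h1
    have hA := aa_bd
    have hC := cc_bd
    rcases Nat.lt_or_ge (j + 1) n with hj1 | hj1
    · rw [Nat.mod_eq_of_lt hj1] at h2
      obtain ⟨b1, b2, b3⟩ := zig (show j ≠ 0 by omega) h2
      rcases Nat.eq_zero_or_pos i with i0 | i0
      · subst i0
        obtain ⟨a1, a2, a3⟩ := first h1
        have y0 : z.2 = 0 := by linarith
        rw [y0, a1] at b3
        have := (hA j).1
        have hj2 : (2 : ℝ) ≤ j := by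
          have : 2 ≤ j := by omega
          exact_mod_cast this
        linarith
      · obtain ⟨a1, a2, a3⟩ := zig (show i ≠ 0 by omega) h1
        have hji : (i : ℝ) + 2 ≤ j := by
          have : i + 2 ≤ j := by omega
          exact_mod_cast this
        have e1 : 0 < aa j - aa i := by linarith [(hA j).1, (hA i).2]
        have e2 : 0 < cc j - cc i := by linarith [(hC j).1, (hC i).2]
        have e3 : (1 - z.2) * (aa j - aa i) + z.2 * (cc j - cc i) = 0 := by linarith
        rcases a1.lt_or_eq with h' | h'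
        · nlinarith [mul_nonneg (show 0 ≤ 1 - z.2 by linarith) e1.le, mul_pos h' e2]
        · rw [← h'] at e3; linarith
    · have hjn : j + 1 = n := by omega
      rw [hjn, Nat.mod_self] at h2
      have i0 : i ≠ 0 := fun e => hcl ⟨e, hjn⟩
      obtain ⟨a1, a2, a3⟩ := zig i0 h1
      have hji : (i : ℝ) + 2 ≤ j := by
        have : i + 2 ≤ j := by omega
        exact_mod_cast this
      rcases Nat.mod_two_eq_zero_or_one j with hj2 | hj2
      · obtain ⟨b1, b2, b3⟩ := last_even (by omega) hj2 h2
        have e1 : 0 < ((j : ℝ) + 1) / 2 - aa i := by linarith [(hA i).2]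
        have e2 : 0 < ((j : ℝ) + 1) - cc i := by linarith [(hC i).2]
        have e3 : (1 - z.2) * (((j : ℝ) + 1) / 2 - aa i) + z.2 * (((j : ℝ) + 1) - cc i) = 0 := by
          linarith
        rcases a1.lt_or_eq with h' | h'
        · nlinarith [mul_nonneg (show 0 ≤ 1 - z.2 by linarith) e1.le, mul_pos h' e2]
        · rw [← h'] at e3; linarith
      · obtain ⟨b1, b2, b3⟩ := last_odd hj2 h2
        have y0 : z.2 = 0 := by linarith
        rw [y0] at a3 b1
        linarith [(hA i).2]
  · intro i z hi h1 h2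
    have hA := aa_bd
    have hC := cc_bd
    rcases Nat.lt_or_ge (i + 1) n with hi1 | hi1
    · rw [Nat.mod_eq_of_lt hi1] at h1 h2 ⊢
      rcases Nat.lt_or_ge (i + 1 + 1) n with hi2 | hi2
      · rw [Nat.mod_eq_of_lt hi2] at h2
        obtain ⟨b1, b2, b3⟩ := zig (show i + 1 ≠ 0 by omega) h2
        rcases Nat.eq_zero_or_pos i with i0 | i0
        · subst i0
          obtain ⟨a1, a2, a3⟩ := first h1
          have y0 : z.2 = 0 := by linarith
          rw [qq_odd (by norm_num)]
          exact Prod.ext (by rw [a1]; norm_num) (by rw [y0])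
        · obtain ⟨a1, a2, a3⟩ := zig (show i ≠ 0 by omega) h1
          rcases Nat.mod_two_eq_zero_or_one i with hp | hp
          · have ea : aa i = (i : ℝ) / 2 := by simp [aa, hp]
            have ec : cc i = (i : ℝ) + 1 := by simp [cc, hp]
            have ea' : aa (i + 1) = (i : ℝ) / 2 := by
              simp [aa, show (i + 1) % 2 = 1 by omega]
            have ec' : cc (i + 1) = (i : ℝ) + 3 := by
              simp [cc, show (i + 1) % 2 = 1 by omega]; ring
            rw [ea, ec] at a3
            rw [ea', ec'] at b3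
            have y0 : z.2 = 0 := by linarith
            rw [qq_odd (show (i + 1) % 2 = 1 by omega)]
            refine Prod.ext ?_ y0
            rw [a3, y0]; push_cast; ring
          · have ea : aa i = ((i : ℝ) - 1) / 2 := by simp [aa, hp]
            have ec : cc i = (i : ℝ) + 2 := by simp [cc, hp]
            have ea' : aa (i + 1) = ((i : ℝ) + 1) / 2 := by
              simp [aa, show (i + 1) % 2 = 0 by omega]
            have ec' : cc (i + 1) = (i : ℝ) + 2 := by
              simp [cc, show (i + 1) % 2 = 0 by omega]; ring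
            rw [ea, ec] at a3
            rw [ea', ec'] at b3
            have y0 : z.2 = 1 := by linarith
            rw [qq_even (by omega) (show (i + 1) % 2 = 0 by omega)]
            refine Prod.ext ?_ y0
            rw [a3, y0]; push_cast; ring
      · have hin : i + 1 + 1 = n := by omega
        rw [hin, Nat.mod_self] at h2
        obtain ⟨a1, a2, a3⟩ := zig (show i ≠ 0 by omega) h1
        rcases Nat.mod_two_eq_zero_or_one i with hp | hp
        · obtain ⟨b1, b2, b3⟩ := last_odd (show (i + 1) % 2 = 1 by omega) h2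
          have y0 : z.2 = 0 := by linarith
          rw [qq_odd (show (i + 1) % 2 = 1 by omega)]
          refine Prod.ext ?_ y0
          rw [b1, y0]; ring
        · obtain ⟨b1, b2, b3⟩ := last_even (by omega) (show (i + 1) % 2 = 0 by omega) h2
          have ea : aa i = ((i : ℝ) - 1) / 2 := by simp [aa, hp]
          have ec : cc i = (i : ℝ) + 2 := by simp [cc, hp]
          rw [ea, ec] at a3
          push_cast at b1
          have e3 : (1 - z.2) * (3 / 2) = 0 := by
            have : z.1 = z.1 := rfl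
            linarith
          have y0 : z.2 = 1 := by linarith
          rw [qq_even (by omega) (show (i + 1) % 2 = 0 by omega)]
          refine Prod.ext ?_ y0
          rw [a3, y0]; push_cast; ring
    · have hin : i + 1 = n := by omega
      have e0 : (i + 1) % n = 0 := by rw [hin, Nat.mod_self]
      rw [e0] at h1 h2 ⊢
      rw [Nat.mod_eq_of_lt (show 0 + 1 < n by omega)] at h2
      obtain ⟨a1, a2, a3⟩ := first h2
      have i3 : (3 : ℝ) ≤ i := by
        have : 3 ≤ i := by omega
        exact_mod_cast this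
      rw [qq_zero]
      have y0 : z.2 = -1 := by
        rcases Nat.mod_two_eq_zero_or_one i with hp | hp
        · obtain ⟨b1, b2, b3⟩ := last_even (by omega) hp h1
          rw [a1] at b1
          have : (z.2 + 1) * ((i : ℝ) + 1) = 0 := by linarith
          rcases mul_eq_zero.1 this with h' | h' <;> linarith
        · obtain ⟨b1, b2, b3⟩ := last_odd hp h1
          rw [a1] at b1
          rcases mul_eq_zero.1 b1.symm with h' | h' <;> linarith
      exact Prod.ext a1 y0

lemma qq_genuine {n : ℕ} (hn : 4 ≤ n) : GenuineCorners (toV n qq) := by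
  apply mk_genuine
  intro i hi
  rcases Nat.lt_or_ge (i + 1) n with hi1 | hi1
  · rw [Nat.mod_eq_of_lt hi1]
    rcases Nat.lt_or_ge (i + 1 + 1) n with hi2 | hi2
    · rw [Nat.mod_eq_of_lt hi2]
      rcases Nat.eq_zero_or_pos i with i0 | i0
      · subst i0
        rw [qq_zero, qq_odd (by norm_num), qq_even (by norm_num) (by norm_num)]
        norm_num [cr]
      · rcases Nat.mod_two_eq_zero_or_one i with hp | hp
        · rw [qq_even (by omega) hp, qq_odd (show (i + 1) % 2 = 1 by omega),
            qq_even (by omega) (show (i + 1 + 1) % 2 = 0 by omega)]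
          simp only [cr]; push_cast
          ring_nf; norm_num
        · rw [qq_odd hp, qq_even (by omega) (show (i + 1) % 2 = 0 by omega),
            qq_odd (show (i + 1 + 1) % 2 = 1 by omega)]
          simp only [cr]; push_cast
          ring_nf; norm_num
    · have hin : i + 1 + 1 = n := by omega
      rw [hin, Nat.mod_self, qq_zero]
      rcases Nat.mod_two_eq_zero_or_one i with hp | hp
      · rw [qq_even (by omega) hp, qq_odd (show (i + 1) % 2 = 1 by omega)]
        simp only [cr]; push_cast
        ring_nf; norm_num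
      · rw [qq_odd hp, qq_even (by omega) (show (i + 1) % 2 = 0 by omega)]
        simp only [cr]; push_cast
        ring_nf; norm_num
  · have hin : i + 1 = n := by omega
    have e0 : (i + 1) % n = 0 := by rw [hin, Nat.mod_self]
    rw [e0, Nat.mod_eq_of_lt (show 0 + 1 < n by omega), qq_zero, qq_odd (show (0 + 1) % 2 = 1 by norm_num)]
    have i3 : (3 : ℝ) ≤ i := by
      have : 3 ≤ i := by omega
      exact_mod_cast this
    rcases Nat.mod_two_eq_zero_or_one i with hp | hp
    · rw [qq_even (by omega) hp]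
      simp only [cr]; push_cast
      intro h; ring_nf at h; linarith
    · rw [qq_odd hp]
      simp only [cr]; push_cast
      intro h; ring_nf at h; linarith

end Pool.Agent.Helper18.Diag
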