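import Pool.Agent.Helper18.DiagShear
import Pool.Agent.Helper18.DiagDefs

namespace Pool.Agent.Helper18.Diag

open Classical DiagDefs

/-- visible non-adjacent pairs, sorted by index -/
noncomputable def vis {n : ℕ} (P : Fin n → ℝ × ℝ) (σ : Equiv.Perm (Fin n)) :
    Finset (Fin n × Fin n) :=
  Finset.univ.filter (fun e => e.1 < e.2 ∧ ¬ Adj σ e.1 e.2 ∧
    (∀ k, ¬ Btw (P e.1) (P e.2) (P k)) ∧
    (∀ i z, Btw (P i) (P (σ i)) z → ¬ Btw (P e.1) (P e.2) z))

lemma mem_vis {n : ℕ} {P : Fin n → ℝ × ℝ} {σ : Equiv.Perm (Fin n)} (e : Fin n × Fin n) :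
    e ∈ vis P σ ↔ e.1 < e.2 ∧ ¬ Adj σ e.1 e.2 ∧ (∀ k, ¬ Btw (P e.1) (P e.2) (P k)) ∧
    (∀ i z, Btw (P i) (P (σ i)) z → ¬ Btw (P e.1) (P e.2) z) := by
  simp [vis]

lemma card_VV_le_vis {n : ℕ} {P : Fin n → ℝ × ℝ} {σ : Equiv.Perm (Fin n)} (l : ℝ) :
    (VV (fun i => aff 1 l 0 0 1 0 (P i)) σ).card ≤ (vis P σ).card := by
  have hD : (1 : ℝ) * 1 - l * 0 ≠ 0 := by norm_num
  apply Finset.card_le_card_of_injOn (fun e => if e.1 < e.2 then e else (e.2, e.1))
  · rintro ⟨i, j⟩ he
    simp only [Finset.mem_coe] at he ⊢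
    rw [mem_VV] at he
    obtain ⟨h1, h2, h3, h4⟩ := he
    simp only at h1 h2 h3 h4
    have hne : i ≠ j := by rintro rfl; exact lt_irrefl _ h1
    have h3' : ∀ k, ¬ Btw (P i) (P j) (P k) := fun k hk => h3 k ((btw_aff hD _ _ _).2 hk)
    have h4' : ∀ k z, Btw (P k) (P (σ k)) z → ¬ Btw (P i) (P j) z := fun k z a1 a2 =>
      h4 k _ ((btw_aff hD _ _ _).2 a1) ((btw_aff hD _ _ _).2 a2)
    split_ifs with hlt
    · rw [mem_vis]
      exact ⟨hlt, h2, h3', h4'⟩
    · rw [mem_vis]
      exact ⟨lt_of_le_of_ne (not_lt.1 hlt) hne.symm, fun e => h2 e.symm,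
        fun k hk => h3' k hk.symm, fun k z a1 a2 => h4' k z a1 a2.symm⟩
  · rintro ⟨i, j⟩ he ⟨i', j'⟩ he' heq
    simp only [Finset.mem_coe] at he he'
    rw [mem_VV] at he he'
    have l1 := he.1
    have l2 := he'.1
    simp only at l1 l2 heq
    split_ifs at heq with c1 c2 c2
    · exact heq
    · exfalso
      obtain ⟨e1, e2⟩ := Prod.mk.inj heq
      rw [e1, e2] at l1; linarith
    · exfalso
      obtain ⟨e1, e2⟩ := Prod.mk.inj heq
      rw [← e1, ← e2] at l2; linarith
    · obtain ⟨e1, e2⟩ := Prod.mk.inj heq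
      rw [e1, e2]

theorem Poly.vis_le {n : ℕ} [NeZero n] {P : Fin n → ℝ × ℝ} {σ : Equiv.Perm (Fin n)}
    (hp : Poly P σ) : 3 * n ≤ 2 * (vis P σ).card + 9 := by
  obtain ⟨l, hl⟩ := exists_shear hp.inj
  have hD : (1 : ℝ) * 1 - l * 0 ≠ 0 := by norm_num
  have hp' : Poly (fun i => aff 1 l 0 0 1 0 (P i)) σ := by
    refine ⟨fun i j hij => hp.inj (aff_inj hD hij), ?_, ?_, ?_, hp.cyc⟩
    · intro i k hk
      exact hp.clean i k ((btw_aff hD _ _ _).1 hk)
    · intro i j z hij h1 h2
      obtain ⟨w, rfl⟩ := aff_surj (e := 0) (f := 0) hD z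
      exact hp.disj i j w hij ((btw_aff hD _ _ _).1 h1) ((btw_aff hD _ _ _).1 h2)
    · intro i
      rw [cr_aff]
      simpa using hp.gen i
  have h1 := hp'.main0 hl
  have h2 := card_VV_le_vis (P := P) (σ := σ) l
  rw [Fintype.card_fin] at h1
  omega

theorem Poly0.vis_le {n : ℕ} [NeZero n] {P : Fin n → ℝ × ℝ} {σ : Equiv.Perm (Fin n)}
    (hp : Poly0 P σ) : n ≤ (vis P σ).card + 3 := by
  obtain ⟨l, hX⟩ := exists_shear hp.inj
  have hD : (1 : ℝ) * 1 - l * 0 ≠ 0 := by norm_num
  have hp' : Poly0 (fun i => aff 1 l 0 0 1 0 (P i)) σ := hp.map hD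
  obtain ⟨T, h, hT⟩ := hp'.exists_pl
  have hcol := hp'.not_col hX
  set Q : Fin n → ℝ × ℝ := fun i => aff 1 l 0 0 1 0 (P i) with hQ
  have i0 : Fin n := 0
  obtain ⟨L, -, hL⟩ := (Finset.univ : Finset (Fin n)).exists_min_image (fun k => (Q k).1)
    ⟨i0, Finset.mem_univ _⟩
  obtain ⟨R, -, hR⟩ := (Finset.univ : Finset (Fin n)).exists_max_image (fun k => (Q k).1)
    ⟨i0, Finset.mem_univ _⟩
  have hL' : ∀ k, k ≠ L → (Q L).1 < (Q k).1 := fun k hk =>
    lt_of_le_of_ne (hL k (Finset.mem_univ _)) (fun e => hk (hX _ _ e).symm)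
  have hR' : ∀ k, k ≠ R → (Q k).1 < (Q R).1 := fun k hk =>
    lt_of_le_of_ne (hR k (Finset.mem_univ _)) (fun e => hk (hX _ _ e))
  have hLR : L ≠ R := by
    rintro rfl
    by_cases h' : i0 = L
    · have := hL' (σ i0) (by rw [← h']; exact hp.ne i0)
      have := hR' (σ i0) (by rw [← h']; exact hp.ne i0)
      linarith
    · linarith [hL' i0 h', hR' i0 h']
  have C1 := h.count hX hcol hL' hR' hLR
  have C6 := Poly.card_VV hT h hX
  have CP : ((ET Q T).filter (fun e => Adj σ e.1 e.2)).card ≤ Fintype.card (Fin n) := by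
    have : (ET Q T).filter (fun e => Adj σ e.1 e.2) ⊆
        (Finset.univ : Finset (Fin n)).image (fun i => srt Q i (σ i)) := by
      rintro ⟨a, b⟩ he
      simp only [Finset.mem_filter, mem_ET] at he
      rw [Finset.mem_image]
      rcases he.2 with e | e
      · refine ⟨a, Finset.mem_univ _, ?_⟩
        have e' : b = σ a := e
        rw [← e']; exact srt_eq he.1.1
      · refine ⟨b, Finset.mem_univ _, ?_⟩
        have e' : a = σ b := e
        rw [← e']; exact srt_eq' he.1.1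
    calc _ ≤ _ := Finset.card_le_card this
      _ ≤ _ := Finset.card_image_le
      _ = _ := Finset.card_univ
  have CS : ((ET Q T).filter (fun e => Adj σ e.1 e.2)).card +
      ((ET Q T).filter (fun e => ¬ Adj σ e.1 e.2)).card = (ET Q T).card :=
    Finset.card_filter_add_card_filter_not _
  have hH : (Finset.univ.filter (Hull Q)).card ≤ Fintype.card (Fin n) := Finset.card_le_univ _
  have h2 : (VV Q σ).card ≤ (vis P σ).card := card_VV_le_vis l
  rw [Fintype.card_fin] at *
  omega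

/-- the cyclic successor as a permutation -/
noncomputable def nxtPerm (n : ℕ) : Equiv.Perm (Fin n) :=
  Equiv.ofBijective nxt (Finite.injective_iff_bijective.1 (by
    intro i j h
    have h' : (i.1 + 1) % n = (j.1 + 1) % n := congrArg Fin.val h
    have hi := i.2
    have hj := j.2
    apply Fin.ext
    rcases Nat.lt_or_ge (i.1 + 1) n with h1 | h1 <;> rcases Nat.lt_or_ge (j.1 + 1) n with h2 | h2
    · rw [Nat.mod_eq_of_lt h1, Nat.mod_eq_of_lt h2] at h'; omega
    · have e : j.1 + 1 = n := by omega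
      rw [Nat.mod_eq_of_lt h1, e, Nat.mod_self] at h'; omega
    · have e : i.1 + 1 = n := by omega
      rw [Nat.mod_eq_of_lt h2, e, Nat.mod_self] at h'; omega
    · omega))

lemma nxtPerm_apply {n : ℕ} (i : Fin n) : nxtPerm n i = nxt i := rfl

lemma nxtPerm_pow {n : ℕ} (i : Fin n) (m : ℕ) : ((nxtPerm n ^ m) i).1 = (i.1 + m) % n := by
  induction m with
  | zero => simp [Nat.mod_eq_of_lt i.2]
  | succ m ih =>
    rw [pow_succ', Equiv.Perm.mul_apply, nxtPerm_apply]
    simp only [nxt]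
    rw [ih]
    rw [Nat.mod_add_mod]
    ring_nf

lemma nxtPerm_cyc {n : ℕ} (i j : Fin n) : ∃ m : ℕ, (nxtPerm n ^ m) i = j := by
  refine ⟨j.1 + n - i.1, ?_⟩
  apply Fin.ext
  rw [nxtPerm_pow]
  have : i.1 + (j.1 + n - i.1) = j.1 + n := by omega
  rw [this, Nat.add_mod_right, Nat.mod_eq_of_lt j.2]

lemma nxt_ne {n : ℕ} (hn : 3 ≤ n) (i : Fin n) : nxt i ≠ i := by
  intro h
  have h' : (i.1 + 1) % n = i.1 := congrArg Fin.val h
  rcases Nat.lt_or_ge (i.1 + 1) n with h1 | h1
  · rw [Nat.mod_eq_of_lt h1] at h'; omega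
  · have e : i.1 + 1 = n := by omega
    rw [e, Nat.mod_self] at h'; omega

lemma nxt_ne2 {n : ℕ} (hn : 3 ≤ n) (i : Fin n) : nxt (nxt i) ≠ i := by
  intro h
  have h' : ((i.1 + 1) % n + 1) % n = i.1 := congrArg Fin.val h
  rw [Nat.mod_add_mod] at h'
  rcases Nat.lt_or_ge (i.1 + 1 + 1) n with h1 | h1
  · rw [Nat.mod_eq_of_lt h1] at h'; omega
  · have e : i.1 + 1 + 1 = n ∨ i.1 + 1 + 1 = n + 1 := by omega
    rcases e with e | e
    · rw [e, Nat.mod_self] at h'; omega
    · rw [e, Nat.add_mod_left, Nat.mod_eq_of_lt (by omega)] at h'; omega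

/-- non-adjacent pairs -/
noncomputable def NA {n : ℕ} : Finset (Fin n × Fin n) :=
  Finset.univ.filter (fun e => e.1 < e.2 ∧ ¬ Adj (nxtPerm n) e.1 e.2)

lemma mem_NA {n : ℕ} (e : Fin n × Fin n) :
    e ∈ NA ↔ e.1 < e.2 ∧ ¬ Adj (nxtPerm n) e.1 e.2 := by
  simp [NA]

lemma card_lt {n : ℕ} :
    2 * ((Finset.univ : Finset (Fin n × Fin n)).filter (fun e => e.1 < e.2)).card + n = n * n := by
  have h1 : ((Finset.univ : Finset (Fin n × Fin n)).filter (fun e => e.2 < e.1)).card =
      ((Finset.univ : Finset (Fin n × Fin n)).filter (fun e => e.1 < e.2)).card := by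
    apply Finset.card_nbij' Prod.swap Prod.swap
    · intro e he; simpa using he
    · intro e he; simpa using he
    · intro e he; simp
    · intro e he; simp
  have h2 : ((Finset.univ : Finset (Fin n × Fin n)).filter (fun e => e.1 = e.2)).card = n := by
    have : (Finset.univ : Finset (Fin n × Fin n)).filter (fun e => e.1 = e.2) =
        (Finset.univ : Finset (Fin n)).image (fun i => (i, i)) := by
      ext ⟨a, b⟩
      simp [eq_comm]
    rw [this, Finset.card_image_of_injective _ (fun a b h => (Prod.mk.inj h).1)]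
    simp
  have h3 := Finset.card_filter_add_card_filter_not (s := (Finset.univ : Finset (Fin n × Fin n)))
    (fun e => e.1 < e.2)
  have h4 := Finset.card_filter_add_card_filter_not
    (s := (Finset.univ : Finset (Fin n × Fin n)).filter (fun e => ¬ e.1 < e.2))
    (fun e => e.2 < e.1)
  have h5 : ((Finset.univ : Finset (Fin n × Fin n)).filter (fun e => ¬ e.1 < e.2)).filter
      (fun e => e.2 < e.1) = (Finset.univ : Finset (Fin n × Fin n)).filter
      (fun e => e.2 < e.1) := by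
    ext ⟨a, b⟩
    simp only [Finset.mem_filter, Finset.mem_univ, true_and]
    constructor
    · rintro ⟨-, h⟩; exact h
    · intro h; exact ⟨not_lt.2 h.le, h⟩
  have h6 : ((Finset.univ : Finset (Fin n × Fin n)).filter (fun e => ¬ e.1 < e.2)).filter
      (fun e => ¬ e.2 < e.1) = (Finset.univ : Finset (Fin n × Fin n)).filter
      (fun e => e.1 = e.2) := by
    ext ⟨a, b⟩
    simp only [Finset.mem_filter, Finset.mem_univ, true_and]
    constructor
    · rintro ⟨h, h'⟩; exact le_antisymm (not_lt.1 h') (not_lt.1 h)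
    · intro h; exact ⟨not_lt.2 h.ge, not_lt.2 h.le⟩
  rw [h5, h6, h1, h2] at h4
  have h7 : (Finset.univ : Finset (Fin n × Fin n)).card = n * n := by
    rw [Finset.card_univ, Fintype.card_prod, Fintype.card_fin]
  rw [h7] at h3
  omega

lemma card_adj {n : ℕ} (hn : 3 ≤ n) :
    ((Finset.univ : Finset (Fin n × Fin n)).filter
      (fun e => e.1 < e.2 ∧ Adj (nxtPerm n) e.1 e.2)).card = n := by
  set g : Fin n → Fin n × Fin n := fun i => if i < nxt i then (i, nxt i) else (nxt i, i) with hg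
  have hgc : ∀ i, g i = (i, nxt i) ∨ g i = (nxt i, i) := by
    intro i
    simp only [hg]
    split_ifs
    · left; rfl
    · right; rfl
  have hglt : ∀ i, (g i).1 < (g i).2 := by
    intro i
    simp only [hg]
    split_ifs with h
    · exact h
    · exact lt_of_le_of_ne (not_lt.1 h) (nxt_ne hn i)
  have hinj : Function.Injective g := by
    intro i j hij
    rcases hgc i with e | e <;> rcases hgc j with e' | e' <;> rw [e, e'] at hij
    · exact (Prod.mk.inj hij).1
    · exfalso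
      obtain ⟨a1, a2⟩ := Prod.mk.inj hij
      rw [a1] at a2
      exact nxt_ne2 hn j a2
    · exfalso
      obtain ⟨a1, a2⟩ := Prod.mk.inj hij
      rw [← a1] at a2
      exact nxt_ne2 hn i a2.symm
    · exact (Prod.mk.inj hij).2
  have : (Finset.univ : Finset (Fin n × Fin n)).filter
      (fun e => e.1 < e.2 ∧ Adj (nxtPerm n) e.1 e.2) = (Finset.univ : Finset (Fin n)).image g := by
    ext ⟨a, b⟩
    simp only [Finset.mem_filter, Finset.mem_univ, true_and, Finset.mem_image]
    constructor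
    · rintro ⟨hlt, h | h⟩
      · refine ⟨a, ?_⟩
        rw [nxtPerm_apply] at h
        simp only [hg]
        rw [← h, if_pos hlt]
      · refine ⟨b, ?_⟩
        rw [nxtPerm_apply] at h
        simp only [hg]
        rw [← h, if_neg (not_lt.2 hlt.le)]
    · rintro ⟨i, hi⟩
      have h1 := hglt i
      rw [hi] at h1
      refine ⟨h1, ?_⟩
      rcases hgc i with e | e <;> rw [hi] at e
      · obtain ⟨rfl, rfl⟩ := Prod.mk.inj e
        left; rfl
      · obtain ⟨rfl, rfl⟩ := Prod.mk.inj e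
        right; rfl
  rw [this, Finset.card_image_of_injective _ hinj, Finset.card_univ, Fintype.card_fin]

lemma card_NA {n : ℕ} (hn : 3 ≤ n) : 2 * (NA (n := n)).card + 3 * n = n * n := by
  have h1 := card_lt (n := n)
  have h2 := card_adj hn
  have h3 := Finset.card_filter_add_card_filter_not
    (s := (Finset.univ : Finset (Fin n × Fin n)).filter (fun e => e.1 < e.2))
    (fun e => Adj (nxtPerm n) e.1 e.2)
  rw [Finset.filter_filter, Finset.filter_filter, h2] at h3
  have : (NA (n := n)).card = ((Finset.univ : Finset (Fin n × Fin n)).filter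
    (fun e => e.1 < e.2 ∧ ¬ Adj (nxtPerm n) e.1 e.2)).card := rfl
  omega

end Pool.Agent.Helper18.Diag
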