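import Pool.Agent.Helper18.DiagEx

namespace Pool.Agent.Helper18.Diag

open Classical DiagDefs

lemma qq_vis {n : ℕ} {i j : ℕ} (hij : i < j) (hj : j < n) (h1 : j ≠ i + 1)
    (h2 : ¬ (i = 0 ∧ j + 1 = n))
    (c1 : ∀ k, k < n → ¬ Btw (qq i) (qq j) (qq k))
    (c2 : ∀ k z, k + 1 < n → Btw (qq k) (qq (k + 1)) z → ¬ Btw (qq i) (qq j) z) :
    (i = 0 ∧ (j % 2 = 1 ∨ j + 2 = n)) ∨ (1 ≤ i ∧ j = i + 2) := by
  rcases Nat.eq_zero_or_pos i with i0 | i0
  · left
    refine ⟨i0, ?_⟩
    subst i0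
    by_contra hcon
    push Not at hcon
    have hj2 : j % 2 = 0 := by omega
    have hjn : j + 2 < n := by omega
    refine c2 (j + 1) (3 * ((j : ℝ) + 1) / 5, 1 / 5) (by omega) ?_ ?_
    · rw [qq_odd (show (j + 1) % 2 = 1 by omega),
        qq_even (by omega) (show (j + 1 + 1) % 2 = 0 by omega)]
      refine ⟨1 / 5, by norm_num, by norm_num, ?_, ?_⟩
      · simp only; push_cast; ring
      · simp only; ring
    · rw [qq_zero, qq_even (by omega) hj2]
      refine ⟨3 / 5, by norm_num, by norm_num, ?_, ?_⟩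
      · simp only; ring
      · simp only; ring
  · right
    refine ⟨i0, ?_⟩
    by_contra hcon
    have hge : i + 3 ≤ j := by omega
    have hgeR : (i : ℝ) + 3 ≤ j := by exact_mod_cast hge
    have hd : (j : ℝ) - i ≠ 0 := by linarith
    rcases Nat.mod_two_eq_zero_or_one i with hi2 | hi2 <;>
      rcases Nat.mod_two_eq_zero_or_one j with hj2 | hj2
    · apply c1 (i + 2) (by omega)
      rw [qq_even (by omega) hi2, qq_even (by omega) hj2,
        qq_even (by omega) (show (i + 2) % 2 = 0 by omega)]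
      refine ⟨2 / ((j : ℝ) - i), ?_, ?_, ?_, ?_⟩
      · apply div_pos <;> linarith
      · rw [div_lt_one] <;> linarith
      · simp only; push_cast; field_simp; ring
      · simp only; ring
    · refine c2 (i + 1) ((i : ℝ) / 2 + ((j : ℝ) - 1 - i) / ((j : ℝ) + 3 - i) * ((i : ℝ) + 3 - i / 2),
        ((j : ℝ) - 1 - i) / ((j : ℝ) + 3 - i)) (by omega) ?_ ?_
      · rw [qq_odd (show (i + 1) % 2 = 1 by omega),
          qq_even (by omega) (show (i + 1 + 1) % 2 = 0 by omega)]
        refine ⟨((j : ℝ) - 1 - i) / ((j : ℝ) + 3 - i), ?_, ?_, ?_, ?_⟩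
        · apply div_pos <;> linarith
        · rw [div_lt_one] <;> linarith
        · simp only; push_cast; ring
        · simp only; ring
      · rw [qq_even (by omega) hi2, qq_odd hj2]
        have hd3 : (j : ℝ) + 3 - i ≠ 0 := by linarith
        refine ⟨4 / ((j : ℝ) + 3 - i), ?_, ?_, ?_, ?_⟩
        · apply div_pos <;> linarith
        · rw [div_lt_one] <;> linarith
        · simp only; field_simp; ring
        · simp only; field_simp; ring
    · refine c2 (i + 1) (((i : ℝ) + 1) / 2 + 1 / ((j : ℝ) - i) * ((i : ℝ) + 2 - ((i : ℝ) + 1) / 2),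
        1 / ((j : ℝ) - i)) (by omega) ?_ ?_
      · rw [qq_even (by omega) (show (i + 1) % 2 = 0 by omega),
          qq_odd (show (i + 1 + 1) % 2 = 1 by omega)]
        refine ⟨1 - 1 / ((j : ℝ) - i), ?_, ?_, ?_, ?_⟩
        · have : 1 / ((j : ℝ) - i) < 1 := by rw [div_lt_one] <;> linarith
          linarith
        · have : 0 < 1 / ((j : ℝ) - i) := by apply div_pos <;> linarith
          linarith
        · simp only; push_cast; ring
        · simp only; ring
      · rw [qq_odd hi2, qq_even (by omega) hj2]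
        refine ⟨1 / ((j : ℝ) - i), ?_, ?_, ?_, ?_⟩
        · apply div_pos <;> linarith
        · rw [div_lt_one] <;> linarith
        · simp only; field_simp; ring
        · simp only; ring
    · apply c1 (i + 2) (by omega)
      rw [qq_odd hi2, qq_odd hj2, qq_odd (show (i + 2) % 2 = 1 by omega)]
      refine ⟨2 / ((j : ℝ) - i), ?_, ?_, ?_, ?_⟩
      · apply div_pos <;> linarith
      · rw [div_lt_one] <;> linarith
      · simp only; push_cast; field_simp; ring
      · simp only; ring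

/-- membership in `vis` in terms of naturals -/
lemma vis_nat {n : ℕ} (q : ℕ → ℝ × ℝ) {e : Fin n × Fin n}
    (he : e ∈ vis (fun i => pt (toV n q i)) (nxtPerm n)) :
    e.1.1 < e.2.1 ∧ e.2.1 ≠ e.1.1 + 1 ∧ ¬ (e.1.1 = 0 ∧ e.2.1 + 1 = n) ∧
    (∀ k, k < n → ¬ Btw (q e.1) (q e.2) (q k)) ∧
    (∀ k z, k + 1 < n → Btw (q k) (q (k + 1)) z → ¬ Btw (q e.1) (q e.2) z) := by
  rw [mem_vis] at he
  obtain ⟨h1, h2, h3, h4⟩ := he
  simp only [pt_toV] at h3 h4
  have hlt : e.1.1 < e.2.1 := h1
  have hj := e.2.2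
  refine ⟨hlt, ?_, ?_, ?_, ?_⟩
  · intro h
    apply h2
    left
    rw [nxtPerm_apply]
    apply Fin.ext
    simp only [nxt]
    rw [Nat.mod_eq_of_lt (by omega)]; exact h
  · rintro ⟨g1, g2⟩
    apply h2
    right
    rw [nxtPerm_apply]
    apply Fin.ext
    simp only [nxt]
    rw [g2, Nat.mod_self]; exact g1
  · intro k hk
    exact h3 ⟨k, hk⟩
  · intro k z hk hz
    apply h4 ⟨k, by omega⟩ z
    have : (nxtPerm n ⟨k, by omega⟩ : Fin n).1 = k + 1 := by
      rw [nxtPerm_apply]; simp only [nxt]; rw [Nat.mod_eq_of_lt hk]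
    rw [this]; exact hz

lemma qq_card {n : ℕ} (hn : 4 ≤ n) :
    (vis (fun i => pt (toV n qq i)) (nxtPerm n)).card + n % 2 ≤ (n - 3) + (n - 3) / 2 + 1 := by
  set S1 : Finset (ℕ × ℕ) := (Finset.range (n - 3)).image (fun k => (k + 1, k + 3)) with hS1
  set S2 : Finset (ℕ × ℕ) := (Finset.range ((n - 3) / 2)).image (fun t => (0, 2 * t + 3)) with hS2
  set S3 : Finset (ℕ × ℕ) := if n % 2 = 0 then {(0, n - 2)} else ∅ with hS3
  have h3 : S3.card + n % 2 = 1 := by
    rw [hS3]
    split_ifs with h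
    · simp [h]
    · simp; omega
  have h1 : S1.card ≤ n - 3 := by
    calc _ ≤ _ := Finset.card_image_le
      _ = _ := Finset.card_range _
  have h2 : S2.card ≤ (n - 3) / 2 := by
    calc _ ≤ _ := Finset.card_image_le
      _ = _ := Finset.card_range _
  have h4 : (vis (fun i => pt (toV n qq i)) (nxtPerm n)).card ≤ (S1 ∪ S2 ∪ S3).card := by
    apply Finset.card_le_card_of_injOn (fun e => (e.1.1, e.2.1))
    · intro e he
      simp only [Finset.mem_coe] at he ⊢
      obtain ⟨a1, a2, a3, a4, a5⟩ := vis_nat qq he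
      have hj := e.2.2
      rcases qq_vis a1 e.2.2 a2 a3 a4 a5 with ⟨b1, b2⟩ | ⟨b1, b2⟩
      · by_cases hodd : e.2.1 % 2 = 1
        · apply Finset.mem_union_left
          apply Finset.mem_union_right
          rw [hS2, Finset.mem_image]
          refine ⟨(e.2.1 - 3) / 2, ?_, ?_⟩
          · rw [Finset.mem_range]; omega
          · ext
            · simp [b1]
            · simp only; omega
        · apply Finset.mem_union_right
          rw [hS3, if_pos (by omega), Finset.mem_singleton]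
          ext
          · simp [b1]
          · simp only; omega
      · apply Finset.mem_union_left
        apply Finset.mem_union_left
        rw [hS1, Finset.mem_image]
        refine ⟨e.1.1 - 1, ?_, ?_⟩
        · rw [Finset.mem_range]; omega
        · ext
          · simp only; omega
          · simp only; omega
    · intro e _ e' _ h
      obtain ⟨h1, h2⟩ := Prod.mk.inj h
      exact Prod.ext (Fin.ext h1) (Fin.ext h2)
  have h5 := Finset.card_union_le (S1 ∪ S2) S3
  have h6 := Finset.card_union_le S1 S2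
  omega

theorem lower_genuine {n : ℕ} (hn : 4 ≤ n) : (n - 3) ^ 2 / 2 ≤ mixedCount (toV n qq) := by
  have h1 := qq_card hn
  have h2 := mixedCount_eq (toV n qq)
  have h3 := card_NA (n := n) (by omega)
  obtain ⟨m, rfl⟩ : ∃ m, n = m + 3 := ⟨n - 3, by omega⟩
  simp only [Nat.add_sub_cancel] at h1 ⊢
  have h4 : m ^ 2 ≤ 2 * mixedCount (toV (m + 3) qq) + 1 := by
    have e1 : (m + 3) * (m + 3) = m ^ 2 + 6 * m + 9 := by ring
    rw [e1] at h3
    omega
  omega

/-- the extremal polygon when straight angles are allowed -/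
noncomputable def rr (n m : ℕ) : ℝ × ℝ := if m + 1 = n then (0, 1) else ((m : ℝ), 0)

lemma rr_last {n m : ℕ} (h : m + 1 = n) : rr n m = (0, 1) := by simp [rr, h]

lemma rr_lt {n m : ℕ} (h : m + 1 < n) : rr n m = ((m : ℝ), 0) := by
  simp [rr, h.ne]

lemma rr_hor {n m : ℕ} (h : m + 1 + 1 < n) {z : ℝ × ℝ} (hz : Seg (rr n m) (rr n (m + 1)) z) :
    z.2 = 0 ∧ (m : ℝ) ≤ z.1 ∧ z.1 ≤ m + 1 := by
  obtain ⟨t, t0, t1, tx, ty⟩ := hz
  rw [rr_lt (by omega), rr_lt h] at tx ty
  simp only at tx ty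
  push_cast at tx
  exact ⟨by rw [ty]; ring, by linarith, by linarith⟩

lemma rr_sl {n m : ℕ} (h : m + 1 + 1 = n) {z : ℝ × ℝ} (hz : Seg (rr n m) (rr n (m + 1)) z) :
    0 ≤ z.2 ∧ z.2 ≤ 1 ∧ z.1 = (1 - z.2) * m := by
  obtain ⟨t, t0, t1, tx, ty⟩ := hz
  rw [rr_lt (by omega), rr_last h] at tx ty
  simp only at tx ty
  have e : z.2 = t := by rw [ty]; ring
  exact ⟨by rw [e]; exact t0, by rw [e]; exact t1, by rw [tx, e]; ring⟩

lemma rr_ve {n m : ℕ} (hn : 4 ≤ n) (h : m + 1 = n) {z : ℝ × ℝ}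
    (hz : Seg (rr n m) (rr n 0) z) : z.1 = 0 ∧ 0 ≤ z.2 ∧ z.2 ≤ 1 := by
  obtain ⟨t, t0, t1, tx, ty⟩ := hz
  rw [rr_last h, rr_lt (show 0 + 1 < n by omega)] at tx ty
  simp only [Nat.cast_zero] at tx ty
  exact ⟨by rw [tx]; ring, by linarith, by linarith⟩

lemma rr_simple {n : ℕ} (hn : 4 ≤ n) : IsSimplePolygon (toV n (rr n)) := by
  apply mk_simple
  · intro i j hi hj h
    rcases Nat.lt_or_ge (i + 1) n with hi1 | hi1 <;> rcases Nat.lt_or_ge (j + 1) n with hj1 | hj1
    · rw [rr_lt hi1, rr_lt hj1] at h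
      have := (Prod.mk.inj h).1
      exact_mod_cast this
    · rw [rr_lt hi1, rr_last (by omega)] at h
      have := (Prod.mk.inj h).2
      norm_num at this
    · rw [rr_last (by omega), rr_lt hj1] at h
      have := (Prod.mk.inj h).2
      norm_num at this
    · omega
  · intro i j z hij hj hne hcl h1 h2
    rw [Nat.mod_eq_of_lt (show i + 1 < n by omega)] at h1
    have hji : (i : ℝ) + 2 ≤ j := by
      have : i + 2 ≤ j := by omega
      exact_mod_cast this
    obtain ⟨a1, a2, a3⟩ := rr_hor (by omega) h1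
    rcases Nat.lt_or_ge (j + 1) n with hj1 | hj1
    · rw [Nat.mod_eq_of_lt hj1] at h2
      rcases Nat.lt_or_ge (j + 1 + 1) n with hj2 | hj2
      · obtain ⟨b1, b2, b3⟩ := rr_hor hj2 h2
        linarith
      · obtain ⟨b1, b2, b3⟩ := rr_sl (by omega) h2
        rw [a1] at b3
        linarith
    · have hjn : j + 1 = n := by omega
      rw [hjn, Nat.mod_self] at h2
      obtain ⟨b1, b2, b3⟩ := rr_ve hn hjn h2
      have i1 : (1 : ℝ) ≤ i := by
        have : 1 ≤ i := by
          rcases Nat.eq_zero_or_pos i with h0 | h0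
          · exact absurd ⟨h0, hjn⟩ hcl
          · exact h0
        exact_mod_cast this
      linarith
  · intro i z hi h1 h2
    rcases Nat.lt_or_ge (i + 1) n with hi1 | hi1
    · rw [Nat.mod_eq_of_lt hi1] at h1 h2 ⊢
      rcases Nat.lt_or_ge (i + 1 + 1) n with hi2 | hi2
      · rw [Nat.mod_eq_of_lt hi2] at h2
        obtain ⟨a1, a2, a3⟩ := rr_hor hi2 h1
        rw [rr_lt hi2]
        rcases Nat.lt_or_ge (i + 1 + 1 + 1) n with hi3 | hi3
        · obtain ⟨b1, b2, b3⟩ := rr_hor hi3 h2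
          push_cast at b2 ⊢
          exact Prod.ext (le_antisymm a3 b2) a1
        · obtain ⟨b1, b2, b3⟩ := rr_sl (by omega) h2
          rw [a1] at b3
          refine Prod.ext ?_ a1
          rw [b3]; ring
      · have hin : i + 1 + 1 = n := by omega
        rw [hin, Nat.mod_self] at h2
        obtain ⟨a1, a2, a3⟩ := rr_sl hin h1
        obtain ⟨b1, b2, b3⟩ := rr_ve hn hin h2
        rw [rr_last hin]
        rw [b1] at a3
        have i1 : (1 : ℝ) ≤ i := by
          have : 1 ≤ i := by omega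
          exact_mod_cast this
        rcases mul_eq_zero.1 a3.symm with h' | h'
        · exact Prod.ext b1 (by linarith)
        · linarith
    · have hin : i + 1 = n := by omega
      have e0 : (i + 1) % n = 0 := by rw [hin, Nat.mod_self]
      rw [e0] at h1 h2 ⊢
      rw [Nat.mod_eq_of_lt (show 0 + 1 < n by omega)] at h2
      obtain ⟨a1, a2, a3⟩ := rr_ve hn hin h1
      obtain ⟨b1, b2, b3⟩ := rr_hor (show 0 + 1 + 1 < n by omega) h2
      rw [rr_lt (show 0 + 1 < n by omega)]
      exact Prod.ext (by rw [a1]; simp) b1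

lemma rr_card {n : ℕ} (hn : 4 ≤ n) :
    (vis (fun i => pt (toV n (rr n) i)) (nxtPerm n)).card ≤ n - 3 := by
  set S1 : Finset (ℕ × ℕ) := (Finset.range (n - 3)).image (fun k => (k + 1, n - 1)) with hS1
  have h1 : S1.card ≤ n - 3 := by
    calc _ ≤ _ := Finset.card_image_le
      _ = _ := Finset.card_range _
  refine le_trans ?_ h1
  apply Finset.card_le_card_of_injOn (fun e => (e.1.1, e.2.1))
  · intro e he
    simp only [Finset.mem_coe] at he ⊢
    obtain ⟨a1, a2, a3, a4, a5⟩ := vis_nat (rr n) he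
    have hj := e.2.2
    rcases Nat.lt_or_ge (e.2.1 + 1) n with hj1 | hj1
    · exfalso
      apply a4 (e.1.1 + 1) (by omega)
      rw [rr_lt (show e.1.1 + 1 < n by omega), rr_lt hj1, rr_lt (show e.1.1 + 1 + 1 < n by omega)]
      have hji : (e.1.1 : ℝ) + 2 ≤ (e.2.1 : ℝ) := by
        have : e.1.1 + 2 ≤ e.2.1 := by omega
        exact_mod_cast this
      have hd : (e.2.1 : ℝ) - (e.1.1 : ℝ) ≠ 0 := by linarith
      refine ⟨1 / ((e.2.1 : ℝ) - (e.1.1 : ℝ)), ?_, ?_, ?_, ?_⟩
      · apply div_pos <;> linarith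
      · rw [div_lt_one] <;> linarith
      · simp only; push_cast; field_simp
      · simp only; ring
    · rw [hS1, Finset.mem_image]
      refine ⟨e.1.1 - 1, ?_, ?_⟩
      · rw [Finset.mem_range]; omega
      · ext
        · simp only; omega
        · simp only; omega
  · intro e _ e' _ h
    obtain ⟨h1, h2⟩ := Prod.mk.inj h
    exact Prod.ext (Fin.ext h1) (Fin.ext h2)

theorem lower_straight {n : ℕ} (hn : 4 ≤ n) :
    (n - 2) * (n - 3) / 2 ≤ mixedCount (toV n (rr n)) := by
  have h1 := rr_card hn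
  have h2 := mixedCount_eq (toV n (rr n))
  have h3 := card_NA (n := n) (by omega)
  obtain ⟨m, rfl⟩ : ∃ m, n = m + 3 := ⟨n - 3, by omega⟩
  simp only [Nat.add_sub_cancel, show m + 3 - 2 = m + 1 by omega] at h1 ⊢
  have h4 : (m + 1) * m ≤ 2 * mixedCount (toV (m + 3) (rr (m + 3))) := by
    have e1 : (m + 3) * (m + 3) = m * m + 6 * m + 9 := by ring
    have e2 : (m + 1) * m = m * m + m := by ring
    rw [e1] at h3
    rw [e2]
    omega
  omega

theorem main (n : ℕ) (hn : 4 ≤ n) :
    IsGreatest {m : ℕ | ∃ v : Fin n → Plane, IsSimplePolygon v ∧ GenuineCorners v ∧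
      mixedCount v = m} ((n - 3) ^ 2 / 2) ∧
    IsGreatest {m : ℕ | ∃ v : Fin n → Plane, IsSimplePolygon v ∧ mixedCount v = m}
      ((n - 2) * (n - 3) / 2) := by
  refine ⟨⟨⟨toV n qq, qq_simple hn, qq_genuine hn, ?_⟩, ?_⟩,
    ⟨⟨toV n (rr n), rr_simple hn, ?_⟩, ?_⟩⟩
  · exact le_antisymm (upper_genuine hn (qq_simple hn) (qq_genuine hn)) (lower_genuine hn)
  · rintro m ⟨v, h1, h2, rfl⟩
    exact upper_genuine hn h1 h2
  · exact le_antisymm (upper_straight hn (rr_simple hn)) (lower_straight hn)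
  · rintro m ⟨v, h1, rfl⟩
    exact upper_straight hn h1

end Pool.Agent.Helper18.Diag
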