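import Pool.Agent.Helper18.DiagHull

namespace Pool.Agent.Helper18.Diag

variable {ι : Type} {P : ι → ℝ × ℝ} {T : ι → ι → Prop}

lemma inTri {a b c w z : ℝ × ℝ} (hD : 0 < cr a b c) (hw : Btw a b w) (hz : Btw c w z) :
    0 < cr a b z ∧ 0 < cr b c z ∧ 0 < cr c a z := by
  obtain ⟨u, u0, u1, ux, uy⟩ := hw
  obtain ⟨t, t0, t1, tx, ty⟩ := hz
  have e1 : cr a b w = 0 := by rw [cr_lin ux uy, cr_self, cr_self']; ring
  have e2 : cr b c w = (1 - u) * cr a b c := by
    rw [cr_lin ux uy, cr_self, cr_cyc a b c]; ring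
  have e3 : cr c a w = u * cr a b c := by
    rw [cr_lin ux uy, cr_self', ← cr_cyc c a b, ← cr_cyc a b c]; ring
  refine ⟨?_, ?_, ?_⟩
  · rw [cr_lin tx ty, e1]
    have := mul_pos (show 0 < 1 - t by linarith) hD
    linarith
  · rw [cr_lin tx ty, e2, cr_self']
    have := mul_pos t0 (mul_pos (show 0 < 1 - u by linarith) hD)
    linarith
  · rw [cr_lin tx ty, e3, cr_self]
    have := mul_pos t0 (mul_pos u0 hD)
    linarith

lemma btw_split {c d w z : ℝ × ℝ} (hz : Btw c d z) (hw : Btw c d w) :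
    Btw c w z ∨ z = w ∨ Btw d w z := by
  obtain ⟨t, t0, t1, tx, ty⟩ := hz
  obtain ⟨s, s0, s1, sx, sy⟩ := hw
  rcases lt_trichotomy t s with hlt | heq | hgt
  · left
    refine ⟨t / s, by positivity, by rw [div_lt_one s0]; exact hlt, ?_, ?_⟩
    · rw [tx, sx]; field_simp; ring
    · rw [ty, sy]; field_simp; ring
  · right; left
    subst heq
    exact Prod.ext (by rw [tx, sx]) (by rw [ty, sy])
  · right; right
    have h1 : 1 - s ≠ 0 := by linarith
    refine ⟨(1 - t) / (1 - s), ?_, ?_, ?_, ?_⟩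
    · apply div_pos <;> linarith
    · rw [div_lt_one] <;> linarith
    · rw [tx, sx]; field_simp; ring
    · rw [ty, sy]; field_simp; ring

lemma Pl.flip (h : Pl P T) {a b c d : ι} {w : ℝ × ℝ} (t1 : Tri P T a b c) (t2 : Tri P T b a d)
    (hw1 : Btw (P a) (P b) w) (hw2 : Btw (P c) (P d) w) :
    (∀ k, ¬ Btw (P c) (P d) (P k)) ∧
      (∀ p q z, T p q → Btw (P p) (P q) z → Btw (P c) (P d) z →
        (p = a ∧ q = b) ∨ (p = b ∧ q = a)) := by
  constructor
  · intro k hk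
    rcases btw_split hk hw2 with h1 | h1 | h1
    · obtain ⟨e1, e2, e3⟩ := inTri t1.pos hw1 h1
      rcases t1.empty k e1.le e2.le e3.le with rfl | rfl | rfl
      · rw [cr_self] at e1; exact lt_irrefl _ e1
      · rw [cr_self'] at e1; exact lt_irrefl _ e1
      · rw [cr_self'] at e2; exact lt_irrefl _ e2
    · exact h.clean a b t1.ab k (h1 ▸ hw1)
    · obtain ⟨e1, e2, e3⟩ := inTri t2.pos hw1.symm h1
      rcases t2.empty k e1.le e2.le e3.le with rfl | rfl | rfl
      · rw [cr_self] at e1; exact lt_irrefl _ e1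
      · rw [cr_self'] at e1; exact lt_irrefl _ e1
      · rw [cr_self'] at e2; exact lt_irrefl _ e2
  · intro p q z hpq hz hz2
    rcases btw_split hz2 hw2 with h1 | h1 | h1
    · obtain ⟨e1, e2, e3⟩ := inTri t1.pos hw1 h1
      exact (h.tri_int t1 hpq hz e1 e2 e3).elim
    · subst h1
      exact h.disj p q a b z hpq t1.ab hz hw1
    · obtain ⟨e1, e2, e3⟩ := inTri t2.pos hw1.symm h1
      exact (h.tri_int t2 hpq hz e1 e2 e3).elim

/-- the edge `a b` cannot be flipped because of its endpoint `a` -/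
def Ch (P : ι → ℝ × ℝ) (T : ι → ι → Prop) (a b : ι) : Prop :=
  ∃ c d, ∃ w : ℝ × ℝ, ∃ s : ℝ, Tri P T a b c ∧ Tri P T b a d ∧ Btw (P c) (P d) w ∧ 0 ≤ s ∧
    w.1 = (P a).1 - s * ((P b).1 - (P a).1) ∧ w.2 = (P a).2 - s * ((P b).2 - (P a).2)

lemma flip_or_ch {a b c d : ι} (hne : P a ≠ P b) (t1 : Tri P T a b c) (t2 : Tri P T b a d) :
    (∃ w, Btw (P a) (P b) w ∧ Btw (P c) (P d) w) ∨ Ch P T a b ∨ Ch P T b a := by
  have h1 := t1.pos
  have h2 := t2.pos
  rw [cr_swap] at h2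
  set D1 := cr (P a) (P b) (P c) with hD1
  set D2 := -cr (P a) (P b) (P d) with hD2
  set l := D1 / (D1 + D2) with hl
  have l0 : 0 < l := by positivity
  have l1 : l < 1 := by rw [hl, div_lt_one (by linarith)]; linarith
  set w : ℝ × ℝ := ((P c).1 + l * ((P d).1 - (P c).1), (P c).2 + l * ((P d).2 - (P c).2)) with hw
  have w1 : w.1 = (P c).1 + l * ((P d).1 - (P c).1) := rfl
  have w2 : w.2 = (P c).2 + l * ((P d).2 - (P c).2) := rfl
  have hwb : Btw (P c) (P d) w := ⟨l, l0, l1, w1, w2⟩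
  have hw0 : cr (P a) (P b) w = 0 := by
    rw [cr_lin w1 w2, ← hD1, show cr (P a) (P b) (P d) = -D2 by rw [hD2]; ring, hl]
    field_simp
    ring
  obtain ⟨s, s1, s2⟩ := exists_param hne hw0
  by_cases c1 : s ≤ 0
  · right; left
    exact ⟨c, d, w, -s, t1, t2, hwb, by linarith, by rw [s1]; ring, by rw [s2]; ring⟩
  · by_cases c2 : 1 ≤ s
    · right; right
      exact ⟨d, c, w, s - 1, t2, t1, hwb.symm, by linarith, by rw [s1]; ring, by rw [s2]; ring⟩
    · left
      push Not at c1 c2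
      exact ⟨w, ⟨s, c1, c2, s1, s2⟩, hwb⟩

lemma Ch.func (h : Pl P T) {a b : ι} (hc : Ch P T a b) :
    ∃ d, T a d ∧ 0 < cr (P a) (P d) (P b) ∧
      ∀ x, T a x → x ≠ b → cr (P a) (P d) (P x) ≤ 0 := by
  obtain ⟨c, d, w, s, t1, t2, ⟨t, t0, t1', tx, ty⟩, s0, s1, s2⟩ := hc
  have hpos : 0 < cr (P a) (P d) (P b) := by rw [cr_cyc (P b)]; exact t2.pos
  refine ⟨d, t2.bc, hpos, ?_⟩
  intro x hx hxb
  by_contra hcon
  push Not at hcon
  rcases lt_trichotomy (cr (P a) (P x) (P b)) 0 with hlt | heq | hgt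
  · have e1 : cr (P a) (P x) w = - s * cr (P a) (P x) (P b) := by
      unfold cr; rw [s1, s2]; ring
    have e2 : cr (P a) (P x) w = (1 - t) * cr (P a) (P x) (P c) + t * cr (P a) (P x) (P d) :=
      cr_lin tx ty
    have e3 : cr (P a) (P x) (P d) = - cr (P a) (P d) (P x) := cr_swap' _ _ _
    have e4 : 0 < cr (P a) (P x) (P c) := by
      rw [e3] at e2
      by_contra hc2
      push Not at hc2
      have m1 := mul_pos t0 hcon
      have m2 := mul_nonneg s0 (show 0 ≤ - cr (P a) (P x) (P b) by linarith)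
      have m3 := mul_nonneg (show 0 ≤ 1 - t by linarith)
        (show 0 ≤ - cr (P a) (P x) (P c) by linarith)
      linarith
    exact h.cone t1 hx (by rw [cr_swap']; linarith) e4
  · have := h.ray (P d) hx t1.ab heq hcon hpos
    exact hxb this
  · exact h.cone (t2.rot) hx hcon hgt

lemma Pl.ray' (h : Pl P T) {a x y : ι} (hx : T a x) (hy : T a y) {s : ℝ} (hs : 0 < s)
    (s1 : (P y).1 = (P a).1 + s * ((P x).1 - (P a).1))
    (s2 : (P y).2 = (P a).2 + s * ((P x).2 - (P a).2)) : x = y := by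
  rcases lt_trichotomy s 1 with hlt | heq | hgt
  · exact absurd ⟨s, hs, hlt, s1, s2⟩ (h.clean a x hx y)
  · apply h.inj
    subst heq
    ext
    · rw [s1]; ring
    · rw [s2]; ring
  · exfalso
    refine h.clean a y hy x ⟨1 / s, by positivity, ?_, ?_, ?_⟩
    · rw [div_lt_one hs]; exact hgt
    · rw [s1]; field_simp; ring
    · rw [s2]; field_simp; ring

/-- at most two neighbours on a line through `a` -/
lemma Pl.line_two (h : Pl P T) {a x y z : ι} (hx : T a x) (hy : T a y) (hz : T a z)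
    (h1 : cr (P a) (P x) (P y) = 0) (h2 : cr (P a) (P x) (P z) = 0) : x = y ∨ x = z ∨ y = z := by
  have hne : P a ≠ P x := fun e => h.ne _ _ hx (h.inj e)
  obtain ⟨s, s1, s2⟩ := exists_param hne h1
  obtain ⟨t, t1, t2⟩ := exists_param hne h2
  rcases lt_trichotomy s 0 with hs | hs | hs
  · rcases lt_trichotomy t 0 with ht | ht | ht
    · right; right
      have hs' := hs.ne
      refine h.ray' hy hz (s := t / s) (div_pos_of_neg_of_neg ht hs) ?_ ?_
      · rw [t1, s1]; field_simp; ring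
      · rw [t2, s2]; field_simp; ring
    · exfalso
      subst ht
      apply h.ne _ _ hz
      apply h.inj
      ext
      · rw [t1]; ring
      · rw [t2]; ring
    · right; left
      exact h.ray' hx hz ht t1 t2
  · exfalso
    subst hs
    apply h.ne _ _ hy
    apply h.inj
    ext
    · rw [s1]; ring
    · rw [s2]; ring
  · left
    exact h.ray' hx hy hs s1 s2

lemma sign_aux {c1 c2 c3 f11 f21 f31 f12 f22 f32 f13 f23 f33 : ℝ}
    (E1 : c1 * f11 + c2 * f21 + c3 * f31 = 0) (E2 : c1 * f12 + c2 * f22 + c3 * f32 = 0)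
    (E3 : c1 * f13 + c2 * f23 + c3 * f33 = 0)
    (p1 : 0 < f11) (p2 : 0 < f22) (p3 : 0 < f33)
    (n21 : f21 ≤ 0) (n31 : f31 ≤ 0) (n12 : f12 ≤ 0) (n32 : f32 ≤ 0) (n13 : f13 ≤ 0)
    (n23 : f23 ≤ 0) : (0 ≤ c1 ∧ 0 ≤ c2 ∧ 0 ≤ c3) ∨ (c1 ≤ 0 ∧ c2 ≤ 0 ∧ c3 ≤ 0) := by
  rcases le_or_gt 0 c1 with h1 | h1 <;> rcases le_or_gt 0 c2 with h2 | h2 <;>
    rcases le_or_gt 0 c3 with h3 | h3
  · left; exact ⟨h1, h2, h3⟩
  · exfalso; nlinarith [mul_nonneg h1 (neg_nonneg.2 n13), mul_nonneg h2 (neg_nonneg.2 n23),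
      mul_neg_of_neg_of_pos h3 p3]
  · exfalso; nlinarith [mul_nonneg h1 (neg_nonneg.2 n12), mul_nonneg h3 (neg_nonneg.2 n32),
      mul_neg_of_neg_of_pos h2 p2]
  · rcases h1.lt_or_eq with h1' | h1'
    · exfalso
      nlinarith [mul_pos h1' p1, mul_nonneg_of_nonpos_of_nonpos h2.le n21,
        mul_nonneg_of_nonpos_of_nonpos h3.le n31]
    · right; exact ⟨h1'.ge, h2.le, h3.le⟩
  · exfalso; nlinarith [mul_nonneg h2 (neg_nonneg.2 n21), mul_nonneg h3 (neg_nonneg.2 n31),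
      mul_neg_of_neg_of_pos h1 p1]
  · rcases h2.lt_or_eq with h2' | h2'
    · exfalso
      nlinarith [mul_pos h2' p2, mul_nonneg_of_nonpos_of_nonpos h1.le n12,
        mul_nonneg_of_nonpos_of_nonpos h3.le n32]
    · right; exact ⟨h1.le, h2'.ge, h3.le⟩
  · rcases h3.lt_or_eq with h3' | h3'
    · exfalso
      nlinarith [mul_pos h3' p3, mul_nonneg_of_nonpos_of_nonpos h1.le n13,
        mul_nonneg_of_nonpos_of_nonpos h2.le n23]
    · right; exact ⟨h1.le, h2.le, h3'.ge⟩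
  · right; exact ⟨h1.le, h2.le, h3.le⟩

lemma par {a x y z : ℝ × ℝ} (hx : a ≠ x) (h1 : cr a x y = 0) (h2 : cr a x z = 0) :
    cr a y z = 0 := by
  obtain ⟨s, s1, s2⟩ := exists_param hx h1
  obtain ⟨t, t1, t2⟩ := exists_param hx h2
  unfold cr; rw [s1, s2, t1, t2]; ring

lemma Pl.three_pair (h : Pl P T) {a b3 d1 d2 d3 p q : ι} (hb3 : T a b3)
    (hp : T a p) (hq : T a q) (hd1 : T a d1)
    (hpq : p ≠ q) (hb3p : b3 ≠ p) (hb3q : b3 ≠ q)
    {c1 c2 c3 : ℝ} (hc3 : c3 = cr (P a) (P d1) (P d2))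
    (E : ∀ x, c1 * cr (P a) (P d1) (P x) + c2 * cr (P a) (P d2) (P x) +
      c3 * cr (P a) (P d3) (P x) = 0)
    (s : (0 < c1 ∧ 0 < c2 ∧ 0 ≤ c3) ∨ (c1 < 0 ∧ c2 < 0 ∧ c3 ≤ 0))
    (n13 : cr (P a) (P d1) (P b3) ≤ 0) (n23 : cr (P a) (P d2) (P b3) ≤ 0)
    (n1p : cr (P a) (P d1) (P p) ≤ 0) (n2p : cr (P a) (P d2) (P p) ≤ 0)
    (n3p : cr (P a) (P d3) (P p) ≤ 0)
    (n1q : cr (P a) (P d1) (P q) ≤ 0) (n2q : cr (P a) (P d2) (P q) ≤ 0)
    (n3q : cr (P a) (P d3) (P q) ≤ 0) : False := by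
  have key : ∀ x, cr (P a) (P d1) (P x) ≤ 0 → cr (P a) (P d2) (P x) ≤ 0 →
      cr (P a) (P d3) (P x) ≤ 0 → cr (P a) (P d1) (P x) = 0 ∧ cr (P a) (P d2) (P x) = 0 := by
    intro x x1 x2 x3
    have hE := E x
    rcases s with ⟨s1, s2, s3⟩ | ⟨s1, s2, s3⟩
    · have m1 := mul_nonneg s1.le (neg_nonneg.2 x1)
      have m2 := mul_nonneg s2.le (neg_nonneg.2 x2)
      have m3 := mul_nonneg s3 (neg_nonneg.2 x3)
      have e1 : c1 * cr (P a) (P d1) (P x) = 0 := by linarith
      have e2 : c2 * cr (P a) (P d2) (P x) = 0 := by linarith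
      exact ⟨(mul_eq_zero.1 e1).resolve_left s1.ne', (mul_eq_zero.1 e2).resolve_left s2.ne'⟩
    · have m1 := mul_nonneg_of_nonpos_of_nonpos s1.le x1
      have m2 := mul_nonneg_of_nonpos_of_nonpos s2.le x2
      have m3 := mul_nonneg_of_nonpos_of_nonpos s3 x3
      have e1 : c1 * cr (P a) (P d1) (P x) = 0 := by linarith
      have e2 : c2 * cr (P a) (P d2) (P x) = 0 := by linarith
      exact ⟨(mul_eq_zero.1 e1).resolve_left s1.ne, (mul_eq_zero.1 e2).resolve_left s2.ne⟩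
  obtain ⟨k1, k2⟩ := key p n1p n2p n3p
  obtain ⟨k3, k4⟩ := key q n1q n2q n3q
  have hap : P a ≠ P p := fun e => h.ne _ _ hp (h.inj e)
  have had1 : P a ≠ P d1 := fun e => h.ne _ _ hd1 (h.inj e)
  have z3 : c3 = 0 := by
    rw [hc3]
    exact par hap (by rw [cr_swap']; linarith) (by rw [cr_swap']; linarith)
  have hE := E b3
  rw [z3, zero_mul, add_zero] at hE
  have kb : cr (P a) (P d1) (P b3) = 0 := by
    rcases s with ⟨s1, s2, s3⟩ | ⟨s1, s2, s3⟩
    · have m1 := mul_nonneg s1.le (neg_nonneg.2 n13)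
      have m2 := mul_nonneg s2.le (neg_nonneg.2 n23)
      have e1 : c1 * cr (P a) (P d1) (P b3) = 0 := by linarith
      exact (mul_eq_zero.1 e1).resolve_left s1.ne'
    · have m1 := mul_nonneg_of_nonpos_of_nonpos s1.le n13
      have m2 := mul_nonneg_of_nonpos_of_nonpos s2.le n23
      have e1 : c1 * cr (P a) (P d1) (P b3) = 0 := by linarith
      exact (mul_eq_zero.1 e1).resolve_left s1.ne
  have r1 : cr (P a) (P p) (P q) = 0 := par had1 k1 k3
  have r2 : cr (P a) (P p) (P b3) = 0 := par had1 k1 kb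
  rcases h.line_two hp hq hb3 r1 r2 with e | e | e
  · exact hpq e
  · exact hb3p e.symm
  · exact hb3q e.symm

lemma Pl.three (h : Pl P T) {a b1 b2 b3 p q : ι} (hb1 : T a b1) (hb2 : T a b2) (hb3 : T a b3)
    (hp : T a p) (hq : T a q) (c1 : Ch P T a b1) (c2 : Ch P T a b2) (c3 : Ch P T a b3)
    (h12 : b1 ≠ b2) (h13 : b1 ≠ b3) (h23 : b2 ≠ b3) (h1p : b1 ≠ p) (h2p : b2 ≠ p) (h3p : b3 ≠ p)
    (h1q : b1 ≠ q) (h2q : b2 ≠ q) (h3q : b3 ≠ q) (hpq : p ≠ q) : False := by
  obtain ⟨d1, hd1, p1, f1⟩ := c1.func h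
  obtain ⟨d2, hd2, p2, f2⟩ := c2.func h
  obtain ⟨d3, hd3, p3, f3⟩ := c3.func h
  set k1 := cr (P a) (P d2) (P d3) with hk1
  set k2 := cr (P a) (P d3) (P d1) with hk2
  set k3 := cr (P a) (P d1) (P d2) with hk3
  have E : ∀ x, k1 * cr (P a) (P d1) (P x) + k2 * cr (P a) (P d2) (P x) +
      k3 * cr (P a) (P d3) (P x) = 0 := by
    intro x
    rw [hk1, hk2, hk3]; unfold cr; ring
  have s := sign_aux (E b1) (E b2) (E b3) p1 p2 p3 (f2 b1 hb1 h12) (f3 b1 hb1 h13)
    (f1 b2 hb2 h12.symm) (f3 b2 hb2 h23) (f1 b3 hb3 h13.symm) (f2 b3 hb3 h23.symm)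
  by_cases z1 : k1 = 0
  · by_cases z2 : k2 = 0
    · by_cases z3 : k3 = 0
      · -- all parallel
        have r1 : cr (P a) (P d1) (P d2) = 0 := z3
        have r2 : cr (P a) (P d1) (P d3) = 0 := by rw [cr_swap', ← hk2, z2]; ring
        rcases h.line_two hd1 hd2 hd3 r1 r2 with e | e | e
        · subst e; linarith [f2 b1 hb1 h12]
        · subst e; linarith [f3 b1 hb1 h13]
        · subst e; linarith [f3 b2 hb2 h23]
      · have := E b3
        rw [z1, z2, zero_mul, zero_mul, zero_add, zero_add] at this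
        rcases mul_eq_zero.1 this with h' | h'
        · exact z3 h'
        · linarith
    · by_cases z3 : k3 = 0
      · have := E b2
        rw [z1, z3, zero_mul, zero_mul, zero_add, add_zero] at this
        rcases mul_eq_zero.1 this with h' | h'
        · exact z2 h'
        · linarith
      · -- pair (2,3)
        refine h.three_pair (a := a) (b3 := b1) (d1 := d2) (d2 := d3)
          (d3 := d1) (p := p) (q := q) hb1 hp hq hd2 hpq h1p h1q (c1 := k2) (c2 := k3)
          (c3 := k1) hk1 (fun x => by linarith [E x]) ?_ (f2 b1 hb1 h12) (f3 b1 hb1 h13)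
          (f2 p hp h2p.symm) (f3 p hp h3p.symm) (f1 p hp h1p.symm)
          (f2 q hq h2q.symm) (f3 q hq h3q.symm) (f1 q hq h1q.symm)
        rcases s with ⟨s1, s2, s3⟩ | ⟨s1, s2, s3⟩
        · left; exact ⟨lt_of_le_of_ne s2 (Ne.symm z2), lt_of_le_of_ne s3 (Ne.symm z3), s1⟩
        · right; exact ⟨lt_of_le_of_ne s2 z2, lt_of_le_of_ne s3 z3, s1⟩
  · by_cases z2 : k2 = 0
    · by_cases z3 : k3 = 0
      · have := E b1
        rw [z2, z3, zero_mul, zero_mul, add_zero, add_zero] at this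
        rcases mul_eq_zero.1 this with h' | h'
        · exact z1 h'
        · linarith
      · -- pair (3,1)
        refine h.three_pair (a := a) (b3 := b2) (d1 := d3) (d2 := d1)
          (d3 := d2) (p := p) (q := q) hb2 hp hq hd3 hpq h2p h2q (c1 := k3) (c2 := k1)
          (c3 := k2) hk2 (fun x => by linarith [E x]) ?_ (f3 b2 hb2 h23) (f1 b2 hb2 h12.symm)
          (f3 p hp h3p.symm) (f1 p hp h1p.symm) (f2 p hp h2p.symm)
          (f3 q hq h3q.symm) (f1 q hq h1q.symm) (f2 q hq h2q.symm)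
        rcases s with ⟨s1, s2, s3⟩ | ⟨s1, s2, s3⟩
        · left; exact ⟨lt_of_le_of_ne s3 (Ne.symm z3), lt_of_le_of_ne s1 (Ne.symm z1), s2⟩
        · right; exact ⟨lt_of_le_of_ne s3 z3, lt_of_le_of_ne s1 z1, s2⟩
    · -- pair (1,2)
      refine h.three_pair (a := a) (b3 := b3) (d1 := d1) (d2 := d2)
        (d3 := d3) (p := p) (q := q) hb3 hp hq hd1 hpq h3p h3q (c1 := k1) (c2 := k2)
        (c3 := k3) hk3 E ?_ (f1 b3 hb3 h13.symm) (f2 b3 hb3 h23.symm)
        (f1 p hp h1p.symm) (f2 p hp h2p.symm) (f3 p hp h3p.symm)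
        (f1 q hq h1q.symm) (f2 q hq h2q.symm) (f3 q hq h3q.symm)
      rcases s with ⟨s1, s2, s3⟩ | ⟨s1, s2, s3⟩
      · left; exact ⟨lt_of_le_of_ne s1 (Ne.symm z1), lt_of_le_of_ne s2 (Ne.symm z2), s3⟩
      · right; exact ⟨lt_of_le_of_ne s1 z1, lt_of_le_of_ne s2 z2, s3⟩

/-- `v` is on the boundary of the convex hull -/
def Hull (P : ι → ℝ × ℝ) (v : ι) : Prop :=
  ∃ α β : ℝ, (α ≠ 0 ∨ β ≠ 0) ∧
    ∀ k, α * ((P k).1 - (P v).1) + β * ((P k).2 - (P v).2) ≤ 0

/-- at a hull vertex a charged edge forces all other neighbours to be on a supporting line -/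
lemma Ch.hull (h : Pl P T) {v b : ι} (hc : Ch P T v b) (hv : Hull P v) {p q : ι}
    (hp : T v p) (hq : T v q) (hpb : p ≠ b) (hqb : q ≠ b) : cr (P v) (P p) (P q) = 0 := by
  obtain ⟨α, β, hab, hs⟩ := hv
  obtain ⟨c, d, w, s, t1, t2, ⟨t, t0, t1', tx, ty⟩, s0, s1, s2⟩ := id hc
  have hpos : 0 < cr (P v) (P d) (P b) := by rw [cr_cyc (P b)]; exact t2.pos
  have e1 : α * (w.1 - (P v).1) + β * (w.2 - (P v).2) =
      - s * (α * ((P b).1 - (P v).1) + β * ((P b).2 - (P v).2)) := by rw [s1, s2]; ring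
  have e2 : α * (w.1 - (P v).1) + β * (w.2 - (P v).2) =
      (1 - t) * (α * ((P c).1 - (P v).1) + β * ((P c).2 - (P v).2)) +
      t * (α * ((P d).1 - (P v).1) + β * ((P d).2 - (P v).2)) := by rw [tx, ty]; ring
  have hb := hs b
  have hcc := hs c
  have hd := hs d
  have hd0 : α * ((P d).1 - (P v).1) + β * ((P d).2 - (P v).2) = 0 := by
    have m1 := mul_nonneg s0 (neg_nonneg.2 hb)
    have m2 := mul_nonneg (show 0 ≤ 1 - t by linarith) (neg_nonneg.2 hcc)
    have m3 := mul_nonneg t0.le (neg_nonneg.2 hd)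
    have : t * (α * ((P d).1 - (P v).1) + β * ((P d).2 - (P v).2)) = 0 := by linarith
    exact (mul_eq_zero.1 this).resolve_left t0.ne'
  -- the functional is a multiple of cr v d
  have all0 : ∀ x, T v x → x ≠ b → α * ((P x).1 - (P v).1) + β * ((P x).2 - (P v).2) = 0 := by
    intro x hx hxb
    obtain ⟨c', d', w', s', t1'', t2'', -, -, -, -⟩ := id hc
    have hfx : cr (P v) (P d) (P x) ≤ 0 := by
      -- redo the functional with this d
      by_contra hcon
      push Not at hcon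
      rcases lt_trichotomy (cr (P v) (P x) (P b)) 0 with hlt | heq | hgt
      · have e1 : cr (P v) (P x) w = - s * cr (P v) (P x) (P b) := by
          unfold cr; rw [s1, s2]; ring
        have e2 : cr (P v) (P x) w =
            (1 - t) * cr (P v) (P x) (P c) + t * cr (P v) (P x) (P d) := cr_lin tx ty
        have e3 : cr (P v) (P x) (P d) = - cr (P v) (P d) (P x) := cr_swap' _ _ _
        have e4 : 0 < cr (P v) (P x) (P c) := by
          rw [e3] at e2
          by_contra hc2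
          push Not at hc2
          have m1 := mul_pos t0 hcon
          have m2 := mul_nonneg s0 (show 0 ≤ - cr (P v) (P x) (P b) by linarith)
          have m3 := mul_nonneg (show 0 ≤ 1 - t by linarith)
            (show 0 ≤ - cr (P v) (P x) (P c) by linarith)
          linarith
        exact h.cone t1 hx (by rw [cr_swap']; linarith) e4
      · exact hxb (h.ray (P d) hx t1.ab heq hcon hpos)
      · exact h.cone (t2.rot) hx hcon hgt
    have hx0 := hs x
    -- identity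
    have id1 : ∀ z : ℝ × ℝ, (((P d).1 - (P v).1) ^ 2 + ((P d).2 - (P v).2) ^ 2) *
        (α * (z.1 - (P v).1) + β * (z.2 - (P v).2)) =
        (β * ((P d).1 - (P v).1) - α * ((P d).2 - (P v).2)) * cr (P v) (P d) z +
        (α * ((P d).1 - (P v).1) + β * ((P d).2 - (P v).2)) *
        (((P d).1 - (P v).1) * (z.1 - (P v).1) + ((P d).2 - (P v).2) * (z.2 - (P v).2)) := by
      intro z; unfold cr; ring
    have hne : 0 < ((P d).1 - (P v).1) ^ 2 + ((P d).2 - (P v).2) ^ 2 := by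
      by_contra hcon
      push Not at hcon
      have e1 : (P d).1 - (P v).1 = 0 := by
        nlinarith [sq_nonneg ((P d).1 - (P v).1), sq_nonneg ((P d).2 - (P v).2)]
      have e2 : (P d).2 - (P v).2 = 0 := by
        nlinarith [sq_nonneg ((P d).1 - (P v).1), sq_nonneg ((P d).2 - (P v).2)]
      unfold cr at hpos
      rw [e1, e2] at hpos
      simp at hpos
    set κ := β * ((P d).1 - (P v).1) - α * ((P d).2 - (P v).2) with hκ
    have ib := id1 (P b)
    have ix := id1 (P x)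
    rw [hd0, zero_mul, add_zero] at ib ix
    have hκ0 : κ ≤ 0 := by
      by_contra hcon
      push Not at hcon
      have := mul_pos hcon hpos
      rw [← ib] at this
      exact absurd (mul_nonpos_of_nonneg_of_nonpos hne.le hb) (not_le.2 this)
    have : 0 ≤ α * ((P x).1 - (P v).1) + β * ((P x).2 - (P v).2) := by
      have m := mul_nonneg_of_nonpos_of_nonpos hκ0 hfx
      rw [← ix] at m
      by_contra hcon
      push Not at hcon
      have := mul_neg_of_pos_of_neg hne hcon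
      exact absurd m (not_le.2 this)
    exact le_antisymm hx0 this
  have q1 := all0 p hp hpb
  have q2 := all0 q hq hqb
  unfold cr
  rcases hab with ha | hb'
  · have : α * (((P p).1 - (P v).1) * ((P q).2 - (P v).2) -
        ((P p).2 - (P v).2) * ((P q).1 - (P v).1)) = 0 := by
      linear_combination ((P q).2 - (P v).2) * q1 - ((P p).2 - (P v).2) * q2
    exact (mul_eq_zero.1 this).resolve_left ha
  · have : β * (((P p).1 - (P v).1) * ((P q).2 - (P v).2) -
        ((P p).2 - (P v).2) * ((P q).1 - (P v).1)) = 0 := by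
      linear_combination ((P p).1 - (P v).1) * q2 - ((P q).1 - (P v).1) * q1
    exact (mul_eq_zero.1 this).resolve_left hb'

end Pool.Agent.Helper18.Diag
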