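import Mathlib

namespace Pool.Agent.Helper18.Diag

/-- twice the signed area -/
def cr (a b c : ℝ × ℝ) : ℝ := (b.1 - a.1) * (c.2 - a.2) - (b.2 - a.2) * (c.1 - a.1)

/-- `z` is on the open segment from `a` to `b` -/
def Btw (a b z : ℝ × ℝ) : Prop :=
  ∃ t : ℝ, 0 < t ∧ t < 1 ∧ z.1 = a.1 + t * (b.1 - a.1) ∧ z.2 = a.2 + t * (b.2 - a.2)

lemma Btw.symm {a b z : ℝ × ℝ} (h : Btw a b z) : Btw b a z := by
  obtain ⟨t, h0, h1, hx, hy⟩ := h
  exact ⟨1 - t, by linarith, by linarith, by rw [hx]; ring, by rw [hy]; ring⟩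

lemma cr_lin {a b p q z : ℝ × ℝ} {t : ℝ} (hx : z.1 = p.1 + t * (q.1 - p.1))
    (hy : z.2 = p.2 + t * (q.2 - p.2)) : cr a b z = (1 - t) * cr a b p + t * cr a b q := by
  unfold cr; rw [hx, hy]; ring

lemma cr_cyc (a b c : ℝ × ℝ) : cr b c a = cr a b c := by unfold cr; ring

lemma cr_swap (a b c : ℝ × ℝ) : cr b a c = - cr a b c := by unfold cr; ring

lemma cr_swap' (a b c : ℝ × ℝ) : cr a c b = - cr a b c := by unfold cr; ring

lemma cr_self (a b : ℝ × ℝ) : cr a b a = 0 := by unfold cr; ring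

lemma cr_self' (a b : ℝ × ℝ) : cr a b b = 0 := by unfold cr; ring

lemma cr_self'' (a b : ℝ × ℝ) : cr a a b = 0 := by unfold cr; ring

lemma cr_sum (a b c z : ℝ × ℝ) : cr a b z + cr b c z + cr c a z = cr a b c := by
  unfold cr; ring

lemma exists_param {a b c : ℝ × ℝ} (hab : a ≠ b) (h : cr a b c = 0) :
    ∃ s : ℝ, c.1 = a.1 + s * (b.1 - a.1) ∧ c.2 = a.2 + s * (b.2 - a.2) := by
  unfold cr at h
  by_cases h1 : b.1 - a.1 = 0
  · have h2 : b.2 - a.2 ≠ 0 := by
      intro h2
      apply hab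
      ext <;> linarith
    refine ⟨(c.2 - a.2) / (b.2 - a.2), ?_, ?_⟩
    · have : (b.2 - a.2) * (c.1 - a.1) = 0 := by rw [h1] at h; linarith
      have h3 : c.1 - a.1 = 0 := by
        rcases mul_eq_zero.1 this with h | h
        · exact absurd h h2
        · exact h
      rw [h1]; linarith
    · field_simp; ring
  · refine ⟨(c.1 - a.1) / (b.1 - a.1), ?_, ?_⟩
    · field_simp; ring
    · field_simp
      linarith

lemma param_inj {a b : ℝ × ℝ} (hab : a ≠ b) {s t : ℝ}
    (h1 : a.1 + s * (b.1 - a.1) = a.1 + t * (b.1 - a.1))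
    (h2 : a.2 + s * (b.2 - a.2) = a.2 + t * (b.2 - a.2)) : s = t := by
  by_contra hst
  apply hab
  have hst' : s - t ≠ 0 := sub_ne_zero.2 hst
  have e1 : (s - t) * (b.1 - a.1) = 0 := by linarith
  have e2 : (s - t) * (b.2 - a.2) = 0 := by linarith
  have f1 := (mul_eq_zero.1 e1).resolve_left hst'
  have f2 := (mul_eq_zero.1 e2).resolve_left hst'
  ext <;> linarith

/-- two overlapping collinear segments, none containing an endpoint of the other, are equal -/
lemma col {a b c d z : ℝ × ℝ} (hab : a ≠ b) (h1 : cr a b c = 0)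
    (h2 : cr a b d = 0) (hz1 : Btw a b z) (hz2 : Btw c d z) (n1 : ¬ Btw a b c) (n2 : ¬ Btw a b d)
    (n3 : ¬ Btw c d a) (n4 : ¬ Btw c d b) : (a = c ∧ b = d) ∨ (a = d ∧ b = c) := by
  obtain ⟨g, hg1, hg2⟩ := exists_param hab h1
  obtain ⟨e, he1, he2⟩ := exists_param hab h2
  obtain ⟨t, ht0, ht1, htx, hty⟩ := hz1
  obtain ⟨u, hu0, hu1, hux, huy⟩ := hz2
  have key : t = g + u * (e - g) := by
    apply param_inj hab
    · rw [← htx, hux, he1, hg1]; ring
    · rw [← hty, huy, he2, hg2]; ring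
  have hg : g ≤ 0 ∨ 1 ≤ g := by
    by_contra hcon
    push Not at hcon
    exact n1 ⟨g, hcon.1, hcon.2, hg1, hg2⟩
  have he : e ≤ 0 ∨ 1 ≤ e := by
    by_contra hcon
    push Not at hcon
    exact n2 ⟨e, hcon.1, hcon.2, he1, he2⟩
  rcases lt_trichotomy g e with hlt | heq | hgt
  · have hgt : g < t := by nlinarith
    have hte : t < e := by nlinarith
    have hg0 : g ≤ 0 := by rcases hg with h | h <;> linarith
    have he1' : 1 ≤ e := by rcases he with h | h <;> linarith
    have g0 : g = 0 := by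
      by_contra hne
      have hlt0 : g < 0 := lt_of_le_of_ne hg0 hne
      apply n3
      refine ⟨(-g) / (e - g), ?_, ?_, ?_, ?_⟩
      · apply div_pos <;> linarith
      · rw [div_lt_one (by linarith)]; linarith
      · rw [hg1, he1]; field_simp [show e - g ≠ 0 by linarith]; ring
      · rw [hg2, he2]; field_simp [show e - g ≠ 0 by linarith]; ring
    have e1' : e = 1 := by
      by_contra hne
      have hlt0 : 1 < e := lt_of_le_of_ne he1' (Ne.symm hne)
      apply n4
      refine ⟨(1 - g) / (e - g), ?_, ?_, ?_, ?_⟩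
      · apply div_pos <;> linarith
      · rw [div_lt_one (by linarith)]; linarith
      · rw [hg1, he1]; field_simp [show e - g ≠ 0 by linarith]; ring
      · rw [hg2, he2]; field_simp [show e - g ≠ 0 by linarith]; ring
    left
    subst g0 e1'
    constructor
    · ext <;> [rw [hg1]; rw [hg2]] <;> ring
    · ext <;> [rw [he1]; rw [he2]] <;> ring
  · exfalso
    subst heq
    have : t = g := by rw [key]; ring
    rcases hg with h | h <;> linarith
  · have hgt' : t < g := by nlinarith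
    have hte : e < t := by nlinarith
    have hg0 : 1 ≤ g := by rcases hg with h | h <;> linarith
    have he1' : e ≤ 0 := by rcases he with h | h <;> linarith
    have g0 : e = 0 := by
      by_contra hne
      have hlt0 : e < 0 := lt_of_le_of_ne he1' hne
      apply n3
      refine ⟨g / (g - e), ?_, ?_, ?_, ?_⟩
      · apply div_pos <;> linarith
      · rw [div_lt_one (by linarith)]; linarith
      · rw [hg1, he1]; field_simp [show g - e ≠ 0 by linarith]; ring
      · rw [hg2, he2]; field_simp [show g - e ≠ 0 by linarith]; ring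
    have e1' : g = 1 := by
      by_contra hne
      have hlt0 : 1 < g := lt_of_le_of_ne hg0 (Ne.symm hne)
      apply n4
      refine ⟨(g - 1) / (g - e), ?_, ?_, ?_, ?_⟩
      · apply div_pos <;> linarith
      · rw [div_lt_one (by linarith)]; linarith
      · rw [hg1, he1]; field_simp [show g - e ≠ 0 by linarith]; ring
      · rw [hg2, he2]; field_simp [show g - e ≠ 0 by linarith]; ring
    right
    subst g0 e1'
    constructor
    · ext <;> [rw [he1]; rw [he2]] <;> ring
    · ext <;> [rw [hg1]; rw [hg2]] <;> ring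

/-- one-dimensional exit lemma -/
lemma exit3 {f0 g0 h0 f1 g1 h1 : ℝ} (hf : 0 < f0) (hg : 0 < g0) (hh : 0 < h0)
    (hn : f1 < 0 ∨ g1 < 0 ∨ h1 < 0) :
    ∃ t : ℝ, 0 < t ∧ t < 1 ∧ 0 ≤ f0 + t * (f1 - f0) ∧ 0 ≤ g0 + t * (g1 - g0) ∧
      0 ≤ h0 + t * (h1 - h0) ∧
      (f0 + t * (f1 - f0) = 0 ∨ g0 + t * (g1 - g0) = 0 ∨ h0 + t * (h1 - h0) = 0) := by
  set F : ℝ → ℝ := fun t => min (f0 + t * (f1 - f0)) (min (g0 + t * (g1 - g0)) (h0 + t * (h1 - h0)))
    with hF
  have hc : Continuous F := by fun_prop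
  have hF0 : 0 < F 0 := by simp [hF, hf, hg, hh]
  have hF1 : F 1 < 0 := by
    simp only [hF, one_mul, add_sub_cancel]
    rcases hn with h | h | h
    · exact lt_of_le_of_lt (min_le_left _ _) h
    · exact lt_of_le_of_lt (le_trans (min_le_right _ _) (min_le_left _ _)) h
    · exact lt_of_le_of_lt (le_trans (min_le_right _ _) (min_le_right _ _)) h
  obtain ⟨t, ⟨ht0, ht1⟩, ht⟩ := intermediate_value_Icc' (zero_le_one' ℝ) hc.continuousOn
    ⟨hF1.le, hF0.le⟩
  have ht0' : 0 < t := by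
    rcases ht0.lt_or_eq with h | h
    · exact h
    · rw [← h] at ht; linarith
  have ht1' : t < 1 := by
    rcases ht1.lt_or_eq with h | h
    · exact h
    · rw [h] at ht; linarith
  have a1 : 0 ≤ f0 + t * (f1 - f0) := by rw [← ht]; exact min_le_left _ _
  have a2 : 0 ≤ g0 + t * (g1 - g0) := by
    rw [← ht]; exact le_trans (min_le_right _ _) (min_le_left _ _)
  have a3 : 0 ≤ h0 + t * (h1 - h0) := by
    rw [← ht]; exact le_trans (min_le_right _ _) (min_le_right _ _)
  refine ⟨t, ht0', ht1', a1, a2, a3, ?_⟩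
  by_contra hcon
  push Not at hcon
  obtain ⟨b1, b2, b3⟩ := hcon
  have : 0 < F t := lt_min (lt_of_le_of_ne a1 (Ne.symm b1))
    (lt_min (lt_of_le_of_ne a2 (Ne.symm b2)) (lt_of_le_of_ne a3 (Ne.symm b3)))
  linarith

/-- a maximal plane straight line graph on the points `P i` -/
structure Pl {ι : Type} (P : ι → ℝ × ℝ) (T : ι → ι → Prop) : Prop where
  inj : Function.Injective P
  symm : ∀ i j, T i j → T j i
  ne : ∀ i j, T i j → i ≠ j
  clean : ∀ i j, T i j → ∀ k, ¬ Btw (P i) (P j) (P k)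
  disj : ∀ i j k l z, T i j → T k l → Btw (P i) (P j) z → Btw (P k) (P l) z →
    (i = k ∧ j = l) ∨ (i = l ∧ j = k)
  maxi : ∀ i j, i ≠ j → (∀ k, ¬ Btw (P i) (P j) (P k)) →
    (∀ k l z, T k l → Btw (P i) (P j) z → Btw (P k) (P l) z →
      (i = k ∧ j = l) ∨ (i = l ∧ j = k)) → T i j

variable {ι : Type} {P : ι → ℝ × ℝ} {T : ι → ι → Prop}

/-- hull edges belong to every maximal plane graph -/
lemma Pl.hull_edge (h : Pl P T) {i j : ι} (hij : i ≠ j) (hc : ∀ k, ¬ Btw (P i) (P j) (P k))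
    (hs : ∀ k, cr (P i) (P j) (P k) ≤ 0) : T i j := by
  apply h.maxi i j hij hc
  intro k l z hkl hz1 hz2
  have hPij : P i ≠ P j := fun e => hij (h.inj e)
  obtain ⟨u, hu0, hu1, hux, huy⟩ := hz2
  obtain ⟨t, ht0, ht1, htx, hty⟩ := hz1
  have e1 : cr (P i) (P j) z = 0 := by
    rw [cr_lin htx hty, cr_self, cr_self']; ring
  have e2 := cr_lin (a := P i) (b := P j) hux huy
  have hk := hs k
  have hl := hs l
  have hk0 : cr (P i) (P j) (P k) = 0 := by nlinarith
  have hl0 : cr (P i) (P j) (P l) = 0 := by nlinarith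
  rcases col hPij hk0 hl0 ⟨t, ht0, ht1, htx, hty⟩ ⟨u, hu0, hu1, hux, huy⟩ (hc k) (hc l)
    (h.clean k l hkl i) (h.clean k l hkl j) with ⟨e, e'⟩ | ⟨e, e'⟩
  · left; exact ⟨h.inj e, h.inj e'⟩
  · right; exact ⟨h.inj e, h.inj e'⟩


/-- positively oriented empty triangle of the graph -/
structure Tri (P : ι → ℝ × ℝ) (T : ι → ι → Prop) (a b c : ι) : Prop where
  ab : T a b
  bc : T b c
  ca : T c a
  pos : 0 < cr (P a) (P b) (P c)
  empty : ∀ k, 0 ≤ cr (P a) (P b) (P k) → 0 ≤ cr (P b) (P c) (P k) → 0 ≤ cr (P c) (P a) (P k) →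
    k = a ∨ k = b ∨ k = c

lemma Tri.rot {a b c : ι} (t : Tri P T a b c) : Tri P T b c a :=
  ⟨t.bc, t.ca, t.ab, by rw [cr_cyc]; exact t.pos, fun k h1 h2 h3 => by
    rcases t.empty k h3 h1 h2 with h | h | h <;> simp [h]⟩

lemma side {a b c w : ℝ × ℝ} (hD : 0 < cr a b c) (h0 : cr a b w = 0) (h1 : 0 ≤ cr b c w)
    (h2 : 0 ≤ cr c a w) : w = a ∨ w = b ∨ Btw a b w := by
  have hs := cr_sum a b c w
  have i1 : cr a b c * (w.1 - a.1) = cr c a w * (b.1 - a.1) + cr a b w * (c.1 - a.1) := by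
    unfold cr; ring
  have i2 : cr a b c * (w.2 - a.2) = cr c a w * (b.2 - a.2) + cr a b w * (c.2 - a.2) := by
    unfold cr; ring
  rw [h0] at i1 i2 hs
  have j1 : w.1 = a.1 + cr c a w / cr a b c * (b.1 - a.1) := by
    field_simp; linarith
  have j2 : w.2 = a.2 + cr c a w / cr a b c * (b.2 - a.2) := by
    field_simp; linarith
  rcases h2.lt_or_eq with h2' | h2'
  · rcases h1.lt_or_eq with h1' | h1'
    · right; right
      refine ⟨cr c a w / cr a b c, div_pos h2' hD, ?_, j1, j2⟩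
      rw [div_lt_one hD]; linarith
    · right; left
      have : cr c a w / cr a b c = 1 := by rw [div_eq_one_iff_eq hD.ne']; linarith
      rw [this] at j1 j2
      ext <;> linarith
  · left
    rw [← h2', zero_div, zero_mul, add_zero] at j1 j2
    exact Prod.ext j1 j2

/-- an edge through an interior point of an empty triangle ends at a vertex of it -/
lemma Pl.tri_end (h : Pl P T) {a b c p q : ι} (t : Tri P T a b c) (hpq : T p q) {z : ℝ × ℝ}
    (hz : Btw (P p) (P q) z) (z1 : 0 < cr (P a) (P b) z) (z2 : 0 < cr (P b) (P c) z)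
    (z3 : 0 < cr (P c) (P a) z) : p = a ∨ p = b ∨ p = c := by
  by_contra hcon
  push Not at hcon
  obtain ⟨na, nb, nc⟩ := hcon
  have hn : cr (P a) (P b) (P p) < 0 ∨ cr (P b) (P c) (P p) < 0 ∨ cr (P c) (P a) (P p) < 0 := by
    by_contra hcon
    push Not at hcon
    rcases t.empty p hcon.1 hcon.2.1 hcon.2.2 with h' | h' | h'
    · exact na h'
    · exact nb h'
    · exact nc h'
  obtain ⟨s, s0, s1, a1, a2, a3, a4⟩ := exit3 z1 z2 z3 hn
  set w : ℝ × ℝ := (z.1 + s * ((P p).1 - z.1), z.2 + s * ((P p).2 - z.2)) with hw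
  have w1 : w.1 = z.1 + s * ((P p).1 - z.1) := rfl
  have w2 : w.2 = z.2 + s * ((P p).2 - z.2) := rfl
  have l : ∀ a b : ℝ × ℝ, cr a b w = cr a b z + s * (cr a b (P p) - cr a b z) := by
    intro a b; rw [cr_lin w1 w2]; ring
  rw [← l] at a1 a2 a3
  rw [← l, ← l, ← l] at a4
  have hwb : Btw (P p) (P q) w := by
    obtain ⟨u, u0, u1, ux, uy⟩ := hz
    refine ⟨(1 - s) * u, by nlinarith, by nlinarith, ?_, ?_⟩
    · rw [w1, ux]; ring
    · rw [w2, uy]; ring
  have key : ∀ a b c : ι, T a b → 0 < cr (P a) (P b) (P c) → cr (P a) (P b) w = 0 →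
      0 ≤ cr (P b) (P c) w → 0 ≤ cr (P c) (P a) w → p = a ∨ p = b := by
    intro a b c hab hD e1 e2 e3
    rcases side hD e1 e2 e3 with e | e | e
    · exact absurd (e ▸ hwb) (h.clean p q hpq a)
    · exact absurd (e ▸ hwb) (h.clean p q hpq b)
    · rcases h.disj p q a b w hpq hab hwb e with ⟨e, -⟩ | ⟨e, -⟩
      · exact Or.inl e
      · exact Or.inr e
  rcases a4 with a4 | a4 | a4
  · rcases key a b c t.ab t.pos a4 a2 a3 with h' | h'
    · exact na h'
    · exact nb h'
  · rcases key b c a t.bc t.rot.pos a4 a3 a1 with h' | h'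
    · exact nb h'
    · exact nc h'
  · rcases key c a b t.ca t.rot.rot.pos a4 a1 a2 with h' | h'
    · exact nc h'
    · exact na h'

/-- no edge meets the interior of an empty triangle -/
lemma Pl.tri_int (h : Pl P T) {a b c p q : ι} (t : Tri P T a b c) (hpq : T p q) {z : ℝ × ℝ}
    (hz : Btw (P p) (P q) z) (z1 : 0 < cr (P a) (P b) z) (z2 : 0 < cr (P b) (P c) z)
    (z3 : 0 < cr (P c) (P a) z) : False := by
  have e1 := h.tri_end t hpq hz z1 z2 z3
  have e2 := h.tri_end t (h.symm _ _ hpq) hz.symm z1 z2 z3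
  have hne := h.ne _ _ hpq
  obtain ⟨u, u0, u1, ux, uy⟩ := hz
  rw [cr_lin ux uy] at z1 z2 z3
  rcases e1 with rfl | rfl | rfl <;> rcases e2 with rfl | rfl | rfl <;>
    simp [cr_self, cr_self'] at z1 z2 z3 hne

lemma Pl.cone (h : Pl P T) {a b c x : ι} (t : Tri P T a b c) (hx : T a x)
    (h1 : 0 < cr (P a) (P b) (P x)) (h2 : 0 < cr (P a) (P x) (P c)) : False := by
  have hD := t.pos
  rw [cr_cyc (P c) (P a) (P x)] at h2
  set A := cr (P a) (P b) (P x) with hA
  set B := cr (P c) (P a) (P x) with hB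
  set D := cr (P a) (P b) (P c) with hDD
  set e := min (1 / 2) (D / (2 * (A + B))) with he
  have e0 : 0 < e := lt_min (by norm_num) (by positivity)
  have e1 : e < 1 := lt_of_le_of_lt (min_le_left _ _) (by norm_num)
  have e2 : e * (A + B) ≤ D / 2 := by
    calc e * (A + B) ≤ (D / (2 * (A + B))) * (A + B) :=
          mul_le_mul_of_nonneg_right (min_le_right _ _) (by linarith)
      _ = D / 2 := by field_simp
  set z : ℝ × ℝ := ((P a).1 + e * ((P x).1 - (P a).1), (P a).2 + e * ((P x).2 - (P a).2)) with hz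
  have z1 : z.1 = (P a).1 + e * ((P x).1 - (P a).1) := rfl
  have z2 : z.2 = (P a).2 + e * ((P x).2 - (P a).2) := rfl
  have f1 : cr (P a) (P b) z = e * A := by rw [cr_lin z1 z2, cr_self]; ring
  have f2 : cr (P c) (P a) z = e * B := by rw [cr_lin z1 z2, cr_self']; ring
  have f3 := cr_sum (P a) (P b) (P c) z
  refine h.tri_int t hx ⟨e, e0, e1, z1, z2⟩ ?_ ?_ ?_
  · rw [f1]; positivity
  · have : 0 < cr (P a) (P b) (P c) := hD
    have h4 : cr (P b) (P c) z = D - e * (A + B) := by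
      rw [hDD, ← f3, f1, f2]; ring
    rw [h4]; linarith
  · rw [f2]; positivity

lemma Pl.ray (h : Pl P T) {a c d : ι} (b : ℝ × ℝ) (hc : T a c) (hd : T a d)
    (h0 : cr (P a) (P c) (P d) = 0) (h1 : 0 < cr (P a) b (P c)) (h2 : 0 < cr (P a) b (P d)) :
    c = d := by
  have hne : P a ≠ P c := fun e => h.ne _ _ hc (h.inj e)
  obtain ⟨s, s1, s2⟩ := exists_param hne h0
  have e : cr (P a) b (P d) = s * cr (P a) b (P c) := by
    rw [cr_lin s1 s2, cr_self]; ring
  have s0 : 0 < s := by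
    rw [e] at h2
    by_contra hcon
    push Not at hcon
    nlinarith
  rcases lt_trichotomy s 1 with hs | hs | hs
  · exact absurd ⟨s, s0, hs, s1, s2⟩ (h.clean a c hc d)
  · apply h.inj
    subst hs
    ext
    · rw [s1]; ring
    · rw [s2]; ring
  · exfalso
    refine h.clean a d hd c ⟨1 / s, by positivity, ?_, ?_, ?_⟩
    · rw [div_lt_one s0]; exact hs
    · rw [s1]; field_simp; ring
    · rw [s2]; field_simp; ring

lemma Pl.tri_unique (h : Pl P T) {a b c d : ι} (t : Tri P T a b c) (t' : Tri P T a b d) :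
    c = d := by
  rcases lt_trichotomy (cr (P a) (P c) (P d)) 0 with hlt | heq | hgt
  · exfalso
    refine h.cone t (h.symm _ _ t'.ca) t'.pos ?_
    rw [cr_swap']; linarith
  · exact h.ray (P b) (h.symm _ _ t.ca) (h.symm _ _ t'.ca) heq t.pos t'.pos
  · exfalso
    exact h.cone t' (h.symm _ _ t.ca) t.pos hgt

lemma Pl.go (h : Pl P T) {v b c p q : ι} (hvb : T v b) (hvc : T v c)
    (hD : 0 < cr (P v) (P b) (P c)) (hpq : T p q) {z : ℝ × ℝ} (hz : Btw (P p) (P q) z)
    (z1 : 0 < cr (P v) (P b) z) (z3 : 0 < cr (P c) (P v) z) (g0 : 0 ≤ cr (P b) (P c) z)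
    (g1 : cr (P b) (P c) z ≤ cr (P b) (P c) (P q)) (g2 : 0 < cr (P b) (P c) (P q)) :
    0 ≤ cr (P v) (P b) (P q) ∧ 0 ≤ cr (P c) (P v) (P q) := by
  by_contra hcon
  have hn : cr (P v) (P b) (P q) < 0 ∨ cr (P c) (P v) (P q) < 0 ∨ (1 : ℝ) < 0 := by
    by_contra hcon'
    push Not at hcon'
    exact hcon ⟨hcon'.1, hcon'.2.1⟩
  obtain ⟨s, s0, s1, a1, a2, -, a4⟩ := exit3 z1 z3 (zero_lt_one' ℝ) hn
  set w : ℝ × ℝ := (z.1 + s * ((P q).1 - z.1), z.2 + s * ((P q).2 - z.2)) with hw
  have w1 : w.1 = z.1 + s * ((P q).1 - z.1) := rfl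
  have w2 : w.2 = z.2 + s * ((P q).2 - z.2) := rfl
  have l : ∀ a b : ℝ × ℝ, cr a b w = cr a b z + s * (cr a b (P q) - cr a b z) := by
    intro a b; rw [cr_lin w1 w2]; ring
  rw [← l] at a1 a2
  rw [← l, ← l] at a4
  have hG : 0 < cr (P b) (P c) w := by rw [l]; nlinarith
  have hwb : Btw (P p) (P q) w := by
    obtain ⟨u, u0, u1, ux, uy⟩ := hz
    refine ⟨u + s * (1 - u), by nlinarith, by nlinarith, ?_, ?_⟩
    · rw [w1, ux]; ring
    · rw [w2, uy]; ring
  have online : ∀ a b : ι, (∃ t, z.1 = (P a).1 + t * ((P b).1 - (P a).1) ∧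
      z.2 = (P a).2 + t * ((P b).2 - (P a).2)) → cr (P a) (P b) z = 0 := by
    rintro a b ⟨t, t1, t2⟩
    rw [cr_lin t1 t2, cr_self, cr_self']; ring
  obtain ⟨u, u0, u1, ux, uy⟩ := hz
  rcases a4 with a4 | a4 | a4
  · rcases side hD a4 hG.le a2 with e | e | e
    · exact h.clean p q hpq v (e ▸ hwb)
    · rw [e, cr_self] at hG; exact lt_irrefl _ hG
    · rcases h.disj p q v b w hpq hvb hwb e with ⟨rfl, rfl⟩ | ⟨rfl, rfl⟩
      · rw [online _ _ ⟨u, ux, uy⟩] at z1; exact lt_irrefl _ z1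
      · rw [cr_swap, online _ _ ⟨u, ux, uy⟩] at z1; linarith
  · have hD' : 0 < cr (P c) (P v) (P b) := by rw [cr_cyc, cr_cyc]; exact hD
    rcases side hD' a4 a1 hG.le with e | e | e
    · rw [e, cr_self'] at hG; exact lt_irrefl _ hG
    · exact h.clean p q hpq v (e ▸ hwb)
    · rcases h.disj p q c v w hpq (h.symm _ _ hvc) hwb e with ⟨rfl, rfl⟩ | ⟨rfl, rfl⟩
      · rw [online _ _ ⟨u, ux, uy⟩] at z3; exact lt_irrefl _ z3
      · rw [cr_swap, online _ _ ⟨u, ux, uy⟩] at z3; linarith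
  · simp at a4


/-- two neighbours of `v` with no neighbour strictly between them span an empty triangle -/
lemma Pl.wedge [Fintype ι] (h : Pl P T) {v b c : ι} (hvb : T v b) (hvc : T v c)
    (hD : 0 < cr (P v) (P b) (P c))
    (hno : ∀ x, T v x → 0 < cr (P v) (P b) (P x) → 0 < cr (P v) (P x) (P c) → False) :
    Tri P T v b c := by
  classical
  have hbc : b ≠ c := by
    rintro rfl
    rw [cr_self'] at hD
    exact lt_irrefl _ hD
  have hD2 : 0 < cr (P c) (P v) (P b) := by rw [cr_cyc, cr_cyc]; exact hD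
  have hempty : ∀ k, 0 ≤ cr (P v) (P b) (P k) → 0 ≤ cr (P b) (P c) (P k) →
      0 ≤ cr (P c) (P v) (P k) → k = v ∨ k = b ∨ k = c := by
    by_contra hcon
    push Not at hcon
    obtain ⟨k0, hk1, hk2, hk3, hk4, hk5, hk6⟩ := hcon
    set S : Finset ι := Finset.univ.filter (fun k => 0 ≤ cr (P v) (P b) (P k) ∧
      0 ≤ cr (P b) (P c) (P k) ∧ 0 ≤ cr (P c) (P v) (P k) ∧ k ≠ v ∧ k ≠ b ∧ k ≠ c) with hS
    have hSne : S.Nonempty := ⟨k0, by simp [hS, hk1, hk2, hk3, hk4, hk5, hk6]⟩
    obtain ⟨x, hxS, hmax⟩ := S.exists_max_image (fun k => cr (P b) (P c) (P k)) hSne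
    simp only [hS, Finset.mem_filter, Finset.mem_univ, true_and] at hxS hmax
    obtain ⟨x1, x2, x3, x4, x5, x6⟩ := hxS
    have y1 : 0 < cr (P v) (P b) (P x) := by
      rcases x1.lt_or_eq with h' | h'
      · exact h'
      · exfalso
        rcases side hD h'.symm x2 x3 with e | e | e
        · exact x4 (h.inj e)
        · exact x5 (h.inj e)
        · exact h.clean v b hvb x e
    have y3 : 0 < cr (P c) (P v) (P x) := by
      rcases x3.lt_or_eq with h' | h'
      · exact h'
      · exfalso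
        rcases side hD2 h'.symm x1 x2 with e | e | e
        · exact x6 (h.inj e)
        · exact x4 (h.inj e)
        · exact h.clean c v (h.symm _ _ hvc) x e
    have hsum := cr_sum (P v) (P b) (P c) (P x)
    have hvbc : cr (P b) (P c) (P v) = cr (P v) (P b) (P c) := cr_cyc _ _ _
    have y3' : 0 < cr (P v) (P x) (P c) := by rw [cr_cyc (P c) (P v) (P x)]; exact y3
    have hclean : ∀ k, ¬ Btw (P v) (P x) (P k) := by
      rintro k ⟨t, t0, t1, tx, ty⟩
      have e1 : cr (P v) (P b) (P k) = t * cr (P v) (P b) (P x) := by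
        rw [cr_lin tx ty, cr_self]; ring
      have e2 : cr (P b) (P c) (P k) = (1 - t) * cr (P v) (P b) (P c) + t * cr (P b) (P c) (P x) := by
        rw [cr_lin tx ty, hvbc]
      have e3 : cr (P c) (P v) (P k) = t * cr (P c) (P v) (P x) := by
        rw [cr_lin tx ty, cr_self']; ring
      have p1 : 0 < cr (P v) (P b) (P k) := by rw [e1]; positivity
      have p3 : 0 < cr (P c) (P v) (P k) := by rw [e3]; positivity
      have p2 : cr (P b) (P c) (P x) < cr (P b) (P c) (P k) := by rw [e2]; nlinarith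
      have := hmax k ⟨p1.le, by linarith, p3.le, ?_, ?_, ?_⟩
      · linarith
      · rintro rfl; rw [cr_self] at p1; exact lt_irrefl _ p1
      · rintro rfl; rw [cr_self'] at p1; exact lt_irrefl _ p1
      · rintro rfl; rw [cr_self] at p3; exact lt_irrefl _ p3
    have main : ∀ p q z, T p q → Btw (P v) (P x) z → Btw (P p) (P q) z →
        cr (P b) (P c) z ≤ cr (P b) (P c) (P q) → (v = p ∧ x = q) ∨ (v = q ∧ x = p) := by
      intro p q z hpq hz1 hz2 hle
      obtain ⟨t, t0, t1, tx, ty⟩ := hz1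
      have e1 : cr (P v) (P b) z = t * cr (P v) (P b) (P x) := by
        rw [cr_lin tx ty, cr_self]; ring
      have e2 : cr (P b) (P c) z = (1 - t) * cr (P v) (P b) (P c) + t * cr (P b) (P c) (P x) := by
        rw [cr_lin tx ty, hvbc]
      have e3 : cr (P c) (P v) z = t * cr (P c) (P v) (P x) := by
        rw [cr_lin tx ty, cr_self']; ring
      have p1 : 0 < cr (P v) (P b) z := by rw [e1]; positivity
      have p3 : 0 < cr (P c) (P v) z := by rw [e3]; positivity
      have p2 : cr (P b) (P c) (P x) < cr (P b) (P c) z := by rw [e2]; nlinarith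
      obtain ⟨g1, g2⟩ := h.go hvb hvc hD hpq hz2 p1 p3 (by linarith) hle (by linarith)
      by_cases hqv : q = v
      · subst hqv
        right
        refine ⟨rfl, ?_⟩
        have hz0 : cr (P q) (P x) z = 0 := by rw [cr_lin tx ty, cr_self, cr_self']; ring
        obtain ⟨u, u0, u1, ux, uy⟩ := hz2
        have hz0' : cr (P q) (P x) (P p) = 0 := by
          rw [cr_lin ux uy, cr_self] at hz0
          have : (1 - u) * cr (P q) (P x) (P p) = 0 := by linarith
          rcases mul_eq_zero.1 this with h' | h'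
          · linarith
          · exact h'
        have hne : P q ≠ P x := fun e => x4 (h.inj e.symm)
        rcases col hne hz0' (cr_self _ _) ⟨t, t0, t1, tx, ty⟩ ⟨u, u0, u1, ux, uy⟩
          (hclean p) (hclean q) (h.clean p q hpq q) (h.clean p q hpq x) with ⟨e, e'⟩ | ⟨e, e'⟩
        · exfalso; exact x4 (h.inj e')
        · exact h.inj e'
      · exfalso
        have hqb : q ≠ b := by rintro rfl; rw [cr_self] at hle; linarith
        have hqc : q ≠ c := by rintro rfl; rw [cr_self'] at hle; linarith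
        have := hmax q ⟨g1, by linarith, g2, hqv, hqb, hqc⟩
        linarith
    have hTvx : T v x := by
      apply h.maxi v x (Ne.symm x4) hclean
      intro p q z hpq hz1 hz2
      rcases le_total (cr (P b) (P c) z) (cr (P b) (P c) (P q)) with hle | hle
      · exact main p q z hpq hz1 hz2 hle
      · have : cr (P b) (P c) z ≤ cr (P b) (P c) (P p) := by
          obtain ⟨u, u0, u1, ux, uy⟩ := hz2
          rw [cr_lin ux uy] at hle ⊢
          nlinarith
        rcases main q p z (h.symm _ _ hpq) hz1 hz2.symm this with h' | h'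
        · exact Or.inr h'
        · exact Or.inl h'
    exact hno x hTvx y1 y3'
  refine ⟨hvb, ?_, h.symm _ _ hvc, hD, hempty⟩
  apply h.maxi b c hbc
  · intro k hk
    obtain ⟨t, t0, t1, tx, ty⟩ := hk
    have hvbc : cr (P b) (P c) (P v) = cr (P v) (P b) (P c) := cr_cyc _ _ _
    have e1 : cr (P v) (P b) (P k) = t * cr (P v) (P b) (P c) := by
      rw [cr_lin tx ty, cr_self']; ring
    have e2 : cr (P b) (P c) (P k) = 0 := by
      rw [cr_lin tx ty, cr_self, cr_self']; ring
    have e3 : cr (P c) (P v) (P k) = (1 - t) * cr (P c) (P v) (P b) := by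
      rw [cr_lin tx ty, cr_self]; ring
    have p1 : 0 < cr (P v) (P b) (P k) := by rw [e1]; positivity
    have p3 : 0 < cr (P c) (P v) (P k) := by rw [e3]; apply mul_pos <;> linarith
    rcases hempty k p1.le e2.ge p3.le with rfl | rfl | rfl
    · rw [cr_self] at p1; exact lt_irrefl _ p1
    · rw [cr_self'] at p1; exact lt_irrefl _ p1
    · rw [cr_self] at p3; exact lt_irrefl _ p3
  · intro p q z hpq hz1 hz2
    have hz1' := hz1
    obtain ⟨t, t0, t1, tx, ty⟩ := hz1
    have e1 : cr (P v) (P b) z = t * cr (P v) (P b) (P c) := by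
      rw [cr_lin tx ty, cr_self']; ring
    have e2 : cr (P b) (P c) z = 0 := by
      rw [cr_lin tx ty, cr_self, cr_self']; ring
    have e3 : cr (P c) (P v) z = (1 - t) * cr (P c) (P v) (P b) := by
      rw [cr_lin tx ty, cr_self]; ring
    have p1 : 0 < cr (P v) (P b) z := by rw [e1]; positivity
    have p3 : 0 < cr (P c) (P v) z := by rw [e3]; apply mul_pos <;> linarith
    have main : ∀ p q, T p q → Btw (P p) (P q) z → 0 < cr (P b) (P c) (P q) → False := by
      intro p q hpq hz2 hq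
      obtain ⟨g1, g2⟩ := h.go hvb hvc hD hpq hz2 p1 p3 e2.ge (by linarith) hq
      rcases hempty q g1 hq.le g2 with rfl | rfl | rfl
      · obtain ⟨u, u0, u1, ux, uy⟩ := hz2
        rw [cr_lin ux uy, cr_self] at p1
        rw [cr_lin ux uy, cr_self'] at p3
        refine hno p (h.symm _ _ hpq) ?_ ?_
        · by_contra hc; push Not at hc; nlinarith
        · rw [cr_cyc (P c)]; by_contra hc; push Not at hc; nlinarith
      · rw [cr_self] at hq; exact lt_irrefl _ hq
      · rw [cr_self'] at hq; exact lt_irrefl _ hq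
    have hp : cr (P b) (P c) (P p) ≤ 0 := by
      by_contra hc; push Not at hc
      exact main q p (h.symm _ _ hpq) hz2.symm hc
    have hq : cr (P b) (P c) (P q) ≤ 0 := by
      by_contra hc; push Not at hc
      exact main p q hpq hz2 hc
    have hz2' := hz2
    obtain ⟨u, u0, u1, ux, uy⟩ := hz2
    rw [cr_lin ux uy] at e2
    have hp0 : cr (P b) (P c) (P p) = 0 := by nlinarith
    have hq0 : cr (P b) (P c) (P q) = 0 := by nlinarith
    have hne : P b ≠ P c := fun e => hbc (h.inj e)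
    have hcl : ∀ k, ¬ Btw (P b) (P c) (P k) := by
      intro k hk
      obtain ⟨t, t0, t1, tx, ty⟩ := hk
      have e1 : cr (P v) (P b) (P k) = t * cr (P v) (P b) (P c) := by
        rw [cr_lin tx ty, cr_self']; ring
      have e2 : cr (P b) (P c) (P k) = 0 := by
        rw [cr_lin tx ty, cr_self, cr_self']; ring
      have e3 : cr (P c) (P v) (P k) = (1 - t) * cr (P c) (P v) (P b) := by
        rw [cr_lin tx ty, cr_self]; ring
      have p1 : 0 < cr (P v) (P b) (P k) := by rw [e1]; positivity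
      have p3 : 0 < cr (P c) (P v) (P k) := by rw [e3]; apply mul_pos <;> linarith
      rcases hempty k p1.le e2.ge p3.le with rfl | rfl | rfl
      · rw [cr_self] at p1; exact lt_irrefl _ p1
      · rw [cr_self'] at p1; exact lt_irrefl _ p1
      · rw [cr_self] at p3; exact lt_irrefl _ p3
    rcases col hne hp0 hq0 hz1' hz2' (hcl p) (hcl q) (h.clean p q hpq b) (h.clean p q hpq c)
      with ⟨e, e'⟩ | ⟨e, e'⟩
    · left; exact ⟨h.inj e, h.inj e'⟩
    · right; exact ⟨h.inj e, h.inj e'⟩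

end Pool.Agent.Helper18.Diag
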