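import Pool.Agent.Helper18.DiagTop2

namespace Pool.Agent.Helper18.Diag

variable {ι : Type} {P : ι → ℝ × ℝ} {T : ι → ι → Prop}

/-- `v` is on the upper hull -/
def Up (P : ι → ℝ × ℝ) (v : ι) : Prop :=
  ∃ s : ℝ, ∀ k, (P k).2 ≤ (P v).2 + s * ((P k).1 - (P v).1)

/-- a right point of maximal slope, nearest among them -/
lemma max_slope [Fintype ι] {v : ι} (hr : ∃ k, (P v).1 < (P k).1) :
    ∃ c, (P v).1 < (P c).1 ∧ (∀ k, (P v).1 < (P k).1 → cr (P v) (P c) (P k) ≤ 0) ∧
      (∀ k, (P v).1 < (P k).1 → cr (P v) (P c) (P k) = 0 → (P c).1 ≤ (P k).1) := by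
  classical
  set C : Finset ι := Finset.univ.filter (fun k => (P v).1 < (P k).1) with hC
  have memC : ∀ k, k ∈ C ↔ (P v).1 < (P k).1 := by intro k; simp [hC]
  obtain ⟨k0, hk0⟩ := hr
  have hCne : C.Nonempty := ⟨k0, (memC _).2 hk0⟩
  obtain ⟨x0, hx0, hmax0⟩ := C.exists_max_image
    (fun k => ((P k).2 - (P v).2) / ((P k).1 - (P v).1)) hCne
  set C' : Finset ι := C.filter (fun k => cr (P v) (P x0) (P k) = 0) with hC'
  have hC'ne : C'.Nonempty := ⟨x0, by simp [hC', hx0, cr_self']⟩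
  obtain ⟨x, hx, hmin1⟩ := C'.exists_min_image (fun k => (P k).1) hC'ne
  rw [hC', Finset.mem_filter] at hx
  obtain ⟨hxC, hxr⟩ := hx
  rw [memC] at hx0 hxC
  have hne : P v ≠ P x0 := by
    intro e; rw [e] at hx0; exact lt_irrefl _ hx0
  obtain ⟨s, s1, s2⟩ := exists_param hne hxr
  have s0 : 0 < s := by
    by_contra hcon; push Not at hcon; nlinarith
  have hprop : ∀ z, cr (P v) (P x) z = s * cr (P v) (P x0) z := by
    intro z; unfold cr; rw [s1, s2]; ring
  refine ⟨x, hxC, ?_, ?_⟩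
  · intro k hk
    have := hmax0 k ((memC k).2 hk)
    rw [div_le_div_iff₀ (by linarith) (by linarith)] at this
    rw [hprop]
    have h2 : cr (P v) (P x0) (P k) ≤ 0 := by unfold cr; linarith
    nlinarith
  · intro k hk h0
    rw [hprop] at h0
    have h0' := (mul_eq_zero.1 h0).resolve_left s0.ne'
    exact hmin1 k (by rw [hC', Finset.mem_filter]; exact ⟨(memC k).2 hk, h0'⟩)

lemma Pl.upH [Fintype ι] (h : Pl P T) (hX : ∀ i j, (P i).1 = (P j).1 → i = j) {v : ι}
    (hup : Up P v) (hr : ∃ k, (P v).1 < (P k).1) :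
    ∃ c, (P v).1 < (P c).1 ∧ T v c ∧ ∀ k, cr (P v) (P c) (P k) ≤ 0 := by
  obtain ⟨c, c1, c2, c3⟩ := max_slope hr
  obtain ⟨s, hs⟩ := hup
  have hall : ∀ k, cr (P v) (P c) (P k) ≤ 0 := by
    intro k
    rcases lt_trichotomy (P v).1 (P k).1 with hlt | heq | hgt
    · exact c2 k hlt
    · rw [← hX _ _ heq, cr_self]
    · have hk := hs k
      have hc := hs c
      unfold cr
      nlinarith
  refine ⟨c, c1, ?_, hall⟩
  apply h.hull_edge (by rintro rfl; exact lt_irrefl _ c1) _ hall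
  rintro k ⟨t, t0, t1, tx, ty⟩
  have k1 : (P v).1 < (P k).1 := by rw [tx]; nlinarith
  have := c3 k k1 (by rw [cr_lin tx ty, cr_self, cr_self']; ring)
  rw [tx] at this
  nlinarith

lemma Pl.above [Fintype ι] (h : Pl P T) (hX : ∀ i j, (P i).1 = (P j).1 → i = j) {v : ι}
    (hup : ¬ Up P v) (hr : ∃ k, (P v).1 < (P k).1) :
    ∃ p q, T p q ∧ (P p).1 < (P v).1 ∧ (P v).1 < (P q).1 ∧ cr (P p) (P q) (P v) < 0 := by
  classical
  have step1 : ∃ a b, (P a).1 < (P v).1 ∧ (P v).1 < (P b).1 ∧ cr (P a) (P b) (P v) < 0 := by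
    obtain ⟨c, c1, c2, c3⟩ := max_slope hr
    have : ∃ k, (P v).2 + ((P c).2 - (P v).2) / ((P c).1 - (P v).1) * ((P k).1 - (P v).1)
        < (P k).2 := by
      by_contra hcon
      push Not at hcon
      exact hup ⟨_, hcon⟩
    obtain ⟨k, hk⟩ := this
    have hk' : 0 < cr (P v) (P c) (P k) := by
      have e : cr (P v) (P c) (P k) = ((P c).1 - (P v).1) * ((P k).2 - ((P v).2 +
          ((P c).2 - (P v).2) / ((P c).1 - (P v).1) * ((P k).1 - (P v).1))) := by
        have : (P c).1 - (P v).1 ≠ 0 := by linarith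
        unfold cr; field_simp; ring
      rw [e]
      apply mul_pos <;> linarith
    refine ⟨k, c, ?_, c1, ?_⟩
    · rcases lt_trichotomy (P v).1 (P k).1 with hlt | heq | hgt
      · linarith [c2 k hlt]
      · rw [← hX _ _ heq, cr_self] at hk'; exact absurd hk' (lt_irrefl _)
      · exact hgt
    · have : cr (P k) (P c) (P v) = - cr (P v) (P c) (P k) := by unfold cr; ring
      rw [this]; linarith
  obtain ⟨a0, b0, ha0, hb0, hab0⟩ := step1
  set S : Finset (ι × ι) := Finset.univ.filter (fun e => (P e.1).1 < (P v).1 ∧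
    (P v).1 < (P e.2).1) with hS
  have memS : ∀ a b, (a, b) ∈ S ↔ (P a).1 < (P v).1 ∧ (P v).1 < (P b).1 := by
    intro a b; simp [hS]
  have hSne : S.Nonempty := ⟨(a0, b0), (memS _ _).2 ⟨ha0, hb0⟩⟩
  obtain ⟨⟨a1, b1⟩, h1S, hmax⟩ := S.exists_max_image
    (fun e => ht (P e.1) (P e.2) (P v).1) hSne
  set S' : Finset (ι × ι) := S.filter (fun e => ht (P e.1) (P e.2) (P v).1 =
    ht (P a1) (P b1) (P v).1) with hS'
  have hS'ne : S'.Nonempty := ⟨(a1, b1), by simp [hS', h1S]⟩
  obtain ⟨⟨a, b⟩, habS, hmin⟩ := S'.exists_min_image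
    (fun e => (P e.2).1 - (P e.1).1) hS'ne
  rw [hS', Finset.mem_filter] at habS
  obtain ⟨habS, hhab⟩ := habS
  simp only at hhab
  obtain ⟨ha, hb⟩ := (memS _ _).1 habS
  have hmax' : ∀ a' b', (P a').1 < (P v).1 → (P v).1 < (P b').1 →
      ht (P a') (P b') (P v).1 ≤ ht (P a) (P b) (P v).1 := by
    intro a' b' h1 h2
    rw [hhab]
    exact hmax (a', b') ((memS _ _).2 ⟨h1, h2⟩)
  have hmin' : ∀ a' b', (P a').1 < (P v).1 → (P v).1 < (P b').1 →
      ht (P a') (P b') (P v).1 = ht (P a) (P b) (P v).1 →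
      (P b).1 - (P a).1 ≤ (P b').1 - (P a').1 := by
    intro a' b' h1 h2 h3
    exact hmin (a', b') (by
      rw [hS', Finset.mem_filter]; exact ⟨(memS _ _).2 ⟨h1, h2⟩, by simp only; rw [h3, hhab]⟩)
  have hv : cr (P a) (P b) (P v) < 0 := by
    have h1 := hmax' a0 b0 ha0 hb0
    rw [cr_ht (by linarith)] at hab0 ⊢
    have : (P v).2 < ht (P a0) (P b0) (P v).1 := by
      by_contra hcon; push Not at hcon
      have : 0 ≤ ((P b0).1 - (P a0).1) * ((P v).2 - ht (P a0) (P b0) (P v).1) :=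
        mul_nonneg (by linarith) (by linarith)
      linarith
    apply mul_neg_of_pos_of_neg <;> linarith
  -- the point above v on the line
  set m : ℝ × ℝ := ((P v).1, ht (P a) (P b) (P v).1) with hm
  set τ : ℝ := ((P v).1 - (P a).1) / ((P b).1 - (P a).1) with hτ
  have hba : 0 < (P b).1 - (P a).1 := by linarith
  have τ0 : 0 < τ := by apply div_pos <;> linarith
  have τ1 : τ < 1 := by rw [hτ, div_lt_one hba]; linarith
  have m1 : m.1 = (P a).1 + τ * ((P b).1 - (P a).1) := by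
    simp only [hm, hτ]; field_simp; ring
  have m2 : m.2 = (P a).2 + τ * ((P b).2 - (P a).2) := by
    simp only [hm, hτ, ht]; field_simp
  have left : ∀ k, (P k).1 < (P v).1 → cr (P k) (P b) m = -(1 - τ) * cr (P a) (P b) (P k) := by
    intro k hk
    rw [cr_lin m1 m2, cr_self', mul_zero, add_zero]
    have : cr (P k) (P b) (P a) = - cr (P a) (P b) (P k) := by unfold cr; ring
    rw [this]; ring
  have right : ∀ k, cr (P a) (P k) m = - τ * cr (P a) (P b) (P k) := by
    intro k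
    rw [cr_lin m1 m2, cr_self, mul_zero, zero_add]
    have : cr (P a) (P k) (P b) = - cr (P a) (P b) (P k) := by unfold cr; ring
    rw [this]; ring
  have hall : ∀ k, cr (P a) (P b) (P k) ≤ 0 := by
    intro k
    rcases lt_trichotomy (P v).1 (P k).1 with hlt | heq | hgt
    · have h1 := hmax' a k ha hlt
      have h2 : 0 ≤ cr (P a) (P k) m := by
        rw [cr_ht (by linarith)]
        exact mul_nonneg (by linarith) (by simp only [hm]; linarith)
      rw [right] at h2
      by_contra hcon; push Not at hcon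
      nlinarith
    · rw [← hX _ _ heq]; exact hv.le
    · have h1 := hmax' k b hgt hb
      have h2 : 0 ≤ cr (P k) (P b) m := by
        rw [cr_ht (by linarith)]
        exact mul_nonneg (by linarith) (by simp only [hm]; linarith)
      rw [left k hgt] at h2
      by_contra hcon; push Not at hcon
      nlinarith
  have habne : a ≠ b := by rintro rfl; linarith
  refine ⟨a, b, ?_, ha, hb, hv⟩
  apply h.hull_edge habne _ hall
  rintro k ⟨t, t0, t1, tx, ty⟩
  have hk0 : cr (P a) (P b) (P k) = 0 := by rw [cr_lin tx ty, cr_self, cr_self']; ring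
  have ka : (P a).1 < (P k).1 := by rw [tx]; nlinarith
  have kb : (P k).1 < (P b).1 := by rw [tx]; nlinarith
  rcases lt_trichotomy (P v).1 (P k).1 with hlt | heq | hgt
  · have e := right k
    rw [hk0, mul_zero, cr_ht (by linarith)] at e
    have e' : m.2 = ht (P a) (P k) m.1 := by
      rcases mul_eq_zero.1 e with h' | h' <;> linarith
    have := hmin' a k ha hlt (by simp only [hm] at e'; exact e'.symm)
    linarith
  · rw [← hX _ _ heq] at hk0; linarith
  · have e := left k hgt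
    rw [hk0, mul_zero, cr_ht (by linarith)] at e
    have e' : m.2 = ht (P k) (P b) m.1 := by
      rcases mul_eq_zero.1 e with h' | h' <;> linarith
    have := hmin' k b hgt hb (by simp only [hm] at e'; exact e'.symm)
    linarith

/-- an edge with a point on its left has a neighbour of its start on its left (first case) -/
lemma Pl.nbr_left0 [Fintype ι] (h : Pl P T) (hX : ∀ i j, (P i).1 = (P j).1 → i = j) {a b : ι}
    (hab : T a b) (hlt : (P a).1 < (P b).1) (hk : ∃ k, 0 < cr (P a) (P b) (P k)) :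
    ∃ x, T a x ∧ 0 < cr (P a) (P b) (P x) := by
  by_cases hup : Up P a
  · obtain ⟨c, c1, c2, c3⟩ := h.upH hX hup ⟨b, hlt⟩
    refine ⟨c, c2, ?_⟩
    by_contra hcon
    push Not at hcon
    have h1 := c3 b
    rw [cr_swap'] at h1
    have h0 : cr (P a) (P b) (P c) = 0 := by linarith
    have hne : P a ≠ P b := fun e => h.ne _ _ hab (h.inj e)
    obtain ⟨s, s1, s2⟩ := exists_param hne h0
    obtain ⟨k, hk⟩ := hk
    have hk2 := c3 k
    have e : cr (P a) (P c) (P k) = s * cr (P a) (P b) (P k) := by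
      unfold cr; rw [s1, s2]; ring
    have s0 : 0 < s := by
      by_contra hc; push Not at hc; nlinarith
    rw [e] at hk2
    nlinarith
  · obtain ⟨x, y, x1, y1, x2, y2, hc⟩ := h.top hX (h.above hX hup ⟨b, hlt⟩)
    by_contra hcon
    push Not at hcon
    have c1 := hcon x x1
    have c2 := hcon y y1
    unfold cr at c1 c2 hc
    set b1 := (P b).1 - (P a).1 with hb1
    set b2 := (P b).2 - (P a).2 with hb2
    set x1' := (P a).1 - (P x).1 with hx1
    set x2' := (P x).2 - (P a).2 with hx2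
    set y1' := (P y).1 - (P a).1 with hy1
    set y2' := (P y).2 - (P a).2 with hy2
    have hx1' : (P x).1 - (P a).1 = - x1' := by rw [hx1]; ring
    rw [hx1'] at c1 hc
    have b1p : 0 < b1 := by linarith
    have x1p : 0 < x1' := by linarith
    have y1p : 0 < y1' := by linarith
    have m1 := mul_nonneg y1p.le (show 0 ≤ -(b1 * x2' - b2 * -x1') by linarith)
    have m2 := mul_nonneg x1p.le (show 0 ≤ -(b1 * y2' - b2 * y1') by linarith)
    have m3 := mul_pos b1p hc
    nlinarith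

lemma Pl.nbr_left [Fintype ι] (h : Pl P T) (hX : ∀ i j, (P i).1 = (P j).1 → i = j) {a b : ι}
    (hab : T a b) (hk : ∃ k, 0 < cr (P a) (P b) (P k)) :
    ∃ x, T a x ∧ 0 < cr (P a) (P b) (P x) := by
  rcases lt_trichotomy (P a).1 (P b).1 with hlt | heq | hgt
  · exact h.nbr_left0 hX hab hlt hk
  · exact absurd (hX _ _ heq) (h.ne _ _ hab)
  · have hD : (-1 : ℝ) * (-1) - 0 * 0 ≠ 0 := by norm_num
    have A1 : ∀ z, (aff (-1) 0 0 0 (-1) 0 z).1 = - z.1 := by intro z; simp [aff]
    have Ac : ∀ x y z, cr (aff (-1) 0 0 0 (-1) 0 x) (aff (-1) 0 0 0 (-1) 0 y)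
        (aff (-1) 0 0 0 (-1) 0 z) = cr x y z := by intro x y z; rw [cr_aff]; ring
    obtain ⟨x, x1, x2⟩ := (h.map (e := 0) (f := 0) hD).nbr_left0 (a := a) (b := b)
      (by
        intro i j hij
        simp only [A1] at hij
        exact hX i j (by linarith)) hab (by rw [A1, A1]; linarith)
      (by obtain ⟨k, hk⟩ := hk; exact ⟨k, by rw [Ac]; exact hk⟩)
    rw [Ac] at x2
    exact ⟨x, x1, x2⟩

/-- every edge with a point on its left bounds an empty triangle on its left -/
lemma Pl.edge_tri [Fintype ι] (h : Pl P T) (hX : ∀ i j, (P i).1 = (P j).1 → i = j) {a b : ι}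
    (hab : T a b) (hk : ∃ k, 0 < cr (P a) (P b) (P k)) : ∃ c, Tri P T a b c := by
  classical
  obtain ⟨x0, hx0, hx0'⟩ := h.nbr_left hX hab hk
  set dot : ℝ × ℝ → ℝ := fun z =>
    ((P b).1 - (P a).1) * (z.1 - (P a).1) + ((P b).2 - (P a).2) * (z.2 - (P a).2) with hdot
  set S : Finset ι := Finset.univ.filter (fun k => T a k ∧ 0 < cr (P a) (P b) (P k)) with hS
  have hSne : S.Nonempty := ⟨x0, by simp [hS, hx0, hx0']⟩
  obtain ⟨x, hxS, hmax⟩ := S.exists_max_image (fun k => dot (P k) / cr (P a) (P b) (P k)) hSne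
  simp only [hS, Finset.mem_filter, Finset.mem_univ, true_and] at hxS hmax
  obtain ⟨hx1, hx2⟩ := hxS
  refine ⟨x, h.wedge hab hx1 hx2 ?_⟩
  intro y hy hy1 hy2
  have h1 := hmax y ⟨hy, hy1⟩
  rw [div_le_div_iff₀ hy1 hx2] at h1
  have e : (((P b).1 - (P a).1) ^ 2 + ((P b).2 - (P a).2) ^ 2) * cr (P a) (P y) (P x) =
      dot (P y) * cr (P a) (P b) (P x) - dot (P x) * cr (P a) (P b) (P y) := by
    simp only [hdot, cr]; ring
  have hpos : 0 < ((P b).1 - (P a).1) ^ 2 + ((P b).2 - (P a).2) ^ 2 := by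
    by_contra hcon
    push Not at hcon
    have e1 : (P b).1 - (P a).1 = 0 := by nlinarith [sq_nonneg ((P b).1 - (P a).1), sq_nonneg ((P b).2 - (P a).2)]
    have e2 : (P b).2 - (P a).2 = 0 := by nlinarith [sq_nonneg ((P b).1 - (P a).1), sq_nonneg ((P b).2 - (P a).2)]
    unfold cr at hx2
    rw [e1, e2] at hx2
    simp at hx2
  have := mul_pos hpos hy2
  linarith

end Pool.Agent.Helper18.Diag
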