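import Pool.Agent.Helper18.DiagCount

namespace Pool.Agent.Helper18.Diag

open Classical

variable {ι : Type} {P : ι → ℝ × ℝ} {T : ι → ι → Prop}

/-- sort a pair by abscissa -/
noncomputable def srt (P : ι → ℝ × ℝ) (i j : ι) : ι × ι :=
  if (P i).1 < (P j).1 then (i, j) else (j, i)

lemma srt_lt (hX : ∀ i j, (P i).1 = (P j).1 → i = j) {i j : ι} (h : i ≠ j) :
    (P (srt P i j).1).1 < (P (srt P i j).2).1 := by
  unfold srt
  split_ifs with h1
  · exact h1
  · exact lt_of_le_of_ne (not_lt.1 h1) (fun e => h (hX _ _ e).symm)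

lemma srt_cases (i j : ι) : srt P i j = (i, j) ∨ srt P i j = (j, i) := by
  unfold srt
  split_ifs <;> simp

lemma srt_eq {i j : ι} (h : (P i).1 < (P j).1) : srt P i j = (i, j) := by
  unfold srt; rw [if_pos h]

lemma srt_eq' {i j : ι} (h : (P i).1 < (P j).1) : srt P j i = (i, j) := by
  unfold srt; rw [if_neg (not_lt.2 h.le)]

/-- adjacency in the polygon -/
def Adj (σ : Equiv.Perm ι) (i j : ι) : Prop := j = σ i ∨ i = σ j

lemma Adj.symm {σ : Equiv.Perm ι} {i j : ι} (h : Adj σ i j) : Adj σ j i := Or.symm h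

noncomputable def EH [Fintype ι] (P : ι → ℝ × ℝ) (T : ι → ι → Prop) : Finset (ι × ι) :=
  (ET P T).filter (fun e => (∀ k, cr (P e.1) (P e.2) (P k) ≤ 0) ∨
    (∀ k, 0 ≤ cr (P e.1) (P e.2) (P k)))

lemma hull_of_left {a b : ι} (hab : (P a).1 < (P b).1)
    (h : (∀ k, cr (P a) (P b) (P k) ≤ 0) ∨ (∀ k, 0 ≤ cr (P a) (P b) (P k))) : Hull P a := by
  rcases h with h | h
  · refine ⟨-((P b).2 - (P a).2), (P b).1 - (P a).1, Or.inr (by linarith), fun k => ?_⟩
    have := h k
    unfold cr at this; linarith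
  · refine ⟨(P b).2 - (P a).2, -((P b).1 - (P a).1), Or.inr (by linarith), fun k => ?_⟩
    have := h k
    unfold cr at this; linarith

lemma hull_of_right {a b : ι} (hab : (P a).1 < (P b).1)
    (h : (∀ k, cr (P a) (P b) (P k) ≤ 0) ∨ (∀ k, 0 ≤ cr (P a) (P b) (P k))) : Hull P b := by
  rcases h with h | h
  · refine ⟨-((P b).2 - (P a).2), (P b).1 - (P a).1, Or.inr (by linarith), fun k => ?_⟩
    have := h k
    unfold cr at this; linarith
  · refine ⟨(P b).2 - (P a).2, -((P b).1 - (P a).1), Or.inr (by linarith), fun k => ?_⟩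
    have := h k
    unfold cr at this; linarith

lemma Pl.card_EH [Fintype ι] (h : Pl P T) (hcol : ∃ i j k, cr (P i) (P j) (P k) ≠ 0) :
    (EH P T).card ≤ (Finset.univ.filter (Hull P)).card := by
  have nocol : ∀ a b, (P a).1 < (P b).1 → (∀ k, cr (P a) (P b) (P k) ≤ 0) →
      (∀ k, 0 ≤ cr (P a) (P b) (P k)) → False := by
    intro a b hab h1 h2
    have h0 : ∀ k, cr (P a) (P b) (P k) = 0 := fun k => le_antisymm (h1 k) (h2 k)
    obtain ⟨i, j, k, hijk⟩ := hcol
    have hne : P a ≠ P b := by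
      intro e; rw [e] at hab; exact lt_irrefl _ hab
    obtain ⟨s1, s2, s3⟩ := exists_param hne (h0 i)
    obtain ⟨t1, t2, t3⟩ := exists_param hne (h0 j)
    obtain ⟨u1, u2, u3⟩ := exists_param hne (h0 k)
    apply hijk
    unfold cr
    rw [s2, s3, t2, t3, u2, u3]; ring
  set f : ι × ι → ι := fun e => if (∀ k, cr (P e.1) (P e.2) (P k) ≤ 0) then e.1 else e.2 with hf
  apply Finset.card_le_card_of_injOn f
  · intro e he
    simp only [EH, Finset.coe_filter, Set.mem_ofPred_eq, mem_ET] at he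
    simp only [Finset.coe_filter, Set.mem_ofPred_eq, Finset.mem_univ, true_and, hf]
    split_ifs
    · exact hull_of_left he.1.1 he.2
    · exact hull_of_right he.1.1 he.2
  · rintro ⟨a, b⟩ he ⟨c, d⟩ he' hfe
    simp only [EH, Finset.coe_filter, Set.mem_ofPred_eq, mem_ET] at he he'
    obtain ⟨⟨hab, hT⟩, hs⟩ := he
    obtain ⟨⟨hcd, hT'⟩, hs'⟩ := he'
    simp only [hf] at hfe
    by_cases u1 : ∀ k, cr (P a) (P b) (P k) ≤ 0
    · by_cases u2 : ∀ k, cr (P c) (P d) (P k) ≤ 0
      · rw [if_pos u1, if_pos u2] at hfe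
        subst hfe
        have e1 := u1 d
        have e2 := u2 b
        rw [cr_swap'] at e2
        have e0 : cr (P a) (P b) (P d) = 0 := by linarith
        have hne : P a ≠ P b := fun e => h.ne _ _ hT (h.inj e)
        obtain ⟨s, s1, s2⟩ := exists_param hne e0
        have s0 : 0 < s := by
          by_contra hc; push Not at hc; nlinarith
        rw [h.ray' hT hT' s0 s1 s2]
      · rw [if_pos u1, if_neg u2] at hfe
        exfalso
        subst hfe
        have l2 : ∀ k, 0 ≤ cr (P c) (P a) (P k) := hs'.resolve_left u2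
        have e1 := u1 c
        have e2 := l2 b
        rw [cr_cyc] at e2
        rw [← cr_cyc] at e1
        have e1' : cr (P a) (P b) (P c) ≤ 0 := by rw [cr_cyc] at e1; exact e1
        have e2' : 0 ≤ cr (P a) (P b) (P c) := by
          have := l2 b
          rw [← cr_cyc (P c) (P a) (P b)] at this
          exact this
        have e0 : cr (P a) (P b) (P c) = 0 := le_antisymm e1' e2'
        have hne : P a ≠ P b := fun e => h.ne _ _ hT (h.inj e)
        obtain ⟨s, s1, s2⟩ := exists_param hne e0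
        have s0 : s < 0 := by
          by_contra hc; push Not at hc; nlinarith
        -- line through c a is the line through a b
        refine nocol a b hab u1 (fun k => ?_)
        have hk := l2 k
        have e : cr (P c) (P a) (P k) = -s * cr (P a) (P b) (P k) := by
          unfold cr; rw [s1, s2]; ring
        rw [e] at hk
        by_contra hc; push Not at hc; nlinarith
    · by_cases u2 : ∀ k, cr (P c) (P d) (P k) ≤ 0
      · rw [if_neg u1, if_pos u2] at hfe
        exfalso
        subst hfe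
        have l1 : ∀ k, 0 ≤ cr (P a) (P b) (P k) := hs.resolve_left u1
        have e1 := u2 a
        have e2 := l1 d
        have e1' : cr (P a) (P b) (P d) ≤ 0 := by
          rw [cr_cyc (P a)] at e1; exact e1
        have e0 : cr (P a) (P b) (P d) = 0 := le_antisymm e1' e2
        have hne : P a ≠ P b := fun e => h.ne _ _ hT (h.inj e)
        obtain ⟨s, s1, s2⟩ := exists_param hne e0
        have s0 : 1 < s := by
          by_contra hc; push Not at hc; nlinarith
        refine nocol a b hab (fun k => ?_) l1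
        have hk := u2 k
        have e : cr (P b) (P d) (P k) = (s - 1) * cr (P a) (P b) (P k) := by
          unfold cr; rw [s1, s2]; ring
        rw [e] at hk
        by_contra hc; push Not at hc; nlinarith
      · rw [if_neg u1, if_neg u2] at hfe
        subst hfe
        have l1 : ∀ k, 0 ≤ cr (P a) (P b) (P k) := hs.resolve_left u1
        have l2 : ∀ k, 0 ≤ cr (P c) (P b) (P k) := hs'.resolve_left u2
        have e1 := l1 c
        have e2 := l2 a
        have e2' : cr (P a) (P b) (P c) ≤ 0 := by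
          have : cr (P c) (P b) (P a) = - cr (P a) (P b) (P c) := by unfold cr; ring
          rw [this] at e2; linarith
        have e0 : cr (P a) (P b) (P c) = 0 := le_antisymm e2' e1
        have e0' : cr (P b) (P a) (P c) = 0 := by rw [cr_swap, e0]; ring
        have hne : P b ≠ P a := fun e => h.ne _ _ hT (h.inj e).symm
        obtain ⟨s, s1, s2⟩ := exists_param hne e0'
        have s0 : 0 < s := by
          by_contra hc; push Not at hc; nlinarith
        rw [h.ray' (h.symm _ _ hT) (h.symm _ _ hT') s0 s1 s2]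

lemma Poly.card_hull_adj [Fintype ι] {σ : Equiv.Perm ι} (hp : Poly P σ) (hT : ∀ i, T i (σ i))
    (h : Pl P T) (hX : ∀ i j, (P i).1 = (P j).1 → i = j) :
    2 * (Finset.univ.filter (Hull P)).card ≤
      ((EH P T).filter (fun e => Adj σ e.1 e.2)).card + Fintype.card ι := by
  set H : Finset ι := Finset.univ.filter (Hull P) with hH
  set H' : Finset ι := Finset.univ.filter (fun i => Hull P (σ i)) with hH'
  have hc : H'.card = H.card := by
    have : H' = H.image σ.symm := by
      ext x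
      simp only [hH, hH', Finset.mem_filter, Finset.mem_univ, true_and, Finset.mem_image]
      constructor
      · intro hx; exact ⟨σ x, hx, by simp⟩
      · rintro ⟨y, hy, rfl⟩; simpa using hy
    rw [this, Finset.card_image_of_injective _ σ.symm.injective]
  have h1 := Finset.card_union_add_card_inter H H'
  have h2 : (H ∪ H').card ≤ Fintype.card ι := Finset.card_le_univ _
  have h3 : (H ∩ H').card ≤ ((EH P T).filter (fun e => Adj σ e.1 e.2)).card := by
    apply Finset.card_le_card_of_injOn (fun i => srt P i (σ i))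
    · intro i hi
      simp only [hH, hH', Finset.coe_inter, Finset.coe_filter, Finset.mem_univ, true_and,
        Set.mem_inter_iff, Set.mem_ofPred_eq] at hi
      simp only [EH, Finset.coe_filter, Finset.mem_filter, mem_ET, Set.mem_ofPred_eq]
      have hlt := srt_lt hX (hp.ne i).symm
      have hch := hp.chord hi.1 hi.2
      rcases srt_cases (P := P) i (σ i) with e | e
      · rw [e] at hlt ⊢
        exact ⟨⟨⟨hlt, hT i⟩, hch.symm⟩, Or.inl rfl⟩
      · rw [e] at hlt ⊢
        refine ⟨⟨⟨hlt, h.symm _ _ (hT i)⟩, ?_⟩, Or.inr rfl⟩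
        rcases hch with hch | hch
        · left; intro k; have := hch k; rw [cr_swap]; linarith
        · right; intro k; have := hch k; rw [cr_swap]; linarith
    · intro i _ j _ hij
      simp only at hij
      rcases srt_cases (P := P) i (σ i) with e | e <;>
        rcases srt_cases (P := P) j (σ j) with e' | e' <;> rw [e, e'] at hij
      · exact (Prod.mk.inj hij).1
      · exfalso
        obtain ⟨a1, a2⟩ := Prod.mk.inj hij
        rw [a1] at a2
        exact hp.ne2 j a2
      · exfalso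
        obtain ⟨a1, a2⟩ := Prod.mk.inj hij
        rw [← a1] at a2
        exact hp.ne2 i a2.symm
      · exact (Prod.mk.inj hij).2
  omega

/-- non-polygon edges that cannot be flipped because of one of their endpoints -/
noncomputable def EU [Fintype ι] (P : ι → ℝ × ℝ) (T : ι → ι → Prop) (σ : Equiv.Perm ι) :
    Finset (ι × ι) :=
  (ET P T).filter (fun e => ¬ Adj σ e.1 e.2 ∧ (Ch P T e.1 e.2 ∨ Ch P T e.2 e.1))

lemma Poly.card_EU [Fintype ι] {σ : Equiv.Perm ι} (hp : Poly P σ) (hT : ∀ i, T i (σ i))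
    (h : Pl P T) :
    (EU P T σ).card ≤ (Finset.univ.filter (fun v => ¬ Hull P v)).card * 2 := by
  set N : ι → Finset ι := fun v => Finset.univ.filter
    (fun b => T v b ∧ ¬ Adj σ v b ∧ Ch P T v b) with hN
  have memN : ∀ v b, b ∈ N v ↔ T v b ∧ ¬ Adj σ v b ∧ Ch P T v b := by intro v b; simp [hN]
  have hTs : ∀ v, T v (σ.symm v) := by
    intro v
    have := hT (σ.symm v)
    rw [Equiv.apply_symm_apply] at this
    exact h.symm _ _ this
  have adj1 : ∀ v, Adj σ v (σ v) := fun v => Or.inl rfl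
  have adj2 : ∀ v, Adj σ v (σ.symm v) := fun v => Or.inr (by simp)
  have hpq : ∀ v, σ v ≠ σ.symm v := by
    intro v e
    apply hp.ne2 (σ.symm v)
    rw [Equiv.apply_symm_apply, e]
  have hNh : ∀ v, Hull P v → N v = ∅ := by
    intro v hv
    rw [Finset.eq_empty_iff_forall_notMem]
    intro b hb
    rw [memN] at hb
    obtain ⟨b1, b2, b3⟩ := hb
    have := b3.hull h hv (hT v) (hTs v) (fun e => b2 (e ▸ adj1 v)) (fun e => b2 (e ▸ adj2 v))
    have hg := hp.gen (σ.symm v)
    rw [Equiv.apply_symm_apply] at hg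
    apply hg
    rw [← cr_cyc]; exact this
  have hN2 : ∀ v, (N v).card ≤ 2 := by
    intro v
    by_contra hcon
    push Not at hcon
    obtain ⟨x, y, z, hx, hy, hz, hxy, hxz, hyz⟩ := Finset.two_lt_card_iff.1 hcon
    rw [memN] at hx hy hz
    exact h.three hx.1 hy.1 hz.1 (hT v) (hTs v) hx.2.2 hy.2.2 hz.2.2 hxy hxz hyz
      (fun e => hx.2.1 (e ▸ adj1 v)) (fun e => hy.2.1 (e ▸ adj1 v)) (fun e => hz.2.1 (e ▸ adj1 v))
      (fun e => hx.2.1 (e ▸ adj2 v)) (fun e => hy.2.1 (e ▸ adj2 v)) (fun e => hz.2.1 (e ▸ adj2 v))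
      (hpq v)
  have hsub : EU P T σ ⊆ (Finset.univ.filter (fun v => ¬ Hull P v)).biUnion
      (fun v => (N v).image (fun b => srt P v b)) := by
    rintro ⟨a, b⟩ he
    simp only [EU, Finset.mem_filter, mem_ET] at he
    obtain ⟨⟨hab, hTab⟩, hadj, hch⟩ := he
    rw [Finset.mem_biUnion]
    rcases hch with hch | hch
    · have hbN : b ∈ N a := (memN _ _).2 ⟨hTab, hadj, hch⟩
      refine ⟨a, ?_, ?_⟩
      · simp only [Finset.mem_filter, Finset.mem_univ, true_and]
        intro hh
        rw [hNh a hh] at hbN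
        simp at hbN
      · rw [Finset.mem_image]
        exact ⟨b, hbN, srt_eq hab⟩
    · have haN : a ∈ N b := (memN _ _).2 ⟨h.symm _ _ hTab, fun e => hadj e.symm, hch⟩
      refine ⟨b, ?_, ?_⟩
      · simp only [Finset.mem_filter, Finset.mem_univ, true_and]
        intro hh
        rw [hNh b hh] at haN
        simp at haN
      · rw [Finset.mem_image]
        exact ⟨a, haN, srt_eq' hab⟩
  refine le_trans (Finset.card_le_card hsub) ?_
  apply Finset.card_biUnion_le_card_mul
  intro v _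
  exact le_trans Finset.card_image_le (hN2 v)

/-- flippable non-polygon edges -/
noncomputable def EF [Fintype ι] (P : ι → ℝ × ℝ) (T : ι → ι → Prop) (σ : Equiv.Perm ι) :
    Finset (ι × ι) :=
  (ET P T).filter (fun e => ¬ Adj σ e.1 e.2 ∧ ∃ c d, ∃ w, Tri P T e.1 e.2 c ∧
    Tri P T e.2 e.1 d ∧ Btw (P e.1) (P e.2) w ∧ Btw (P c) (P d) w)

/-- visible non-adjacent pairs -/
noncomputable def VV [Fintype ι] (P : ι → ℝ × ℝ) (σ : Equiv.Perm ι) : Finset (ι × ι) :=
  Finset.univ.filter (fun e => (P e.1).1 < (P e.2).1 ∧ ¬ Adj σ e.1 e.2 ∧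
    (∀ k, ¬ Btw (P e.1) (P e.2) (P k)) ∧
    (∀ i z, Btw (P i) (P (σ i)) z → ¬ Btw (P e.1) (P e.2) z))

lemma mem_VV [Fintype ι] {σ : Equiv.Perm ι} (e : ι × ι) : e ∈ VV P σ ↔
    (P e.1).1 < (P e.2).1 ∧ ¬ Adj σ e.1 e.2 ∧
    (∀ k, ¬ Btw (P e.1) (P e.2) (P k)) ∧
    (∀ i z, Btw (P i) (P (σ i)) z → ¬ Btw (P e.1) (P e.2) z) := by
  simp [VV]

lemma Poly.card_VV [Fintype ι] {σ : Equiv.Perm ι} (hT : ∀ i, T i (σ i))
    (h : Pl P T) (hX : ∀ i j, (P i).1 = (P j).1 → i = j) :
    ((ET P T).filter (fun e => ¬ Adj σ e.1 e.2)).card + (EF P T σ).card ≤ (VV P σ).card := by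
  have hflip : ∀ e : ι × ι, ∃ g : ι × ι, e ∈ EF P T σ → (∃ c d, ∃ w, Tri P T e.1 e.2 c ∧
    Tri P T e.2 e.1 d ∧ Btw (P e.1) (P e.2) w ∧ Btw (P c) (P d) w ∧ g = srt P c d) := by
    intro e
    by_cases he : e ∈ EF P T σ
    · simp only [EF, Finset.mem_filter] at he
      obtain ⟨-, -, c, d, w, h1, h2, h3, h4⟩ := he
      exact ⟨srt P c d, fun _ => ⟨c, d, w, h1, h2, h3, h4, rfl⟩⟩
    · exact ⟨e, fun h' => absurd h' he⟩
  choose g hg using hflip
  -- consequences
  have cons : ∀ e ∈ EF P T σ, (∀ k, ¬ Btw (P (g e).1) (P (g e).2) (P k)) ∧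
      (∀ p q z, T p q → Btw (P p) (P q) z → Btw (P (g e).1) (P (g e).2) z →
        (p = e.1 ∧ q = e.2) ∨ (p = e.2 ∧ q = e.1)) ∧
      (∃ w, Btw (P e.1) (P e.2) w ∧ Btw (P (g e).1) (P (g e).2) w) ∧
      (P (g e).1).1 < (P (g e).2).1 ∧ (g e).1 ≠ e.1 ∧ (g e).1 ≠ e.2 := by
    intro e he
    obtain ⟨c, d, w, h1, h2, h3, h4, h5⟩ := hg e he
    obtain ⟨f1, f2⟩ := h.flip h1 h2 h3 h4
    have hcd : c ≠ d := by
      rintro rfl
      exact absurd h1.pos (by have := h2.pos; rw [cr_swap] at this; linarith)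
    have hlt := srt_lt hX hcd
    rw [← h5] at hlt
    have n1 : c ≠ e.1 := fun e' => h.ne _ _ h1.ca e'
    have n2 : c ≠ e.2 := fun e' => h.ne _ _ h1.bc e'.symm
    have n3 : d ≠ e.2 := fun e' => h.ne _ _ h2.ca e'
    have n4 : d ≠ e.1 := fun e' => h.ne _ _ h2.bc e'.symm
    rcases srt_cases (P := P) c d with e' | e'
    · rw [e'] at h5
      rw [h5] at hlt ⊢
      exact ⟨f1, f2, ⟨w, h3, h4⟩, hlt, n1, n2⟩
    · rw [e'] at h5
      rw [h5] at hlt ⊢
      exact ⟨fun k hk => f1 k hk.symm, fun p q z hpq hz hz2 => f2 p q z hpq hz hz2.symm,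
        ⟨w, h3, h4.symm⟩, hlt, n4, n3⟩
  have notT : ∀ e ∈ EF P T σ, ¬ T (g e).1 (g e).2 := by
    intro e he hT'
    obtain ⟨-, f2, ⟨w, hw1, hw2⟩, -, n1, n2⟩ := cons e he
    rcases f2 _ _ w hT' hw2 hw2 with ⟨e1, -⟩ | ⟨e1, -⟩
    · exact n1 e1
    · exact n2 e1
  have hinj : Set.InjOn g (EF P T σ) := by
    intro e he e' he' hgg
    obtain ⟨-, f2, -, -, -, -⟩ := cons e he
    obtain ⟨-, -, ⟨w, hw1, hw2⟩, -, -, -⟩ := cons e' he'
    rw [← hgg] at hw2
    have he0 := he
    have he0' := he'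
    simp only [EF, Finset.coe_filter, Set.mem_ofPred_eq, mem_ET] at he0 he0'
    rcases f2 _ _ w he0'.1.2 hw1 hw2 with ⟨e1, e2⟩ | ⟨e1, e2⟩
    · exact Prod.ext e1.symm e2.symm
    · exfalso
      have l1 := he0.1.1
      have l2 := he0'.1.1
      rw [e1, e2] at l2
      linarith
  rw [← Finset.card_image_of_injOn hinj, ← Finset.card_union_of_disjoint]
  · apply Finset.card_le_card
    intro e he
    rw [Finset.mem_union] at he
    rw [mem_VV]
    rcases he with he | he
    · simp only [Finset.mem_filter, mem_ET] at he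
      obtain ⟨⟨h1, h2⟩, h3⟩ := he
      refine ⟨h1, h3, h.clean _ _ h2, ?_⟩
      intro i z hz hz2
      rcases h.disj _ _ _ _ z h2 (hT i) hz2 hz with ⟨e1, e2⟩ | ⟨e1, e2⟩
      · apply h3; left; rw [e1, e2]
      · apply h3; right; rw [e1, e2]
    · rw [Finset.mem_image] at he
      obtain ⟨e', he', rfl⟩ := he
      obtain ⟨f1, f2, f3, f4, n1, n2⟩ := cons e' he'
      have hadj : ¬ Adj σ (g e').1 (g e').2 := by
        rintro (hh | hh)
        · apply notT e' he'
          rw [hh]; exact hT _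
        · apply notT e' he'
          have := h.symm _ _ (hT (g e').2)
          rw [← hh] at this
          exact this
      refine ⟨f4, hadj, f1, ?_⟩
      intro i z hz hz2
      have he0 := he'
      simp only [EF, Finset.mem_filter, mem_ET] at he0
      rcases f2 i (σ i) z (hT i) hz hz2 with ⟨e1, e2⟩ | ⟨e1, e2⟩
      · apply he0.2.1; left; rw [← e1, ← e2]
      · apply he0.2.1; right; rw [← e1, ← e2]
  · rw [Finset.disjoint_left]
    intro e he he'
    simp only [Finset.mem_filter, mem_ET] at he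
    rw [Finset.mem_image] at he'
    obtain ⟨e', he', rfl⟩ := he'
    exact notT e' he' he.1.2

theorem Poly.main0 [Fintype ι] {σ : Equiv.Perm ι} (hp : Poly P σ)
    (hX : ∀ i j, (P i).1 = (P j).1 → i = j) [Nonempty ι] :
    3 * Fintype.card ι ≤ 2 * (VV P σ).card + 9 := by
  obtain ⟨T, h, hT⟩ := hp.exists_pl
  have i0 : ι := Classical.arbitrary ι
  have hcol : ∃ i j k, cr (P i) (P j) (P k) ≠ 0 := ⟨i0, σ i0, σ (σ i0), hp.gen i0⟩
  obtain ⟨L, -, hL⟩ := (Finset.univ : Finset ι).exists_min_image (fun k => (P k).1)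
    ⟨i0, Finset.mem_univ _⟩
  obtain ⟨R, -, hR⟩ := (Finset.univ : Finset ι).exists_max_image (fun k => (P k).1)
    ⟨i0, Finset.mem_univ _⟩
  have hL' : ∀ k, k ≠ L → (P L).1 < (P k).1 := fun k hk =>
    lt_of_le_of_ne (hL k (Finset.mem_univ _)) (fun e => hk (hX _ _ e).symm)
  have hR' : ∀ k, k ≠ R → (P k).1 < (P R).1 := fun k hk =>
    lt_of_le_of_ne (hR k (Finset.mem_univ _)) (fun e => hk (hX _ _ e))
  have hLR : L ≠ R := by
    rintro rfl
    by_cases h' : i0 = L
    · have := hL' (σ i0) (by rw [← h']; exact hp.ne i0)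
      have := hR' (σ i0) (by rw [← h']; exact hp.ne i0)
      linarith
    · linarith [hL' i0 h', hR' i0 h']
  have C1 := h.count hX hcol hL' hR' hLR
  have C2 := h.card_EH hcol
  have C3 := hp.card_hull_adj hT h hX
  have C4 := hp.card_EU hT h
  have C6 := Poly.card_VV hT h hX
  -- number of polygon edges
  have CP : ((ET P T).filter (fun e => Adj σ e.1 e.2)).card ≤ Fintype.card ι := by
    have : (ET P T).filter (fun e => Adj σ e.1 e.2) ⊆
        (Finset.univ : Finset ι).image (fun i => srt P i (σ i)) := by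
      rintro ⟨a, b⟩ he
      simp only [Finset.mem_filter, mem_ET] at he
      rw [Finset.mem_image]
      rcases he.2 with e | e
      · refine ⟨a, Finset.mem_univ _, ?_⟩
        have e' : b = σ a := e
        rw [← e']; exact srt_eq he.1.1
      · refine ⟨b, Finset.mem_univ _, ?_⟩
        have e' : a = σ b := e
        rw [← e']; exact srt_eq' he.1.1
    calc _ ≤ _ := Finset.card_le_card this
      _ ≤ _ := Finset.card_image_le
      _ = _ := Finset.card_univ
  have CS : ((ET P T).filter (fun e => Adj σ e.1 e.2)).card +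
      ((ET P T).filter (fun e => ¬ Adj σ e.1 e.2)).card = (ET P T).card :=
    Finset.card_filter_add_card_filter_not _
  have CH : ((EH P T).filter (fun e => Adj σ e.1 e.2)).card +
      ((EH P T).filter (fun e => ¬ Adj σ e.1 e.2)).card = (EH P T).card :=
    Finset.card_filter_add_card_filter_not _
  have C5 : ((ET P T).filter (fun e => ¬ Adj σ e.1 e.2)).card ≤
      ((EH P T).filter (fun e => ¬ Adj σ e.1 e.2)).card + (EU P T σ).card + (EF P T σ).card := by
    have : (ET P T).filter (fun e => ¬ Adj σ e.1 e.2) ⊆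
        ((EH P T).filter (fun e => ¬ Adj σ e.1 e.2)) ∪ EU P T σ ∪ EF P T σ := by
      rintro ⟨a, b⟩ he
      simp only [Finset.mem_filter, mem_ET] at he
      obtain ⟨⟨hab, hTab⟩, hadj⟩ := he
      simp only [Finset.mem_union, EH, EU, EF, Finset.mem_filter, mem_ET]
      by_cases hh : (∀ k, cr (P a) (P b) (P k) ≤ 0) ∨ (∀ k, 0 ≤ cr (P a) (P b) (P k))
      · left; left
        exact ⟨⟨⟨hab, hTab⟩, hh⟩, hadj⟩
      · push Not at hh
        obtain ⟨⟨x, hx⟩, ⟨y, hy⟩⟩ := hh
        obtain ⟨c, hc⟩ := h.edge_tri hX hTab ⟨x, hx⟩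
        obtain ⟨d, hd⟩ := h.edge_tri hX (h.symm _ _ hTab) ⟨y, by rw [cr_swap]; linarith⟩
        have hne : P a ≠ P b := fun e => h.ne _ _ hTab (h.inj e)
        rcases flip_or_ch hne hc hd with ⟨w, hw1, hw2⟩ | hch
        · right
          exact ⟨⟨hab, hTab⟩, hadj, c, d, w, hc, hd, hw1, hw2⟩
        · left; right
          exact ⟨⟨hab, hTab⟩, hadj, hch⟩
    calc _ ≤ _ := Finset.card_le_card this
      _ ≤ _ := Finset.card_union_le _ _
      _ ≤ _ := Nat.add_le_add_right (Finset.card_union_le _ _) _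
  have e2 : (Finset.univ.filter (Hull P)).card + (Finset.univ.filter (fun v => ¬ Hull P v)).card
      = Fintype.card ι := by
    rw [Finset.card_filter_add_card_filter_not, Finset.card_univ]
  omega

end Pool.Agent.Helper18.Diag
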