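import Pool.Agent.Helper18.DiagFlip

namespace Pool.Agent.Helper18.Diag

variable {ι : Type} {P : ι → ℝ × ℝ} {T : ι → ι → Prop}

/-- combinatorial form of a simple polygon without straight angles -/
structure Poly (P : ι → ℝ × ℝ) (σ : Equiv.Perm ι) : Prop where
  inj : Function.Injective P
  clean : ∀ i k, ¬ Btw (P i) (P (σ i)) (P k)
  disj : ∀ i j z, i ≠ j → Btw (P i) (P (σ i)) z → ¬ Btw (P j) (P (σ j)) z
  gen : ∀ i, cr (P i) (P (σ i)) (P (σ (σ i))) ≠ 0
  cyc : ∀ i j, ∃ m : ℕ, (σ ^ m) i = j

/-- plane families of segments -/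
def PR (P : ι → ℝ × ℝ) (T : Set (ι × ι)) : Prop :=
  (∀ i j, (i, j) ∈ T → (j, i) ∈ T) ∧ (∀ i j, (i, j) ∈ T → i ≠ j) ∧
  (∀ i j, (i, j) ∈ T → ∀ k, ¬ Btw (P i) (P j) (P k)) ∧
  (∀ i j k l z, (i, j) ∈ T → (k, l) ∈ T → Btw (P i) (P j) z → Btw (P k) (P l) z →
    (i = k ∧ j = l) ∨ (i = l ∧ j = k))

lemma Poly.ne {σ : Equiv.Perm ι} (h : Poly P σ) (i : ι) : σ i ≠ i := by
  intro e
  have := h.gen i
  rw [e, e, cr_self] at this
  exact this rfl

lemma Poly.ne2 {σ : Equiv.Perm ι} (h : Poly P σ) (i : ι) : σ (σ i) ≠ i := by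
  intro e
  have := h.gen i
  rw [e, cr_self] at this
  exact this rfl

lemma exists_pl_of_PR [Finite ι] (hinj : Function.Injective P) {σ : Equiv.Perm ι}
    (hA : PR P {e : ι × ι | e.2 = σ e.1 ∨ e.1 = σ e.2}) :
    ∃ T : ι → ι → Prop, Pl P T ∧ ∀ i, T i (σ i) := by
  obtain ⟨T, hAT, hT⟩ := Finite.exists_le_maximal (p := PR P) hA
  obtain ⟨hT1, hT2⟩ := hT
  refine ⟨fun i j => (i, j) ∈ T, ⟨hinj, hT1.1, hT1.2.1, hT1.2.2.1, hT1.2.2.2, ?_⟩, ?_⟩
  · intro i j hij hc hd
    have hd' : ∀ k l z, (k, l) ∈ T → Btw (P i) (P j) z → Btw (P k) (P l) z →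
        (i = k ∧ j = l) ∨ (i = l ∧ j = k) := hd
    have hPR : PR P (T ∪ {(i, j), (j, i)}) := by
      refine ⟨?_, ?_, ?_, ?_⟩
      · intro a b hab
        simp only [Set.mem_union, Set.mem_insert_iff, Prod.mk.injEq, Set.mem_singleton_iff]
          at hab ⊢
        rcases hab with hab | hab | hab
        · left; exact hT1.1 a b hab
        · right; right; exact ⟨hab.2, hab.1⟩
        · right; left; exact ⟨hab.2, hab.1⟩
      · intro a b hab
        simp only [Set.mem_union, Set.mem_insert_iff, Prod.mk.injEq, Set.mem_singleton_iff]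
          at hab
        rcases hab with hab | ⟨rfl, rfl⟩ | ⟨rfl, rfl⟩
        · exact hT1.2.1 a b hab
        · exact hij
        · exact hij.symm
      · intro a b hab k hk
        simp only [Set.mem_union, Set.mem_insert_iff, Prod.mk.injEq, Set.mem_singleton_iff]
          at hab
        rcases hab with hab | ⟨rfl, rfl⟩ | ⟨rfl, rfl⟩
        · exact hT1.2.2.1 a b hab k hk
        · exact hc k hk
        · exact hc k hk.symm
      · intro a b k l z hab hkl h1 h2
        simp only [Set.mem_union, Set.mem_insert_iff, Prod.mk.injEq, Set.mem_singleton_iff]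
          at hab hkl
        rcases hab with hab | ⟨rfl, rfl⟩ | ⟨rfl, rfl⟩ <;>
          rcases hkl with hkl | ⟨rfl, rfl⟩ | ⟨rfl, rfl⟩
        · exact hT1.2.2.2 a b k l z hab hkl h1 h2
        · rcases hd' a b z hab h2 h1 with ⟨e, e'⟩ | ⟨e, e'⟩
          · left; exact ⟨e.symm, e'.symm⟩
          · right; exact ⟨e'.symm, e.symm⟩
        · rcases hd' a b z hab h2.symm h1 with ⟨e, e'⟩ | ⟨e, e'⟩
          · right; exact ⟨e.symm, e'.symm⟩
          · left; exact ⟨e'.symm, e.symm⟩
        · exact hd' k l z hkl h1 h2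
        · left; exact ⟨rfl, rfl⟩
        · right; exact ⟨rfl, rfl⟩
        · rcases hd' k l z hkl h1.symm h2 with ⟨e, e'⟩ | ⟨e, e'⟩
          · right; exact ⟨e', e⟩
          · left; exact ⟨e', e⟩
        · right; exact ⟨rfl, rfl⟩
        · left; exact ⟨rfl, rfl⟩
    exact hT2 hPR Set.subset_union_left (by simp)
  · intro i
    exact hAT (by simp)

lemma Poly.exists_pl [Finite ι] {σ : Equiv.Perm ι} (h : Poly P σ) :
    ∃ T : ι → ι → Prop, Pl P T ∧ ∀ i, T i (σ i) := by
  set A0 : Set (ι × ι) := {e | e.2 = σ e.1 ∨ e.1 = σ e.2} with hA0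
  have hA : PR P A0 := by
    refine ⟨?_, ?_, ?_, ?_⟩
    · intro i j hij
      simp only [hA0, Set.mem_ofPred_eq] at hij ⊢
      exact hij.symm
    · intro i j hij
      simp only [hA0, Set.mem_ofPred_eq] at hij
      rintro rfl
      rcases hij with e | e
      · exact h.ne _ e.symm
      · exact h.ne _ e.symm
    · intro i j hij k hk
      simp only [hA0, Set.mem_ofPred_eq] at hij
      rcases hij with rfl | rfl
      · exact h.clean _ _ hk
      · exact h.clean _ _ hk.symm
    · intro i j k l z hij hkl h1 h2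
      simp only [hA0, Set.mem_ofPred_eq] at hij hkl
      rcases hij with rfl | rfl <;> rcases hkl with rfl | rfl
      · by_cases e : i = k
        · left; simp [e]
        · exact (h.disj i k z e h1 h2).elim
      · by_cases e : i = l
        · right; simp [e]
        · exact (h.disj i l z e h1 h2.symm).elim
      · by_cases e : j = k
        · right; simp [e]
        · exact (h.disj j k z e h1.symm h2).elim
      · by_cases e : j = l
        · left; simp [e]
        · exact (h.disj j l z e h1.symm h2.symm).elim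
  exact exists_pl_of_PR h.inj hA

/-- crossing lemma at the hull -/
lemma hull_cross {a b x y : ι} (hab : P a ≠ P b) (ha : Hull P a) (hb : Hull P b)
    (hx : 0 < cr (P a) (P b) (P x)) (hy : cr (P a) (P b) (P y) < 0) :
    ∃ w, Btw (P x) (P y) w ∧ (w = P a ∨ w = P b ∨ Btw (P a) (P b) w) := by
  set D1 := cr (P a) (P b) (P x) with hD1
  set D2 := -cr (P a) (P b) (P y) with hD2
  have hD2p : 0 < D2 := by linarith
  set l := D1 / (D1 + D2) with hl
  have l0 : 0 < l := by positivity
  have l1 : l < 1 := by rw [hl, div_lt_one (by linarith)]; linarith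
  set w : ℝ × ℝ := ((P x).1 + l * ((P y).1 - (P x).1), (P x).2 + l * ((P y).2 - (P x).2)) with hw
  have w1 : w.1 = (P x).1 + l * ((P y).1 - (P x).1) := rfl
  have w2 : w.2 = (P x).2 + l * ((P y).2 - (P x).2) := rfl
  have hw0 : cr (P a) (P b) w = 0 := by
    rw [cr_lin w1 w2, ← hD1, show cr (P a) (P b) (P y) = -D2 by rw [hD2]; ring, hl]
    field_simp
    ring
  obtain ⟨s, s1, s2⟩ := exists_param hab hw0
  refine ⟨w, ⟨l, l0, l1, w1, w2⟩, ?_⟩
  rcases lt_trichotomy s 0 with hs | hs | hs
  · exfalso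
    obtain ⟨α, β, hne, hsup⟩ := ha
    have ex := hsup x
    have ey := hsup y
    have eb := hsup b
    have ew : α * (w.1 - (P a).1) + β * (w.2 - (P a).2) =
        s * (α * ((P b).1 - (P a).1) + β * ((P b).2 - (P a).2)) := by rw [s1, s2]; ring
    have ew2 : α * (w.1 - (P a).1) + β * (w.2 - (P a).2) =
        (1 - l) * (α * ((P x).1 - (P a).1) + β * ((P x).2 - (P a).2)) +
        l * (α * ((P y).1 - (P a).1) + β * ((P y).2 - (P a).2)) := by rw [w1, w2]; ring
    have m1 := mul_nonneg (show 0 ≤ 1 - l by linarith) (neg_nonneg.2 ex)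
    have m2 := mul_nonneg l0.le (neg_nonneg.2 ey)
    have m3 := mul_nonneg_of_nonpos_of_nonpos hs.le eb
    have z1 : (1 - l) * (α * ((P x).1 - (P a).1) + β * ((P x).2 - (P a).2)) = 0 := by linarith
    have z2 : s * (α * ((P b).1 - (P a).1) + β * ((P b).2 - (P a).2)) = 0 := by linarith
    have y1 := (mul_eq_zero.1 z1).resolve_left (by linarith)
    have y2 := (mul_eq_zero.1 z2).resolve_left hs.ne
    rw [hD1] at hx
    have : cr (P a) (P b) (P x) = 0 := by
      unfold cr
      rcases hne with h' | h'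
      · have : α * (((P b).1 - (P a).1) * ((P x).2 - (P a).2) -
            ((P b).2 - (P a).2) * ((P x).1 - (P a).1)) = 0 := by
          linear_combination ((P x).2 - (P a).2) * y2 - ((P b).2 - (P a).2) * y1
        exact (mul_eq_zero.1 this).resolve_left h'
      · have : β * (((P b).1 - (P a).1) * ((P x).2 - (P a).2) -
            ((P b).2 - (P a).2) * ((P x).1 - (P a).1)) = 0 := by
          linear_combination ((P b).1 - (P a).1) * y1 - ((P x).1 - (P a).1) * y2
        exact (mul_eq_zero.1 this).resolve_left h'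
    linarith
  · left
    subst hs
    ext
    · rw [s1]; ring
    · rw [s2]; ring
  · rcases lt_trichotomy s 1 with hs' | hs' | hs'
    · right; right; exact ⟨s, hs, hs', s1, s2⟩
    · right; left
      subst hs'
      ext
      · rw [s1]; ring
      · rw [s2]; ring
    · exfalso
      obtain ⟨α, β, hne, hsup⟩ := hb
      have ex := hsup x
      have ey := hsup y
      have ea := hsup a
      have ew : α * (w.1 - (P b).1) + β * (w.2 - (P b).2) =
          (1 - s) * (α * ((P a).1 - (P b).1) + β * ((P a).2 - (P b).2)) := by rw [s1, s2]; ring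
      have ew2 : α * (w.1 - (P b).1) + β * (w.2 - (P b).2) =
          (1 - l) * (α * ((P x).1 - (P b).1) + β * ((P x).2 - (P b).2)) +
          l * (α * ((P y).1 - (P b).1) + β * ((P y).2 - (P b).2)) := by rw [w1, w2]; ring
      have m1 := mul_nonneg (show 0 ≤ 1 - l by linarith) (neg_nonneg.2 ex)
      have m2 := mul_nonneg l0.le (neg_nonneg.2 ey)
      have m3 := mul_nonneg_of_nonpos_of_nonpos (show 1 - s ≤ 0 by linarith) ea
      have z1 : (1 - l) * (α * ((P x).1 - (P b).1) + β * ((P x).2 - (P b).2)) = 0 := by linarith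
      have z2 : (1 - s) * (α * ((P a).1 - (P b).1) + β * ((P a).2 - (P b).2)) = 0 := by linarith
      have y1 := (mul_eq_zero.1 z1).resolve_left (by linarith)
      have y2 := (mul_eq_zero.1 z2).resolve_left (by linarith)
      rw [hD1] at hx
      have : cr (P a) (P b) (P x) = 0 := by
        have e : cr (P a) (P b) (P x) = cr (P b) (P x) (P a) := (cr_cyc _ _ _).symm
        rw [e]
        unfold cr
        rcases hne with h' | h'
        · have : α * (((P x).1 - (P b).1) * ((P a).2 - (P b).2) -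
              ((P x).2 - (P b).2) * ((P a).1 - (P b).1)) = 0 := by
            linear_combination ((P a).2 - (P b).2) * y1 - ((P x).2 - (P b).2) * y2
          exact (mul_eq_zero.1 this).resolve_left h'
        · have : β * (((P x).1 - (P b).1) * ((P a).2 - (P b).2) -
              ((P x).2 - (P b).2) * ((P a).1 - (P b).1)) = 0 := by
            linear_combination ((P x).1 - (P b).1) * y2 - ((P a).1 - (P b).1) * y1
          exact (mul_eq_zero.1 this).resolve_left h'
      linarith

/-- if both sides of the line through two hull points `a,b` are occupied, then every point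
on the line is in the segment -/
lemma hull_line {a b x y c : ι} (hab : P a ≠ P b) (ha : Hull P a)
    (hx : 0 < cr (P a) (P b) (P x)) (hy : cr (P a) (P b) (P y) < 0) {s : ℝ}
    (s1 : (P c).1 = (P a).1 + s * ((P b).1 - (P a).1))
    (s2 : (P c).2 = (P a).2 + s * ((P b).2 - (P a).2)) : 0 ≤ s := by
  by_contra hs
  push Not at hs
  obtain ⟨α, β, hne, hsup⟩ := ha
  have ex := hsup x
  have ey := hsup y
  have eb := hsup b
  have ec := hsup c
  have e1 : α * ((P c).1 - (P a).1) + β * ((P c).2 - (P a).2) =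
    s * (α * ((P b).1 - (P a).1) + β * ((P b).2 - (P a).2)) := by rw [s1, s2]; ring
  have eb0 : α * ((P b).1 - (P a).1) + β * ((P b).2 - (P a).2) = 0 := by
    rw [e1] at ec
    by_contra hne0
    have : α * ((P b).1 - (P a).1) + β * ((P b).2 - (P a).2) < 0 := lt_of_le_of_ne eb hne0
    have := mul_pos_of_neg_of_neg hs this
    linarith
  have id1 : ∀ z : ℝ × ℝ, (((P b).1 - (P a).1) ^ 2 + ((P b).2 - (P a).2) ^ 2) *
      (α * (z.1 - (P a).1) + β * (z.2 - (P a).2)) =
      (β * ((P b).1 - (P a).1) - α * ((P b).2 - (P a).2)) * cr (P a) (P b) z +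
      (α * ((P b).1 - (P a).1) + β * ((P b).2 - (P a).2)) *
      (((P b).1 - (P a).1) * (z.1 - (P a).1) + ((P b).2 - (P a).2) * (z.2 - (P a).2)) := by
    intro z; unfold cr; ring
  have hpos : 0 < ((P b).1 - (P a).1) ^ 2 + ((P b).2 - (P a).2) ^ 2 := by
    by_contra hcon
    push Not at hcon
    have e1 : (P b).1 - (P a).1 = 0 := by
      nlinarith [sq_nonneg ((P b).1 - (P a).1), sq_nonneg ((P b).2 - (P a).2)]
    have e2 : (P b).2 - (P a).2 = 0 := by
      nlinarith [sq_nonneg ((P b).1 - (P a).1), sq_nonneg ((P b).2 - (P a).2)]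
    apply hab
    ext <;> linarith
  have ix := id1 (P x)
  have iy := id1 (P y)
  rw [eb0, zero_mul, add_zero] at ix iy
  set κ := β * ((P b).1 - (P a).1) - α * ((P b).2 - (P a).2) with hκ
  have k1 : κ ≤ 0 := by
    by_contra hcon
    push Not at hcon
    have := mul_pos hcon hx
    rw [← ix] at this
    exact absurd (mul_nonpos_of_nonneg_of_nonpos hpos.le ex) (not_le.2 this)
  have k2 : 0 ≤ κ := by
    by_contra hcon
    push Not at hcon
    have := mul_pos_of_neg_of_neg hcon hy
    rw [← iy] at this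
    exact absurd (mul_nonpos_of_nonneg_of_nonpos hpos.le ey) (not_le.2 this)
  have k0 : κ = 0 := le_antisymm k1 k2
  -- κ = 0 and eb0 give α = β = 0
  have f1 : (((P b).1 - (P a).1) ^ 2 + ((P b).2 - (P a).2) ^ 2) * α = 0 := by
    linear_combination ((P b).1 - (P a).1) * eb0 - ((P b).2 - (P a).2) * k0
  have f2 : (((P b).1 - (P a).1) ^ 2 + ((P b).2 - (P a).2) ^ 2) * β = 0 := by
    linear_combination ((P b).2 - (P a).2) * eb0 + ((P b).1 - (P a).1) * k0
  rcases hne with h' | h'
  · exact h' ((mul_eq_zero.1 f1).resolve_left hpos.ne')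
  · exact h' ((mul_eq_zero.1 f2).resolve_left hpos.ne')

lemma hull_off {a b x y c : ι} (hab : P a ≠ P b) (ha : Hull P a) (hb : Hull P b)
    (hx : 0 < cr (P a) (P b) (P x)) (hy : cr (P a) (P b) (P y) < 0)
    (hc : ¬ Btw (P a) (P b) (P c)) (hca : P c ≠ P a) (hcb : P c ≠ P b) :
    cr (P a) (P b) (P c) ≠ 0 := by
  intro h0
  obtain ⟨s, s1, s2⟩ := exists_param hab h0
  have h1 := hull_line hab ha hx hy s1 s2
  have h2 : 0 ≤ 1 - s := by
    refine hull_line (a := b) (b := a) (x := y) (y := x) (c := c) hab.symm hb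
      (by rw [cr_swap]; linarith) (by rw [cr_swap]; linarith) ?_ ?_
    · rw [s1]; ring
    · rw [s2]; ring
  rcases h1.lt_or_eq with h1' | h1'
  · rcases h2.lt_or_eq with h2' | h2'
    · exact hc ⟨s, h1', by linarith, s1, s2⟩
    · apply hcb
      have : s = 1 := by linarith
      subst this
      ext
      · rw [s1]; ring
      · rw [s2]; ring
  · apply hca
    subst h1'
    ext
    · rw [s1]; ring
    · rw [s2]; ring

/-- a polygon edge joining two hull vertices is a hull edge -/
lemma Poly.chord {σ : Equiv.Perm ι} (h : Poly P σ) {i : ι} (ha : Hull P i)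
    (hb : Hull P (σ i)) :
    (∀ k, 0 ≤ cr (P i) (P (σ i)) (P k)) ∨ (∀ k, cr (P i) (P (σ i)) (P k) ≤ 0) := by
  by_contra hcon
  push Not at hcon
  obtain ⟨⟨y, hy⟩, ⟨x, hx⟩⟩ := hcon
  have hab : P i ≠ P (σ i) := fun e => h.ne i (h.inj e.symm)
  have off : ∀ c, c ≠ i → c ≠ σ i → cr (P i) (P (σ i)) (P c) ≠ 0 := by
    intro c hc1 hc2
    exact hull_off hab ha hb hx hy (h.clean i c) (fun e => hc1 (h.inj e))
      (fun e => hc2 (h.inj e))
  -- consecutive vertices are on the same side
  have step : ∀ j, j ≠ i → j ≠ σ i → σ j ≠ i → σ j ≠ σ i →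
      (0 < cr (P i) (P (σ i)) (P j) ↔ 0 < cr (P i) (P (σ i)) (P (σ j))) := by
    intro j j1 j2 j3 j4
    constructor
    · intro hj
      by_contra hcon
      push Not at hcon
      have hlt := lt_of_le_of_ne hcon (off _ j3 j4)
      obtain ⟨w, hw1, hw2⟩ := hull_cross hab ha hb hj hlt
      rcases hw2 with e | e | e
      · exact h.clean j i (e ▸ hw1)
      · exact h.clean j (σ i) (e ▸ hw1)
      · exact h.disj j i w j1 hw1 e
    · intro hj
      by_contra hcon
      push Not at hcon
      have hlt := lt_of_le_of_ne hcon (off _ j1 j2)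
      obtain ⟨w, hw1, hw2⟩ := hull_cross hab ha hb hj hlt
      rcases hw2 with e | e | e
      · exact h.clean j i (e ▸ hw1.symm)
      · exact h.clean j (σ i) (e ▸ hw1.symm)
      · exact h.disj j i w j1 hw1.symm e
  -- induction along the polygon
  have walk : ∀ m : ℕ, ∀ j, (σ ^ m) (σ (σ i)) = j → j ≠ i → j ≠ σ i →
      (0 < cr (P i) (P (σ i)) (P (σ (σ i))) ↔ 0 < cr (P i) (P (σ i)) (P j)) := by
    intro m
    induction m using Nat.strong_induction_on with
    | _ m ih =>
      intro j hj hji hjs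
      rcases Nat.eq_zero_or_pos m with hm | hm
      · subst hm
        simp at hj
        rw [hj]
      · obtain ⟨m', rfl⟩ : ∃ m', m = m' + 1 := ⟨m - 1, by omega⟩
        set j' := (σ ^ m') (σ (σ i)) with hj'
        have hjj' : σ j' = j := by
          rw [hj', ← hj, pow_succ']; rfl
        by_cases c1 : j' = i
        · exfalso; rw [c1] at hjj'; exact hjs hjj'.symm
        · by_cases c2 : j' = σ i
          · rw [c2] at hjj'; rw [hjj']
          · rw [ih m' (by omega) j' rfl c1 c2]
            have := step j' c1 c2 (by rw [hjj']; exact hji) (by rw [hjj']; exact hjs)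
            rw [this, hjj']
  have all : ∀ j, j ≠ i → j ≠ σ i →
      (0 < cr (P i) (P (σ i)) (P (σ (σ i))) ↔ 0 < cr (P i) (P (σ i)) (P j)) := by
    intro j hj1 hj2
    obtain ⟨m, hm⟩ := h.cyc (σ (σ i)) j
    exact walk m j hm hj1 hj2
  have x1 : x ≠ i := by rintro rfl; rw [cr_self] at hx; exact lt_irrefl _ hx
  have x2 : x ≠ σ i := by rintro rfl; rw [cr_self'] at hx; exact lt_irrefl _ hx
  have y1 : y ≠ i := by rintro rfl; rw [cr_self] at hy; exact lt_irrefl _ hy
  have y2 : y ≠ σ i := by rintro rfl; rw [cr_self'] at hy; exact lt_irrefl _ hy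
  have := (all y y1 y2).1 ((all x x1 x2).2 hx)
  linarith

end Pool.Agent.Helper18.Diag
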