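import Pool.Agent.Helper18.DiagMain

namespace Pool.Agent.Helper18.Diag

open Classical

variable {ι : Type} {P : ι → ℝ × ℝ} {T : ι → ι → Prop}

/-- a simple polygon, straight angles allowed, combinatorial form -/
structure Poly0 (P : ι → ℝ × ℝ) (σ : Equiv.Perm ι) : Prop where
  inj : Function.Injective P
  clean : ∀ i k, ¬ Btw (P i) (P (σ i)) (P k)
  disj : ∀ i j z, i ≠ j → Btw (P i) (P (σ i)) z → ¬ Btw (P j) (P (σ j)) z
  ne : ∀ i, σ i ≠ i
  ne2 : ∀ i, σ (σ i) ≠ i

lemma Poly0.map {σ : Equiv.Perm ι} (h : Poly0 P σ) {a b e c d f : ℝ}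
    (hD : a * d - b * c ≠ 0) : Poly0 (fun i => aff a b e c d f (P i)) σ := by
  refine ⟨fun i j hij => h.inj (aff_inj hD hij), ?_, ?_, h.ne, h.ne2⟩
  · intro i k hk
    exact h.clean i k ((btw_aff hD _ _ _).1 hk)
  · intro i j z hij h1 h2
    obtain ⟨w, rfl⟩ := aff_surj (e := e) (f := f) hD z
    exact h.disj i j w hij ((btw_aff hD _ _ _).1 h1) ((btw_aff hD _ _ _).1 h2)

lemma exists_shear [Finite ι] (hinj : Function.Injective P) :
    ∃ l : ℝ, ∀ i j, (aff 1 l 0 0 1 0 (P i)).1 = (aff 1 l 0 0 1 0 (P j)).1 → i = j := by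
  have hfin : (Set.range (fun e : ι × ι =>
      -((P e.1).1 - (P e.2).1) / ((P e.1).2 - (P e.2).2))).Finite := Set.finite_range _
  obtain ⟨l, hl⟩ := hfin.infinite_compl.nonempty
  refine ⟨l, ?_⟩
  intro i j hij
  simp only [aff] at hij
  by_contra hne
  by_cases h2 : (P i).2 - (P j).2 = 0
  · apply hne
    apply hinj
    have h2' : (P i).2 = (P j).2 := by linarith
    rw [h2'] at hij
    exact Prod.ext (by linarith) h2'
  · apply hl
    refine ⟨(i, j), ?_⟩
    simp only
    field_simp
    linarith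

/-- the polygon does not lie on a line -/
lemma Poly0.not_col [Finite ι] [Nonempty ι] {σ : Equiv.Perm ι} (h : Poly0 P σ)
    (hX : ∀ i j, (P i).1 = (P j).1 → i = j) : ∃ i j k, cr (P i) (P j) (P k) ≠ 0 := by
  by_contra hcon
  push Not at hcon
  have := Fintype.ofFinite ι
  obtain ⟨L, -, hL⟩ := (Finset.univ : Finset ι).exists_min_image (fun k => (P k).1)
    ⟨Classical.arbitrary ι, Finset.mem_univ _⟩
  have hL' : ∀ k, k ≠ L → (P L).1 < (P k).1 := fun k hk =>
    lt_of_le_of_ne (hL k (Finset.mem_univ _)) (fun e => hk (hX _ _ e).symm)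
  set j := σ.symm L with hj
  have hjL : σ j = L := by rw [hj, Equiv.apply_symm_apply]
  have h1 := hL' (σ L) (h.ne L)
  have hjne : j ≠ L := by
    intro e; rw [e] at hjL; exact h.ne L hjL
  have h2 := hL' j hjne
  have h0 := hcon L (σ L) j
  have hne : P L ≠ P (σ L) := fun e => h.ne L (h.inj e).symm
  obtain ⟨s, s1, s2⟩ := exists_param hne h0
  have s0 : 0 < s := by
    by_contra hc; push Not at hc; nlinarith
  have hjσ : j ≠ σ L := by
    intro e
    apply h.ne2 L
    rw [← e]; exact hjL
  rcases lt_trichotomy s 1 with hs | hs | hs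
  · exact h.clean L j ⟨s, s0, hs, s1, s2⟩
  · subst hs
    apply hjσ
    apply h.inj
    exact Prod.ext (by rw [s1]; ring) (by rw [s2]; ring)
  · have : Btw (P j) (P (σ j)) (P (σ L)) := by
      rw [hjL]
      refine Btw.symm ⟨1 / s, by positivity, by rw [div_lt_one s0]; exact hs, ?_, ?_⟩
      · rw [s1]; field_simp; ring
      · rw [s2]; field_simp; ring
    exact h.clean j _ this

lemma Poly0.exists_pl [Finite ι] {σ : Equiv.Perm ι} (h : Poly0 P σ) :
    ∃ T : ι → ι → Prop, Pl P T ∧ ∀ i, T i (σ i) := by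
  set A0 : Set (ι × ι) := {e | e.2 = σ e.1 ∨ e.1 = σ e.2} with hA0
  have hA : PR P A0 := by
    refine ⟨?_, ?_, ?_, ?_⟩
    · intro i j hij
      simp only [hA0, Set.mem_ofPred_eq] at hij ⊢
      exact hij.symm
    · intro i j hij
      simp only [hA0, Set.mem_ofPred_eq] at hij
      rintro rfl
      rcases hij with e | e
      · exact h.ne _ e.symm
      · exact h.ne _ e.symm
    · intro i j hij k hk
      simp only [hA0, Set.mem_ofPred_eq] at hij
      rcases hij with rfl | rfl
      · exact h.clean _ _ hk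
      · exact h.clean _ _ hk.symm
    · intro i j k l z hij hkl h1 h2
      simp only [hA0, Set.mem_ofPred_eq] at hij hkl
      rcases hij with rfl | rfl <;> rcases hkl with rfl | rfl
      · by_cases e : i = k
        · left; simp [e]
        · exact (h.disj i k z e h1 h2).elim
      · by_cases e : i = l
        · right; simp [e]
        · exact (h.disj i l z e h1 h2.symm).elim
      · by_cases e : j = k
        · right; simp [e]
        · exact (h.disj j k z e h1.symm h2).elim
      · by_cases e : j = l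
        · left; simp [e]
        · exact (h.disj j l z e h1.symm h2.symm).elim
  exact exists_pl_of_PR h.inj hA

end Pool.Agent.Helper18.Diag
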