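import Pool.Agent.Helper18.DiagGeom

namespace Pool.Agent.Helper18.Diag

variable {ι : Type} {P : ι → ℝ × ℝ} {T : ι → ι → Prop}

lemma Pl.top0 [Fintype ι] (h : Pl P T) (hX : ∀ i j, (P i).1 = (P j).1 → i = j) {v p q : ι}
    (hv1 : (P v).1 = 0) (hv2 : (P v).2 = 0) (hp : (P p).1 < 0) (hp2 : (P p).2 = 1)
    (hq : 0 < (P q).1) (hq2 : (P q).2 = 1) (hpq : T p q)
    (near : ∀ i j z, T i j → Btw (P i) (P j) z → z.1 = 0 → 0 < z.2 → z.2 < 1 → False) :
    ∃ x, T v x ∧ (P x).1 < 0 ∧ -(P x).1 ≤ (P x).2 * (-(P p).1) := by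
  classical
  set C : Finset ι := Finset.univ.filter (fun k => (P k).1 < 0 ∧ (P k).2 ≤ 1) with hC
  have hCne : C.Nonempty := ⟨p, by simp [hC, hp, hp2]⟩
  obtain ⟨x0, hx0, hmax0⟩ := C.exists_max_image (fun k => (P k).2 / (-(P k).1)) hCne
  set C' : Finset ι := C.filter (fun k => (P k).2 / (-(P k).1) = (P x0).2 / (-(P x0).1)) with hC'
  have hC'ne : C'.Nonempty := ⟨x0, by simp [hC', hx0]⟩
  obtain ⟨x, hx, hmax1⟩ := C'.exists_max_image (fun k => (P k).1) hC'ne
  rw [hC', Finset.mem_filter] at hx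
  obtain ⟨hxC, hxr⟩ := hx
  have hmax : ∀ k ∈ C, (P k).2 / (-(P k).1) ≤ (P x).2 / (-(P x).1) := by
    intro k hk; rw [hxr]; exact hmax0 k hk
  have hmax2 : ∀ k ∈ C, (P k).2 / (-(P k).1) = (P x).2 / (-(P x).1) → (P k).1 ≤ (P x).1 := by
    intro k hk e
    exact hmax1 k (by rw [hC', Finset.mem_filter]; exact ⟨hk, by rw [e, hxr]⟩)
  have memC : ∀ k, k ∈ C ↔ (P k).1 < 0 ∧ (P k).2 ≤ 1 := by intro k; simp [hC]
  obtain ⟨x1, x2⟩ := (memC x).1 hxC
  have hxp : -(P x).1 ≤ (P x).2 * (-(P p).1) := by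
    have := hmax p ((memC p).2 ⟨hp, hp2.le⟩)
    rw [hp2, div_le_div_iff₀ (by linarith) (by linarith)] at this
    linarith
  have x2' : 0 < (P x).2 := by
    by_contra hcon
    push Not at hcon
    nlinarith
  have hvx : v ≠ x := by rintro rfl; linarith
  have hclean : ∀ k, ¬ Btw (P v) (P x) (P k) := by
    rintro k ⟨t, t0, t1, tx, ty⟩
    rw [hv1] at tx
    rw [hv2] at ty
    have e1 : (P k).1 = t * (P x).1 := by rw [tx]; ring
    have e2 : (P k).2 = t * (P x).2 := by rw [ty]; ring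
    have k1 : (P k).1 < 0 := by rw [e1]; nlinarith
    have k2 : (P k).2 ≤ 1 := by rw [e2]; nlinarith
    have := hmax2 k ((memC k).2 ⟨k1, k2⟩) (by
      rw [e1, e2]; field_simp)
    rw [e1] at this
    nlinarith
  refine ⟨x, ?_, x1, hxp⟩
  apply h.maxi v x hvx hclean
  intro i j z hij hz1 hz2
  have hz1' := hz1
  obtain ⟨t, t0, t1, tx, ty⟩ := hz1
  rw [hv1] at tx
  rw [hv2] at ty
  have zz1 : z.1 = t * (P x).1 := by rw [tx]; ring
  have zz2 : z.2 = t * (P x).2 := by rw [ty]; ring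
  have zn : z.1 < 0 := by rw [zz1]; nlinarith
  have zp : z.2 < 1 := by rw [zz2]; nlinarith
  have crv : ∀ y : ℝ × ℝ, cr (P v) (P x) y = (P x).1 * y.2 - (P x).2 * y.1 := by
    intro y; unfold cr; rw [hv1, hv2]; ring
  have zcr : cr (P v) (P x) z = 0 := by rw [crv, zz1, zz2]; ring
  have notpq : ∀ i e w, T i e → Btw (P i) (P e) z → Btw (P i) (P e) w → ¬ Btw (P p) (P q) w := by
    intro i e w hie hz hw hw'
    have zline : z.2 = 1 := by
      rcases h.disj i e p q w hie hpq hw hw' with ⟨rfl, rfl⟩ | ⟨rfl, rfl⟩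
      · obtain ⟨u, -, -, -, uy⟩ := hz
        rw [uy, hp2, hq2]; ring
      · obtain ⟨u, -, -, -, uy⟩ := hz
        rw [uy, hp2, hq2]; ring
    linarith
  have main : ∀ i e, T i e → Btw (P i) (P e) z → cr (P v) (P x) (P e) < 0 → False := by
    intro i e hie hz he
    rw [crv] at he
    have hne0 : (P e).1 ≠ 0 := by
      intro h0
      have : e = v := hX e v (by rw [h0, hv1])
      subst this
      rw [hv1, hv2] at he
      simp at he
    have hout : -(P e).1 < 0 ∨ 1 - (P e).2 < 0 ∨ (1 : ℝ) < 0 := by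
      by_contra hcon
      push Not at hcon
      obtain ⟨c1, c2, -⟩ := hcon
      have c1' : (P e).1 < 0 := lt_of_le_of_ne (by linarith) hne0
      have := hmax e ((memC e).2 ⟨c1', by linarith⟩)
      rw [div_le_div_iff₀ (by linarith) (by linarith)] at this
      linarith
    obtain ⟨s, s0, s1, a1, a2, -, a4⟩ := exit3 (show 0 < -z.1 by linarith)
      (show 0 < 1 - z.2 by linarith) (zero_lt_one' ℝ) hout
    set w : ℝ × ℝ := (z.1 + s * ((P e).1 - z.1), z.2 + s * ((P e).2 - z.2)) with hw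
    have w1 : w.1 = z.1 + s * ((P e).1 - z.1) := rfl
    have w2 : w.2 = z.2 + s * ((P e).2 - z.2) := rfl
    have b1 : w.1 ≤ 0 := by rw [w1]; linarith
    have b2 : w.2 ≤ 1 := by rw [w2]; linarith
    have hwb : Btw (P i) (P e) w := by
      obtain ⟨u, u0, u1, ux, uy⟩ := hz
      refine ⟨u + s * (1 - u), by nlinarith, by nlinarith, ?_, ?_⟩
      · rw [w1, ux]; ring
      · rw [w2, uy]; ring
    have hf : (P x).1 * w.2 - (P x).2 * w.1 < 0 := by
      have : cr (P v) (P x) w = (1 - s) * cr (P v) (P x) z + s * cr (P v) (P x) (P e) :=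
        cr_lin w1 w2
      rw [zcr, crv, crv] at this
      rw [this]; nlinarith
    have onpq : w.2 = 1 → Btw (P p) (P q) w := by
      intro h2
      rw [h2] at hf
      have h3 : (P p).1 < w.1 := by
        by_contra hcon
        push Not at hcon
        have := mul_le_mul_of_nonneg_left hcon x2'.le
        linarith
      refine ⟨(w.1 - (P p).1) / ((P q).1 - (P p).1), ?_, ?_, ?_, ?_⟩
      · apply div_pos <;> linarith
      · rw [div_lt_one] <;> linarith
      · have : (P q).1 - (P p).1 ≠ 0 := by linarith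
        field_simp; ring
      · rw [h2, hp2, hq2]; ring
    rcases a4 with a4 | a4 | a4
    · have w10 : w.1 = 0 := by rw [w1]; linarith
      rw [w10] at hf
      have w20 : 0 < w.2 := by
        by_contra hcon; push Not at hcon; nlinarith
      rcases b2.lt_or_eq with b2' | b2'
      · exact near i e w hie hwb w10 w20 b2'
      · exact notpq i e w hie hz hwb (onpq b2')
    · have w21 : w.2 = 1 := by rw [w2]; linarith
      exact notpq i e w hie hz hwb (onpq w21)
    · simp at a4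
  have hi : 0 ≤ cr (P v) (P x) (P i) := by
    by_contra hc; push Not at hc
    exact main j i (h.symm _ _ hij) hz2.symm hc
  have hj : 0 ≤ cr (P v) (P x) (P j) := by
    by_contra hc; push Not at hc
    exact main i j hij hz2 hc
  have hz2' := hz2
  obtain ⟨u, u0, u1, ux, uy⟩ := hz2
  rw [cr_lin ux uy] at zcr
  have hi0 : cr (P v) (P x) (P i) = 0 := by nlinarith
  have hj0 : cr (P v) (P x) (P j) = 0 := by nlinarith
  have hne : P v ≠ P x := fun e => hvx (h.inj e)
  rcases col hne hi0 hj0 hz1' hz2' (hclean i) (hclean j) (h.clean i j hij v) (h.clean i j hij x)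
    with ⟨e, e'⟩ | ⟨e, e'⟩
  · left; exact ⟨h.inj e, h.inj e'⟩
  · right; exact ⟨h.inj e, h.inj e'⟩

/-- affine maps of the plane -/
def aff (a b e c d f : ℝ) (z : ℝ × ℝ) : ℝ × ℝ := (a * z.1 + b * z.2 + e, c * z.1 + d * z.2 + f)

lemma cr_aff (a b e c d f : ℝ) (x y z : ℝ × ℝ) :
    cr (aff a b e c d f x) (aff a b e c d f y) (aff a b e c d f z) =
      (a * d - b * c) * cr x y z := by
  unfold cr aff; ring

lemma btw_aff {a b e c d f : ℝ} (hD : a * d - b * c ≠ 0) (x y z : ℝ × ℝ) :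
    Btw (aff a b e c d f x) (aff a b e c d f y) (aff a b e c d f z) ↔ Btw x y z := by
  constructor
  · rintro ⟨t, t0, t1, tx, ty⟩
    simp only [aff] at tx ty
    have h1 : (a * d - b * c) * (z.1 - (x.1 + t * (y.1 - x.1))) = 0 := by
      linear_combination d * tx - b * ty
    have h2 : (a * d - b * c) * (z.2 - (x.2 + t * (y.2 - x.2))) = 0 := by
      linear_combination a * ty - c * tx
    refine ⟨t, t0, t1, ?_, ?_⟩
    · linarith [(mul_eq_zero.1 h1).resolve_left hD]
    · linarith [(mul_eq_zero.1 h2).resolve_left hD]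
  · rintro ⟨t, t0, t1, tx, ty⟩
    refine ⟨t, t0, t1, ?_, ?_⟩
    · simp only [aff]; rw [tx, ty]; ring
    · simp only [aff]; rw [tx, ty]; ring

lemma aff_surj {a b e c d f : ℝ} (hD : a * d - b * c ≠ 0) (z : ℝ × ℝ) :
    ∃ w, aff a b e c d f w = z := by
  refine ⟨((d * (z.1 - e) - b * (z.2 - f)) / (a * d - b * c),
    (a * (z.2 - f) - c * (z.1 - e)) / (a * d - b * c)), ?_⟩
  unfold aff
  ext
  · have : a * ((d * (z.1 - e) - b * (z.2 - f)) / (a * d - b * c)) +
        b * ((a * (z.2 - f) - c * (z.1 - e)) / (a * d - b * c)) = z.1 - e := by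
      rw [← mul_div_assoc, ← mul_div_assoc, ← add_div, div_eq_iff hD]; ring
    simp only
    linarith
  · have : c * ((d * (z.1 - e) - b * (z.2 - f)) / (a * d - b * c)) +
        d * ((a * (z.2 - f) - c * (z.1 - e)) / (a * d - b * c)) = z.2 - f := by
      rw [← mul_div_assoc, ← mul_div_assoc, ← add_div, div_eq_iff hD]; ring
    simp only
    linarith

lemma aff_inj {a b e c d f : ℝ} (hD : a * d - b * c ≠ 0) {x y : ℝ × ℝ}
    (h : aff a b e c d f x = aff a b e c d f y) : x = y := by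
  simp only [aff, Prod.mk.injEq] at h
  obtain ⟨tx, ty⟩ := h
  have h1 : (a * d - b * c) * (x.1 - y.1) = 0 := by
    linear_combination d * tx - b * ty
  have h2 : (a * d - b * c) * (x.2 - y.2) = 0 := by
    linear_combination a * ty - c * tx
  ext
  · linarith [(mul_eq_zero.1 h1).resolve_left hD]
  · linarith [(mul_eq_zero.1 h2).resolve_left hD]

lemma Pl.map (h : Pl P T) {a b e c d f : ℝ} (hD : a * d - b * c ≠ 0) :
    Pl (fun i => aff a b e c d f (P i)) T := by
  refine ⟨fun i j hij => h.inj (aff_inj hD hij), h.symm, h.ne, ?_, ?_, ?_⟩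
  · intro i j hij k hk
    exact h.clean i j hij k ((btw_aff hD _ _ _).1 hk)
  · intro i j k l z hij hkl h1 h2
    obtain ⟨w, rfl⟩ := aff_surj (e := e) (f := f) hD z
    exact h.disj i j k l w hij hkl ((btw_aff hD _ _ _).1 h1) ((btw_aff hD _ _ _).1 h2)
  · intro i j hij h1 h2
    refine h.maxi i j hij (fun k hk => h1 k ((btw_aff hD _ _ _).2 hk)) ?_
    intro k l z hkl a1 a2
    exact h2 k l _ hkl ((btw_aff hD _ _ _).2 a1) ((btw_aff hD _ _ _).2 a2)

end Pool.Agent.Helper18.Diag
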