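import Pool.Agent.Helper18.DiagTop

namespace Pool.Agent.Helper18.Diag

variable {ι : Type} {P : ι → ℝ × ℝ} {T : ι → ι → Prop}

lemma Pl.top_left [Fintype ι] (h : Pl P T) (hX : ∀ i j, (P i).1 = (P j).1 → i = j) {v p q : ι}
    (hp : (P p).1 < (P v).1) (hq : (P v).1 < (P q).1) (hc : cr (P p) (P q) (P v) < 0)
    (hpq : T p q)
    (near : ∀ i j z, T i j → Btw (P i) (P j) z → z.1 = (P v).1 → (P v).2 < z.2 →
      cr (P p) (P q) z < 0 → False) :
    ∃ x, T v x ∧ (P x).1 < (P v).1 ∧ 0 ≤ cr (P p) (P v) (P x) := by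
  set c0 := -cr (P p) (P q) (P v) with hc0
  have c0pos : 0 < c0 := by rw [hc0]; linarith
  set c := -((P q).2 - (P p).2) / c0 with hcdef
  set d := ((P q).1 - (P p).1) / c0 with hddef
  set f := (-((P q).1 - (P p).1) * (P p).2 + ((P q).2 - (P p).2) * (P p).1 + c0) / c0 with hfdef
  have dpos : 0 < d := by apply div_pos <;> linarith
  have hD : (1 : ℝ) * d - 0 * c ≠ 0 := by rw [one_mul, zero_mul, sub_zero]; exact dpos.ne'
  have A2 : ∀ z, (aff 1 0 (-(P v).1) c d f z).2 = (cr (P p) (P q) z + c0) / c0 := by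
    intro z
    simp only [aff, hcdef, hddef, hfdef, cr]
    field_simp
    ring
  have A1 : ∀ z, (aff 1 0 (-(P v).1) c d f z).1 = z.1 - (P v).1 := by
    intro z; simp only [aff]; ring
  have v2 : (aff 1 0 (-(P v).1) c d f (P v)).2 = 0 := by
    rw [A2, hc0]; simp
  have v1 : (aff 1 0 (-(P v).1) c d f (P v)).1 = 0 := by
    rw [A1]; simp
  have p2 : (aff 1 0 (-(P v).1) c d f (P p)).2 = 1 := by
    rw [A2, cr_self, zero_add, div_self c0pos.ne']
  have q2 : (aff 1 0 (-(P v).1) c d f (P q)).2 = 1 := by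
    rw [A2, cr_self', zero_add, div_self c0pos.ne']
  obtain ⟨x, hx1, hx2, hx3⟩ := (h.map hD).top0 (v := v) (p := p) (q := q)
    (by
      intro i j hij
      simp only [A1] at hij
      exact hX i j (by linarith))
    v1 v2 (by rw [A1]; linarith) p2 (by rw [A1]; linarith) q2 hpq
    (by
      intro i j z hij hz z1 z2 z3
      obtain ⟨w, rfl⟩ := aff_surj (e := -(P v).1) (f := f) hD z
      rw [A1] at z1
      rw [A2] at z2 z3
      have z3' : cr (P p) (P q) w < 0 := by
        rw [div_lt_one c0pos] at z3; linarith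
      have z2' : 0 < cr (P p) (P q) w + c0 := by
        by_contra hcon; push Not at hcon
        have := div_nonpos_of_nonpos_of_nonneg hcon c0pos.le
        linarith
      refine near i j w hij ((btw_aff hD _ _ _).1 hz) (by linarith) ?_ z3'
      have z1' : w.1 = (P v).1 := by linarith
      rw [hc0] at z2'
      have e : cr (P p) (P q) w + -cr (P p) (P q) (P v) =
        ((P q).1 - (P p).1) * (w.2 - (P v).2) := by
        unfold cr; rw [z1']; ring
      rw [e] at z2'
      by_contra hcon; push Not at hcon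
      nlinarith)
  refine ⟨x, hx1, ?_, ?_⟩
  · rw [A1] at hx2; linarith
  · have e := cr_aff 1 0 (-(P v).1) c d f (P p) (P v) (P x)
    have e2 : cr (aff 1 0 (-(P v).1) c d f (P p)) (aff 1 0 (-(P v).1) c d f (P v))
      (aff 1 0 (-(P v).1) c d f (P x)) = -(aff 1 0 (-(P v).1) c d f (P p)).1 *
        (aff 1 0 (-(P v).1) c d f (P x)).2 + (aff 1 0 (-(P v).1) c d f (P x)).1 := by
      rw [cr, v1, v2, p2]; ring
    rw [e2] at e
    have e3 : 0 ≤ d * cr (P p) (P v) (P x) := by
      have : (1 : ℝ) * d - 0 * c = d := by ring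
      rw [this] at e
      rw [← e]; linarith
    by_contra hcon; push Not at hcon
    nlinarith

lemma Pl.top_right [Fintype ι] (h : Pl P T) (hX : ∀ i j, (P i).1 = (P j).1 → i = j) {v p q : ι}
    (hp : (P p).1 < (P v).1) (hq : (P v).1 < (P q).1) (hc : cr (P p) (P q) (P v) < 0)
    (hpq : T p q)
    (near : ∀ i j z, T i j → Btw (P i) (P j) z → z.1 = (P v).1 → (P v).2 < z.2 →
      cr (P p) (P q) z < 0 → False) :
    ∃ x, T v x ∧ (P v).1 < (P x).1 ∧ 0 ≤ cr (P v) (P q) (P x) := by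
  have hD : (-1 : ℝ) * 1 - 0 * 0 ≠ 0 := by norm_num
  have A1 : ∀ z, (aff (-1) 0 0 0 1 0 z).1 = - z.1 := by intro z; simp [aff]
  have A2 : ∀ z, (aff (-1) 0 0 0 1 0 z).2 = z.2 := by intro z; simp [aff]
  have Ac : ∀ x y z, cr (aff (-1) 0 0 0 1 0 x) (aff (-1) 0 0 0 1 0 y) (aff (-1) 0 0 0 1 0 z) =
      - cr x y z := by intro x y z; rw [cr_aff]; ring
  obtain ⟨x, hx1, hx2, hx3⟩ := (h.map (e := 0) (f := 0) hD).top_left (v := v) (p := q) (q := p)
    (by
      intro i j hij
      simp only [A1] at hij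
      exact hX i j (by linarith))
    (by rw [A1, A1]; linarith) (by rw [A1, A1]; linarith)
    (by rw [Ac, cr_swap]; linarith) (h.symm _ _ hpq)
    (by
      intro i j z hij hz z1 z2 z3
      obtain ⟨w, rfl⟩ := aff_surj (e := 0) (f := 0) hD z
      simp only [A1, A2] at z1 z2
      rw [Ac, cr_swap] at z3
      exact near i j w hij ((btw_aff hD _ _ _).1 hz) (by linarith) z2 (by linarith))
  refine ⟨x, hx1, ?_, ?_⟩
  · simp only [A1] at hx2; linarith
  · rw [Ac, cr_swap] at hx3; linarith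

/-- height at abscissa `x` of the line through `p` and `q` -/
noncomputable def ht (p q : ℝ × ℝ) (x : ℝ) : ℝ := p.2 + (q.2 - p.2) / (q.1 - p.1) * (x - p.1)

lemma cr_ht {p q z : ℝ × ℝ} (h : p.1 < q.1) : cr p q z = (q.1 - p.1) * (z.2 - ht p q z.1) := by
  have : q.1 - p.1 ≠ 0 := by linarith
  unfold cr ht; field_simp; ring

/-- if some edge passes above `v` then there is an empty triangle on top of `v` -/
lemma Pl.top [Fintype ι] (h : Pl P T) (hX : ∀ i j, (P i).1 = (P j).1 → i = j) {v : ι}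
    (hex : ∃ p q, T p q ∧ (P p).1 < (P v).1 ∧ (P v).1 < (P q).1 ∧ cr (P p) (P q) (P v) < 0) :
    ∃ x y, T v x ∧ T v y ∧ (P x).1 < (P v).1 ∧ (P v).1 < (P y).1 ∧
      0 < cr (P v) (P y) (P x) := by
  classical
  obtain ⟨p0, q0, h1, h2, h3, h4⟩ := hex
  set S : Finset (ι × ι) := Finset.univ.filter (fun e => T e.1 e.2 ∧ (P e.1).1 < (P v).1 ∧
    (P v).1 < (P e.2).1 ∧ cr (P e.1) (P e.2) (P v) < 0) with hS
  have hSne : S.Nonempty := ⟨(p0, q0), by simp [hS, h1, h2, h3, h4]⟩
  obtain ⟨⟨p, q⟩, hpqS, hmin⟩ := S.exists_min_image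
    (fun e => ht (P e.1) (P e.2) (P v).1) hSne
  simp only [hS, Finset.mem_filter, Finset.mem_univ, true_and] at hpqS hmin
  obtain ⟨hpq, hp, hq, hc⟩ := hpqS
  have near0 : ∀ i j z, (P i).1 < (P j).1 → T i j → Btw (P i) (P j) z → z.1 = (P v).1 →
      (P v).2 < z.2 → cr (P p) (P q) z < 0 → False := by
    intro i j z hlt hij hz z1 z2 z3
    obtain ⟨t, t0, t1, tx, ty⟩ := hz
    have i1 : (P i).1 < (P v).1 := by rw [← z1, tx]; nlinarith
    have j1 : (P v).1 < (P j).1 := by rw [← z1, tx]; nlinarith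
    have hz0 : cr (P i) (P j) z = 0 := by rw [cr_lin tx ty, cr_self, cr_self']; ring
    rw [cr_ht hlt] at hz0
    have hz2 : z.2 = ht (P i) (P j) z.1 := by
      rcases mul_eq_zero.1 hz0 with h' | h' <;> linarith
    have hcv : cr (P i) (P j) (P v) < 0 := by
      rw [cr_ht hlt, ← z1, ← hz2]; nlinarith
    have := hmin (i, j) ⟨hij, i1, j1, hcv⟩
    simp only at this
    rw [cr_ht (by linarith), hz2, z1] at z3
    nlinarith
  have near : ∀ i j z, T i j → Btw (P i) (P j) z → z.1 = (P v).1 → (P v).2 < z.2 →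
      cr (P p) (P q) z < 0 → False := by
    intro i j z hij hz z1 z2 z3
    rcases lt_trichotomy (P i).1 (P j).1 with hlt | heq | hgt
    · exact near0 i j z hlt hij hz z1 z2 z3
    · exact h.ne _ _ hij (hX _ _ heq)
    · exact near0 j i z hgt (h.symm _ _ hij) hz.symm z1 z2 z3
  obtain ⟨x, x1, x2, x3⟩ := h.top_left hX hp hq hc hpq near
  obtain ⟨y, y1, y2, y3⟩ := h.top_right hX hp hq hc hpq near
  refine ⟨x, y, x1, y1, x2, y2, ?_⟩
  unfold cr at hc x3 y3 ⊢
  set a1 := (P v).1 - (P p).1 with ha1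
  set a2 := (P p).2 - (P v).2 with ha2
  set b1 := (P q).1 - (P v).1 with hb1
  set b2 := (P q).2 - (P v).2 with hb2
  set x1' := (P v).1 - (P x).1 with hx1
  set x2' := (P x).2 - (P v).2 with hx2
  set y1' := (P y).1 - (P v).1 with hy1
  set y2' := (P y).2 - (P v).2 with hy2
  have a1p : 0 < a1 := by linarith
  have b1p : 0 < b1 := by linarith
  have x1p : 0 < x1' := by linarith
  have y1p : 0 < y1' := by linarith
  have k1 : 0 < a2 * b1 + b2 * a1 := by
    rw [ha2, hb2, hb1, ha1]; rw [ha1] at hc; linarith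
  have k2 : a2 * x1' ≤ x2' * a1 := by
    rw [ha2, ha1, hx1, hx2]; linarith
  have k3 : b2 * y1' ≤ y2' * b1 := by
    linarith
  have k4 : 0 < a1 * b1 * (y1' * x2' + y2' * x1') := by
    have m1 := mul_le_mul_of_nonneg_left k2 (mul_pos b1p y1p).le
    have m2 := mul_le_mul_of_nonneg_left k3 (mul_pos a1p x1p).le
    have m3 := mul_pos (mul_pos x1p y1p) k1
    nlinarith
  have k5 : 0 < y1' * x2' + y2' * x1' := by
    by_contra hcon; push Not at hcon
    have := mul_pos a1p b1p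
    nlinarith
  have : (P x).1 - (P v).1 = - x1' := by rw [hx1]; ring
  rw [this]
  linarith

end Pool.Agent.Helper18.Diag
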