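import Pool.Agent.Helper18.DiagFin

namespace Pool.Agent.Helper18.Diag

open Classical DiagDefs

/-- coordinates -/
def pt (x : Plane) : ℝ × ℝ := (x 0, x 1)

lemma pt_inj {x y : Plane} (h : pt x = pt y) : x = y := by
  obtain ⟨h0, h1⟩ := Prod.mk.inj h
  ext i
  fin_cases i
  · exact h0
  · exact h1

lemma mem_openSegment_iff {a b z : Plane} :
    z ∈ openSegment ℝ a b ↔ Btw (pt a) (pt b) (pt z) := by
  constructor
  · rintro ⟨s, t, hs, ht, hst, rfl⟩
    refine ⟨t, ht, by linarith, ?_, ?_⟩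
    · simp only [pt, PiLp.add_apply, PiLp.smul_apply, smul_eq_mul]
      rw [show s = 1 - t by linarith]; ring
    · simp only [pt, PiLp.add_apply, PiLp.smul_apply, smul_eq_mul]
      rw [show s = 1 - t by linarith]; ring
  · rintro ⟨t, t0, t1, tx, ty⟩
    refine ⟨1 - t, t, by linarith, t0, by ring, ?_⟩
    apply pt_inj
    simp only [pt] at tx ty ⊢
    simp only [PiLp.add_apply, PiLp.smul_apply, smul_eq_mul]
    rw [tx, ty]
    ext <;> simp <;> ring

lemma mem_segment_iff {a b z : Plane} :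
    z ∈ segment ℝ a b ↔ ∃ t : ℝ, 0 ≤ t ∧ t ≤ 1 ∧ (pt z).1 = (pt a).1 + t * ((pt b).1 - (pt a).1) ∧
      (pt z).2 = (pt a).2 + t * ((pt b).2 - (pt a).2) := by
  constructor
  · rintro ⟨s, t, hs, ht, hst, rfl⟩
    refine ⟨t, ht, by linarith, ?_, ?_⟩
    · simp only [pt, PiLp.add_apply, PiLp.smul_apply, smul_eq_mul]
      rw [show s = 1 - t by linarith]; ring
    · simp only [pt, PiLp.add_apply, PiLp.smul_apply, smul_eq_mul]
      rw [show s = 1 - t by linarith]; ring
  · rintro ⟨t, t0, t1, tx, ty⟩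
    refine ⟨1 - t, t, by linarith, t0, by ring, ?_⟩
    apply pt_inj
    simp only [pt] at tx ty ⊢
    simp only [PiLp.add_apply, PiLp.smul_apply, smul_eq_mul]
    rw [tx, ty]
    ext <;> simp <;> ring

/-- a diagonal is mixed iff its open segment meets the boundary curve -/
lemma mixed_iff {n : ℕ} (v : Fin n → Plane) (a b : Plane) :
    (¬ openSegment ℝ a b ⊆ inside v ∧ ¬ openSegment ℝ a b ⊆ outside v) ↔
      ∃ z ∈ openSegment ℝ a b, z ∈ bdry v := by
  constructor
  · rintro ⟨h1, h2⟩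
    by_contra hcon
    push Not at hcon
    have hsub : openSegment ℝ a b ⊆ (bdry v)ᶜ := fun z hz => hcon z hz
    have hconn : IsPreconnected (openSegment ℝ a b) := (convex_openSegment a b).isPreconnected
    have hne : (openSegment ℝ a b).Nonempty := ⟨_, 1 / 2, 1 / 2, by norm_num, by norm_num,
      by norm_num, rfl⟩
    obtain ⟨z0, hz0⟩ := hne
    have hC : openSegment ℝ a b ⊆ connectedComponentIn (bdry v)ᶜ z0 :=
      hconn.subset_connectedComponentIn hz0 hsub
    have heq : ∀ z ∈ openSegment ℝ a b,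
        connectedComponentIn (bdry v)ᶜ z = connectedComponentIn (bdry v)ᶜ z0 := fun z hz =>
      (connectedComponentIn_eq (hC hz)).symm
    by_cases hb : Bornology.IsBounded (connectedComponentIn (bdry v)ᶜ z0)
    · apply h1
      intro z hz
      exact ⟨hcon z hz, by rw [heq z hz]; exact hb⟩
    · apply h2
      intro z hz
      exact ⟨hcon z hz, by rw [heq z hz]; exact hb⟩
  · rintro ⟨z, hz, hzb⟩
    exact ⟨fun h => (h hz).1 hzb, fun h => (h hz).1 hzb⟩

lemma mem_bdry_iff {n : ℕ} (v : Fin n → Plane) (z : Plane) :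
    z ∈ bdry v ↔ (∃ k, z = v k) ∨ ∃ i, Btw (pt (v i)) (pt (v (nxt i))) (pt z) := by
  simp only [bdry, Set.mem_iUnion]
  constructor
  · rintro ⟨i, hi⟩
    rw [mem_segment_iff] at hi
    obtain ⟨t, t0, t1, tx, ty⟩ := hi
    rcases t0.lt_or_eq with h0 | h0
    · rcases t1.lt_or_eq with h1 | h1
      · right; exact ⟨i, t, h0, h1, tx, ty⟩
      · left
        refine ⟨nxt i, pt_inj ?_⟩
        subst h1
        exact Prod.ext (by rw [tx]; ring) (by rw [ty]; ring)
    · left
      refine ⟨i, pt_inj ?_⟩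
      subst h0
      exact Prod.ext (by rw [tx]; ring) (by rw [ty]; ring)
  · rintro (⟨k, rfl⟩ | ⟨i, hi⟩)
    · exact ⟨k, left_mem_segment ℝ _ _⟩
    · exact ⟨i, openSegment_subset_segment ℝ _ _ (mem_openSegment_iff.2 hi)⟩

lemma mixed_eq {n : ℕ} (v : Fin n → Plane) :
    mixedDiagonals v = ((NA \ vis (fun i => pt (v i)) (nxtPerm n) : Finset (Fin n × Fin n)) :
      Set (Fin n × Fin n)) := by
  ext ⟨i, j⟩
  rw [Finset.mem_coe, Finset.mem_sdiff, mem_vis]
  simp only [mixedDiagonals, Set.mem_ofPred_eq, mixed_iff]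
  have hNA : (i, j) ∈ NA ↔ i < j ∧ j ≠ nxt i ∧ i ≠ nxt j := by
    rw [mem_NA]
    simp only [Adj, nxtPerm_apply]
    tauto
  rw [hNA]
  constructor
  · rintro ⟨h1, h2, h3, z, hz, hzb⟩
    refine ⟨⟨h1, h2, h3⟩, ?_⟩
    rintro ⟨-, -, g1, g2⟩
    rw [mem_openSegment_iff] at hz
    rw [mem_bdry_iff] at hzb
    rcases hzb with ⟨k, rfl⟩ | ⟨k, hk⟩
    · exact g1 k hz
    · exact g2 k _ hk hz
  · rintro ⟨⟨h1, h2, h3⟩, h4⟩
    refine ⟨h1, h2, h3, ?_⟩
    by_contra hcon
    push Not at hcon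
    apply h4
    refine ⟨h1, ?_, ?_, ?_⟩
    · simp only [Adj, nxtPerm_apply]; tauto
    · intro k hk
      refine hcon (v k) (mem_openSegment_iff.2 hk) ?_
      rw [mem_bdry_iff]; left; exact ⟨k, rfl⟩
    · intro k z hz hz2
      have : ∃ w : Plane, pt w = z := ⟨!₂[z.1, z.2], by simp [pt]⟩
      obtain ⟨w, rfl⟩ := this
      refine hcon w (mem_openSegment_iff.2 hz2) ?_
      rw [mem_bdry_iff]; right; exact ⟨k, hz⟩

lemma mixedCount_eq {n : ℕ} (v : Fin n → Plane) :
    mixedCount v + (vis (fun i => pt (v i)) (nxtPerm n)).card = (NA (n := n)).card := by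
  rw [mixedCount, mixed_eq, Set.ncard_coe_finset, Finset.card_sdiff_add_card_eq_card]
  intro e he
  rw [mem_vis] at he
  rw [mem_NA]
  exact ⟨he.1, he.2.1⟩

lemma IsSimplePolygon.poly0 {n : ℕ} (hn : 3 ≤ n) {v : Fin n → Plane} (h : IsSimplePolygon v) :
    Poly0 (fun i => pt (v i)) (nxtPerm n) := by
  have noself : ∀ i, ¬ Btw (pt (v i)) (pt (v (nxt i))) (pt (v i)) := by
    rintro i ⟨t, t0, t1, tx, ty⟩
    apply nxt_ne hn i
    apply h.distinct
    apply pt_inj
    have e1 : t * ((pt (v (nxt i))).1 - (pt (v i)).1) = 0 := by linarith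
    have e2 : t * ((pt (v (nxt i))).2 - (pt (v i)).2) = 0 := by linarith
    have f1 := (mul_eq_zero.1 e1).resolve_left t0.ne'
    have f2 := (mul_eq_zero.1 e2).resolve_left t0.ne'
    exact Prod.ext (by linarith) (by linarith)
  have noself' : ∀ i, ¬ Btw (pt (v i)) (pt (v (nxt i))) (pt (v (nxt i))) := by
    rintro i ⟨t, t0, t1, tx, ty⟩
    apply nxt_ne hn i
    apply h.distinct
    apply pt_inj
    have e1 : (1 - t) * ((pt (v (nxt i))).1 - (pt (v i)).1) = 0 := by linarith
    have e2 : (1 - t) * ((pt (v (nxt i))).2 - (pt (v i)).2) = 0 := by linarith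
    have f1 := (mul_eq_zero.1 e1).resolve_left (by linarith)
    have f2 := (mul_eq_zero.1 e2).resolve_left (by linarith)
    exact Prod.ext (by linarith) (by linarith)
  refine ⟨fun i j hij => h.distinct (pt_inj hij), ?_, ?_, nxt_ne hn, nxt_ne2 hn⟩
  · intro i k hk
    rw [nxtPerm_apply] at hk
    by_cases c1 : k = i
    · subst c1; exact noself _ hk
    by_cases c2 : k = nxt i
    · subst c2; exact noself' _ hk
    have hk' := openSegment_subset_segment ℝ _ _ (mem_openSegment_iff.2 hk)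
    by_cases c3 : i = nxt k
    · have hmem : v k ∈ segment ℝ (v k) (v (nxt k)) ∩ segment ℝ (v (nxt k)) (v (nxt (nxt k))) := by
        refine ⟨left_mem_segment ℝ _ _, ?_⟩
        rw [← c3]; exact hk'
      rw [h.consecutive k, Set.mem_singleton_iff] at hmem
      exact nxt_ne hn k (h.distinct hmem).symm
    · exact Set.disjoint_left.1 (h.disjoint i k c1 c2 c3) hk' (left_mem_segment ℝ _ _)
  · intro i j z hij h1 h2
    rw [nxtPerm_apply] at h1 h2
    obtain ⟨w, rfl⟩ : ∃ w : Plane, pt w = z := ⟨!₂[z.1, z.2], by simp [pt]⟩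
    have s1 := openSegment_subset_segment ℝ _ _ (mem_openSegment_iff.2 h1)
    have s2 := openSegment_subset_segment ℝ _ _ (mem_openSegment_iff.2 h2)
    by_cases c2 : j = nxt i
    · subst c2
      have hmem : w ∈ segment ℝ (v i) (v (nxt i)) ∩ segment ℝ (v (nxt i)) (v (nxt (nxt i))) :=
        ⟨s1, s2⟩
      rw [h.consecutive i, Set.mem_singleton_iff] at hmem
      subst hmem
      exact noself' _ h1
    by_cases c3 : i = nxt j
    · subst c3
      have hmem : w ∈ segment ℝ (v j) (v (nxt j)) ∩ segment ℝ (v (nxt j)) (v (nxt (nxt j))) :=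
        ⟨s2, s1⟩
      rw [h.consecutive j, Set.mem_singleton_iff] at hmem
      subst hmem
      exact noself' _ h2
    · exact Set.disjoint_left.1 (h.disjoint i j (Ne.symm hij) c2 c3) s1 s2

lemma collinear_of_cr {a b c : Plane} (h : cr (pt a) (pt b) (pt c) = 0) :
    Collinear ℝ ({a, b, c} : Set Plane) := by
  by_cases hab : a = b
  · subst hab
    simp [collinear_pair]
  · have hne : pt a ≠ pt b := fun e => hab (pt_inj e)
    obtain ⟨s, s1, s2⟩ := exists_param hne h
    rw [collinear_iff_of_mem (p₀ := a) (by simp)]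
    refine ⟨b - a, ?_⟩
    intro p hp
    simp only [Set.mem_insert_iff, Set.mem_singleton_iff] at hp
    rcases hp with rfl | rfl | rfl
    · exact ⟨0, by simp⟩
    · exact ⟨1, by simp⟩
    · refine ⟨s, ?_⟩
      apply pt_inj
      simp only [pt] at s1 s2 ⊢
      simp only [vadd_eq_add, PiLp.add_apply, PiLp.smul_apply, PiLp.sub_apply, smul_eq_mul]
      exact Prod.ext (by rw [s1]; ring) (by rw [s2]; ring)

lemma cr_of_collinear {a b c : Plane} (h : Collinear ℝ ({a, b, c} : Set Plane)) :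
    cr (pt a) (pt b) (pt c) = 0 := by
  rw [collinear_iff_of_mem (p₀ := a) (by simp)] at h
  obtain ⟨w, hw⟩ := h
  obtain ⟨r, hr⟩ := hw b (by simp)
  obtain ⟨s, hs⟩ := hw c (by simp)
  have b0 : b 0 = r * w 0 + a 0 := by rw [hr]; simp
  have b1 : b 1 = r * w 1 + a 1 := by rw [hr]; simp
  have c0 : c 0 = s * w 0 + a 0 := by rw [hs]; simp
  have c1 : c 1 = s * w 1 + a 1 := by rw [hs]; simp
  simp only [cr, pt]
  rw [b0, b1, c0, c1]; ring

lemma IsSimplePolygon.poly {n : ℕ} (hn : 3 ≤ n) {v : Fin n → Plane} (h : IsSimplePolygon v)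
    (hg : GenuineCorners v) : Poly (fun i => pt (v i)) (nxtPerm n) := by
  have h0 := IsSimplePolygon.poly0 hn h
  refine ⟨h0.inj, h0.clean, h0.disj, ?_, nxtPerm_cyc⟩
  intro i e
  exact hg i (collinear_of_cr e)

theorem upper_genuine {n : ℕ} (hn : 4 ≤ n) {v : Fin n → Plane} (h : IsSimplePolygon v)
    (hg : GenuineCorners v) : mixedCount v ≤ (n - 3) ^ 2 / 2 := by
  have : NeZero n := ⟨by omega⟩
  have h1 := (IsSimplePolygon.poly (by omega) h hg).vis_le
  have h2 := mixedCount_eq v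
  have h3 := card_NA (n := n) (by omega)
  rw [Nat.le_div_iff_mul_le (by norm_num)]
  obtain ⟨m, rfl⟩ : ∃ m, n = m + 3 := ⟨n - 3, by omega⟩
  simp only [Nat.add_sub_cancel]
  nlinarith

theorem upper_straight {n : ℕ} (hn : 4 ≤ n) {v : Fin n → Plane} (h : IsSimplePolygon v) :
    mixedCount v ≤ (n - 2) * (n - 3) / 2 := by
  have : NeZero n := ⟨by omega⟩
  have h1 := (IsSimplePolygon.poly0 (by omega) h).vis_le
  have h2 := mixedCount_eq v
  have h3 := card_NA (n := n) (by omega)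
  rw [Nat.le_div_iff_mul_le (by norm_num)]
  obtain ⟨m, rfl⟩ : ∃ m, n = m + 3 := ⟨n - 3, by omega⟩
  simp only [Nat.add_sub_cancel, show m + 3 - 2 = m + 1 by omega]
  nlinarith

end Pool.Agent.Helper18.Diag
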