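import Pool.Agent.Helper34.FQ.Defs
import Pool.Agent.Helper34.PN.AVG

/-!
Row NOISE of the table fq_mods (MP_08bd45_co).
-/

namespace Pool.Agent.Helper34.FQ

open Finset Pool.Agent.Helper34.PN

theorem noise_ind_bd {Ω α : Type} [Fintype Ω] (s : Ω → α → Fin 3) (x : α) (S : Finset α)
    (a : Fin 3) (ω : Ω) : |ind s x a ω - avg s S (ind s x a) ω| ≤ 1 := by
  have h1 : 0 ≤ avg s S (ind s x a) ω := avg_ind_nonneg s x S a ω
  have h2 : avg s S (ind s x a) ω ≤ 1 := by
    rw [← avg_ind_sum s x S ω]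
    exact single_le_sum (f := fun b => avg s S (ind s x b) ω)
      (fun b _ => avg_ind_nonneg s x S b ω) (mem_univ a)
  have h3 : 0 ≤ ind s x a ω := by
    unfold ind
    split_ifs
    · exact zero_le_one
    · exact le_rfl
  have h4 : ind s x a ω ≤ 1 := by
    unfold ind
    split_ifs
    · exact le_rfl
    · exact zero_le_one
  rw [abs_le]
  constructor <;> linarith

/-- the inner product of a bounded function that depends on `S'` with a centred indicator -/
theorem noise_ip {Ω α : Type} [Fintype Ω] (s : Ω → α → Fin 3) (x : α) (S S' : Finset α)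
    (hS : S ⊆ S') (a : Fin 3) (χ : Ω → ℝ) (C : ℝ) (hC0 : 0 ≤ C) (hC : ∀ ω, |χ ω| ≤ C)
    (hχ : ∀ ω ω', (∀ y ∈ S', s ω' y = s ω y) → χ ω' = χ ω) :
    |∑ ω, χ ω * (ind s x a ω - avg s S (ind s x a) ω)|
      ≤ C * (Real.sqrt (Fintype.card Ω : ℝ) *
        Real.sqrt (energy s x S' - energy s x S)) := by
  have h1 : ∑ ω, χ ω * (ind s x a ω - avg s S (ind s x a) ω)
      = ∑ ω, χ ω * (avg s S' (ind s x a) ω - avg s S (ind s x a) ω) := by
    have h2 := avg_orth s S' (ind s x a) χ hχ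
    have h3 : ∑ ω, χ ω * (ind s x a ω - avg s S (ind s x a) ω)
        = ∑ ω, ind s x a ω * χ ω - ∑ ω, χ ω * avg s S (ind s x a) ω := by
      rw [← sum_sub_distrib]
      exact sum_congr rfl fun ω _ => by ring
    have h4 : ∑ ω, χ ω * (avg s S' (ind s x a) ω - avg s S (ind s x a) ω)
        = ∑ ω, avg s S' (ind s x a) ω * χ ω - ∑ ω, χ ω * avg s S (ind s x a) ω := by
      rw [← sum_sub_distrib]
      exact sum_congr rfl fun ω _ => by ring
    rw [h3, h4, h2]
  rw [h1]
  set δ : Ω → ℝ := fun ω => avg s S' (ind s x a) ω - avg s S (ind s x a) ω with hδ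
  have h5 : |∑ ω, χ ω * δ ω| ≤ C * ∑ ω, |δ ω| := by
    refine (abs_sum_le_sum_abs _ _).trans ?_
    rw [mul_sum]
    refine sum_le_sum fun ω _ => ?_
    rw [abs_mul]
    exact mul_le_mul_of_nonneg_right (hC ω) (abs_nonneg _)
  refine h5.trans (mul_le_mul_of_nonneg_left ?_ hC0)
  have h6 : (∑ ω, |δ ω|) ^ 2 ≤ (Fintype.card Ω : ℝ) * (energy s x S' - energy s x S) := by
    have h7 := sum_sq_le_sum_mul_sum_of_sq_eq_mul (univ : Finset Ω) (r := fun ω => |δ ω|)
      (f := fun _ => (1 : ℝ)) (g := fun ω => δ ω ^ 2) (fun _ _ => zero_le_one)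
      (fun _ _ => sq_nonneg _) (fun ω _ => by rw [sq_abs, one_mul])
    refine h7.trans ?_
    rw [sum_const, card_univ, nsmul_eq_mul, mul_one]
    refine mul_le_mul_of_nonneg_left ?_ (Nat.cast_nonneg _)
    rw [energy_diff s x S S' hS]
    exact single_le_sum (f := fun b => ∑ ω, (avg s S' (ind s x b) ω
      - avg s S (ind s x b) ω) ^ 2) (fun b _ => sum_nonneg fun _ _ => sq_nonneg _) (mem_univ a)
  have h8 : ∑ ω, |δ ω| = Real.sqrt ((∑ ω, |δ ω|) ^ 2) :=
    (Real.sqrt_sq (sum_nonneg fun _ _ => abs_nonneg _)).symm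
  rw [h8, ← Real.sqrt_mul (Nat.cast_nonneg _)]
  exact Real.sqrt_le_sqrt h6

/-- Cauchy-Schwarz over the blocks of equal `v` -/
theorem noise_cs {Ω α J : Type} [Fintype Ω] [DecidableEq α] [Fintype J] (v : J → α)
    (M : J → ℝ) (hM : ∀ e, 0 ≤ M e) (hM1 : ∑ e, M e = 1) (g : J → Ω → ℝ) (φ : α → Ω → ℝ)
    (B' : ℝ) (hB' : ∀ u ω, |φ u ω| ≤ B') (hB0' : 0 ≤ B') (d : α → ℝ)
    (hd : ∀ u, d u = ∑ e ∈ univ.filter (fun e => v e = u), M e) :
    ∑ e, M e * |∑ ω, g e ω * φ (v e) ω| ≤ B' * Real.sqrt ((Fintype.card Ω : ℝ) *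
      ∑ e, ∑ e', (if v e = v e' then M e * M e' / d (v e) * |∑ ω, g e ω * g e' ω| else 0)) := by
  classical
  obtain ⟨σ, hσ1, hσ2⟩ : ∃ σ : J → ℝ, (∀ e, |σ e| ≤ 1) ∧
      ∀ e, |∑ ω, g e ω * φ (v e) ω| = σ e * ∑ ω, g e ω * φ (v e) ω := by
    refine ⟨fun e => if 0 ≤ ∑ ω, g e ω * φ (v e) ω then 1 else -1, fun e => ?_, fun e => ?_⟩
    · dsimp only
      split_ifs
      · rw [abs_one]
      · rw [abs_neg, abs_one]
    · dsimp only
      split_ifs with h
      · rw [abs_of_nonneg h, one_mul]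
      · rw [abs_of_neg (not_le.1 h)]; ring
  set h : α → Ω → ℝ := fun u ω => ∑ e ∈ univ.filter (fun e => v e = u), M e * σ e * g e ω with hh
  set V : Finset α := univ.image v with hV
  have hd0 : ∀ u, 0 ≤ d u := fun u => by rw [hd]; exact sum_nonneg fun e _ => hM e
  -- the sum in terms of the blocks
  have e1 : ∑ e, M e * |∑ ω, g e ω * φ (v e) ω| = ∑ u ∈ V, ∑ ω, h u ω * φ u ω := by
    have e2 : ∑ e, M e * |∑ ω, g e ω * φ (v e) ω|
        = ∑ e, ∑ ω, M e * σ e * g e ω * φ (v e) ω := by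
      refine sum_congr rfl fun e _ => ?_
      rw [hσ2 e, mul_sum, mul_sum]
      exact sum_congr rfl fun ω _ => by ring
    rw [e2, ← sum_fiberwise_of_maps_to (s := univ) (t := V) (g := v)
      (fun e _ => mem_image_of_mem v (mem_univ e))]
    refine sum_congr rfl fun u _ => ?_
    rw [sum_comm]
    refine sum_congr rfl fun ω _ => ?_
    rw [hh, sum_mul]
    refine sum_congr rfl fun e he => ?_
    rw [(mem_filter.1 he).2]
  have e3 : ∑ u ∈ V, ∑ ω, h u ω * φ u ω ≤ B' * ∑ p ∈ V ×ˢ (univ : Finset Ω), |h p.1 p.2| := by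
    rw [sum_product, mul_sum]
    refine sum_le_sum fun u _ => ?_
    rw [mul_sum]
    refine sum_le_sum fun ω _ => ?_
    refine (le_abs_self _).trans ?_
    rw [abs_mul, mul_comm]
    exact mul_le_mul_of_nonneg_right (hB' u ω) (abs_nonneg _)
  have hzero : ∀ u, d u = 0 → ∀ ω, h u ω = 0 := by
    intro u hu ω
    rw [hd, sum_eq_zero_iff_of_nonneg (fun e _ => hM e)] at hu
    exact sum_eq_zero fun e he => by rw [hu e he]; ring
  have e4 : (∑ p ∈ V ×ˢ (univ : Finset Ω), |h p.1 p.2|) ^ 2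
      ≤ (∑ p ∈ V ×ˢ (univ : Finset Ω), d p.1) *
        ∑ p ∈ V ×ˢ (univ : Finset Ω), h p.1 p.2 ^ 2 / d p.1 := by
    refine sum_sq_le_sum_mul_sum_of_sq_eq_mul _ (fun p _ => hd0 p.1)
      (fun p _ => div_nonneg (sq_nonneg _) (hd0 p.1)) (fun p _ => ?_)
    rw [sq_abs]
    by_cases hz : d p.1 = 0
    · rw [hz, hzero p.1 hz p.2]; ring
    · field_simp
  have e5 : ∑ p ∈ V ×ˢ (univ : Finset Ω), d p.1 = (Fintype.card Ω : ℝ) := by
    rw [sum_product]
    have e6 : ∑ u ∈ V, ∑ _ω : Ω, d u = (Fintype.card Ω : ℝ) * ∑ u ∈ V, d u := by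
      rw [mul_sum]
      exact sum_congr rfl fun u _ => by rw [sum_const, card_univ, nsmul_eq_mul]
    rw [e6]
    have e7 : ∑ u ∈ V, d u = 1 := by
      rw [← hM1, ← sum_fiberwise_of_maps_to (s := univ) (t := V) (g := v)
        (fun e _ => mem_image_of_mem v (mem_univ e))]
      exact sum_congr rfl fun u _ => hd u
    rw [e7, mul_one]
  have e8 : ∑ p ∈ V ×ˢ (univ : Finset Ω), h p.1 p.2 ^ 2 / d p.1 ≤
      ∑ e, ∑ e', (if v e = v e' then M e * M e' / d (v e) * |∑ ω, g e ω * g e' ω| else 0) := by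
    rw [sum_product, ← sum_fiberwise_of_maps_to (s := univ) (t := V) (g := v)
      (fun e _ => mem_image_of_mem v (mem_univ e))]
    refine sum_le_sum fun u _ => ?_
    have e9 : ∑ ω, h u ω ^ 2 / d u = ∑ e ∈ univ.filter (fun e => v e = u),
        ∑ e' ∈ univ.filter (fun e => v e = u),
          M e * M e' / d u * (σ e * σ e' * ∑ ω, g e ω * g e' ω) := by
      have e10 : ∀ ω, h u ω ^ 2 / d u = ∑ e ∈ univ.filter (fun e => v e = u),
          ∑ e' ∈ univ.filter (fun e => v e = u),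
            M e * M e' / d u * (σ e * σ e' * (g e ω * g e' ω)) := by
        intro ω
        rw [sq, hh, sum_mul_sum, sum_div]
        refine sum_congr rfl fun e _ => ?_
        rw [sum_div]
        exact sum_congr rfl fun e' _ => by ring
      rw [sum_congr rfl fun ω _ => e10 ω, sum_comm]
      refine sum_congr rfl fun e _ => ?_
      rw [sum_comm]
      refine sum_congr rfl fun e' _ => ?_
      rw [mul_sum, mul_sum]
    rw [e9]
    refine sum_le_sum fun e he => ?_
    have hve := (mem_filter.1 he).2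
    rw [sum_filter]
    refine sum_le_sum fun e' _ => ?_
    by_cases hve' : v e' = u
    · rw [if_pos hve', if_pos (hve.trans hve'.symm), hve]
      refine mul_le_mul_of_nonneg_left ?_ (div_nonneg (mul_nonneg (hM e) (hM e')) (hd0 u))
      refine (le_abs_self _).trans ?_
      rw [abs_mul, abs_mul]
      have h1 : |σ e| * |σ e'| ≤ 1 := mul_le_one₀ (hσ1 e) (abs_nonneg _) (hσ1 e')
      calc |σ e| * |σ e'| * |∑ ω, g e ω * g e' ω| ≤ 1 * |∑ ω, g e ω * g e' ω| :=
            mul_le_mul_of_nonneg_right h1 (abs_nonneg _)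
        _ = _ := one_mul _
    · rw [if_neg hve']
      split_ifs
      · exact mul_nonneg (div_nonneg (mul_nonneg (hM e) (hM e')) (hd0 _)) (abs_nonneg _)
      · exact le_rfl
  rw [e1]
  refine e3.trans (mul_le_mul_of_nonneg_left ?_ hB0')
  have e11 : ∑ p ∈ V ×ˢ (univ : Finset Ω), |h p.1 p.2|
      = Real.sqrt ((∑ p ∈ V ×ˢ (univ : Finset Ω), |h p.1 p.2|) ^ 2) :=
    (Real.sqrt_sq (sum_nonneg fun _ _ => abs_nonneg _)).symm
  rw [e11]
  refine Real.sqrt_le_sqrt (e4.trans ?_)
  rw [e5]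
  exact mul_le_mul_of_nonneg_left e8 (Nat.cast_nonneg _)

theorem noise_err {Ω α J : Type} [Fintype Ω] [LinearOrder α] [Fintype J]
    {s : Ω → α → Fin 3} {Z W : Finset α} {r : ℕ} {ε : ℝ} {X : J → ℕ → α} {M : J → ℝ}
    {D mx : α → ℝ} (hd : Dat Z r ε X M D mx) (a : Fin 3) (q q' : ℕ) (hq : q < q')
    (hq' : q' < r) (B B' : ℝ) (hB0 : 0 ≤ B) (hB0' : 0 ≤ B') (ψ : J → Ω → ℝ) (φ : α → Ω → ℝ)
    (hB : ∀ e ω, |ψ e ω| ≤ B) (hB' : ∀ v ω, |φ v ω| ≤ B')
    (hψ : ∀ e ω ω', (∀ x ∈ lw W (X e q) ∪ pre X q e, s ω' x = s ω x) → ψ e ω' = ψ e ω)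
    (K : ℝ) (hK : ∑ e, ∑ e', (if X e q' = X e' q' ∧ X e' q < X e q then
        M e * M e' / dq X M q' (X e q') *
          (energy s (X e q) (lw (W ∪ (pre X q e ∪ pre X (q + 1) e')) (X e q))
            - energy s (X e q) (lw W (X e q))) else 0) ≤ K * (Fintype.card Ω : ℝ)) :
    ∑ e, M e * |∑ ω, ψ e ω *
        (ind s (X e q) a ω - avg s (lw W (X e q)) (ind s (X e q) a) ω) * φ (X e q') ω|
      ≤ B * B' * (Fintype.card Ω : ℝ) * Real.sqrt (2 * Real.sqrt K + ε) := by
  classical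
  obtain ⟨N, hN⟩ : ∃ N : ℝ, N = (Fintype.card Ω : ℝ) := ⟨_, rfl⟩
  have hN0 : 0 ≤ N := by rw [hN]; exact Nat.cast_nonneg _
  obtain ⟨g, hg⟩ : ∃ g : J → Ω → ℝ, ∀ e ω, g e ω = ψ e ω *
      (ind s (X e q) a ω - avg s (lw W (X e q)) (ind s (X e q) a) ω) := ⟨_, fun _ _ => rfl⟩
  obtain ⟨d, hdd⟩ : ∃ d : α → ℝ, ∀ u, d u = dq X M q' u := ⟨_, fun _ => rfl⟩
  have hd0 : ∀ u, 0 ≤ d u := fun u => by rw [hdd]; exact sum_nonneg fun e _ => hd.M0 e
  have hgB : ∀ e ω, |g e ω| ≤ B := by
    intro e ω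
    rw [hg, abs_mul]
    calc |ψ e ω| * |ind s (X e q) a ω - avg s (lw W (X e q)) (ind s (X e q) a) ω|
        ≤ B * 1 := mul_le_mul (hB e ω) (noise_ind_bd s _ _ a ω) (abs_nonneg _) hB0
      _ = B := mul_one B
  obtain ⟨ip, hip⟩ : ∃ ip : J → J → ℝ, ∀ e e', ip e e' = |∑ ω, g e ω * g e' ω| :=
    ⟨_, fun _ _ => rfl⟩
  have hip0 : ∀ e e', 0 ≤ ip e e' := fun e e' => by rw [hip]; exact abs_nonneg _
  have hips : ∀ e e', ip e e' = ip e' e := by
    intro e e'
    rw [hip, hip]
    congr 1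
    exact sum_congr rfl fun ω _ => mul_comm _ _
  have hM := hd.M0
  -- the trivial bound
  have ipB : ∀ e e', ip e e' ≤ B ^ 2 * N := by
    intro e e'
    rw [hip]
    refine (abs_sum_le_sum_abs _ _).trans ?_
    have h1 : ∑ ω, |g e ω * g e' ω| ≤ ∑ _ω : Ω, B ^ 2 := by
      refine sum_le_sum fun ω _ => ?_
      rw [abs_mul, sq]
      exact mul_le_mul (hgB e ω) (hgB e' ω) (abs_nonneg _) hB0
    refine h1.trans (le_of_eq ?_)
    rw [sum_const, card_univ, nsmul_eq_mul, hN, mul_comm]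
  -- the bound through the gain
  obtain ⟨gain, hgain⟩ : ∃ gain : J → J → ℝ, ∀ e e', gain e e' =
      energy s (X e q) (lw (W ∪ (pre X q e ∪ pre X (q + 1) e')) (X e q))
        - energy s (X e q) (lw W (X e q)) := ⟨_, fun _ _ => rfl⟩
  have hsub : ∀ e e', lw W (X e q) ⊆ lw (W ∪ (pre X q e ∪ pre X (q + 1) e')) (X e q) := by
    intro e e' y hy
    have hy' := mem_filter.1 hy
    exact mem_filter.2 ⟨mem_union_left _ hy'.1, hy'.2⟩
  have hgain0 : ∀ e e', 0 ≤ gain e e' := by
    intro e e'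
    rw [hgain, sub_nonneg]
    exact energy_mono s _ _ _ (hsub e e')
  have ipG : ∀ e e', X e' q < X e q → ip e e' ≤ B ^ 2 * (Real.sqrt N * Real.sqrt (gain e e')) := by
    intro e e' hlt
    have hmp : ∀ i, i < q → X e i < X e q := fun i hi => hd.mono e i q hi (hq.trans hq')
    have hmp' : ∀ i, i < q → X e' i < X e q :=
      fun i hi => (hd.mono e' i q hi (hq.trans hq')).trans hlt
    obtain ⟨S', hS'⟩ : ∃ S', S' = lw (W ∪ (pre X q e ∪ pre X (q + 1) e')) (X e q) := ⟨_, rfl⟩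
    have m1 : ∀ y ∈ lw W (X e q) ∪ pre X q e, y ∈ S' := by
      intro y hy
      rw [hS']
      rcases mem_union.1 hy with hy | hy
      · exact hsub e e' hy
      · obtain ⟨i, hi, rfl⟩ := mem_image.1 hy
        exact mem_filter.2 ⟨mem_union_right _ (mem_union_left _ hy),
          (hmp i (mem_range.1 hi)).le⟩
    have m2 : ∀ y ∈ lw W (X e' q) ∪ pre X q e', y ∈ S' := by
      intro y hy
      rw [hS']
      rcases mem_union.1 hy with hy | hy
      · have hy' := mem_filter.1 hy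
        exact mem_filter.2 ⟨mem_union_left _ hy'.1, hy'.2.trans hlt.le⟩
      · obtain ⟨i, hi, rfl⟩ := mem_image.1 hy
        refine mem_filter.2 ⟨mem_union_right _ (mem_union_right _ ?_),
          (hmp' i (mem_range.1 hi)).le⟩
        exact mem_image.2 ⟨i, mem_range.2 ((mem_range.1 hi).trans (Nat.lt_succ_self q)), rfl⟩
    have m3 : X e' q ∈ S' := by
      rw [hS']
      refine mem_filter.2 ⟨mem_union_right _ (mem_union_right _ ?_), hlt.le⟩
      exact mem_image.2 ⟨q, mem_range.2 (Nat.lt_succ_self q), rfl⟩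
    have h1 := noise_ip s (X e q) (lw W (X e q)) S' (by rw [hS']; exact hsub e e') a
      (fun ω => ψ e ω * g e' ω) (B ^ 2) (sq_nonneg B)
      (by
        intro ω
        rw [abs_mul, sq]
        exact mul_le_mul (hB e ω) (hgB e' ω) (abs_nonneg _) hB0)
      (by
        intro ω ω' h
        have h2 : ψ e ω' = ψ e ω := hψ e ω ω' fun y hy => h y (m1 y hy)
        have h3 : ψ e' ω' = ψ e' ω := hψ e' ω ω' fun y hy => h y (m2 y hy)
        have h4 : ind s (X e' q) a ω' = ind s (X e' q) a ω := by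
          unfold ind
          rw [h _ m3]
        have h5 : avg s (lw W (X e' q)) (ind s (X e' q) a) ω'
            = avg s (lw W (X e' q)) (ind s (X e' q) a) ω :=
          avg_meas s _ _ ω ω' fun y hy => h y (m2 y (mem_union_left _ hy))
        change ψ e ω' * g e' ω' = ψ e ω * g e' ω
        rw [hg, hg, h2, h3, h4, h5])
    rw [hip, hgain, ← hS', hN]
    refine le_trans (le_of_eq ?_) h1
    congr 1
    refine sum_congr rfl fun ω _ => ?_
    rw [hg e ω]
    ring
  have hcs := noise_cs (fun e => X e q') M hM hd.M1 g φ B' hB' hB0' d (fun u => hdd u)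
  have h0 : ∑ e, M e * |∑ ω, ψ e ω *
        (ind s (X e q) a ω - avg s (lw W (X e q)) (ind s (X e q) a) ω) * φ (X e q') ω|
      = ∑ e, M e * |∑ ω, g e ω * φ (X e q') ω| :=
    sum_congr rfl fun e _ => by
      congr 2
      exact sum_congr rfl fun ω _ => by rw [hg e ω]
  rw [h0]
  refine hcs.trans ?_
  obtain ⟨A, hA⟩ : ∃ A : J → J → ℝ, ∀ e e', A e e' = M e * M e' / d (X e q') :=
    ⟨_, fun _ _ => rfl⟩
  have hA0 : ∀ e e', 0 ≤ A e e' := fun e e' => by
    rw [hA]; exact div_nonneg (mul_nonneg (hM e) (hM e')) (hd0 _)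
  have hrow : ∀ e, ∑ e' ∈ univ.filter (fun e' => X e' q' = X e q'), A e e' ≤ M e := by
    intro e
    have h1 : ∑ e' ∈ univ.filter (fun e' => X e' q' = X e q'), A e e'
        = M e * d (X e q') / d (X e q') := by
      rw [hdd, dq, mul_sum, sum_div]
      refine sum_congr rfl fun e' _ => ?_
      rw [hA, hdd, dq]
    rw [h1]
    by_cases hz : d (X e q') = 0
    · rw [hz, div_zero]; exact hM e
    · rw [mul_div_assoc, div_self hz, mul_one]
  -- total weight
  have hAtot : ∑ e, ∑ e', (if X e q' = X e' q' then A e e' else 0) ≤ 1 := by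
    rw [← hd.M1]
    refine sum_le_sum fun e _ => ?_
    rw [← sum_filter]
    refine le_trans (le_of_eq ?_) (hrow e)
    refine sum_congr (filter_congr fun e' _ => ⟨fun h => h.symm, fun h => h.symm⟩)
      fun _ _ => rfl
  -- the pairs with `X e' q < X e q`
  have hlow : ∑ e, ∑ e', (if X e q' = X e' q' ∧ X e' q < X e q then A e e' * ip e e' else 0)
      ≤ B ^ 2 * (N * Real.sqrt K) := by
    have h1 : ∑ e, ∑ e', (if X e q' = X e' q' ∧ X e' q < X e q then A e e' * ip e e' else 0)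
        ≤ B ^ 2 * Real.sqrt N * ∑ p ∈ (univ ×ˢ univ : Finset (J × J)).filter
          (fun p => X p.1 q' = X p.2 q' ∧ X p.2 q < X p.1 q),
            A p.1 p.2 * Real.sqrt (gain p.1 p.2) := by
      rw [sum_filter, sum_product, mul_sum]
      refine sum_le_sum fun e _ => ?_
      rw [mul_sum]
      refine sum_le_sum fun e' _ => ?_
      dsimp only
      split_ifs with h
      · calc A e e' * ip e e' ≤ A e e' * (B ^ 2 * (Real.sqrt N * Real.sqrt (gain e e'))) :=
              mul_le_mul_of_nonneg_left (ipG e e' h.2) (hA0 e e')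
          _ = _ := by ring
      · rw [mul_zero]
    refine h1.trans ?_
    have h2 : ∑ p ∈ (univ ×ˢ univ : Finset (J × J)).filter
          (fun p => X p.1 q' = X p.2 q' ∧ X p.2 q < X p.1 q),
            A p.1 p.2 * Real.sqrt (gain p.1 p.2) ≤ Real.sqrt (K * N) := by
      have h3 := sum_sq_le_sum_mul_sum_of_sq_eq_mul
        ((univ ×ˢ univ : Finset (J × J)).filter
          (fun p => X p.1 q' = X p.2 q' ∧ X p.2 q < X p.1 q))
        (r := fun p => A p.1 p.2 * Real.sqrt (gain p.1 p.2))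
        (f := fun p => A p.1 p.2) (g := fun p => A p.1 p.2 * gain p.1 p.2)
        (fun p _ => hA0 _ _) (fun p _ => mul_nonneg (hA0 _ _) (hgain0 _ _))
        (fun p _ => by
          rw [mul_pow, Real.sq_sqrt (hgain0 _ _)]
          ring)
      have h4 : ∑ p ∈ (univ ×ˢ univ : Finset (J × J)).filter
          (fun p => X p.1 q' = X p.2 q' ∧ X p.2 q < X p.1 q), A p.1 p.2 ≤ 1 := by
        rw [sum_filter, sum_product]
        refine le_trans ?_ hAtot
        refine sum_le_sum fun e _ => sum_le_sum fun e' _ => ?_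
        dsimp only
        split_ifs with h h'
        · exact le_rfl
        · exact absurd h.1 h'
        · exact hA0 _ _
        · exact le_rfl
      have h5 : ∑ p ∈ (univ ×ˢ univ : Finset (J × J)).filter
          (fun p => X p.1 q' = X p.2 q' ∧ X p.2 q < X p.1 q), A p.1 p.2 * gain p.1 p.2
          ≤ K * N := by
        rw [sum_filter, sum_product, hN]
        refine le_trans (le_of_eq ?_) hK
        refine sum_congr rfl fun e _ => sum_congr rfl fun e' _ => ?_
        dsimp only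
        rw [hA, hgain, hdd]
      have h6 : 0 ≤ ∑ p ∈ (univ ×ˢ univ : Finset (J × J)).filter
          (fun p => X p.1 q' = X p.2 q' ∧ X p.2 q < X p.1 q), A p.1 p.2 * gain p.1 p.2 :=
        sum_nonneg fun p _ => mul_nonneg (hA0 _ _) (hgain0 _ _)
      have h7 : 0 ≤ ∑ p ∈ (univ ×ˢ univ : Finset (J × J)).filter
          (fun p => X p.1 q' = X p.2 q' ∧ X p.2 q < X p.1 q),
            A p.1 p.2 * Real.sqrt (gain p.1 p.2) :=
        sum_nonneg fun p _ => mul_nonneg (hA0 _ _) (Real.sqrt_nonneg _)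
      rw [← Real.sqrt_sq h7]
      refine Real.sqrt_le_sqrt (h3.trans ?_)
      calc _ ≤ 1 * (K * N) := mul_le_mul h4 h5 h6 zero_le_one
        _ = K * N := one_mul _
    calc B ^ 2 * Real.sqrt N * ∑ p ∈ (univ ×ˢ univ : Finset (J × J)).filter
          (fun p => X p.1 q' = X p.2 q' ∧ X p.2 q < X p.1 q),
            A p.1 p.2 * Real.sqrt (gain p.1 p.2)
        ≤ B ^ 2 * Real.sqrt N * Real.sqrt (K * N) :=
          mul_le_mul_of_nonneg_left h2 (mul_nonneg (sq_nonneg B) (Real.sqrt_nonneg _))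
      _ = B ^ 2 * (N * Real.sqrt K) := by
          rw [Real.sqrt_mul' _ hN0]
          have h8 : Real.sqrt N * Real.sqrt N = N := Real.mul_self_sqrt hN0
          calc B ^ 2 * Real.sqrt N * (Real.sqrt K * Real.sqrt N)
              = B ^ 2 * ((Real.sqrt N * Real.sqrt N) * Real.sqrt K) := by ring
            _ = _ := by rw [h8]
  -- the symmetric pairs
  have hhigh : ∑ e, ∑ e', (if X e q' = X e' q' ∧ X e q < X e' q then A e e' * ip e e' else 0)
      ≤ B ^ 2 * (N * Real.sqrt K) := by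
    rw [sum_comm]
    refine le_trans (le_of_eq ?_) hlow
    refine sum_congr rfl fun e' _ => sum_congr rfl fun e _ => ?_
    by_cases h : X e q' = X e' q' ∧ X e q < X e' q
    · rw [if_pos h, if_pos ⟨h.1.symm, h.2⟩, hips e e', hA, hA, h.1, mul_comm (M e) (M e')]
    · rw [if_neg h, if_neg (fun h' => h ⟨h'.1.symm, h'.2⟩)]
  -- the pairs with equal vertices
  have hmid : ∑ e, ∑ e', (if X e q' = X e' q' ∧ X e q = X e' q then A e e' * ip e e' else 0)
      ≤ B ^ 2 * (N * ε) := by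
    have h1 : ∀ e, ∑ e', (if X e q' = X e' q' ∧ X e q = X e' q then A e e' * ip e e' else 0)
        ≤ B ^ 2 * N * (M e / d (X e q') * mx (X e q')) := by
      intro e
      have h2 : ∑ e', (if X e q' = X e' q' ∧ X e q = X e' q then A e e' * ip e e' else 0)
          ≤ B ^ 2 * N * (M e / d (X e q') *
            ∑ e' ∈ univ.filter (fun e' => X e q' = X e' q' ∧ X e q = X e' q), M e') := by
        rw [← sum_filter, mul_sum, mul_sum]
        refine sum_le_sum fun e' _ => ?_
        calc A e e' * ip e e' ≤ A e e' * (B ^ 2 * N) :=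
              mul_le_mul_of_nonneg_left (ipB e e') (hA0 e e')
          _ = _ := by rw [hA]; ring
      refine h2.trans (mul_le_mul_of_nonneg_left ?_ (mul_nonneg (sq_nonneg B) hN0))
      refine mul_le_mul_of_nonneg_left ?_ (div_nonneg (hM e) (hd0 _))
      have hne : X e q' ≠ X e q := (hd.mono e q q' hq hq').ne'
      refine le_trans ?_ (hd.mxe (X e q') (X e q) hne)
      refine sum_le_sum_of_subset_of_nonneg ?_ (fun e' _ _ => hM e')
      intro e' he'
      have h3 := (mem_filter.1 he').2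
      refine mem_filter.2 ⟨mem_univ _, ?_, ?_⟩
      · rw [h3.1]
        exact mem_image.2 ⟨q', mem_range.2 hq', rfl⟩
      · rw [h3.2]
        exact mem_image.2 ⟨q, mem_range.2 (hq.trans hq'), rfl⟩
    refine (sum_le_sum fun e _ => h1 e).trans ?_
    rw [← mul_sum]
    have h4 : ∑ e, M e / d (X e q') * mx (X e q') ≤ ε := by
      rw [← sum_fiberwise_of_maps_to (s := univ) (t := Z) (g := fun e => X e q')
        (fun e _ => hd.mem e q' hq')]
      refine le_trans (sum_le_sum fun u _ => ?_) hd.mxs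
      have h5 : ∑ e ∈ univ.filter (fun e => X e q' = u), M e / d (X e q') * mx (X e q')
          = d u / d u * mx u := by
        rw [hdd u, dq, sum_div, sum_mul]
        refine sum_congr rfl fun e he => ?_
        rw [(mem_filter.1 he).2, hdd u, dq]
      rw [h5]
      by_cases hz : d u = 0
      · rw [hz, div_zero, zero_mul]; exact hd.mx0 u
      · rw [div_self hz, one_mul]
    calc B ^ 2 * N * ∑ e, M e / d (X e q') * mx (X e q') ≤ B ^ 2 * N * ε :=
          mul_le_mul_of_nonneg_left h4 (mul_nonneg (sq_nonneg B) hN0)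
      _ = _ := by ring
  have hQ : ∑ e, ∑ e', (if X e q' = X e' q' then M e * M e' / d (X e q') *
      |∑ ω, g e ω * g e' ω| else 0) ≤ B ^ 2 * N * (2 * Real.sqrt K + ε) := by
    have h1 : ∀ e e', (if X e q' = X e' q' then M e * M e' / d (X e q') *
        |∑ ω, g e ω * g e' ω| else 0)
        = (if X e q' = X e' q' ∧ X e' q < X e q then A e e' * ip e e' else 0)
          + (if X e q' = X e' q' ∧ X e q < X e' q then A e e' * ip e e' else 0)
          + (if X e q' = X e' q' ∧ X e q = X e' q then A e e' * ip e e' else 0) := by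
      intro e e'
      rw [← hip, ← hA]
      by_cases h : X e q' = X e' q'
      · rcases lt_trichotomy (X e q) (X e' q) with h2 | h2 | h2
        · rw [if_pos h, if_neg (fun h' => lt_asymm h2 h'.2), if_pos ⟨h, h2⟩,
            if_neg (fun h' => h2.ne h'.2)]
          ring
        · rw [if_pos h, if_neg (fun h' => h'.2.ne h2.symm), if_neg (fun h' => h'.2.ne h2),
            if_pos ⟨h, h2⟩]
          ring
        · rw [if_pos h, if_pos ⟨h, h2⟩, if_neg (fun h' => lt_asymm h2 h'.2),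
            if_neg (fun h' => h2.ne' h'.2)]
          ring
      · rw [if_neg h, if_neg (fun h' => h h'.1), if_neg (fun h' => h h'.1),
          if_neg (fun h' => h h'.1)]
        ring
    rw [sum_congr rfl fun e _ => sum_congr rfl fun e' _ => h1 e e']
    simp only [sum_add_distrib]
    linarith [hlow, hhigh, hmid]
  calc B' * Real.sqrt ((Fintype.card Ω : ℝ) * ∑ e, ∑ e', (if X e q' = X e' q' then
        M e * M e' / d (X e q') * |∑ ω, g e ω * g e' ω| else 0))
      ≤ B' * Real.sqrt ((B * N) ^ 2 * (2 * Real.sqrt K + ε)) := by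
        refine mul_le_mul_of_nonneg_left (Real.sqrt_le_sqrt ?_) hB0'
        rw [← hN]
        calc N * _ ≤ N * (B ^ 2 * N * (2 * Real.sqrt K + ε)) :=
              mul_le_mul_of_nonneg_left hQ hN0
          _ = _ := by ring
    _ = B * B' * (Fintype.card Ω : ℝ) * Real.sqrt (2 * Real.sqrt K + ε) := by
        rw [Real.sqrt_mul (sq_nonneg _), Real.sqrt_sq (mul_nonneg hB0 hN0), hN]
        ring

end Pool.Agent.Helper34.FQ
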