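import Mathlib

/-!
The incidence graph of a set system.
-/

namespace Pool.Agent.Helper18.HG

/-- The bipartite incidence graph of the set system `S`: the point `v` is adjacent to the index `i`
iff `v ∈ S i`. -/
def incGraph {V I : Type*} (S : I → Finset V) : SimpleGraph (V ⊕ I) :=
  SimpleGraph.fromRel fun a b => ∃ v i, a = Sum.inl v ∧ b = Sum.inr i ∧ v ∈ S i

end Pool.Agent.Helper18.HG
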