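import Pool.Agent.Helper18.HGStep

open Finset

set_option linter.unusedSectionVars false

namespace Pool.Agent.Helper18.HG

open Pool.Agent.Helper18.BG (avR avR_sum avR_mul_left avR_add avR_mono avR_nonneg avR_const)

section drift

variable {V I : Type*} [Fintype V] [DecidableEq V] [Fintype I] [DecidableEq I]
  (S : I → Finset V) (lv : V → ℕ) (T : ℕ → I → ℕ) {Q : ℕ} [NeZero Q]

/-- Reversal of all coordinates. -/
def rv (ω : V → Fin Q) : V → Fin Q := fun v => Fin.rev (ω v)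

lemma rv_invol : Function.Involutive (rv : (V → Fin Q) → (V → Fin Q)) := by
  intro ω
  funext v
  simp [rv]

lemma Zx_rv (i : I) (j : ℕ) (x : V) (ω : V → Fin Q) :
    Zx S lv T Q i j x (rv ω) = -Zx S lv T Q i j x ω := by
  unfold Zx
  rw [← Finset.sum_neg_distrib]
  apply Finset.sum_congr rfl
  intro a _
  have : D S lv T j (rv ω) a = -D S lv T j ω a := D_rev S lv T j ω a
  rw [this, al_neg]

/-- Mean of the truncated shifted influence. -/
noncomputable def gg (i : I) (j : ℕ) (x : V) (Q : ℕ) (a : ℤ) : ℝ :=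
  avR (fun ω : V → Fin Q => ((clip Q (a + Zx S lv T Q i j x ω) : ℤ) : ℝ))

lemma gg_neg (i : I) (j : ℕ) (x : V) (a : ℤ) :
    gg S lv T i j x Q (-a) = -gg S lv T i j x Q a := by
  unfold gg
  rw [← avR_invol rv rv_invol (fun ω : V → Fin Q =>
    ((clip Q (-a + Zx S lv T Q i j x ω) : ℤ) : ℝ))]
  have h1 : (fun ω : V → Fin Q => ((clip Q (-a + Zx S lv T Q i j x (rv ω)) : ℤ) : ℝ)) =
      fun ω => (-1) * ((clip Q (a + Zx S lv T Q i j x ω) : ℤ) : ℝ) := by
    funext ω
    rw [Zx_rv, ← neg_add, clip_neg]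
    push_cast
    ring
  rw [h1, avR_mul_left]
  ring

lemma gg_zero (i : I) (j : ℕ) (x : V) : gg S lv T i j x Q 0 = 0 := by
  have := gg_neg S lv T (Q := Q) i j x 0
  rw [neg_zero] at this
  linarith

lemma gg_mono (i : I) (j : ℕ) (x : V) {a b : ℤ} (h : a ≤ b) :
    gg S lv T i j x Q a ≤ gg S lv T i j x Q b := by
  unfold gg
  apply avR_mono
  intro ω
  exact_mod_cast clip_mono Q (by linarith)

lemma gg_lip (i : I) (j : ℕ) (x : V) {a b : ℤ} (h : a ≤ b) :
    gg S lv T i j x Q b ≤ gg S lv T i j x Q a + (b - a) := by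
  have hne : Nonempty (V → Fin Q) := ⟨fun _ => 0⟩
  unfold gg
  rw [← avR_const (Ω := V → Fin Q) ((b : ℝ) - a), ← avR_add]
  apply avR_mono
  intro ω
  have h1 := clip_sub_le Q (y := a + Zx S lv T Q i j x ω) (z := b + Zx S lv T Q i j x ω)
    (by linarith)
  have h2 : ((clip Q (b + Zx S lv T Q i j x ω) - clip Q (a + Zx S lv T Q i j x ω) : ℤ) : ℝ) ≤
      ((b + Zx S lv T Q i j x ω - (a + Zx S lv T Q i j x ω) : ℤ) : ℝ) := by exact_mod_cast h1
  push_cast at h2
  linarith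

lemma clip_diff {Q : ℕ} {a : ℕ} (ha : 2 * a ≤ Q) (hQ : 0 < Q) (z : ℤ) :
    ((clip Q (-(a : ℤ) + z) : ℤ) : ℝ) + a * (1 - 4 * (z : ℝ) ^ 2 / (Q : ℝ) ^ 2) ≤
      ((clip Q z : ℤ) : ℝ) := by
  have hQ' : (0 : ℝ) < Q := by exact_mod_cast hQ
  rcases le_or_gt (2 * |z|) Q with h | h
  · have h1 : clip Q z = z := clip_of_abs_le (by have := abs_nonneg z; linarith)
    have h2 : clip Q (-(a : ℤ) + z) = -(a : ℤ) + z := by
      apply clip_of_abs_le
      have h3 := abs_add_le (-(a : ℤ)) z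
      rw [abs_neg, Nat.abs_cast] at h3
      have h4 : 2 * (a : ℤ) ≤ Q := by exact_mod_cast ha
      linarith
    rw [h1, h2]
    push_cast
    have h5 : 0 ≤ (a : ℝ) * (4 * (z : ℝ) ^ 2 / (Q : ℝ) ^ 2) := by positivity
    linarith
  · have h1 : clip Q (-(a : ℤ) + z) ≤ clip Q z := clip_mono Q (by
      have : (0 : ℤ) ≤ a := Int.natCast_nonneg a
      linarith)
    have h2 : ((clip Q (-(a : ℤ) + z) : ℤ) : ℝ) ≤ ((clip Q z : ℤ) : ℝ) := by exact_mod_cast h1
    have h3 : (Q : ℝ) < 2 * |(z : ℝ)| := by exact_mod_cast h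
    have h4 : (Q : ℝ) ^ 2 ≤ 4 * (z : ℝ) ^ 2 := by
      rw [← sq_abs (z : ℝ)]
      nlinarith [abs_nonneg (z : ℝ)]
    have h5 : 1 ≤ 4 * (z : ℝ) ^ 2 / (Q : ℝ) ^ 2 := by
      rw [le_div_iff₀ (by positivity)]
      linarith
    have h6 : (a : ℝ) * (1 - 4 * (z : ℝ) ^ 2 / (Q : ℝ) ^ 2) ≤ 0 := by
      apply mul_nonpos_of_nonneg_of_nonpos
      · positivity
      · linarith
    linarith

/-- Second moment of the influence. -/
noncomputable def EZ2 (i : I) (j : ℕ) (x : V) (Q : ℕ) : ℝ :=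
  avR (fun ω : V → Fin Q => ((Zx S lv T Q i j x ω : ℤ) : ℝ) ^ 2)

lemma gg_le (i : I) (j : ℕ) (x : V) {a : ℕ} (ha : 2 * a ≤ Q) :
    gg S lv T i j x Q (-(a : ℤ)) ≤ -(a * (1 - 4 * EZ2 S lv T i j x Q / (Q : ℝ) ^ 2)) := by
  have hne : Nonempty (V → Fin Q) := ⟨fun _ => 0⟩
  have hQ : 0 < Q := Nat.pos_of_ne_zero (NeZero.ne Q)
  have h0 := gg_zero S lv T (Q := Q) i j x
  have h1 : gg S lv T i j x Q (-(a : ℤ)) + a * (1 - 4 * EZ2 S lv T i j x Q / (Q : ℝ) ^ 2) ≤
      gg S lv T i j x Q 0 := by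
    have e1 : (a : ℝ) * (1 - 4 * EZ2 S lv T i j x Q / (Q : ℝ) ^ 2) =
        avR (fun ω : V → Fin Q => (a : ℝ) + (-(4 * a / (Q : ℝ) ^ 2)) *
          ((Zx S lv T Q i j x ω : ℤ) : ℝ) ^ 2) := by
      rw [avR_add, avR_const, avR_mul_left]
      unfold EZ2
      ring
    rw [e1]
    unfold gg
    rw [← avR_add]
    apply avR_mono
    intro ω
    have := clip_diff ha hQ (Zx S lv T Q i j x ω)
    rw [zero_add]
    calc _ = ((clip Q (-(a : ℤ) + Zx S lv T Q i j x ω) : ℤ) : ℝ) +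
        a * (1 - 4 * ((Zx S lv T Q i j x ω : ℤ) : ℝ) ^ 2 / (Q : ℝ) ^ 2) := by ring
      _ ≤ _ := this
  linarith

lemma mx_eq (i : I) (j : ℕ) (x : V) (d : ℤ) :
    mx S lv T Q i j x d = gg S lv T i j x Q (al S lv T Q i j d) / Q := rfl

lemma mu_neg (i : I) (j : ℕ) (d : ℤ) : mu S lv T Q i j (-d) = -mu S lv T Q i j d := by
  unfold mu
  rw [← Finset.sum_neg_distrib]
  apply Finset.sum_congr rfl
  intro x _
  rw [mx_eq, mx_eq, al_neg, gg_neg]
  ring

/-- `n * (cor * (Q / n)) = cor * Q`. -/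
lemma cor_mul_div (hQ : ∀ i j, 0 < nn S lv i j → 2 * nn S lv i j ∣ Q) (i : I) (j : ℕ) (d : ℤ) :
    nn S lv i j * (cor S lv T i j d * (Q / nn S lv i j)) = cor S lv T i j d * Q := by
  rcases Nat.eq_zero_or_pos (nn S lv i j) with h | h
  · have h1 := cor_le_half S lv T i j d
    rw [h] at h1
    have : cor S lv T i j d = 0 := by omega
    rw [this]
    simp
  · have h1 : nn S lv i j ∣ Q := (Dvd.intro_left 2 rfl).trans (hQ i j h)
    calc nn S lv i j * (cor S lv T i j d * (Q / nn S lv i j)) =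
        cor S lv T i j d * (nn S lv i j * (Q / nn S lv i j)) := by ring
      _ = _ := by rw [Nat.mul_div_cancel' h1]

lemma mu_bounds_pos (hQ : ∀ i j, 0 < nn S lv i j → 2 * nn S lv i j ∣ Q) (i : I) (j : ℕ) {d : ℤ}
    (hd : 0 < d) : -(cor S lv T i j d : ℝ) ≤ mu S lv T Q i j d ∧ mu S lv T Q i j d ≤ 0 := by
  have hQ0 : 0 < Q := Nat.pos_of_ne_zero (NeZero.ne Q)
  have hQ' : (0 : ℝ) < Q := by exact_mod_cast hQ0
  have hal : al S lv T Q i j d = -((cor S lv T i j d * (Q / nn S lv i j) : ℕ) : ℤ) := by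
    unfold al
    rw [Int.sign_eq_one_of_pos hd]
    ring
  set a : ℕ := cor S lv T i j d * (Q / nn S lv i j) with ha
  have h0 : ∀ x, -(a : ℝ) ≤ gg S lv T i j x Q (-(a : ℤ)) ∧ gg S lv T i j x Q (-(a : ℤ)) ≤ 0 := by
    intro x
    have h1 := gg_zero S lv T (Q := Q) i j x
    have h2 := gg_mono S lv T (Q := Q) i j x (a := -(a : ℤ)) (b := 0) (by omega)
    have h3 := gg_lip S lv T (Q := Q) i j x (a := -(a : ℤ)) (b := 0) (by omega)
    push_cast at h3
    constructor <;> linarith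
  have hna : (nn S lv i j : ℝ) * (a : ℝ) = cor S lv T i j d * Q := by
    have := cor_mul_div S lv T hQ i j d
    exact_mod_cast this
  unfold mu
  constructor
  · calc -(cor S lv T i j d : ℝ) = ∑ x ∈ lev S lv i j, (-(a : ℝ) / Q) := by
          rw [Finset.sum_const, nsmul_eq_mul]
          have : ((#(lev S lv i j) : ℕ) : ℝ) = (nn S lv i j : ℝ) := rfl
          rw [this]
          field_simp
          linarith
      _ ≤ _ := by
          apply Finset.sum_le_sum
          intro x _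
          rw [mx_eq, hal]
          exact div_le_div_of_nonneg_right (h0 x).1 hQ'.le
  · apply Finset.sum_nonpos
    intro x _
    rw [mx_eq, hal]
    exact div_nonpos_of_nonpos_of_nonneg (h0 x).2 hQ'.le

lemma mu_le_pos (hQ : ∀ i j, 0 < nn S lv i j → 2 * nn S lv i j ∣ Q) (i : I) (j : ℕ) {d : ℤ}
    (hd : 0 < d) {δ : ℝ} (hδ : ∀ x ∈ lev S lv i j, 4 * EZ2 S lv T i j x Q ≤ δ * (Q : ℝ) ^ 2) :
    mu S lv T Q i j d ≤ -((1 - δ) * cor S lv T i j d) := by
  have hQ0 : 0 < Q := Nat.pos_of_ne_zero (NeZero.ne Q)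
  have hQ' : (0 : ℝ) < Q := by exact_mod_cast hQ0
  have hal : al S lv T Q i j d = -((cor S lv T i j d * (Q / nn S lv i j) : ℕ) : ℤ) := by
    unfold al
    rw [Int.sign_eq_one_of_pos hd]
    ring
  have h2a : 2 * (cor S lv T i j d * (Q / nn S lv i j)) ≤ Q := cor_mul_le S lv T i j d
  set a : ℕ := cor S lv T i j d * (Q / nn S lv i j) with ha
  have hna : (nn S lv i j : ℝ) * (a : ℝ) = cor S lv T i j d * Q := by
    have := cor_mul_div S lv T hQ i j d
    exact_mod_cast this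
  unfold mu
  calc ∑ x ∈ lev S lv i j, mx S lv T Q i j x d ≤ ∑ x ∈ lev S lv i j, (-(a * (1 - δ)) / Q) := by
        apply Finset.sum_le_sum
        intro x hx
        rw [mx_eq, hal]
        apply div_le_div_of_nonneg_right _ hQ'.le
        have h1 := gg_le S lv T (Q := Q) i j x h2a
        have h2 : 4 * EZ2 S lv T i j x Q / (Q : ℝ) ^ 2 ≤ δ := by
          rw [div_le_iff₀ (by positivity)]
          exact hδ x hx
        have h3 : (a : ℝ) * (1 - δ) ≤ a * (1 - 4 * EZ2 S lv T i j x Q / (Q : ℝ) ^ 2) := by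
          apply mul_le_mul_of_nonneg_left _ (Nat.cast_nonneg a)
          linarith
        linarith
    _ = _ := by
        rw [Finset.sum_const, nsmul_eq_mul]
        have : ((#(lev S lv i j) : ℕ) : ℝ) = (nn S lv i j : ℝ) := rfl
        rw [this]
        field_simp
        linear_combination (-(1 - δ)) * hna

/-- The drift never increases the absolute value. -/
lemma abs_add_mu_le (hQ : ∀ i j, 0 < nn S lv i j → 2 * nn S lv i j ∣ Q) (i : I) (j : ℕ) (d : ℤ) :
    |(d : ℝ) + mu S lv T Q i j d| ≤ |(d : ℝ)| := by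
  have key : ∀ e : ℤ, 0 < e → |(e : ℝ) + mu S lv T Q i j e| ≤ |(e : ℝ)| := by
    intro e he
    have h1 := mu_bounds_pos S lv T hQ i j he
    have h2 : cor S lv T i j e ≤ e.natAbs := (cor_le_ex S lv T i j e).trans (Nat.sub_le _ _)
    have h3 : (cor S lv T i j e : ℝ) ≤ e := by
      have h4 : ((cor S lv T i j e : ℕ) : ℤ) ≤ e := by
        have : (e.natAbs : ℤ) = e := Int.natAbs_of_nonneg he.le
        omega
      exact_mod_cast h4
    have he' : (0 : ℝ) < e := by exact_mod_cast he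
    rw [abs_of_pos he', abs_of_nonneg (by linarith [h1.1])]
    linarith [h1.2]
  rcases lt_trichotomy d 0 with h | h | h
  · have h1 := key (-d) (by omega)
    rw [mu_neg] at h1
    push_cast at h1
    rw [← neg_add, abs_neg, abs_neg] at h1
    exact h1
  · subst h
    have h1 := mu_neg S lv T (Q := Q) i j 0
    rw [neg_zero] at h1
    have : mu S lv T Q i j 0 = 0 := by linarith
    rw [this]
    simp
  · exact key d h

/-- Quality of the correction. -/
lemma abs_add_mu_le' (hQ : ∀ i j, 0 < nn S lv i j → 2 * nn S lv i j ∣ Q) (i : I) (j : ℕ) (d : ℤ)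
    {δ : ℝ} (hδ0 : 0 ≤ δ)
    (hδ : ∀ x ∈ lev S lv i j, 4 * EZ2 S lv T i j x Q ≤ δ * (Q : ℝ) ^ 2)
    (hd : d.natAbs - T j i ≤ nn S lv i j / 2) :
    |(d : ℝ) + mu S lv T Q i j d| ≤ T j i + δ * ((d.natAbs - T j i : ℕ) : ℝ) := by
  have key : ∀ e : ℤ, 0 < e → e.natAbs - T j i ≤ nn S lv i j / 2 →
      |(e : ℝ) + mu S lv T Q i j e| ≤ T j i + δ * ((e.natAbs - T j i : ℕ) : ℝ) := by
    intro e he hle
    have h1 := mu_bounds_pos S lv T hQ i j he
    have h2 := mu_le_pos S lv T hQ i j he hδ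
    have hc : cor S lv T i j e = e.natAbs - T j i := by
      unfold cor
      exact min_eq_left hle
    have he2 : ((e.natAbs : ℕ) : ℝ) = (e : ℝ) := by
      have h5 : (e.natAbs : ℤ) = e := Int.natAbs_of_nonneg he.le
      calc ((e.natAbs : ℕ) : ℝ) = (((e.natAbs : ℕ) : ℤ) : ℝ) := (Int.cast_natCast _).symm
        _ = (e : ℝ) := by rw [h5]
    have he' : (0 : ℝ) < e := by exact_mod_cast he
    rw [hc] at h1 h2
    have h3 : (e : ℝ) ≤ T j i + ((e.natAbs - T j i : ℕ) : ℝ) := by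
      rw [← he2]
      have : e.natAbs ≤ T j i + (e.natAbs - T j i) := by omega
      exact_mod_cast this
    have h4 : ((e.natAbs - T j i : ℕ) : ℝ) ≤ e := by
      rw [← he2]
      have : e.natAbs - T j i ≤ e.natAbs := Nat.sub_le _ _
      exact_mod_cast this
    rw [abs_of_nonneg (by linarith [h1.1])]
    linarith
  rcases lt_trichotomy d 0 with h | h | h
  · have h1 := key (-d) (by omega) (by rw [Int.natAbs_neg]; exact hd)
    rw [mu_neg, Int.natAbs_neg] at h1
    push_cast at h1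
    rw [← neg_add, abs_neg] at h1
    exact h1
  · subst h
    have h1 := mu_neg S lv T (Q := Q) i j 0
    rw [neg_zero] at h1
    have : mu S lv T Q i j 0 = 0 := by linarith
    rw [this]
    simp
  · exact key d h hd

/-- The load of an element. -/
lemma EZ2_le {t : ℕ} (ht1 : 1 ≤ t) (ht : ∀ x, #(inc S x) ≤ t) {j : ℕ} (hs : Sep S lv j) {δ : ℝ}
    (hδ0 : 0 ≤ δ)
    (hload : ∀ a, 4 * (t : ℝ) * avR (fun ω : V → Fin Q =>
      ((cor S lv T a j (D S lv T j ω a) : ℕ) : ℝ) ^ 2) ≤ δ * (nn S lv a j : ℝ) ^ 2)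
    (i : I) {x : V} (hx : lv x = j) : 4 * EZ2 S lv T i j x Q ≤ δ * (Q : ℝ) ^ 2 := by
  have hne : Nonempty (V → Fin Q) := ⟨fun _ => 0⟩
  have hQ0 : 0 < Q := Nat.pos_of_ne_zero (NeZero.ne Q)
  have hQ' : (0 : ℝ) < Q := by exact_mod_cast hQ0
  have ht0 : (0 : ℝ) < t := by exact_mod_cast ht1
  set A : I → (V → Fin Q) → ℝ := fun a ω => ((al S lv T Q a j (D S lv T j ω a) : ℤ) : ℝ) with hA
  have hmean : ∀ a, avR (A a) = 0 := by
    intro a
    have h1 := avR_invol rv rv_invol (A a)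
    have h2 : (fun ω : V → Fin Q => A a (rv ω)) = fun ω => (-1) * A a ω := by
      funext ω
      simp only [hA]
      have : D S lv T j (rv ω) a = -D S lv T j ω a := D_rev S lv T j ω a
      rw [this, al_neg]
      push_cast
      ring
    rw [h2, avR_mul_left] at h1
    linarith
  have hdep : ∀ a, Dep (Br S lv j a : Set V) (A a) := by
    intro a
    exact (D_dep S lv T j a).comp (fun d => ((al S lv T Q a j d : ℤ) : ℝ))
  have hE : EZ2 S lv T i j x Q = ∑ a ∈ (inc S x).erase i, avR (fun ω => A a ω ^ 2) := by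
    unfold EZ2 Zx
    have h1 : (fun ω : V → Fin Q => (((∑ a ∈ (inc S x).erase i, al S lv T Q a j (D S lv T j ω a) : ℤ)
        : ℤ) : ℝ) ^ 2) = fun ω => ∑ a ∈ (inc S x).erase i, ∑ b ∈ (inc S x).erase i, A a ω * A b ω := by
      funext ω
      push_cast
      rw [sq, Finset.sum_mul_sum]
    rw [h1, avR_sum]
    apply Finset.sum_congr rfl
    intro a ha
    rw [avR_sum, Finset.sum_eq_single a]
    · congr 1
      funext ω
      ring
    · intro b hb hba
      rw [avR_mul_of_dep (A := (Br S lv j a : Set V)) (B := (Br S lv j b : Set V)) _ (hdep a) (hdep b),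
        hmean, zero_mul]
      rw [Finset.disjoint_coe]
      exact hs.1 x hx a (Finset.mem_of_mem_erase ha) b (Finset.mem_of_mem_erase hb) hba.symm
    · intro h
      exact absurd ha h
  have hone : ∀ a ∈ (inc S x).erase i, avR (fun ω => A a ω ^ 2) ≤ δ * (Q : ℝ) ^ 2 / (4 * t) := by
    intro a ha
    have hn : 0 < nn S lv a j := by
      unfold nn
      apply Finset.card_pos.2
      refine ⟨x, (mem_lev S lv).2 ⟨(mem_inc S).1 (Finset.mem_of_mem_erase ha), hx⟩⟩
    have hn' : (0 : ℝ) < nn S lv a j := by exact_mod_cast hn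
    have h1 : avR (fun ω => A a ω ^ 2) ≤ avR (fun ω : V → Fin Q => ((Q : ℝ) / nn S lv a j) ^ 2 *
        ((cor S lv T a j (D S lv T j ω a) : ℕ) : ℝ) ^ 2) := by
      apply avR_mono
      intro ω
      have h2 := abs_al S lv T (Q := Q) a j (D S lv T j ω a)
      have h3 : |A a ω| ≤ ((cor S lv T a j (D S lv T j ω a) * (Q / nn S lv a j) : ℕ) : ℝ) := by
        simp only [hA]
        calc |((al S lv T Q a j (D S lv T j ω a) : ℤ) : ℝ)| =
            ((|al S lv T Q a j (D S lv T j ω a)| : ℤ) : ℝ) := (Int.cast_abs).symm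
          _ ≤ (((cor S lv T a j (D S lv T j ω a) * (Q / nn S lv a j) : ℕ) : ℤ) : ℝ) :=
            Int.cast_le.2 h2
          _ = _ := Int.cast_natCast _
      rw [← sq_abs (A a ω), ← mul_pow]
      apply pow_le_pow_left₀ (abs_nonneg _)
      apply h3.trans
      push_cast
      rw [mul_comm]
      apply mul_le_mul_of_nonneg_right _ (Nat.cast_nonneg _)
      exact Nat.cast_div_le
    rw [avR_mul_left] at h1
    have h2 := hload a
    apply h1.trans
    rw [le_div_iff₀ (by positivity), div_pow]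
    calc (Q : ℝ) ^ 2 / (nn S lv a j : ℝ) ^ 2 * avR (fun ω : V → Fin Q =>
        ((cor S lv T a j (D S lv T j ω a) : ℕ) : ℝ) ^ 2) * (4 * t) =
        (Q : ℝ) ^ 2 / (nn S lv a j : ℝ) ^ 2 * (4 * t * avR (fun ω : V → Fin Q =>
        ((cor S lv T a j (D S lv T j ω a) : ℕ) : ℝ) ^ 2)) := by ring
      _ ≤ (Q : ℝ) ^ 2 / (nn S lv a j : ℝ) ^ 2 * (δ * (nn S lv a j : ℝ) ^ 2) := by gcongr
      _ = δ * (Q : ℝ) ^ 2 := by field_simp
  rw [hE]
  calc 4 * ∑ a ∈ (inc S x).erase i, avR (fun ω => A a ω ^ 2) ≤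
      4 * ∑ a ∈ (inc S x).erase i, δ * (Q : ℝ) ^ 2 / (4 * t) := by
        gcongr with a ha
        exact hone a ha
    _ = (#((inc S x).erase i) : ℝ) * (δ * (Q : ℝ) ^ 2 / t) := by
        rw [Finset.sum_const, nsmul_eq_mul]
        field_simp
    _ ≤ (t : ℝ) * (δ * (Q : ℝ) ^ 2 / t) := by
        apply mul_le_mul_of_nonneg_right _ (by positivity)
        exact_mod_cast (Finset.card_le_card (Finset.erase_subset _ _)).trans (ht x)
    _ = δ * (Q : ℝ) ^ 2 := by field_simp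

end drift

end Pool.Agent.Helper18.HG
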