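import Pool.Agent.Helper18.HGLoad

open Finset

set_option linter.unusedSectionVars false

namespace Pool.Agent.Helper18.HG

open Pool.Agent.Helper18.BG (avR avR_sum avR_mul_left avR_add avR_mono avR_nonneg avR_const)

section count

variable {V I : Type*} [Fintype V] [DecidableEq V] [Fintype I] [DecidableEq I]
  (S : I → Finset V) (lv : V → ℕ)

lemma card_Br_succ_le {s t : ℕ} (hs : ∀ i, #(S i) ≤ s) (ht1 : 1 ≤ t) (ht : ∀ x, #(inc S x) ≤ t)
    (j : ℕ) (i : I) : #(Br S lv j i) + 1 ≤ (1 + s * t) ^ j := by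
  induction j generalizing i with
  | zero => simp [Br]
  | succ j ih =>
    set B := (1 + s * t) ^ j with hB
    have hB1 : 1 ≤ B := Nat.one_le_pow _ _ (by omega)
    have h1 : #(Br S lv (j + 1) i) ≤ (B - 1) + s * (1 + t * (B - 1)) := by
      rw [Br_succ]
      apply (Finset.card_union_le _ _).trans
      apply Nat.add_le_add
      · have := ih i
        omega
      · apply (Finset.card_biUnion_le).trans
        calc ∑ x ∈ lev S lv i j, #(insert x ((inc S x).biUnion (Br S lv j))) ≤
            ∑ x ∈ lev S lv i j, (1 + t * (B - 1)) := by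
              apply Finset.sum_le_sum
              intro x _
              apply (Finset.card_insert_le _ _).trans
              rw [add_comm]
              apply Nat.add_le_add_left
              apply (Finset.card_biUnion_le).trans
              calc ∑ a ∈ inc S x, #(Br S lv j a) ≤ ∑ a ∈ inc S x, (B - 1) := by
                    apply Finset.sum_le_sum
                    intro a _
                    have := ih a
                    omega
                _ = #(inc S x) * (B - 1) := by rw [Finset.sum_const, smul_eq_mul]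
                _ ≤ _ := Nat.mul_le_mul_right _ (ht x)
          _ = #(lev S lv i j) * (1 + t * (B - 1)) := by rw [Finset.sum_const, smul_eq_mul]
          _ ≤ _ := by
              apply Nat.mul_le_mul_right
              exact (Finset.card_filter_le _ _).trans (hs i)
    have h2 : (1 + s * t) ^ (j + 1) = B * (1 + s * t) := by rw [pow_succ]
    rw [h2]
    obtain ⟨b, hb⟩ : ∃ b, B = b + 1 := ⟨B - 1, by omega⟩
    rw [hb] at h1 ⊢
    simp only [Nat.add_sub_cancel] at h1
    have h3 : s ≤ s * t := Nat.le_mul_of_pos_right s ht1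
    nlinarith

/-- Sets influenced by the coordinate `y`. -/
def rev (j : ℕ) (y : V) : Finset I := Finset.univ.filter (fun i => y ∈ Br S lv j i)

lemma card_rev_succ_le {s t : ℕ} (hs : ∀ i, #(S i) ≤ s) (hs1 : 1 ≤ s) (ht1 : 1 ≤ t)
    (ht : ∀ x, #(inc S x) ≤ t) (j : ℕ) (y : V) : #(rev S lv j y) + 1 ≤ (1 + s * t) ^ j := by
  induction j with
  | zero => simp [rev, Br]
  | succ j ih =>
    set B := (1 + s * t) ^ j with hB
    have hB1 : 1 ≤ B := Nat.one_le_pow _ _ (by omega)
    have hsub : rev S lv (j + 1) y ⊆ (rev S lv j y ∪ inc S y) ∪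
        (rev S lv j y).biUnion (fun a => (S a).biUnion (inc S)) := by
      intro i hi
      rw [rev, mem_filter, mem_Br_succ] at hi
      rcases hi.2 with h | ⟨x, hx, h | ⟨a, ha, h⟩⟩
      · exact mem_union_left _ (mem_union_left _ (by rw [rev, mem_filter]; exact ⟨mem_univ _, h⟩))
      · apply mem_union_left
        apply mem_union_right
        rw [mem_inc, h]
        exact ((mem_lev S lv).1 hx).1
      · apply mem_union_right
        rw [mem_biUnion]
        refine ⟨a, by rw [rev, mem_filter]; exact ⟨mem_univ _, h⟩, ?_⟩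
        rw [mem_biUnion]
        exact ⟨x, (mem_inc S).1 ha, (mem_inc S).2 ((mem_lev S lv).1 hx).1⟩
    have h1 : #(rev S lv (j + 1) y) ≤ ((B - 1) + t) + (B - 1) * (s * t) := by
      apply (Finset.card_le_card hsub).trans
      apply (Finset.card_union_le _ _).trans
      apply Nat.add_le_add
      · apply (Finset.card_union_le _ _).trans
        apply Nat.add_le_add
        · omega
        · exact ht y
      · apply (Finset.card_biUnion_le).trans
        calc ∑ a ∈ rev S lv j y, #((S a).biUnion (inc S)) ≤ ∑ a ∈ rev S lv j y, s * t := by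
              apply Finset.sum_le_sum
              intro a _
              apply (Finset.card_biUnion_le).trans
              calc ∑ x ∈ S a, #(inc S x) ≤ ∑ x ∈ S a, t := Finset.sum_le_sum (fun x _ => ht x)
                _ = #(S a) * t := by rw [Finset.sum_const, smul_eq_mul]
                _ ≤ _ := Nat.mul_le_mul_right _ (hs a)
          _ = #(rev S lv j y) * (s * t) := by rw [Finset.sum_const, smul_eq_mul]
          _ ≤ _ := by
              apply Nat.mul_le_mul_right
              omega
    have h2 : (1 + s * t) ^ (j + 1) = B * (1 + s * t) := by rw [pow_succ]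
    rw [h2]
    obtain ⟨b, hb⟩ : ∃ b, B = b + 1 := ⟨B - 1, by omega⟩
    rw [hb] at h1 ⊢
    simp only [Nat.add_sub_cancel] at h1
    have h3 : t ≤ s * t := Nat.le_mul_of_pos_left t hs1
    nlinarith

lemma card_nb_le {s t : ℕ} (hs : ∀ i, #(S i) ≤ s) (hs1 : 1 ≤ s) (ht1 : 1 ≤ t)
    (ht : ∀ x, #(inc S x) ≤ t) (j : ℕ) (i : I) :
    #((Br S lv j i).biUnion (rev S lv j)) ≤ (1 + s * t) ^ (2 * j) := by
  apply (Finset.card_biUnion_le).trans
  calc ∑ y ∈ Br S lv j i, #(rev S lv j y) ≤ ∑ y ∈ Br S lv j i, (1 + s * t) ^ j := by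
        apply Finset.sum_le_sum
        intro y _
        have := card_rev_succ_le S lv hs hs1 ht1 ht j y
        omega
    _ = #(Br S lv j i) * (1 + s * t) ^ j := by rw [Finset.sum_const, smul_eq_mul]
    _ ≤ (1 + s * t) ^ j * (1 + s * t) ^ j := by
        apply Nat.mul_le_mul_right
        have := card_Br_succ_le S lv hs ht1 ht j i
        omega
    _ = _ := by rw [← pow_add]; congr 1; omega

lemma Br_mono {j l : ℕ} (h : j ≤ l) (i : I) : Br S lv j i ⊆ Br S lv l i := by
  induction l, h using Nat.le_induction with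
  | base => exact Finset.Subset.refl _
  | succ l _ ih =>
    apply ih.trans
    rw [Br_succ]
    exact Finset.subset_union_left

end count

section final

lemma mul_sqrt {c : ℝ} (hc : 0 ≤ c) (x : ℝ) : c * √x = √(c ^ 2 * x) := by
  rw [Real.sqrt_mul (sq_nonneg c), Real.sqrt_sq hc]

variable {V I : Type*} [Fintype V] [DecidableEq V] [Fintype I] [DecidableEq I]
variable {S : I → Finset V} {lv : V → ℕ} {T : ℕ → I → ℕ} {Q : ℕ} {t J M : ℕ} {L : ℕ → ℕ}
  {δ : ℕ → ℝ} {τ : ℕ → I → ℝ} {Λ : ℝ} [NeZero Q]

lemma Nz_dep (S : I → Finset V) (lv : V → ℕ) (T : ℕ → I → ℕ) {Q : ℕ} [NeZero Q] {j J : ℕ}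
    (hj : j ≤ J) (i : I) :
    Dep (Br S lv (J + 1) i : Set V) (fun ω : V → Fin Q => Nz S lv T i j ω) := by
  intro ω ω' h
  simp only [Nz]
  have h1 : D S lv T (j + 1) ω i = D S lv T (j + 1) ω' i := by
    apply D_dep S lv T (j + 1) i
    intro v hv
    exact h v (by
      have := Br_mono S lv (show j + 1 ≤ J + 1 by omega) i
      exact this hv)
  have h2 : D S lv T j ω i = D S lv T j ω' i := by
    apply D_dep S lv T j i
    intro v hv
    exact h v (by
      have := Br_mono S lv (show j ≤ J + 1 by omega) i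
      exact this hv)
  rw [h1, h2]

lemma Nz_zero_of_nn (S : I → Finset V) (lv : V → ℕ) (T : ℕ → I → ℕ) {Q : ℕ} [NeZero Q] {i : I}
    {j : ℕ} (h : nn S lv i j = 0) (ω : V → Fin Q) : Nz S lv T i j ω = 0 := by
  have h1 : lev S lv i j = ∅ := Finset.card_eq_zero.1 h
  unfold Nz mu
  rw [D_succ, h1]
  simp

/-- Existence of a good point. -/
lemma Hyp.exists_good (H : Hyp S lv T Q t J M L δ τ Λ) {s : ℕ} (hs : ∀ i, #(S i) ≤ s)
    (hs1 : 1 ≤ s)
    (hΛ1 : 8 * ((J : ℝ) + 1) * (((1 + s * t) ^ (2 * (J + 1)) : ℕ) : ℝ) ≤ Real.exp Λ) :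
    ∃ ω : V → Fin Q, ∀ i, ∀ j ≤ J, |Nz S lv T i j ω| ≤ 2 * √(nn S lv i j * Λ) := by
  classical
  have hΛ0 : 0 ≤ Λ := by linarith [H.hΛ]
  set A : I → Set (V → Fin Q) := fun i => {ω | ∃ j ≤ J, 2 * √(nn S lv i j * Λ) <
    |Nz S lv T i j ω|} with hA
  obtain ⟨ω, hω⟩ := lll A (fun i => (Br S lv (J + 1) i : Set V)) (by
    intro i ω ω' h
    simp only [hA, Set.mem_ofPred_eq, eq_iff_iff]
    apply exists_congr
    intro j
    apply and_congr_right
    intro hj
    have h1 : Nz S lv T i j ω = Nz S lv T i j ω' := Nz_dep S lv T hj i ω ω' h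
    rw [h1]) (2 * ((J : ℝ) + 1) * Real.exp (-Λ)) (by
    intro i
    have h1 : ∀ ω, ind (A i) ω ≤ ∑ j ∈ range (J + 1),
        ind {ω : V → Fin Q | 2 * √(nn S lv i j * Λ) < |Nz S lv T i j ω|} ω := by
      intro ω
      by_cases h : ω ∈ A i
      · have h2 : ind (A i) ω = 1 := if_pos h
        rw [h2]
        obtain ⟨j, hj, hj'⟩ := h
        have h3 : ind {ω : V → Fin Q | 2 * √(nn S lv i j * Λ) < |Nz S lv T i j ω|} ω = 1 :=
          if_pos hj'
        rw [← h3]
        apply Finset.single_le_sum (f := fun j =>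
          ind {ω : V → Fin Q | 2 * √(nn S lv i j * Λ) < |Nz S lv T i j ω|} ω)
          (fun _ _ => ind_nonneg _ _)
        rw [mem_range]
        omega
      · have h2 : ind (A i) ω = 0 := if_neg h
        rw [h2]
        exact Finset.sum_nonneg (fun _ _ => ind_nonneg _ _)
    apply (avR_mono h1).trans
    rw [avR_sum]
    calc ∑ j ∈ range (J + 1),
        avR (ind {ω : V → Fin Q | 2 * √(nn S lv i j * Λ) < |Nz S lv T i j ω|}) ≤
        ∑ j ∈ range (J + 1), 2 * Real.exp (-Λ) := by
          apply Finset.sum_le_sum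
          intro j hj
          rw [mem_range] at hj
          rcases Nat.eq_zero_or_pos (nn S lv i j) with h0 | h0
          · have h2 : ind {ω : V → Fin Q | 2 * √(nn S lv i j * Λ) < |Nz S lv T i j ω|} =
                fun _ => 0 := by
              funext ω
              apply if_neg
              rw [Set.mem_ofPred_eq, Nz_zero_of_nn S lv T h0 ω, abs_zero, not_lt]
              positivity
            have hne : Nonempty (V → Fin Q) := ⟨fun _ => 0⟩
            rw [h2, avR_const]
            have := Real.exp_pos (-Λ)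
            positivity
          · have h0' : (0 : ℝ) < nn S lv i j := by exact_mod_cast h0
            apply tail_prob (fun ω : V → Fin Q => Nz S lv T i j ω) h0'
              (fun θ => mgf_Nz S lv T H.hQe H.hQ (H.sep j (by omega)) i θ) hΛ0
            · intro ω
              exact ind_le_one _ _
            · intro ω hω
              have : ind {ω : V → Fin Q | 2 * √(nn S lv i j * Λ) < |Nz S lv T i j ω|} ω = 0 := by
                apply if_neg
                rw [Set.mem_ofPred_eq, not_lt]
                exact hω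
              rw [this]
      _ = _ := by
          rw [Finset.sum_const, card_range, nsmul_eq_mul]
          push_cast
          ring) ((1 + s * t) ^ (2 * (J + 1))) (Nat.one_le_pow _ _ (by omega))
    (fun i => (Br S lv (J + 1) i).biUnion (rev S lv (J + 1))) (by
      intro i j _ hj
      rw [Finset.disjoint_coe, Finset.disjoint_left]
      intro y hy hy'
      apply hj
      rw [mem_biUnion]
      refine ⟨y, hy, ?_⟩
      rw [rev, mem_filter]
      exact ⟨mem_univ _, hy'⟩) (fun i => card_nb_le S lv hs hs1 H.ht1 H.ht (J + 1) i) (by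
      have h2 : Real.exp (-Λ) * Real.exp Λ = 1 := by
        rw [← Real.exp_add]
        simp
      have h3 := Real.exp_pos (-Λ)
      calc 4 * (2 * ((J : ℝ) + 1) * Real.exp (-Λ)) * (((1 + s * t) ^ (2 * (J + 1)) : ℕ) : ℝ) =
          Real.exp (-Λ) * (8 * ((J : ℝ) + 1) * (((1 + s * t) ^ (2 * (J + 1)) : ℕ) : ℝ)) := by ring
        _ ≤ Real.exp (-Λ) * Real.exp Λ := by gcongr
        _ = 1 := h2)
  refine ⟨ω, fun i j hj => ?_⟩
  have h1 := hω i
  simp only [hA, Set.mem_ofPred_eq, not_exists, not_and, not_lt] at h1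
  exact h1 j hj

lemma Hyp.ex_det (H : Hyp S lv T Q t J M L δ τ Λ) {ω : V → Fin Q} {i : I}
    (hω : ∀ j ≤ J, |Nz S lv T i j ω| ≤ 2 * √(nn S lv i j * Λ)) {j : ℕ} (hj : j + 1 ≤ J)
    (h : L (j + 1) * M ≤ #(S i)) :
    (ex S lv T i (j + 1) ω : ℝ) ≤ 4 * √(2 * ((#(S i) : ℝ) / L j) * Λ) ∧
      ex S lv T i (j + 1) ω ≤ nn S lv i (j + 1) / 2 := by
  have hΛ0 : 0 < Λ := by linarith [H.hΛ]
  have second : ∀ k, k + 1 ≤ J → L (k + 1) * M ≤ #(S i) →
      (ex S lv T i (k + 1) ω : ℝ) ≤ 4 * √(2 * ((#(S i) : ℝ) / L k) * Λ) →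
      ex S lv T i (k + 1) ω ≤ nn S lv i (k + 1) / 2 := by
    intro k hk hk' h1
    have hpos := H.card_pos hk'
    have h2 := H.nu_sq hk hk'
    have h3 := H.le_nn (by omega) hk hk'
    have h4 : 0 < (#(S i) : ℝ) / L k := div_pos hpos (H.Lpos k)
    have h5 : 0 < (#(S i) : ℝ) / L (k + 1) := div_pos hpos (H.Lpos (k + 1))
    have h6 : √(2 * ((#(S i) : ℝ) / L k) * Λ) ≤ (#(S i) : ℝ) / L (k + 1) / 16 := by
      apply Real.sqrt_le_iff.2
      constructor
      · positivity
      · rw [div_pow]
        have : 0 < ((#(S i) : ℝ) / L k) * Λ := by positivity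
        nlinarith
    have h7 : (2 : ℝ) * (ex S lv T i (k + 1) ω : ℝ) ≤ nn S lv i (k + 1) := by
      linarith
    have h8 : 2 * ex S lv T i (k + 1) ω ≤ nn S lv i (k + 1) := by exact_mod_cast h7
    omega
  induction j with
  | zero =>
    have hpos := H.card_pos h
    have h1 : (ex S lv T i (0 + 1) ω : ℝ) ≤ 4 * √(2 * ((#(S i) : ℝ) / L 0) * Λ) := by
      have h2 := ex_step S lv T i 0 (δ := δ 0) (H.hT i 0 hj h) ω
        (H.quality (Nat.zero_le _) (by omega) i ω (by
          have : ex S lv T i 0 ω = 0 := by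
            unfold ex
            simp [D]
          rw [this]
          exact Nat.zero_le _))
      have h3 : ex S lv T i 0 ω = 0 := by
        unfold ex
        simp [D]
      rw [h3] at h2
      have h4 := hω 0 (Nat.zero_le _)
      have h5 := H.nn_le (i := i) (Nat.zero_le J) (Or.inl rfl)
      have h6 : √(nn S lv i 0 * Λ) ≤ √(2 * ((#(S i) : ℝ) / L 0) * Λ) := by
        apply Real.sqrt_le_sqrt
        gcongr
      have h7 := H.τ0 0 i
      apply h2.trans
      apply max_le
      · have := Real.sqrt_nonneg (2 * ((#(S i) : ℝ) / L 0) * Λ)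
        push_cast
        linarith
      · positivity
    exact ⟨h1, second 0 hj h h1⟩
  | succ j ih =>
    have h' : L (j + 1) * M ≤ #(S i) := H.act_mono (by omega) h
    have ih' := ih (by omega) h'
    have hpos := H.card_pos h
    have h1 : (ex S lv T i (j + 1 + 1) ω : ℝ) ≤ 4 * √(2 * ((#(S i) : ℝ) / L (j + 1)) * Λ) := by
      have h2 := ex_step S lv T i (j + 1) (δ := δ (j + 1)) (H.hT i (j + 1) hj h) ω
        (H.quality (by omega) (fun h0 => H.load (j + 1) h0 (by omega)) i ω ih'.2)
      have h4 := hω (j + 1) (by omega)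
      have h5 := H.nn_le (i := i) (j := j + 1) (by omega) (Or.inr h')
      have h6 : √(nn S lv i (j + 1) * Λ) ≤ √(2 * ((#(S i) : ℝ) / L (j + 1)) * Λ) := by
        apply Real.sqrt_le_sqrt
        gcongr
      have h7 := H.τ0 (j + 1) i
      have hδ := H.δpos (j + 1)
      have h8 : δ (j + 1) * (4 * √(2 * ((#(S i) : ℝ) / L j) * Λ)) ≤
          2 * √(2 * ((#(S i) : ℝ) / L (j + 1)) * Λ) := by
        have h9 := H.hd (i := i) (j := j) (by omega)
        have h10 : δ (j + 1) * (4 * √(2 * ((#(S i) : ℝ) / L j) * Λ)) =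
            2 * √((2 * δ (j + 1)) ^ 2 * (2 * ((#(S i) : ℝ) / L j) * Λ)) := by
          rw [← mul_sqrt (by positivity)]
          ring
        rw [h10]
        apply mul_le_mul_of_nonneg_left _ (by norm_num)
        apply Real.sqrt_le_sqrt
        calc (2 * δ (j + 1)) ^ 2 * (2 * ((#(S i) : ℝ) / L j) * Λ) =
            2 * (4 * δ (j + 1) ^ 2 * ((#(S i) : ℝ) / L j)) * Λ := by ring
          _ ≤ _ := by gcongr
      have h11 : δ (j + 1) * (ex S lv T i (j + 1) ω : ℝ) ≤
          δ (j + 1) * (4 * √(2 * ((#(S i) : ℝ) / L j) * Λ)) :=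
        mul_le_mul_of_nonneg_left ih'.1 hδ.le
      apply h2.trans
      apply max_le
      · linarith
      · positivity
    exact ⟨h1, second (j + 1) hj h h1⟩

/-- Increments of the partial sums. -/
lemma abs_D_sub_le (S : I → Finset V) (lv : V → ℕ) (T : ℕ → I → ℕ) {Q : ℕ} {l m : ℕ} (hlm : l ≤ m)
    (ω : V → Fin Q) (i : I) :
    |D S lv T m ω i - D S lv T l ω i| ≤ #((S i).filter fun x => l ≤ lv x) := by
  have key : |D S lv T m ω i - D S lv T l ω i| ≤ #((S i).filter fun x => l ≤ lv x ∧ lv x < m) := by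
    induction m, hlm using Nat.le_induction with
    | base => simp
    | succ m hm ih =>
      rw [D_succ]
      have h1 : |∑ x ∈ lev S lv i m, col S lv T m ω x| ≤ #(lev S lv i m) := by
        apply (Finset.abs_sum_le_sum_abs _ _).trans
        calc ∑ x ∈ lev S lv i m, |col S lv T m ω x| ≤ ∑ x ∈ lev S lv i m, (1 : ℤ) :=
              Finset.sum_le_sum (fun x _ => abs_sign_le _)
          _ = _ := by simp
      have h2 : #((S i).filter fun x => l ≤ lv x ∧ lv x < m + 1) =
          #((S i).filter fun x => l ≤ lv x ∧ lv x < m) + #(lev S lv i m) := by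
        unfold lev
        rw [← Finset.card_union_of_disjoint]
        · congr 1
          ext x
          simp only [mem_filter, mem_union]
          constructor
          · rintro ⟨h, h', h''⟩
            rcases Nat.lt_succ_iff_lt_or_eq.1 h'' with h3 | h3
            · exact Or.inl ⟨h, h', h3⟩
            · exact Or.inr ⟨h, h3⟩
          · rintro (⟨h, h', h''⟩ | ⟨h, h'⟩)
            · exact ⟨h, h', by omega⟩
            · exact ⟨h, by omega, by omega⟩
        · rw [Finset.disjoint_left]
          intro x hx hx'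
          rw [mem_filter] at hx hx'
          omega
      rw [h2]
      push_cast
      have h3 : D S lv T m ω i + ∑ x ∈ lev S lv i m, col S lv T m ω x - D S lv T l ω i =
          (D S lv T m ω i - D S lv T l ω i) + ∑ x ∈ lev S lv i m, col S lv T m ω x := by ring
      rw [h3]
      exact (abs_add_le _ _).trans (add_le_add ih h1)
  apply key.trans
  have : #((S i).filter fun x => l ≤ lv x ∧ lv x < m) ≤ #((S i).filter fun x => l ≤ lv x) := by
    apply Finset.card_le_card
    intro x hx
    rw [mem_filter] at hx ⊢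
    exact ⟨hx.1, hx.2.1⟩
  exact_mod_cast this

/-- The sum after the last level. -/
lemma D_last (S : I → Finset V) (lv : V → ℕ) (T : ℕ → I → ℕ) {Q : ℕ} {J : ℕ}
    (hJ : ∀ x, lv x ≤ J) (ω : V → Fin Q) (i : I) :
    ∑ x ∈ S i, col S lv T (lv x) ω x = D S lv T (J + 1) ω i := by
  have key : ∀ m, D S lv T m ω i = ∑ x ∈ (S i).filter (fun x => lv x < m),
      col S lv T (lv x) ω x := by
    intro m
    induction m with
    | zero => simp [D]
    | succ m ih =>
      rw [D_succ, ih]
      have h2 : (S i).filter (fun x => lv x < m + 1) =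
          (S i).filter (fun x => lv x < m) ∪ lev S lv i m := by
        unfold lev
        ext x
        simp only [mem_filter, mem_union]
        constructor
        · rintro ⟨h, h''⟩
          rcases Nat.lt_succ_iff_lt_or_eq.1 h'' with h3 | h3
          · exact Or.inl ⟨h, h3⟩
          · exact Or.inr ⟨h, h3⟩
        · rintro (⟨h, h''⟩ | ⟨h, h'⟩)
          · exact ⟨h, by omega⟩
          · exact ⟨h, by omega⟩
      rw [h2, Finset.sum_union]
      · congr 1
        apply Finset.sum_congr rfl
        intro x hx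
        rw [((mem_lev S lv).1 hx).2]
      · rw [Finset.disjoint_left]
        intro x hx hx'
        rw [mem_filter] at hx
        have := ((mem_lev S lv).1 hx').2
        omega
  rw [key (J + 1), Finset.filter_true_of_mem]
  intro x _
  have := hJ x
  omega

/-- The core theorem. -/
theorem Hyp.core (H : Hyp S lv T Q t J M L δ τ Λ) {s : ℕ} (hs : ∀ i, #(S i) ≤ s)
    (hs1 : 1 ≤ s) (hJ : ∀ x, lv x ≤ J)
    (hΛ1 : 8 * ((J : ℝ) + 1) * (((1 + s * t) ^ (2 * (J + 1)) : ℕ) : ℝ) ≤ Real.exp Λ)
    (htail : ∀ i j, 1 ≤ j → j ≤ J → #(S i) < L j * M → #((S i).filter fun x => j ≤ lv x) ≤ 4 * M)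
    (hΛ4 : 32 * Λ * s ≤ L J * (M : ℝ) ^ 2) {B : ℝ} (hB0 : 0 ≤ B)
    (hB : ∀ i j, 1 ≤ j → j ≤ J → L j * M ≤ #(S i) → (T j i : ℝ) ≤ B) :
    ∃ χ : V → ℤ, (∀ v, χ v = 1 ∨ χ v = -1) ∧
      ∀ i, |((∑ v ∈ S i, χ v : ℤ) : ℝ)| ≤ B + 5 * M := by
  obtain ⟨ω, hω⟩ := H.exists_good hs hs1 hΛ1
  refine ⟨fun x => col S lv T (lv x) ω x, ?_, ?_⟩
  · intro x
    unfold col
    apply sign_ne_zero_even H.hQe
    apply clip_even H.hQe
    exact sum_al_even S lv T H.hQ _ _ _
  · intro i
    have hΛ0 : 0 < Λ := by linarith [H.hΛ]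
    have hM : (1 : ℝ) ≤ M := by exact_mod_cast H.hM
    rw [D_last S lv T hJ ω i]
    -- the last active level
    obtain ⟨l, hlJ, hlact, hlnext⟩ : ∃ l ≤ J, (l = 0 ∨ L l * M ≤ #(S i)) ∧
        (l < J → #(S i) < L (l + 1) * M) := by
      -- choose the greatest
      classical
      let P : ℕ → Prop := fun l => l = 0 ∨ L l * M ≤ #(S i)
      have hP0 : P 0 := Or.inl rfl
      refine ⟨Nat.findGreatest P J, Nat.findGreatest_le J, Nat.findGreatest_spec (Nat.zero_le J)
        hP0, ?_⟩
      intro hlt
      by_contra hcon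
      have h1 : P (Nat.findGreatest P J + 1) := Or.inr (not_lt.1 hcon)
      have h2 := Nat.le_findGreatest (by omega : Nat.findGreatest P J + 1 ≤ J) h1
      omega
    -- bound after level l
    have hmain : |(D S lv T (l + 1) ω i : ℝ)| ≤ B + 4 * √(2 * ((#(S i) : ℝ) / L l) * Λ) := by
      have h1 := hω i l hlJ
      have h2 := H.nn_le hlJ hlact
      have h3 : √(nn S lv i l * Λ) ≤ √(2 * ((#(S i) : ℝ) / L l) * Λ) := by
        apply Real.sqrt_le_sqrt
        gcongr
      have h4 : (D S lv T (l + 1) ω i : ℝ) =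
          ((D S lv T l ω i : ℝ) + mu S lv T Q i l (D S lv T l ω i)) + Nz S lv T i l ω := by
        unfold Nz
        ring
      have h5 := abs_add_le ((D S lv T l ω i : ℝ) + mu S lv T Q i l (D S lv T l ω i))
        (Nz S lv T i l ω)
      rw [← h4] at h5
      rcases Nat.eq_zero_or_pos l with h0 | h0
      · subst h0
        have h6 : D S lv T 0 ω i = 0 := rfl
        have h7 := abs_add_mu_le S lv T H.hQ i 0 (D S lv T 0 ω i)
        rw [h6] at h7 h5
        simp only [Int.cast_zero, abs_zero] at h7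
        have := Real.sqrt_nonneg (2 * ((#(S i) : ℝ) / L 0) * Λ)
        have h8 : |((0 : ℤ) : ℝ) + mu S lv T Q i 0 0| = |(0:ℝ) + mu S lv T Q i 0 0| := by simp
        rw [h8] at h5
        linarith
      · obtain ⟨k, rfl⟩ : ∃ k, l = k + 1 := ⟨l - 1, by omega⟩
        have hact : L (k + 1) * M ≤ #(S i) := by
          rcases hlact with h | h
          · omega
          · exact h
        have h6 := H.ex_det (hω i) hlJ hact
        have h7 := H.quality hlJ (fun h0 => H.load (k + 1) h0 hlJ) i ω h6.2
        have h8 := hB i (k + 1) h0 hlJ hact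
        have hδ := H.δpos (k + 1)
        have h9 : δ (k + 1) * (4 * √(2 * ((#(S i) : ℝ) / L k) * Λ)) ≤
            2 * √(2 * ((#(S i) : ℝ) / L (k + 1)) * Λ) := by
          have h9 := H.hd (i := i) (j := k) (by omega)
          have h10 : δ (k + 1) * (4 * √(2 * ((#(S i) : ℝ) / L k) * Λ)) =
              2 * √((2 * δ (k + 1)) ^ 2 * (2 * ((#(S i) : ℝ) / L k) * Λ)) := by
            rw [← mul_sqrt (by positivity)]
            ring
          rw [h10]
          apply mul_le_mul_of_nonneg_left _ (by norm_num)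
          apply Real.sqrt_le_sqrt
          calc (2 * δ (k + 1)) ^ 2 * (2 * ((#(S i) : ℝ) / L k) * Λ) =
              2 * (4 * δ (k + 1) ^ 2 * ((#(S i) : ℝ) / L k)) * Λ := by ring
            _ ≤ _ := by gcongr
        have h11 : δ (k + 1) * (ex S lv T i (k + 1) ω : ℝ) ≤
            δ (k + 1) * (4 * √(2 * ((#(S i) : ℝ) / L k) * Λ)) :=
          mul_le_mul_of_nonneg_left h6.1 hδ.le
        linarith
    rcases Nat.lt_or_ge l J with hlt | hge
    · -- tail
      have h1 := hlnext hlt
      have h2 := htail i (l + 1) (by omega) (by omega) h1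
      have h3 := abs_D_sub_le S lv T (show l + 1 ≤ J + 1 by omega) ω i
      have h4 : |(D S lv T (J + 1) ω i : ℝ) - D S lv T (l + 1) ω i| ≤ 4 * M := by
        have h5 : |D S lv T (J + 1) ω i - D S lv T (l + 1) ω i| ≤ ((4 * M : ℕ) : ℤ) :=
          h3.trans (by exact_mod_cast h2)
        have h6 : ((|D S lv T (J + 1) ω i - D S lv T (l + 1) ω i| : ℤ) : ℝ) ≤
            (((4 * M : ℕ) : ℤ) : ℝ) := Int.cast_le.2 h5
        push_cast at h6
        exact h6
      have h7 : 4 * √(2 * ((#(S i) : ℝ) / L l) * Λ) ≤ M := by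
        have h8 := H.hΛ3 l (by omega)
        have h9 : (#(S i) : ℝ) ≤ L (l + 1) * M := by exact_mod_cast h1.le
        have h10 : 4 * √(2 * ((#(S i) : ℝ) / L l) * Λ) = √(16 * (2 * ((#(S i) : ℝ) / L l) * Λ)) := by
          rw [mul_sqrt (by norm_num)]
          norm_num
        rw [h10]
        apply Real.sqrt_le_iff.2
        constructor
        · linarith
        · have hLl := H.Lpos l
          have h11 : (#(S i) : ℝ) / L l * (4096 * Λ) ≤ (M : ℝ) * M := by
            rw [div_mul_eq_mul_div, div_le_iff₀ hLl]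
            calc (#(S i) : ℝ) * (4096 * Λ) ≤ (L (l + 1) * M) * (4096 * Λ) := by gcongr
              _ = (4096 * Λ * L (l + 1)) * M := by ring
              _ ≤ (M * L l) * M := by gcongr
              _ = _ := by ring
          nlinarith
      have h12 : |(D S lv T (J + 1) ω i : ℝ)| ≤ |(D S lv T (l + 1) ω i : ℝ)| +
          |(D S lv T (J + 1) ω i : ℝ) - D S lv T (l + 1) ω i| := by
        have := abs_add_le (D S lv T (l + 1) ω i : ℝ)
          ((D S lv T (J + 1) ω i : ℝ) - D S lv T (l + 1) ω i)
        rwa [add_sub_cancel] at this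
      linarith
    · have hlJ' : l = J := by omega
      subst hlJ'
      have h7 : 4 * √(2 * ((#(S i) : ℝ) / L l) * Λ) ≤ M := by
        have h10 : 4 * √(2 * ((#(S i) : ℝ) / L l) * Λ) = √(16 * (2 * ((#(S i) : ℝ) / L l) * Λ)) := by
          rw [mul_sqrt (by norm_num)]
          norm_num
        rw [h10]
        apply Real.sqrt_le_iff.2
        constructor
        · linarith
        · have hLl := H.Lpos l
          have h9 : (#(S i) : ℝ) ≤ s := by exact_mod_cast hs i
          calc 16 * (2 * ((#(S i) : ℝ) / L l) * Λ) = 32 * Λ * #(S i) / L l := by ring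
            _ ≤ 32 * Λ * s / L l := by gcongr
            _ ≤ (L l * (M : ℝ) ^ 2) / L l := by gcongr
            _ = (M : ℝ) ^ 2 := by field_simp
      linarith

end final

end Pool.Agent.Helper18.HG
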