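import Pool.Agent.Helper18.HGStep
import Pool.Agent.Helper18.HGDefs

open Finset SimpleGraph

set_option linter.unusedSectionVars false

namespace Pool.Agent.Helper18.HG

section graph

variable {V I : Type*} (S : I → Finset V)

theorem adj_lr {v : V} {j : I} (h : v ∈ S j) : (incGraph S).Adj (Sum.inl v) (Sum.inr j) := by
  rw [incGraph, SimpleGraph.fromRel_adj]
  exact ⟨by simp, Or.inl ⟨v, j, rfl, rfl, h⟩⟩

theorem adj_rl {v : V} {j : I} (h : v ∈ S j) : (incGraph S).Adj (Sum.inr j) (Sum.inl v) :=
  (adj_lr S h).symm

theorem mem_of_adj {v : V} {j : I} (h : (incGraph S).Adj (Sum.inl v) (Sum.inr j)) : v ∈ S j := by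
  rw [incGraph, SimpleGraph.fromRel_adj] at h
  rcases h.2 with ⟨v', j', h1, h2, h3⟩ | ⟨v', j', h1, h2, h3⟩
  · simp at h1 h2; subst h1 h2; exact h3
  · simp at h1

/-- There is no short walk from `j'` to `j` avoiding a common point. -/
def NoShort (r : ℕ) : Prop :=
  ∀ (i : V) (j j' : I), j ≠ j' → i ∈ S j → i ∈ S j' →
    ∀ w : (incGraph S).Walk (Sum.inr j') (Sum.inr j), w.length ≤ r → Sum.inl i ∈ w.support

theorem NoShort.mono {r r' : ℕ} (h : NoShort S r) (hr : r' ≤ r) : NoShort S r' :=
  fun i j j' h1 h2 h3 w hw => h i j j' h1 h2 h3 w (hw.trans hr)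

theorem noShort_of_girth [DecidableEq V] [DecidableEq I] {g r : ℕ} (hr : r + 2 < g)
    (hg : ∀ (a : V ⊕ I) (c : (incGraph S).Walk a a), c.IsCycle → g ≤ c.length) : NoShort S r := by
  intro i j j' hjj hi hi' w hw
  by_contra hcon
  set p := w.bypass with hp
  have hpP : p.IsPath := w.bypass_isPath
  have hpl : p.length ≤ w.length := w.length_bypass_le_length
  have hps : Sum.inl i ∉ p.support := fun h => hcon (w.support_bypass_subset_support h)
  have h1 : (p.concat (adj_rl S hi)).IsPath := hpP.concat hps _
  have h2 : s(Sum.inl i, Sum.inr j') ∉ (p.concat (adj_rl S hi)).edges := by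
    rw [Walk.edges_concat, List.concat_eq_append, List.mem_append, not_or]
    constructor
    · intro h
      exact hps (p.fst_mem_support_of_mem_edges h)
    · simp only [List.mem_singleton, Sym2.eq_iff, not_or]
      constructor
      · rintro ⟨h, _⟩; simp at h
      · rintro ⟨_, h⟩; simp at h; exact hjj h.symm
  have h3 := (Walk.cons_isCycle_iff _ (adj_lr S hi')).2 ⟨h1, h2⟩
  have h4 := hg _ _ h3
  simp only [Walk.length_cons, Walk.length_concat] at h4
  omega

/-- `NoShort` passes to a refined system. -/
theorem noShort_refine {I' : Type*} (S' : I' → Finset V) (π : I' → I) (hsub : ∀ a, S' a ⊆ S (π a))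
    (hdis : ∀ a b, a ≠ b → π a = π b → Disjoint (S' a) (S' b)) {r : ℕ} (h : NoShort S r) :
    NoShort S' r := by
  classical
  let φ : incGraph S' →g incGraph S :=
    { toFun := Sum.map id π
      map_rel' := by
        intro a b hab
        rcases a with v | a <;> rcases b with w | b
        · rw [incGraph, SimpleGraph.fromRel_adj] at hab
          rcases hab.2 with ⟨v', j', h1, h2, h3⟩ | ⟨v', j', h1, h2, h3⟩ <;> simp at h2
        · exact adj_lr S (hsub _ (mem_of_adj S' hab))
        · exact adj_rl S (hsub _ (mem_of_adj S' hab.symm))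
        · rw [incGraph, SimpleGraph.fromRel_adj] at hab
          rcases hab.2 with ⟨v', j', h1, h2, h3⟩ | ⟨v', j', h1, h2, h3⟩ <;> simp at h1 }
  intro i j j' hjj hi hi' w hw
  have hne : π j ≠ π j' := by
    intro heq
    exact (Finset.disjoint_left.1 (hdis j j' hjj heq)) hi hi'
  have hlen : (w.map φ).length = w.length := Walk.length_map _ _
  have hsup := Walk.support_map φ w
  have h1 : Sum.inl i ∈ (w.map φ).support :=
    h i (π j) (π j') hne (hsub _ hi) (hsub _ hi') (w.map φ) (hlen.le.trans hw)
  rw [hsup, List.mem_map] at h1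
  obtain ⟨x, hx, hx'⟩ := h1
  rcases x with v | a
  · have : v = i := by simpa [φ] using hx'
    rwa [this] at hx
  · exact absurd hx' (by simp [φ])

end graph

section sep

variable {V I : Type*} [Fintype V] [DecidableEq V] [Fintype I] [DecidableEq I]
  (S : I → Finset V) (lv : V → ℕ)

/-- A branch point is reached by a short walk through lower levels. -/
theorem exists_walk {j : ℕ} {i : I} {x : V} (h : x ∈ Br S lv j i) :
    ∃ w : (incGraph S).Walk (Sum.inr i) (Sum.inl x), w.length + 1 ≤ 2 * j ∧
      ∀ v, Sum.inl v ∈ w.support → lv v < j := by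
  induction j generalizing i with
  | zero => exact absurd h (Finset.notMem_empty x)
  | succ j ih =>
    rw [mem_Br_succ] at h
    rcases h with h | ⟨y, hy, h | ⟨a, ha, h⟩⟩
    · obtain ⟨w, hw1, hw2⟩ := ih h
      exact ⟨w, by omega, fun v hv => by have := hw2 v hv; omega⟩
    · subst h
      have hy' := (mem_lev S lv).1 hy
      refine ⟨Walk.cons (adj_rl S hy'.1) Walk.nil, by simp, ?_⟩
      intro u hu
      simp only [Walk.support_cons, Walk.support_nil, List.mem_cons] at hu
      rcases hu with hu | hu | hu
      · simp at hu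
      · simp at hu; subst hu; omega
      · simp at hu
    · obtain ⟨w, hw1, hw2⟩ := ih h
      have hy' := (mem_lev S lv).1 hy
      refine ⟨Walk.cons (adj_rl S hy'.1) (Walk.cons (adj_lr S ((mem_inc S).1 ha)) w), ?_, ?_⟩
      · simp only [Walk.length_cons]; omega
      · intro u hu
        simp only [Walk.support_cons, List.mem_cons] at hu
        rcases hu with hu | hu | hu
        · simp at hu
        · simp at hu; subst hu; omega
        · have := hw2 u hu; omega

theorem exists_walk2 {j : ℕ} {a b : I} {x : V} (h : x ∈ Br S lv j a) (h' : x ∈ Br S lv j b) :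
    ∃ w : (incGraph S).Walk (Sum.inr a) (Sum.inr b), w.length + 2 ≤ 4 * j ∧
      ∀ v, Sum.inl v ∈ w.support → lv v < j := by
  obtain ⟨w, hw1, hw2⟩ := exists_walk S lv h
  obtain ⟨w', hw1', hw2'⟩ := exists_walk S lv h'
  refine ⟨w.append w'.reverse, ?_, ?_⟩
  · rw [Walk.length_append, Walk.length_reverse]; omega
  · intro v hv
    rw [Walk.mem_support_append_iff, Walk.support_reverse, List.mem_reverse] at hv
    rcases hv with hv | hv
    · exact hw2 v hv
    · exact hw2' v hv

/-- Large girth gives disjoint branches. -/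
theorem sep_of_noShort {j : ℕ} (h : NoShort S (4 * j)) : Sep S lv j := by
  constructor
  · intro x hx a ha b hb hab
    rw [Finset.disjoint_left]
    intro y hy hy'
    obtain ⟨w, hw1, hw2⟩ := exists_walk2 S lv hy hy'
    have h1 := h x b a hab.symm ((mem_inc S).1 hb) ((mem_inc S).1 ha) w (by omega)
    have := hw2 x h1
    omega
  · intro i x hx x' hx' hxx a ha b hb
    rw [Finset.disjoint_left]
    intro y hy hy'
    have hxi := (mem_lev S lv).1 hx
    have hxi' := (mem_lev S lv).1 hx'
    have hxa := (mem_inc S).1 (Finset.mem_of_mem_erase ha)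
    have hxb := (mem_inc S).1 (Finset.mem_of_mem_erase hb)
    have hai := Finset.ne_of_mem_erase ha
    obtain ⟨w, hw1, hw2⟩ := exists_walk2 S lv hy hy'
    -- walk from a to b, then x', then i; it must contain x
    have h1 := h x i a hai.symm hxi.1 hxa
      ((w.concat (adj_rl S hxb)).concat (adj_lr S hxi'.1)) (by
        simp only [Walk.length_concat]; omega)
    simp only [Walk.support_concat, List.mem_append, List.mem_cons] at h1
    rcases h1 with (h1 | h1) | h1
    · have := hw2 x h1; omega
    · simp at h1; exact hxx h1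
    · simp at h1

end sep

end Pool.Agent.Helper18.HG
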