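import Pool.Agent.Helper18.HGMoment

open Finset

set_option linter.unusedSectionVars false

namespace Pool.Agent.Helper18.HG

open Pool.Agent.Helper18.BG (avR avR_sum avR_mul_left avR_add avR_mono avR_nonneg avR_const)

section load

variable {V I : Type*} [Fintype V] [DecidableEq V] [Fintype I] [DecidableEq I]

/-- The numerical and structural assumptions. -/
structure Hyp (S : I → Finset V) (lv : V → ℕ) (T : ℕ → I → ℕ) (Q t J M : ℕ) (L : ℕ → ℕ)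
    (δ : ℕ → ℝ) (τ : ℕ → I → ℝ) (Λ : ℝ) : Prop where
  ht1 : 1 ≤ t
  ht : ∀ x, #(inc S x) ≤ t
  hM : 1 ≤ M
  hQ0 : 0 < Q
  hQe : Even Q
  hQ : ∀ i j, 0 < nn S lv i j → 2 * nn S lv i j ∣ Q
  sep : ∀ j ≤ J, Sep S lv j
  L0 : L 0 = 1
  L1 : ∀ j, 1 ≤ L j
  Lm : ∀ j, L j ≤ L (j + 1)
  lo : ∀ i j, 1 ≤ j → j ≤ J → L j * M ≤ #(S i) → #(S i) ≤ 2 * (L j * nn S lv i j)
  hi : ∀ i j, 1 ≤ j → j ≤ J → L j * M ≤ #(S i) → L j * nn S lv i j ≤ 2 * #(S i)
  δpos : ∀ j, 0 < δ j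
  hδ : ∀ j, j + 1 ≤ J → 4 * δ (j + 1) ^ 2 * L (j + 1) ≤ L j
  τ0 : ∀ j i, 0 ≤ τ j i
  hT : ∀ i j, j + 1 ≤ J → L (j + 1) * M ≤ #(S i) → (T j i : ℝ) + τ j i ≤ T (j + 1) i
  hTin : ∀ i j, 1 ≤ j → j ≤ J → #(S i) < L j * M → #(S i) ≤ T j i
  c1 : ∀ i j, j + 1 ≤ J → L (j + 1) * M ≤ #(S i) →
    144 * ((#(S i) : ℝ) / L j) * Real.exp (-(τ j i ^ 2 / (64 * ((#(S i) : ℝ) / L j)))) ≤
      δ (j + 1) * ((#(S i) : ℝ) / L (j + 1)) ^ 2 / (32 * t)
  c2 : ∀ i j, j + 1 ≤ J → 96 * (t : ℝ) * J * (#(S i) : ℝ) ^ 2 * Real.exp (-Λ) ≤ δ (j + 1)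
  hΛ : 1 ≤ Λ
  hΛ3 : ∀ j, j + 1 ≤ J → 4096 * Λ * L (j + 1) ≤ (M : ℝ) * L j

variable {S : I → Finset V} {lv : V → ℕ} {T : ℕ → I → ℕ} {Q : ℕ} {t J M : ℕ} {L : ℕ → ℕ}
  {δ : ℕ → ℝ} {τ : ℕ → I → ℝ} {Λ : ℝ}

lemma Hyp.L_mono (H : Hyp S lv T Q t J M L δ τ Λ) : Monotone L := monotone_nat_of_le_succ H.Lm

lemma Hyp.Lpos (H : Hyp S lv T Q t J M L δ τ Λ) (j : ℕ) : (0 : ℝ) < L j := by
  exact_mod_cast H.L1 j

/-- Active levels are an initial segment. -/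
lemma Hyp.act_mono (H : Hyp S lv T Q t J M L δ τ Λ) {i : I} {j l : ℕ} (hlj : l ≤ j)
    (h : L j * M ≤ #(S i)) : L l * M ≤ #(S i) :=
  (Nat.mul_le_mul_right M (H.L_mono hlj)).trans h

lemma Hyp.card_pos (H : Hyp S lv T Q t J M L δ τ Λ) {i : I} {j : ℕ}
    (h : L j * M ≤ #(S i)) : (0 : ℝ) < #(S i) := by
  have h1 := H.L1 j
  have h2 := H.hM
  have : 1 ≤ #(S i) := (Nat.mul_le_mul h1 h2).trans h
  exact_mod_cast this

lemma Hyp.nu_ge (H : Hyp S lv T Q t J M L δ τ Λ) {i : I} {j : ℕ}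
    (h : L j * M ≤ #(S i)) : (M : ℝ) ≤ (#(S i) : ℝ) / L j := by
  rw [le_div_iff₀ (H.Lpos j), mul_comm]
  exact_mod_cast h

lemma Hyp.nu_sq (H : Hyp S lv T Q t J M L δ τ Λ) {i : I} {j : ℕ} (hj : j + 1 ≤ J)
    (h : L (j + 1) * M ≤ #(S i)) :
    4096 * ((#(S i) : ℝ) / L j) * Λ ≤ ((#(S i) : ℝ) / L (j + 1)) ^ 2 := by
  have h1 := H.nu_ge h
  have h2 := H.hΛ3 j hj
  have h3 := H.Lpos j
  have h4 := H.Lpos (j + 1)
  have h5 := H.card_pos h
  calc 4096 * ((#(S i) : ℝ) / L j) * Λ = (#(S i) : ℝ) / L (j + 1) *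
      ((4096 * Λ * L (j + 1)) / L j) := by
        field_simp
    _ ≤ (#(S i) : ℝ) / L (j + 1) * (((M : ℝ) * L j) / L j) := by gcongr
    _ = (#(S i) : ℝ) / L (j + 1) * M := by
        field_simp
    _ ≤ (#(S i) : ℝ) / L (j + 1) * ((#(S i) : ℝ) / L (j + 1)) := by gcongr
    _ = _ := by ring

lemma Hyp.nn_le (H : Hyp S lv T Q t J M L δ τ Λ) {i : I} {j : ℕ} (hj : j ≤ J)
    (h : j = 0 ∨ L j * M ≤ #(S i)) : (nn S lv i j : ℝ) ≤ 2 * ((#(S i) : ℝ) / L j) := by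
  rcases Nat.eq_zero_or_pos j with h0 | h0
  · subst h0
    rw [H.L0]
    have : nn S lv i 0 ≤ #(S i) := Finset.card_filter_le _ _
    have h1 : (nn S lv i 0 : ℝ) ≤ #(S i) := by exact_mod_cast this
    have h2 : (0 : ℝ) ≤ #(S i) := Nat.cast_nonneg _
    push_cast
    linarith
  · have h1 : L j * M ≤ #(S i) := by
      rcases h with h | h
      · omega
      · exact h
    have h2 := H.hi i j h0 hj h1
    rw [← mul_div_assoc, le_div_iff₀ (H.Lpos j), mul_comm]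
    exact_mod_cast h2

lemma Hyp.le_nn (H : Hyp S lv T Q t J M L δ τ Λ) {i : I} {j : ℕ} (h0 : 1 ≤ j) (hj : j ≤ J)
    (h : L j * M ≤ #(S i)) : (#(S i) : ℝ) / L j ≤ 2 * nn S lv i j := by
  have h2 := H.lo i j h0 hj h
  rw [div_le_iff₀ (H.Lpos j)]
  have h3 : (#(S i) : ℝ) ≤ 2 * (L j * nn S lv i j) := by exact_mod_cast h2
  linarith

lemma Hyp.hd (H : Hyp S lv T Q t J M L δ τ Λ) {i : I} {j : ℕ} (hj : j + 1 ≤ J) :
    4 * δ (j + 1) ^ 2 * ((#(S i) : ℝ) / L j) ≤ (#(S i) : ℝ) / L (j + 1) := by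
  have h1 := H.hδ j hj
  have h3 := H.Lpos j
  have h4 := H.Lpos (j + 1)
  have h5 : (0 : ℝ) ≤ #(S i) := Nat.cast_nonneg _
  rw [← mul_div_assoc, div_le_div_iff₀ h3 h4]
  calc 4 * δ (j + 1) ^ 2 * (#(S i) : ℝ) * L (j + 1) = #(S i) * (4 * δ (j + 1) ^ 2 * L (j + 1)) := by
        ring
    _ ≤ _ := by gcongr

variable [NeZero Q]

lemma Hyp.mgf (H : Hyp S lv T Q t J M L δ τ Λ) {i : I} {j : ℕ} (hj : j ≤ J)
    (h : j = 0 ∨ L j * M ≤ #(S i)) (θ : ℝ) :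
    avR (fun ω : V → Fin Q => Real.exp (θ * Nz S lv T i j ω)) ≤
      Real.exp (θ ^ 2 * (2 * ((#(S i) : ℝ) / L j))) := by
  apply (mgf_Nz S lv T H.hQe H.hQ (H.sep j hj) i θ).trans
  apply Real.exp_le_exp.2
  exact mul_le_mul_of_nonneg_left (H.nn_le hj h) (sq_nonneg θ)

/-- The load assumption at one level. -/
def Load (S : I → Finset V) (lv : V → ℕ) (T : ℕ → I → ℕ) (Q t : ℕ) (δ : ℕ → ℝ) (j : ℕ) : Prop :=
  ∀ a, 4 * (t : ℝ) * avR (fun ω : V → Fin Q =>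
      ((cor S lv T a j (D S lv T j ω a) : ℕ) : ℝ) ^ 2) ≤ δ j * (nn S lv a j : ℝ) ^ 2

lemma Hyp.quality (H : Hyp S lv T Q t J M L δ τ Λ) {j : ℕ} (hj : j ≤ J)
    (hl : 1 ≤ j → Load S lv T Q t δ j) (i : I) (ω : V → Fin Q)
    (hω : ex S lv T i j ω ≤ nn S lv i j / 2) :
    |(D S lv T j ω i : ℝ) + mu S lv T Q i j (D S lv T j ω i)| ≤
      T j i + δ j * (ex S lv T i j ω : ℝ) := by
  rcases Nat.eq_zero_or_pos j with h0 | h0
  · subst h0
    have h1 : D S lv T 0 ω i = 0 := rfl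
    have h2 := mu_neg S lv T (Q := Q) i 0 0
    rw [neg_zero] at h2
    have h3 : mu S lv T Q i 0 0 = 0 := by linarith
    rw [h1, h3]
    have h4 : (0 : ℝ) ≤ T 0 i := Nat.cast_nonneg _
    have h5 := H.δpos 0
    have h6 : (0 : ℝ) ≤ (ex S lv T i 0 ω : ℝ) := Nat.cast_nonneg _
    simp only [Int.cast_zero, add_zero, abs_zero]
    positivity
  · apply abs_add_mu_le' S lv T H.hQ i j _ (H.δpos j).le _ hω
    intro x hx
    exact EZ2_le S lv T H.ht1 H.ht (H.sep j hj) (H.δpos j).le (hl h0) i ((mem_lev S lv).1 hx).2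

lemma Hyp.phi_le (H : Hyp S lv T Q t J M L δ τ Λ) {j : ℕ} (hj : j + 1 ≤ J)
    (hl : ∀ l ≤ j, 1 ≤ l → Load S lv T Q t δ l) {i : I} (h : L (j + 1) * M ≤ #(S i)) :
    ∀ z : ℝ, 0 ≤ z → phi S lv T Q i (j + 1) z ≤
      144 * ((#(S i) : ℝ) / L j) *
        Real.exp (-((τ j i ^ 2 + z ^ 2) / (64 * ((#(S i) : ℝ) / L j)))) := by
  have hpos := H.card_pos h
  apply phi_bound S lv T i δ (fun l => τ l i) (fun l => (#(S i) : ℝ) / L l) j H.δpos
    (fun l => H.τ0 l i) (fun l => div_pos hpos (H.Lpos l))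
  · intro l hlj
    exact H.hT i l (by omega) (H.act_mono (by omega) h)
  · intro l hlj θ
    exact H.mgf (by omega) (Or.inr (H.act_mono (by omega) h)) θ
  · intro l hlj ω hω
    exact H.quality (by omega) (hl l hlj) i ω hω
  · intro l hlj
    exact H.hd (by omega)

lemma Hyp.bad_le (H : Hyp S lv T Q t J M L δ τ Λ) {j : ℕ} (hj : j + 1 ≤ J)
    (hl : ∀ l ≤ j, 1 ≤ l → Load S lv T Q t δ l) {i : I} (h : L (j + 1) * M ≤ #(S i)) :
    avR (fun ω : V → Fin Q => 1 - Gd S lv T i (j + 1) ω) ≤ 3 * j * Real.exp (-Λ) := by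
  induction j with
  | zero =>
    have h1 : (fun ω : V → Fin Q => 1 - Gd S lv T i (0 + 1) ω) = fun _ => 0 := by
      funext ω
      have : Gd S lv T i (0 + 1) ω = 1 := by
        apply if_pos
        intro l hl0
        have : l = 0 := by omega
        subst this
        have h2 : ex S lv T i 0 ω = 0 := by
          unfold ex
          simp [D]
        rw [h2]
        exact Nat.zero_le _
      rw [this, sub_self]
    have hne : Nonempty (V → Fin Q) := ⟨fun _ => 0⟩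
    rw [h1, avR_const]
    simp
  | succ j ih =>
    have h' : L (j + 1) * M ≤ #(S i) := H.act_mono (by omega) h
    have ih' := ih (by omega) (fun l hlj => hl l (by omega)) h'
    have hpos := H.card_pos h
    have hν : 0 < (#(S i) : ℝ) / L j := div_pos hpos (H.Lpos j)
    have h1 := bad_step S lv T (Q := Q) i (j + 1) hν H.hΛ (by
      have h2 := H.nu_sq (by omega) h'
      have h3 := H.le_nn (by omega) (by omega : j + 1 ≤ J) h'
      have h4 : 0 ≤ (#(S i) : ℝ) / L (j + 1) := (div_pos hpos (H.Lpos _)).le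
      have h5 : ((#(S i) : ℝ) / L (j + 1)) ^ 2 ≤ (2 * (nn S lv i (j + 1) : ℝ)) ^ 2 :=
        pow_le_pow_left₀ h4 h3 2
      nlinarith) (by
      intro z hz
      have h2 := H.phi_le (by omega : j + 1 ≤ J) (fun l hlj => hl l (by omega)) h' z hz
      apply h2.trans
      apply mul_le_mul_of_nonneg_left _ (by positivity)
      apply Real.exp_le_exp.2
      apply neg_le_neg
      apply div_le_div_of_nonneg_right _ (by positivity)
      have := sq_nonneg (τ j i)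
      linarith)
    apply h1.trans
    push_cast
    have h6 := Real.exp_pos (-Λ)
    linarith

lemma Hyp.load_step (H : Hyp S lv T Q t J M L δ τ Λ) {j : ℕ} (hj : j + 1 ≤ J)
    (hl : ∀ l ≤ j, 1 ≤ l → Load S lv T Q t δ l) : Load S lv T Q t δ (j + 1) := by
  intro a
  have hne : Nonempty (V → Fin Q) := ⟨fun _ => 0⟩
  have ht0 : (0 : ℝ) < t := by exact_mod_cast H.ht1
  rcases lt_or_ge (#(S a)) (L (j + 1) * M) with h | h
  · have h1 : (fun ω : V → Fin Q => ((cor S lv T a (j + 1) (D S lv T (j + 1) ω a) : ℕ) : ℝ) ^ 2) =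
        fun _ => 0 := by
      funext ω
      have h2 := H.hTin a (j + 1) (by omega) hj h
      have h3 := natAbs_D_le S lv T (j + 1) ω a
      have h4 := cor_le_ex S lv T a (j + 1) (D S lv T (j + 1) ω a)
      have h5 : cor S lv T a (j + 1) (D S lv T (j + 1) ω a) = 0 := by omega
      rw [h5]
      simp
    rw [h1, avR_const, mul_zero]
    have := H.δpos (j + 1)
    positivity
  · have hpos := H.card_pos h
    have h1 : avR (fun ω : V → Fin Q =>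
        ((cor S lv T a (j + 1) (D S lv T (j + 1) ω a) : ℕ) : ℝ) ^ 2) ≤
        avR (fun ω : V → Fin Q => (ex S lv T a (j + 1) ω : ℝ) ^ 2) := by
      apply avR_mono
      intro ω
      apply pow_le_pow_left₀ (Nat.cast_nonneg _)
      exact_mod_cast cor_le_ex S lv T a (j + 1) (D S lv T (j + 1) ω a)
    have h2 := ex_sq_le S lv T (Q := Q) a (j + 1)
    have h3 := H.phi_le hj hl h 0 le_rfl
    have h4 := H.bad_le hj hl h
    have h5 := H.c1 a j hj h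
    have h6 := H.c2 a j hj
    rw [show τ j a ^ 2 + (0 : ℝ) ^ 2 = τ j a ^ 2 by ring] at h3
    have h7 := H.le_nn (by omega) hj h
    have h8 := H.nu_ge h
    have hM : (1 : ℝ) ≤ M := by exact_mod_cast H.hM
    set ν : ℝ := (#(S a) : ℝ) / L (j + 1) with hν
    have hδ := H.δpos (j + 1)
    have h9 : (#(S a) : ℝ) ^ 2 * avR (fun ω : V → Fin Q => 1 - Gd S lv T a (j + 1) ω) ≤
        (#(S a) : ℝ) ^ 2 * (3 * J * Real.exp (-Λ)) := by
      apply mul_le_mul_of_nonneg_left _ (by positivity)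
      apply h4.trans
      have : (j : ℝ) ≤ J := by exact_mod_cast (by omega : j ≤ J)
      have := Real.exp_pos (-Λ)
      gcongr
    have h10 : avR (fun ω : V → Fin Q =>
        ((cor S lv T a (j + 1) (D S lv T (j + 1) ω a) : ℕ) : ℝ) ^ 2) ≤
        δ (j + 1) * ν ^ 2 / (32 * t) + (#(S a) : ℝ) ^ 2 * (3 * J * Real.exp (-Λ)) := by
      linarith
    calc 4 * (t : ℝ) * avR (fun ω : V → Fin Q =>
        ((cor S lv T a (j + 1) (D S lv T (j + 1) ω a) : ℕ) : ℝ) ^ 2) ≤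
        4 * (t : ℝ) * (δ (j + 1) * ν ^ 2 / (32 * t) +
          (#(S a) : ℝ) ^ 2 * (3 * J * Real.exp (-Λ))) := by gcongr
      _ = δ (j + 1) * ν ^ 2 / 8 + (96 * (t : ℝ) * J * (#(S a) : ℝ) ^ 2 * Real.exp (-Λ)) / 8 := by
          field_simp
          ring
      _ ≤ δ (j + 1) * ν ^ 2 / 8 + δ (j + 1) / 8 := by gcongr
      _ ≤ δ (j + 1) * ν ^ 2 / 4 := by
          have h11 : 1 ≤ ν ^ 2 := by nlinarith
          nlinarith
      _ ≤ δ (j + 1) * (nn S lv a (j + 1) : ℝ) ^ 2 := by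
          have h12 : ν ^ 2 ≤ (2 * (nn S lv a (j + 1) : ℝ)) ^ 2 :=
            pow_le_pow_left₀ (by linarith) h7 2
          nlinarith

lemma Hyp.load (H : Hyp S lv T Q t J M L δ τ Λ) : ∀ j, 1 ≤ j → j ≤ J → Load S lv T Q t δ j := by
  intro j
  induction j using Nat.strong_induction_on with
  | _ j ih =>
    intro h1 h2
    obtain ⟨k, rfl⟩ : ∃ k, j = k + 1 := ⟨j - 1, by omega⟩
    exact H.load_step h2 (fun l hl hl1 => ih l (by omega) hl1 (by omega))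

end load

end Pool.Agent.Helper18.HG
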