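import Pool.Agent.Helper18.HGReal

open Finset

namespace Pool.Agent.Helper18.HG

/-- Iterated logarithms. -/
def lam (s r l : ℕ) : ℕ := (Nat.log 2)^[r + 2 - l] s

/-- Exponents of the second phase. -/
def kk (s r l : ℕ) : ℕ := 2 * lam s r l + 4 * l + 20

/-- Inverse densities of the levels. -/
def LL (s q r R : ℕ) (j : ℕ) : ℕ :=
  if j = 0 then 1 else if j ≤ q then 4 * R ^ j else 4 * R ^ q * 2 ^ kk s r (j - q)

section seq

variable {s q r R : ℕ}

lemma iter_log_anti (s : ℕ) {m n : ℕ} (h : m ≤ n) : (Nat.log 2)^[n] s ≤ (Nat.log 2)^[m] s := by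
  induction n, h using Nat.le_induction with
  | base => exact le_rfl
  | succ n _ ih =>
    rw [Function.iterate_succ_apply']
    exact (Nat.log_le_self 2 _).trans ih

lemma lam_mono (s r : ℕ) {l l' : ℕ} (h : l ≤ l') : lam s r l ≤ lam s r l' :=
  iter_log_anti s (by omega)

lemma lam_succ (s : ℕ) {r l : ℕ} (h : l ≤ r + 1) : lam s r l = Nat.log 2 (lam s r (l + 1)) := by
  unfold lam
  have h1 : r + 2 - l = (r + 2 - (l + 1)) + 1 := by omega
  rw [h1, Function.iterate_succ_apply']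

lemma lam_succ_lt (s : ℕ) {r l : ℕ} (h : l ≤ r + 1) : lam s r (l + 1) < 2 ^ (lam s r l + 1) := by
  rw [lam_succ s h]
  exact Nat.lt_pow_succ_log_self (by norm_num) _

lemma kk_succ (s r l : ℕ) : kk s r l + 4 ≤ kk s r (l + 1) := by
  have := lam_mono s r (Nat.le_succ l)
  unfold kk
  have h : lam s r l ≤ lam s r (l + 1) := this
  omega

lemma kk_mono (s r : ℕ) {l l' : ℕ} (h : l ≤ l') : kk s r l ≤ kk s r l' := by
  have := lam_mono s r h
  unfold kk
  omega

/-- The tower condition. -/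
lemma kk_cond (s : ℕ) {r m : ℕ} (h : m ≤ r + 1) : 4 ^ m * kk s r (m + 1) ≤ 2 ^ kk s r m := by
  have h1 := lam_succ_lt s h
  have h2 : 2 ^ kk s r m = 2 ^ lam s r m * (2 ^ lam s r m * (4 ^ m * (4 ^ m * 2 ^ 20))) := by
    unfold kk
    rw [show (4:ℕ) = 2 ^ 2 by norm_num, ← pow_mul, ← pow_add, ← pow_add, ← pow_add, ← pow_add]
    congr 1
    ring
  have h3 : 1 ≤ 2 ^ lam s r m := Nat.one_le_two_pow
  have h4 : m + 1 ≤ 4 ^ m := by
    have : m < 4 ^ m := Nat.lt_pow_self (by norm_num)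
    omega
  have h5 : kk s r (m + 1) ≤ 2 ^ lam s r m * (4 ^ m * 2 ^ 20) := by
    have h6 : kk s r (m + 1) ≤ 2 * (2 * 2 ^ lam s r m) + 4 * 4 ^ m + 20 := by
      unfold kk
      rw [pow_succ] at h1
      omega
    have h7 : 1 ≤ 4 ^ m := Nat.one_le_pow _ _ (by norm_num)
    calc kk s r (m + 1) ≤ 2 * (2 * 2 ^ lam s r m) + 4 * 4 ^ m + 20 := h6
      _ ≤ 4 * (2 ^ lam s r m * 4 ^ m) + 4 * (2 ^ lam s r m * 4 ^ m) +
          20 * (2 ^ lam s r m * 4 ^ m) := by
          have h8 : 2 ^ lam s r m ≤ 2 ^ lam s r m * 4 ^ m := Nat.le_mul_of_pos_right _ h7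
          have h9 : 4 ^ m ≤ 2 ^ lam s r m * 4 ^ m := Nat.le_mul_of_pos_left _ h3
          have h10 : 1 ≤ 2 ^ lam s r m * 4 ^ m := h3.trans h8
          omega
      _ = 28 * (2 ^ lam s r m * 4 ^ m) := by ring
      _ ≤ 2 ^ 20 * (2 ^ lam s r m * 4 ^ m) := Nat.mul_le_mul_right _ (by norm_num)
      _ = _ := by ring
  rw [h2]
  calc 4 ^ m * kk s r (m + 1) ≤ 4 ^ m * (2 ^ lam s r m * (4 ^ m * 2 ^ 20)) := by gcongr
    _ = 1 * (2 ^ lam s r m * (4 ^ m * (4 ^ m * 2 ^ 20))) := by ring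
    _ ≤ _ := by gcongr

@[simp] lemma LL_zero : LL s q r R 0 = 1 := by simp [LL]

lemma LL_phase1 {j : ℕ} (h0 : 1 ≤ j) (hj : j ≤ q) : LL s q r R j = 4 * R ^ j := by
  unfold LL
  rw [if_neg (by omega), if_pos hj]

lemma LL_phase2 {m : ℕ} (h0 : 1 ≤ m) : LL s q r R (q + m) = 4 * R ^ q * 2 ^ kk s r m := by
  unfold LL
  rw [if_neg (by omega), if_neg (by omega)]
  congr 3
  omega

lemma one_le_two_pow_kk (l : ℕ) : 4 ≤ 2 ^ kk s r l := by
  calc 4 = 2 ^ 2 := by norm_num
    _ ≤ 2 ^ kk s r l := Nat.pow_le_pow_right (by norm_num) (by unfold kk; omega)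

lemma LL_pos (hR : 2 ≤ R) (j : ℕ) : 1 ≤ LL s q r R j := by
  unfold LL
  split_ifs
  · exact le_rfl
  · have := Nat.one_le_pow j R (by omega)
    omega
  · have h1 := Nat.one_le_pow q R (by omega)
    have h2 := one_le_two_pow_kk (s := s) (r := r) (j - q)
    nlinarith

lemma LL_one (hR : 2 ≤ R) : 4 ≤ LL s q r R 1 := by
  unfold LL
  rw [if_neg (by omega)]
  split_ifs
  · rw [pow_one]
    omega
  · have h1 := Nat.one_le_pow q R (by omega)
    have h2 := one_le_two_pow_kk (s := s) (r := r) (1 - q)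
    nlinarith

lemma LL_double (hR : 2 ≤ R) (j : ℕ) : 2 * LL s q r R j ≤ LL s q r R (j + 1) := by
  rcases Nat.eq_zero_or_pos j with h0 | h0
  · subst h0
    rw [LL_zero]
    have := LL_one (s := s) (q := q) (r := r) hR
    rw [zero_add]
    omega
  · rcases Nat.lt_or_ge j q with h | h
    · rw [LL_phase1 h0 (by omega), LL_phase1 (by omega) (by omega), pow_succ]
      have h1 := Nat.one_le_pow j R (by omega)
      nlinarith
    · rcases Nat.eq_or_lt_of_le h with h | h
      · have h1 : LL s q r R (j + 1) = 4 * R ^ q * 2 ^ kk s r 1 := by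
          rw [← h]
          exact LL_phase2 le_rfl
        rw [h1, LL_phase1 h0 (by omega), ← h]
        have h2 := Nat.one_le_pow q R (by omega)
        have h3 := one_le_two_pow_kk (s := s) (r := r) 1
        nlinarith
      · obtain ⟨m, rfl⟩ : ∃ m, j = q + m := ⟨j - q, by omega⟩
        rw [LL_phase2 (by omega), add_assoc, LL_phase2 (by omega)]
        have h1 := kk_succ s r m
        have h2 : 2 ^ (kk s r m + 1) ≤ 2 ^ kk s r (m + 1) :=
          Nat.pow_le_pow_right (by norm_num) (by omega)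
        rw [pow_succ] at h2
        have h3 := Nat.one_le_pow q R (by omega)
        calc 2 * (4 * R ^ q * 2 ^ kk s r m) = 4 * R ^ q * (2 ^ kk s r m * 2) := by ring
          _ ≤ _ := by gcongr

lemma LL_le_succ (hR : 2 ≤ R) (j : ℕ) : LL s q r R j ≤ LL s q r R (j + 1) := by
  have := LL_double (s := s) (q := q) (r := r) hR j
  omega

/-- Ratio of consecutive levels in the first phase. -/
lemma LL_ratio1 (hR : 2 ≤ R) {j : ℕ} (hj : j < q) : LL s q r R (j + 1) ≤ 4 * R * LL s q r R j := by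
  rcases Nat.eq_zero_or_pos j with h0 | h0
  · subst h0
    rw [LL_zero, zero_add, LL_phase1 le_rfl (by omega)]
    simp
  · rw [LL_phase1 h0 (by omega), LL_phase1 (by omega) (by omega), pow_succ]
    have h1 := Nat.one_le_pow j R (by omega)
    nlinarith [Nat.mul_le_mul h1 (show 1 ≤ R by omega)]

/-- Ratio of consecutive levels in the second phase. -/
lemma LL_ratio2 (hR : 2 ≤ R) (m : ℕ) :
    LL s q r R (q + m + 1) ≤ 4 * 2 ^ kk s r (m + 1) * LL s q r R (q + m) := by
  rw [add_assoc, LL_phase2 (by omega)]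
  rcases Nat.eq_zero_or_pos m with h0 | h0
  · subst h0
    rw [add_zero, zero_add]
    rcases Nat.eq_zero_or_pos q with hq | hq
    · subst hq
      simp
    · rw [LL_phase1 hq le_rfl]
      nlinarith [Nat.zero_le (R ^ q * 2 ^ kk s r 1)]
  · rw [LL_phase2 h0]
    have h1 : 1 ≤ 2 ^ kk s r m := Nat.one_le_two_pow
    calc 4 * R ^ q * 2 ^ kk s r (m + 1) = 4 * R ^ q * 2 ^ kk s r (m + 1) * 1 := by ring
      _ ≤ 4 * (4 * R ^ q * 2 ^ kk s r (m + 1)) * 2 ^ kk s r m := by
          have : 4 * R ^ q * 2 ^ kk s r (m + 1) ≤ 4 * (4 * R ^ q * 2 ^ kk s r (m + 1)) := by omega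
          exact Nat.mul_le_mul this h1
      _ = _ := by ring

/-- Lower bound for the levels of the second phase. -/
lemma LL_ge2 (hR : 2 ≤ R) (m : ℕ) :
    R ^ q * (if m = 0 then 1 else 2 ^ kk s r m) ≤ LL s q r R (q + m) := by
  split_ifs with h0
  · subst h0
    rw [add_zero, mul_one]
    rcases Nat.eq_zero_or_pos q with hq | hq
    · subst hq
      simp
    · rw [LL_phase1 hq le_rfl]
      omega
  · rw [LL_phase2 (by omega)]
    nlinarith [Nat.zero_le (R ^ q * 2 ^ kk s r m)]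

end seq

section thr

/-- Density ratio. -/
noncomputable def rho (s q r R j : ℕ) : ℝ := (LL s q r R (j + 1) : ℝ) / LL s q r R j

/-- Thresholds. -/
noncomputable def tau (t s q r R : ℕ) (σ : ℕ) (j : ℕ) : ℝ :=
  8 * √(((σ : ℝ) / LL s q r R j) *
    pl (9216 * t * rho s q r R j ^ 3 / ((σ : ℝ) / LL s q r R j)))

variable {t s q r R : ℕ}

lemma LL_posR (hR : 2 ≤ R) (j : ℕ) : (0 : ℝ) < LL s q r R j := by
  exact_mod_cast LL_pos hR j

lemma rho_pos (hR : 2 ≤ R) (j : ℕ) : 0 < rho s q r R j := div_pos (LL_posR hR _) (LL_posR hR _)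

lemma tau_nonneg (σ j : ℕ) : 0 ≤ tau t s q r R σ j := by
  unfold tau
  positivity

/-- The thresholds are sufficient. -/
lemma tau_c1 (ht : 1 ≤ t) (hR : 2 ≤ R) {σ : ℕ} (hσ : 0 < σ) (j : ℕ) :
    144 * ((σ : ℝ) / LL s q r R j) *
      Real.exp (-(tau t s q r R σ j ^ 2 / (64 * ((σ : ℝ) / LL s q r R j)))) ≤
      ((LL s q r R j : ℝ) / (2 * LL s q r R (j + 1))) *
        ((σ : ℝ) / LL s q r R (j + 1)) ^ 2 / (32 * t) := by
  have hσ' : (0 : ℝ) < σ := by exact_mod_cast hσ
  have ht' : (0 : ℝ) < t := by exact_mod_cast ht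
  have h1 := LL_posR (s := s) (q := q) (r := r) hR j
  have h2 := LL_posR (s := s) (q := q) (r := r) hR (j + 1)
  have h3 := rho_pos (s := s) (q := q) (r := r) hR j
  set ν : ℝ := (σ : ℝ) / LL s q r R j with hν
  have hν0 : 0 < ν := by positivity
  set x : ℝ := 9216 * t * rho s q r R j ^ 3 / ν with hx
  have hx0 : 0 < x := by positivity
  have h4 : tau t s q r R σ j ^ 2 / (64 * ν) = pl x := by
    unfold tau
    rw [← hν, ← hx, mul_pow, Real.sq_sqrt (mul_nonneg hν0.le (pl_nonneg x))]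
    field_simp
    ring
  rw [h4]
  calc 144 * ν * Real.exp (-pl x) ≤ 144 * ν * (1 / x) := by
        gcongr
        exact exp_neg_pl_le hx0
    _ = _ := by
        rw [hx, hν]
        unfold rho
        field_simp
        norm_num

/-- Sum of the thresholds of the first phase. -/
lemma sum_tau1 (ht : 1 ≤ t) (hR : 2 ≤ R) {σ : ℕ} (hσ : 0 < σ) :
    ∑ j ∈ range q, tau t s q r R σ j ≤ 55296 * ((R : ℝ) ^ 2 * √t) := by
  have hσ' : (0 : ℝ) < σ := by exact_mod_cast hσ
  have ht' : (0 : ℝ) < t := by exact_mod_cast ht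
  have hR' : (2 : ℝ) ≤ R := by exact_mod_cast hR
  set X : ℝ := 9216 * t * (4 * R) ^ 3 with hX
  have hX0 : 0 < X := by positivity
  have h1 := sum_sqrt_mul_pl_le (fun l => (σ : ℝ) / LL s q r R l)
    (fun l => div_pos hσ' (LL_posR hR l)) (fun l => by
      have h2 := LL_double (s := s) (q := q) (r := r) hR l
      have h3 : 2 * (LL s q r R l : ℝ) ≤ LL s q r R (l + 1) := by exact_mod_cast h2
      have h4 := LL_posR (s := s) (q := q) (r := r) hR l
      have h5 := LL_posR (s := s) (q := q) (r := r) hR (l + 1)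
      show 2 * ((σ : ℝ) / LL s q r R (l + 1)) ≤ (σ : ℝ) / LL s q r R l
      rw [← mul_div_assoc, div_le_div_iff₀ h5 h4]
      nlinarith) hX0 q
  have h2 : ∀ j ∈ range q, tau t s q r R σ j ≤
      8 * √(((σ : ℝ) / LL s q r R j) * pl (X / ((σ : ℝ) / LL s q r R j))) := by
    intro j hj
    rw [mem_range] at hj
    unfold tau
    have h3 := LL_posR (s := s) (q := q) (r := r) hR j
    have h4 := rho_pos (s := s) (q := q) (r := r) hR j
    have h5 : rho s q r R j ≤ 4 * R := by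
      unfold rho
      rw [div_le_iff₀ h3]
      exact_mod_cast LL_ratio1 hR hj
    gcongr
    apply pl_mono
    · positivity
    · rw [hX]
      gcongr
  calc ∑ j ∈ range q, tau t s q r R σ j ≤ ∑ j ∈ range q,
      8 * √(((σ : ℝ) / LL s q r R j) * pl (X / ((σ : ℝ) / LL s q r R j))) := Finset.sum_le_sum h2
    _ = 8 * ∑ j ∈ range q, √(((σ : ℝ) / LL s q r R j) * pl (X / ((σ : ℝ) / LL s q r R j))) := by
        rw [Finset.mul_sum]
    _ ≤ 8 * (9 * √X) := by gcongr
    _ ≤ 8 * (9 * (768 * ((R : ℝ) ^ 2 * √t))) := by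
        gcongr
        rw [Real.sqrt_le_iff]
        constructor
        · positivity
        · have h6 : √(t : ℝ) ^ 2 = t := Real.sq_sqrt ht'.le
          have h7 : (768 * ((R : ℝ) ^ 2 * √t)) ^ 2 = 589824 * (R : ℝ) ^ 4 * t := by
            rw [mul_pow, mul_pow, h6]
            ring
          rw [h7, hX]
          have h8 : (R : ℝ) ^ 3 ≤ (R : ℝ) ^ 4 := pow_le_pow_right₀ (by linarith) (by norm_num)
          calc 9216 * (t : ℝ) * (4 * R) ^ 3 = 589824 * (R : ℝ) ^ 3 * t := by ring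
            _ ≤ _ := by gcongr
    _ = _ := by ring

/-- Thresholds of the second phase. -/
lemma tau2_le (ht : 1 ≤ t) (hR : 2 ≤ R) {σ : ℕ} (hσ : 0 < σ) (hσs : σ ≤ s) (hs : s ≤ R ^ q * t)
    (m : ℕ) : tau t s q r R σ (q + m) ≤
      16 * √(t * kk s r (m + 1) / (if m = 0 then 1 else 2 ^ kk s r m)) := by
  have hσ' : (0 : ℝ) < σ := by exact_mod_cast hσ
  have ht' : (0 : ℝ) < t := by exact_mod_cast ht
  have h3 := LL_posR (s := s) (q := q) (r := r) hR (q + m)
  have h4 := rho_pos (s := s) (q := q) (r := r) hR (q + m)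
  set k := kk s r (m + 1) with hk
  set a : ℝ := if m = 0 then 1 else 2 ^ kk s r m with ha
  have ha1 : 1 ≤ a := by
    rw [ha]
    split_ifs
    · exact le_rfl
    · exact one_le_pow₀ (by norm_num)
  have ha0 : 0 < a := by linarith
  have hak : a ≤ 2 ^ k := by
    rw [ha, hk]
    split_ifs
    · exact one_le_pow₀ (by norm_num)
    · exact pow_le_pow_right₀ (by norm_num) (kk_mono s r (Nat.le_succ m))
  have hk20 : (20 : ℝ) ≤ k := by
    have : 20 ≤ kk s r (m + 1) := by unfold kk; omega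
    exact_mod_cast this
  have hν : (σ : ℝ) / LL s q r R (q + m) ≤ t / a := by
    rw [div_le_div_iff₀ h3 ha0]
    have h5 := LL_ge2 (s := s) (q := q) (r := r) hR m
    have h6 : (R : ℝ) ^ q * a ≤ LL s q r R (q + m) := by
      have h7 : ((R ^ q * (if m = 0 then 1 else 2 ^ kk s r m) : ℕ) : ℝ) ≤ LL s q r R (q + m) := by
        exact_mod_cast h5
      have h8 : ((R ^ q * (if m = 0 then 1 else 2 ^ kk s r m) : ℕ) : ℝ) = (R : ℝ) ^ q * a := by
        rw [ha]
        split_ifs <;> push_cast <;> rfl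
      rw [h8] at h7
      exact h7
    have h9 : (σ : ℝ) ≤ (R : ℝ) ^ q * t := by exact_mod_cast hσs.trans hs
    calc (σ : ℝ) * a ≤ (R : ℝ) ^ q * t * a := by gcongr
      _ = t * ((R : ℝ) ^ q * a) := by ring
      _ ≤ _ := by gcongr
  have hrho : rho s q r R (q + m) ≤ 4 * 2 ^ k := by
    unfold rho
    rw [div_le_iff₀ h3]
    exact_mod_cast LL_ratio2 hR m
  set ν : ℝ := (σ : ℝ) / LL s q r R (q + m) with hνd
  have hν0 : 0 < ν := by positivity
  set X : ℝ := 9216 * t * (4 * 2 ^ k) ^ 3 with hX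
  have hX0 : 0 < X := by positivity
  have h5 : pl (9216 * t * rho s q r R (q + m) ^ 3 / ν) ≤ pl (X / ν) := by
    apply pl_mono
    · positivity
    · rw [hX]
      gcongr
  have h6 := mul_pl_le hν0 hν hX0
  have h7 : X / (t / a) ≤ 2 ^ (20 + 4 * k) := by
    rw [hX]
    have h8 : 9216 * (t : ℝ) * (4 * 2 ^ k) ^ 3 / (t / a) = 589824 * (2 ^ k) ^ 3 * a := by
      field_simp
      ring
    rw [h8]
    calc 589824 * ((2 : ℝ) ^ k) ^ 3 * a ≤ 2 ^ 20 * ((2 : ℝ) ^ k) ^ 3 * 2 ^ k := by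
          gcongr
          norm_num
      _ = _ := by
          rw [← pow_mul, ← pow_add, ← pow_add]
          congr 1
          ring
  have h9 : pl (X / (t / a)) ≤ 3.5 * k := by
    have h10 : pl (X / (t / a)) ≤ pl (2 ^ (20 + 4 * k)) := pl_mono (by positivity) h7
    apply h10.trans
    apply max_le
    · rw [Real.log_pow]
      have h11 := Real.log_two_lt_d9
      have h12 : 0 < Real.log 2 := Real.log_pos (by norm_num)
      push_cast
      calc (20 + 4 * (k : ℝ)) * Real.log 2 ≤ (k + 4 * k) * 0.6931471808 := by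
            gcongr
        _ ≤ _ := by linarith
    · positivity
  unfold tau
  rw [← hνd]
  have h13 : ν * pl (9216 * t * rho s q r R (q + m) ^ 3 / ν) ≤ 4 * (t * k / a) := by
    calc ν * pl (9216 * t * rho s q r R (q + m) ^ 3 / ν) ≤ ν * pl (X / ν) := by gcongr
      _ ≤ t / a * (pl (X / (t / a)) + 1) := h6
      _ ≤ t / a * (4 * k) := by
          gcongr
          linarith
      _ = _ := by ring
  have h14 : √(4 * (t * (k : ℝ) / a)) = 2 * √(t * k / a) := by
    rw [Real.sqrt_mul (by norm_num)]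
    congr 1
    rw [show (4 : ℝ) = 2 ^ 2 by norm_num]
    exact Real.sqrt_sq (by norm_num)
  calc 8 * √(ν * pl (9216 * t * rho s q r R (q + m) ^ 3 / ν)) ≤ 8 * √(4 * (t * k / a)) := by
        gcongr
    _ = 16 * √(t * k / a) := by
        rw [h14]
        ring

lemma sum_tau2 (ht : 1 ≤ t) (hR : 2 ≤ R) {σ : ℕ} (hσ : 0 < σ) (hσs : σ ≤ s)
    (hs : s ≤ R ^ q * t) {n : ℕ} (hn : n ≤ r + 1) :
    ∑ m ∈ range n, tau t s q r R σ (q + m) ≤ 16 * √(t * kk s r 1) + 16 * √t := by
  have ht' : (0 : ℝ) < t := by exact_mod_cast ht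
  have h1 : ∀ m, 1 ≤ m → m ≤ r + 1 → tau t s q r R σ (q + m) ≤ 16 * √t * (1 / 2) ^ m := by
    intro m hm hmr
    apply (tau2_le ht hR hσ hσs hs m).trans
    rw [if_neg (by omega)]
    have h2 := kk_cond s hmr
    have h3 : (4 : ℝ) ^ m * kk s r (m + 1) ≤ 2 ^ kk s r m := by exact_mod_cast h2
    have h4 : (t : ℝ) * kk s r (m + 1) / 2 ^ kk s r m ≤ t * ((1 / 2) ^ m) ^ 2 := by
      rw [div_le_iff₀ (by positivity)]
      have h5 : ((1 / 2 : ℝ) ^ m) ^ 2 * 4 ^ m = 1 := by
        rw [← pow_mul, mul_comm m 2, pow_mul, ← mul_pow]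
        norm_num
      calc (t : ℝ) * kk s r (m + 1) = t * (((1 / 2 : ℝ) ^ m) ^ 2 * 4 ^ m) * kk s r (m + 1) := by
            rw [h5]
            ring
        _ = t * ((1 / 2 : ℝ) ^ m) ^ 2 * (4 ^ m * kk s r (m + 1)) := by ring
        _ ≤ _ := by gcongr
    calc 16 * √(t * kk s r (m + 1) / 2 ^ kk s r m) ≤ 16 * √(t * ((1 / 2) ^ m) ^ 2) := by
          gcongr
      _ = 16 * √t * (1 / 2) ^ m := by
          rw [Real.sqrt_mul ht'.le, Real.sqrt_sq (by positivity)]
          ring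
  have h0 : tau t s q r R σ (q + 0) ≤ 16 * √(t * kk s r 1) := by
    have := tau2_le (r := r) ht hR hσ hσs hs 0
    simpa using this
  have h2 : ∀ n, n + 1 ≤ r + 1 → ∑ m ∈ range (n + 1), tau t s q r R σ (q + m) ≤
      16 * √(t * kk s r 1) + 16 * √t * (1 - (1 / 2) ^ n) := by
    intro n
    induction n with
    | zero =>
      intro _
      rw [zero_add, Finset.sum_range_one, pow_zero, sub_self, mul_zero]
      linarith [h0]
    | succ n ih =>
      intro hn
      rw [Finset.sum_range_succ]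
      have ih' := ih (by omega)
      have h3 := h1 (n + 1) (by omega) (by omega)
      have h4 : (1 - (1 / 2 : ℝ) ^ (n + 1)) = (1 - (1 / 2) ^ n) + (1 / 2) ^ (n + 1) := by
        rw [pow_succ]
        ring
      rw [h4, mul_add]
      linarith
  rcases Nat.eq_zero_or_pos n with hz | hz
  · subst hz
    rw [Finset.range_zero, Finset.sum_empty]
    positivity
  · obtain ⟨k, rfl⟩ : ∃ k, n = k + 1 := ⟨n - 1, by omega⟩
    apply (h2 k hn).trans
    have : 16 * √(t:ℝ) * (1 - (1 / 2) ^ k) ≤ 16 * √t * 1 := by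
      gcongr
      have : (0 : ℝ) ≤ (1 / 2) ^ k := by positivity
      linarith
    linarith

end thr

end Pool.Agent.Helper18.HG
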