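import Pool.Agent.Helper18.HGFinal
import Pool.Agent.Helper18.HGGraph
import Pool.Agent.Helper18.HGParam

open Finset

set_option linter.unusedSectionVars false

namespace Pool.Agent.Helper18.HG

/-- Existence of suitable levels (the statement proved in `HGLevels`). -/
def LevelsStatement (V I : Type*) [Fintype V] [DecidableEq V] [Fintype I] [DecidableEq I] : Prop :=
  ∀ (S : I → Finset V) (t s J M : ℕ) (L : ℕ → ℕ),
    (∀ v, #(univ.filter fun i => v ∈ S i) ≤ t) → (∀ i, #(S i) ≤ s) → 4 ≤ L 1 →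
    (∀ j, 1 ≤ j → 2 * L j ≤ L (j + 1)) →
    12 * ((J : ℝ) + 1) * (s * t + 1) * Real.exp (-((M : ℝ) / 8)) ≤ 1 →
    ∃ lv : V → ℕ, (∀ x, lv x ≤ J) ∧ ∀ i j, 1 ≤ j → j ≤ J →
      (L j * M ≤ #(S i) → #(S i) ≤ 2 * (L j * #((S i).filter fun x => lv x = j)) ∧
        L j * #((S i).filter fun x => lv x = j) ≤ 2 * #(S i)) ∧
      (#(S i) < L j * M → #((S i).filter fun x => j ≤ lv x) ≤ 4 * M)

section num

variable {t s q r R : ℕ}

/-- The parameter `Λ`. -/
def Lam (s : ℕ) : ℕ := 64 * (Nat.log 2 s + 1) ^ 2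

lemma two_pow_le_exp (n : ℕ) : (2 : ℝ) ^ n ≤ Real.exp n := by
  have h1 : (2 : ℝ) ≤ Real.exp 1 := by
    have := Real.exp_one_gt_d9
    linarith
  calc (2 : ℝ) ^ n ≤ Real.exp 1 ^ n := by gcongr
    _ = Real.exp n := by
        rw [← Real.exp_nat_mul]
        congr 1
        ring

lemma s_lt (s : ℕ) : s < 2 ^ (Nat.log 2 s + 1) := Nat.lt_pow_succ_log_self (by norm_num) _

lemma num1 (hts : t ≤ s) {J : ℕ} (hJ : J ≤ 2 * Nat.log 2 s + 4) :
    8 * (J + 1) * (1 + s * t) ^ (2 * (J + 1)) ≤ 2 ^ Lam s := by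
  set ℓ := Nat.log 2 s with hℓ
  have h1 : 1 + s * t ≤ 2 ^ (2 * ℓ + 2) := by
    have h2 := s_lt s
    rw [← hℓ] at h2
    have h3 : s * t < 2 ^ (ℓ + 1) * 2 ^ (ℓ + 1) := by
      calc s * t ≤ s * s := Nat.mul_le_mul_left _ hts
        _ < 2 ^ (ℓ + 1) * 2 ^ (ℓ + 1) := Nat.mul_lt_mul'' h2 h2
    rw [← pow_add] at h3
    have : ℓ + 1 + (ℓ + 1) = 2 * ℓ + 2 := by ring
    rw [this] at h3
    omega
  have h4 : J + 1 ≤ 2 ^ (2 * ℓ + 5) := by
    have : J + 1 < 2 ^ (J + 1) := Nat.lt_two_pow_self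
    exact this.le.trans (Nat.pow_le_pow_right (by norm_num) (by omega))
  calc 8 * (J + 1) * (1 + s * t) ^ (2 * (J + 1)) ≤
      2 ^ 3 * 2 ^ (2 * ℓ + 5) * (2 ^ (2 * ℓ + 2)) ^ (2 * (2 * ℓ + 5)) := by
        have h5 : (1 + s * t) ^ (2 * (J + 1)) ≤ (2 ^ (2 * ℓ + 2)) ^ (2 * (2 * ℓ + 5)) := by
          apply (Nat.pow_le_pow_left h1 _).trans
          exact Nat.pow_le_pow_right (by positivity) (by omega)
        gcongr
        norm_num
    _ = 2 ^ (3 + (2 * ℓ + 5) + (2 * ℓ + 2) * (2 * (2 * ℓ + 5))) := by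
        rw [← pow_mul, ← pow_add, ← pow_add]
    _ ≤ 2 ^ Lam s := by
        apply Nat.pow_le_pow_right (by norm_num)
        unfold Lam
        rw [← hℓ]
        nlinarith

lemma num2 (hts : t ≤ s) {J : ℕ} (hJ : J ≤ 2 * Nat.log 2 s + 4) {k : ℕ}
    (hk : k ≤ 6 * Nat.log 2 s + 32) :
    96 * t * J * s ^ 2 * (8 * s * 2 ^ k) ≤ 2 ^ Lam s := by
  set ℓ := Nat.log 2 s with hℓ
  have h2 := (s_lt s).le
  rw [← hℓ] at h2
  have h4 : J ≤ 2 ^ (2 * ℓ + 4) := by
    have : J < 2 ^ J := Nat.lt_two_pow_self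
    exact this.le.trans (Nat.pow_le_pow_right (by norm_num) (by omega))
  calc 96 * t * J * s ^ 2 * (8 * s * 2 ^ k) ≤
      2 ^ 7 * 2 ^ (ℓ + 1) * 2 ^ (2 * ℓ + 4) * (2 ^ (ℓ + 1)) ^ 2 *
        (2 ^ 3 * 2 ^ (ℓ + 1) * 2 ^ (6 * ℓ + 32)) := by
        have h5 : t ≤ 2 ^ (ℓ + 1) := hts.trans h2
        have h6 : 2 ^ k ≤ 2 ^ (6 * ℓ + 32) := Nat.pow_le_pow_right (by norm_num) hk
        gcongr
        · norm_num
        · norm_num
    _ = 2 ^ (7 + (ℓ + 1) + (2 * ℓ + 4) + (ℓ + 1) * 2 + (3 + (ℓ + 1) + (6 * ℓ + 32))) := by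
        rw [← pow_mul, ← pow_add, ← pow_add, ← pow_add, ← pow_add, ← pow_add, ← pow_add]
    _ ≤ 2 ^ Lam s := by
        apply Nat.pow_le_pow_right (by norm_num)
        unfold Lam
        rw [← hℓ]
        nlinarith

/-- The last density beats `Λ`. -/
lemma num4 (r : ℕ) : Lam s ≤ 2 ^ kk s r r := by
  have h1 : lam s r r = Nat.log 2 (Nat.log 2 s) := by
    unfold lam
    have : r + 2 - r = 2 := by omega
    rw [this]
    rfl
  have h2 := s_lt (Nat.log 2 s)
  have h3 : Nat.log 2 s + 1 ≤ 2 ^ (Nat.log 2 (Nat.log 2 s) + 1) := h2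
  unfold Lam kk
  rw [h1]
  calc 64 * (Nat.log 2 s + 1) ^ 2 ≤ 2 ^ 6 * (2 ^ (Nat.log 2 (Nat.log 2 s) + 1)) ^ 2 := by
        gcongr
        norm_num
    _ = 2 ^ (6 + (Nat.log 2 (Nat.log 2 s) + 1) * 2) := by
        rw [← pow_mul, ← pow_add]
    _ ≤ _ := Nat.pow_le_pow_right (by norm_num) (by omega)

lemma log3_le (s : ℕ) : (Nat.log 2)^[3] s ≤ Nat.log 2 s := by
  have := iter_log_anti s (show 1 ≤ 3 by norm_num)
  simpa using this

lemma kk_le (hr : r ≤ (Nat.log 2)^[3] s + 3) : kk s r r ≤ 6 * Nat.log 2 s + 32 := by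
  have h1 : lam s r r ≤ Nat.log 2 s := by
    unfold lam
    have := iter_log_anti s (show 1 ≤ r + 2 - r by omega)
    simpa using this
  have h2 := log3_le s
  unfold kk
  omega

/-- Pure real inequality behind condition `hΛ3`. -/
lemma real3 {x y R K Λ w M : ℝ} (hy : 0 < y) (hR : 2 ≤ R) (hK : 4 ≤ K) (hΛ : 0 ≤ Λ) (hw0 : 0 ≤ w)
    (h : x ≤ 4 * R * y ∨ x ≤ 4 * K * y) (hw : 4096 * Λ * K ≤ w) (hM : R ^ 2 * w ≤ M) :
    4096 * Λ * x ≤ M * y := by
  have hR4 : 4 ≤ R ^ 2 := by nlinarith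
  have hRR : R ≤ R ^ 2 := by nlinarith
  rcases h with h | h
  · have h1 : 4096 * Λ * x ≤ 4096 * Λ * (4 * R * y) :=
      mul_le_mul_of_nonneg_left h (by positivity)
    have h2 : 4096 * Λ * 4 ≤ 4096 * Λ * K := mul_le_mul_of_nonneg_left hK (by positivity)
    have h3 : (4096 * Λ * 4) * (R * y) ≤ w * (R * y) :=
      mul_le_mul_of_nonneg_right (h2.trans hw) (by positivity)
    have h4 : w * (R * y) ≤ w * (R ^ 2 * y) := by
      apply mul_le_mul_of_nonneg_left _ hw0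
      exact mul_le_mul_of_nonneg_right hRR hy.le
    have h5 : (R ^ 2 * w) * y ≤ M * y := mul_le_mul_of_nonneg_right hM hy.le
    calc 4096 * Λ * x ≤ 4096 * Λ * (4 * R * y) := h1
      _ = (4096 * Λ * 4) * (R * y) := by ring
      _ ≤ w * (R * y) := h3
      _ ≤ w * (R ^ 2 * y) := h4
      _ = (R ^ 2 * w) * y := by ring
      _ ≤ _ := h5
  · have h1 : 4096 * Λ * x ≤ 4096 * Λ * (4 * K * y) :=
      mul_le_mul_of_nonneg_left h (by positivity)
    have h3 : (4096 * Λ * K) * (4 * y) ≤ w * (4 * y) :=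
      mul_le_mul_of_nonneg_right hw (by positivity)
    have h4 : w * (4 * y) ≤ w * (R ^ 2 * y) := by
      apply mul_le_mul_of_nonneg_left _ hw0
      exact mul_le_mul_of_nonneg_right hR4 hy.le
    have h5 : (R ^ 2 * w) * y ≤ M * y := mul_le_mul_of_nonneg_right hM hy.le
    calc 4096 * Λ * x ≤ 4096 * Λ * (4 * K * y) := h1
      _ = (4096 * Λ * K) * (4 * y) := by ring
      _ ≤ w * (4 * y) := h3
      _ ≤ w * (R ^ 2 * y) := h4
      _ = (R ^ 2 * w) * y := by ring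
      _ ≤ _ := h5

lemma ratio_bound (s : ℕ) {q r R : ℕ} (hR : 2 ≤ R) {j : ℕ} (hj : j + 1 ≤ q + r) :
    LL s q r R (j + 1) ≤ 4 * R * LL s q r R j ∨
      LL s q r R (j + 1) ≤ 4 * 2 ^ kk s r r * LL s q r R j := by
  rcases Nat.lt_or_ge j q with h | h
  · exact Or.inl (LL_ratio1 hR h)
  · right
    obtain ⟨m, rfl⟩ : ∃ m, j = q + m := ⟨j - q, by omega⟩
    apply (LL_ratio2 hR m).trans
    apply Nat.mul_le_mul_right
    apply Nat.mul_le_mul_left
    exact Nat.pow_le_pow_right (by norm_num) (kk_mono s r (by omega))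

/-- Pure real inequality behind condition `c2`. -/
lemma real2 {x y s K : ℝ} (hx : 0 < x) (hy : 0 < y) (hs : 0 < s) (hK : 0 < K)
    (h : x ≤ 4 * s * K * y) {A E : ℝ} (hA : A * (8 * s * K) ≤ E) (hE : 0 < E) :
    A * E⁻¹ ≤ y / (2 * x) := by
  have h1 : A * E⁻¹ ≤ 1 / (8 * s * K) := by
    rw [le_div_iff₀ (by positivity), mul_right_comm]
    calc A * (8 * s * K) * E⁻¹ ≤ E * E⁻¹ := mul_le_mul_of_nonneg_right hA (inv_nonneg.2 hE.le)
      _ = 1 := mul_inv_cancel₀ hE.ne'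
  have h2 : 1 / (8 * s * K) ≤ y / (2 * x) := by
    rw [div_le_div_iff₀ (by positivity) (by positivity)]
    linarith
  exact h1.trans h2

/-- Pure real inequality behind condition `hδ`. -/
lemma real1 {x y : ℝ} (hx : 0 < x) (hy : 0 < y) (h : y ≤ x) :
    4 * (y / (2 * x)) ^ 2 * x ≤ y := by
  have h1 : 4 * (y / (2 * x)) ^ 2 * x = y * (y / x) := by
    field_simp
    norm_num
  rw [h1]
  have h2 : y / x ≤ 1 := (div_le_one hx).2 h
  nlinarith

/-- The number of elements allowed outside the active levels. -/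
def MM (t R : ℕ) : ℕ := R ^ 2 * (Nat.sqrt t + 1)

lemma MM_low (t R : ℕ) : (R : ℝ) ^ 2 * √t ≤ MM t R := by
  have h1 : √(t : ℝ) ≤ (Nat.sqrt t : ℝ) + 1 := by
    apply Real.sqrt_le_iff.2
    constructor
    · positivity
    · have := Nat.sqrt_lt' (m := t) (n := Nat.sqrt t + 1)
      have h2 : t < (Nat.sqrt t + 1) ^ 2 := this.1 (Nat.lt_succ_self _)
      have h3 : (t : ℝ) < ((Nat.sqrt t + 1 : ℕ) : ℝ) ^ 2 := by exact_mod_cast h2
      push_cast at h3
      exact h3.le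
  unfold MM
  push_cast
  exact mul_le_mul_of_nonneg_left h1 (by positivity)

lemma MM_up {t R : ℕ} (ht : 1 ≤ t) : (MM t R : ℝ) ≤ 2 * (R : ℝ) ^ 2 * √t := by
  have h1 : (Nat.sqrt t : ℝ) ≤ √t := by
    apply Real.le_sqrt_of_sq_le
    have := Nat.sqrt_le' t
    exact_mod_cast this
  have hsqrt1 : (1 : ℝ) ≤ √t := by
    rw [Real.one_le_sqrt]
    exact_mod_cast ht
  unfold MM
  push_cast
  calc (R : ℝ) ^ 2 * ((Nat.sqrt t : ℝ) + 1) ≤ (R : ℝ) ^ 2 * (√t + √t) :=
        mul_le_mul_of_nonneg_left (by linarith) (by positivity)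
    _ = _ := by ring

end num

attribute [local irreducible] LL kk Lam MM

section main

variable {V I : Type*} [Fintype V] [DecidableEq V] [Fintype I] [DecidableEq I]

/-- Bounded sizes, normalised parameters. -/
theorem main_bounded (hlev : LevelsStatement V I) (S : I → Finset V) {t s q r R : ℕ} (ht1 : 1 ≤ t)
    (hts : t ≤ s) (hs : s ≤ R ^ q * t) (hR : 2 ≤ R) (hRs : R ≤ s) (hr1 : 1 ≤ r)
    (hr : r ≤ (Nat.log 2)^[3] s + 3) (hq : q ≤ Nat.log 2 s + 1)
    (hN : (4096 * Lam s * 2 ^ kk s r r) ^ 2 ≤ t)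
    (ht : ∀ v, #(univ.filter fun i => v ∈ S i) ≤ t) (hsz : ∀ i, #(S i) ≤ s)
    (hg : NoShort S (4 * (q + r))) :
    ∃ χ : V → ℤ, (∀ v, χ v = 1 ∨ χ v = -1) ∧
      ∀ i, |((∑ v ∈ S i, χ v : ℤ) : ℝ)| ≤
        60000 * √t * ((R : ℝ) ^ 2 + √((Nat.log 2)^[r + 1] s : ℕ)) := by
  classical
  have hs1 : 1 ≤ s := by omega
  have hJℓ : q + r ≤ 2 * Nat.log 2 s + 4 := by
    have := log3_le s
    omega
  have ht' : (0 : ℝ) < t := by exact_mod_cast ht1
  have ht1' : (1 : ℝ) ≤ t := by exact_mod_cast ht1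
  have hR' : (2 : ℝ) ≤ R := by exact_mod_cast hR
  have hs' : (0 : ℝ) < s := by exact_mod_cast hs1
  have hΛ64 : 64 ≤ Lam s := by
    unfold Lam
    have : 1 ≤ (Nat.log 2 s + 1) ^ 2 := Nat.one_le_pow _ _ (by omega)
    omega
  have hΛ64' : (64 : ℝ) ≤ Lam s := by exact_mod_cast hΛ64
  obtain ⟨K, hK⟩ : ∃ K : ℕ, K = 2 ^ kk s r r := ⟨_, rfl⟩
  have hK4 : 4 ≤ K := by
    rw [hK]
    exact one_le_two_pow_kk r
  have hK4' : (4 : ℝ) ≤ K := by exact_mod_cast hK4
  have hK0 : (0 : ℝ) < K := by linarith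
  -- square root of t
  have hst : 4096 * (Lam s : ℝ) * K ≤ √t := by
    apply Real.le_sqrt_of_sq_le
    rw [← hK] at hN
    exact_mod_cast hN
  have hsqrt0 : (0 : ℝ) ≤ √t := Real.sqrt_nonneg _
  have hsqrt1 : (1 : ℝ) ≤ √t := by
    rw [Real.one_le_sqrt]
    exact ht1'
  have hsq : √(t : ℝ) ^ 2 = t := Real.sq_sqrt ht'.le
  -- M
  obtain ⟨M, hM⟩ : ∃ M : ℕ, M = MM t R := ⟨_, rfl⟩
  have hMlow : (R : ℝ) ^ 2 * √t ≤ M := by
    rw [hM]
    exact MM_low t R
  have hMup : (M : ℝ) ≤ 2 * (R : ℝ) ^ 2 * √t := by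
    rw [hM]
    exact MM_up ht1
  have hM4 : 4 * √(t : ℝ) ≤ M := by
    have h4 : (4 : ℝ) ≤ (R : ℝ) ^ 2 := by nlinarith
    exact (mul_le_mul_of_nonneg_right h4 hsqrt0).trans hMlow
  have hM1 : 1 ≤ M := by
    have : (1 : ℝ) ≤ M := by linarith
    exact_mod_cast this
  have hLp : ∀ j, (0 : ℝ) < LL s q r R j := fun j => LL_posR hR j
  have hΛ3 : ∀ j, j + 1 ≤ q + r → 4096 * (Lam s : ℝ) * LL s q r R (j + 1) ≤
      (M : ℝ) * LL s q r R j := by
    intro j hj
    apply real3 (hLp j) hR' hK4' (by linarith) hsqrt0 _ hst hMlow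
    rcases ratio_bound s hR hj with h | h
    · left
      exact_mod_cast h
    · right
      rw [← hK] at h
      exact_mod_cast h
  have hexp : (8 : ℝ) * (((q + r : ℕ) : ℝ) + 1) * (((1 + s * t) ^ (2 * (q + r + 1)) : ℕ) : ℝ) ≤
      Real.exp (Lam s : ℝ) := by
    have h1 := num1 hts hJℓ
    have h2 : (8 : ℝ) * (((q + r : ℕ) : ℝ) + 1) * (((1 + s * t) ^ (2 * (q + r + 1)) : ℕ) : ℝ) ≤
        (2 : ℝ) ^ Lam s := by
      have h3 : (((8 * (q + r + 1) * (1 + s * t) ^ (2 * (q + r + 1)) : ℕ)) : ℝ) ≤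
          ((2 ^ Lam s : ℕ) : ℝ) := Nat.cast_le.2 h1
      rw [Nat.cast_mul, Nat.cast_mul, Nat.cast_add (q + r) 1, Nat.cast_pow 2] at h3
      simpa using h3
    exact h2.trans (two_pow_le_exp _)
  -- levels
  obtain ⟨lv, hlvJ, hlv⟩ := hlev S t s (q + r) M (LL s q r R) ht hsz (LL_one hR)
    (fun j _ => LL_double hR j) (by
      have h1 : (Lam s : ℝ) ≤ (M : ℝ) / 8 := by
        have h0 : 4096 * (Lam s : ℝ) * 4 ≤ 4096 * (Lam s : ℝ) * K :=
          mul_le_mul_of_nonneg_left hK4' (by linarith)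
        linarith
      have h2 : Real.exp (-((M : ℝ) / 8)) ≤ Real.exp (-(Lam s : ℝ)) :=
        Real.exp_le_exp.2 (neg_le_neg h1)
      have h3 : Real.exp (-(Lam s : ℝ)) * Real.exp (Lam s : ℝ) = 1 := by
        rw [← Real.exp_add]
        simp
      have h4 : (2 : ℝ) * (s * t + 1) ≤ (((1 + s * t) ^ (2 * (q + r + 1)) : ℕ) : ℝ) := by
        have h5 : 2 * (s * t + 1) ≤ (1 + s * t) ^ (2 * (q + r + 1)) := by
          have h6 : 1 ≤ s * t := Nat.mul_pos hs1 ht1
          calc 2 * (s * t + 1) ≤ (1 + s * t) ^ 2 := by nlinarith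
            _ ≤ _ := Nat.pow_le_pow_right (by omega) (by omega)
        have h6 : ((2 * (s * t + 1) : ℕ) : ℝ) ≤ (((1 + s * t) ^ (2 * (q + r + 1)) : ℕ) : ℝ) :=
          Nat.cast_le.2 h5
        refine le_trans (le_of_eq ?_) h6
        push_cast
        ring
      have h7 := Real.exp_pos (-(Lam s : ℝ))
      have h8 : (0 : ℝ) ≤ ((q + r : ℕ) : ℝ) := Nat.cast_nonneg _
      have h9 : 12 * (((q + r : ℕ) : ℝ) + 1) * (s * t + 1) ≤
          8 * (((q + r : ℕ) : ℝ) + 1) * (((1 + s * t) ^ (2 * (q + r + 1)) : ℕ) : ℝ) := by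
        have h10 : 8 * (((q + r : ℕ) : ℝ) + 1) * (2 * (s * t + 1)) ≤
            8 * (((q + r : ℕ) : ℝ) + 1) * (((1 + s * t) ^ (2 * (q + r + 1)) : ℕ) : ℝ) :=
          mul_le_mul_of_nonneg_left h4 (by positivity)
        have h11 : 0 ≤ (((q + r : ℕ) : ℝ) + 1) * ((s : ℝ) * t + 1) := by positivity
        nlinarith
      calc 12 * (((q + r : ℕ) : ℝ) + 1) * (s * t + 1) * Real.exp (-((M : ℝ) / 8)) ≤
          12 * (((q + r : ℕ) : ℝ) + 1) * (s * t + 1) * Real.exp (-(Lam s : ℝ)) :=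
            mul_le_mul_of_nonneg_left h2 (by positivity)
        _ ≤ Real.exp (Lam s : ℝ) * Real.exp (-(Lam s : ℝ)) :=
            mul_le_mul_of_nonneg_right (h9.trans hexp) h7.le
        _ = 1 := by rw [mul_comm, h3])
  -- the discretisation
  obtain ⟨Q, hQ⟩ : ∃ Q : ℕ, Q = 2 * s.factorial := ⟨_, rfl⟩
  have hQ0 : 0 < Q := by
    have := Nat.factorial_pos s
    omega
  haveI : NeZero Q := ⟨hQ0.ne'⟩
  have hσpos : ∀ i j, LL s q r R j * M ≤ #(S i) → 0 < #(S i) := by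
    intro i j h
    have h1 := LL_pos (s := s) (q := q) (r := r) hR j
    have : 1 ≤ LL s q r R j * M := Nat.mul_pos h1 hM1
    omega
  -- parameters
  let δ : ℕ → ℝ := fun j => (LL s q r R (j - 1) : ℝ) / (2 * LL s q r R j)
  let τ : ℕ → I → ℝ := fun j i => tau t s q r R #(S i) j
  let T : ℕ → I → ℕ := fun j i => ∑ l ∈ range j, ⌈τ l i⌉₊ +
    (if j = 0 ∨ LL s q r R j * M ≤ #(S i) then 0 else #(S i))
  have hTact : ∀ i j, (j = 0 ∨ LL s q r R j * M ≤ #(S i)) →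
      T j i = ∑ l ∈ range j, ⌈τ l i⌉₊ := by
    intro i j h
    show ∑ l ∈ range j, ⌈τ l i⌉₊ +
      (if j = 0 ∨ LL s q r R j * M ≤ #(S i) then 0 else #(S i)) = _
    rw [if_pos h, add_zero]
  have hδs : ∀ j, δ (j + 1) = (LL s q r R j : ℝ) / (2 * LL s q r R (j + 1)) := fun j => rfl
  have H : Hyp S lv T Q t (q + r) M (LL s q r R) δ τ (Lam s : ℝ) :=
    { ht1 := ht1
      ht := ht
      hM := hM1
      hQ0 := hQ0
      hQe := ⟨s.factorial, by rw [hQ]; ring⟩
      hQ := by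
        intro i j hn
        rw [hQ]
        apply Nat.mul_dvd_mul_left
        apply Nat.dvd_factorial hn
        exact (Finset.card_filter_le _ _).trans (hsz i)
      sep := fun j hj => sep_of_noShort S lv (hg.mono S (by omega))
      L0 := LL_zero
      L1 := LL_pos hR
      Lm := LL_le_succ hR
      lo := fun i j h1 h2 h3 => ((hlv i j h1 h2).1 h3).1
      hi := fun i j h1 h2 h3 => ((hlv i j h1 h2).1 h3).2
      δpos := fun j => div_pos (hLp (j - 1)) (mul_pos two_pos (hLp j))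
      hδ := by
        intro j _
        rw [hδs]
        exact real1 (hLp (j + 1)) (hLp j) (by exact_mod_cast LL_le_succ hR j)
      τ0 := fun j i => tau_nonneg _ _
      hT := by
        intro i j hj h
        have h1 : j = 0 ∨ LL s q r R j * M ≤ #(S i) := by
          right
          exact (Nat.mul_le_mul_right M (LL_le_succ hR j)).trans h
        rw [hTact i j h1, hTact i (j + 1) (Or.inr h), Finset.sum_range_succ, Nat.cast_add]
        have := Nat.le_ceil (τ j i)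
        linarith
      hTin := by
        intro i j h1 h2 h3
        show #(S i) ≤ ∑ l ∈ range j, ⌈τ l i⌉₊ +
          (if j = 0 ∨ LL s q r R j * M ≤ #(S i) then 0 else #(S i))
        rw [if_neg (by push Not; exact ⟨by omega, h3⟩)]
        exact Nat.le_add_left _ _
      c1 := fun i j hj h => tau_c1 ht1 hR (hσpos i _ h) j
      c2 := by
        intro i j hj
        rw [hδs]
        have h1 : LL s q r R (j + 1) ≤ 4 * s * K * LL s q r R j := by
          rcases ratio_bound s hR hj with h | h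
          · apply h.trans
            apply Nat.mul_le_mul_right
            calc 4 * R ≤ 4 * s := by omega
              _ ≤ 4 * s * K := Nat.le_mul_of_pos_right _ (by omega)
          · rw [← hK] at h
            apply h.trans
            apply Nat.mul_le_mul_right
            calc 4 * K = 4 * 1 * K := by ring
              _ ≤ 4 * s * K := Nat.mul_le_mul_right _ (Nat.mul_le_mul_left _ hs1)
        have h2 : (LL s q r R (j + 1) : ℝ) ≤ 4 * s * K * LL s q r R j := by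
          have h3 : ((LL s q r R (j + 1) : ℕ) : ℝ) ≤ ((4 * s * K * LL s q r R j : ℕ) : ℝ) :=
            Nat.cast_le.2 h1
          push_cast at h3
          exact h3
        have h3 := num2 (J := q + r) hts hJℓ (kk_le hr)
        rw [← hK] at h3
        have h4 : (96 : ℝ) * t * ((q + r : ℕ) : ℝ) * s ^ 2 * (8 * s * K) ≤
            Real.exp (Lam s : ℝ) := by
          have h5 : (((96 * t * (q + r) * s ^ 2 * (8 * s * K) : ℕ)) : ℝ) ≤
            ((2 ^ Lam s : ℕ) : ℝ) := Nat.cast_le.2 h3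
          rw [Nat.cast_pow 2] at h5
          refine le_trans (le_of_eq ?_) (h5.trans (by exact_mod_cast two_pow_le_exp _))
          push_cast
          ring
        have h12 : (#(S i) : ℝ) ≤ s := by exact_mod_cast hsz i
        have h13 : (#(S i) : ℝ) ^ 2 ≤ (s : ℝ) ^ 2 := pow_le_pow_left₀ (Nat.cast_nonneg _) h12 2
        rw [Real.exp_neg]
        have h14 : 96 * (t : ℝ) * ((q + r : ℕ) : ℝ) * (#(S i) : ℝ) ^ 2 ≤
            96 * t * ((q + r : ℕ) : ℝ) * s ^ 2 :=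
          mul_le_mul_of_nonneg_left h13 (by positivity)
        apply le_trans (mul_le_mul_of_nonneg_right h14 (inv_nonneg.2 (Real.exp_pos _).le))
        exact real2 (hLp (j + 1)) (hLp j) hs' hK0 h2 h4 (Real.exp_pos _)
      hΛ := by linarith
      hΛ3 := hΛ3 }
  -- bound for the thresholds
  have hk1 : (kk s r 1 : ℝ) = 2 * ((Nat.log 2)^[r + 1] s : ℕ) + 24 := by
    have : kk s r 1 = 2 * (Nat.log 2)^[r + 1] s + 24 := by
      unfold kk lam
      have h1 : r + 2 - 1 = r + 1 := by omega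
      rw [h1]
    rw [this, Nat.cast_add, Nat.cast_mul]
    norm_num
  obtain ⟨lam1, hlam1⟩ : ∃ x : ℝ, x = (((Nat.log 2)^[r + 1] s : ℕ) : ℝ) := ⟨_, rfl⟩
  have hlam0 : 0 ≤ lam1 := by
    rw [hlam1]
    exact Nat.cast_nonneg _
  rw [← hlam1] at hk1
  have hk1' : √(t * (kk s r 1 : ℝ)) ≤ √t * (2 * √lam1 + 5) := by
    rw [Real.sqrt_mul ht'.le]
    apply mul_le_mul_of_nonneg_left _ (Real.sqrt_nonneg _)
    rw [hk1]
    apply Real.sqrt_le_iff.2
    have h1 : √lam1 ^ 2 = lam1 := Real.sq_sqrt hlam0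
    have h2 := Real.sqrt_nonneg lam1
    constructor
    · positivity
    · nlinarith
  have hJt : ((q + r : ℕ) : ℝ) ≤ √t := by
    have h1 : ((q + r : ℕ) : ℝ) ≤ Lam s := by
      have : q + r ≤ Lam s := by
        unfold Lam
        nlinarith
      exact_mod_cast this
    have h2 : 4096 * (Lam s : ℝ) * 4 ≤ 4096 * (Lam s : ℝ) * K :=
      mul_le_mul_of_nonneg_left hK4' (by linarith)
    linarith
  obtain ⟨χ, hχ1, hχ2⟩ := H.core hsz hs1 hlvJ hexp (fun i j h1 h2 h3 => (hlv i j h1 h2).2 h3) (by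
    have hLJ : LL s q r R (q + r) = 4 * R ^ q * K := by
      rw [LL_phase2 hr1, hK]
    rw [hLJ]
    have h1 : (Lam s : ℝ) ≤ K := by
      rw [hK]
      exact_mod_cast num4 (s := s) r
    have h2 : (s : ℝ) ≤ (R : ℝ) ^ q * t := by exact_mod_cast hs
    have h3 : (16 : ℝ) * t ≤ (M : ℝ) ^ 2 := by
      calc (16 : ℝ) * t = (4 * √t) ^ 2 := by
            rw [mul_pow, hsq]
            norm_num
        _ ≤ _ := pow_le_pow_left₀ (by positivity) hM4 2
    have hRq : (0 : ℝ) < (R : ℝ) ^ q := by positivity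
    push_cast
    calc 32 * (Lam s : ℝ) * s ≤ 32 * (K : ℝ) * ((R : ℝ) ^ q * t) :=
          mul_le_mul (by linarith) h2 hs'.le (by positivity)
      _ = 2 * (R : ℝ) ^ q * K * (16 * t) := by ring
      _ ≤ 2 * (R : ℝ) ^ q * K * (M : ℝ) ^ 2 := mul_le_mul_of_nonneg_left h3 (by positivity)
      _ ≤ 4 * (R : ℝ) ^ q * K * (M : ℝ) ^ 2 := by
          have : 0 ≤ (R : ℝ) ^ q * K * (M : ℝ) ^ 2 := by positivity
          nlinarith)
    (B := 55296 * ((R : ℝ) ^ 2 * √t) + (16 * √(t * kk s r 1) + 16 * √t) + ((q + r : ℕ) : ℝ))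
    (by positivity) (by
    intro i j h1 h2 h3
    have hσ : 0 < #(S i) := hσpos i j h3
    rw [hTact i j (Or.inr h3), Nat.cast_sum]
    calc ∑ l ∈ range j, ((⌈τ l i⌉₊ : ℕ) : ℝ) ≤ ∑ l ∈ range j, (τ l i + 1) := by
          apply Finset.sum_le_sum
          intro l _
          exact (Nat.ceil_lt_add_one (tau_nonneg _ _)).le
      _ ≤ ∑ l ∈ range (q + r), (τ l i + 1) := by
          apply Finset.sum_le_sum_of_subset_of_nonneg
          · exact Finset.range_mono (by omega)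
          · intro l _ _
            have : 0 ≤ τ l i := tau_nonneg _ _
            linarith
      _ = ∑ l ∈ range q, τ l i + ∑ m ∈ range r, τ (q + m) i + ((q + r : ℕ) : ℝ) := by
          rw [Finset.sum_add_distrib, Finset.sum_range_add, Finset.sum_const, card_range,
            nsmul_eq_mul, mul_one]
      _ ≤ _ := by
          have h5 := sum_tau1 (s := s) (q := q) (r := r) ht1 hR hσ
          have h6 := sum_tau2 (s := s) (q := q) (r := r) ht1 hR hσ (hsz i) hs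
            (show r ≤ r + 1 by omega)
          have h7 : ∑ l ∈ range q, τ l i = ∑ l ∈ range q, tau t s q r R #(S i) l := rfl
          have h8 : ∑ m ∈ range r, τ (q + m) i =
            ∑ m ∈ range r, tau t s q r R #(S i) (q + m) := rfl
          rw [h7, h8]
          linarith)
  refine ⟨χ, hχ1, fun i => (hχ2 i).trans ?_⟩
  rw [← hlam1]
  have hR1 : (1 : ℝ) ≤ (R : ℝ) ^ 2 := by nlinarith
  have h1 : √(t : ℝ) ≤ (R : ℝ) ^ 2 * √t := by nlinarith
  have h2 := Real.sqrt_nonneg lam1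
  have h3 : 0 ≤ √(t : ℝ) * √lam1 := by positivity
  have h4 : 55296 * ((R : ℝ) ^ 2 * √t) + (16 * √(t * kk s r 1) + 16 * √t) + ((q + r : ℕ) : ℝ) +
      5 * M ≤ 55296 * ((R : ℝ) ^ 2 * √t) + (16 * (√t * (2 * √lam1 + 5)) + 16 * √t) + √t +
        5 * (2 * (R : ℝ) ^ 2 * √t) := by linarith
  apply h4.trans
  have h5 : 0 ≤ (R : ℝ) ^ 2 * √t := by positivity
  nlinarith

end main

end Pool.Agent.Helper18.HG
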