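import Pool.Agent.Helper18.BGMoment

open Finset

namespace Pool.Agent.Helper18.HG

open Pool.Agent.Helper18.BG (avR avR_sum avR_mul_left avR_add avR_mono avR_nonneg avR_const)

/-- Positive part. -/
noncomputable def pp (y : ℝ) : ℝ := max y 0

lemma pp_nonneg (y : ℝ) : 0 ≤ pp y := le_max_right _ _

lemma le_pp (y : ℝ) : y ≤ pp y := le_max_left _ _

lemma pp_mono {x y : ℝ} (h : x ≤ y) : pp x ≤ pp y := max_le_max_right _ h

lemma pp_of_nonneg {y : ℝ} (h : 0 ≤ y) : pp y = y := max_eq_left h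

lemma pp_of_nonpos {y : ℝ} (h : y ≤ 0) : pp y = 0 := max_eq_right h

lemma pp_add_le (x y : ℝ) : pp (x + y) ≤ pp x + pp y := by
  apply max_le
  · exact add_le_add (le_pp x) (le_pp y)
  · exact add_nonneg (pp_nonneg x) (pp_nonneg y)

lemma pp_mul {c : ℝ} (hc : 0 ≤ c) (y : ℝ) : pp (c * y) = c * pp y := by
  unfold pp
  rw [mul_max_of_nonneg _ _ hc, mul_zero]

lemma pp_sq_le_exp {θ : ℝ} (hθ : 0 < θ) (y : ℝ) : pp y ^ 2 ≤ 2 / θ ^ 2 * Real.exp (θ * y) := by
  rcases le_or_gt y 0 with h | h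
  · rw [pp_of_nonpos h]
    have := Real.exp_pos (θ * y)
    have : 0 ≤ 2 / θ ^ 2 * Real.exp (θ * y) := by positivity
    simpa using this
  · rw [pp_of_nonneg h.le]
    have h1 := Real.quadratic_le_exp_of_nonneg (show 0 ≤ θ * y by positivity)
    have h2 : (θ * y) ^ 2 / 2 ≤ Real.exp (θ * y) := by
      have : 0 ≤ θ * y := by positivity
      linarith
    calc y ^ 2 = 2 / θ ^ 2 * ((θ * y) ^ 2 / 2) := by field_simp
      _ ≤ _ := by gcongr

lemma exp_three_half : Real.exp (3 / 2) ≤ 9 / 2 := by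
  have h1 : Real.exp (3 / 2) ^ 2 = Real.exp 1 ^ 3 := by
    rw [← Real.exp_nat_mul, ← Real.exp_nat_mul]
    norm_num
  have h2 := Real.exp_one_lt_d9
  have h3 := Real.exp_pos 1
  have h4 : Real.exp 1 ^ 3 ≤ 2.7182818286 ^ 3 := pow_le_pow_left₀ h3.le h2.le 3
  have h5 := Real.exp_pos (3 / 2)
  nlinarith

section tail

variable {Ω : Type*} [Fintype Ω]

/-- Truncated second moment of a subgaussian function. -/
lemma tail_sq (N : Ω → ℝ) {σ : ℝ} (hσ : 0 < σ)
    (hN : ∀ θ : ℝ, avR (fun ω => Real.exp (θ * N ω)) ≤ Real.exp (θ ^ 2 * σ)) {u : ℝ} (hu : 0 ≤ u) :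
    avR (fun ω => pp (|N ω| - u) ^ 2) ≤ 18 * σ * Real.exp (-(u ^ 2 / (8 * σ))) := by
  have key : ∀ θ : ℝ, 0 < θ → avR (fun ω => pp (|N ω| - u) ^ 2) ≤
      4 / θ ^ 2 * Real.exp (θ ^ 2 * σ - θ * u) := by
    intro θ hθ
    have h1 : avR (fun ω => pp (|N ω| - u) ^ 2) ≤
        avR (fun ω => 2 / θ ^ 2 * Real.exp (-(θ * u)) * (Real.exp (θ * N ω) + Real.exp (-θ * N ω))) := by
      apply avR_mono
      intro ω
      apply (pp_sq_le_exp hθ _).trans
      have h2 : Real.exp (θ * (|N ω| - u)) = Real.exp (-(θ * u)) * Real.exp (θ * |N ω|) := by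
        rw [← Real.exp_add]
        congr 1
        ring
      have h3 : Real.exp (θ * |N ω|) ≤ Real.exp (θ * N ω) + Real.exp (-θ * N ω) := by
        rcases abs_cases (N ω) with ⟨h, _⟩ | ⟨h, _⟩
        · rw [h]
          have := Real.exp_pos (-θ * N ω)
          linarith
        · rw [h]
          have h4 : θ * -N ω = -θ * N ω := by ring
          rw [h4]
          have := Real.exp_pos (θ * N ω)
          linarith
      rw [h2]
      calc 2 / θ ^ 2 * (Real.exp (-(θ * u)) * Real.exp (θ * |N ω|)) =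
          2 / θ ^ 2 * Real.exp (-(θ * u)) * Real.exp (θ * |N ω|) := by ring
        _ ≤ _ := by gcongr
    apply h1.trans
    rw [avR_mul_left, avR_add]
    have h4 := hN θ
    have h5 := hN (-θ)
    rw [neg_sq] at h5
    calc 2 / θ ^ 2 * Real.exp (-(θ * u)) * (avR (fun ω => Real.exp (θ * N ω)) +
        avR (fun ω => Real.exp (-θ * N ω))) ≤
        2 / θ ^ 2 * Real.exp (-(θ * u)) * (Real.exp (θ ^ 2 * σ) + Real.exp (θ ^ 2 * σ)) := by
          gcongr
      _ = 4 / θ ^ 2 * (Real.exp (-(θ * u)) * Real.exp (θ ^ 2 * σ)) := by ring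
      _ = _ := by
        rw [← Real.exp_add]
        congr 2
        ring
  have hsq : √σ ^ 2 = σ := Real.sq_sqrt hσ.le
  have hs0 : 0 < √σ := Real.sqrt_pos.2 hσ
  rcases le_or_gt (2 * √σ) u with h | h
  · have hu0 : 0 < u := by linarith
    have h1 := key (u / (2 * σ)) (by positivity)
    apply h1.trans
    have h2 : 4 / (u / (2 * σ)) ^ 2 = 16 * σ ^ 2 / u ^ 2 := by
      field_simp
      norm_num
    have h3 : (u / (2 * σ)) ^ 2 * σ - u / (2 * σ) * u = -(u ^ 2 / (4 * σ)) := by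
      field_simp
      ring
    rw [h2, h3]
    have h4 : 16 * σ ^ 2 / u ^ 2 ≤ 18 * σ := by
      rw [div_le_iff₀ (by positivity)]
      have : 4 * σ ≤ u ^ 2 := by nlinarith
      nlinarith
    have h5 : Real.exp (-(u ^ 2 / (4 * σ))) ≤ Real.exp (-(u ^ 2 / (8 * σ))) := by
      apply Real.exp_le_exp.2
      apply neg_le_neg
      apply div_le_div_of_nonneg_left (by positivity) (by positivity)
      linarith
    exact mul_le_mul h4 h5 (Real.exp_pos _).le (by positivity)
  · have h1 := key (1 / √σ) (by positivity)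
    apply h1.trans
    have h2 : 4 / (1 / √σ) ^ 2 = 4 * σ := by
      rw [div_pow, hsq]
      field_simp
    have h3 : (1 / √σ) ^ 2 * σ - 1 / √σ * u ≤ 1 := by
      rw [div_pow, hsq]
      have h4 : 0 ≤ 1 / √σ * u := by positivity
      have h5 : 1 ^ 2 / σ * σ = 1 := by field_simp
      rw [h5]
      linarith
    rw [h2]
    have h6 : u ^ 2 / (8 * σ) ≤ 1 / 2 := by
      rw [div_le_iff₀ (by positivity)]
      nlinarith
    calc 4 * σ * Real.exp ((1 / √σ) ^ 2 * σ - 1 / √σ * u) ≤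
        4 * σ * (Real.exp (3 / 2) * Real.exp (-(u ^ 2 / (8 * σ)))) := by
          apply mul_le_mul_of_nonneg_left _ (by positivity)
          rw [← Real.exp_add]
          apply Real.exp_le_exp.2
          linarith
      _ ≤ 4 * σ * (9 / 2 * Real.exp (-(u ^ 2 / (8 * σ)))) := by
          gcongr
          exact exp_three_half
      _ = _ := by ring

/-- Tail probability in the form of a mean. -/
lemma tail_prob (N : Ω → ℝ) {σ : ℝ} (hσ : 0 < σ)
    (hN : ∀ θ : ℝ, avR (fun ω => Real.exp (θ * N ω)) ≤ Real.exp (θ ^ 2 * σ)) {L : ℝ} (hL : 0 ≤ L)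
    (A : Ω → ℝ) (hA : ∀ ω, A ω ≤ 1) (hA' : ∀ ω, |N ω| ≤ 2 * √(σ * L) → A ω ≤ 0) :
    avR A ≤ 2 * Real.exp (-L) := by
  have hsq : √(σ * L) ^ 2 = σ * L := Real.sq_sqrt (by positivity)
  set u := √(σ * L) with hu
  have hu0 : 0 ≤ u := Real.sqrt_nonneg _
  set θ := u / σ with hθ
  have hθ0 : 0 ≤ θ := by positivity
  have h1 : avR A ≤ avR (fun ω => Real.exp (-(θ * (2 * u))) * (Real.exp (θ * N ω) +
      Real.exp (-θ * N ω))) := by
    apply avR_mono
    intro ω
    rcases le_or_gt (|N ω|) (2 * u) with h | h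
    · apply (hA' ω h).trans
      positivity
    · apply (hA ω).trans
      have h2 : Real.exp (θ * |N ω|) ≤ Real.exp (θ * N ω) + Real.exp (-θ * N ω) := by
        rcases abs_cases (N ω) with ⟨h, _⟩ | ⟨h, _⟩
        · rw [h]
          have := Real.exp_pos (-θ * N ω)
          linarith
        · rw [h]
          have h4 : θ * -N ω = -θ * N ω := by ring
          rw [h4]
          have := Real.exp_pos (θ * N ω)
          linarith
      calc 1 ≤ Real.exp (-(θ * (2 * u))) * Real.exp (θ * |N ω|) := by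
            rw [← Real.exp_add]
            apply Real.one_le_exp
            have := mul_le_mul_of_nonneg_left h.le hθ0
            linarith
        _ ≤ _ := by gcongr
  apply h1.trans
  rw [avR_mul_left, avR_add]
  have h4 := hN θ
  have h5 := hN (-θ)
  rw [neg_sq] at h5
  calc Real.exp (-(θ * (2 * u))) * (avR (fun ω => Real.exp (θ * N ω)) +
      avR (fun ω => Real.exp (-θ * N ω))) ≤
      Real.exp (-(θ * (2 * u))) * (Real.exp (θ ^ 2 * σ) + Real.exp (θ ^ 2 * σ)) := by gcongr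
    _ = 2 * (Real.exp (-(θ * (2 * u))) * Real.exp (θ ^ 2 * σ)) := by ring
    _ = 2 * Real.exp (-L) := by
      rw [← Real.exp_add]
      congr 2
      rw [hθ]
      field_simp
      rw [hsq]
      ring

end tail

end Pool.Agent.Helper18.HG
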