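import Pool.Agent.Helper18.HGDrift
import Pool.Agent.Helper18.HGTail

open Finset

set_option linter.unusedSectionVars false

namespace Pool.Agent.Helper18.HG

open Pool.Agent.Helper18.BG (avR avR_sum avR_mul_left avR_add avR_mono avR_nonneg avR_const)

lemma cast_sub_eq_pp (a b : ℕ) : ((a - b : ℕ) : ℝ) = pp ((a : ℝ) - b) := by
  rcases le_total b a with h | h
  · rw [Nat.cast_sub h, pp_of_nonneg]
    have : (b : ℝ) ≤ a := by exact_mod_cast h
    linarith
  · rw [Nat.sub_eq_zero_of_le h, pp_of_nonpos]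
    · simp
    · have : (a : ℝ) ≤ b := by exact_mod_cast h
      linarith

section moment

variable {V I : Type*} [Fintype V] [DecidableEq V] [Fintype I] [DecidableEq I]
  (S : I → Finset V) (lv : V → ℕ) (T : ℕ → I → ℕ) {Q : ℕ} [NeZero Q]

lemma abs_sign_le (z : ℤ) : |z.sign| ≤ 1 := by
  rcases Int.sign_trichotomy z with h | h | h <;> rw [h] <;> norm_num

lemma abs_D_le (j : ℕ) (ω : V → Fin Q) (i : I) :
    |D S lv T j ω i| ≤ #((S i).filter fun x => lv x < j) := by
  induction j with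
  | zero =>
    simp [D]
  | succ j ih =>
    rw [D_succ]
    have h1 : |∑ x ∈ lev S lv i j, col S lv T j ω x| ≤ #(lev S lv i j) := by
      apply (Finset.abs_sum_le_sum_abs _ _).trans
      calc ∑ x ∈ lev S lv i j, |col S lv T j ω x| ≤ ∑ x ∈ lev S lv i j, (1 : ℤ) :=
            Finset.sum_le_sum (fun x _ => abs_sign_le _)
        _ = _ := by simp
    have h2 : #((S i).filter fun x => lv x < j + 1) =
        #((S i).filter fun x => lv x < j) + #(lev S lv i j) := by
      unfold lev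
      rw [← Finset.card_union_of_disjoint]
      · congr 1
        ext x
        simp only [mem_filter, mem_union]
        constructor
        · rintro ⟨h, h'⟩
          rcases Nat.lt_succ_iff_lt_or_eq.1 h' with h3 | h3
          · exact Or.inl ⟨h, h3⟩
          · exact Or.inr ⟨h, h3⟩
        · rintro (⟨h, h'⟩ | ⟨h, h'⟩)
          · exact ⟨h, by omega⟩
          · exact ⟨h, by omega⟩
      · rw [Finset.disjoint_left]
        intro x hx hx'
        rw [mem_filter] at hx hx'
        omega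
    rw [h2]
    push_cast
    exact (abs_add_le _ _).trans (add_le_add ih h1)

lemma natAbs_D_le (j : ℕ) (ω : V → Fin Q) (i : I) : (D S lv T j ω i).natAbs ≤ #(S i) := by
  have h1 := abs_D_le S lv T j ω i
  have h2 : #((S i).filter fun x => lv x < j) ≤ #(S i) := Finset.card_filter_le _ _
  rw [Int.abs_eq_natAbs] at h1
  omega

/-- The excess over the threshold. -/
def ex (i : I) (j : ℕ) (ω : V → Fin Q) : ℕ := (D S lv T j ω i).natAbs - T j i

open Classical in
/-- Indicator of the event that all previous excesses could be corrected. -/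
noncomputable def Gd (i : I) (j : ℕ) (ω : V → Fin Q) : ℝ :=
  if ∀ l < j, ex S lv T i l ω ≤ nn S lv i l / 2 then 1 else 0

/-- Truncated second moments of the excess. -/
noncomputable def phi (Q : ℕ) (i : I) (j : ℕ) (z : ℝ) : ℝ :=
  avR (fun ω : V → Fin Q => Gd S lv T i j ω * pp ((ex S lv T i j ω : ℝ) - z) ^ 2)

lemma Gd_nonneg (i : I) (j : ℕ) (ω : V → Fin Q) : 0 ≤ Gd S lv T i j ω := by
  unfold Gd
  split_ifs <;> norm_num

lemma Gd_le_one (i : I) (j : ℕ) (ω : V → Fin Q) : Gd S lv T i j ω ≤ 1 := by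
  unfold Gd
  split_ifs <;> norm_num

lemma Gd_succ_le (i : I) (j : ℕ) (ω : V → Fin Q) : Gd S lv T i (j + 1) ω ≤ Gd S lv T i j ω := by
  by_cases h : ∀ l < j + 1, ex S lv T i l ω ≤ nn S lv i l / 2
  · have h1 : Gd S lv T i j ω = 1 := if_pos (fun l hl => h l (by omega))
    rw [h1]
    exact Gd_le_one S lv T i (j + 1) ω
  · have h1 : Gd S lv T i (j + 1) ω = 0 := if_neg h
    rw [h1]
    exact Gd_nonneg S lv T i j ω

/-- One step, pointwise. -/
lemma ex_step (i : I) (j : ℕ) {δ τ : ℝ} (hT : (T j i : ℝ) + τ ≤ T (j + 1) i) (ω : V → Fin Q)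
    (hq : |(D S lv T j ω i : ℝ) + mu S lv T Q i j (D S lv T j ω i)| ≤
      T j i + δ * (ex S lv T i j ω : ℝ)) :
    (ex S lv T i (j + 1) ω : ℝ) ≤ pp (δ * (ex S lv T i j ω : ℝ) + |Nz S lv T i j ω| - τ) := by
  have h1 : (ex S lv T i (j + 1) ω : ℝ) =
      pp (|(D S lv T (j + 1) ω i : ℝ)| - T (j + 1) i) := by
    unfold ex
    rw [cast_sub_eq_pp]
    congr 2
    rw [← Int.cast_abs, Int.abs_eq_natAbs, Int.cast_natCast]
  rw [h1]
  apply pp_mono
  have h2 : (D S lv T (j + 1) ω i : ℝ) =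
      ((D S lv T j ω i : ℝ) + mu S lv T Q i j (D S lv T j ω i)) + Nz S lv T i j ω := by
    unfold Nz
    ring
  have h3 := abs_add_le ((D S lv T j ω i : ℝ) + mu S lv T Q i j (D S lv T j ω i))
    (Nz S lv T i j ω)
  rw [← h2] at h3
  linarith

/-- One step for the truncated second moments. -/
lemma phi_step (i : I) (j : ℕ) {δ τ ν z : ℝ} (hδ : 0 < δ) (hτ : 0 ≤ τ) (hν : 0 < ν) (hz : 0 ≤ z)
    (hT : (T j i : ℝ) + τ ≤ T (j + 1) i)
    (hN : ∀ θ : ℝ, avR (fun ω : V → Fin Q => Real.exp (θ * Nz S lv T i j ω)) ≤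
      Real.exp (θ ^ 2 * (2 * ν)))
    (hq : ∀ ω : V → Fin Q, ex S lv T i j ω ≤ nn S lv i j / 2 →
      |(D S lv T j ω i : ℝ) + mu S lv T Q i j (D S lv T j ω i)| ≤
      T j i + δ * (ex S lv T i j ω : ℝ)) :
    phi S lv T Q i (j + 1) z ≤ 2 * δ ^ 2 * phi S lv T Q i j ((τ + z) / 2 / δ) +
      72 * ν * Real.exp (-((τ + z) ^ 2 / (64 * ν))) := by
  set w := (τ + z) / 2 with hw
  have hw0 : 0 ≤ w := by positivity
  have h1 : ∀ ω : V → Fin Q, Gd S lv T i (j + 1) ω * pp ((ex S lv T i (j + 1) ω : ℝ) - z) ^ 2 ≤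
      2 * δ ^ 2 * (Gd S lv T i j ω * pp ((ex S lv T i j ω : ℝ) - w / δ) ^ 2) +
      2 * pp (|Nz S lv T i j ω| - w) ^ 2 := by
    intro ω
    by_cases hg : ∀ l < j + 1, ex S lv T i l ω ≤ nn S lv i l / 2
    · have hG : Gd S lv T i (j + 1) ω = 1 := if_pos hg
      have hG' : Gd S lv T i j ω = 1 := if_pos (fun l hl => hg l (by omega))
      rw [hG, hG', one_mul, one_mul]
      have h2 := ex_step S lv T i j hT ω (hq ω (hg j (by omega)))
      have h3 : pp ((ex S lv T i (j + 1) ω : ℝ) - z) ≤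
          δ * pp ((ex S lv T i j ω : ℝ) - w / δ) + pp (|Nz S lv T i j ω| - w) := by
        have h4 : (ex S lv T i (j + 1) ω : ℝ) - z ≤
            pp (δ * (ex S lv T i j ω : ℝ) + |Nz S lv T i j ω| - τ) - z := by linarith
        apply (pp_mono h4).trans
        apply max_le
        · have h5 : pp (δ * (ex S lv T i j ω : ℝ) + |Nz S lv T i j ω| - τ) - z ≤
              pp (δ * (ex S lv T i j ω : ℝ) + |Nz S lv T i j ω| - τ - z) := by
            rcases le_total 0 (δ * (ex S lv T i j ω : ℝ) + |Nz S lv T i j ω| - τ) with h | h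
            · rw [pp_of_nonneg h]
              exact le_pp _
            · rw [pp_of_nonpos h]
              have := pp_nonneg (δ * (ex S lv T i j ω : ℝ) + |Nz S lv T i j ω| - τ - z)
              linarith
          apply h5.trans
          have h6 : δ * (ex S lv T i j ω : ℝ) + |Nz S lv T i j ω| - τ - z =
              δ * ((ex S lv T i j ω : ℝ) - w / δ) + (|Nz S lv T i j ω| - w) := by
            have : δ * (w / δ) = w := by field_simp
            rw [mul_sub, this, hw]
            ring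
          rw [h6]
          apply (pp_add_le _ _).trans
          rw [pp_mul hδ.le]
        · have := pp_nonneg ((ex S lv T i j ω : ℝ) - w / δ)
          have := pp_nonneg (|Nz S lv T i j ω| - w)
          positivity
      have h7 := pp_nonneg ((ex S lv T i (j + 1) ω : ℝ) - z)
      have h8 := pp_nonneg ((ex S lv T i j ω : ℝ) - w / δ)
      have h9 := pp_nonneg (|Nz S lv T i j ω| - w)
      calc pp ((ex S lv T i (j + 1) ω : ℝ) - z) ^ 2 ≤
          (δ * pp ((ex S lv T i j ω : ℝ) - w / δ) + pp (|Nz S lv T i j ω| - w)) ^ 2 :=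
            pow_le_pow_left₀ h7 h3 2
        _ ≤ _ := by
            nlinarith [sq_nonneg (δ * pp ((ex S lv T i j ω : ℝ) - w / δ) -
              pp (|Nz S lv T i j ω| - w))]
    · have hG : Gd S lv T i (j + 1) ω = 0 := if_neg hg
      rw [hG, zero_mul]
      have := Gd_nonneg S lv T i j ω
      positivity
  have h2 := tail_sq (fun ω : V → Fin Q => Nz S lv T i j ω) (show 0 < 2 * ν by positivity) hN hw0
  calc phi S lv T Q i (j + 1) z ≤ avR (fun ω : V → Fin Q =>
      2 * δ ^ 2 * (Gd S lv T i j ω * pp ((ex S lv T i j ω : ℝ) - w / δ) ^ 2) +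
      2 * pp (|Nz S lv T i j ω| - w) ^ 2) := avR_mono h1
    _ = 2 * δ ^ 2 * phi S lv T Q i j (w / δ) +
        2 * avR (fun ω : V → Fin Q => pp (|Nz S lv T i j ω| - w) ^ 2) := by
        rw [avR_add, avR_mul_left, avR_mul_left]
        rfl
    _ ≤ 2 * δ ^ 2 * phi S lv T Q i j (w / δ) +
        2 * (18 * (2 * ν) * Real.exp (-(w ^ 2 / (8 * (2 * ν))))) := by gcongr
    _ = _ := by
        have : w ^ 2 / (8 * (2 * ν)) = (τ + z) ^ 2 / (64 * ν) := by
          rw [hw]
          field_simp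
          ring
        rw [this]
        ring

/-- The truncated second moments stay small. -/
lemma phi_bound (i : I) (δ τ ν : ℕ → ℝ) (j : ℕ)
    (hδ : ∀ l, 0 < δ l) (hτ : ∀ l, 0 ≤ τ l) (hν : ∀ l, 0 < ν l)
    (hT : ∀ l ≤ j, (T l i : ℝ) + τ l ≤ T (l + 1) i)
    (hN : ∀ l ≤ j, ∀ θ : ℝ, avR (fun ω : V → Fin Q => Real.exp (θ * Nz S lv T i l ω)) ≤
      Real.exp (θ ^ 2 * (2 * ν l)))
    (hq : ∀ l ≤ j, ∀ ω : V → Fin Q, ex S lv T i l ω ≤ nn S lv i l / 2 →
      |(D S lv T l ω i : ℝ) + mu S lv T Q i l (D S lv T l ω i)| ≤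
      T l i + δ l * (ex S lv T i l ω : ℝ))
    (hd : ∀ l < j, 4 * δ (l + 1) ^ 2 * ν l ≤ ν (l + 1)) :
    ∀ z : ℝ, 0 ≤ z → phi S lv T Q i (j + 1) z ≤
      144 * ν j * Real.exp (-((τ j ^ 2 + z ^ 2) / (64 * ν j))) := by
  induction j with
  | zero =>
    intro z hz
    have h1 := phi_step S lv T i 0 (hδ 0) (hτ 0) (hν 0) hz (hT 0 le_rfl) (hN 0 le_rfl)
      (hq 0 le_rfl)
    have h2 : phi S lv T Q i 0 ((τ 0 + z) / 2 / δ 0) = 0 := by
      unfold phi
      have h3 : ∀ ω : V → Fin Q, Gd S lv T i 0 ω *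
          pp ((ex S lv T i 0 ω : ℝ) - (τ 0 + z) / 2 / δ 0) ^ 2 = 0 := by
        intro ω
        have h4 : ex S lv T i 0 ω = 0 := by
          unfold ex
          simp [D]
        rw [h4, pp_of_nonpos]
        · ring
        · have h5 := hτ 0
          have h6 := hδ 0
          have : 0 ≤ (τ 0 + z) / 2 / δ 0 := by positivity
          push_cast
          linarith
      have hne : Nonempty (V → Fin Q) := ⟨fun _ => 0⟩
      rw [funext h3, avR_const]
    rw [h2, mul_zero] at h1
    apply h1.trans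
    rw [zero_add]
    have h7 := hν 0
    have h8 := hτ 0
    have h9 : Real.exp (-((τ 0 + z) ^ 2 / (64 * ν 0))) ≤
        Real.exp (-((τ 0 ^ 2 + z ^ 2) / (64 * ν 0))) := by
      apply Real.exp_le_exp.2
      apply neg_le_neg
      apply div_le_div_of_nonneg_right _ (by positivity)
      nlinarith [mul_nonneg h8 hz]
    have h10 := Real.exp_pos (-((τ 0 ^ 2 + z ^ 2) / (64 * ν 0)))
    calc 72 * ν 0 * Real.exp (-((τ 0 + z) ^ 2 / (64 * ν 0))) ≤
        72 * ν 0 * Real.exp (-((τ 0 ^ 2 + z ^ 2) / (64 * ν 0))) := by gcongr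
      _ ≤ _ := by
        apply mul_le_mul_of_nonneg_right _ h10.le
        linarith
  | succ j ih =>
    intro z hz
    have ih' := ih (fun l hl => hT l (by omega)) (fun l hl => hN l (by omega))
      (fun l hl => hq l (by omega)) (fun l hl => hd l (by omega))
    have hδ1 := hδ (j + 1)
    have hτ1 := hτ (j + 1)
    have hν1 := hν (j + 1)
    have hν0 := hν j
    have h1 := phi_step S lv T i (j + 1) hδ1 hτ1 hν1 hz (hT (j + 1) le_rfl) (hN (j + 1) le_rfl)
      (hq (j + 1) le_rfl)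
    set w := (τ (j + 1) + z) / 2 with hw
    have hw0 : 0 ≤ w := by positivity
    have h2 := ih' (w / δ (j + 1)) (by positivity)
    have h3 := hd j (by omega)
    have h4 : Real.exp (-((τ j ^ 2 + (w / δ (j + 1)) ^ 2) / (64 * ν j))) ≤
        Real.exp (-((τ (j + 1) + z) ^ 2 / (64 * ν (j + 1)))) := by
      apply Real.exp_le_exp.2
      apply neg_le_neg
      have h5 : (τ (j + 1) + z) ^ 2 = 4 * w ^ 2 := by rw [hw]; ring
      rw [h5, div_le_div_iff₀ (by positivity) (by positivity)]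
      have h6 : 4 * w ^ 2 * ν j ≤ (w / δ (j + 1)) ^ 2 * ν (j + 1) := by
        calc 4 * w ^ 2 * ν j = (w / δ (j + 1)) ^ 2 * (4 * δ (j + 1) ^ 2 * ν j) := by
              field_simp
          _ ≤ _ := by gcongr
      have h7 : 0 ≤ τ j ^ 2 * ν (j + 1) := by positivity
      nlinarith
    have h8 : 2 * δ (j + 1) ^ 2 * phi S lv T Q i (j + 1) (w / δ (j + 1)) ≤
        72 * ν (j + 1) * Real.exp (-((τ (j + 1) + z) ^ 2 / (64 * ν (j + 1)))) := by
      calc 2 * δ (j + 1) ^ 2 * phi S lv T Q i (j + 1) (w / δ (j + 1)) ≤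
          2 * δ (j + 1) ^ 2 * (144 * ν j *
            Real.exp (-((τ (j + 1) + z) ^ 2 / (64 * ν (j + 1))))) := by
            apply mul_le_mul_of_nonneg_left _ (by positivity)
            apply h2.trans
            apply mul_le_mul_of_nonneg_left h4 (by positivity)
        _ = 72 * (4 * δ (j + 1) ^ 2 * ν j) *
            Real.exp (-((τ (j + 1) + z) ^ 2 / (64 * ν (j + 1)))) := by ring
        _ ≤ _ := by gcongr
    have h9 : Real.exp (-((τ (j + 1) + z) ^ 2 / (64 * ν (j + 1)))) ≤
        Real.exp (-((τ (j + 1) ^ 2 + z ^ 2) / (64 * ν (j + 1)))) := by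
      apply Real.exp_le_exp.2
      apply neg_le_neg
      apply div_le_div_of_nonneg_right _ (by positivity)
      nlinarith [mul_nonneg hτ1 hz]
    calc phi S lv T Q i (j + 1 + 1) z ≤ _ := h1
      _ ≤ 72 * ν (j + 1) * Real.exp (-((τ (j + 1) + z) ^ 2 / (64 * ν (j + 1)))) +
          72 * ν (j + 1) * Real.exp (-((τ (j + 1) + z) ^ 2 / (64 * ν (j + 1)))) := by
          linarith
      _ = 144 * ν (j + 1) * Real.exp (-((τ (j + 1) + z) ^ 2 / (64 * ν (j + 1)))) := by ring
      _ ≤ _ := by gcongr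

/-- The probability of the bad event. -/
lemma bad_step (i : I) (j : ℕ) {ν Λ : ℝ} (hν : 0 < ν) (hΛ : 1 ≤ Λ)
    (hn : 1024 * ν * Λ ≤ (nn S lv i j : ℝ) ^ 2)
    (hphi : ∀ z : ℝ, 0 ≤ z → phi S lv T Q i j z ≤ 144 * ν * Real.exp (-(z ^ 2 / (64 * ν)))) :
    avR (fun ω : V → Fin Q => 1 - Gd S lv T i (j + 1) ω) ≤
      avR (fun ω : V → Fin Q => 1 - Gd S lv T i j ω) + 3 * Real.exp (-Λ) := by
  have hn0 : (0 : ℝ) < nn S lv i j := by
    rcases Nat.eq_zero_or_pos (nn S lv i j) with h | h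
    · rw [h] at hn
      have : 0 < 1024 * ν * Λ := by positivity
      norm_num at hn
      linarith
    · exact_mod_cast h
  set n : ℝ := (nn S lv i j : ℝ) with hnn
  have h1 : ∀ ω : V → Fin Q, 1 - Gd S lv T i (j + 1) ω ≤ (1 - Gd S lv T i j ω) +
      16 / n ^ 2 * (Gd S lv T i j ω * pp ((ex S lv T i j ω : ℝ) - n / 4) ^ 2) := by
    intro ω
    by_cases hg : ∀ l < j, ex S lv T i l ω ≤ nn S lv i l / 2
    · have hG : Gd S lv T i j ω = 1 := if_pos hg
      rw [hG, sub_self, zero_add, one_mul]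
      by_cases hj : ex S lv T i j ω ≤ nn S lv i j / 2
      · have hG' : Gd S lv T i (j + 1) ω = 1 := by
          apply if_pos
          intro l hl
          rcases Nat.lt_succ_iff_lt_or_eq.1 hl with h | h
          · exact hg l h
          · rw [h]
            exact hj
        rw [hG', sub_self]
        positivity
      · have h2 := Gd_nonneg S lv T i (j + 1) ω
        have h3 : nn S lv i j ≤ 2 * ex S lv T i j ω := by omega
        have h4 : n ≤ 2 * (ex S lv T i j ω : ℝ) := by
          rw [hnn]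
          exact_mod_cast h3
        have h5 : n / 4 ≤ pp ((ex S lv T i j ω : ℝ) - n / 4) := by
          apply le_trans _ (le_pp _)
          linarith
        have h6 : 1 ≤ 16 / n ^ 2 * pp ((ex S lv T i j ω : ℝ) - n / 4) ^ 2 := by
          calc 1 = 16 / n ^ 2 * (n / 4) ^ 2 := by
                field_simp
                norm_num
            _ ≤ _ := by gcongr
        linarith
    · have hG : Gd S lv T i j ω = 0 := if_neg hg
      have hG' : Gd S lv T i (j + 1) ω = 0 := by
        apply if_neg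
        intro h
        exact hg (fun l hl => h l (by omega))
      rw [hG, hG']
      simp
  calc avR (fun ω : V → Fin Q => 1 - Gd S lv T i (j + 1) ω) ≤
      avR (fun ω : V → Fin Q => (1 - Gd S lv T i j ω) +
      16 / n ^ 2 * (Gd S lv T i j ω * pp ((ex S lv T i j ω : ℝ) - n / 4) ^ 2)) := avR_mono h1
    _ = avR (fun ω : V → Fin Q => 1 - Gd S lv T i j ω) +
        16 / n ^ 2 * phi S lv T Q i j (n / 4) := by
        rw [avR_add, avR_mul_left]
        rfl
    _ ≤ _ := by
        have h2 := hphi (n / 4) (by positivity)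
        have h3 : Real.exp (-((n / 4) ^ 2 / (64 * ν))) ≤ Real.exp (-Λ) := by
          apply Real.exp_le_exp.2
          apply neg_le_neg
          rw [le_div_iff₀ (by positivity)]
          nlinarith
        have h4 : 16 / n ^ 2 * (144 * ν) ≤ 3 := by
          rw [div_mul_eq_mul_div, div_le_iff₀ (by positivity)]
          have : ν ≤ ν * Λ := by nlinarith
          nlinarith
        have h5 : 16 / n ^ 2 * phi S lv T Q i j (n / 4) ≤ 3 * Real.exp (-Λ) := by
          calc 16 / n ^ 2 * phi S lv T Q i j (n / 4) ≤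
              16 / n ^ 2 * (144 * ν * Real.exp (-((n / 4) ^ 2 / (64 * ν)))) := by gcongr
            _ ≤ 16 / n ^ 2 * (144 * ν * Real.exp (-Λ)) := by gcongr
            _ = 16 / n ^ 2 * (144 * ν) * Real.exp (-Λ) := by ring
            _ ≤ _ := by gcongr
        linarith

/-- The second moment of the excess. -/
lemma ex_sq_le (i : I) (j : ℕ) :
    avR (fun ω : V → Fin Q => (ex S lv T i j ω : ℝ) ^ 2) ≤ phi S lv T Q i j 0 +
      (#(S i) : ℝ) ^ 2 * avR (fun ω : V → Fin Q => 1 - Gd S lv T i j ω) := by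
  unfold phi
  rw [← avR_mul_left, ← avR_add]
  apply avR_mono
  intro ω
  rw [sub_zero, pp_of_nonneg (Nat.cast_nonneg _)]
  have h1 : (ex S lv T i j ω : ℝ) ≤ #(S i) := by
    have : ex S lv T i j ω ≤ #(S i) := (Nat.sub_le _ _).trans (natAbs_D_le S lv T j ω i)
    exact_mod_cast this
  have h2 : (ex S lv T i j ω : ℝ) ^ 2 ≤ (#(S i) : ℝ) ^ 2 :=
    pow_le_pow_left₀ (Nat.cast_nonneg _) h1 2
  have h3 := Gd_le_one S lv T i j ω
  have h4 : 0 ≤ 1 - Gd S lv T i j ω := by linarith
  nlinarith [mul_le_mul_of_nonneg_right h2 h4]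

end moment

end Pool.Agent.Helper18.HG
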