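import Pool.Agent.Helper18.HGProd

open Finset

set_option linter.unusedSectionVars false

namespace Pool.Agent.Helper18.HG

open Pool.Agent.Helper18.BG (avR avR_sum avR_mul_left avR_add avR_mono avR_nonneg avR_const)

/-- Truncation to `[-Q, Q]`. -/
def clip (Q : ℕ) (z : ℤ) : ℤ := max (-(Q : ℤ)) (min z Q)

/-- Odd value attached to a random number. -/
def ov {Q : ℕ} (q : Fin Q) : ℤ := 2 * ((q : ℕ) : ℤ) + 1 - Q

lemma clip_neg (Q : ℕ) (z : ℤ) : clip Q (-z) = -clip Q z := by
  unfold clip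
  omega

lemma clip_mono (Q : ℕ) {y z : ℤ} (h : y ≤ z) : clip Q y ≤ clip Q z := by
  unfold clip
  omega

lemma clip_sub_le (Q : ℕ) {y z : ℤ} (h : y ≤ z) : clip Q z - clip Q y ≤ z - y := by
  unfold clip
  omega

lemma clip_of_abs_le {Q : ℕ} {z : ℤ} (h : |z| ≤ Q) : clip Q z = z := by
  unfold clip
  rw [abs_le] at h
  omega

lemma abs_clip_le (Q : ℕ) (z : ℤ) : |clip Q z| ≤ Q := by
  unfold clip
  rw [abs_le]
  omega

lemma clip_even {Q : ℕ} (hQ : Even Q) {z : ℤ} (hz : Even z) : Even (clip Q z) := by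
  unfold clip
  have h1 : Even (Q : ℤ) := by exact_mod_cast hQ
  rcases max_choice (-(Q : ℤ)) (min z Q) with h | h <;> rw [h]
  · exact h1.neg
  · rcases min_choice z (Q : ℤ) with h2 | h2 <;> rw [h2]
    · exact hz
    · exact h1

lemma ov_rev {Q : ℕ} (q : Fin Q) : ov (Fin.rev q) = -ov q := by
  unfold ov
  rw [Fin.val_rev]
  have := q.2
  push_cast [Nat.cast_sub (show (q : ℕ) + 1 ≤ Q by omega)]
  ring

lemma sign_val {Q k : ℕ} (q : Fin Q) :
    ((2 * (k : ℤ) - Q) - ov q).sign = if (q : ℕ) < k then 1 else -1 := by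
  unfold ov
  split_ifs with h
  · rw [Int.sign_eq_one_of_pos]
    omega
  · rw [Int.sign_eq_neg_one_of_neg]
    omega

lemma sum_sign {Q k : ℕ} (hk : k ≤ Q) :
    ∑ q : Fin Q, ((2 * (k : ℤ) - Q) - ov q).sign = 2 * (k : ℤ) - Q := by
  rw [Finset.sum_congr rfl (fun q _ => sign_val (k := k) q)]
  rw [Fin.sum_univ_eq_sum_range (fun q => if q < k then (1 : ℤ) else -1) Q]
  rw [Finset.sum_ite, Finset.sum_const, Finset.sum_const]
  have h1 : (range Q).filter (fun q => q < k) = range k := by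
    ext q
    simp only [mem_filter, mem_range]
    omega
  have h2 : #((range Q).filter (fun q => ¬ q < k)) = Q - k := by
    have := Finset.card_filter_add_card_filter_not (s := range Q) (fun q => q < k)
    rw [h1, card_range, card_range] at this
    omega
  rw [h1, h2, card_range]
  simp only [nsmul_eq_mul, mul_one]
  push_cast [Nat.cast_sub hk]
  ring

/-- Averaging the sign over one coordinate. -/
lemma sum_sign_even {Q : ℕ} (hQ : Even Q) {B : ℤ} (hB : Even B) (hB' : |B| ≤ Q) :
    ∑ q : Fin Q, (B - ov q).sign = B := by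
  rw [abs_le] at hB'
  obtain ⟨k, hk⟩ : ∃ k : ℕ, B = 2 * (k : ℤ) - Q := by
    have h1 : Even (Q : ℤ) := by exact_mod_cast hQ
    obtain ⟨m, hm⟩ := hB.add h1
    refine ⟨m.toNat, ?_⟩
    have : 0 ≤ m := by omega
    rw [Int.toNat_of_nonneg this]
    omega
  rw [hk]
  exact sum_sign (by omega)

lemma sign_ne_zero_even {Q : ℕ} (hQ : Even Q) {B : ℤ} (hB : Even B) (q : Fin Q) :
    (B - ov q).sign = 1 ∨ (B - ov q).sign = -1 := by
  have h1 : Even (Q : ℤ) := by exact_mod_cast hQ
  obtain ⟨m, hm⟩ := hB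
  obtain ⟨l, hl⟩ := h1
  have h2 : B - ov q ≠ 0 := by
    unfold ov
    omega
  rcases lt_or_gt_of_ne h2 with h | h
  · right
    exact Int.sign_eq_neg_one_of_neg h
  · left
    exact Int.sign_eq_one_of_pos h

section proc

variable {V I : Type*} [Fintype V] [DecidableEq V] [Fintype I] [DecidableEq I]
  (S : I → Finset V) (lv : V → ℕ) (T : ℕ → I → ℕ) {Q : ℕ}

/-- Elements of level `j` in the set `i`. -/
def lev (i : I) (j : ℕ) : Finset V := (S i).filter (fun x => lv x = j)

/-- Number of elements of level `j` in the set `i`. -/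
def nn (i : I) (j : ℕ) : ℕ := #(lev S lv i j)

/-- Sets containing `x`. -/
def inc (x : V) : Finset I := Finset.univ.filter (fun i => x ∈ S i)

/-- Size of the correction. -/
def cor (i : I) (j : ℕ) (d : ℤ) : ℕ := min (d.natAbs - T j i) (nn S lv i j / 2)

/-- Bias asked for by the set `i` at level `j` when its current sum is `d`. -/
def al (Q : ℕ) (i : I) (j : ℕ) (d : ℤ) : ℤ :=
  -d.sign * ((cor S lv T i j d * (Q / nn S lv i j) : ℕ) : ℤ)

/-- The partial sums of the random colouring. -/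
def D : ℕ → (V → Fin Q) → I → ℤ
  | 0, _, _ => 0
  | j + 1, ω, i => D j ω i + ∑ x ∈ lev S lv i j,
      (clip Q (∑ a ∈ inc S x, al S lv T Q a j (D j ω a)) - ov (ω x)).sign

/-- Colour of an element of level `j`. -/
def col (j : ℕ) (ω : V → Fin Q) (x : V) : ℤ :=
  (clip Q (∑ a ∈ inc S x, al S lv T Q a j (D S lv T j ω a)) - ov (ω x)).sign

lemma D_succ (j : ℕ) (ω : V → Fin Q) (i : I) : D S lv T (j + 1) ω i =
    D S lv T j ω i + ∑ x ∈ lev S lv i j, col S lv T j ω x := rfl

lemma cor_neg (i : I) (j : ℕ) (d : ℤ) : cor S lv T i j (-d) = cor S lv T i j d := by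
  unfold cor
  rw [Int.natAbs_neg]

lemma al_neg (i : I) (j : ℕ) (d : ℤ) : al S lv T Q i j (-d) = -al S lv T Q i j d := by
  unfold al
  rw [cor_neg, Int.sign_neg]
  ring

lemma D_rev (j : ℕ) (ω : V → Fin Q) (i : I) :
    D S lv T j (fun v => Fin.rev (ω v)) i = -D S lv T j ω i := by
  induction j generalizing i with
  | zero => rfl
  | succ j ih =>
    rw [D_succ, D_succ, ih, neg_add, ← Finset.sum_neg_distrib]
    congr 1
    apply Finset.sum_congr rfl
    intro x _
    unfold col
    have h1 : ∑ a ∈ inc S x, al S lv T Q a j (D S lv T j (fun v => Fin.rev (ω v)) a) =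
        -∑ a ∈ inc S x, al S lv T Q a j (D S lv T j ω a) := by
      rw [← Finset.sum_neg_distrib]
      apply Finset.sum_congr rfl
      intro a _
      rw [ih, al_neg]
    rw [h1, clip_neg, ov_rev, ← Int.sign_neg]
    congr 1
    ring

lemma cor_le_half (i : I) (j : ℕ) (d : ℤ) : cor S lv T i j d ≤ nn S lv i j / 2 := min_le_right _ _

lemma cor_le_ex (i : I) (j : ℕ) (d : ℤ) : cor S lv T i j d ≤ d.natAbs - T j i := min_le_left _ _

lemma cor_mul_le (i : I) (j : ℕ) (d : ℤ) : 2 * (cor S lv T i j d * (Q / nn S lv i j)) ≤ Q := by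
  have h1 := cor_le_half S lv T i j d
  calc 2 * (cor S lv T i j d * (Q / nn S lv i j)) ≤
      2 * ((nn S lv i j / 2) * (Q / nn S lv i j)) := by gcongr
    _ = (2 * (nn S lv i j / 2)) * (Q / nn S lv i j) := by ring
    _ ≤ nn S lv i j * (Q / nn S lv i j) := by
        apply Nat.mul_le_mul_right
        omega
    _ ≤ Q := Nat.mul_div_le Q _

lemma abs_al (i : I) (j : ℕ) (d : ℤ) : |al S lv T Q i j d| ≤
    ((cor S lv T i j d * (Q / nn S lv i j) : ℕ) : ℤ) := by
  unfold al
  rw [abs_mul, abs_neg, Nat.abs_cast]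
  have h1 : |d.sign| ≤ 1 := by
    rcases Int.sign_trichotomy d with h | h | h <;> rw [h] <;> norm_num
  have h2 : (0 : ℤ) ≤ ((cor S lv T i j d * (Q / nn S lv i j) : ℕ) : ℤ) := Int.natCast_nonneg _
  nlinarith

lemma two_abs_al_le (i : I) (j : ℕ) (d : ℤ) : 2 * |al S lv T Q i j d| ≤ Q := by
  have h1 := abs_al S lv T (Q := Q) i j d
  have h2 : ((2 * (cor S lv T i j d * (Q / nn S lv i j)) : ℕ) : ℤ) ≤ (Q : ℤ) := by
    exact_mod_cast cor_mul_le S lv T (Q := Q) i j d
  push_cast at h1 h2
  linarith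

lemma al_zero_of_le (i : I) (j : ℕ) {d : ℤ} (h : d.natAbs ≤ T j i) : al S lv T Q i j d = 0 := by
  unfold al cor
  rw [Nat.sub_eq_zero_of_le h]
  simp

lemma al_even (hQ : ∀ i j, 0 < nn S lv i j → 2 * nn S lv i j ∣ Q) (i : I) (j : ℕ) (d : ℤ) :
    Even (al S lv T Q i j d) := by
  unfold al
  apply Even.mul_left
  rcases Nat.eq_zero_or_pos (nn S lv i j) with h | h
  · rw [h]
    simp
  · obtain ⟨k, hk⟩ := hQ i j h
    have h1 : Q / nn S lv i j = 2 * k := by
      rw [hk, mul_comm 2, mul_assoc]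
      exact Nat.mul_div_cancel_left _ h
    rw [h1]
    push_cast
    exact ⟨cor S lv T i j d * k, by ring⟩

lemma sum_al_even (hQ : ∀ i j, 0 < nn S lv i j → 2 * nn S lv i j ∣ Q) (s : Finset I) (j : ℕ)
    (d : I → ℤ) : Even (∑ a ∈ s, al S lv T Q a j (d a)) := by
  classical
  induction s using Finset.induction_on with
  | empty => simp
  | insert a s ha ih =>
    rw [Finset.sum_insert ha]
    exact (al_even S lv T hQ a j (d a)).add ih

/-- The coordinates which influence the sum of the set `i` after `j` levels. -/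
def Br : ℕ → I → Finset V
  | 0, _ => ∅
  | j + 1, i => Br j i ∪ (lev S lv i j).biUnion (fun x => insert x ((inc S x).biUnion (Br j)))

lemma Br_succ (j : ℕ) (i : I) : Br S lv (j + 1) i =
    Br S lv j i ∪ (lev S lv i j).biUnion (fun x => insert x ((inc S x).biUnion (Br S lv j))) := rfl

lemma mem_Br_succ {j : ℕ} {i : I} {y : V} : y ∈ Br S lv (j + 1) i ↔ y ∈ Br S lv j i ∨
    ∃ x ∈ lev S lv i j, y = x ∨ ∃ a ∈ inc S x, y ∈ Br S lv j a := by
  rw [Br_succ, mem_union, mem_biUnion]
  simp only [mem_insert, mem_biUnion]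

lemma lv_lt_of_mem_Br {j : ℕ} {i : I} {y : V} (h : y ∈ Br S lv j i) : lv y < j := by
  induction j generalizing i y with
  | zero => exact absurd h (Finset.notMem_empty y)
  | succ j ih =>
    rw [mem_Br_succ] at h
    rcases h with h | ⟨x, hx, h | ⟨a, _, h⟩⟩
    · have := ih h
      omega
    · rw [lev, mem_filter] at hx
      rw [h, hx.2]
      omega
    · have := ih h
      omega

lemma D_dep (j : ℕ) (i : I) : Dep (Br S lv j i : Set V) (fun ω : V → Fin Q => D S lv T j ω i) := by
  induction j generalizing i with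
  | zero => exact Dep.const _ _
  | succ j ih =>
    intro ω ω' h
    simp only
    rw [D_succ, D_succ]
    congr 1
    · apply ih
      intro v hv
      apply h v
      rw [mem_coe, mem_Br_succ]
      exact Or.inl hv
    · apply Finset.sum_congr rfl
      intro x hx
      unfold col
      have h1 : ω x = ω' x := h x (by
        rw [mem_coe, mem_Br_succ]
        exact Or.inr ⟨x, hx, Or.inl rfl⟩)
      have h2 : ∀ a ∈ inc S x, D S lv T j ω a = D S lv T j ω' a := by
        intro a ha
        apply ih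
        intro v hv
        apply h v
        rw [mem_coe, mem_Br_succ]
        exact Or.inr ⟨x, hx, Or.inr ⟨a, ha, hv⟩⟩
      rw [h1, Finset.sum_congr rfl (fun a ha => by rw [h2 a ha])]

end proc

end Pool.Agent.Helper18.HG
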