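import Pool.Agent.Helper18.BGMoment

open Finset

namespace Pool.Agent.Helper18.HG

open Pool.Agent.Helper18.BG (avR avR_sum avR_mul_left avR_add avR_mono avR_nonneg avR_const)

section dep

variable {V : Type*} {Q : ℕ}

/-- `f` depends only on the coordinates in `A`. -/
def Dep {β : Type*} (A : Set V) (f : (V → Fin Q) → β) : Prop :=
  ∀ ω ω' : V → Fin Q, (∀ v ∈ A, ω v = ω' v) → f ω = f ω'

lemma Dep.mono {β : Type*} {A B : Set V} {f : (V → Fin Q) → β} (h : Dep A f) (hAB : A ⊆ B) :
    Dep B f := fun ω ω' hv => h ω ω' (fun v hv' => hv v (hAB hv'))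

lemma Dep.comp {β γ : Type*} {A : Set V} {f : (V → Fin Q) → β} (h : Dep A f) (g : β → γ) :
    Dep A (fun ω => g (f ω)) := fun ω ω' hv => congrArg g (h ω ω' hv)

lemma Dep.comp₂ {β γ δ : Type*} {A B : Set V} {f : (V → Fin Q) → β} {g : (V → Fin Q) → γ}
    (hf : Dep A f) (hg : Dep B g) (k : β → γ → δ) : Dep (A ∪ B) (fun ω => k (f ω) (g ω)) := by
  intro ω ω' hv
  simp only
  rw [hf ω ω' (fun v hv' => hv v (Or.inl hv')), hg ω ω' (fun v hv' => hv v (Or.inr hv'))]

lemma Dep.const {β : Type*} (A : Set V) (c : β) : Dep A (fun _ : V → Fin Q => c) :=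
  fun _ _ _ => rfl

lemma Dep.sum {ι β : Type*} [AddCommMonoid β] (s : Finset ι) (A : Set V)
    (f : ι → (V → Fin Q) → β) (h : ∀ i ∈ s, Dep A (f i)) : Dep A (fun ω => ∑ i ∈ s, f i ω) := by
  intro ω ω' hv
  exact Finset.sum_congr rfl (fun i hi => h i hi ω ω' hv)

lemma Dep.prod {ι β : Type*} [CommMonoid β] (s : Finset ι) (A : Set V)
    (f : ι → (V → Fin Q) → β) (h : ∀ i ∈ s, Dep A (f i)) : Dep A (fun ω => ∏ i ∈ s, f i ω) := by
  intro ω ω' hv
  exact Finset.prod_congr rfl (fun i hi => h i hi ω ω' hv)

variable [Fintype V] [DecidableEq V] [NeZero Q]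

lemma card_pos' : (0 : ℝ) < (Fintype.card (V → Fin Q) : ℝ) := by
  have : Nonempty (V → Fin Q) := ⟨fun _ => 0⟩
  exact_mod_cast Fintype.card_pos

/-- Independence. -/
lemma avR_mul_of_dep {A B : Set V} (hAB : Disjoint A B) {f g : (V → Fin Q) → ℝ}
    (hf : Dep A f) (hg : Dep B g) : avR (fun ω => f ω * g ω) = avR f * avR g := by
  classical
  let sw : (V → Fin Q) × (V → Fin Q) → (V → Fin Q) × (V → Fin Q) := fun p =>
    (fun v => if v ∈ B then p.2 v else p.1 v, fun v => if v ∈ B then p.1 v else p.2 v)
  have hsw : Function.Involutive sw := by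
    intro p
    ext v <;> simp only [sw] <;> split_ifs <;> rfl
  have h1 : ∑ p : (V → Fin Q) × (V → Fin Q), f p.1 * g p.2 =
      ∑ p : (V → Fin Q) × (V → Fin Q), f (sw p).1 * g (sw p).2 :=
    (Equiv.sum_comp hsw.toPerm (fun p : (V → Fin Q) × (V → Fin Q) => f p.1 * g p.2)).symm
  have h2 : ∀ p : (V → Fin Q) × (V → Fin Q), f (sw p).1 * g (sw p).2 = f p.1 * g p.1 := by
    intro p
    have e1 : f (sw p).1 = f p.1 := by
      apply hf
      intro v hv
      simp only [sw]
      rw [if_neg (Set.disjoint_left.1 hAB hv)]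
    have e2 : g (sw p).2 = g p.1 := by
      apply hg
      intro v hv
      simp only [sw]
      rw [if_pos hv]
    rw [e1, e2]
  rw [Finset.sum_congr rfl (fun p _ => h2 p), Fintype.sum_prod_type, Fintype.sum_prod_type] at h1
  simp only [← Finset.mul_sum, ← Finset.sum_mul, Finset.sum_const, Finset.card_univ,
    nsmul_eq_mul] at h1
  have hc := card_pos' (V := V) (Q := Q)
  have h3 : ∑ x, f x * ((Fintype.card (V → Fin Q) : ℝ) * g x) =
      (Fintype.card (V → Fin Q) : ℝ) * ∑ x, f x * g x := by
    rw [Finset.mul_sum]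
    apply Finset.sum_congr rfl
    intro x _
    ring
  unfold avR
  rw [div_mul_div_comm, h1, h3]
  rw [mul_div_mul_left _ _ hc.ne']

/-- Independence of many functions. -/
lemma avR_prod_of_dep {ι : Type*} (s : Finset ι) (B : ι → Set V)
    (hB : ∀ i ∈ s, ∀ j ∈ s, i ≠ j → Disjoint (B i) (B j)) (f : ι → (V → Fin Q) → ℝ)
    (hf : ∀ i ∈ s, Dep (B i) (f i)) :
    avR (fun ω => ∏ i ∈ s, f i ω) = ∏ i ∈ s, avR (f i) := by
  classical
  have hne : Nonempty (V → Fin Q) := ⟨fun _ => 0⟩
  induction s using Finset.induction_on with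
  | empty => simp [avR_const]
  | insert a s ha ih =>
    have h1 := ih (fun i hi j hj hij => hB i (mem_insert_of_mem hi) j (mem_insert_of_mem hj) hij)
      (fun i hi => hf i (mem_insert_of_mem hi))
    have h2 : avR (fun ω => f a ω * ∏ i ∈ s, f i ω) = avR (f a) * avR (fun ω => ∏ i ∈ s, f i ω) := by
      apply avR_mul_of_dep (A := B a) (B := ⋃ i ∈ s, B i)
      · rw [Set.disjoint_iUnion₂_right]
        intro i hi
        exact hB a (mem_insert_self _ _) i (mem_insert_of_mem hi) (by rintro rfl; exact ha hi)
      · exact hf a (mem_insert_self _ _)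
      · apply Dep.prod
        intro i hi
        exact (hf i (mem_insert_of_mem hi)).mono (Set.subset_biUnion_of_mem (u := fun i => B i) hi)
    have h3 : (fun ω => ∏ i ∈ insert a s, f i ω) = fun ω => f a ω * ∏ i ∈ s, f i ω := by
      funext ω
      rw [Finset.prod_insert ha]
    rw [h3, h2, h1, Finset.prod_insert ha]

/-- Averaging over one coordinate. -/
lemma avR_update (x : V) (F : (V → Fin Q) → ℝ) :
    avR F = avR (fun ω => (∑ q : Fin Q, F (Function.update ω x q)) / Q) := by
  classical
  let sw : (V → Fin Q) × Fin Q → (V → Fin Q) × Fin Q := fun p =>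
    (Function.update p.1 x p.2, p.1 x)
  have hsw : Function.Involutive sw := by
    intro p
    simp only [sw]
    ext v
    · by_cases h : v = x
      · subst h
        simp
      · simp [h]
    · simp
  have h1 : ∑ p : (V → Fin Q) × Fin Q, F p.1 = ∑ p : (V → Fin Q) × Fin Q, F (sw p).1 :=
    (Equiv.sum_comp hsw.toPerm (fun p : (V → Fin Q) × Fin Q => F p.1)).symm
  rw [Fintype.sum_prod_type, Fintype.sum_prod_type] at h1
  simp only [Finset.sum_const, Finset.card_univ, Fintype.card_fin, nsmul_eq_mul, sw] at h1
  have hQ : (0 : ℝ) < Q := by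
    have := Nat.pos_of_ne_zero (NeZero.ne Q)
    exact_mod_cast this
  unfold avR
  rw [← Finset.sum_div]
  rw [← h1, ← Finset.mul_sum, mul_div_cancel_left₀ _ hQ.ne']

omit [NeZero Q] in
/-- Invariance under an involution. -/
lemma avR_invol (σ : (V → Fin Q) → (V → Fin Q)) (hσ : Function.Involutive σ)
    (F : (V → Fin Q) → ℝ) : avR (fun ω => F (σ ω)) = avR F := by
  unfold avR
  congr 1
  exact Equiv.sum_comp hσ.toPerm F

end dep

section lll

variable {V : Type*} {Q : ℕ}

open Classical in
/-- Indicator function. -/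
noncomputable def ind (E : Set (V → Fin Q)) (ω : V → Fin Q) : ℝ := if ω ∈ E then 1 else 0

lemma ind_nonneg (E : Set (V → Fin Q)) (ω : V → Fin Q) : 0 ≤ ind E ω := by
  unfold ind
  split_ifs <;> norm_num

lemma ind_le_one (E : Set (V → Fin Q)) (ω : V → Fin Q) : ind E ω ≤ 1 := by
  unfold ind
  split_ifs <;> norm_num

variable [Fintype V] [DecidableEq V] [NeZero Q]

/-- The symmetric local lemma. -/
theorem lll {I : Type*} [Fintype I] [DecidableEq I] (A : I → Set (V → Fin Q)) (Γ : I → Set V)
    (hdep : ∀ i, Dep (Γ i) (fun ω => ω ∈ A i)) (p : ℝ) (hp : ∀ i, avR (ind (A i)) ≤ p)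
    (d : ℕ) (hd1 : 1 ≤ d) (nb : I → Finset I) (hnb : ∀ i j, j ≠ i → j ∉ nb i → Disjoint (Γ i) (Γ j))
    (hd : ∀ i, #(nb i) ≤ d) (h4 : 4 * p * d ≤ 1) : ∃ ω, ∀ i, ω ∉ A i := by
  classical
  have hne : Nonempty (V → Fin Q) := ⟨fun _ => 0⟩
  rcases isEmpty_or_nonempty I with hI | ⟨⟨i0⟩⟩
  · exact ⟨fun _ => 0, fun i => (hI.false i).elim⟩
  have hp0 : 0 ≤ p := (avR_nonneg (fun ω => ind_nonneg _ ω)).trans (hp i0)
  have hp4 : p ≤ 1 / 4 := by
    have : (1:ℝ) ≤ d := by exact_mod_cast hd1
    nlinarith
  -- probability of avoiding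
  set N : Finset I → Set (V → Fin Q) := fun T => {ω | ∀ j ∈ T, ω ∉ A j} with hN
  have hNdep : ∀ T : Finset I, Dep (⋃ j ∈ T, Γ j) (fun ω => ω ∈ N T) := by
    intro T ω ω' h
    simp only [hN, Set.mem_ofPred_eq, eq_iff_iff]
    apply forall₂_congr
    intro j hj
    have := hdep j ω ω' (fun v hv => h v (Set.mem_biUnion hj hv))
    simp only [eq_iff_iff] at this
    rw [this]
  have hw0 : ∀ E : Set (V → Fin Q), 0 ≤ avR (ind E) := fun E => avR_nonneg (fun ω => ind_nonneg E ω)
  have key : ∀ n : ℕ, ∀ T : Finset I, #T = n → ∀ i, i ∉ T →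
      avR (ind (A i ∩ N T)) ≤ 2 * p * avR (ind (N T)) := by
    intro n
    induction n using Nat.strong_induction_on with
    | _ n ih =>
      intro T hT i hi
      set T1 := T.filter (fun j => j ∈ nb i) with hT1
      set T2 := T.filter (fun j => j ∉ nb i) with hT2
      have hT2' : #T1 + #T2 = n := by rw [← hT]; exact Finset.card_filter_add_card_filter_not _
      have s1 : avR (ind (A i ∩ N T)) ≤ avR (ind (A i ∩ N T2)) := by
        apply avR_mono
        intro ω
        unfold ind
        by_cases h : ω ∈ A i ∩ N T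
        · rw [if_pos h, if_pos ⟨h.1, fun j hj => h.2 j (Finset.mem_filter.1 hj).1⟩]
        · rw [if_neg h]
          split_ifs <;> norm_num
      have s2 : avR (ind (A i ∩ N T2)) = avR (ind (A i)) * avR (ind (N T2)) := by
        have e1 : ind (A i ∩ N T2) = fun ω => ind (A i) ω * ind (N T2) ω := by
          funext ω
          unfold ind
          by_cases h1 : ω ∈ A i <;> by_cases h2 : ω ∈ N T2 <;> simp [h1, h2]
        rw [e1]
        apply avR_mul_of_dep (A := Γ i) (B := ⋃ j ∈ T2, Γ j)
        · rw [Set.disjoint_iUnion₂_right]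
          intro j hj
          rw [hT2, mem_filter] at hj
          exact hnb i j (by rintro rfl; exact hi hj.1) hj.2
        · exact (hdep i).comp (fun P : Prop => if P then (1:ℝ) else 0)
        · exact (hNdep T2).comp (fun P : Prop => if P then (1:ℝ) else 0)
      have s3 : avR (ind (N T2)) ≤ avR (ind (N T)) + ∑ j ∈ T1, avR (ind (A j ∩ N T2)) := by
        rw [← avR_sum, ← avR_add]
        apply avR_mono
        intro ω
        by_cases h2 : ω ∈ N T2
        · by_cases h : ω ∈ N T
          · have : 0 ≤ ∑ j ∈ T1, ind (A j ∩ N T2) ω := Finset.sum_nonneg (fun j _ => ind_nonneg _ _)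
            have e1 : ind (N T2) ω = 1 := if_pos h2
            have e2 : ind (N T) ω = 1 := if_pos h
            rw [e1, e2]
            linarith
          · simp only [hN, Set.mem_ofPred_eq, not_forall, not_not] at h
            obtain ⟨j, hj, hjA⟩ := h
            have hj1 : j ∈ T1 := by
              rw [hT1, mem_filter]
              refine ⟨hj, ?_⟩
              by_contra hcon
              exact h2 j (by rw [hT2, mem_filter]; exact ⟨hj, hcon⟩) hjA
            have e3 : ind (A j ∩ N T2) ω ≤ ∑ j ∈ T1, ind (A j ∩ N T2) ω :=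
              Finset.single_le_sum (f := fun j => ind (A j ∩ N T2) ω)
                (fun j _ => ind_nonneg _ _) hj1
            have e4 : ind (A j ∩ N T2) ω = 1 := if_pos ⟨hjA, h2⟩
            have e5 := ind_nonneg (N T) ω
            have e6 := ind_le_one (N T2) ω
            linarith
        · have e1 : ind (N T2) ω = 0 := if_neg h2
          have : 0 ≤ ∑ j ∈ T1, ind (A j ∩ N T2) ω := Finset.sum_nonneg (fun j _ => ind_nonneg _ _)
          have := ind_nonneg (N T) ω
          rw [e1]
          linarith
      have s5 : avR (ind (A i ∩ N T)) ≤ p * avR (ind (N T2)) := by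
        rw [s2] at s1
        exact s1.trans (mul_le_mul_of_nonneg_right (hp i) (hw0 _))
      rcases T1.eq_empty_or_nonempty with h0 | h0
      · rw [h0, Finset.sum_empty, add_zero] at s3
        have := mul_le_mul_of_nonneg_left s3 hp0
        have := mul_nonneg hp0 (hw0 (N T))
        linarith
      · have hlt : #T2 < n := by
          have := Finset.card_pos.2 h0
          omega
        have s4 : ∑ j ∈ T1, avR (ind (A j ∩ N T2)) ≤ #T1 * (2 * p * avR (ind (N T2))) := by
          rw [← nsmul_eq_mul, ← Finset.sum_const]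
          apply Finset.sum_le_sum
          intro j hj
          apply ih _ hlt T2 rfl j
          rw [hT2, mem_filter]
          rw [hT1, mem_filter] at hj
          exact fun h => h.2 hj.2
        have hT1d : (#T1 : ℝ) ≤ d := by
          have : #T1 ≤ #(nb i) := Finset.card_le_card (by
            intro j hj
            rw [hT1, mem_filter] at hj
            exact hj.2)
          exact_mod_cast this.trans (hd i)
        have s6 : (#T1 : ℝ) * (2 * p * avR (ind (N T2))) ≤ 1 / 2 * avR (ind (N T2)) := by
          have h5 : (#T1 : ℝ) * (2 * p) ≤ 1 / 2 := by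
            have := mul_le_mul_of_nonneg_right hT1d (by positivity : 0 ≤ 2 * p)
            linarith
          have := mul_le_mul_of_nonneg_right h5 (hw0 (N T2))
          linarith
        have s7 : avR (ind (N T2)) ≤ 2 * avR (ind (N T)) := by linarith
        have := mul_le_mul_of_nonneg_left s7 hp0
        linarith
  have pos : ∀ T : Finset I, 0 < avR (ind (N T)) := by
    intro T
    induction T using Finset.induction_on with
    | empty =>
      have : ind (N ∅) = fun _ => 1 := by
        funext ω
        unfold ind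
        rw [if_pos]
        intro j hj
        exact absurd hj (Finset.notMem_empty j)
      rw [this, avR_const]
      norm_num
    | insert a T ha ih =>
      have h1 := key _ T rfl a ha
      have h2 : avR (ind (N T)) ≤ avR (ind (N (insert a T))) + avR (ind (A a ∩ N T)) := by
        rw [← avR_add]
        apply avR_mono
        intro ω
        by_cases h : ω ∈ N T
        · have e1 : ind (N T) ω = 1 := if_pos h
          by_cases h3 : ω ∈ A a
          · have e2 : ind (A a ∩ N T) ω = 1 := if_pos ⟨h3, h⟩
            have := ind_nonneg (N (insert a T)) ω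
            rw [e1, e2]
            linarith
          · have e2 : ind (N (insert a T)) ω = 1 := by
              apply if_pos
              intro j hj
              rcases Finset.mem_insert.1 hj with rfl | hj
              · exact h3
              · exact h j hj
            have := ind_nonneg (A a ∩ N T) ω
            rw [e1, e2]
            linarith
        · have e1 : ind (N T) ω = 0 := if_neg h
          have := ind_nonneg (A a ∩ N T) ω
          have := ind_nonneg (N (insert a T)) ω
          rw [e1]
          linarith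
      nlinarith
  by_contra hcon
  push Not at hcon
  have h1 : ind (N Finset.univ) = fun _ => 0 := by
    funext ω
    unfold ind
    rw [if_neg]
    intro h
    obtain ⟨i, hi⟩ := hcon ω
    exact h i (Finset.mem_univ i) hi
  have h2 := pos Finset.univ
  rw [h1, avR_const] at h2
  exact lt_irrefl _ h2

end lll

end Pool.Agent.Helper18.HG
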