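import Pool.Agent.Helper18.HGTail

open Finset

namespace Pool.Agent.Helper18.HG

/-- Positive part of the logarithm. -/
noncomputable def pl (x : ℝ) : ℝ := max (Real.log x) 0

lemma pl_nonneg (x : ℝ) : 0 ≤ pl x := le_max_right _ _

lemma log_le_pl (x : ℝ) : Real.log x ≤ pl x := le_max_left _ _

lemma pl_mono {x y : ℝ} (hx : 0 < x) (h : x ≤ y) : pl x ≤ pl y :=
  max_le_max_right _ (Real.log_le_log hx h)

lemma exp_neg_pl_le {x : ℝ} (hx : 0 < x) : Real.exp (-pl x) ≤ 1 / x := by
  rw [one_div, ← Real.exp_log (inv_pos.2 hx), Real.log_inv]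
  apply Real.exp_le_exp.2
  exact neg_le_neg (log_le_pl x)

lemma pl_le_two_sqrt {x : ℝ} (hx : 0 < x) : pl x ≤ 2 * √x := by
  apply max_le
  · have h1 : 0 < √x := Real.sqrt_pos.2 hx
    have h2 := Real.log_le_sub_one_of_pos h1
    have h3 : Real.log x = 2 * Real.log (√x) := by
      rw [Real.log_sqrt hx.le]
      ring
    rw [h3]
    linarith
  · positivity

lemma pl_of_le_one {x : ℝ} (hx : x ≤ 1) (hx0 : 0 ≤ x) : pl x = 0 :=
  max_eq_right (Real.log_nonpos hx0 hx)

/-- Monotonicity of `ν ln⁺(X/ν)` up to an error. -/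
lemma mul_pl_le {ν ν' X : ℝ} (hν : 0 < ν) (h : ν ≤ ν') (hX : 0 < X) :
    ν * pl (X / ν) ≤ ν' * (pl (X / ν') + 1) := by
  have hν' : 0 < ν' := hν.trans_le h
  have h1 : Real.log (X / ν) = Real.log (X / ν') + Real.log (ν' / ν) := by
    rw [← Real.log_mul (by positivity) (by positivity)]
    congr 1
    field_simp
  have h2 : Real.log (ν' / ν) ≤ ν' / ν := by
    have := Real.log_le_sub_one_of_pos (show 0 < ν' / ν by positivity)
    linarith
  have h3 : pl (X / ν) ≤ pl (X / ν') + ν' / ν := by
    apply max_le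
    · rw [h1]
      exact add_le_add (log_le_pl _) h2
    · have := pl_nonneg (X / ν')
      positivity
  calc ν * pl (X / ν) ≤ ν * (pl (X / ν') + ν' / ν) := by gcongr
    _ = ν * pl (X / ν') + ν' := by field_simp
    _ ≤ ν' * pl (X / ν') + ν' := by
        have := pl_nonneg (X / ν')
        gcongr
    _ = _ := by ring

lemma sqrt_sqrt_half : √(√(1 / 2 : ℝ)) ≤ 0.841 := by
  rw [Real.sqrt_le_iff]
  constructor
  · norm_num
  · rw [Real.sqrt_le_iff]
    constructor
    · norm_num
    · norm_num

/-- Summing the thresholds along a geometric sequence. -/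
lemma sum_sqrt_mul_pl_le (ν : ℕ → ℝ) (hν : ∀ l, 0 < ν l) (hd : ∀ l, 2 * ν (l + 1) ≤ ν l) {X : ℝ}
    (hX : 0 < X) (n : ℕ) : ∑ l ∈ range n, √(ν l * pl (X / ν l)) ≤ 9 * √X := by
  set h : ℕ → ℝ := fun l => √(√(min (ν l) X)) with hh
  have hstep : ∀ l, √(ν l * pl (X / ν l)) ≤ 9 * √(√X) * (h l - h (l + 1)) := by
    intro l
    have hm : h (l + 1) ≤ h l := by
      simp only [hh]
      apply Real.sqrt_le_sqrt
      apply Real.sqrt_le_sqrt
      apply min_le_min_right
      have := hd l
      have := hν (l + 1)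
      linarith
    rcases le_or_gt X (ν l) with h1 | h1
    · have h2 : pl (X / ν l) = 0 :=
        pl_of_le_one ((div_le_one (hν l)).2 h1) (div_pos hX (hν l)).le
      rw [h2, mul_zero, Real.sqrt_zero]
      have : 0 ≤ h l - h (l + 1) := by linarith
      positivity
    · have hνl := hν l
      have h2 : h l = √(√(ν l)) := by
        simp only [hh]
        rw [min_eq_left h1.le]
      have h3 : h (l + 1) ≤ 0.841 * √(√(ν l)) := by
        have h4 : h (l + 1) ≤ √(√(1 / 2 * ν l)) := by
          simp only [hh]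
          apply Real.sqrt_le_sqrt
          apply Real.sqrt_le_sqrt
          apply (min_le_left _ _).trans
          have := hd l
          linarith
        rw [Real.sqrt_mul (by norm_num), Real.sqrt_mul (Real.sqrt_nonneg _)] at h4
        have h5 := Real.sqrt_nonneg (√(ν l))
        exact h4.trans (mul_le_mul_of_nonneg_right sqrt_sqrt_half h5)
      have h5 : √(ν l * pl (X / ν l)) ≤ √2 * (√(√X) * √(√(ν l))) := by
        have h6 : ν l * pl (X / ν l) ≤ 2 * (√X * √(ν l)) := by
          calc ν l * pl (X / ν l) ≤ ν l * (2 * √(X / ν l)) := by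
                gcongr
                exact pl_le_two_sqrt (div_pos hX hνl)
            _ = 2 * (√X * (ν l / √(ν l))) := by
                rw [Real.sqrt_div hX.le]
                ring
            _ = _ := by
                rw [Real.div_sqrt]
        calc √(ν l * pl (X / ν l)) ≤ √(2 * (√X * √(ν l))) := Real.sqrt_le_sqrt h6
          _ = √2 * (√(√X) * √(√(ν l))) := by
              rw [Real.sqrt_mul (by norm_num), Real.sqrt_mul (Real.sqrt_nonneg _)]
      have h7 : √2 ≤ 1.4143 := by
        rw [Real.sqrt_le_iff]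
        norm_num
      have h8 : 0 ≤ √(√X) * √(√(ν l)) := by positivity
      calc √(ν l * pl (X / ν l)) ≤ √2 * (√(√X) * √(√(ν l))) := h5
        _ ≤ 1.4143 * (√(√X) * √(√(ν l))) := by gcongr
        _ ≤ 9 * √(√X) * (√(√(ν l)) - 0.841 * √(√(ν l))) := by nlinarith
        _ ≤ 9 * √(√X) * (h l - h (l + 1)) := by
            rw [h2]
            gcongr
  have hsum : ∑ l ∈ range n, √(ν l * pl (X / ν l)) ≤ 9 * √(√X) * (h 0 - h n) := by
    induction n with
    | zero => simp
    | succ n ih =>
      rw [Finset.sum_range_succ]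
      have := hstep n
      linarith
  apply hsum.trans
  have h1 : h 0 ≤ √(√X) := by
    simp only [hh]
    apply Real.sqrt_le_sqrt
    apply Real.sqrt_le_sqrt
    exact min_le_right _ _
  have h2 : 0 ≤ h n := Real.sqrt_nonneg _
  have h3 : √(√X) * √(√X) = √X := Real.mul_self_sqrt (Real.sqrt_nonneg _)
  have h4 : 0 ≤ √(√X) := Real.sqrt_nonneg _
  calc 9 * √(√X) * (h 0 - h n) ≤ 9 * √(√X) * √(√X) := by
        gcongr
        linarith
    _ = 9 * √X := by rw [mul_assoc, h3]

end Pool.Agent.Helper18.HG
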