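import Pool.Agent.Helper18.HGProc

open Finset

set_option linter.unusedSectionVars false

namespace Pool.Agent.Helper18.HG

open Pool.Agent.Helper18.BG (avR avR_sum avR_mul_left avR_add avR_mono avR_nonneg avR_const)

section step

variable {V I : Type*} [Fintype V] [DecidableEq V] [Fintype I] [DecidableEq I]
  (S : I → Finset V) (lv : V → ℕ) (T : ℕ → I → ℕ) {Q : ℕ} [NeZero Q]

/-- The influence of the other sets on the element `x`. -/
def Zx (Q : ℕ) (i : I) (j : ℕ) (x : V) (ω : V → Fin Q) : ℤ :=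
  ∑ a ∈ (inc S x).erase i, al S lv T Q a j (D S lv T j ω a)

/-- Mean colour of `x` given that the current sum of `i` is `d`. -/
noncomputable def mx (Q : ℕ) (i : I) (j : ℕ) (x : V) (d : ℤ) : ℝ :=
  avR (fun ω : V → Fin Q => ((clip Q (al S lv T Q i j d + Zx S lv T Q i j x ω) : ℤ) : ℝ)) / Q

/-- Mean change of the sum of the set `i` at level `j`. -/
noncomputable def mu (Q : ℕ) (i : I) (j : ℕ) (d : ℤ) : ℝ := ∑ x ∈ lev S lv i j, mx S lv T Q i j x d

/-- Noise of the set `i` at level `j`. -/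
noncomputable def Nz (i : I) (j : ℕ) (ω : V → Fin Q) : ℝ :=
  (D S lv T (j + 1) ω i : ℝ) - D S lv T j ω i - mu S lv T Q i j (D S lv T j ω i)

/-- Colour of `x` if the current sum of `i` were `d`. -/
def Yx (i : I) (j : ℕ) (x : V) (d : ℤ) (ω : V → Fin Q) : ℤ :=
  (clip Q (al S lv T Q i j d + Zx S lv T Q i j x ω) - ov (ω x)).sign

/-- The structural assumption: branches are disjoint. -/
def Sep (j : ℕ) : Prop :=
  (∀ x, lv x = j → ∀ a ∈ inc S x, ∀ b ∈ inc S x, a ≠ b → Disjoint (Br S lv j a) (Br S lv j b)) ∧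
  (∀ i, ∀ x ∈ lev S lv i j, ∀ y ∈ lev S lv i j, x ≠ y → ∀ a ∈ (inc S x).erase i,
    ∀ b ∈ (inc S y).erase i, Disjoint (Br S lv j a) (Br S lv j b))

/-- Coordinates on which `Yx` depends. -/
def Bx (i : I) (j : ℕ) (x : V) : Set V :=
  {y | y = x ∨ ∃ a ∈ (inc S x).erase i, y ∈ Br S lv j a}

lemma mem_lev {i : I} {j : ℕ} {x : V} : x ∈ lev S lv i j ↔ x ∈ S i ∧ lv x = j := by
  rw [lev, mem_filter]

lemma mem_inc {i : I} {x : V} : i ∈ inc S x ↔ x ∈ S i := by
  rw [inc, mem_filter]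
  simp

lemma Zx_dep' (i : I) (j : ℕ) (x : V) : Dep {y | ∃ a ∈ (inc S x).erase i, y ∈ Br S lv j a}
    (fun ω : V → Fin Q => Zx S lv T Q i j x ω) := by
  apply Dep.sum
  intro a ha
  have h1 : (Br S lv j a : Set V) ⊆ {y | ∃ a ∈ (inc S x).erase i, y ∈ Br S lv j a} :=
    fun y hy => ⟨a, ha, hy⟩
  exact ((D_dep S lv T j a).mono h1).comp (fun d => al S lv T Q a j d)

lemma Zx_dep (i : I) (j : ℕ) (x : V) : Dep (Bx S lv i j x)
    (fun ω : V → Fin Q => Zx S lv T Q i j x ω) :=
  (Zx_dep' S lv T i j x).mono (fun _ hy => Or.inr hy)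

lemma Yx_dep (i : I) (j : ℕ) (x : V) (d : ℤ) : Dep (Bx S lv i j x)
    (fun ω : V → Fin Q => Yx S lv T i j x d ω) := by
  intro ω ω' h
  simp only [Yx]
  have h1 : Zx S lv T Q i j x ω = Zx S lv T Q i j x ω' := Zx_dep S lv T i j x ω ω' h
  rw [h1, h x (Or.inl rfl)]

lemma Bx_disj {i : I} {j : ℕ} (hs : Sep S lv j) {x y : V} (hx : x ∈ lev S lv i j)
    (hy : y ∈ lev S lv i j) (hxy : x ≠ y) : Disjoint (Bx S lv i j x) (Bx S lv i j y) := by
  rw [Set.disjoint_left]
  rintro z (rfl | ⟨a, ha, hza⟩) (h | ⟨b, hb, hzb⟩)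
  · exact hxy h
  · have h1 := lv_lt_of_mem_Br S lv hzb
    have h2 := ((mem_lev S lv).1 hx).2
    omega
  · subst h
    have h1 := lv_lt_of_mem_Br S lv hza
    have h2 := ((mem_lev S lv).1 hy).2
    omega
  · exact Finset.disjoint_left.1 (hs.2 i x hx y hy hxy a ha b hb) hza hzb

lemma Br_Bx_disj {i : I} {j : ℕ} (hs : Sep S lv j) {x : V} (hx : x ∈ lev S lv i j) :
    Disjoint (Br S lv j i : Set V) (Bx S lv i j x) := by
  rw [Set.disjoint_left]
  rintro z hz (h | ⟨a, ha, hza⟩)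
  · subst h
    have h1 := lv_lt_of_mem_Br S lv hz
    have h2 := ((mem_lev S lv).1 hx).2
    omega
  · have h2 := (mem_lev S lv).1 hx
    exact Finset.disjoint_left.1 (hs.1 x h2.2 i ((mem_inc S).2 h2.1) a (Finset.mem_of_mem_erase ha)
      (Finset.ne_of_mem_erase ha).symm) hz hza

/-- On the event `D j i = d` the colours are the `Yx`. -/
lemma col_eq_Yx {i : I} {j : ℕ} {x : V} (hx : x ∈ lev S lv i j) (ω : V → Fin Q) :
    col S lv T j ω x = Yx S lv T i j x (D S lv T j ω i) ω := by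
  unfold col Yx Zx
  have h1 : i ∈ inc S x := (mem_inc S).2 ((mem_lev S lv).1 hx).1
  rw [← Finset.add_sum_erase (inc S x) (fun a => al S lv T Q a j (D S lv T j ω a)) h1]

/-- Averaging over the own coordinate. -/
lemma avR_Yx (hQe : Even Q) (hQ : ∀ i j, 0 < nn S lv i j → 2 * nn S lv i j ∣ Q)
    {i : I} {j : ℕ} {x : V} (hx : lv x = j) (d : ℤ) :
    avR (fun ω : V → Fin Q => ((Yx S lv T i j x d ω : ℤ) : ℝ)) = mx S lv T Q i j x d := by
  unfold mx
  rw [avR_update x]
  have hQ0 : (Q : ℝ) ≠ 0 := by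
    have := NeZero.ne Q
    exact_mod_cast this
  have h1 : ∀ ω : V → Fin Q, (∑ q : Fin Q, ((Yx S lv T i j x d (Function.update ω x q) : ℤ) : ℝ)) =
      ((clip Q (al S lv T Q i j d + Zx S lv T Q i j x ω) : ℤ) : ℝ) := by
    intro ω
    have h2 : ∀ q : Fin Q, Yx S lv T i j x d (Function.update ω x q) =
        (clip Q (al S lv T Q i j d + Zx S lv T Q i j x ω) - ov q).sign := by
      intro q
      unfold Yx
      rw [Function.update_self]
      have h3 : Zx S lv T Q i j x (Function.update ω x q) = Zx S lv T Q i j x ω := by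
        apply Zx_dep' S lv T i j x
        rintro v ⟨a, ha, hv⟩
        have h4 := lv_lt_of_mem_Br S lv hv
        rw [Function.update_of_ne]
        rintro rfl
        omega
      rw [h3]
    rw [Finset.sum_congr rfl (fun q _ => by rw [h2 q])]
    rw [← Int.cast_sum]
    rw [sum_sign_even hQe]
    · apply clip_even hQe
      apply (al_even S lv T hQ i j d).add
      exact sum_al_even S lv T hQ _ j _
    · exact abs_clip_le Q _
  rw [show (fun ω : V → Fin Q => (∑ q : Fin Q,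
      ((Yx S lv T i j x d (Function.update ω x q) : ℤ) : ℝ)) / (Q : ℝ)) =
      fun ω => (1 / (Q : ℝ)) * ((clip Q (al S lv T Q i j d + Zx S lv T Q i j x ω) : ℤ) : ℝ) from by
    funext ω
    rw [h1 ω]
    ring]
  rw [avR_mul_left]
  ring

lemma Yx_pm (hQe : Even Q) (hQ : ∀ i j, 0 < nn S lv i j → 2 * nn S lv i j ∣ Q)
    (i : I) (j : ℕ) (x : V) (d : ℤ) (ω : V → Fin Q) :
    Yx S lv T i j x d ω = 1 ∨ Yx S lv T i j x d ω = -1 := by
  unfold Yx
  apply sign_ne_zero_even hQe
  apply clip_even hQe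
  apply (al_even S lv T hQ i j d).add
  exact sum_al_even S lv T hQ _ j _

lemma exp_pm {y : ℤ} (hy : y = 1 ∨ y = -1) (θ : ℝ) :
    Real.exp (θ * (y : ℝ)) = Real.cosh θ + (y : ℝ) * Real.sinh θ := by
  rcases hy with rfl | rfl
  · rw [Real.cosh_eq, Real.sinh_eq]
    push_cast
    rw [mul_one]
    ring
  · rw [Real.cosh_eq, Real.sinh_eq]
    push_cast
    rw [mul_neg, mul_one]
    ring

lemma abs_mx_le (i : I) (j : ℕ) (x : V) (d : ℤ) : |mx S lv T Q i j x d| ≤ 1 := by
  have hne : Nonempty (V → Fin Q) := ⟨fun _ => 0⟩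
  have hQ0 : (0 : ℝ) < Q := by
    have := Nat.pos_of_ne_zero (NeZero.ne Q)
    exact_mod_cast this
  unfold mx
  rw [abs_div, abs_of_pos hQ0, div_le_one hQ0, abs_le]
  constructor
  · rw [← avR_const (Ω := V → Fin Q) (-(Q:ℝ))]
    apply avR_mono
    intro ω
    have := (abs_le.1 (abs_clip_le Q (al S lv T Q i j d + Zx S lv T Q i j x ω))).1
    have h2 : ((-(Q : ℤ) : ℤ) : ℝ) ≤ ((clip Q (al S lv T Q i j d + Zx S lv T Q i j x ω) : ℤ) : ℝ) := by
      exact_mod_cast this
    push_cast at h2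
    exact h2
  · rw [← avR_const (Ω := V → Fin Q) ((Q:ℝ))]
    apply avR_mono
    intro ω
    have := (abs_le.1 (abs_clip_le Q (al S lv T Q i j d + Zx S lv T Q i j x ω))).2
    exact_mod_cast this

lemma conv_exp {m : ℝ} (hm : |m| ≤ 1) (θ : ℝ) :
    Real.exp (-(θ * m)) ≤ Real.cosh θ - m * Real.sinh θ := by
  rw [abs_le] at hm
  have h := convexOn_exp.2 (Set.mem_univ (-θ)) (Set.mem_univ θ)
    (show (0:ℝ) ≤ (1 + m) / 2 by linarith) (show (0:ℝ) ≤ (1 - m) / 2 by linarith) (by ring)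
  simp only [smul_eq_mul] at h
  rw [Real.cosh_eq, Real.sinh_eq]
  calc Real.exp (-(θ * m)) = Real.exp ((1 + m) / 2 * -θ + (1 - m) / 2 * θ) := by ring_nf
    _ ≤ _ := h
    _ = _ := by ring

/-- The moment generating function of one colour. -/
lemma mgf_one (hQe : Even Q) (hQ : ∀ i j, 0 < nn S lv i j → 2 * nn S lv i j ∣ Q)
    {i : I} {j : ℕ} {x : V} (hx : lv x = j) (d : ℤ) (θ : ℝ) :
    avR (fun ω : V → Fin Q => Real.exp (θ * (((Yx S lv T i j x d ω : ℤ) : ℝ) -
      mx S lv T Q i j x d))) ≤ Real.exp (θ ^ 2) := by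
  have hne : Nonempty (V → Fin Q) := ⟨fun _ => 0⟩
  set m := mx S lv T Q i j x d with hm
  have h1 : (fun ω : V → Fin Q => Real.exp (θ * (((Yx S lv T i j x d ω : ℤ) : ℝ) - m))) =
      fun ω => (Real.exp (-(θ * m)) * Real.cosh θ) + (Real.exp (-(θ * m)) * Real.sinh θ) *
        ((Yx S lv T i j x d ω : ℤ) : ℝ) := by
    funext ω
    rw [mul_sub, sub_eq_add_neg, Real.exp_add, exp_pm (Yx_pm S lv T hQe hQ i j x d ω)]
    ring
  rw [h1, avR_add, avR_const, avR_mul_left, avR_Yx S lv T hQe hQ hx]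
  have hm1 : |m| ≤ 1 := abs_mx_le S lv T i j x d
  have h2 := conv_exp hm1 θ
  have h3 := conv_exp (m := -m) (by rwa [abs_neg]) θ
  have h4 : 0 ≤ Real.cosh θ + m * Real.sinh θ := by
    have := Real.exp_pos (-(θ * -m))
    linarith
  calc Real.exp (-(θ * m)) * Real.cosh θ + Real.exp (-(θ * m)) * Real.sinh θ * m =
      Real.exp (-(θ * m)) * (Real.cosh θ + m * Real.sinh θ) := by ring
    _ ≤ (Real.cosh θ - m * Real.sinh θ) * (Real.cosh θ + m * Real.sinh θ) := by gcongr
    _ ≤ Real.cosh θ ^ 2 := by nlinarith [mul_self_nonneg (m * Real.sinh θ)]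
    _ ≤ (Real.exp (θ ^ 2 / 2)) ^ 2 := by
        gcongr
        exact Real.cosh_le_exp_half_sq θ
    _ = Real.exp (θ ^ 2) := by
        rw [← Real.exp_nat_mul]
        congr 1
        push_cast
        ring

/-- Moment generating function of the noise. -/
lemma mgf_Nz (hQe : Even Q) (hQ : ∀ i j, 0 < nn S lv i j → 2 * nn S lv i j ∣ Q)
    {j : ℕ} (hs : Sep S lv j) (i : I) (θ : ℝ) :
    avR (fun ω : V → Fin Q => Real.exp (θ * Nz S lv T i j ω)) ≤
      Real.exp (θ ^ 2 * nn S lv i j) := by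
  classical
  have hne : Nonempty (V → Fin Q) := ⟨fun _ => 0⟩
  set R : Finset ℤ := Finset.univ.image (fun ω : V → Fin Q => D S lv T j ω i) with hR
  set W : ℤ → (V → Fin Q) → ℝ := fun d ω => if D S lv T j ω i = d then 1 else 0 with hW
  have hW0 : ∀ d ω, 0 ≤ W d ω := by
    intro d ω
    simp only [hW]
    split_ifs <;> norm_num
  have h1 : ∀ ω : V → Fin Q, Real.exp (θ * Nz S lv T i j ω) =
      ∑ d ∈ R, W d ω * ∏ x ∈ lev S lv i j,
        Real.exp (θ * (((Yx S lv T i j x d ω : ℤ) : ℝ) - mx S lv T Q i j x d)) := by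
    intro ω
    rw [Finset.sum_eq_single (D S lv T j ω i)]
    · simp only [hW, if_true, one_mul]
      rw [← Real.exp_sum, ← Finset.mul_sum]
      congr 2
      unfold Nz mu
      rw [D_succ]
      push_cast
      rw [Finset.sum_sub_distrib]
      have h2 : ∑ x ∈ lev S lv i j, ((col S lv T j ω x : ℤ) : ℝ) =
          ∑ x ∈ lev S lv i j, ((Yx S lv T i j x (D S lv T j ω i) ω : ℤ) : ℝ) := by
        apply Finset.sum_congr rfl
        intro x hx
        rw [col_eq_Yx S lv T hx ω]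
      rw [h2]
      ring
    · intro d _ hd
      simp only [hW]
      rw [if_neg (fun h => hd h.symm), zero_mul]
    · intro h
      exact absurd (Finset.mem_image_of_mem _ (Finset.mem_univ ω)) h
  have h2 : ∀ d : ℤ, avR (fun ω : V → Fin Q => W d ω * ∏ x ∈ lev S lv i j,
        Real.exp (θ * (((Yx S lv T i j x d ω : ℤ) : ℝ) - mx S lv T Q i j x d))) ≤
      avR (W d) * Real.exp (θ ^ 2 * nn S lv i j) := by
    intro d
    have e1 : avR (fun ω : V → Fin Q => W d ω * ∏ x ∈ lev S lv i j,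
        Real.exp (θ * (((Yx S lv T i j x d ω : ℤ) : ℝ) - mx S lv T Q i j x d))) =
        avR (W d) * avR (fun ω : V → Fin Q => ∏ x ∈ lev S lv i j,
        Real.exp (θ * (((Yx S lv T i j x d ω : ℤ) : ℝ) - mx S lv T Q i j x d))) := by
      apply avR_mul_of_dep (A := (Br S lv j i : Set V)) (B := ⋃ x ∈ lev S lv i j, Bx S lv i j x)
      · rw [Set.disjoint_iUnion₂_right]
        intro x hx
        exact Br_Bx_disj S lv hs hx
      · exact (D_dep S lv T j i).comp (fun y : ℤ => if y = d then (1:ℝ) else 0)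
      · apply Dep.prod
        intro x hx
        apply ((Yx_dep S lv T i j x d).mono
          (Set.subset_biUnion_of_mem (u := fun x => Bx S lv i j x) hx)).comp
          (fun y : ℤ => Real.exp (θ * ((y : ℝ) - mx S lv T Q i j x d)))
    have e2 : avR (fun ω : V → Fin Q => ∏ x ∈ lev S lv i j,
        Real.exp (θ * (((Yx S lv T i j x d ω : ℤ) : ℝ) - mx S lv T Q i j x d))) =
        ∏ x ∈ lev S lv i j, avR (fun ω : V → Fin Q =>
          Real.exp (θ * (((Yx S lv T i j x d ω : ℤ) : ℝ) - mx S lv T Q i j x d))) := by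
      apply avR_prod_of_dep _ (fun x => Bx S lv i j x)
        (fun x hx y hy hxy => Bx_disj S lv hs hx hy hxy)
      intro x hx
      apply (Yx_dep S lv T i j x d).comp
          (fun y : ℤ => Real.exp (θ * ((y : ℝ) - mx S lv T Q i j x d)))
    rw [e1, e2]
    apply mul_le_mul_of_nonneg_left _ (avR_nonneg (hW0 d))
    calc ∏ x ∈ lev S lv i j, avR (fun ω : V → Fin Q =>
          Real.exp (θ * (((Yx S lv T i j x d ω : ℤ) : ℝ) - mx S lv T Q i j x d))) ≤
        ∏ x ∈ lev S lv i j, Real.exp (θ ^ 2) := by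
          apply Finset.prod_le_prod
          · intro x _
            exact avR_nonneg (fun ω => (Real.exp_pos _).le)
          · intro x hx
            exact mgf_one S lv T hQe hQ ((mem_lev S lv).1 hx).2 d θ
      _ = Real.exp (θ ^ 2 * nn S lv i j) := by
          rw [Finset.prod_const, ← Real.exp_nat_mul]
          congr 1
          unfold nn
          ring
  have h3 : ∀ ω : V → Fin Q, ∑ d ∈ R, W d ω = 1 := by
    intro ω
    rw [Finset.sum_eq_single (D S lv T j ω i)]
    · simp only [hW, if_true]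
    · intro d _ hd
      simp only [hW]
      rw [if_neg (fun h => hd h.symm)]
    · intro h
      exact absurd (Finset.mem_image_of_mem _ (Finset.mem_univ ω)) h
  calc avR (fun ω : V → Fin Q => Real.exp (θ * Nz S lv T i j ω)) =
      ∑ d ∈ R, avR (fun ω : V → Fin Q => W d ω * ∏ x ∈ lev S lv i j,
        Real.exp (θ * (((Yx S lv T i j x d ω : ℤ) : ℝ) - mx S lv T Q i j x d))) := by
        rw [← avR_sum]
        congr 1
        funext ω
        exact h1 ω
    _ ≤ ∑ d ∈ R, avR (W d) * Real.exp (θ ^ 2 * nn S lv i j) := Finset.sum_le_sum (fun d _ => h2 d)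
    _ = Real.exp (θ ^ 2 * nn S lv i j) := by
        rw [← Finset.sum_mul, ← avR_sum]
        have : (fun ω : V → Fin Q => ∑ d ∈ R, W d ω) = fun _ => 1 := funext h3
        rw [this, avR_const, one_mul]

end step

end Pool.Agent.Helper18.HG
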