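import Pool.Agent.Helper18.HGMain
import Pool.Agent.Helper94.HGLevels

open Finset SimpleGraph

set_option linter.unusedSectionVars false

namespace Pool.Agent.Helper18.HG

universe u v

lemma levels (V I : Type*) [Fintype V] [DecidableEq V] [Fintype I] [DecidableEq I] :
    LevelsStatement V I :=
  fun S t s J M L ht hs hL1 hL hM =>
    Pool.Agent.Helper94.HG.exists_levels S t s J M L ht hs hL1 hL hM

lemma log_pow_aux (m : ℕ) (hm : 8 ≤ m) : 112 + 8 * m ≤ 2 ^ m := by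
  induction m, hm using Nat.le_induction with
  | base => norm_num
  | succ m hm ih =>
    rw [pow_succ]
    omega

lemma pow_aux (n : ℕ) (hn : 256 ≤ n) : 2 ^ 104 * n ^ 8 ≤ 2 ^ n := by
  have h0 : n ≠ 0 := by omega
  have h1 : n < 2 ^ (Nat.log 2 n + 1) := Nat.lt_pow_succ_log_self (by norm_num) _
  have h2 : 8 ≤ Nat.log 2 n := by
    rw [Nat.le_log_iff_pow_le (by norm_num) h0]
    norm_num
    exact hn
  have h3 := log_pow_aux _ h2
  have h4 : 2 ^ Nat.log 2 n ≤ n := Nat.pow_log_le_self 2 h0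
  calc 2 ^ 104 * n ^ 8 ≤ 2 ^ 104 * (2 ^ (Nat.log 2 n + 1)) ^ 8 := by gcongr
    _ = 2 ^ (104 + (Nat.log 2 n + 1) * 8) := by rw [← pow_mul, ← pow_add]
    _ ≤ 2 ^ n := Nat.pow_le_pow_right (by norm_num) (by omega)

lemma exists_ell : ∃ ℓ0 : ℕ, 2 ≤ ℓ0 ∧ ∀ ℓ, ℓ0 ≤ ℓ → 2 ^ 104 * Nat.log 2 ℓ ^ 8 ≤ ℓ := by
  refine ⟨2 ^ 256, ?_, ?_⟩
  · calc 2 = 2 ^ 1 := by norm_num
      _ ≤ 2 ^ 256 := Nat.pow_le_pow_right (by norm_num) (by norm_num)
  · intro ℓ hℓ
    have h0 : ℓ ≠ 0 := by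
      have : 0 < 2 ^ 256 := by positivity
      omega
    have h1 : 256 ≤ Nat.log 2 ℓ := by
      rw [Nat.le_log_iff_pow_le (by norm_num) h0]
      exact hℓ
    exact (pow_aux _ h1).trans (Nat.pow_log_le_self 2 h0)

lemma iter_log_zero (n : ℕ) : ∀ y : ℕ, y ≤ n → (Nat.log 2)^[n] y = 0 := by
  induction n with
  | zero =>
    intro y hy
    have : y = 0 := by omega
    subst this
    rfl
  | succ n ih =>
    intro y hy
    rw [Function.iterate_succ_apply]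
    apply ih
    rcases Nat.eq_zero_or_pos y with h | h
    · subst h
      simp
    · have := Nat.log_lt_self 2 h.ne'
      omega

lemma numN {s r t ℓ0 : ℕ} (h2 : 2 ≤ ℓ0) (hℓ0 : ∀ ℓ, ℓ0 ≤ ℓ → 2 ^ 104 * Nat.log 2 ℓ ^ 8 ≤ ℓ)
    (hs : ℓ0 ≤ Nat.log 2 s) (ht : (Nat.log 2 s) ^ 9 ≤ t) (hr : r ≤ (Nat.log 2)^[3] s + 3) :
    (4096 * Lam s * 2 ^ kk s r r) ^ 2 ≤ t := by
  obtain ⟨ℓ, hℓ⟩ : ∃ ℓ, ℓ = Nat.log 2 s := ⟨_, rfl⟩
  obtain ⟨a, ha⟩ : ∃ a, a = Nat.log 2 ℓ := ⟨_, rfl⟩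
  obtain ⟨y, hy⟩ : ∃ y, y = Nat.log 2 a := ⟨_, rfl⟩
  rw [← hℓ] at hs ht
  have h3 : (Nat.log 2)^[3] s = y := by
    rw [hy, ha, hℓ]
    rfl
  rw [h3] at hr
  have h4 : lam s r r = a := by
    unfold lam
    have : r + 2 - r = 2 := by omega
    rw [this, ha, hℓ]
    rfl
  have hℓ1 : 1 ≤ ℓ := by omega
  have ha1 : 1 ≤ a := by
    rw [ha, Nat.le_log_iff_pow_le (by norm_num) (by omega)]
    omega
  have h5 : 2 ^ a ≤ ℓ := by
    rw [ha]
    exact Nat.pow_log_le_self 2 (by omega)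
  have h6 : 2 ^ y ≤ a := by
    rw [hy]
    exact Nat.pow_log_le_self 2 (by omega)
  have h7 : 2 ^ kk s r r ≤ ℓ ^ 2 * a ^ 4 * 2 ^ 32 := by
    calc 2 ^ kk s r r ≤ 2 ^ (a * 2 + y * 4 + 32) := by
          apply Nat.pow_le_pow_right (by norm_num)
          unfold kk
          rw [h4]
          omega
      _ = (2 ^ a) ^ 2 * (2 ^ y) ^ 4 * 2 ^ 32 := by
          rw [← pow_mul, ← pow_mul, ← pow_add, ← pow_add]
      _ ≤ _ := by gcongr
  have h8 : Lam s ≤ 256 * ℓ ^ 2 := by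
    unfold Lam
    rw [← hℓ]
    nlinarith
  have h9 := hℓ0 ℓ hs
  rw [← ha] at h9
  calc (4096 * Lam s * 2 ^ kk s r r) ^ 2 ≤ (4096 * (256 * ℓ ^ 2) * (ℓ ^ 2 * a ^ 4 * 2 ^ 32)) ^ 2 := by
        apply Nat.pow_le_pow_left
        apply Nat.mul_le_mul _ h7
        exact Nat.mul_le_mul_left _ h8
    _ = ℓ ^ 8 * (2 ^ 104 * a ^ 8) := by
        rw [show (4096 : ℕ) = 2 ^ 12 by norm_num, show (256 : ℕ) = 2 ^ 8 by norm_num]
        ring
    _ ≤ ℓ ^ 8 * ℓ := Nat.mul_le_mul_left _ h9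
    _ = ℓ ^ 9 := by rw [← pow_succ]
    _ ≤ t := ht

/-- Bounded sizes, all parameters. -/
theorem bounded {V : Type u} {I : Type v} [Fintype V] [DecidableEq V] [Fintype I] [DecidableEq I]
    {ℓ0 : ℕ} (h2 : 2 ≤ ℓ0) (hℓ0 : ∀ ℓ, ℓ0 ≤ ℓ → 2 ^ 104 * Nat.log 2 ℓ ^ 8 ≤ ℓ)
    (S : I → Finset V) {t s q r R : ℕ} (ht1 : 1 ≤ t)
    (hts : t ≤ s) (hs : s ≤ R ^ q * t) (hR : 2 ≤ R) (hr1 : 1 ≤ r)
    (hsℓ : ℓ0 ≤ Nat.log 2 s) (htℓ : (Nat.log 2 s) ^ 9 ≤ t)
    (ht : ∀ v, #(univ.filter fun i => v ∈ S i) ≤ t) (hsz : ∀ i, #(S i) ≤ s)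
    (hg : NoShort S (4 * (q + r))) :
    ∃ χ : V → ℤ, (∀ v, χ v = 1 ∨ χ v = -1) ∧
      ∀ i, |((∑ v ∈ S i, χ v : ℤ) : ℝ)| ≤
        60000 * √t * ((R : ℝ) ^ 2 + √((Nat.log 2)^[r + 1] s : ℕ)) := by
  have hs2 : 2 ≤ s := by
    have h0 : s ≠ 0 := by omega
    have h1 : 2 ^ 1 ≤ s := by
      rw [← Nat.le_log_iff_pow_le (by norm_num) h0]
      omega
    simpa using h1
  set R' := min R s with hR'
  set q' := min q (Nat.log 2 s + 1) with hq'
  set r' := min r ((Nat.log 2)^[3] s + 3) with hr'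
  have hR'2 : 2 ≤ R' := le_min hR hs2
  have hsR : s ≤ R' ^ q * t := by
    rcases le_total R s with h | h
    · rw [hR', min_eq_left h]
      exact hs
    · rw [hR', min_eq_right h]
      rcases Nat.eq_zero_or_pos q with h0 | h0
      · subst h0
        simpa using hs
      · calc s = s ^ 1 * 1 := by ring
          _ ≤ s ^ q * t := Nat.mul_le_mul (Nat.pow_le_pow_right (by omega) h0) ht1
  have hsq : s ≤ R' ^ q' * t := by
    rcases le_total q (Nat.log 2 s + 1) with h | h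
    · rw [hq', min_eq_left h]
      exact hsR
    · rw [hq', min_eq_right h]
      have h1 := s_lt s
      calc s ≤ 2 ^ (Nat.log 2 s + 1) * 1 := by omega
        _ ≤ R' ^ (Nat.log 2 s + 1) * t := Nat.mul_le_mul (Nat.pow_le_pow_left hR'2 _) ht1
  have hlog : (Nat.log 2)^[r' + 1] s ≤ (Nat.log 2)^[r + 1] s := by
    rcases le_total r ((Nat.log 2)^[3] s + 3) with h | h
    · rw [hr', min_eq_left h]
    · rw [hr', min_eq_right h]
      have h1 : (Nat.log 2)^[(Nat.log 2)^[3] s + 3 + 1] s = 0 := by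
        have h2 : (Nat.log 2)^[3] s + 3 + 1 = ((Nat.log 2)^[3] s + 1) + 3 := by ring
        rw [h2, Function.iterate_add_apply]
        exact iter_log_zero _ _ (Nat.le_succ _)
      rw [h1]
      exact Nat.zero_le _
  have hr'1 : 1 ≤ r' := le_min hr1 (by omega)
  have hr'3 : r' ≤ (Nat.log 2)^[3] s + 3 := min_le_right _ _
  obtain ⟨χ, hχ1, hχ2⟩ := main_bounded (levels V I) S ht1 hts hsq hR'2 (min_le_right R s) hr'1
    hr'3 (min_le_right q _) (numN h2 hℓ0 hsℓ htℓ hr'3) ht hsz (hg.mono S (by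
      have h3 : q' ≤ q := min_le_left _ _
      have h4 : r' ≤ r := min_le_left _ _
      omega))
  refine ⟨χ, hχ1, fun i => (hχ2 i).trans ?_⟩
  have h3 : (R' : ℝ) ≤ R := by exact_mod_cast min_le_left R s
  have h4 : (((Nat.log 2)^[r' + 1] s : ℕ) : ℝ) ≤ (((Nat.log 2)^[r + 1] s : ℕ) : ℝ) := by
    exact_mod_cast hlog
  have h5 : √(((Nat.log 2)^[r' + 1] s : ℕ) : ℝ) ≤ √(((Nat.log 2)^[r + 1] s : ℕ) : ℝ) :=
    Real.sqrt_le_sqrt h4
  have h6 : (R' : ℝ) ^ 2 ≤ (R : ℝ) ^ 2 := pow_le_pow_left₀ (Nat.cast_nonneg _) h3 2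
  apply mul_le_mul_of_nonneg_left _ (by positivity)
  linarith

/-- Splitting a set into blocks. -/
theorem exists_block {V : Type u} [DecidableEq V] (A : Finset V) (s : ℕ) (hs : 0 < s) :
    ∃ f : V → ℕ, (∀ v ∈ A, f v ≤ #A / s) ∧ ∀ i, #(A.filter fun v => f v = i) ≤ s := by
  classical
  let e := A.equivFin
  refine ⟨fun v => if h : v ∈ A then (e ⟨v, h⟩ : ℕ) / s else 0, ?_, ?_⟩
  · intro v hv
    simp only [hv, dif_pos]
    exact Nat.div_le_div_right (e ⟨v, hv⟩).2.le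
  · intro i
    have h1 : #(A.filter fun v => (if h : v ∈ A then (e ⟨v, h⟩ : ℕ) / s else 0) = i)
        ≤ #(Finset.Ico (i * s) ((i + 1) * s)) := by
      apply Finset.card_le_card_of_injOn (fun v => if h : v ∈ A then (e ⟨v, h⟩ : ℕ) else 0)
      · intro v hv
        have hv' := mem_filter.1 (mem_coe.1 hv)
        have hvA := hv'.1
        have h2 := hv'.2
        simp only [hvA, dif_pos] at h2 ⊢
        rw [mem_coe, mem_Ico]
        rw [Nat.div_eq_iff hs] at h2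
        constructor
        · exact h2.1
        · rw [Nat.add_mul, one_mul]
          omega
      · intro v hv w hw hvw
        have hv' := (mem_filter.1 (mem_coe.1 hv)).1
        have hw' := (mem_filter.1 (mem_coe.1 hw)).1
        simp only [hv', hw', dif_pos] at hvw
        have := e.injective (Fin.ext hvw)
        simpa using this
    refine h1.trans ?_
    rw [Nat.card_Ico, Nat.add_mul, one_mul, Nat.add_sub_cancel_left]

/-- The main theorem: high girth set systems. -/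
theorem main : ∃ C : ℝ, 0 < C ∧ ∀ (V : Type u) (I : Type v) [Fintype V] [DecidableEq V] [Fintype I]
    [DecidableEq I] (S : I → Finset V) (t s q r R : ℕ), 1 ≤ t → t ≤ s → s ≤ R ^ q * t → 2 ≤ R →
    1 ≤ r → (Nat.log 2 s) ^ 9 ≤ t → (∀ v, #(univ.filter fun i => v ∈ S i) ≤ t) →
    (∀ (a : V ⊕ I) (c : (incGraph S).Walk a a), c.IsCycle → 4 * (q + r) + 4 ≤ c.length) →
    ∃ χ : V → ℤ, (∀ v, χ v = 1 ∨ χ v = -1) ∧
      ∀ i, |((∑ v ∈ S i, χ v : ℤ) : ℝ)| ≤
        C * √t * ((R : ℝ) ^ 2 + √((Nat.log 2)^[r + 1] s : ℕ)) * (1 + (#(S i) : ℝ) / s) := by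
  obtain ⟨ℓ0, h2, hℓ0⟩ := exists_ell
  refine ⟨60000 + 2 ^ (ℓ0 + 1), by positivity, ?_⟩
  intro V I _ _ _ _ S t s q r R ht1 hts hs hR hr1 htℓ ht hgirth
  classical
  have hs1 : 1 ≤ s := ht1.trans hts
  have hs' : (0 : ℝ) < s := by exact_mod_cast hs1
  have hsqrt1 : (1 : ℝ) ≤ √t := by
    rw [Real.one_le_sqrt]
    exact_mod_cast ht1
  have hR' : (2 : ℝ) ≤ R := by exact_mod_cast hR
  have hR1 : (1 : ℝ) ≤ (R : ℝ) ^ 2 := by nlinarith
  have hsl := Real.sqrt_nonneg (((Nat.log 2)^[r + 1] s : ℕ) : ℝ)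
  rcases Nat.lt_or_ge (Nat.log 2 s) ℓ0 with hlt | hge
  · -- bounded s
    refine ⟨fun _ => 1, fun _ => Or.inl rfl, fun i => ?_⟩
    have h1 : ((∑ v ∈ S i, (1 : ℤ) : ℤ) : ℝ) = #(S i) := by simp
    rw [h1, abs_of_nonneg (Nat.cast_nonneg _)]
    have h3 : (s : ℝ) ≤ 2 ^ (ℓ0 + 1) := by
      have h4 : s ≤ 2 ^ (ℓ0 + 1) :=
        (s_lt s).le.trans (Nat.pow_le_pow_right (by norm_num) (by omega))
      exact_mod_cast h4
    have h5 : (0 : ℝ) ≤ (#(S i) : ℝ) / s := by positivity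
    have h6 : (1 : ℝ) ≤ √t * ((R : ℝ) ^ 2 + √(((Nat.log 2)^[r + 1] s : ℕ) : ℝ)) := by
      nlinarith
    have h7 : (s : ℝ) ≤ (60000 + 2 ^ (ℓ0 + 1)) * (√t * ((R : ℝ) ^ 2 +
        √(((Nat.log 2)^[r + 1] s : ℕ) : ℝ))) := by
      have h8 : (0 : ℝ) ≤ 60000 + 2 ^ (ℓ0 + 1) := by positivity
      nlinarith
    calc (#(S i) : ℝ) = s * ((#(S i) : ℝ) / s) := by field_simp
      _ ≤ s * (1 + (#(S i) : ℝ) / s) := mul_le_mul_of_nonneg_left (by linarith) hs'.le
      _ ≤ ((60000 + 2 ^ (ℓ0 + 1)) * (√t * ((R : ℝ) ^ 2 +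
        √(((Nat.log 2)^[r + 1] s : ℕ) : ℝ)))) * (1 + (#(S i) : ℝ) / s) :=
          mul_le_mul_of_nonneg_right h7 (by linarith)
      _ = _ := by ring
  · have hns : NoShort S (4 * (q + r)) := noShort_of_girth S (by omega) hgirth
    have hblock := fun i => exists_block (S i) s hs1
    choose f hf1 hf2 using hblock
    let S' : I × Fin (Fintype.card V + 1) → Finset V :=
      fun p => (S p.1).filter fun v => f p.1 v = p.2
    obtain ⟨χ, hχ1, hχ2⟩ := bounded h2 hℓ0 S' ht1 hts hs hR hr1 hge htℓ (by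
      intro v
      refine le_trans ?_ (ht v)
      apply Finset.card_le_card_of_injOn Prod.fst
      · intro p hp
        have hp' := (mem_filter.1 (mem_coe.1 hp)).2
        have hp'' := (mem_filter.1 hp').1
        exact mem_coe.2 (mem_filter.2 ⟨mem_univ _, hp''⟩)
      · intro p hp p' hp' hpp
        have h1 := (mem_filter.1 (mem_filter.1 (mem_coe.1 hp)).2).2
        have h3 := (mem_filter.1 (mem_filter.1 (mem_coe.1 hp')).2).2
        obtain ⟨j, i⟩ := p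
        obtain ⟨j', i'⟩ := p'
        simp only at hpp h1 h3
        subst hpp
        rw [h1] at h3
        exact Prod.ext rfl (Fin.ext h3)) (fun p => hf2 p.1 p.2)
      (noShort_refine S S' Prod.fst (fun p => filter_subset _ _) (by
        intro p p' hne hpp
        rw [Finset.disjoint_left]
        intro v hv hv'
        have h1 := (mem_filter.1 hv).2
        have h3 := (mem_filter.1 hv').2
        obtain ⟨j, i⟩ := p
        obtain ⟨j', i'⟩ := p'
        simp only at hpp h1 h3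
        subst hpp
        rw [h1] at h3
        exact hne (Prod.ext rfl (Fin.ext h3))) hns)
    refine ⟨χ, hχ1, fun j => ?_⟩
    have hsum : ∑ v ∈ S j, χ v =
        ∑ i ∈ range (#(S j) / s + 1), ∑ v ∈ (S j).filter (fun v => f j v = i), χ v := by
      rw [sum_fiberwise_of_maps_to]
      intro v hv
      rw [mem_range]
      have := hf1 j v hv
      omega
    have hcard : #(S j) ≤ Fintype.card V := card_le_univ _
    obtain ⟨B, hB⟩ : ∃ B : ℝ, B = √t * ((R : ℝ) ^ 2 + √((Nat.log 2)^[r + 1] s : ℕ)) := ⟨_, rfl⟩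
    have hB0 : 0 ≤ B := by
      rw [hB]
      positivity
    have hb : ∀ i ∈ range (#(S j) / s + 1),
        |((∑ v ∈ (S j).filter (fun v => f j v = i), χ v : ℤ) : ℝ)| ≤ 60000 * B := by
      intro i hi
      have hi' : i < Fintype.card V + 1 := by
        have h1 := mem_range.1 hi
        have h3 : #(S j) / s ≤ #(S j) := Nat.div_le_self _ _
        omega
      rw [hB, ← mul_assoc]
      exact hχ2 (j, ⟨i, hi'⟩)
    rw [hsum, Int.cast_sum]
    apply (Finset.abs_sum_le_sum_abs _ _).trans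
    calc ∑ i ∈ range (#(S j) / s + 1),
        |((∑ v ∈ (S j).filter (fun v => f j v = i), χ v : ℤ) : ℝ)| ≤
        ∑ i ∈ range (#(S j) / s + 1), 60000 * B := Finset.sum_le_sum hb
      _ = (((#(S j) / s : ℕ) : ℝ) + 1) * (60000 * B) := by
          rw [sum_const, card_range, nsmul_eq_mul]
          push_cast
          ring
      _ ≤ ((#(S j) : ℝ) / s + 1) * (60000 * B) := by
          have h3 : ((#(S j) / s : ℕ) : ℝ) ≤ (#(S j) : ℝ) / s := Nat.cast_div_le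
          apply mul_le_mul_of_nonneg_right _ (by positivity)
          linarith
      _ ≤ ((#(S j) : ℝ) / s + 1) * ((60000 + 2 ^ (ℓ0 + 1)) * B) := by
          have h4 : (0 : ℝ) ≤ 2 ^ (ℓ0 + 1) * B := by positivity
          apply mul_le_mul_of_nonneg_left _ (by positivity)
          nlinarith
      _ = _ := by
          rw [hB]
          ring

end Pool.Agent.Helper18.HG
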